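import Pool.Agent.Helper13.TW.StB

/-!
# Project TW (MP_a45945_gt), module WSX: existence of local orientations

The open set `U` is the set `N` of `HM2.ori`, with the relative cycle `c`.  The value `ω y e` is the
integer `m` such that the image of `e` minus `m c` is a relative boundary at `y`.
-/

set_option autoImplicit false

namespace Pool.Agent.Helper34.TW

open Set Topology Pool.Agent.Helper13.TR Pool.Agent.Helper13.TW

/-- the inclusion of a subset -/
private def inc {X : Type} [TopologicalSpace X] (U : Set X) : C(↥U, X) :=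
  ⟨Subtype.val, continuous_subtype_val⟩

/-- the orientation: the integer `m` such that the class of `e` at `y` is `m` times the class of `c` -/
private noncomputable def om {X : Type} [TopologicalSpace X] (U : Set X) (c : Ch X 2) (y : ↥U)
    (e : Ch ↥U 2) : ℤ := by
  classical
  exact if h : ∃ m : ℤ, push (inc U) 2 e - m • c ∈ Nul {(y : X)} 2 then Classical.choose h else 0

private lemma om_eq {X : Type} [TopologicalSpace X] (U : Set X) (c : Ch X 2) (y : ↥U)
    (e : Ch ↥U 2) (hg : Gen2 (y : X) c) (m : ℤ)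
    (hm : push (inc U) 2 e - m • c ∈ Nul {(y : X)} 2) : om U c y e = m := by
  classical
  have hex : ∃ m : ℤ, push (inc U) 2 e - m • c ∈ Nul {(y : X)} 2 := ⟨m, hm⟩
  have hdef : om U c y e = Classical.choose hex := by
    unfold om
    rw [dif_pos hex]
  have hch := Classical.choose_spec hex
  rw [← hdef] at hch
  have h1 := Submodule.sub_mem _ hm hch
  have h2 : (push (inc U) 2 e - m • c) - (push (inc U) 2 e - om U c y e • c)
      = (om U c y e - m) • c := by
    rw [sub_smul]
    abel
  rw [h2] at h1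
  have h3 := hg.2 _ h1
  linarith

private lemma pre_sing {X : Type} [TopologicalSpace X] (U : Set X) (y : ↥U) :
    ((inc U) ⁻¹' {(y : X)} : Set ↥U) = {y} := by
  ext z
  constructor
  · intro hz
    exact Subtype.ext hz
  · intro hz
    have : z = y := hz
    subst this
    rfl

private lemma pre_compl {X : Type} [TopologicalSpace X] (U : Set X) (y : ↥U) :
    ((inc U) ⁻¹' {(y : X)}ᶜ : Set ↥U) = {y}ᶜ := by
  rw [preimage_compl, pre_sing]

/-- relative cycles go to relative cycles -/
private lemma push_cyc (hPSH : StPSH) {X : Type} [TopologicalSpace X] (U : Set X) (y : ↥U) (n : ℕ)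
    (e : Ch ↥U (n + 1)) (he : e ∈ Cyc {y} (n + 1)) :
    push (inc U) (n + 1) e ∈ Cyc {(y : X)} (n + 1) := by
  have h1 : bd n e ∈ cin {y}ᶜ n := he
  obtain ⟨p1, -, p3, -, -, -⟩ := hPSH ↥U X X (inc U) (ContinuousMap.id X)
  show bd n (push (inc U) (n + 1) e) ∈ cin {(y : X)}ᶜ n
  rw [p1]
  apply p3
  rw [pre_compl]
  exact h1

/-- relative boundaries go to relative boundaries -/
private lemma push_nul (hPSH : StPSH) {X : Type} [TopologicalSpace X] (U : Set X) (y : ↥U) (n : ℕ)
    (e : Ch ↥U n) (he : e ∈ Nul {y} n) :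
    push (inc U) n e ∈ Nul {(y : X)} n := by
  obtain ⟨p1, -, p3, -, -, -⟩ := hPSH ↥U X X (inc U) (ContinuousMap.id X)
  obtain ⟨r, hr, q, ⟨b, hb⟩, hrq⟩ := Submodule.mem_sup.1 he
  rw [← hrq, ← hb, map_add, ← p1]
  refine Submodule.add_mem_sup ?_ ⟨_, rfl⟩
  apply p3
  rw [pre_compl]
  exact hr

/-- excision at a point -/
private lemma exi (hEXI : StEXI) {X : Type} [TopologicalSpace X] [T3Space X] (U : Set X)
    (hU : IsOpen U) (y : ↥U) (n : ℕ) (e : Ch ↥U n)
    (he : push (inc U) n e ∈ Nul {(y : X)} n) : e ∈ Nul {y} n := by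
  have h := hEXI X U {(y : X)} hU isClosed_singleton (singleton_subset_iff.2 y.2) n e he
  have h2 : (Subtype.val ⁻¹' {(y : X)} : Set ↥U) = {y} := pre_sing U y
  rw [h2] at h
  exact h

/-- **Module WSX.** -/
theorem hWSX (hSM : StSM) (hSDA : StSDA) (hPSH : StPSH) (hMON : StMON) (hEXI : StEXI)
    (hCON : StCON) : StWSX := by
  intro X _ _ hHM x
  obtain ⟨N, hNo, hxN, c, hc, hgen⟩ := hHM.ori x
  refine ⟨N, hNo, hxN, om N c, ?_⟩
  obtain ⟨mon1, -, mon3, -, mon5, -⟩ := hMON X
  obtain ⟨p1, -, p3, p4, p5, p6⟩ := hPSH ↥N X X (inc N) (ContinuousMap.id X)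
  have hinj : Function.Injective (inc N) := Subtype.val_injective
  have hemb : IsEmbedding (inc N) := IsEmbedding.subtypeVal
  -- the class exists
  have hex : ∀ (y : ↥N) (e : Ch ↥N 2), e ∈ Cyc {y} 2 →
      push (inc N) 2 e - om N c y e • c ∈ Nul {(y : X)} 2 := by
    intro y e he
    obtain ⟨m, hm⟩ := (hgen y y.2).1 _ (push_cyc hPSH N y 1 e he)
    rw [om_eq N c y e (hgen y y.2) m hm]
    exact hm
  refine ⟨?_, ?_, ?_, ?_, ?_, ?_⟩
  · -- low
    intro y e he
    exact exi hEXI N hNo y 1 e (hHM.low y (push_cyc hPSH N y 0 e he))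
  · -- add
    intro y e he e' he'
    apply om_eq N c y _ (hgen y y.2)
    have h1 := Submodule.add_mem _ (hex y e he) (hex y e' he')
    have h2 : (push (inc N) 2 e - om N c y e • c) + (push (inc N) 2 e' - om N c y e' • c)
        = push (inc N) 2 (e + e') - (om N c y e + om N c y e') • c := by
      rw [map_add, add_smul]
      abel
    rw [h2] at h1
    exact h1
  · -- nul
    intro y e he
    apply om_eq N c y _ (hgen y y.2)
    rw [zero_smul, sub_zero]
    exact push_nul hPSH N y 2 e he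
  · -- ker
    intro y e he h0
    have h1 := hex y e he
    rw [h0, zero_smul, sub_zero] at h1
    exact exi hEXI N hNo y 2 e h1
  · -- one
    intro y
    have hU : N ∪ {(y : X)}ᶜ = univ := by
      ext z
      simp only [mem_union, mem_compl_iff, mem_singleton_iff, mem_univ, iff_true]
      by_cases h : z = y
      · left
        rw [h]
        exact y.2
      · right
        exact h
    have hcu : c ∈ cin (N ∪ {(y : X)}ᶜ) 2 := by
      rw [hU, mon3]
      trivial
    have hbc : bd 1 c ∈ cin {(y : X)}ᶜ 1 := by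
      have h1 : bd 1 c ∈ cin Nᶜ 1 := hc
      exact mon1 _ _ 1 (compl_subset_compl.2 (singleton_subset_iff.2 y.2)) h1
    have hcb : c ∈ BdIn (fun k => cin N k ⊔ cin {(y : X)}ᶜ k) 2 := by
      show bd 1 c ∈ cin N 1 ⊔ cin {(y : X)}ᶜ 1
      exact Submodule.mem_sup_right hbc
    obtain ⟨c₁, hc₁, c₂, hc₂, f, -, hcf⟩ :=
      hSM X N {(y : X)}ᶜ hNo isOpen_compl_singleton 2 c hcu hcb
    have himg : (inc N) '' univ = N := by
      rw [image_univ]
      exact Subtype.range_val
    obtain ⟨e', -, he'⟩ := p5 hemb univ 2 c₁ (by rw [himg]; exact hc₁)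
    have hb1 : bd 1 c₁ = bd 1 c - bd 1 c₂ := by
      have h2 := (hSDA X).1 1 f
      rw [hcf, map_add, map_add, h2]
      abel
    have hbc₂ : bd 1 c₂ ∈ cin {(y : X)}ᶜ 1 := (hMON X).2.2.2.1 _ 1 c₂ hc₂
    have hcyc : e' ∈ Cyc {y} 2 := by
      show bd 1 e' ∈ cin {y}ᶜ 1
      rw [← pre_compl]
      apply p6 hinj
      rw [← p1, he', hb1]
      exact Submodule.sub_mem _ hbc hbc₂
    refine ⟨e', hcyc, ?_⟩
    apply om_eq N c y _ (hgen y y.2)
    rw [he', one_smul]
    have h3 : c₁ - c = -c₂ + bd 2 (-f) := by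
      rw [map_neg]
      nth_rewrite 1 [hcf]
      abel
    rw [h3]
    exact Submodule.add_mem_sup (Submodule.neg_mem _ hc₂) ⟨_, rfl⟩
  · -- loc
    intro e O _ hbe a b hab
    obtain ⟨γ, hγ⟩ := hab
    have hloc : IsLocallyConstant fun t : unitInterval => om N c (γ t) e := by
      rw [IsLocallyConstant.iff_exists_open]
      intro t
      have hcyc : e ∈ Cyc {γ t} 2 := by
        show bd 1 e ∈ cin {γ t}ᶜ 1
        exact (hMON ↥N).1 _ _ 1 (compl_subset_compl.2 (singleton_subset_iff.2 (hγ t))) hbe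
      have h1 := hex (γ t) e hcyc
      obtain ⟨O', hO', htO', hn⟩ := hCON.1 X X (ContinuousMap.id X) {((γ t : ↥N) : X)} 2 _ h1
      refine ⟨(fun s : unitInterval => ((γ s : ↥N) : X)) ⁻¹' O', ?_, ?_, ?_⟩
      · exact hO'.preimage (continuous_subtype_val.comp γ.continuous)
      · exact htO' rfl
      · intro s hs
        apply om_eq N c (γ s) e (hgen _ (γ s).2)
        have h2 : Nul (ContinuousMap.id X ⁻¹' O') 2 ≤ Nul {((γ s : ↥N) : X)} 2 :=
          (mon5 _ _ 2 (singleton_subset_iff.2 hs)).2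
        exact h2 hn
    have h := hloc.apply_eq_of_preconnectedSpace 0 1
    simpa using h

end Pool.Agent.Helper34.TW
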