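import Pool.Agent.Helper31.TW.St2

set_option autoImplicit false

namespace Pool.Agent.Helper34.TW

open Pool.Agent.Helper31.TW

private lemma dot_lin {n : ℕ} (γ y w : Fin n → ℤ) (N : ℤ) :
    dot γ (N • y + w) = N * dot γ y + dot γ w := by
  unfold dot
  rw [Finset.mul_sum, ← Finset.sum_add_distrib]
  refine Finset.sum_congr rfl (fun i _ => ?_)
  simp only [Pi.add_apply, Pi.smul_apply, smul_eq_mul]
  ring

private lemma key_pos (N a b : ℤ) (ha : 0 < a) (hN : |b| < N) : 0 < N * a + b := by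
  have h1 : -|b| ≤ b := neg_abs_le b
  have h2 : 0 ≤ |b| := abs_nonneg b
  nlinarith

private lemma key_neg (N a b : ℤ) (ha : a < 0) (hN : |b| < N) : N * a + b < 0 := by
  have h1 : b ≤ |b| := le_abs_self b
  have h2 : 0 ≤ |b| := abs_nonneg b
  nlinarith

theorem hNEA : StNEA := by
  intro n A y w hy
  refine ⟨(1 + ∑ i, (w i).natAbs) + ∑ γ ∈ A, (dot γ w).natAbs, fun N hN => ?_⟩
  have hw : ∀ i, |w i| < N := by
    intro i
    have h1 : (w i).natAbs ≤ ∑ i, (w i).natAbs :=
      Finset.single_le_sum (f := fun i => (w i).natAbs) (fun _ _ => Nat.zero_le _)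
        (Finset.mem_univ i)
    have h2 : |w i| = ((w i).natAbs : ℤ) := Int.abs_eq_natAbs _
    rw [h2]
    omega
  have hg : ∀ γ ∈ A, |dot γ w| < N := by
    intro γ hγ
    have h1 : (dot γ w).natAbs ≤ ∑ γ ∈ A, (dot γ w).natAbs :=
      Finset.single_le_sum (f := fun γ => (dot γ w).natAbs) (fun _ _ => Nat.zero_le _) hγ
    have h2 : |dot γ w| = ((dot γ w).natAbs : ℤ) := Int.abs_eq_natAbs _
    rw [h2]
    omega
  refine ⟨?_, ?_, ?_⟩
  · intro i
    have h3 := key_pos N (y i) (w i) (hy i) (hw i)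
    simpa using h3
  · intro γ hγ hne
    rw [dot_lin]
    rcases lt_or_gt_of_ne hne with h | h
    · rw [Int.sign_eq_neg_one_of_neg (key_neg N _ _ h (hg γ hγ)), Int.sign_eq_neg_one_of_neg h]
    · rw [Int.sign_eq_one_of_pos (key_pos N _ _ h (hg γ hγ)), Int.sign_eq_one_of_pos h]
  · intro γ hγ h0
    rw [dot_lin, h0, mul_zero, zero_add]

end Pool.Agent.Helper34.TW
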