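import Pool.Agent.Helper34.TW.StA

set_option autoImplicit false

open scoped Pointwise NumberField
open NumberField Polynomial Pool.RG2

namespace Pool.TW

theorem hA10 : StA10 := by
  intro hA1 Γ _ r Y _ _ _ hodd S g
  classical
  obtain ⟨-, -, -, -, -, h6, -⟩ := hA1 Γ r Y S
  obtain ⟨-, h8, -⟩ := h6 hodd
  let x : Module.Basis (Fin (fixD Y S g)) (ZMod 2) (FixEv Y S g) :=
    Module.finBasis (ZMod 2) (FixEv Y S g)
  have prc : ∀ m m' : Pt Y S → ZMod 2, pr Y m m' = pr Y m' m := by
    intro m m'
    exact Finset.sum_congr rfl (fun x _ => mul_comm _ _)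
  -- the evaluation map
  let Φ : Ev Y S →ₗ[ZMod 2] (Fin (fixD Y S g) → ZMod 2) :=
    { toFun := fun m j => pr Y (m : Pt Y S → ZMod 2) (x j : Pt Y S → ZMod 2)
      map_add' := by
        intro a b
        funext j
        simp only [pr, Submodule.coe_add, Pi.add_apply, add_mul, Finset.sum_add_distrib]
      map_smul' := by
        intro c a
        funext j
        simp only [pr, Submodule.coe_smul, Pi.smul_apply, smul_eq_mul, Finset.mul_sum, mul_assoc,
          RingHom.id_apply] }
  have hΦ : LinearMap.range Φ = ⊤ := by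
    by_contra hne
    obtain ⟨f, hf0, hf⟩ := Submodule.exists_le_ker_of_lt_top _ (lt_top_iff_ne_top.mpr hne)
    apply hf0
    -- the combination
    let z : FixEv Y S g := ∑ j, f (Pi.single j 1) • x j
    have hzc : (z : Pt Y S → ZMod 2) = ∑ j, f (Pi.single j 1) • (x j : Pt Y S → ZMod 2) := by
      simp only [z, Submodule.coe_sum, Submodule.coe_smul]
    have hpr : ∀ m ∈ Ev Y S, pr Y (z : Pt Y S → ZMod 2) m = 0 := by
      intro m hm
      have h1 : f (Φ ⟨m, hm⟩) = 0 := hf ⟨⟨m, hm⟩, rfl⟩
      have h2 : f (Φ ⟨m, hm⟩) = ∑ j, pr Y m (x j : Pt Y S → ZMod 2) * f (Pi.single j 1) := by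
        conv_lhs => rw [← Finset.univ_sum_single (Φ ⟨m, hm⟩)]
        rw [map_sum]
        refine Finset.sum_congr rfl (fun j _ => ?_)
        have h3 : (Pi.single j ((Φ ⟨m, hm⟩) j) : Fin (fixD Y S g) → ZMod 2) =
            (pr Y m (x j : Pt Y S → ZMod 2)) • (Pi.single j 1 : Fin (fixD Y S g) → ZMod 2) := by
          funext i
          by_cases hij : i = j
          · subst hij
            simp [Φ]
          · simp [Pi.single_eq_of_ne hij]
        rw [h3, map_smul, smul_eq_mul]
      rw [h1] at h2
      rw [prc, hzc, h2]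
      simp only [pr, Finset.sum_apply, Pi.smul_apply, smul_eq_mul, Finset.mul_sum, Finset.sum_mul]
      rw [Finset.sum_comm]
      refine Finset.sum_congr rfl (fun j _ => Finset.sum_congr rfl (fun y _ => ?_))
      ring
    have hz0 : (z : Pt Y S → ZMod 2) = 0 := h8 _ z.2.1 hpr
    have hz : z = 0 := Subtype.ext hz0
    have hli := Fintype.linearIndependent_iff.mp x.linearIndependent (fun j => f (Pi.single j 1)) hz
    refine LinearMap.pi_ext' (fun j => ?_)
    refine LinearMap.ext_ring ?_
    simpa using hli j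
  have hsurj : Function.Surjective Φ := LinearMap.range_eq_top.mp hΦ
  choose m hm using fun i : Fin (fixD Y S g) => hsurj (Pi.single i 1)
  refine ⟨x, m, ?_⟩
  intro i j
  have h1 := congrFun (hm i) j
  have h2 : (Φ (m i)) j = pr Y (m i : Pt Y S → ZMod 2) (x j : Pt Y S → ZMod 2) := rfl
  rw [← h2, h1]
  by_cases hij : i = j
  · subst hij
    simp
  · rw [if_neg hij, Pi.single_eq_of_ne (Ne.symm hij)]

end Pool.TW
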