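import Pool.Agent.Helper34.TW.StA

/-!
# Project TW, module A11 (killing element)

`StA8` itself takes `StA6`, `StA7` as hypotheses, so they are hypotheses here, too.
-/

set_option autoImplicit false

namespace Pool.TW

private theorem act_congr_A11 {Γ : Type} [Group Γ] {r : ℕ} (Y : Fin r → Type) [∀ s, Fintype (Y s)]
    [∀ s, MulAction Γ (Y s)] (g g0 : Γ) (hg : ∀ s (y : Y s), g • y = g0 • y) (S : Finset (Fin r))
    (m : Pt Y S → ZMod 2) : act Y g m = act Y g0 m := by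
  funext x
  show m (g⁻¹ • x) = m (g0⁻¹ • x)
  congr 1
  funext s
  show g⁻¹ • x s = g0⁻¹ • x s
  rw [inv_smul_eq_iff, hg, smul_inv_smul]

private theorem pr_comm_A11 {Γ : Type} [Group Γ] {r : ℕ} (Y : Fin r → Type) [∀ s, Fintype (Y s)]
    [∀ s, MulAction Γ (Y s)] {S : Finset (Fin r)} (m m' : Pt Y S → ZMod 2) : pr Y m m' = pr Y m' m := by
  unfold pr
  exact Finset.sum_congr rfl fun x _ => mul_comm _ _

private theorem pr_sum_A11 {r : ℕ} (Y : Fin r → Type) [∀ s, Fintype (Y s)]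
    {S : Finset (Fin r)} {n : ℕ} (x m : Fin n → Pt Y S → ZMod 2)
    (h : ∀ i j, pr Y (m i) (x j) = if i = j then 1 else 0) (a b : Fin n → ZMod 2) :
    pr Y (∑ i, a i • x i) (∑ i, b i • m i) = ∑ i, a i * b i := by
  have h1 : ∀ i j, ∑ y, x i y * m j y = if j = i then 1 else 0 := by
    intro i j
    rw [← h j i]
    unfold pr
    exact Finset.sum_congr rfl fun y _ => mul_comm _ _
  unfold pr
  simp only [Finset.sum_apply, Pi.smul_apply, smul_eq_mul]
  have h2 : ∀ y, (∑ i, a i * x i y) * (∑ j, b j * m j y) = ∑ i, ∑ j, a i * b j * (x i y * m j y) := by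
    intro y
    rw [Finset.sum_mul_sum]
    refine Finset.sum_congr rfl fun i _ => Finset.sum_congr rfl fun j _ => ?_
    ring
  simp only [h2]
  rw [Finset.sum_comm]
  refine Finset.sum_congr rfl fun i _ => ?_
  rw [Finset.sum_comm]
  rw [Finset.sum_eq_single i]
  · rw [← Finset.mul_sum, h1, if_pos rfl, mul_one]
  · intro j _ hj
    rw [← Finset.mul_sum, h1, if_neg hj, mul_zero]
  · intro hi
    exact absurd (Finset.mem_univ i) hi

theorem hA11 (h6 : StA6) (h7 : StA7) : StA11 := by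
  intro h1 h8 h9 h10 Γ _ r Y _ _ _ hodd h3 Γ' hcomm hperm E hEfin hE0 hEcoc hEcob g0 _hτ hfix 𝒮 J d W hW hnum
    S0 c0 hc0 hc0ne
  have hfr : ∀ S ∈ 𝒮, ∀ k, d S ≤ Module.finrank (ZMod 2) ((W S k).comap (E S).subtype) := by
    intro S hS k
    rw [(Submodule.comapSubtypeEquivOfLe (hW S hS k).1).finrank_eq]
    exact (hW S hS k).2
  have key1 : ∀ (S : Finset (Fin r)) (c : E S), c ≠ 0 → ∃ ψ : E S →ₗ[ZMod 2] (Fin (fixD Y S g0) → ZMod 2),
      (S ∈ 𝒮 → ∀ k, ((W S k).comap (E S).subtype).map ψ = ⊤) ∧ ψ c ≠ 0 := by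
    intro S c hc
    haveI := hEfin S
    by_cases hS : S ∈ 𝒮
    · obtain ⟨ψ, hψ1, hψ2⟩ := h9 (E S) (fixD Y S g0) (J S) (d S) (fun k => (W S k).comap (E S).subtype) c hc
        (hfix S) (hnum S hS) (hfr S hS)
      exact ⟨ψ, fun _ => hψ1, hψ2⟩
    · obtain ⟨ψ, _, hψ2⟩ := h9 (E S) (fixD Y S g0) 0 (fixD Y S g0) (fun k => k.elim0) c hc
        (hfix S) (Or.inl ⟨by omega, le_refl _⟩) (fun k => k.elim0)
      exact ⟨ψ, fun h => absurd h hS, hψ2⟩
  have key2 : ∀ S : Finset (Fin r), ∃ ψ : E S →ₗ[ZMod 2] (Fin (fixD Y S g0) → ZMod 2),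
      (S ∈ 𝒮 → ∀ k, ((W S k).comap (E S).subtype).map ψ = ⊤) := by
    intro S
    haveI := hEfin S
    by_cases hc : ∃ c : E S, c ≠ 0
    · obtain ⟨c, hc⟩ := hc
      obtain ⟨ψ, hψ, _⟩ := key1 S c hc
      exact ⟨ψ, hψ⟩
    · refine ⟨0, fun hS k => ?_⟩
      exfalso
      push Not at hc
      have hsub : Subsingleton (E S) := ⟨fun a b => by rw [hc a, hc b]⟩
      have h0 : Module.finrank (ZMod 2) ((W S k).comap (E S).subtype) = 0 := by
        haveI : Subsingleton ((W S k).comap (E S).subtype) := ⟨fun a b => Subtype.ext (hsub.elim _ _)⟩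
        exact Module.finrank_zero_of_subsingleton
      have hd := hfr S hS k
      have hf := hfix S
      rcases hnum S hS with ⟨_, h⟩ | ⟨n, _, _, h⟩ <;> omega
  choose ψ' hψ' using key2
  have hc0' : (⟨c0, hc0⟩ : E S0) ≠ 0 := by
    intro h
    exact hc0ne (congrArg Subtype.val h)
  obtain ⟨ψ0, hψ01, hψ02⟩ := key1 S0 ⟨c0, hc0⟩ hc0'
  obtain ⟨ψ, hψ1, hψ2⟩ : ∃ ψ : (S : Finset (Fin r)) → E S →ₗ[ZMod 2] (Fin (fixD Y S g0) → ZMod 2),
      (∀ S ∈ 𝒮, ∀ k, ((W S k).comap (E S).subtype).map (ψ S) = ⊤) ∧ ψ S0 ⟨c0, hc0⟩ ≠ 0 := by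
    classical
    refine ⟨Function.update ψ' S0 ψ0, ?_, ?_⟩
    · intro S hS k
      by_cases h : S = S0
      · subst h
        rw [Function.update_self]
        exact hψ01 hS k
      · rw [Function.update_of_ne h]
        exact hψ' S hS k
    · rw [Function.update_self]
      exact hψ02
  choose x m hxm using fun S => h10 h1 Γ r Y hodd S g0
  obtain ⟨g, hgΓ, hg, hval⟩ := h8 h1 h6 h7 Γ r Y hodd h3 Γ' hcomm hperm E hEfin hE0 hEcoc hEcob
    (fun S => (Fintype.linearCombination (ZMod 2) (m S)).comp (ψ S))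
    (fun s => MulAction.toPerm g0)
  have hg' : ∀ s (y : Y s), g • y = g0 • y := hg
  have hval' : ∀ S, ∀ w : E S, w.1 g = ∑ i, ψ S w i • (m S i : Pt Y S → ZMod 2) := by
    intro S w
    rw [hval S w]
    simp only [LinearMap.comp_apply, Fintype.linearCombination_apply, Submodule.coe_sum, Submodule.coe_smul]
  have hfixeq : ∀ S z, z ∈ FixEv Y S g → z ∈ FixEv Y S g0 := by
    rintro S z ⟨hz1, hz2⟩
    refine ⟨hz1, ?_⟩
    rw [← act_congr_A11 Y g g0 hg' S z]
    exact hz2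
  have hfixeq' : ∀ S z, z ∈ FixEv Y S g0 → z ∈ FixEv Y S g := by
    rintro S z ⟨hz1, hz2⟩
    refine ⟨hz1, ?_⟩
    rw [act_congr_A11 Y g g0 hg' S z]
    exact hz2
  have hpr : ∀ S (z : FixEv Y S g0) (w : E S),
      pr Y (z : Pt Y S → ZMod 2) (w.1 g) = ∑ i, (x S).repr z i * ψ S w i := by
    intro S z w
    rw [hval' S w]
    have hz : (z : Pt Y S → ZMod 2) = ∑ i, (x S).repr z i • (x S i : Pt Y S → ZMod 2) := by
      conv_lhs => rw [← (x S).sum_repr z]
      simp only [Submodule.coe_sum, Submodule.coe_smul]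
    rw [hz]
    exact pr_sum_A11 Y (fun i => (x S i : Pt Y S → ZMod 2)) (fun i => (m S i : Pt Y S → ZMod 2)) (hxm S)
      (fun i => (x S).repr z i) (fun i => ψ S w i)
  refine ⟨g, hgΓ, hg', ?_, ?_⟩
  · intro S hS k z hz hzw
    have hz0 := hfixeq S z hz
    have hrepr : (x S).repr ⟨z, hz0⟩ = 0 := by
      ext j
      have hj : (Pi.single j 1 : Fin (fixD Y S g0) → ZMod 2) ∈ ((W S k).comap (E S).subtype).map (ψ S) := by
        rw [hψ1 S hS k]
        exact Submodule.mem_top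
      obtain ⟨w, hw, hwj⟩ := hj
      have h := hzw w.1 hw
      rw [hpr S ⟨z, hz0⟩ w, hwj] at h
      rw [Finset.sum_eq_single j] at h
      · rw [Pi.single_eq_same, mul_one] at h
        exact h
      · intro i _ hi
        rw [Pi.single_eq_of_ne hi, mul_zero]
      · intro hi
        exact absurd (Finset.mem_univ j) hi
    have hz00 : (⟨z, hz0⟩ : FixEv Y S g0) = 0 := by
      rw [← (x S).repr.map_eq_zero_iff]
      exact hrepr
    exact congrArg Subtype.val hz00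
  · obtain ⟨i, hi⟩ : ∃ i, ψ S0 ⟨c0, hc0⟩ i ≠ 0 := by
      by_contra hcon
      push Not at hcon
      exact hψ2 (funext hcon)
    refine ⟨(x S0 i : Pt Y S0 → ZMod 2), hfixeq' S0 _ (x S0 i).2, ?_⟩
    have h := hpr S0 (x S0 i) ⟨c0, hc0⟩
    rw [show pr Y (x S0 i : Pt Y S0 → ZMod 2) (c0 g) = _ from h]
    rw [Finset.sum_eq_single i]
    · rw [Module.Basis.repr_self, Finsupp.single_eq_same, one_mul]
      exact hi
    · intro j _ hj
      rw [Module.Basis.repr_self, Finsupp.single_eq_of_ne hj, zero_mul]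
    · intro hi'
      exact absurd (Finset.mem_univ i) hi'

end Pool.TW
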