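import Pool.Agent.Helper34.TW.StA

/-!
# Project TW, module A12: transport of the values to a conjugate of a power
-/

set_option autoImplicit false

open scoped Pointwise NumberField
open NumberField Polynomial Pool.RG2

namespace Pool.TW

private theorem pr_add_A12 {r : ℕ} (Y : Fin r → Type) [∀ s, Fintype (Y s)] {S : Finset (Fin r)}
    (x m m' : Pt Y S → ZMod 2) : pr Y x (m + m') = pr Y x m + pr Y x m' := by
  simp only [pr, Pi.add_apply, mul_add, Finset.sum_add_distrib]

private theorem pr_neg_A12 {r : ℕ} (Y : Fin r → Type) [∀ s, Fintype (Y s)] {S : Finset (Fin r)}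
    (x m : Pt Y S → ZMod 2) : pr Y x (-m) = -pr Y x m := by
  simp only [pr, Pi.neg_apply, mul_neg, Finset.sum_neg_distrib]

theorem hA12 : StA12 := by
  intro hA1 Γ _ r Y _ _ _ N _ htriv g γ φ k hk heven hφ S
  obtain ⟨a_add, a_one, a_mul, a_ev, a_pr, -⟩ := hA1 Γ r Y S
  have a_zero : ∀ h : Γ, act Y h (0 : Pt Y S → ZMod 2) = 0 := by
    intro h
    funext x
    simp [act]
  have a_N : ∀ n ∈ N, ∀ m : Pt Y S → ZMod 2, act Y n m = m := by
    intro n hn m
    funext x
    have h1 : n⁻¹ • x = x := by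
      funext s
      exact htriv n⁻¹ (N.inv_mem hn) s (x s)
    simp only [act, h1]
  -- the stabilizer
  have key : ∀ x : Pt Y S → ZMod 2, act Y (g ^ k) x = x ↔ act Y g x = x := by
    intro x
    let St : Subgroup Γ :=
      { carrier := {h | act Y h x = x}
        mul_mem' := by
          intro a b ha hb
          show act Y (a * b) x = x
          rw [a_mul]
          have hb' : act Y b x = x := hb
          rw [hb']
          exact ha
        one_mem' := a_one x
        inv_mem' := by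
          intro a ha
          show act Y a⁻¹ x = x
          have ha' : act Y a x = x := ha
          have h1 : act Y a⁻¹ (act Y a x) = x := by
            rw [← a_mul, inv_mul_cancel, a_one]
          rw [ha'] at h1
          exact h1 }
    constructor
    · intro hx
      have h1 : g ^ k ∈ St := hx
      have h2 : g ^ (orderOf (g : Γ ⧸ N)) ∈ St := by
        have h3 : g ^ (orderOf (g : Γ ⧸ N)) ∈ N := by
          rw [← QuotientGroup.eq_one_iff, QuotientGroup.mk_pow]
          exact pow_orderOf_eq_one _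
        exact a_N _ h3 x
      obtain ⟨a, b, hab⟩ := Nat.isCoprime_iff_coprime.2 hk
      have h4 : (g ^ k) ^ a * (g ^ (orderOf (g : Γ ⧸ N))) ^ b = g := by
        rw [← zpow_natCast g k, ← zpow_natCast g (orderOf (g : Γ ⧸ N)), ← zpow_mul, ← zpow_mul, ← zpow_add]
        have h5 : (k : ℤ) * a + (orderOf (g : Γ ⧸ N) : ℤ) * b = 1 := by
          rw [mul_comm (k : ℤ), mul_comm (orderOf (g : Γ ⧸ N) : ℤ)]
          exact hab
        rw [h5, zpow_one]
      have h6 : (g ^ k) ^ a * (g ^ (orderOf (g : Γ ⧸ N))) ^ b ∈ St :=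
        St.mul_mem (St.zpow_mem h1 a) (St.zpow_mem h2 b)
      rw [h4] at h6
      exact h6
    · intro hx
      have h1 : g ∈ St := hx
      exact St.pow_mem h1 k
  have a_pow : ∀ x : Pt Y S → ZMod 2, act Y g x = x → ∀ i : ℕ, act Y (g ^ i) x = x := by
    intro x hx i
    induction i with
    | zero => rw [pow_zero, a_one]
    | succ i ih => rw [pow_succ, a_mul, hx, ih]
  -- the action of φ
  have hν : (γ * g ^ k * γ⁻¹)⁻¹ * φ ∈ N := by
    have h1 := N.inv_mem hφ
    rw [mul_inv_rev, inv_inv] at h1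
    exact h1
  have hφ' : φ = (γ * g ^ k * γ⁻¹) * ((γ * g ^ k * γ⁻¹)⁻¹ * φ) := by
    rw [mul_inv_cancel_left]
  have a_φ : ∀ m : Pt Y S → ZMod 2, act Y φ m = act Y (γ * g ^ k * γ⁻¹) m := by
    intro m
    conv_lhs => rw [hφ']
    rw [a_mul, a_N _ hν]
  have hγ : ∀ m : Pt Y S → ZMod 2, act Y γ (act Y γ⁻¹ m) = m := by
    intro m
    rw [← a_mul, mul_inv_cancel, a_one]
  have hγ' : ∀ m : Pt Y S → ZMod 2, act Y γ⁻¹ (act Y γ m) = m := by
    intro m
    rw [← a_mul, inv_mul_cancel, a_one]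
  have hfixγ : ∀ x : Pt Y S → ZMod 2, act Y g x = x →
      act Y (γ * g ^ k * γ⁻¹) (act Y γ x) = act Y γ x := by
    intro x hx
    rw [a_mul, hγ', a_mul, a_pow x hx]
  refine ⟨?_, ?_⟩
  · intro x
    constructor
    · rintro ⟨hx1, hx2⟩
      refine ⟨act Y γ⁻¹ x, ⟨a_ev _ _ hx1, ?_⟩, (hγ x).symm⟩
      rw [← key]
      rw [a_φ, a_mul, a_mul] at hx2
      calc act Y (g ^ k) (act Y γ⁻¹ x)
          = act Y γ⁻¹ (act Y γ (act Y (g ^ k) (act Y γ⁻¹ x))) := (hγ' _).symm
        _ = act Y γ⁻¹ x := by rw [hx2]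
    · rintro ⟨x', ⟨hx1, hx2⟩, rfl⟩
      exact ⟨a_ev _ _ hx1, by rw [a_φ]; exact hfixγ x' hx2⟩
  · intro c hc hcN x hx
    obtain ⟨hx1, hx2⟩ := hx
    have hc1 : c 1 = 0 := hcN 1 N.one_mem
    have hinv : act Y γ (c γ⁻¹) = -c γ := by
      have h1 := hc.mul γ γ⁻¹
      rw [mul_inv_cancel, hc1] at h1
      exact (neg_eq_of_add_eq_zero_right h1.symm).symm
    have hcφ : c φ = c γ + (act Y γ (c (g ^ k)) + act Y (γ * g ^ k * γ⁻¹) (-c γ)) := by
      have h1 : c φ = c (γ * g ^ k * γ⁻¹) := by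
        conv_lhs => rw [hφ']
        rw [hc.mul, hcN _ hν, a_zero, add_zero]
      rw [h1, mul_assoc γ, hc.mul γ, hc.mul (g ^ k), a_add, ← hinv, ← a_mul, ← a_mul]
      congr 3
      group
    have hpow : ∀ i : ℕ, pr Y x (c (g ^ i)) = (i : ZMod 2) * pr Y x (c g) := by
      intro i
      induction i with
      | zero =>
        rw [pow_zero, hc1]
        simp [pr]
      | succ i ih =>
        rw [pow_succ, hc.mul, pr_add_A12, ih]
        have h1 : pr Y x (act Y (g ^ i) (c g)) = pr Y x (c g) := by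
          conv_lhs => rw [← a_pow x hx2 i]
          exact a_pr _ _ _
        rw [h1]
        push_cast
        ring
    have hkodd : (k : ZMod 2) = 1 := by
      have h1 : Odd k := by
        rcases Nat.even_or_odd k with h2 | h2
        · exfalso
          have h3 : 2 ∣ Nat.gcd k (orderOf (g : Γ ⧸ N)) := Nat.dvd_gcd h2.two_dvd heven.two_dvd
          rw [Nat.Coprime] at hk
          rw [hk] at h3
          omega
        · exact h2
      exact (ZMod.natCast_eq_one_iff_odd).2 h1
    have h2 : pr Y (act Y γ x) (act Y (γ * g ^ k * γ⁻¹) (-c γ)) = -pr Y (act Y γ x) (c γ) := by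
      conv_lhs => rw [← hfixγ x hx2]
      rw [a_pr, pr_neg_A12]
    rw [hcφ, pr_add_A12, pr_add_A12, h2, a_pr, hpow, hkodd]
    ring

end Pool.TW
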