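import Pool.Agent.Helper34.TW.StA

/-! TW module A14 (helper93): numbers for at least four factors. -/

set_option autoImplicit false

namespace Pool.TW

private theorem two_pow_le_A14 (m : ℕ) (hm : 1 ≤ m) :
    2 ^ (m + 1) ≤ (m + 1) * (m + 1).choose ((m + 1) / 2) := by
  have h1 : ∑ p ∈ Finset.range (m + 1 + 1), (m + 1).choose p = 2 ^ (m + 1) := Nat.sum_range_choose (m + 1)
  rw [Finset.sum_range_succ, Finset.sum_range_succ'] at h1
  have h2 : ∑ p ∈ Finset.range m, (m + 1).choose (p + 1) ≤ m * (m + 1).choose ((m + 1) / 2) := by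
    calc ∑ p ∈ Finset.range m, (m + 1).choose (p + 1)
        ≤ ∑ _p ∈ Finset.range m, (m + 1).choose ((m + 1) / 2) :=
          Finset.sum_le_sum fun p _ => Nat.choose_le_middle (p + 1) (m + 1)
      _ = m * (m + 1).choose ((m + 1) / 2) := by
          rw [Finset.sum_const, Finset.card_range, smul_eq_mul]
  have h3 : 2 ≤ (m + 1).choose ((m + 1) / 2) := by
    have h4 := Nat.choose_le_middle 1 (m + 1)
    rw [Nat.choose_one_right] at h4
    omega
  have h5 : (m + 1).choose 0 = 1 := Nat.choose_zero_right _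
  have h6 : (m + 1).choose (m + 1) = 1 := Nat.choose_self _
  rw [h5, h6] at h1
  have h7 : (m + 1) * (m + 1).choose ((m + 1) / 2)
      = m * (m + 1).choose ((m + 1) / 2) + (m + 1).choose ((m + 1) / 2) := by ring
  omega

private theorem sum_le_A14 (n j : ℕ) (hj : 2 * j ≤ n) :
    2 * ∑ p ∈ Finset.range j, n.choose p + n.choose (n / 2) ≤ 2 ^ n := by
  have h1 : ∑ p ∈ Finset.Ico 0 (n + 1), n.choose p = 2 ^ n := by
    rw [← Finset.range_eq_Ico]
    exact Nat.sum_range_choose n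
  have h2 := Finset.sum_Ico_consecutive (fun p => n.choose p) (Nat.zero_le j) (show j ≤ n + 1 by omega)
  have h3 := Finset.sum_Ico_consecutive (fun p => n.choose p) (show j ≤ n + 1 - j by omega)
    (show n + 1 - j ≤ n + 1 by omega)
  have h4 := Finset.sum_Ico_reflect (fun p => n.choose p) 0 (show j ≤ n + 1 by omega)
  have h5 : ∑ i ∈ Finset.Ico 0 j, n.choose (n - i) = ∑ i ∈ Finset.Ico 0 j, n.choose i := by
    refine Finset.sum_congr rfl fun i hi => ?_
    have := (Finset.mem_Ico.1 hi).2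
    exact Nat.choose_symm (by omega)
  have h6 : n.choose (n / 2) ≤ ∑ p ∈ Finset.Ico j (n + 1 - j), n.choose p :=
    Finset.single_le_sum (f := fun p => n.choose p) (fun _ _ => Nat.zero_le _)
      (Finset.mem_Ico.2 ⟨by omega, by omega⟩)
  rw [Finset.range_eq_Ico]
  rw [Nat.sub_zero] at h4
  omega

private theorem prod_ge_A14 {ι : Type} [DecidableEq ι] (T : Finset ι) (f : ι → ℕ) (h1 : ∀ t ∈ T, 1 ≤ f t)
    (h2 : ∀ s ∈ T, ∀ t ∈ T, f s = f t → s = t) : 2 ^ (T.card - 1) ≤ ∏ t ∈ T, f t := by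
  by_cases h : ∃ t ∈ T, f t = 1
  · obtain ⟨t, ht, hft⟩ := h
    rw [← Finset.mul_prod_erase T f ht, hft, one_mul, ← Finset.card_erase_of_mem ht]
    refine Finset.pow_card_le_prod _ _ _ fun s hs => ?_
    have hs1 := Finset.mem_erase.1 hs
    have h3 := h1 s hs1.2
    have h4 : f s ≠ 1 := fun h5 => hs1.1 (h2 s hs1.2 t ht (h5.trans hft.symm))
    omega
  · push Not at h
    calc 2 ^ (T.card - 1) ≤ 2 ^ T.card := Nat.pow_le_pow_right (by norm_num) (Nat.sub_le _ _)
      _ ≤ ∏ t ∈ T, f t := by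
        refine Finset.pow_card_le_prod _ _ _ fun s hs => ?_
        have h3 := h1 s hs
        have h4 := h s hs
        omega

private theorem sq_le_A14 (m : ℕ) : (m + 4) ^ 2 ≤ 2 ^ (2 * m + 5) := by
  induction m with
  | zero => norm_num
  | succ m ih =>
      have h : 2 ^ (2 * (m + 1) + 5) = 4 * 2 ^ (2 * m + 5) := by
        rw [show 2 * (m + 1) + 5 = (2 * m + 5) + 2 by ring, pow_add]
        ring
      rw [h]
      calc (m + 1 + 4) ^ 2 ≤ (2 * (m + 4)) ^ 2 := Nat.pow_le_pow_left (by omega) 2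
        _ = 4 * (m + 4) ^ 2 := by ring
        _ ≤ 4 * 2 ^ (2 * m + 5) := Nat.mul_le_mul_left _ ih

theorem hA14 : StA14 := by
  intro r N hodd h3 hcop S h hl hc
  have hN : ∀ s, N s - 1 = 2 * (N s / 2) := fun s => by
    obtain ⟨k, hk⟩ := hodd s
    omega
  have hprod : ∏ s ∈ S, (N s - 1) = 2 ^ S.card * ∏ s ∈ S, (N s / 2) := by
    rw [Finset.prod_congr rfl (fun s _ => hN s), Finset.prod_mul_distrib, Finset.prod_const]
  have hpos : 0 < ∏ s ∈ S, (N s - 1) :=
    Finset.prod_pos (fun s _ => by have := h3 s; omega)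
  have hlpos : 0 < S.lcm (fun s => N s - 1) := by
    rcases Nat.eq_zero_or_pos (S.lcm (fun s => N s - 1)) with h0 | h0
    · rw [h0, mul_zero] at hl
      omega
    · exact h0
  have hh : 1 ≤ h := by
    rcases Nat.eq_zero_or_pos h with h0 | h0
    · rw [h0, zero_mul] at hl
      omega
    · exact h0
  refine ⟨hh, ?_⟩
  intro j hj1 hj2
  -- the numbers are different
  have hinj : ∀ s ∈ S, ∀ t ∈ S, N s / 2 = N t / 2 → s = t := by
    intro s _ t _ he
    by_contra hne
    have h1 := hcop s t hne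
    have he2 : N s = N t := by
      have a1 := hN s
      have a2 := hN t
      have a3 := h3 s
      have a4 := h3 t
      omega
    rw [he2] at h1
    have h4 := (Nat.coprime_self (N t)).mp h1
    have h5 := h3 t
    omega
  -- one of them is large
  have hbig : ∃ s ∈ S, S.card + 1 ≤ N s / 2 := by
    by_contra hcon
    push Not at hcon
    have hsub : S.image (fun s => N s / 2) ⊆ Finset.Icc 1 S.card := by
      intro x hx
      obtain ⟨s, hs, rfl⟩ := Finset.mem_image.1 hx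
      have a1 := hcon s hs
      have a2 := h3 s
      exact Finset.mem_Icc.2 ⟨by omega, by omega⟩
    have hcard : (S.image (fun s => N s / 2)).card = S.card :=
      Finset.card_image_of_injOn fun s hs t ht he => hinj s hs t ht he
    have heq : S.image (fun s => N s / 2) = Finset.Icc 1 S.card :=
      Finset.eq_of_subset_of_card_le hsub (by rw [hcard, Nat.card_Icc]; omega)
    have m1 : 1 ∈ S.image (fun s => N s / 2) := by
      rw [heq]
      exact Finset.mem_Icc.2 ⟨le_rfl, by omega⟩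
    have m4 : 4 ∈ S.image (fun s => N s / 2) := by
      rw [heq]
      exact Finset.mem_Icc.2 ⟨by norm_num, hc⟩
    obtain ⟨s, hs, hs1⟩ := Finset.mem_image.1 m1
    obtain ⟨t, ht, ht1⟩ := Finset.mem_image.1 m4
    have b1 : N s = 3 := by
      have a1 := hN s
      have a2 := h3 s
      omega
    have b2 : N t = 9 := by
      have a1 := hN t
      have a2 := h3 t
      omega
    have hne : s ≠ t := by
      intro he
      rw [he, b2] at b1
      omega
    have h1 := hcop s t hne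
    rw [b1, b2] at h1
    exact absurd h1 (by decide)
  obtain ⟨s0, hs0, hs0'⟩ := hbig
  have hgbig : (S.card + 1) * 2 ^ (S.card - 2) ≤ ∏ s ∈ S, (N s / 2) := by
    rw [← Finset.mul_prod_erase S (fun s => N s / 2) hs0]
    refine Nat.mul_le_mul hs0' ?_
    have h4 := prod_ge_A14 (S.erase s0) (fun s => N s / 2)
      (fun t _ => by have := h3 t; show 1 ≤ N t / 2; omega)
      (fun s hs t ht he => hinj s (Finset.mem_of_mem_erase hs) t (Finset.mem_of_mem_erase ht) he)
    rw [Finset.card_erase_of_mem hs0] at h4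
    have h5 : S.card - 1 - 1 = S.card - 2 := by omega
    rw [h5] at h4
    exact h4
  have hd : N s0 - 1 ≤ S.lcm (fun s => N s - 1) :=
    Nat.le_of_dvd hlpos (Finset.dvd_lcm (f := fun s => N s - 1) hs0)
  have hd2 : 2 * (S.card + 1) ≤ S.lcm (fun s => N s - 1) := by
    have := hN s0
    omega
  have hmain : h * (2 * (S.card + 1)) ≤ 2 ^ S.card * ∏ s ∈ S, (N s / 2) := by
    calc h * (2 * (S.card + 1)) ≤ h * S.lcm (fun s => N s - 1) := Nat.mul_le_mul_left h hd2
      _ = 2 ^ S.card * ∏ s ∈ S, (N s / 2) := by rw [hl, hprod]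
  rw [hprod]
  generalize (∏ s ∈ S, (N s / 2)) = g at hgbig hmain ⊢
  obtain ⟨m, hm⟩ : ∃ m, S.card = m + 4 := ⟨S.card - 4, by omega⟩
  rw [hm] at hgbig hmain hj2 ⊢
  have e1 : m + 4 - 2 = m + 2 := by omega
  rw [e1] at hgbig
  have e2 : 2 ^ (m + 4) * g / 2 = 2 ^ (m + 3) * g := by
    rw [show 2 ^ (m + 4) * g = (2 ^ (m + 3) * g) * 2 by rw [pow_succ]; ring]
    exact Nat.mul_div_cancel _ (by norm_num)
  rw [e2]
  have k1 := two_pow_le_A14 (m + 3) (by omega)
  have k2 := sum_le_A14 (m + 4) j hj2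
  rw [show m + 3 + 1 = m + 4 by ring] at k1
  generalize (∑ p ∈ Finset.range j, (m + 4).choose p) = T at k2 ⊢
  generalize ((m + 4).choose ((m + 4) / 2)) = C at k1 k2
  -- n T + 2^(n-1) ≤ n 2^(n-1)
  have k3 : (m + 4) * T + 2 ^ (m + 3) ≤ (m + 4) * 2 ^ (m + 3) := by
    have p1 : 2 ^ (m + 4) = 2 * 2 ^ (m + 3) := by rw [pow_succ]; ring
    rw [p1] at k1 k2
    nlinarith
  have k4 : (m + 4) ^ 2 * (m + 5) ≤ 2 ^ (m + 3) * g := by
    have q1 := sq_le_A14 m
    have q2 : 2 ^ (2 * m + 5) = 2 ^ (m + 3) * 2 ^ (m + 2) := by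
      rw [← pow_add]
      congr 1
      ring
    calc (m + 4) ^ 2 * (m + 5) ≤ 2 ^ (2 * m + 5) * (m + 5) := Nat.mul_le_mul_right _ q1
      _ = 2 ^ (m + 3) * ((m + 4 + 1) * 2 ^ (m + 2)) := by rw [q2]; ring
      _ ≤ 2 ^ (m + 3) * g := Nat.mul_le_mul_left _ hgbig
  have k5 : h * (m + 5) ≤ 2 ^ (m + 3) * g := by
    have p1 : 2 ^ (m + 4) = 2 * 2 ^ (m + 3) := by rw [pow_succ]; ring
    rw [p1] at hmain
    nlinarith
  -- multiply by n (n + 1)
  have k6 : (m + 4) * (m + 5) * (h + (m + 4) + g * T) ≤ (m + 4) * (m + 5) * (2 ^ (m + 3) * g) := by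
    have s1 : (m + 4) * (h * (m + 5)) ≤ (m + 4) * (2 ^ (m + 3) * g) := Nat.mul_le_mul_left _ k5
    have s2 : (m + 5) * g * ((m + 4) * T + 2 ^ (m + 3)) ≤ (m + 5) * g * ((m + 4) * 2 ^ (m + 3)) :=
      Nat.mul_le_mul_left _ k3
    have s3 : (m + 4) * (m + 5) * (h + (m + 4) + g * T)
        = (m + 4) * (h * (m + 5)) + (m + 4) ^ 2 * (m + 5) + (m + 5) * g * ((m + 4) * T) := by ring
    have s4 : (m + 5) * g * ((m + 4) * T + 2 ^ (m + 3))
        = (m + 5) * g * ((m + 4) * T) + ((m + 4) * (2 ^ (m + 3) * g) + 2 ^ (m + 3) * g) := by ring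
    have s5 : (m + 5) * g * ((m + 4) * 2 ^ (m + 3)) = (m + 4) * (m + 5) * (2 ^ (m + 3) * g) := by ring
    rw [s3, ← s5]
    rw [s4] at s2
    omega
  exact Nat.le_of_mul_le_mul_left k6 (by positivity)

end Pool.TW
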