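import Pool.Agent.Helper34.TW.StA

/-!
# Project TW, module A2: commuting idempotents
-/

set_option autoImplicit false

open scoped Pointwise NumberField
open NumberField Polynomial Pool.RG2

namespace Pool.TW

private theorem split_A2 {V : Type} [AddCommGroup V] [Module (ZMod 2) V] [Module.Finite (ZMod 2) V]
    (M : Submodule (ZMod 2) V) (e : V →ₗ[ZMod 2] V) (he : ∀ v, e (e v) = e v) (hM : ∀ v ∈ M, e v ∈ M) :
    Module.finrank (ZMod 2) (M ⊓ LinearMap.ker e : Submodule (ZMod 2) V) +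
      Module.finrank (ZMod 2) (M ⊓ LinearMap.ker (e - LinearMap.id) : Submodule (ZMod 2) V)
      = Module.finrank (ZMod 2) M := by
  have hsup : (M ⊓ LinearMap.ker e) ⊔ (M ⊓ LinearMap.ker (e - LinearMap.id)) = M := by
    apply le_antisymm
    · exact sup_le inf_le_left inf_le_left
    · intro v hv
      have h1 : v - e v ∈ M ⊓ LinearMap.ker e := by
        refine ⟨M.sub_mem hv (hM v hv), ?_⟩
        simp only [SetLike.mem_coe, LinearMap.mem_ker, map_sub, he, sub_self]
      have h2 : e v ∈ M ⊓ LinearMap.ker (e - LinearMap.id) := by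
        refine ⟨hM v hv, ?_⟩
        simp only [SetLike.mem_coe, LinearMap.mem_ker, LinearMap.sub_apply, LinearMap.id_apply, he, sub_self]
      have h3 : v = (v - e v) + e v := by abel
      rw [h3]
      exact Submodule.add_mem_sup h1 h2
  have hinf : (M ⊓ LinearMap.ker e) ⊓ (M ⊓ LinearMap.ker (e - LinearMap.id)) = ⊥ := by
    rw [eq_bot_iff]
    rintro v ⟨⟨_, h1⟩, ⟨_, h2⟩⟩
    simp only [SetLike.mem_coe, LinearMap.mem_ker, LinearMap.sub_apply, LinearMap.id_apply] at h1 h2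
    rw [h1, zero_sub, neg_eq_zero] at h2
    exact h2
  have h := Submodule.finrank_sup_add_finrank_inf_eq (M ⊓ LinearMap.ker e)
    (M ⊓ LinearMap.ker (e - LinearMap.id))
  rw [hsup, hinf, finrank_bot, add_zero] at h
  exact h.symm

private theorem gen_A2 {V : Type} [AddCommGroup V] [Module (ZMod 2) V] [Module.Finite (ZMod 2) V]
    {ι : Type} [DecidableEq ι] (e : ι → V →ₗ[ZMod 2] V) (S : Finset ι) :
    (∀ s ∈ S, ∀ v, e s (e s v) = e s v) → (∀ s ∈ S, ∀ t ∈ S, ∀ v, e s (e t v) = e t (e s v)) →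
    ∀ W : Submodule (ZMod 2) V, (∀ s ∈ S, ∀ v ∈ W, e s v ∈ W) →
    (Module.finrank (ZMod 2) (W ⊓ ⨅ s ∈ S, LinearMap.ker (e s) : Submodule (ZMod 2) V) : ℤ) =
      ∑ T ∈ S.powerset, (-1) ^ T.card *
        (Module.finrank (ZMod 2) (W ⊓ ⨅ s ∈ T, LinearMap.ker (e s - LinearMap.id) : Submodule (ZMod 2) V) : ℤ) := by
  induction S using Finset.induction_on with
  | empty =>
    intro _ _ W _
    have h1 : (⨅ s ∈ (∅ : Finset ι), LinearMap.ker (e s) : Submodule (ZMod 2) V) = ⊤ := by simp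
    have h2 : (⨅ s ∈ (∅ : Finset ι), LinearMap.ker (e s - LinearMap.id) : Submodule (ZMod 2) V) = ⊤ := by simp
    rw [Finset.powerset_empty, Finset.sum_singleton, Finset.card_empty, pow_zero, one_mul, h1, h2]
  | insert a S ha ih =>
    intro hid hcm W hW
    have hid' : ∀ s ∈ S, ∀ v, e s (e s v) = e s v := fun s hs => hid s (Finset.mem_insert_of_mem hs)
    have hcm' : ∀ s ∈ S, ∀ t ∈ S, ∀ v, e s (e t v) = e t (e s v) := fun s hs t ht =>
      hcm s (Finset.mem_insert_of_mem hs) t (Finset.mem_insert_of_mem ht)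
    have hW0 : ∀ s ∈ S, ∀ v ∈ W ⊓ LinearMap.ker (e a), e s v ∈ W ⊓ LinearMap.ker (e a) := by
      rintro s hs v ⟨hv1, hv2⟩
      refine ⟨hW s (Finset.mem_insert_of_mem hs) v hv1, ?_⟩
      simp only [SetLike.mem_coe, LinearMap.mem_ker] at hv2 ⊢
      rw [hcm a (Finset.mem_insert_self _ _) s (Finset.mem_insert_of_mem hs), hv2, map_zero]
    have h0 := ih hid' hcm' (W ⊓ LinearMap.ker (e a)) hW0
    have h1 : (W ⊓ ⨅ s ∈ insert a S, LinearMap.ker (e s) : Submodule (ZMod 2) V)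
        = (W ⊓ LinearMap.ker (e a)) ⊓ ⨅ s ∈ S, LinearMap.ker (e s) := by
      rw [Finset.iInf_insert, inf_assoc]
    rw [h1, h0, Finset.sum_powerset_insert ha, ← Finset.sum_add_distrib]
    refine Finset.sum_congr rfl fun U hU => ?_
    have hUS : U ⊆ S := Finset.mem_powerset.1 hU
    have haU : a ∉ U := fun h => ha (hUS h)
    rw [Finset.card_insert_of_notMem haU]
    have h2 : (W ⊓ ⨅ s ∈ insert a U, LinearMap.ker (e s - LinearMap.id) : Submodule (ZMod 2) V)
        = (W ⊓ ⨅ s ∈ U, LinearMap.ker (e s - LinearMap.id)) ⊓ LinearMap.ker (e a - LinearMap.id) := by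
      rw [Finset.iInf_insert, inf_assoc]
      congr 1
      exact inf_comm _ _
    have h3 : ((W ⊓ LinearMap.ker (e a)) ⊓ ⨅ s ∈ U, LinearMap.ker (e s - LinearMap.id) : Submodule (ZMod 2) V)
        = (W ⊓ ⨅ s ∈ U, LinearMap.ker (e s - LinearMap.id)) ⊓ LinearMap.ker (e a) := by
      rw [inf_assoc, inf_assoc]
      congr 1
      exact inf_comm _ _
    rw [h2, h3]
    have h4 := split_A2 (W ⊓ ⨅ s ∈ U, LinearMap.ker (e s - LinearMap.id)) (e a)
      (hid a (Finset.mem_insert_self _ _)) (by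
        rintro v ⟨hv1, hv2⟩
        refine ⟨hW a (Finset.mem_insert_self _ _) v hv1, ?_⟩
        simp only [SetLike.mem_coe, Submodule.mem_iInf, LinearMap.mem_ker, LinearMap.sub_apply,
          LinearMap.id_apply, sub_eq_zero] at hv2 ⊢
        intro s hs
        rw [hcm s (Finset.mem_insert_of_mem (hUS hs)) a (Finset.mem_insert_self _ _), hv2 s hs])
    have h5 : ((Module.finrank (ZMod 2) (W ⊓ ⨅ s ∈ U, LinearMap.ker (e s - LinearMap.id) : Submodule (ZMod 2) V) : ℕ) : ℤ)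
      = (Module.finrank (ZMod 2) ((W ⊓ ⨅ s ∈ U, LinearMap.ker (e s - LinearMap.id)) ⊓ LinearMap.ker (e a) : Submodule (ZMod 2) V) : ℤ)
        + (Module.finrank (ZMod 2) ((W ⊓ ⨅ s ∈ U, LinearMap.ker (e s - LinearMap.id)) ⊓ LinearMap.ker (e a - LinearMap.id) : Submodule (ZMod 2) V) : ℤ) := by
      rw [← h4]; push_cast; ring
    rw [h5, pow_succ]
    ring

theorem hA2 : StA2 := by
  intro V _ _ _ ι _ S e hid hcm
  have h := gen_A2 e S hid hcm ⊤ (fun _ _ _ _ => Submodule.mem_top)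
  rw [top_inf_eq] at h
  rw [h]
  refine Finset.sum_congr rfl fun T _ => ?_
  rw [top_inf_eq]

end Pool.TW
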