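import Pool.Agent.Helper34.TW.StA

/-!
# Project TW, module A3: the dimension of the fixed vectors of an element in `Ev`
-/

set_option autoImplicit false

open scoped Pointwise NumberField
open NumberField Polynomial Pool.RG2

namespace Pool.TW

section A3

variable {Γ : Type} [Group Γ] {r : ℕ} (Y : Fin r → Type) [∀ s, Fintype (Y s)]
  [∀ s, MulAction Γ (Y s)] {S : Finset (Fin r)}

/-- The sum over one coordinate as a linear map. -/
private def psL_A3 (s : S) : (Pt Y S → ZMod 2) →ₗ[ZMod 2] (Pt Y S → ZMod 2) where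
  toFun := ps Y s
  map_add' := by
    intro a b
    funext x
    simp only [ps, Pi.add_apply, Finset.sum_add_distrib]
  map_smul' := by
    intro c a
    funext x
    simp only [ps, Pi.smul_apply, smul_eq_mul, RingHom.id_apply, Finset.mul_sum]

private theorem ps_update_A3 (s : S) (m : Pt Y S → ZMod 2) (x : Pt Y S) (y : Y s) :
    ps Y s m (Function.update x s y) = ps Y s m x := by
  simp only [ps, Function.update_idem]

private theorem ps_indep_A3 (hodd : ∀ s, Odd (Fintype.card (Y s))) (s : S) (m : Pt Y S → ZMod 2)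
    (hm : ∀ (x : Pt Y S) (y : Y s), m (Function.update x s y) = m x) : ps Y s m = m := by
  funext x
  simp only [ps, hm, Finset.sum_const, Finset.card_univ, nsmul_eq_mul]
  have h : ((Fintype.card (Y s) : ℕ) : ZMod 2) = 1 := ZMod.natCast_eq_one_iff_odd.2 (hodd s)
  rw [h, one_mul]

private theorem ps_idem_A3 (hodd : ∀ s, Odd (Fintype.card (Y s))) (s : S) (m : Pt Y S → ZMod 2) :
    ps Y s (ps Y s m) = ps Y s m :=
  ps_indep_A3 Y hodd s _ (fun x y => ps_update_A3 Y s m x y)

private theorem ps_comm_A3 (s t : S) (m : Pt Y S → ZMod 2) :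
    ps Y s (ps Y t m) = ps Y t (ps Y s m) := by
  by_cases h : s = t
  · rw [h]
  · funext x
    simp only [ps]
    rw [Finset.sum_comm]
    refine Finset.sum_congr rfl fun y _ => Finset.sum_congr rfl fun z _ => ?_
    rw [Function.update_comm h]

private theorem smul_update_A3 (g : Γ) (s : S) (x : Pt Y S) (y : Y s) :
    g • Function.update x s y = Function.update (g • x) s (g • y) := by
  funext t
  by_cases h : t = s
  · subst h
    simp
  · rw [Pi.smul_apply, Function.update_of_ne h, Function.update_of_ne h, Pi.smul_apply]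

private theorem act_ps_A3 (g : Γ) (s : S) (m : Pt Y S → ZMod 2) :
    act Y g (ps Y s m) = ps Y s (act Y g m) := by
  funext x
  simp only [act, ps]
  rw [← Equiv.sum_comp (MulAction.toPerm (g⁻¹ : Γ) : Equiv.Perm (Y s))]
  refine Finset.sum_congr rfl fun y _ => ?_
  rw [smul_update_A3]
  rfl

/-- The functions fixed by `g`. -/
private def fixW_A3 (S : Finset (Fin r)) (g : Γ) : Submodule (ZMod 2) (Pt Y S → ZMod 2) where
  carrier := {m | act Y g m = m}
  add_mem' := by
    intro a b ha hb
    funext x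
    have h1 := congrFun ha x
    have h2 := congrFun hb x
    simp only [act, Pi.add_apply] at h1 h2 ⊢
    rw [h1, h2]
  zero_mem' := rfl
  smul_mem' := by
    intro c m hm
    funext x
    have h1 := congrFun hm x
    simp only [act, Pi.smul_apply] at h1 ⊢
    rw [h1]

/-- The coordinate sums on the functions fixed by `g`. -/
private noncomputable def ee_A3 (S : Finset (Fin r)) (g : Γ) (s : Fin r) :
    fixW_A3 Y S g →ₗ[ZMod 2] fixW_A3 Y S g :=
  if h : s ∈ S then
    (psL_A3 Y (⟨s, h⟩ : S)).restrict (fun m (hm : act Y g m = m) => by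
      change act Y g (ps Y _ m) = ps Y _ m
      rw [act_ps_A3, hm])
  else 0

private theorem ee_apply_A3 (S : Finset (Fin r)) (g : Γ) (s : Fin r) (h : s ∈ S)
    (v : fixW_A3 Y S g) : (ee_A3 Y S g s v).1 = ps Y (⟨s, h⟩ : S) v.1 := by
  unfold ee_A3
  rw [dif_pos h]
  rfl

private theorem ker_eq_A3 (S : Finset (Fin r)) (g : Γ) :
    (⨅ s ∈ S, LinearMap.ker (ee_A3 Y S g s)).map (fixW_A3 Y S g).subtype = FixEv Y S g := by
  ext m
  rw [Submodule.mem_map]
  constructor
  · rintro ⟨v, hv, rfl⟩
    refine ⟨fun s x => ?_, v.2⟩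
    have h1 : ee_A3 Y S g s.1 v = 0 := by
      have := (Submodule.mem_iInf _).1 ((Submodule.mem_iInf _).1 hv s.1) s.2
      exact this
    have h2 := congrArg Subtype.val h1
    rw [ee_apply_A3 Y S g s.1 s.2] at h2
    exact congrFun h2 x
  · rintro ⟨h1, h2⟩
    refine ⟨⟨m, h2⟩, ?_, rfl⟩
    rw [Submodule.mem_iInf]
    intro s
    rw [Submodule.mem_iInf]
    intro hs
    rw [LinearMap.mem_ker]
    apply Subtype.ext
    rw [ee_apply_A3 Y S g s hs]
    funext x
    exact h1 ⟨s, hs⟩ x

/-- Independence of the coordinates in `T`. -/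
private theorem indep_A3 (T : Finset (Fin r)) (m : Pt Y S → ZMod 2)
    (hm : ∀ (s : S), s.1 ∈ T → ∀ (x : Pt Y S) (y : Y s), m (Function.update x s y) = m x)
    (x x' : Pt Y S) (h : ∀ s : S, s.1 ∉ T → x s = x' s) : m x = m x' := by
  classical
  have key : ∀ U : Finset S, (∀ s ∈ U, s.1 ∈ T) → m (U.piecewise x' x) = m x := by
    intro U
    induction U using Finset.induction_on with
    | empty =>
      intro _
      rw [Finset.piecewise_empty]
    | insert a U ha ih =>
      intro hU
      rw [Finset.piecewise_insert, hm a (hU a (Finset.mem_insert_self a U))]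
      exact ih (fun s hs => hU s (Finset.mem_insert_of_mem hs))
  rw [← key (Finset.univ.filter (fun s : S => s.1 ∈ T)) (fun s hs => (Finset.mem_filter.1 hs).2)]
  congr 1
  funext s
  by_cases hs : s.1 ∈ T
  · rw [Finset.piecewise_eq_of_mem _ _ _ (Finset.mem_filter.2 ⟨Finset.mem_univ s, hs⟩)]
  · rw [Finset.piecewise_eq_of_notMem _ _ _
      (show s ∉ Finset.univ.filter (fun s : S => s.1 ∈ T) from fun hh => hs (Finset.mem_filter.1 hh).2), h s hs]

/-- The restriction of the coordinates. -/
private def res_A3 (S T : Finset (Fin r)) (x : Pt Y S) : Pt Y (S \ T) :=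
  fun s => x ⟨s.1, (Finset.mem_sdiff.1 s.2).1⟩

/-- Restriction followed by passing to the orbit. -/
private def qm_A3 (S : Finset (Fin r)) (g : Γ) (T : Finset (Fin r)) (x : Pt Y S) :
    MulAction.orbitRel.Quotient (Subgroup.zpowers g) (Pt Y (S \ T)) := Quotient.mk _ (res_A3 Y S T x)

/-- Extension by a fixed point. -/
private def ext_A3 (S T : Finset (Fin r)) (x0 : Pt Y S) (z : Pt Y (S \ T)) : Pt Y S :=
  fun s => if h : s.1 ∈ T then x0 s else z ⟨s.1, Finset.mem_sdiff.2 ⟨s.2, h⟩⟩

private theorem range_eq_A3 (hodd : ∀ s, Odd (Fintype.card (Y s))) (S : Finset (Fin r)) (g : Γ)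
    (T : Finset (Fin r)) (hT : T ⊆ S) :
    (⨅ s ∈ T, LinearMap.ker (ee_A3 Y S g s - LinearMap.id)).map (fixW_A3 Y S g).subtype =
      LinearMap.range (LinearMap.funLeft (ZMod 2) (ZMod 2) (qm_A3 Y S g T)) := by
  classical
  have hne : ∀ s, Nonempty (Y s) := fun s => Fintype.card_pos_iff.1 (hodd s).pos
  ext m
  rw [Submodule.mem_map, LinearMap.mem_range]
  constructor
  · rintro ⟨v, hv, rfl⟩
    have hact : act Y g v.1 = v.1 := v.2
    have hps : ∀ s : S, s.1 ∈ T → ps Y s v.1 = v.1 := by
      intro s hs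
      have h1 : (ee_A3 Y S g s.1 - LinearMap.id : fixW_A3 Y S g →ₗ[ZMod 2] fixW_A3 Y S g) v = 0 :=
        (Submodule.mem_iInf _).1 ((Submodule.mem_iInf _).1 hv s.1) hs
      rw [LinearMap.sub_apply, LinearMap.id_apply, sub_eq_zero] at h1
      have h2 := congrArg Subtype.val h1
      rwa [ee_apply_A3 Y S g s.1 s.2] at h2
    have hup : ∀ (s : S), s.1 ∈ T → ∀ (x : Pt Y S) (y : Y s), v.1 (Function.update x s y) = v.1 x := by
      intro s hs x y
      have h1 := ps_update_A3 Y s v.1 x y
      rwa [hps s hs] at h1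
    -- invariance under the powers of `g`
    have hinv : ∀ h ∈ Subgroup.zpowers g, ∀ x : Pt Y S, v.1 (h • x) = v.1 x := by
      let H : Subgroup Γ :=
        { carrier := {h | ∀ x : Pt Y S, v.1 (h • x) = v.1 x}
          mul_mem' := by
            intro a b ha hb x
            rw [mul_smul, ha, hb]
          one_mem' := by
            intro x
            rw [one_smul]
          inv_mem' := by
            intro a ha x
            have := ha (a⁻¹ • x)
            rw [smul_inv_smul] at this
            exact this.symm }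
      have hg : g ∈ H := by
        intro x
        have := congrFun hact (g • x)
        rw [act, inv_smul_smul] at this
        exact this.symm
      intro h hh
      exact (Subgroup.zpowers_le.2 hg) hh
    have x0 : Pt Y S := fun s => Classical.choice (hne s.1)
    have hlift : ∀ a b : Pt Y (S \ T), (MulAction.orbitRel (Subgroup.zpowers g) (Pt Y (S \ T))) a b →
        v.1 (ext_A3 Y S T x0 a) = v.1 (ext_A3 Y S T x0 b) := by
      intro a b hab
      obtain ⟨h, hh⟩ := MulAction.orbitRel_apply.1 hab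
      have hh' : (h : Γ) • b = a := hh
      rw [← hinv h.1 h.2 (ext_A3 Y S T x0 b)]
      apply indep_A3 Y T v.1 hup
      intro s hs
      rw [Pi.smul_apply]
      unfold ext_A3
      rw [dif_neg hs, dif_neg hs, ← hh', Pi.smul_apply]
    refine ⟨Quotient.lift (fun z => v.1 (ext_A3 Y S T x0 z)) hlift, ?_⟩
    funext x
    change v.1 (ext_A3 Y S T x0 (res_A3 Y S T x)) = v.1 x
    apply indep_A3 Y T v.1 hup
    intro s hs
    unfold ext_A3 res_A3
    rw [dif_neg hs]
  · rintro ⟨q, rfl⟩
    have hfix : LinearMap.funLeft (ZMod 2) (ZMod 2) (qm_A3 Y S g T) q ∈ fixW_A3 Y S g := by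
      change act Y g (LinearMap.funLeft (ZMod 2) (ZMod 2) (qm_A3 Y S g T) q) =
        LinearMap.funLeft (ZMod 2) (ZMod 2) (qm_A3 Y S g T) q
      funext x
      change q (qm_A3 Y S g T (g⁻¹ • x)) = q (qm_A3 Y S g T x)
      congr 1
      apply Quotient.sound
      refine ⟨⟨g⁻¹, Subgroup.inv_mem _ (Subgroup.mem_zpowers g)⟩, ?_⟩
      rfl
    refine ⟨⟨_, hfix⟩, ?_, rfl⟩
    rw [Submodule.mem_iInf]
    intro s
    rw [Submodule.mem_iInf]
    intro hs
    rw [LinearMap.mem_ker, LinearMap.sub_apply, LinearMap.id_apply, sub_eq_zero]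
    apply Subtype.ext
    rw [ee_apply_A3 Y S g s (hT hs)]
    apply ps_indep_A3 Y hodd
    intro x y
    change q (qm_A3 Y S g T (Function.update x ⟨s, hT hs⟩ y)) = q (qm_A3 Y S g T x)
    congr 1
    unfold qm_A3
    congr 1
    funext t
    unfold res_A3
    rw [Function.update_of_ne]
    intro hh
    have h3 := (Finset.mem_sdiff.1 t.2).2
    apply h3
    have h4 : t.1 = s := congrArg Subtype.val hh
    rw [h4]
    exact hs

private theorem qm_surj_A3 (hodd : ∀ s, Odd (Fintype.card (Y s))) (S : Finset (Fin r)) (g : Γ)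
    (T : Finset (Fin r)) : Function.Surjective (qm_A3 Y S g T) := by
  classical
  have hne : ∀ s, Nonempty (Y s) := fun s => Fintype.card_pos_iff.1 (hodd s).pos
  have x0 : Pt Y S := fun s => Classical.choice (hne s.1)
  intro q
  induction q using Quotient.inductionOn with
  | h z =>
    refine ⟨ext_A3 Y S T x0 z, ?_⟩
    unfold qm_A3
    congr 1
    funext s
    unfold res_A3 ext_A3
    rw [dif_neg (Finset.mem_sdiff.1 s.2).2]

private theorem orb_eq_A3 (hodd : ∀ s, Odd (Fintype.card (Y s))) (S : Finset (Fin r)) (g : Γ)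
    (T : Finset (Fin r)) (hT : T ⊆ S) :
    Module.finrank (ZMod 2) (⨅ s ∈ T, LinearMap.ker (ee_A3 Y S g s - LinearMap.id) :
      Submodule (ZMod 2) (fixW_A3 Y S g)) = orb Y (S \ T) g := by
  classical
  have h1 := LinearMap.finrank_range_of_inj (f := LinearMap.funLeft (ZMod 2) (ZMod 2) (qm_A3 Y S g T))
    (LinearMap.funLeft_injective_of_surjective _ _ _ (qm_surj_A3 Y hodd S g T))
  have h2 := (Submodule.equivMapOfInjective (fixW_A3 Y S g).subtype (fixW_A3 Y S g).injective_subtype
    (⨅ s ∈ T, LinearMap.ker (ee_A3 Y S g s - LinearMap.id))).finrank_eq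
  rw [h2, range_eq_A3 Y hodd S g T hT, h1]
  have : Finite (MulAction.orbitRel.Quotient (Subgroup.zpowers g) (Pt Y (S \ T))) :=
    Quotient.finite _
  have := Fintype.ofFinite (MulAction.orbitRel.Quotient (Subgroup.zpowers g) (Pt Y (S \ T)))
  rw [Module.finrank_fintype_fun_eq_card, orb, Nat.card_eq_fintype_card]

end A3

theorem hA3 : StA3 := by
  intro _ h2 Γ _ r Y _ _ _ S g hodd
  have hfin : Module.Finite (ZMod 2) (fixW_A3 Y S g) := inferInstance
  have key := h2 (fixW_A3 Y S g) (Fin r) S (ee_A3 Y S g)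
    (fun s hs v => by
      apply Subtype.ext
      rw [ee_apply_A3 Y S g s hs, ee_apply_A3 Y S g s hs, ps_idem_A3 Y hodd])
    (fun s hs t ht v => by
      apply Subtype.ext
      rw [ee_apply_A3 Y S g s hs, ee_apply_A3 Y S g t ht, ee_apply_A3 Y S g t ht,
        ee_apply_A3 Y S g s hs, ps_comm_A3 Y])
  have h3 := (Submodule.equivMapOfInjective (fixW_A3 Y S g).subtype (fixW_A3 Y S g).injective_subtype
    (⨅ s ∈ S, LinearMap.ker (ee_A3 Y S g s))).finrank_eq
  rw [h3, ker_eq_A3 Y S g] at key
  rw [fixD, key]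
  refine Finset.sum_nbij' (fun T => S \ T) (fun T => S \ T) ?_ ?_ ?_ ?_ ?_
  · intro T _; exact Finset.mem_powerset.2 Finset.sdiff_subset
  · intro T _; exact Finset.mem_powerset.2 Finset.sdiff_subset
  · intro T hT; exact Finset.sdiff_sdiff_eq_self (Finset.mem_powerset.1 hT)
  · intro T hT; exact Finset.sdiff_sdiff_eq_self (Finset.mem_powerset.1 hT)
  · intro T hT
    rw [orb_eq_A3 Y hodd S g T (Finset.mem_powerset.1 hT)]
    have h4 := Finset.card_sdiff_of_subset (Finset.mem_powerset.1 hT)
    have h5 := Finset.card_le_card (Finset.mem_powerset.1 hT)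
    have h6 : S.card - (S \ T).card = T.card := by omega
    rw [h6]

end Pool.TW
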