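import Pool.Agent.Helper34.TW.StA

/-! Project TW, module A4: the fixed vectors of a killing element. -/

set_option autoImplicit false

namespace Pool.TW

open Finset

/-! ### Orbits of a permutation -/

private theorem orbit_count_A4 {P : Type} [Fintype P] (σ : Equiv.Perm P) (l : ℕ)
    (h : ∀ (x : P) (k : ℕ), (σ ^ k) x = x ↔ l ∣ k) :
    Nat.card (MulAction.orbitRel.Quotient (Subgroup.zpowers σ) P) * l = Fintype.card P := by
  classical
  have hper : ∀ x : P, Function.minimalPeriod (fun y => σ • y) x = l := by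
    intro x
    apply Nat.dvd_antisymm
    · rw [← Function.isPeriodicPt_iff_minimalPeriod_dvd]
      show (fun y => σ • y)^[l] x = x
      rw [smul_iterate]
      exact (h x l).2 dvd_rfl
    · rw [← h x]
      have h1 : Function.IsPeriodicPt (fun y => σ • y) (Function.minimalPeriod (fun y => σ • y) x) x :=
        Function.isPeriodicPt_minimalPeriod _ _
      have h2 : (fun y => σ • y)^[Function.minimalPeriod (fun y => σ • y) x] x = x := h1
      rw [smul_iterate] at h2
      exact h2
  have hcard : ∀ x : P, Fintype.card (MulAction.orbit (Subgroup.zpowers σ) x) = l := by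
    intro x
    rw [← MulAction.minimalPeriod_eq_card, hper x]
  rw [Fintype.card_congr (MulAction.selfEquivSigmaOrbits (Subgroup.zpowers σ) P), Fintype.card_sigma,
    Finset.sum_congr rfl fun ω _ => hcard (Quotient.out ω), Finset.sum_const, smul_eq_mul, Nat.card_eq_fintype_card,
    Finset.card_univ]

section A4

variable {Γ : Type} [Group Γ] {r : ℕ} (Y : Fin r → Type) [∀ s, Fintype (Y s)] [∀ s, DecidableEq (Y s)]
  [∀ s, MulAction Γ (Y s)] (S : Finset (Fin r)) (y0 : ∀ s, Y s)

/-- the points without a coordinate `y0` -/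
private abbrev PC_A4 : Type := {x : Pt Y S // ∀ s : S, x s ≠ y0 s}

/-- the relation of the extension -/
private def rel_A4 (x z : Pt Y S) : Prop := ∀ s : S, x s ≠ y0 s → z s = x s

open Classical in
/-- the extension -/
private noncomputable def ext_A4 (n : PC_A4 Y S y0 → ZMod 2) (x : Pt Y S) : ZMod 2 :=
  ∑ z : PC_A4 Y S y0, if rel_A4 Y S y0 x z.1 then n z else 0

private theorem ext_mem_A4 (n : PC_A4 Y S y0 → ZMod 2) : ext_A4 Y S y0 n ∈ Ev Y S := by
  classical
  intro s x
  show ∑ y : Y s, ∑ z : PC_A4 Y S y0, (if rel_A4 Y S y0 (Function.update x s y) z.1 then n z else 0) = 0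
  rw [Finset.sum_comm]
  refine Finset.sum_eq_zero fun z _ => ?_
  by_cases hR : ∀ s' : S, s' ≠ s → x s' ≠ y0 s' → z.1 s' = x s'
  · have h1 : ∀ y : Y s, rel_A4 Y S y0 (Function.update x s y) z.1 ↔ (y = y0 s ∨ y = z.1 s) := by
      intro y
      constructor
      · intro h
        by_cases hy : y = y0 s
        · exact Or.inl hy
        · right
          have h2 := h s
          rw [Function.update_self] at h2
          exact (h2 hy).symm
      · intro h s' hs'
        by_cases hss : s' = s
        · subst hss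
          rw [Function.update_self] at hs' ⊢
          rcases h with h | h
          · exact absurd h hs'
          · exact h.symm
        · rw [Function.update_of_ne hss] at hs' ⊢
          exact hR s' hss hs'
    have h2 : ∀ y : Y s, (if rel_A4 Y S y0 (Function.update x s y) z.1 then n z else 0) =
        (if y = y0 s then n z else 0) + (if y = z.1 s then n z else 0) := by
      intro y
      have hne : z.1 s ≠ y0 s := z.2 s
      by_cases ha : y = y0 s
      · have hb : ¬ y = z.1 s := fun hb => hne (hb.symm.trans ha)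
        rw [if_pos ((h1 y).2 (Or.inl ha)), if_pos ha, if_neg hb, add_zero]
      · by_cases hb : y = z.1 s
        · rw [if_pos ((h1 y).2 (Or.inr hb)), if_neg ha, if_pos hb, zero_add]
        · rw [if_neg (fun hc => ((h1 y).1 hc).elim ha hb), if_neg ha, if_neg hb, add_zero]
    rw [Finset.sum_congr rfl fun y _ => h2 y, Finset.sum_add_distrib, Finset.sum_ite_eq', Finset.sum_ite_eq',
      if_pos (Finset.mem_univ _), if_pos (Finset.mem_univ _)]
    exact CharTwo.add_self_eq_zero _
  · refine Finset.sum_eq_zero fun y _ => ?_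
    rw [if_neg]
    intro h
    apply hR
    intro s' hss hs'
    have h2 := h s'
    rw [Function.update_of_ne hss] at h2
    exact h2 hs'

private theorem ext_apply_A4 (n : PC_A4 Y S y0 → ZMod 2) (z : PC_A4 Y S y0) : ext_A4 Y S y0 n z.1 = n z := by
  classical
  unfold ext_A4
  rw [Finset.sum_eq_single z]
  · rw [if_pos]
    intro s _
    rfl
  · intro z' _ hz
    rw [if_neg]
    intro h
    apply hz
    apply Subtype.ext
    funext s
    exact h s (z.2 s)
  · intro h
    exact absurd (Finset.mem_univ _) h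

private theorem unique_A4 (d : Pt Y S → ZMod 2) (hd : d ∈ Ev Y S) (h0 : ∀ z : PC_A4 Y S y0, d z.1 = 0) : d = 0 := by
  have key : ∀ (k : ℕ) (x : Pt Y S), (univ.filter fun s : S => x s = y0 s).card = k → d x = 0 := by
    intro k
    induction k with
    | zero =>
      intro x hx
      rw [Finset.card_eq_zero] at hx
      have hP : ∀ s : S, x s ≠ y0 s := by
        intro s hs
        have : s ∈ univ.filter fun s : S => x s = y0 s := by simp [hs]
        rw [hx] at this
        exact absurd this (Finset.notMem_empty _)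
      exact h0 ⟨x, hP⟩
    | succ k ih =>
      intro x hx
      have hne : (univ.filter fun s : S => x s = y0 s).Nonempty := by
        rw [← Finset.card_pos, hx]
        omega
      obtain ⟨s, hs⟩ := hne
      have hs' : x s = y0 s := (Finset.mem_filter.1 hs).2
      have h1 := hd s x
      rw [Finset.sum_eq_single (y0 s)] at h1
      · rw [← hs', Function.update_eq_self] at h1
        exact h1
      · intro y _ hy
        apply ih
        have : (univ.filter fun s' : S => Function.update x s y s' = y0 s') =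
            (univ.filter fun s' : S => x s' = y0 s').erase s := by
          ext s'
          simp only [Finset.mem_filter, Finset.mem_univ, true_and, Finset.mem_erase]
          by_cases hss : s' = s
          · subst hss
            simp [hy]
          · rw [Function.update_of_ne hss]
            exact ⟨fun h => ⟨hss, h⟩, fun h => h.2⟩
        rw [this, Finset.card_erase_of_mem hs, hx]
        rfl
      · intro h
        exact absurd (Finset.mem_univ _) h
  funext x
  exact key _ x rfl

variable (g : Γ) (hg : ∀ s, g • y0 s = y0 s)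

omit [∀ s, Fintype (Y s)] [∀ s, DecidableEq (Y s)] in
include hg in
private theorem smul_ne_A4 (s : Fin r) (y : Y s) : g • y ≠ y0 s ↔ y ≠ y0 s := by
  rw [not_iff_not]
  constructor
  · intro h
    rw [← hg s] at h
    exact smul_left_cancel g h
  · intro h
    rw [h, hg s]

omit [∀ s, Fintype (Y s)] [∀ s, DecidableEq (Y s)] in
include hg in
private theorem inv_smul_ne_A4 (s : Fin r) (y : Y s) : g⁻¹ • y ≠ y0 s ↔ y ≠ y0 s := by
  rw [← smul_ne_A4 Y y0 g hg s (g⁻¹ • y), smul_inv_smul]

/-- the permutation -/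
private def perm_A4 : Equiv.Perm (PC_A4 Y S y0) where
  toFun x := ⟨g • x.1, fun s => (smul_ne_A4 Y y0 g hg s (x.1 s)).2 (x.2 s)⟩
  invFun x := ⟨g⁻¹ • x.1, fun s => (inv_smul_ne_A4 Y y0 g hg s (x.1 s)).2 (x.2 s)⟩
  left_inv x := Subtype.ext (inv_smul_smul g x.1)
  right_inv x := Subtype.ext (smul_inv_smul g x.1)

omit [∀ s, Fintype (Y s)] [∀ s, DecidableEq (Y s)] in
private theorem perm_pow_A4 (k : ℕ) (x : PC_A4 Y S y0) : ((perm_A4 Y S y0 g hg ^ k) x).1 = g ^ k • x.1 := by
  induction k with
  | zero => simp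
  | succ k ih =>
    rw [pow_succ', Equiv.Perm.mul_apply, pow_succ', mul_smul, ← ih]
    rfl

private theorem ext_act_A4 (n : PC_A4 Y S y0 → ZMod 2) (hn : ∀ z, n (perm_A4 Y S y0 g hg z) = n z) :
    act Y g (ext_A4 Y S y0 n) = ext_A4 Y S y0 n := by
  classical
  funext x
  show ext_A4 Y S y0 n (g⁻¹ • x) = ext_A4 Y S y0 n x
  unfold ext_A4
  rw [← Equiv.sum_comp (perm_A4 Y S y0 g hg) (fun z => if rel_A4 Y S y0 x z.1 then n z else 0)]
  refine Finset.sum_congr rfl fun z _ => ?_
  rw [hn z]
  have h1 : rel_A4 Y S y0 (g⁻¹ • x) z.1 ↔ rel_A4 Y S y0 x (perm_A4 Y S y0 g hg z).1 := by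
    unfold rel_A4
    refine forall_congr' fun s => ?_
    have h2 : (g⁻¹ • x) s ≠ y0 s ↔ x s ≠ y0 s := inv_smul_ne_A4 Y y0 g hg s (x s)
    have h3 : z.1 s = (g⁻¹ • x) s ↔ (perm_A4 Y S y0 g hg z).1 s = x s := by
      show z.1 s = g⁻¹ • x s ↔ g • z.1 s = x s
      exact eq_inv_smul_iff
    rw [h2, h3]
  by_cases h : rel_A4 Y S y0 (g⁻¹ • x) z.1
  · rw [if_pos h, if_pos (h1.1 h)]
  · rw [if_neg h, if_neg (fun h' => h (h1.2 h'))]

/-- the orbits -/
private abbrev Om_A4 : Type := MulAction.orbitRel.Quotient (Subgroup.zpowers (perm_A4 Y S y0 g hg)) (PC_A4 Y S y0)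

/-- the extension of functions on the orbits -/
private noncomputable def L_A4 : (Om_A4 Y S y0 g hg → ZMod 2) →ₗ[ZMod 2] (Pt Y S → ZMod 2) where
  toFun φ := ext_A4 Y S y0 (fun z => φ (Quotient.mk'' z))
  map_add' φ φ' := by
    classical
    funext x
    simp only [ext_A4, Pi.add_apply, ← Finset.sum_add_distrib]
    refine Finset.sum_congr rfl fun z _ => ?_
    split_ifs <;> simp
  map_smul' c φ := by
    classical
    funext x
    simp only [ext_A4, Pi.smul_apply, smul_eq_mul, RingHom.id_apply, Finset.mul_sum]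
    refine Finset.sum_congr rfl fun z _ => ?_
    split_ifs <;> simp

private theorem L_apply_A4 (φ : Om_A4 Y S y0 g hg → ZMod 2) (z : PC_A4 Y S y0) :
    L_A4 Y S y0 g hg φ z.1 = φ (Quotient.mk'' z) :=
  ext_apply_A4 Y S y0 (fun z => φ (Quotient.mk'' z)) z

private theorem L_inj_A4 : Function.Injective (L_A4 Y S y0 g hg) := by
  intro φ φ' h
  funext ω
  obtain ⟨z, rfl⟩ := Quotient.mk''_surjective ω
  rw [← L_apply_A4 Y S y0 g hg φ z, ← L_apply_A4 Y S y0 g hg φ' z, h]

private theorem range_A4 : FixEv Y S g = LinearMap.range (L_A4 Y S y0 g hg) := by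
  ext m
  constructor
  · rintro ⟨hm, hm'⟩
    have hinv : ∀ z : PC_A4 Y S y0, m (perm_A4 Y S y0 g hg z).1 = m z.1 := by
      intro z
      have h1 := congrFun hm' (g • z.1)
      have h2 : m (g⁻¹ • g • z.1) = m (g • z.1) := h1
      rw [inv_smul_smul] at h2
      exact h2.symm
    let H : Subgroup (Equiv.Perm (PC_A4 Y S y0)) :=
      { carrier := {τ | ∀ z, m (τ z).1 = m z.1}
        mul_mem' := fun {a b} ha hb z => by
          have h1 := ha (b z)
          have h2 := hb z
          rw [Equiv.Perm.mul_apply, h1, h2]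
        one_mem' := fun z => rfl
        inv_mem' := fun {a} ha z => by
          have h1 := ha (a⁻¹ z)
          have h2 : a (a⁻¹ z) = z := a.apply_symm_apply z
          rw [h2] at h1
          exact h1.symm }
    have hH : Subgroup.zpowers (perm_A4 Y S y0 g hg) ≤ H := by
      rw [Subgroup.zpowers_le]
      exact hinv
    let φ : Om_A4 Y S y0 g hg → ZMod 2 := Quotient.lift (fun z : PC_A4 Y S y0 => m z.1) (by
      rintro a b ⟨τ, hτ⟩
      have h1 := hH τ.2 b
      have h2 : a = τ.1 b := hτ.symm
      show m a.1 = m b.1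
      rw [h2]
      exact h1)
    refine ⟨φ, ?_⟩
    have h3 : L_A4 Y S y0 g hg φ - m = 0 := by
      apply unique_A4 Y S y0
      · exact Submodule.sub_mem _ (ext_mem_A4 Y S y0 _) hm
      · intro z
        rw [Pi.sub_apply, L_apply_A4]
        exact sub_self (m z.1)
    exact sub_eq_zero.1 h3
  · rintro ⟨φ, rfl⟩
    refine ⟨ext_mem_A4 Y S y0 _, ?_⟩
    apply ext_act_A4 Y S y0 g hg
    intro z
    have h1 : (Quotient.mk'' (perm_A4 Y S y0 g hg z) : Om_A4 Y S y0 g hg) = Quotient.mk'' z :=
      Quotient.eq''.2 ⟨⟨perm_A4 Y S y0 g hg, Subgroup.mem_zpowers _⟩, rfl⟩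
    rw [h1]

private theorem fixD_eq_A4 : fixD Y S g = Nat.card (Om_A4 Y S y0 g hg) := by
  classical
  have : Fintype (Om_A4 Y S y0 g hg) := Fintype.ofFinite _
  unfold fixD
  rw [range_A4 Y S y0 g hg, LinearMap.finrank_range_of_inj (L_inj_A4 Y S y0 g hg), Module.finrank_fintype_fun_eq_card,
    Nat.card_eq_fintype_card]

private theorem cardPC_A4 : Fintype.card (PC_A4 Y S y0) = ∏ s ∈ S, (Fintype.card (Y s) - 1) := by
  have e : PC_A4 Y S y0 ≃ ((s : S) → {y : Y s // ¬ y = y0 s}) :=
    Equiv.subtypePiEquivPi (p := fun (s : S) (y : Y s) => ¬ y = y0 s)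
  rw [Fintype.card_congr e, Fintype.card_pi, ← Finset.prod_coe_sort S (fun s => Fintype.card (Y s) - 1)]
  refine Finset.prod_congr rfl fun s _ => ?_
  rw [Fintype.card_subtype_compl, Fintype.card_subtype_eq]

end A4

theorem hA4 : StA4 := by
  intro Γ _ r Y _ _ _ S g _ hτ
  choose y0 hy0 _ hk using hτ
  rw [fixD_eq_A4 Y S y0 g hy0, ← cardPC_A4 Y S y0]
  apply orbit_count_A4
  intro x k
  rw [Finset.lcm_dvd_iff]
  constructor
  · intro h s hs
    have h1 : g ^ k • x.1 = x.1 := by
      rw [← perm_pow_A4 Y S y0 g hy0, h]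
    have h2 : g ^ k • x.1 ⟨s, hs⟩ = x.1 ⟨s, hs⟩ := congrFun h1 ⟨s, hs⟩
    exact (hk s (x.1 ⟨s, hs⟩) (x.2 ⟨s, hs⟩) k).1 h2
  · intro h
    apply Subtype.ext
    rw [perm_pow_A4]
    funext s
    exact (hk s.1 (x.1 s) (x.2 s) k).2 (h s.1 s.2)

end Pool.TW
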