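import Pool.Agent.Helper34.TW.StA

set_option autoImplicit false

namespace Pool.TW

open Equiv Equiv.Perm

/-- The sign with values in `ZMod 2`. -/
private def sg_A5 {Y : Type} [Fintype Y] [DecidableEq Y] (g : Perm Y) : ZMod 2 := if sign g = 1 then 0 else 1

private lemma sg_mul_A5 {Y : Type} [Fintype Y] [DecidableEq Y] (g h : Perm Y) :
    sg_A5 (g * h) = sg_A5 g + sg_A5 h := by
  unfold sg_A5
  rw [Equiv.Perm.sign_mul]
  rcases Int.units_eq_one_or (sign g) with h1 | h1 <;> rcases Int.units_eq_one_or (sign h) with h2 | h2 <;>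
    rw [h1, h2] <;> decide

private lemma zmod2_A5 (x : ZMod 2) : x = 0 ∨ x = 1 := by
  revert x; decide

private lemma two_A5 (x : ZMod 2) : x + x = 0 := by
  revert x; decide

theorem hA5 : StA5 := by
  intro Y _ _ hodd h3 w hw hsum
  have hne : Nonempty Y := by
    rw [← Fintype.card_pos_iff]; omega
  obtain ⟨y0⟩ := hne
  have hN : ((Fintype.card Y : ℕ) : ZMod 2) = 1 := by
    obtain ⟨k, hk⟩ := hodd
    rw [hk]
    push_cast
    have : (2 : ZMod 2) = 0 := by decide
    rw [this]; ring
  have hw1 : ∀ y, w 1 y = 0 := by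
    intro y
    have h := hw 1 1 y
    simp only [mul_one, inv_one, one_apply] at h
    exact left_eq_add.mp h
  -- the hom on the stabiliser
  obtain ⟨ε, hε⟩ : ∃ ε : ZMod 2, ∀ g : Perm Y, g y0 = y0 → w g y0 = ε * sg_A5 g := by
    have hfix : ∀ π : Perm {y // y ≠ y0}, (ofSubtype π) y0 = y0 := by
      intro π
      exact ofSubtype_apply_of_not_mem π (by simp)
    let s : Perm {y // y ≠ y0} →* ℤˣ :=
      { toFun := fun π => if w (ofSubtype π) y0 = 0 then 1 else -1
        map_one' := by simp [hw1]
        map_mul' := by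
          intro a b
          have e1 : w (ofSubtype (a * b)) y0 = w (ofSubtype a) y0 + w (ofSubtype b) y0 := by
            rw [map_mul, hw]
            congr 2
            rw [inv_eq_iff_eq]
            exact (hfix a).symm
          rw [e1]
          rcases zmod2_A5 (w (ofSubtype a) y0) with h1 | h1 <;> rcases zmod2_A5 (w (ofSubtype b) y0) with h2 | h2 <;>
            rw [h1, h2] <;> decide }
    have hs : ∀ π, s π = if w (ofSubtype π) y0 = 0 then 1 else -1 := fun π => rfl
    have hall : ∀ g : Perm Y, g y0 = y0 → ∃ π : Perm {y // y ≠ y0}, ofSubtype π = g := by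
      intro g hg
      have hp : ∀ x, g x ≠ y0 ↔ x ≠ y0 := by
        intro x
        constructor
        · intro h hx
          exact h (by rw [hx, hg])
        · intro h hx
          apply h
          apply g.injective
          rw [hx, hg]
      refine ⟨g.subtypePerm hp, ofSubtype_subtypePerm hp ?_⟩
      intro x hx hx2
      exact hx (by rw [hx2, hg])
    by_cases hsur : Function.Surjective s
    · have hsg := eq_sign_of_surjective_hom hsur
      refine ⟨1, ?_⟩
      intro g hg
      obtain ⟨π, rfl⟩ := hall g hg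
      have h1 := hs π
      rw [hsg] at h1
      rw [one_mul]
      unfold sg_A5
      rw [sign_ofSubtype]
      rcases zmod2_A5 (w (ofSubtype π) y0) with h2 | h2
      · rw [h2] at h1 ⊢
        rw [if_pos rfl] at h1
        rw [if_pos h1]
      · rw [h2] at h1 ⊢
        rw [if_neg (by decide)] at h1
        rw [h1]
        decide
    · refine ⟨0, ?_⟩
      intro g hg
      obtain ⟨π, rfl⟩ := hall g hg
      rw [zero_mul]
      by_contra hne
      apply hsur
      intro u
      rcases Int.units_eq_one_or u with hu | hu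
      · exact ⟨1, by rw [hu, map_one]⟩
      · exact ⟨π, by rw [hu, hs, if_neg hne]⟩
  -- the modified cocycle
  have hw' : ∀ g h y, (w (g * h) y + ε * sg_A5 (g * h)) =
      (w g y + ε * sg_A5 g) + (w h (g⁻¹ y) + ε * sg_A5 h) := by
    intro g h y
    rw [hw, sg_mul_A5]; ring
  obtain ⟨w', hw'def⟩ : ∃ w' : Perm Y → Y → ZMod 2, ∀ g y, w' g y = w g y + ε * sg_A5 g := ⟨_, fun _ _ => rfl⟩
  simp only [← hw'def] at hw'
  have hst : ∀ g : Perm Y, g y0 = y0 → w' g y0 = 0 := by
    intro g hg
    rw [hw'def, hε g hg]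
    exact two_A5 _
  obtain ⟨m0, hm0⟩ : ∃ m0 : Y → ZMod 2, ∀ y, m0 y = w' (swap y0 y) y := ⟨_, fun _ => rfl⟩
  have key : ∀ g : Perm Y, m0 (g y0) = w' g (g y0) := by
    intro g
    rw [hm0]
    have e1 : g = swap y0 (g y0) * (swap y0 (g y0) * g) := by
      rw [← mul_assoc, swap_mul_self, one_mul]
    have e2 : (swap y0 (g y0) * g) y0 = y0 := by
      rw [mul_apply, swap_apply_right]
    conv_rhs => rw [e1]
    rw [hw']
    have e3 : (swap y0 (g y0))⁻¹ ((swap y0 (g y0) * (swap y0 (g y0) * g)) y0) = y0 := by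
      rw [← e1, swap_inv, swap_apply_right]
    rw [e3, hst _ e2, add_zero, ← e1]
  have key2 : ∀ (g : Perm Y) (y : Y), m0 y = w' g y + m0 (g⁻¹ y) := by
    intro g y
    have h1 := key (g⁻¹ * swap y0 y)
    have e1 : (g⁻¹ * swap y0 y) y0 = g⁻¹ y := by
      rw [mul_apply, swap_apply_left]
    rw [e1] at h1
    rw [h1, hm0, ← hw']
    congr 1
    group
  have hε0 : ε = 0 := by
    obtain ⟨a, b, hab⟩ := Fintype.exists_pair_of_one_lt_card (α := Y) (by omega)
    have h1 : ∑ y, m0 y = ∑ y, w' (swap a b) y + ∑ y, m0 ((swap a b)⁻¹ y) := by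
      rw [← Finset.sum_add_distrib]
      exact Finset.sum_congr rfl fun y _ => key2 _ y
    rw [Equiv.sum_comp ((swap a b)⁻¹) m0] at h1
    have h2 : ∑ y, w' (swap a b) y = 0 := by
      have := right_eq_add.mp h1
      exact this
    have h3 : ∑ y, w' (swap a b) y = ε := by
      simp only [hw'def]
      rw [Finset.sum_add_distrib, hsum, Finset.sum_const, Finset.card_univ, nsmul_eq_mul, hN]
      unfold sg_A5
      rw [sign_swap hab, if_neg (by decide)]
      ring
    rw [← h3, h2]
  refine ⟨fun y => m0 y + ∑ z, m0 z, ?_, ?_⟩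
  · rw [Finset.sum_add_distrib, Finset.sum_const, Finset.card_univ, nsmul_eq_mul, hN, one_mul]
    exact two_A5 _
  · intro g y
    have h1 := key2 g y
    rw [hw'def, hε0, zero_mul, add_zero] at h1
    have h2 : w g y = m0 y - m0 (g⁻¹ y) := by rw [h1]; ring
    have h3 : ∀ a b c : ZMod 2, a - b = (b + c) - (a + c) := by decide
    rw [h2]
    exact h3 _ _ _

end Pool.TW
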