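import Pool.Agent.Helper34.TW.StA

/-!
# TW, module A6 (helper48): a cocycle vanishing on the kernel is a coboundary

`theorem hA6 (h5 : StA5) : StA6`.
-/

set_option autoImplicit false
set_option linter.unusedSectionVars false

open scoped Pointwise NumberField
open NumberField Polynomial Pool.RG2

namespace Pool.TW

section

variable {Γ : Type} [Group Γ] {r : ℕ} {Y : Fin r → Type} [∀ s, Fintype (Y s)] [∀ s, DecidableEq (Y s)]
  [∀ s, MulAction Γ (Y s)] {S : Finset (Fin r)}

private lemma act_sub_A6 (g : Γ) (m m' : Pt Y S → ZMod 2) : act Y g (m - m') = act Y g m - act Y g m' := rfl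

private lemma act_mul_A6 (g h : Γ) (m : Pt Y S → ZMod 2) : act Y (g * h) m = act Y g (act Y h m) := by
  funext x
  simp only [act, mul_inv_rev, mul_smul]

private lemma act_zero_A6 (g : Γ) : act Y g (0 : Pt Y S → ZMod 2) = 0 := rfl

omit [∀ s, Fintype (Y s)] [∀ s, DecidableEq (Y s)] in
private lemma smul_update_A6 (g : Γ) (x : Pt Y S) (s : S) (y : Y s) :
    g • Function.update x s y = Function.update (g • x) s (g • y) := by
  funext t
  by_cases h : t = s
  · subst h
    simp only [Pi.smul_apply, Function.update_self]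
  · simp only [Pi.smul_apply, Function.update_of_ne h]

private lemma act_mem_A6 (g : Γ) {m : Pt Y S → ZMod 2} (hm : m ∈ Ev Y S) : act Y g m ∈ Ev Y S := by
  intro s x
  have h := hm s (g⁻¹ • x)
  rw [← Equiv.sum_comp (MulAction.toPerm g⁻¹)] at h
  simp only [act, smul_update_A6]
  exact h

/-- An element acting transitively on `Y s0` and trivially elsewhere has no nonzero fixed vector. -/
private lemma fix_zero_A6 (hodd : ∀ s, Odd (Fintype.card (Y s))) (s0 : S) (z : Γ)
    (htr : ∀ y y' : Y s0, ∃ k : ℕ, z ^ k • y = y') (hz : ∀ s, s ≠ (s0 : Fin r) → ∀ y : Y s, z • y = y)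
    (m : Pt Y S → ZMod 2) (hm : m ∈ Ev Y S) (hf : act Y z m = m) : m = 0 := by
  have key : ∀ x : Pt Y S, m (z • x) = m x := by
    intro x
    have h := congrFun hf (z • x)
    simp only [act, inv_smul_smul] at h
    exact h.symm
  have pow : ∀ (k : ℕ) (x : Pt Y S), m (z ^ k • x) = m x := by
    intro k
    induction k with
    | zero => intro x; rw [pow_zero, one_smul]
    | succ k ih => intro x; rw [pow_succ, mul_smul, ih, key]
  have hzk : ∀ (k : ℕ) s, s ≠ (s0 : Fin r) → ∀ y : Y s, z ^ k • y = y := by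
    intro k
    induction k with
    | zero => intro s _ y; rw [pow_zero, one_smul]
    | succ k ih => intro s hs y; rw [pow_succ, mul_smul, hz s hs, ih s hs]
  have hup : ∀ (x : Pt Y S) (y : Y s0), m (Function.update x s0 y) = m x := by
    intro x y
    obtain ⟨k, hk⟩ := htr (x s0) y
    have : Function.update x s0 y = z ^ k • x := by
      funext t
      by_cases h : t = s0
      · subst h
        simp only [Function.update_self, Pi.smul_apply, hk]
      · rw [Function.update_of_ne h, Pi.smul_apply, hzk k t (fun h' => h (Subtype.ext h'))]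
    rw [this, pow]
  funext x
  have h := hm s0 x
  simp only [hup, Finset.sum_const, Finset.card_univ, nsmul_eq_mul] at h
  rw [(ZMod.natCast_eq_one_iff_odd).2 (hodd s0), one_mul] at h
  exact h

private lemma exists_cycle_A6 (X : Type) [Fintype X] [Nonempty X] :
    ∃ π : Equiv.Perm X, ∀ y y' : X, ∃ k : ℕ, (π ^ k) y = y' := by
  classical
  have hne : NeZero (Fintype.card X) := ⟨Fintype.card_ne_zero⟩
  let e : X ≃ ZMod (Fintype.card X) := Fintype.equivOfCardEq (ZMod.card _).symm
  let π : Equiv.Perm X := (e.trans (Equiv.addRight 1)).trans e.symm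
  have hπ : ∀ y, π y = e.symm (e y + 1) := fun y => rfl
  have hpow : ∀ (k : ℕ) (y : X), (π ^ k) y = e.symm (e y + k) := by
    intro k
    induction k with
    | zero => intro y; simp
    | succ k ih =>
      intro y
      rw [pow_succ', Equiv.Perm.mul_apply, ih, hπ, Equiv.apply_symm_apply]
      push_cast
      rw [add_assoc]
  refine ⟨π, fun y y' => ⟨(e y' - e y).val, ?_⟩⟩
  rw [hpow, ZMod.natCast_zmod_val, add_sub_cancel, Equiv.symm_apply_apply]

/-- An element of `Γ'` acting as a full cycle on `Y s0` and trivially elsewhere. -/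
private lemma exists_elt_A6 (h3 : ∀ s, 3 ≤ Fintype.card (Y s)) (Γ' : Subgroup Γ)
    (hfull : ∀ π : (s : Fin r) → Equiv.Perm (Y s), ∃ g ∈ Γ', ∀ s (y : Y s), g • y = π s y) (s0 : Fin r) :
    ∃ z ∈ Γ', (∀ y y' : Y s0, ∃ k : ℕ, z ^ k • y = y') ∧ ∀ s, s ≠ s0 → ∀ y : Y s, z • y = y := by
  classical
  have hne : Nonempty (Y s0) := Fintype.card_pos_iff.1 (by have := h3 s0; omega)
  obtain ⟨π0, hπ0⟩ := exists_cycle_A6 (Y s0)
  obtain ⟨z, hz, hact⟩ := hfull (Function.update (fun _ => 1) s0 π0)
  refine ⟨z, hz, ?_, ?_⟩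
  · have h0 : ∀ y : Y s0, z • y = π0 y := by
      intro y
      rw [hact, Function.update_self]
    have hk : ∀ (k : ℕ) (y : Y s0), z ^ k • y = (π0 ^ k) y := by
      intro k
      induction k with
      | zero => intro y; simp
      | succ k ih => intro y; rw [pow_succ, mul_smul, ih, h0, pow_succ, Equiv.Perm.mul_apply]
    intro y y'
    obtain ⟨k, hkk⟩ := hπ0 y y'
    exact ⟨k, by rw [hk, hkk]⟩
  · intro s hs y
    rw [hact, Function.update_of_ne hs]
    rfl

/-- The heart: a cocycle `w` vanishing on `H` and at `z`. -/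
private lemma heart_A6 (h5 : StA5) (hodd : ∀ s, Odd (Fintype.card (Y s))) (h3 : ∀ s, 3 ≤ Fintype.card (Y s))
    (Γ' : Subgroup Γ) (hcomm : ∀ a b : Γ, a * b * a⁻¹ * b⁻¹ ∈ Γ')
    (hfull : ∀ π : (s : Fin r) → Equiv.Perm (Y s), ∃ g ∈ Γ', ∀ s (y : Y s), g • y = π s y)
    (s0 : S) (z : Γ) (htr : ∀ y y' : Y s0, ∃ k : ℕ, z ^ k • y = y')
    (hz : ∀ s, s ≠ (s0 : Fin r) → ∀ y : Y s, z • y = y)
    (w : Γ → Pt Y S → ZMod 2) (hw : IsCoc0 Y w)
    (hH : ∀ h ∈ Γ', (∀ s (y : Y s), h • y = y) → w h = 0) (hwz : w z = 0) :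
    CobOn Y Set.univ w := by
  classical
  -- (a)
  have ha : ∀ g : Γ, (∀ y : Y s0, g • y = y) → w g = 0 := by
    intro g hg
    have hginv : ∀ y : Y s0, g⁻¹ • y = y := fun y => by
      rw [inv_smul_eq_iff]; exact (hg y).symm
    have hh : ∀ s (y : Y s), (g * z * g⁻¹ * z⁻¹) • y = y := by
      intro s y
      by_cases hs : s = (s0 : Fin r)
      · subst hs
        rw [mul_smul, mul_smul, mul_smul, hginv, smul_inv_smul, hg]
      · have hzi : ∀ y : Y s, z⁻¹ • y = y := fun y => by
          rw [inv_smul_eq_iff]; exact (hz s hs y).symm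
        rw [mul_smul, mul_smul, mul_smul, hzi, hz s hs, smul_inv_smul]
    have h0 := hH _ (hcomm g z) hh
    have hacth : ∀ m : Pt Y S → ZMod 2, act Y (g * z * g⁻¹ * z⁻¹) m = m := by
      intro m
      funext x
      simp only [act]
      congr 1
      funext s
      rw [Pi.smul_apply, inv_smul_eq_iff]
      exact (hh s (x s)).symm
    have e1 : w (g * z) = w g := by
      rw [hw.mul, hwz, act_zero_A6, add_zero]
    have e2 : w (g * z * g⁻¹ * z⁻¹ * (z * g)) = act Y z (w g) := by
      rw [hw.mul, h0, zero_add, hacth, hw.mul, hwz, zero_add]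
    have e3 : g * z * g⁻¹ * z⁻¹ * (z * g) = g * z := by group
    rw [e3, e1] at e2
    exact fix_zero_A6 hodd s0 z htr hz (w g) (hw.ev g) e2.symm
  -- (b)
  have hb : ∀ g δ : Γ, (∀ y : Y s0, δ • y = y) → act Y δ (w g) = w g := by
    intro g δ hδ
    have h1 : w (δ * g) = act Y δ (w g) := by
      rw [hw.mul, ha δ hδ, zero_add]
    have h2 : w (g * (g⁻¹ * δ * g)) = w g := by
      rw [hw.mul, ha (g⁻¹ * δ * g), act_zero_A6, add_zero]
      intro y
      rw [mul_smul, mul_smul, hδ, inv_smul_smul]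
    have h3 : g * (g⁻¹ * δ * g) = δ * g := by group
    rw [h3, h1] at h2
    exact h2
  have hsame : ∀ g g' : Γ, (∀ y : Y s0, g • y = g' • y) → w g = w g' := by
    intro g g' hgg
    have h1 : w (g * (g⁻¹ * g')) = w g := by
      rw [hw.mul, ha (g⁻¹ * g'), act_zero_A6, add_zero]
      intro y
      rw [mul_smul, ← hgg, inv_smul_smul]
    rw [← h1]
    congr 1
    group
  by_cases hS : ∃ s1 : S, (s1 : Fin r) ≠ s0
  · -- (c)
    obtain ⟨s1, hs1⟩ := hS
    obtain ⟨δ, _, hδtr, hδ⟩ := exists_elt_A6 h3 Γ' hfull (s1 : Fin r)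
    refine ⟨0, zero_mem _, fun g _ => ?_⟩
    rw [act_zero_A6, sub_zero]
    exact fix_zero_A6 hodd s1 δ hδtr hδ (w g) (hw.ev g) (hb g δ (hδ s0 (Ne.symm hs1)))
  · -- (d)
    have hS' : ∀ s : S, s = s0 := by
      intro s
      by_contra hne
      exact hS ⟨s, fun h => hne (Subtype.ext h)⟩
    have hnonempty : ∀ s, Nonempty (Y s) := fun s => Fintype.card_pos_iff.1 (by have := h3 s; omega)
    let x0 : Pt Y S := fun s => Classical.choice (hnonempty s)
    have hpt : ∀ x x' : Pt Y S, x s0 = x' s0 → x = x' := by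
      intro x x' h
      funext s
      obtain rfl := hS' s
      exact h
    have hlift : ∀ π : Equiv.Perm (Y s0), ∃ g : Γ, ∀ y : Y s0, g • y = π y := by
      intro π
      obtain ⟨g, _, hg⟩ := hfull (Function.update (fun _ => 1) (s0 : Fin r) π)
      refine ⟨g, fun y => ?_⟩
      rw [hg, Function.update_self]
    choose lift hl using hlift
    let w' : Equiv.Perm (Y s0) → Y s0 → ZMod 2 := fun π y => w (lift π) (Function.update x0 s0 y)
    have hw' : ∀ g h y, w' (g * h) y = w' g y + w' h (g⁻¹ y) := by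
      intro g h y
      have h1 : w (lift (g * h)) = w (lift g * lift h) := by
        apply hsame
        intro y
        rw [hl, mul_smul, hl, hl, Equiv.Perm.mul_apply]
      change w (lift (g * h)) _ = w (lift g) _ + w (lift h) _
      rw [h1, hw.mul, Pi.add_apply]
      congr 1
      simp only [act]
      congr 1
      apply hpt
      rw [Pi.smul_apply, Function.update_self, Function.update_self, inv_smul_eq_iff, hl]
      exact (Equiv.apply_symm_apply g y).symm
    have hsum : ∀ g, ∑ y, w' g y = 0 := fun g => hw.ev (lift g) s0 x0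
    obtain ⟨m, hm0, hm⟩ := h5 (Y s0) (hodd s0) (h3 s0) w' hw' hsum
    refine ⟨fun x => m (x s0), ?_, ?_⟩
    · intro s x
      obtain rfl := hS' s
      simpa only [Function.update_self] using hm0
    · intro g _
      have h1 : w g = w (lift (MulAction.toPerm g)) := by
        apply hsame
        intro y
        rw [hl]
        rfl
      funext x
      have h2 := hm (MulAction.toPerm g) (x s0)
      have h3 : Function.update x0 s0 (x s0) = x := hpt _ _ (by rw [Function.update_self])
      have h4 : w' (MulAction.toPerm g) (x s0) = w g x := by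
        change w (lift (MulAction.toPerm g)) (Function.update x0 s0 (x s0)) = w g x
        rw [h3, ← h1]
      rw [← h4, h2]
      rfl

end

/-- Module A6. -/
theorem hA6 (h5 : StA5) : StA6 := by
  intro Γ _ r Y _ _ _ hodd h3 Γ' hcomm hfull S hS w hw hH
  classical
  obtain ⟨s, hs⟩ := hS
  let s0 : S := ⟨s, hs⟩
  obtain ⟨z, hzΓ, htr, hz⟩ := exists_elt_A6 h3 Γ' hfull (s0 : Fin r)
  -- `m ↦ act z m - m` is bijective on `Ev`
  have hsurj : ∃ m ∈ Ev Y S, act Y z m - m = w z := by
    let f : Ev Y S → Ev Y S := fun m => ⟨act Y z m.1 - m.1, sub_mem (act_mem_A6 z m.2) m.2⟩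
    have hinj : Function.Injective f := by
      intro m m' h
      have h1 : act Y z m.1 - m.1 = act Y z m'.1 - m'.1 := congrArg Subtype.val h
      have h2 : act Y z (m.1 - m'.1) = m.1 - m'.1 := by
        rw [act_sub_A6]
        have := sub_eq_sub_iff_add_eq_add.1 h1
        rw [sub_eq_sub_iff_add_eq_add]
        rw [this]; abel
      have h3 := fix_zero_A6 hodd s0 z htr hz (m.1 - m'.1) (sub_mem m.2 m'.2) h2
      exact Subtype.ext (sub_eq_zero.1 h3)
    have hfin : Finite (Ev Y S) := inferInstance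
    obtain ⟨m, hm⟩ := (Finite.injective_iff_surjective.1 hinj) ⟨w z, hw.ev z⟩
    exact ⟨m.1, m.2, congrArg Subtype.val hm⟩
  obtain ⟨m0, hm0, hmz⟩ := hsurj
  let w1 : Γ → Pt Y S → ZMod 2 := fun g => w g - (act Y g m0 - m0)
  have hw1 : IsCoc0 Y w1 := by
    refine ⟨fun g => sub_mem (hw.ev g) (sub_mem (act_mem_A6 g hm0) hm0), fun g h => ?_⟩
    change w (g * h) - (act Y (g * h) m0 - m0) = w g - (act Y g m0 - m0) + act Y g (w h - (act Y h m0 - m0))
    rw [hw.mul, act_mul_A6, act_sub_A6, act_sub_A6]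
    abel
  have hH1 : ∀ h ∈ Γ', (∀ s (y : Y s), h • y = y) → w1 h = 0 := by
    intro h hh hact
    change w h - (act Y h m0 - m0) = 0
    have : act Y h m0 = m0 := by
      funext x
      simp only [act]
      congr 1
      funext s
      rw [Pi.smul_apply, inv_smul_eq_iff]
      exact (hact s (x s)).symm
    rw [hH h hh hact, this, sub_self, sub_zero]
  have hw1z : w1 z = 0 := by
    change w z - (act Y z m0 - m0) = 0
    rw [hmz, sub_self]
  obtain ⟨m1, hm1, h1⟩ := heart_A6 h5 hodd h3 Γ' hcomm hfull s0 z htr hz w1 hw1 hH1 hw1z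
  refine ⟨m1 + m0, add_mem hm1 hm0, fun g hg => ?_⟩
  have h2 : w g - (act Y g m0 - m0) = act Y g m1 - m1 := h1 g hg
  have h3 : act Y g (m1 + m0) = act Y g m1 + act Y g m0 := rfl
  rw [h3, ← sub_add_cancel (w g) (act Y g m0 - m0), h2]
  abel

end Pool.TW
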