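import Pool.Agent.Helper34.TW.StA

set_option autoImplicit false

namespace Pool.TW

open Finset

section A7

variable {Γ : Type} [Group Γ] {r : ℕ} {Y : Fin r → Type} [∀ s, Fintype (Y s)] [∀ s, DecidableEq (Y s)]
  [∀ s, MulAction Γ (Y s)]

/-- the action as a linear map -/
def actL_A7 (Y : Fin r → Type) [∀ s, MulAction Γ (Y s)] (S : Finset (Fin r)) (g : Γ) :
    (Pt Y S → ZMod 2) →ₗ[ZMod 2] (Pt Y S → ZMod 2) where
  toFun m := act Y g m
  map_add' _ _ := rfl
  map_smul' _ _ := rfl

theorem act_cube_A7 {S : Finset (Fin r)} (g : Γ) (a b : Pt Y S) :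
    act Y g (cube Y a b) = cube Y (g • a) (g • b) := by
  funext x
  simp only [act, cube]
  refine Finset.prod_congr rfl fun s _ => ?_
  have h1 : ∀ c : Pt Y S, ((g⁻¹ • x) s = c s) ↔ (x s = (g • c) s) := by
    intro c
    change (g⁻¹ • x s = c s) ↔ (x s = g • c s)
    constructor
    · intro h; rw [← h, smul_inv_smul]
    · intro h; rw [h, inv_smul_smul]
  simp only [h1 a, h1 b]

/-- `1 + act t` for a transposition in the coordinate `s`. -/
theorem one_add_transp_A7 {S : Finset (Fin r)} (s : Fin r) (t : Γ) (a b : Y s) (hab : a ≠ b)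
    (h1 : t • a = b) (h2 : t • b = a) (h3 : ∀ y : Y s, y ≠ a → y ≠ b → t • y = y)
    (h4 : ∀ s', s' ≠ s → ∀ y : Y s', t • y = y) (m : Pt Y S → ZMod 2) :
    m + act Y t m = fun x => if hs : s ∈ S then
      ((if x ⟨s, hs⟩ = a then 1 else 0) + if x ⟨s, hs⟩ = b then 1 else 0) *
        (m (Function.update x ⟨s, hs⟩ a) + m (Function.update x ⟨s, hs⟩ b)) else 0 := by
  have hinv : ∀ s' (y z : Y s'), t • y = z → t⁻¹ • z = y := by
    intro s' y z h; rw [← h, inv_smul_smul]
  funext x
  simp only [Pi.add_apply, act]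
  by_cases hs : s ∈ S
  · rw [dif_pos hs]
    by_cases hxa : x ⟨s, hs⟩ = a
    · have hxb : x ⟨s, hs⟩ ≠ b := by rw [hxa]; exact hab
      have e1 : t⁻¹ • x = Function.update x ⟨s, hs⟩ b := by
        funext s'
        by_cases hs' : s' = ⟨s, hs⟩
        · subst hs'
          rw [Function.update_self]
          change t⁻¹ • x ⟨s, hs⟩ = b
          rw [hxa]
          exact hinv s b a h2
        · rw [Function.update_of_ne hs']
          have : (s' : Fin r) ≠ s := fun h => hs' (Subtype.ext h)
          exact hinv _ _ _ (h4 s' this (x s'))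
      have e2 : Function.update x ⟨s, hs⟩ a = x := by
        rw [← hxa]; exact Function.update_eq_self _ _
      rw [e1, e2]
      simp only [hxa, if_true, hab, if_false, add_zero, one_mul]
    · by_cases hxb : x ⟨s, hs⟩ = b
      · have e1 : t⁻¹ • x = Function.update x ⟨s, hs⟩ a := by
          funext s'
          by_cases hs' : s' = ⟨s, hs⟩
          · subst hs'
            rw [Function.update_self]
            change t⁻¹ • x ⟨s, hs⟩ = a
            rw [hxb]
            exact hinv s a b h1
          · rw [Function.update_of_ne hs']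
            have : (s' : Fin r) ≠ s := fun h => hs' (Subtype.ext h)
            exact hinv _ _ _ (h4 s' this (x s'))
        have e2 : Function.update x ⟨s, hs⟩ b = x := by
          rw [← hxb]; exact Function.update_eq_self _ _
        rw [e1, e2]
        simp only [hxb, if_true, Ne.symm hab, if_false, zero_add, one_mul]
        rw [add_comm]
      · have e1 : t⁻¹ • x = x := by
          funext s'
          by_cases hs' : s' = ⟨s, hs⟩
          · subst hs'
            exact hinv _ _ _ (h3 _ hxa hxb)
          · have : (s' : Fin r) ≠ s := fun h => hs' (Subtype.ext h)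
            exact hinv _ _ _ (h4 s' this (x s'))
        rw [e1]
        simp only [hxa, hxb, if_false, add_zero, zero_mul]
        exact CharTwo.add_self_eq_zero _
  · rw [dif_neg hs]
    have e1 : t⁻¹ • x = x := by
      funext s'
      have : (s' : Fin r) ≠ s := by
        intro h
        exact hs (h ▸ s'.2)
      exact hinv _ _ _ (h4 s' this (x s'))
    rw [e1]
    exact CharTwo.add_self_eq_zero _

/-- left composition of the operators `1 + act (t s)` -/
def opL_A7 {S : Finset (Fin r)} (t : Fin r → Γ) : List (Fin r) → (Pt Y S → ZMod 2) → (Pt Y S → ZMod 2)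
  | [], m => m
  | s :: l, m => opL_A7 t l m + act Y (t s) (opL_A7 t l m)

/-- right composition -/
def opR_A7 {S : Finset (Fin r)} (t : Fin r → Γ) : List (Fin r) → (Pt Y S → ZMod 2) → (Pt Y S → ZMod 2)
  | [], m => m
  | s :: l, m => opR_A7 t l (m + act Y (t s) m)

theorem pr_add_left_A7 {S : Finset (Fin r)} (m m' n : Pt Y S → ZMod 2) :
    pr Y (m + m') n = pr Y m n + pr Y m' n := by
  simp only [pr, Pi.add_apply, add_mul, Finset.sum_add_distrib]

theorem pr_add_right_A7 {S : Finset (Fin r)} (m n n' : Pt Y S → ZMod 2) :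
    pr Y m (n + n') = pr Y m n + pr Y m n' := by
  simp only [pr, Pi.add_apply, mul_add, Finset.sum_add_distrib]

theorem pr_act_A7 {S : Finset (Fin r)} (t : Γ) (m n : Pt Y S → ZMod 2) :
    pr Y (act Y t m) n = pr Y m (act Y t⁻¹ n) := by
  simp only [pr, act]
  refine Fintype.sum_equiv (MulAction.toPerm t⁻¹) _ _ fun x => ?_
  simp only [MulAction.toPerm_apply, inv_inv, smul_inv_smul]

/-- `t` acts as an involution on all coordinates. -/
theorem act_inv_A7 {S : Finset (Fin r)} (t : Γ) (ht : ∀ s (y : Y s), t • t • y = y) (m : Pt Y S → ZMod 2) :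
    act Y t⁻¹ m = act Y t m := by
  funext x
  simp only [act, inv_inv]
  congr 1
  funext s
  change t • x s = t⁻¹ • x s
  rw [eq_inv_smul_iff, ht]

theorem adj_A7 {S : Finset (Fin r)} (t : Fin r → Γ) (ht : ∀ s, ∀ s' (y : Y s'), t s • t s • y = y)
    (l : List (Fin r)) (m n : Pt Y S → ZMod 2) : pr Y (opL_A7 t l m) n = pr Y m (opR_A7 t l n) := by
  induction l generalizing n with
  | nil => rfl
  | cons s l ih =>
    simp only [opL_A7, opR_A7]
    rw [pr_add_left_A7, pr_act_A7, act_inv_A7 _ (ht s), ih, ih, ← pr_add_right_A7]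
    congr 1
    clear ih
    generalize act Y (t s) n = n'
    induction l generalizing n n' with
    | nil => rfl
    | cons s' l ih =>
      simp only [opR_A7]
      rw [ih]
      congr 1
      funext x
      simp only [Pi.add_apply, act]
      ring

theorem opL_zero_A7 {S : Finset (Fin r)} (t : Fin r → Γ) (s : Fin r) (hs : s ∉ S)
    (h4 : ∀ s s', s' ≠ s → ∀ y : Y s', t s • y = y) (l : List (Fin r)) (hl : s ∈ l) (m : Pt Y S → ZMod 2) :
    opL_A7 t l m = 0 := by
  induction l with
  | nil => simp at hl
  | cons s' l ih =>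
    simp only [opL_A7]
    by_cases h : s ∈ l
    · rw [ih h]
      funext x
      simp [act]
    · have h' : s = s' := by
        rcases List.mem_cons.1 hl with h1 | h1
        · exact h1
        · exact (h h1).elim
      subst h'
      funext x
      simp only [Pi.add_apply, act, Pi.zero_apply]
      have e1 : (t s)⁻¹ • x = x := by
        funext s'
        change (t s)⁻¹ • x s' = x s'
        rw [inv_smul_eq_iff]
        exact (h4 s s' (fun h => hs (h ▸ s'.2)) _).symm
      rw [e1]
      exact CharTwo.add_self_eq_zero _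

/-- partial cubes -/
def pcx_A7 {S : Finset (Fin r)} (a b x : Pt Y S) (U : List (Fin r)) : Pt Y S → ZMod 2 := fun y =>
  ∏ s : S, if (s : Fin r) ∈ U then
    (((if x s = a s then 1 else 0) + if x s = b s then 1 else 0) *
      ((if y s = a s then 1 else 0) + if y s = b s then 1 else 0))
  else if y s = x s then 1 else 0

theorem step_A7 {S : Finset (Fin r)} (a b x : Pt Y S) (U : List (Fin r)) (s : S) (hs : (s : Fin r) ∉ U) (t : Γ)
    (hab : a s ≠ b s)
    (h1 : t • a s = b s) (h2 : t • b s = a s) (h3 : ∀ y : Y s, y ≠ a s → y ≠ b s → t • y = y)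
    (h4 : ∀ s' : Fin r, s' ≠ s → ∀ y : Y s', t • y = y) :
    pcx_A7 a b x U + act Y t (pcx_A7 a b x U) = pcx_A7 a b x (s.1 :: U) := by
  rw [one_add_transp_A7 (s : Fin r) t (a s) (b s) hab h1 h2 h3 h4]
  funext y
  rw [dif_pos s.2]
  have key : ∀ c : Y s, pcx_A7 a b x U (Function.update y s c) =
      (if c = x s then 1 else 0) * ∏ s' ∈ (Finset.univ.erase s : Finset S), (if (s' : Fin r) ∈ U then
    (((if x s' = a s' then 1 else 0) + if x s' = b s' then 1 else 0) *
      ((if y s' = a s' then 1 else 0) + if y s' = b s' then 1 else 0))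
  else if y s' = x s' then 1 else 0) := by
    intro c
    unfold pcx_A7
    rw [← Finset.mul_prod_erase Finset.univ _ (Finset.mem_univ s)]
    rw [if_neg hs, Function.update_self]
    congr 1
    refine Finset.prod_congr rfl fun s' hs' => ?_
    rw [Function.update_of_ne (Finset.ne_of_mem_erase hs')]
  change ((if y s = a s then 1 else 0) + if y s = b s then 1 else 0) *
    (pcx_A7 a b x U (Function.update y s (a s)) + pcx_A7 a b x U (Function.update y s (b s))) = _
  rw [key, key]
  unfold pcx_A7
  rw [← Finset.mul_prod_erase Finset.univ _ (Finset.mem_univ s), if_pos List.mem_cons_self]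
  have e2 : ∏ s' ∈ (Finset.univ.erase s : Finset S), (if (s' : Fin r) ∈ s.1 :: U then
    (((if x s' = a s' then 1 else 0) + if x s' = b s' then 1 else 0) *
      ((if y s' = a s' then 1 else 0) + if y s' = b s' then 1 else 0))
  else if y s' = x s' then (1 : ZMod 2) else 0) = ∏ s' ∈ (Finset.univ.erase s : Finset S), (if (s' : Fin r) ∈ U then
    (((if x s' = a s' then 1 else 0) + if x s' = b s' then 1 else 0) *
      ((if y s' = a s' then 1 else 0) + if y s' = b s' then 1 else 0))
  else if y s' = x s' then 1 else 0) := by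
    refine Finset.prod_congr rfl fun s' hs' => ?_
    have hne : (s' : Fin r) ≠ s := fun h => Finset.ne_of_mem_erase hs' (Subtype.ext h)
    have : ((s' : Fin r) ∈ s.1 :: U) ↔ ((s' : Fin r) ∈ U) := by
      rw [List.mem_cons]
      exact ⟨fun h => h.resolve_left hne, Or.inr⟩
    simp only [this]
  rw [e2]
  have e3 : ∀ c : Y s, (if c = x s then (1 : ZMod 2) else 0) = if x s = c then 1 else 0 := by
    intro c
    simp only [eq_comm]
  rw [e3, e3]
  ring

/-- data of a family of transpositions -/
structure Tr_A7 (t : Fin r → Γ) {S : Finset (Fin r)} (a b : Pt Y S) : Prop where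
  ne : ∀ s : S, a s ≠ b s
  t1 : ∀ s : S, t s • a s = b s
  t2 : ∀ s : S, t s • b s = a s
  t3 : ∀ s : S, ∀ y : Y s, y ≠ a s → y ≠ b s → t s • y = y
  t4 : ∀ s s' : Fin r, s' ≠ s → ∀ y : Y s', t s • y = y
  t5 : ∀ s, ∀ s' (y : Y s'), t s • t s • y = y

theorem opR_pcx_A7 {S : Finset (Fin r)} {t : Fin r → Γ} {a b : Pt Y S} (ht : Tr_A7 t a b) (x : Pt Y S)
    (l : List (Fin r)) (hn : l.Nodup) (hl : ∀ s ∈ l, s ∈ S) (U : List (Fin r)) (hU : ∀ s ∈ l, s ∉ U) :
    ∃ V : List (Fin r), (∀ s, s ∈ V ↔ s ∈ l ∨ s ∈ U) ∧ opR_A7 t l (pcx_A7 a b x U) = pcx_A7 a b x V := by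
  induction l generalizing U with
  | nil => exact ⟨U, by simp, rfl⟩
  | cons s l ih =>
    rw [List.nodup_cons] at hn
    have hsS : s ∈ S := hl s List.mem_cons_self
    have hstep := step_A7 a b x U ⟨s, hsS⟩ (hU s List.mem_cons_self) (t s) (ht.ne _) (ht.t1 ⟨s, hsS⟩)
      (ht.t2 ⟨s, hsS⟩) (ht.t3 ⟨s, hsS⟩) (fun s' hs' => ht.t4 s s' hs')
    obtain ⟨V, hV, hV'⟩ := ih hn.2 (fun s' hs' => hl s' (List.mem_cons_of_mem _ hs')) (s :: U) (by
      intro s' hs' h
      rcases List.mem_cons.1 h with h | h
      · exact hn.1 (h ▸ hs')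
      · exact hU s' (List.mem_cons_of_mem _ hs') h)
    refine ⟨V, ?_, ?_⟩
    · intro s'
      rw [hV]
      simp only [List.mem_cons]
      tauto
    · simp only [opR_A7]
      rw [hstep]
      exact hV'

theorem opL_full_A7 {S : Finset (Fin r)} {t : Fin r → Γ} {a b : Pt Y S} (ht : Tr_A7 t a b)
    (m : Pt Y S → ZMod 2) : opL_A7 t S.toList m = fun x => pr Y m (cube Y a b) * cube Y a b x := by
  funext x
  have h1 : opL_A7 t S.toList m x = pr Y (opL_A7 t S.toList m) (pcx_A7 a b x []) := by
    unfold pr
    rw [Finset.sum_eq_single x]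
    · unfold pcx_A7
      simp
    · intro y _ hy
      have : ∃ s : S, y s ≠ x s := by
        by_contra h
        push Not at h
        exact hy (funext h)
      obtain ⟨s, hs⟩ := this
      have : pcx_A7 a b x [] y = 0 := by
        unfold pcx_A7
        refine Finset.prod_eq_zero (Finset.mem_univ s) ?_
        simp [hs]
      rw [this, mul_zero]
    · intro h
      exact (h (Finset.mem_univ _)).elim
  rw [h1, adj_A7 t ht.t5]
  obtain ⟨V, hV, hV'⟩ := opR_pcx_A7 ht x S.toList S.nodup_toList (fun s hs => Finset.mem_toList.1 hs) [] (by simp)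
  rw [hV']
  unfold pr
  rw [Finset.sum_mul]
  refine Finset.sum_congr rfl fun y _ => ?_
  rw [mul_assoc]
  congr 1
  unfold pcx_A7 cube
  rw [← Finset.prod_mul_distrib]
  refine Finset.prod_congr rfl fun s _ => ?_
  have : (s : Fin r) ∈ V := (hV s).2 (Or.inl (Finset.mem_toList.2 s.2))
  rw [if_pos this, mul_comm]

/-- transpositions with values in a subgroup -/
theorem exists_tr_A7 (Γ' : Subgroup Γ) (honto : ∀ π : (s : Fin r) → Equiv.Perm (Y s), ∃ g ∈ Γ', ∀ s (y : Y s), g • y = π s y)
    {S : Finset (Fin r)} (a b : Pt Y S) (hab : ∀ s, a s ≠ b s) :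
    ∃ t : Fin r → Γ, (∀ s, t s ∈ Γ') ∧ Tr_A7 t a b := by
  have h : ∀ s : Fin r, ∃ g ∈ Γ', ∀ s' (y : Y s'), g • y =
      (if hs : s' = s then (if hS : s' ∈ S then Equiv.swap (a ⟨s', hS⟩) (b ⟨s', hS⟩) else 1) else 1 : Equiv.Perm (Y s')) y :=
    fun s => honto _
  choose t ht ht' using h
  refine ⟨t, ht, ?_, ?_, ?_, ?_, ?_, ?_⟩
  · exact hab
  · intro s
    rw [ht' s s, dif_pos rfl, dif_pos s.2]
    exact Equiv.swap_apply_left _ _
  · intro s
    rw [ht' s s, dif_pos rfl, dif_pos s.2]
    exact Equiv.swap_apply_right _ _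
  · intro s y h1 h2
    rw [ht' s s, dif_pos rfl, dif_pos s.2]
    exact Equiv.swap_apply_of_ne_of_ne h1 h2
  · intro s s' hs y
    rw [ht' s s', dif_neg hs]
    rfl
  · intro s s' y
    rw [ht' s s', ht' s s']
    by_cases hs : s' = s
    · rw [dif_pos hs]
      by_cases hS : s' ∈ S
      · rw [dif_pos hS]
        exact Equiv.swap_apply_self _ _ _
      · rw [dif_neg hS]; rfl
    · rw [dif_neg hs]; rfl

/-- values on the product of an element and a conjugate -/
theorem coc_conj_A7 {S : Finset (Fin r)} (w : Γ → Pt Y S → ZMod 2) (hw : IsCoc0 Y w) (g h : Γ)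
    (hh : ∀ s (y : Y s), h • y = y) : w (g * h * g⁻¹) = act Y g (w h) := by
  have hact : ∀ m : Pt Y S → ZMod 2, act Y (g * h * g⁻¹) m = m := by
    intro m
    funext x
    simp only [act]
    congr 1
    have : (g * h * g⁻¹)⁻¹ = g * h⁻¹ * g⁻¹ := by group
    rw [this]
    funext s
    change (g * h⁻¹ * g⁻¹) • x s = x s
    rw [mul_smul, mul_smul]
    have h2 : h⁻¹ • (g⁻¹ • x s) = g⁻¹ • x s := by
      rw [inv_smul_eq_iff, hh]
    rw [h2, smul_inv_smul]
  have h1 : w 1 = 0 := by
    have := hw.mul 1 1
    rw [one_mul] at this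
    have h2 : act Y (1 : Γ) (w 1) = w 1 := by
      funext x
      simp [act]
    rw [h2] at this
    exact add_eq_left.1 this.symm
  have h2 : w (g * h * g⁻¹ * g) = w (g * h * g⁻¹) + w g := by
    rw [hw.mul, hact]
  have h3 : w (g * h * g⁻¹ * g) = w g + act Y g (w h) := by
    rw [inv_mul_cancel_right, hw.mul]
  rw [h2] at h3
  rw [add_comm] at h3
  exact add_left_cancel h3

end A7

theorem hA7 : StA7 := by
  intro hA1 Γ _ r Y _ _ _ hodd Γ' hcomm honto W hfin hcoc hker ψ
  classical
  obtain ⟨M, hM⟩ : ∃ M : Type, M = ((S : Finset (Fin r)) → (W S →ₗ[ZMod 2] (Pt Y S → ZMod 2))) := ⟨_, rfl⟩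
  have hnorm : ∀ g h : Γ, h ∈ Γ' → g * h * g⁻¹ ∈ Γ' := by
    intro g h hh
    have h1 := Γ'.mul_mem (hcomm g h) hh
    rwa [inv_mul_cancel_right] at h1
  have hHn : ∀ g h : Γ, (h ∈ Γ' ∧ ∀ s (y : Y s), h • y = y) → (g * h * g⁻¹ ∈ Γ' ∧ ∀ s (y : Y s), (g * h * g⁻¹) • y = y) := by
    rintro g h ⟨h1, h2⟩
    refine ⟨hnorm g h h1, fun s y => ?_⟩
    rw [mul_smul, mul_smul, h2, smul_inv_smul]
  -- the space of the values
  let R : Submodule (ZMod 2) ((S : Finset (Fin r)) → (W S →ₗ[ZMod 2] (Pt Y S → ZMod 2))) :=
    { carrier := {m | ∃ h, (h ∈ Γ' ∧ ∀ s (y : Y s), h • y = y) ∧ ∀ S (w : W S), m S w = w.1 h}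
      add_mem' := by
        rintro m m' ⟨h, ⟨h1, h2⟩, h3⟩ ⟨h', ⟨h1', h2'⟩, h3'⟩
        refine ⟨h * h', ⟨Γ'.mul_mem h1 h1', fun s y => ?_⟩, fun S w => ?_⟩
        · rw [mul_smul, h2', h2]
        · rw [(hcoc S w.1 w.2).mul]
          change m S w + m' S w = _
          rw [h3, h3']
          congr 1
          funext x
          simp only [act]
          have e : h⁻¹ • x = x := by
            funext s
            change h⁻¹ • x s = x s
            rw [inv_smul_eq_iff, h2]
          rw [e]
      zero_mem' := by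
        refine ⟨1, ⟨Γ'.one_mem, fun s y => one_smul _ _⟩, fun S w => ?_⟩
        have := (hcoc S w.1 w.2).mul 1 1
        rw [one_mul] at this
        have h2 : act Y (1 : Γ) (w.1 1) = w.1 1 := by
          funext x
          simp [act]
        rw [h2] at this
        change (0 : Pt Y S → ZMod 2) = _
        exact (add_eq_left.1 this.symm).symm
      smul_mem' := by
        rintro c m ⟨h, h1, h2⟩
        rcases (by decide : ∀ c : ZMod 2, c = 0 ∨ c = 1) c with rfl | rfl
        · refine ⟨1, ⟨Γ'.one_mem, fun s y => one_smul _ _⟩, fun S w => ?_⟩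
          have := (hcoc S w.1 w.2).mul 1 1
          rw [one_mul] at this
          have h2 : act Y (1 : Γ) (w.1 1) = w.1 1 := by
            funext x
            simp [act]
          rw [h2] at this
          rw [zero_smul]
          change (0 : Pt Y S → ZMod 2) = _
          exact (add_eq_left.1 this.symm).symm
        · rw [one_smul]
          exact ⟨h, h1, h2⟩ }
  have hRact : ∀ m ∈ R, ∀ g : Γ, (fun S => (actL_A7 Y S g).comp (m S)) ∈ R := by
    rintro m ⟨h, h1, h2⟩ g
    refine ⟨g * h * g⁻¹, hHn g h h1, fun S w => ?_⟩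
    rw [coc_conj_A7 w.1 (hcoc S w.1 w.2) g h h1.2, ← h2]
    rfl
  -- operators
  let opM : (Fin r → Γ) → List (Fin r) → ((S : Finset (Fin r)) → (W S →ₗ[ZMod 2] (Pt Y S → ZMod 2))) →
      ((S : Finset (Fin r)) → (W S →ₗ[ZMod 2] (Pt Y S → ZMod 2))) := fun t l m =>
    l.foldr (fun s m' => m' + fun S => (actL_A7 Y S (t s)).comp (m' S)) m
  have hopR : ∀ (t : Fin r → Γ) (l : List (Fin r)) (m), m ∈ R → opM t l m ∈ R := by
    intro t l m hm
    induction l with
    | nil => exact hm
    | cons s l ih =>
      exact R.add_mem ih (hRact _ ih _)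
  have hopA : ∀ (t : Fin r → Γ) (l : List (Fin r)) (m : (S : Finset (Fin r)) → (W S →ₗ[ZMod 2] (Pt Y S → ZMod 2)))
      (S : Finset (Fin r)) (w : W S), opM t l m S w = opL_A7 t l (m S w) := by
    intro t l m S w
    induction l with
    | nil => rfl
    | cons s l ih =>
      change opM t l m S w + act Y (t s) (opM t l m S w) = opL_A7 t l (m S w) + act Y (t s) (opL_A7 t l (m S w))
      rw [ih]
  -- the claim
  have claim : ∀ (k : ℕ) (S0 : Finset (Fin r)), r + 1 ≤ S0.card + k →
      ∀ ℓ : Module.Dual (ZMod 2) ((S : Finset (Fin r)) → (W S →ₗ[ZMod 2] (Pt Y S → ZMod 2))), (∀ m ∈ R, ℓ m = 0) →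
      ∀ ν : W S0 →ₗ[ZMod 2] (Pt Y S0 → ZMod 2), (∀ w, ν w ∈ Ev Y S0) → ℓ (Pi.single S0 ν) = 0 := by
    intro k
    induction k with
    | zero =>
      intro S0 h
      have := Finset.card_le_univ S0
      rw [Fintype.card_fin] at this
      omega
    | succ k ih =>
      intro S0 hk ℓ hℓ ν hν
      -- rank one maps
      have key : ∀ (a b : Pt Y S0), (∀ s, a s ≠ b s) → ∀ lam : Module.Dual (ZMod 2) (W S0),
          ℓ (Pi.single S0 (lam.smulRight (cube Y a b))) = 0 := by
        intro a b hab
        -- the functional `lam ↦ ℓ (lam ⊗ cube)` is the evaluation at `w0`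
        let θ : Module.Dual (ZMod 2) (Module.Dual (ZMod 2) (W S0)) :=
          { toFun := fun lam => ℓ (Pi.single S0 (lam.smulRight (cube Y a b)))
            map_add' := by
              intro x y
              rw [← map_add, ← Pi.single_add]
              congr 2
              ext w
              simp [add_mul]
            map_smul' := by
              intro c x
              rw [RingHom.id_apply, ← map_smul, ← Pi.single_smul]
              congr 2
              ext w
              simp [mul_assoc] }
        have := hfin S0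
        obtain ⟨w0, hw0⟩ := (Module.evalEquiv (ZMod 2) (W S0)).surjective θ
        have hw0' : ∀ lam : Module.Dual (ZMod 2) (W S0), ℓ (Pi.single S0 (lam.smulRight (cube Y a b))) = lam w0 := by
          intro lam
          have := congrArg (fun F => F lam) hw0
          exact this.symm
        -- `pr (w0 h) (cube a b) = 0`
        have hpr : ∀ h, (h ∈ Γ' ∧ ∀ s (y : Y s), h • y = y) → pr Y (w0.1 h) (cube Y a b) = 0 := by
          intro h hh
          obtain ⟨t, ht, htr⟩ := exists_tr_A7 Γ' honto a b hab
          let m : (S : Finset (Fin r)) → (W S →ₗ[ZMod 2] (Pt Y S → ZMod 2)) := fun S =>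
            { toFun := fun w => w.1 h
              map_add' := fun _ _ => rfl
              map_smul' := fun _ _ => rfl }
          have hm : m ∈ R := ⟨h, hh, fun S w => rfl⟩
          have h0 := hℓ _ (hopR t S0.toList m hm)
          have hsum : opM t S0.toList m = ∑ S, Pi.single S (opM t S0.toList m S) := by
            rw [Finset.univ_sum_single]
          rw [hsum, map_sum, Finset.sum_eq_single S0] at h0
          · have h1 : opM t S0.toList m S0 =
                ({ toFun := fun w => pr Y (w.1 h) (cube Y a b)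
                   map_add' := fun x y => pr_add_left_A7 _ _ _
                   map_smul' := fun c x => by
                    simp only [pr, Submodule.coe_smul, Pi.smul_apply, smul_eq_mul, RingHom.id_apply,
                      Finset.mul_sum, mul_assoc] } : Module.Dual (ZMod 2) (W S0)).smulRight (cube Y a b) := by
              ext w x
              rw [hopA, opL_full_A7 htr]
              rfl
            rw [h1, hw0'] at h0
            exact h0
          · intro S _ hS
            by_cases hsub : S0 ⊆ S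
            · have hlt : S0.card < S.card := Finset.card_lt_card (Finset.ssubset_iff_subset_ne.2 ⟨hsub, hS.symm⟩)
              refine ih S (by omega) ℓ hℓ _ fun w => ?_
              rw [hopA]
              have hev : ∀ (l : List (Fin r)) (v : Pt Y S → ZMod 2), v ∈ Ev Y S → opL_A7 t l v ∈ Ev Y S := by
                intro l v hv
                induction l with
                | nil => exact hv
                | cons s l ihl => exact add_mem ihl ((hA1 Γ r Y S).2.2.2.1 _ _ ihl)
              exact hev _ _ ((hcoc S w.1 w.2).ev h)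
            · obtain ⟨s, hs, hs'⟩ := Finset.not_subset.1 hsub
              have : opM t S0.toList m S = 0 := by
                ext w x
                rw [hopA, opL_zero_A7 t s hs' htr.t4 _ (Finset.mem_toList.2 hs)]
                rfl
              rw [this, Pi.single_zero, map_zero]
          · intro h
            exact (h (Finset.mem_univ _)).elim
        -- all cubes
        have hall : ∀ h, (h ∈ Γ' ∧ ∀ s (y : Y s), h • y = y) → w0.1 h = 0 := by
          intro h hh
          refine ((hA1 Γ r Y S0).2.2.2.2.2.1 hodd).2.2 _ ((hcoc S0 w0.1 w0.2).ev h) ?_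
          intro a' b' hab'
          -- `g a = a'`, `g b = b'`
          obtain ⟨g, hg, hg'⟩ := honto (fun s => if hs : s ∈ S0 then
            (Equiv.swap (Equiv.swap (a ⟨s, hs⟩) (a' ⟨s, hs⟩) (b ⟨s, hs⟩)) (b' ⟨s, hs⟩)) *
              (Equiv.swap (a ⟨s, hs⟩) (a' ⟨s, hs⟩)) else 1)
          have hga : g • a = a' := by
            funext s
            change g • a s = a' s
            rw [hg' s, dif_pos s.2]
            change (Equiv.swap (Equiv.swap (a s) (a' s) (b s)) (b' s)) ((Equiv.swap (a s) (a' s)) (a s)) = a' s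
            rw [Equiv.swap_apply_left]
            refine Equiv.swap_apply_of_ne_of_ne ?_ (hab' s)
            intro h
            have h2 : Equiv.swap (a s) (a' s) (a s) = Equiv.swap (a s) (a' s) (b s) := by
              rw [Equiv.swap_apply_left]; exact h
            exact hab s ((Equiv.swap (a s) (a' s)).injective h2)
          have hgb : g • b = b' := by
            funext s
            change g • b s = b' s
            rw [hg' s, dif_pos s.2]
            change (Equiv.swap (Equiv.swap (a s) (a' s) (b s)) (b' s)) ((Equiv.swap (a s) (a' s)) (b s)) = b' s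
            exact Equiv.swap_apply_left _ _
          have h1 := hpr (g⁻¹ * h * g) (by
            have := hHn g⁻¹ h hh
            rwa [inv_inv] at this)
          have h2 : w0.1 (g⁻¹ * h * g) = act Y g⁻¹ (w0.1 h) := by
            have := coc_conj_A7 w0.1 (hcoc S0 w0.1 w0.2) g⁻¹ h hh.2
            rwa [inv_inv] at this
          rw [h2, pr_act_A7, inv_inv, act_cube_A7, hga, hgb] at h1
          exact h1
        have hw00 : w0 = 0 := Subtype.ext (hker S0 w0.1 w0.2 fun h hh hh' => hall h ⟨hh, hh'⟩)
        intro lam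
        rw [hw0', hw00, map_zero]
      -- rank one maps with value in `Ev`
      have key2 : ∀ (v : Pt Y S0 → ZMod 2), v ∈ Ev Y S0 → ∀ lam : Module.Dual (ZMod 2) (W S0),
          ℓ (Pi.single S0 (lam.smulRight v)) = 0 := by
        intro v hv lam
        -- the functional `v ↦ ℓ (lam ⊗ v)` is `pr n`
        let n : Pt Y S0 → ZMod 2 := fun x => ℓ (Pi.single S0 (lam.smulRight (Pi.single x (1 : ZMod 2))))
        have hn : ∀ v : Pt Y S0 → ZMod 2, ℓ (Pi.single S0 (lam.smulRight v)) = pr Y n v := by
          intro v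
          have h1 : v = ∑ x, v x • (Pi.single x (1 : ZMod 2) : Pt Y S0 → ZMod 2) := by
            funext y
            simp [Finset.sum_apply, Pi.single_apply]
          have h2 : (Pi.single S0 (lam.smulRight v) : (S : Finset (Fin r)) → (W S →ₗ[ZMod 2] (Pt Y S → ZMod 2))) =
              ∑ x, v x • Pi.single S0 (lam.smulRight (Pi.single x (1 : ZMod 2))) := by
            have h3 : lam.smulRight v = ∑ x, v x • lam.smulRight (Pi.single x (1 : ZMod 2) : Pt Y S0 → ZMod 2) := by
              ext w y
              simp only [LinearMap.smulRight_apply, Pi.smul_apply, smul_eq_mul, LinearMap.sum_apply,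
                LinearMap.smul_apply, Finset.sum_apply, Pi.single_apply]
              rw [Finset.sum_eq_single y]
              · simp [mul_comm]
              · intro z _ hz
                simp [Ne.symm hz]
              · simp
            rw [h3]
            rw [← Finset.sum_congr rfl (fun x _ => Pi.single_smul S0 (v x) _)]
            exact map_sum (LinearMap.single (ZMod 2) (fun S => (W S →ₗ[ZMod 2] (Pt Y S → ZMod 2))) S0) _ _
          rw [h2, map_sum]
          unfold pr
          refine Finset.sum_congr rfl fun x _ => ?_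
          rw [map_smul, smul_eq_mul, mul_comm]
        obtain ⟨p, hp1, hp2, hp3, hp4, hp5⟩ := ((hA1 Γ r Y S0).2.2.2.2.2.1 hodd).1
        have hpn : p n = 0 := by
          refine ((hA1 Γ r Y S0).2.2.2.2.2.1 hodd).2.2 _ (hp1 n) ?_
          intro a b hab
          rw [hp4, hp2 _ ((hA1 Γ r Y S0).2.2.2.2.2.2 a b), ← hn]
          exact key a b hab lam
        rw [hn, ← hp2 v hv, ← hp4, hpn]
        simp [pr]
      -- general maps
      have := hfin S0
      let bs := Module.finBasis (ZMod 2) (W S0)
      have h1 : ν = ∑ i, (bs.coord i).smulRight (ν (bs i)) := by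
        refine bs.ext fun j => ?_
        simp only [LinearMap.sum_apply, LinearMap.smulRight_apply, Module.Basis.coord_apply,
          Module.Basis.repr_self]
        rw [Finset.sum_eq_single j]
        · simp
        · intro i _ hi
          simp [Finsupp.single_apply, Ne.symm hi]
        · simp
      rw [h1]
      have h2 : (Pi.single S0 (∑ i, (bs.coord i).smulRight (ν (bs i))) :
          (S : Finset (Fin r)) → (W S →ₗ[ZMod 2] (Pt Y S → ZMod 2))) =
          ∑ i, Pi.single S0 ((bs.coord i).smulRight (ν (bs i))) :=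
        map_sum (LinearMap.single (ZMod 2) (fun S => (W S →ₗ[ZMod 2] (Pt Y S → ZMod 2))) S0) _ _
      rw [h2, map_sum]
      exact Finset.sum_eq_zero fun i _ => key2 _ (hν _) _
  -- the end
  let Ψ : (S : Finset (Fin r)) → (W S →ₗ[ZMod 2] (Pt Y S → ZMod 2)) := fun S => (Ev Y S).subtype.comp (ψ S)
  have hΨ : Ψ ∈ R := by
    by_contra hcon
    obtain ⟨ℓ, hℓ1, hℓ2⟩ := Submodule.exists_dual_map_eq_bot_of_notMem hcon inferInstance
    apply hℓ1
    have hsum : Ψ = ∑ S, Pi.single S (Ψ S) := by
      rw [Finset.univ_sum_single]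
    rw [hsum, map_sum]
    refine Finset.sum_eq_zero fun S _ => ?_
    refine claim (r + 1) S (by omega) ℓ ?_ _ fun w => (ψ S w).2
    intro m hm
    have : ℓ m ∈ Submodule.map ℓ R := ⟨m, hm, rfl⟩
    rw [hℓ2] at this
    exact this
  obtain ⟨h, hh, hh'⟩ := hΨ
  exact ⟨h, hh.1, hh.2, fun S w => (hh' S w).symm⟩

end Pool.TW
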