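import Pool.Agent.Helper34.TW.StA

/-!
# Project TW, module A8: prescribing the values of cocycles at an element of given action
-/

set_option autoImplicit false

open scoped Pointwise NumberField
open NumberField Polynomial Pool.RG2

namespace Pool.TW

theorem hA8 : StA8 := by
  intro hA1 hA6 hA7 Γ _ r Y _ _ _ hodd hthree Γ' hcomm hreal W hfin hW0 hcoc hcob ψ π
  -- the hypothesis of StA7
  have hzero : ∀ S, ∀ w ∈ W S, (∀ h ∈ Γ', (∀ s (y : Y s), h • y = y) → w h = 0) → w = 0 := by
    intro S w hw hh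
    rcases S.eq_empty_or_nonempty with hS | hS
    · subst hS
      rw [hW0] at hw
      exact (Submodule.mem_bot _).1 hw
    · exact hcob S w hw (hA6 Γ r Y hodd hthree Γ' hcomm hreal S hS w (hcoc S w hw) hh)
  obtain ⟨g0, hg0, hact0⟩ := hreal π
  -- the modified maps
  let ψ' : (S : Finset (Fin r)) → W S →ₗ[ZMod 2] Ev Y S := fun S =>
    { toFun := fun w => ⟨act Y g0⁻¹ ((ψ S w : Pt Y S → ZMod 2) - w.1 g0),
        (hA1 Γ r Y S).2.2.2.1 g0⁻¹ _ (Submodule.sub_mem _ (ψ S w).2 ((hcoc S w.1 w.2).ev g0))⟩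
      map_add' := by
        intro v w
        apply Subtype.ext
        funext x
        simp only [act, map_add, Submodule.coe_add, Pi.add_apply, Pi.sub_apply]
        ring
      map_smul' := by
        intro c w
        apply Subtype.ext
        funext x
        simp only [act, map_smul, Submodule.coe_smul, Pi.smul_apply, Pi.sub_apply, smul_eq_mul,
          RingHom.id_apply]
        ring }
  obtain ⟨h, hh, hact, hval⟩ := hA7 hA1 Γ r Y hodd Γ' hcomm hreal W hfin hcoc hzero ψ'
  refine ⟨g0 * h, Γ'.mul_mem hg0 hh, ?_, ?_⟩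
  · intro s y
    rw [mul_smul, hact, hact0]
  · intro S w
    have h1 := (hcoc S w.1 w.2).mul g0 h
    rw [h1, hval S w]
    have h2 : ((ψ' S w : Ev Y S) : Pt Y S → ZMod 2) =
        act Y g0⁻¹ ((ψ S w : Pt Y S → ZMod 2) - w.1 g0) := rfl
    rw [h2, ← (hA1 Γ r Y S).2.2.1 g0 g0⁻¹, mul_inv_cancel, (hA1 Γ r Y S).2.1]
    abel

end Pool.TW
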