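import Pool.Agent.Helper34.TW.StA

/-!
# Project TW, module A9: linear algebra over `F_2`
-/

set_option autoImplicit false

namespace Pool.TW

/-- The kernel of a surjective linear map of finite spaces. -/
private lemma card_ker_A9 {H B : Type} [AddCommGroup H] [Module (ZMod 2) H] [AddCommGroup B] [Module (ZMod 2) B]
    (f : H →ₗ[ZMod 2] B) (hf : Function.Surjective f) :
    Nat.card (LinearMap.ker f) * Nat.card B = Nat.card H := by
  rw [Submodule.card_eq_card_quotient_mul_card (LinearMap.ker f)]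
  congr 1
  exact (Nat.card_congr (f.quotKerEquivOfSurjective hf).toEquiv).symm

private lemma zmod2_A9 (a : ZMod 2) : a = 0 ∨ a = 1 := by
  revert a; decide

/-- A nonzero functional. -/
private lemma functional_A9 {E : Type} [AddCommGroup E] [Module (ZMod 2) E] (c : E) (hc : c ≠ 0) :
    ∃ φ : E →ₗ[ZMod 2] ZMod 2, φ c = 1 := by
  obtain ⟨φ, h, -⟩ := Submodule.exists_le_ker_of_notMem (K := ZMod 2) (p := (⊥ : Submodule (ZMod 2) E)) (v := c)
    (by simpa using hc)
  rcases zmod2_A9 (φ c) with h0 | h1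
  · exact absurd h0 h
  · exact ⟨φ, h1⟩

/-- A functional with value `1` at two different nonzero vectors. -/
private lemma functional2_A9 {E : Type} [AddCommGroup E] [Module (ZMod 2) E] (c w : E) (hc : c ≠ 0) (hw : w ≠ 0) :
    ∃ φ : E →ₗ[ZMod 2] ZMod 2, φ c = 1 ∧ φ w = 1 := by
  obtain ⟨φ, hφ⟩ := functional_A9 c hc
  obtain ⟨χ, hχ⟩ := functional_A9 w hw
  rcases zmod2_A9 (φ w) with h0 | h1
  · rcases zmod2_A9 (χ c) with h2 | h3
    · exact ⟨φ + χ, by simp [hφ, h2], by simp [h0, hχ]⟩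
    · exact ⟨χ, h3, hχ⟩
  · exact ⟨φ, hφ, h1⟩

/-- A surjection onto `F_2^h`. -/
private lemma surj_A9 {W : Type} [AddCommGroup W] [Module (ZMod 2) W] [Module.Finite (ZMod 2) W] (h : ℕ)
    (hd : h ≤ Module.finrank (ZMod 2) W) :
    ∃ f : W →ₗ[ZMod 2] (Fin h → ZMod 2), Function.Surjective f := by
  refine ⟨(LinearMap.funLeft (ZMod 2) (ZMod 2) (Fin.castLE hd)) ∘ₗ
    ((Module.finBasis (ZMod 2) W).equivFun : W →ₗ[ZMod 2] _), ?_⟩
  rw [LinearMap.coe_comp]
  exact (LinearMap.funLeft_surjective_of_injective _ _ _ (Fin.castLE_injective hd)).comp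
    (Module.finBasis (ZMod 2) W).equivFun.surjective

private lemma map_top_A9 {E : Type} [AddCommGroup E] [Module (ZMod 2) E] (h : ℕ) (W : Submodule (ZMod 2) E)
    (ψ : E →ₗ[ZMod 2] (Fin h → ZMod 2)) (hs : Function.Surjective (ψ ∘ₗ W.subtype)) : W.map ψ = ⊤ := by
  rw [Submodule.eq_top_iff']
  intro y
  obtain ⟨x, hx⟩ := hs y
  exact ⟨x, x.2, hx⟩

/-- The case of one subspace. -/
private lemma one_A9 {E : Type} [AddCommGroup E] [Module (ZMod 2) E] [Module.Finite (ZMod 2) E] (h : ℕ)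
    (W : Submodule (ZMod 2) E) (c : E) (hc : c ≠ 0) (hh : 1 ≤ h) (hd : h ≤ Module.finrank (ZMod 2) W) :
    ∃ ψ : E →ₗ[ZMod 2] (Fin h → ZMod 2), W.map ψ = ⊤ ∧ ψ c ≠ 0 := by
  obtain ⟨f, hf⟩ := surj_A9 (W := W) h hd
  have he : (Pi.single (⟨0, hh⟩ : Fin h) (1 : ZMod 2) : Fin h → ZMod 2) ≠ 0 := by
    simp
  by_cases hcW : c ∈ W
  · by_cases hfc : f ⟨c, hcW⟩ = 0
    · obtain ⟨w, hw⟩ := hf (Pi.single (⟨0, hh⟩ : Fin h) (1 : ZMod 2))
      have hw0 : w ≠ 0 := by
        rintro rfl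
        rw [map_zero] at hw
        exact he hw.symm
      obtain ⟨φ, h1, h2⟩ := functional2_A9 (⟨c, hcW⟩ : W) w
        (fun h0 => hc (by simpa using congrArg Subtype.val h0)) hw0
      obtain ⟨ψ, hψ⟩ := LinearMap.exists_extend (f + φ.smulRight (f w))
      refine ⟨ψ, map_top_A9 h W ψ ?_, ?_⟩
      · rw [hψ]
        intro y
        obtain ⟨x, hx⟩ := hf y
        rcases zmod2_A9 (φ x) with h0 | h0
        · exact ⟨x, by simp [h0, hx]⟩
        · refine ⟨x + w + ⟨c, hcW⟩, ?_⟩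
          have e1 : φ (x + w + ⟨c, hcW⟩) = 1 := by
            rw [map_add, map_add, h0, h1, h2]; decide
          have e2 : f (x + w + ⟨c, hcW⟩) = y + f w := by
            rw [map_add, map_add, hx, hfc, add_zero]
          rw [LinearMap.add_apply, LinearMap.smulRight_apply, e1, e2, one_smul, add_assoc]
          have e3 : f w + f w = 0 := by
            ext i
            exact CharTwo.add_self_eq_zero _
          rw [e3, add_zero]
      · have e := LinearMap.congr_fun hψ (⟨c, hcW⟩ : W)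
        simp only [LinearMap.comp_apply, Submodule.subtype_apply, LinearMap.add_apply,
          LinearMap.smulRight_apply, hfc, h1, one_smul, zero_add] at e
        rw [e, hw]
        exact he
    · obtain ⟨ψ, hψ⟩ := LinearMap.exists_extend f
      refine ⟨ψ, map_top_A9 h W ψ (by rw [hψ]; exact hf), ?_⟩
      have e := LinearMap.congr_fun hψ (⟨c, hcW⟩ : W)
      simp only [LinearMap.comp_apply, Submodule.subtype_apply] at e
      rw [e]
      exact hfc
  · obtain ⟨ψ, hψ, hψc⟩ := LinearMap.exists_extend_of_notMem f hcW (Pi.single (⟨0, hh⟩ : Fin h) (1 : ZMod 2))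
    exact ⟨ψ, map_top_A9 h W ψ (by rw [hψ]; exact hf), by rw [hψc]; exact he⟩

/-- The linear maps killed on `W` by a nonzero form `l`. -/
private lemma count_A9 {E : Type} [AddCommGroup E] [Module (ZMod 2) E] [Module.Finite (ZMod 2) E] (h : ℕ)
    (W : Submodule (ZMod 2) E) (l : (Fin h → ZMod 2) →ₗ[ZMod 2] ZMod 2) (hl : l ≠ 0) :
    Nat.card {ψ : E →ₗ[ZMod 2] (Fin h → ZMod 2) // ∀ w ∈ W, l (ψ w) = 0} * 2 ^ Module.finrank (ZMod 2) W
      = Nat.card (E →ₗ[ZMod 2] (Fin h → ZMod 2)) := by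
  obtain ⟨v, hv⟩ : ∃ v, l v = 1 := by
    by_contra hcon
    push Not at hcon
    apply hl
    ext1 i
    rcases zmod2_A9 (l (Pi.single i 1)) with h0 | h0
    · ext
      simpa using h0
    · exact absurd h0 (hcon _)
  let F : (E →ₗ[ZMod 2] (Fin h → ZMod 2)) →ₗ[ZMod 2] (W →ₗ[ZMod 2] ZMod 2) :=
    { toFun := fun ψ => l ∘ₗ ψ ∘ₗ W.subtype
      map_add' := by intro a b; ext; simp
      map_smul' := by intro a b; ext; simp }
  have hF : Function.Surjective F := by
    intro g
    obtain ⟨g', hg'⟩ := LinearMap.exists_extend g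
    refine ⟨g'.smulRight v, ?_⟩
    ext w
    have e := LinearMap.congr_fun hg' w
    simp only [LinearMap.comp_apply, Submodule.subtype_apply] at e
    simp [F, hv, e]
  have key := card_ker_A9 F hF
  have e1 : Nat.card (W →ₗ[ZMod 2] ZMod 2) = 2 ^ Module.finrank (ZMod 2) W := by
    rw [Module.natCard_eq_pow_finrank (K := ZMod 2) (V := W →ₗ[ZMod 2] ZMod 2), Nat.card_zmod]
    congr 1
    exact Subspace.dual_finrank_eq
  rw [← key, e1]
  congr 1
  apply Nat.card_congr
  refine Equiv.subtypeEquivRight ?_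
  intro ψ
  rw [LinearMap.mem_ker]
  constructor
  · intro hψ
    ext w
    exact hψ w.1 w.2
  · intro hψ w hw
    exact LinearMap.congr_fun hψ (⟨w, hw⟩ : W)

/-- The linear maps killing a nonzero vector. -/
private lemma countc_A9 {E : Type} [AddCommGroup E] [Module (ZMod 2) E] [Module.Finite (ZMod 2) E] (h : ℕ)
    (c : E) (hc : c ≠ 0) :
    Nat.card {ψ : E →ₗ[ZMod 2] (Fin h → ZMod 2) // ψ c = 0} * 2 ^ h
      = Nat.card (E →ₗ[ZMod 2] (Fin h → ZMod 2)) := by
  obtain ⟨φ, hφ⟩ := functional_A9 c hc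
  have key := card_ker_A9 (LinearMap.applyₗ c : (E →ₗ[ZMod 2] (Fin h → ZMod 2)) →ₗ[ZMod 2] (Fin h → ZMod 2))
    (fun y => ⟨φ.smulRight y, by simp [hφ]⟩)
  rw [← key]
  congr 1
  rw [Nat.card_fun]
  simp

theorem hA9 : StA9 := by
  intro E _ _ _ h J d W c hc hh hnum hdim
  rcases hnum with ⟨hJ, hd⟩ | ⟨n, hn, hJ, hd⟩
  · rcases Nat.eq_zero_or_pos J with h0 | h0
    · subst h0
      obtain ⟨φ, hφ⟩ := functional_A9 c hc
      refine ⟨φ.smulRight (Pi.single (⟨0, hh⟩ : Fin h) (1 : ZMod 2)), fun k => k.elim0, ?_⟩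
      simp [hφ]
    · obtain rfl : J = 1 := by omega
      obtain ⟨ψ, h1, h2⟩ := one_A9 h (W 0) c hc hh (hd.trans (hdim 0))
      exact ⟨ψ, fun k => by rw [Subsingleton.elim k 0]; exact h1, h2⟩
  · by_contra hcon
    push Not at hcon
    haveI : Finite (E →ₗ[ZMod 2] (Fin h → ZMod 2)) := Module.finite_of_finite (ZMod 2)
    haveI : Finite ((Fin h → ZMod 2) →ₗ[ZMod 2] ZMod 2) := Module.finite_of_finite (ZMod 2)
    classical
    haveI := Fintype.ofFinite (E →ₗ[ZMod 2] (Fin h → ZMod 2))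
    haveI := Fintype.ofFinite ((Fin h → ZMod 2) →ₗ[ZMod 2] ZMod 2)
    set N := Nat.card (E →ₗ[ZMod 2] (Fin h → ZMod 2)) with hN
    have hNpos : 0 < N := Nat.card_pos
    -- covering
    let K : Fin J → ((Fin h → ZMod 2) →ₗ[ZMod 2] ZMod 2) → Finset (E →ₗ[ZMod 2] (Fin h → ZMod 2)) :=
      fun k l => Finset.univ.filter (fun ψ => ∀ w ∈ W k, l (ψ w) = 0)
    let C : Finset (E →ₗ[ZMod 2] (Fin h → ZMod 2)) := Finset.univ.filter (fun ψ => ψ c = 0)
    let D : Finset ((Fin h → ZMod 2) →ₗ[ZMod 2] ZMod 2) := Finset.univ.filter (fun l => l ≠ 0)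
    have hcov : (Finset.univ : Finset (E →ₗ[ZMod 2] (Fin h → ZMod 2))) ⊆
        ((Finset.univ : Finset (Fin J)).biUnion (fun k => D.biUnion (fun l => K k l))) ∪ C := by
      intro ψ _
      by_cases hψ : ∀ k, (W k).map ψ = ⊤
      · refine Finset.mem_union_right _ ?_
        simp only [C, Finset.mem_filter, Finset.mem_univ, true_and]
        exact hcon ψ hψ
      · push Not at hψ
        obtain ⟨k, hk⟩ := hψ
        obtain ⟨l, hl0, hl⟩ := Submodule.exists_le_ker_of_lt_top _ (lt_top_iff_ne_top.mpr hk)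
        refine Finset.mem_union_left _ ?_
        simp only [Finset.mem_biUnion, Finset.mem_univ, true_and, D, K, Finset.mem_filter]
        exact ⟨k, l, hl0, fun w hw => hl (Submodule.mem_map_of_mem hw)⟩
    have hK : ∀ k l, l ≠ 0 → (K k l).card * 2 ^ (h + n) ≤ N := by
      intro k l hl
      have e := count_A9 h (W k) l hl
      rw [← hN, Nat.card_eq_fintype_card, Fintype.card_subtype] at e
      rw [← e]
      exact Nat.mul_le_mul_left _ (Nat.pow_le_pow_right (by norm_num) (hd.trans (hdim k)))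
    have hC : C.card * 2 ^ h = N := by
      have e := countc_A9 h c hc
      rw [← hN, Nat.card_eq_fintype_card, Fintype.card_subtype] at e
      exact e
    have hDcard : D.card = 2 ^ h - 1 := by
      have e1 : Fintype.card ((Fin h → ZMod 2) →ₗ[ZMod 2] ZMod 2) = 2 ^ h := by
        rw [← Nat.card_eq_fintype_card,
          Module.natCard_eq_pow_finrank (K := ZMod 2) (V := (Fin h → ZMod 2) →ₗ[ZMod 2] ZMod 2), Nat.card_zmod]
        congr 1
        rw [show Module.finrank (ZMod 2) ((Fin h → ZMod 2) →ₗ[ZMod 2] ZMod 2)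
          = Module.finrank (ZMod 2) (Fin h → ZMod 2) from Subspace.dual_finrank_eq]
        simp
      simp only [D]
      rw [Finset.filter_ne', Finset.card_erase_of_mem (Finset.mem_univ _), Finset.card_univ, e1]
    have h1 : N ≤ (∑ _k : Fin J, ∑ l ∈ D, (K _k l).card) + C.card := by
      calc N = (Finset.univ : Finset (E →ₗ[ZMod 2] (Fin h → ZMod 2))).card := by
            rw [hN, Nat.card_eq_fintype_card, Finset.card_univ]
        _ ≤ _ := Finset.card_le_card hcov
        _ ≤ _ := Finset.card_union_le _ _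
        _ ≤ _ := by
            refine Nat.add_le_add_right ?_ _
            refine Finset.card_biUnion_le.trans (Finset.sum_le_sum fun k _ => ?_)
            exact Finset.card_biUnion_le
    have h2 : (∑ _k : Fin J, ∑ l ∈ D, (K _k l).card) * 2 ^ (h + n) ≤ J * ((2 ^ h - 1) * N) := by
      rw [Finset.sum_mul]
      calc (∑ k : Fin J, (∑ l ∈ D, (K k l).card) * 2 ^ (h + n))
          ≤ ∑ k : Fin J, (2 ^ h - 1) * N := by
            refine Finset.sum_le_sum fun k _ => ?_
            rw [Finset.sum_mul]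
            calc (∑ l ∈ D, (K k l).card * 2 ^ (h + n)) ≤ ∑ l ∈ D, N := by
                  refine Finset.sum_le_sum fun l hl => hK k l ?_
                  simp only [D, Finset.mem_filter, Finset.mem_univ, true_and] at hl
                  exact hl
              _ = (2 ^ h - 1) * N := by rw [Finset.sum_const, hDcard, smul_eq_mul]
        _ = J * ((2 ^ h - 1) * N) := by simp
    have h3 : C.card * 2 ^ (h + n) = 2 ^ n * N := by
      rw [pow_add, ← mul_assoc, hC, mul_comm]
    have h4 : N * 2 ^ (h + n) ≤ J * ((2 ^ h - 1) * N) + 2 ^ n * N := by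
      calc N * 2 ^ (h + n) ≤ ((∑ _k : Fin J, ∑ l ∈ D, (K _k l).card) + C.card) * 2 ^ (h + n) :=
            Nat.mul_le_mul_right _ h1
        _ = _ := add_mul _ _ _
        _ ≤ _ := by rw [h3]; exact Nat.add_le_add_right h2 _
    have h5 : 2 ^ (h + n) ≤ J * (2 ^ h - 1) + 2 ^ n := by
      have : N * 2 ^ (h + n) ≤ N * (J * (2 ^ h - 1) + 2 ^ n) := by
        calc _ ≤ _ := h4
          _ = _ := by ring
      exact Nat.le_of_mul_le_mul_left this hNpos
    obtain ⟨m, rfl⟩ : ∃ m, n = m + 1 := ⟨n - 1, by omega⟩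
    rw [Nat.add_sub_cancel] at hJ
    have hp : 1 ≤ 2 ^ m := Nat.one_le_two_pow
    have hq : 2 ≤ 2 ^ h := by
      calc 2 = 2 ^ 1 := by norm_num
        _ ≤ 2 ^ h := Nat.pow_le_pow_right (by norm_num) hh
    have h6 : J * (2 ^ h - 1) ≤ 2 ^ m * (2 ^ h - 1) := Nat.mul_le_mul_right _ hJ
    have h7 : 2 ^ (h + (m + 1)) = 2 * (2 ^ h * 2 ^ m) := by
      rw [pow_add, pow_succ]; ring
    have h8 : 2 ^ m * (2 ^ h - 1) + 2 ^ m = 2 ^ h * 2 ^ m := by
      have : 2 ^ h - 1 + 1 = 2 ^ h := by omega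
      calc 2 ^ m * (2 ^ h - 1) + 2 ^ m = 2 ^ m * (2 ^ h - 1 + 1) := by ring
        _ = _ := by rw [this, mul_comm]
    have h9 : 2 ^ (m + 1) = 2 ^ m + 2 ^ m := by rw [pow_succ]; ring
    have h10 : 2 * 2 ^ m ≤ 2 ^ h * 2 ^ m := Nat.mul_le_mul_right _ hq
    rw [h7, h9] at h5
    omega

end Pool.TW
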