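import Pool.Agent.Helper34.TW.StB

set_option autoImplicit false
set_option linter.style.haveILetI false

open scoped NumberField TensorProduct nonZeroDivisors
open NumberField Matrix IsDedekindDomain
open Pool.Agent.Helper54.HQ (Prm hs hs2 hsR hasse IsSym lg)

namespace Pool.TW

section NF

variable {K : Type} [Field K] [NumberField K]

/-- the additive valuation (with the sign of `ℤᵐ⁰`) -/
private noncomputable def V_B1 (v : HeightOneSpectrum (𝓞 K)) (z : K) : ℤ := WithZero.log (v.valuation K z)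

private theorem val_B1 (v : HeightOneSpectrum (𝓞 K)) {z : K} (hz : z ≠ 0) :
    v.valuation K z = WithZero.exp (V_B1 v z) :=
  (WithZero.exp_log ((Valuation.ne_zero_iff _).2 hz)).symm

private theorem V_mul_B1 (v : HeightOneSpectrum (𝓞 K)) {z w : K} (hz : z ≠ 0) (hw : w ≠ 0) :
    V_B1 v (z * w) = V_B1 v z + V_B1 v w := by
  unfold V_B1
  rw [map_mul, WithZero.log_mul ((Valuation.ne_zero_iff _).2 hz) ((Valuation.ne_zero_iff _).2 hw)]

private theorem V_zpow_B1 (v : HeightOneSpectrum (𝓞 K)) (z : K) (n : ℤ) :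
    V_B1 v (z ^ n) = n * V_B1 v z := by
  unfold V_B1
  rw [map_zpow₀, WithZero.log_zpow, smul_eq_mul]

private theorem V_pow_B1 (v : HeightOneSpectrum (𝓞 K)) (z : K) (n : ℕ) :
    V_B1 v (z ^ n) = n * V_B1 v z := by
  unfold V_B1
  rw [map_pow, WithZero.log_pow, nsmul_eq_mul]

private theorem val_one_iff_B1 (v : HeightOneSpectrum (𝓞 K)) {z : K} (hz : z ≠ 0) :
    v.valuation K z = 1 ↔ V_B1 v z = 0 := by
  rw [val_B1 v hz, WithZero.exp_eq_one]

private theorem om_eq_B1 (v : HeightOneSpectrum (𝓞 K)) {z : K} (hz : z ≠ 0) :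
    om v z = ((V_B1 v z : ℤ) : ZMod 2) := by
  have key : IsSquare (v.valuation K z) ↔ Even (V_B1 v z) := by
    constructor
    · rintro ⟨r, hr⟩
      have hr0 : r ≠ 0 := by
        intro h
        rw [h, mul_zero] at hr
        exact (Valuation.ne_zero_iff _).2 hz hr
      refine ⟨WithZero.log r, ?_⟩
      unfold V_B1
      rw [hr, WithZero.log_mul hr0 hr0]
    · rintro ⟨m, hm⟩
      refine ⟨WithZero.exp m, ?_⟩
      rw [val_B1 v hz, hm, WithZero.exp_add]
  unfold om
  by_cases h : Even (V_B1 v z)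
  · rw [if_pos (key.2 h)]
    obtain ⟨m, hm⟩ := h
    rw [hm, Int.cast_add]
    exact (CharTwo.add_self_eq_zero _).symm
  · rw [if_neg (fun h' => h (key.1 h'))]
    rw [Int.not_even_iff_odd] at h
    obtain ⟨m, hm⟩ := h
    rw [hm]
    push_cast
    rw [show (2 : ZMod 2) = 0 from rfl, zero_mul, zero_add]

variable {q : ℕ} {V : Finset (HeightOneSpectrum (𝓞 K))}

private theorem Vq_B1 (hU : UnrAt K q V) {v : HeightOneSpectrum (𝓞 K)} (hv : v ∈ V) :
    V_B1 v (q : K) = -1 := by
  have hq0 : (q : K) ≠ 0 := by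
    have := hU.pr.ne_zero
    exact_mod_cast this
  have h1 : v.valuation K (q : K) = v.intValuation (q : 𝓞 K) := by
    have := v.valuation_of_algebraMap (K := K) (q : 𝓞 K)
    rw [← this]
    congr 1
  have h2 : v.intValuation (q : 𝓞 K) ≤ WithZero.exp (-((1 : ℕ) : ℤ)) := by
    rw [v.intValuation_le_pow_iff_mem, pow_one]
    exact (hU.mem v).1 hv
  have h3 : ¬ v.intValuation (q : 𝓞 K) ≤ WithZero.exp (-((2 : ℕ) : ℤ)) := by
    rw [v.intValuation_le_pow_iff_mem]
    exact hU.unr v hv
  rw [← h1, val_B1 v hq0, WithZero.exp_le_exp] at h2 h3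
  push_cast at h2 h3
  omega

private theorem q_ne_B1 (hU : UnrAt K q V) : (q : K) ≠ 0 := by
  have := hU.pr.ne_zero
  exact_mod_cast this

/-- approximation of an element of valuation `≤ 1` -/
private theorem approx_B1 (v : HeightOneSpectrum (𝓞 K)) {x : K} (hx : v.valuation K x ≤ 1) :
    ∃ a : 𝓞 K, v.valuation K ((a : K) - x) < 1 := by
  obtain ⟨a, ha⟩ := v.exists_valuation_sub_lt_of_integer (K := K) hx 1
  exact ⟨a, by simpa using ha⟩

/-- an element of `𝓞 K` of valuation `< 1` is in the prime -/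
private theorem mem_iff_B1 (v : HeightOneSpectrum (𝓞 K)) (a : 𝓞 K) :
    v.valuation K (a : K) < 1 ↔ a ∈ v.asIdeal := v.valuation_lt_one_iff_mem a

private theorem notMem_iff_B1 (v : HeightOneSpectrum (𝓞 K)) (a : 𝓞 K) :
    v.valuation K (a : K) = 1 ↔ a ∉ v.asIdeal := v.valuation_eq_one_iff_notMem

/-- congruences are compatible with products -/
private theorem mul_congr_B1 (v : HeightOneSpectrum (𝓞 K)) {x y x' y' : K} (hx : v.valuation K x ≤ 1)
    (hy' : v.valuation K y' ≤ 1) (h1 : v.valuation K (x - x') < 1)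
    (h2 : v.valuation K (y - y') < 1) : v.valuation K (x * y - x' * y') < 1 := by
  have e : x * y - x' * y' = x * (y - y') + (x - x') * y' := by ring
  rw [e]
  refine Valuation.map_add_lt _ ?_ ?_
  · rw [map_mul]
    exact mul_lt_one_of_nonneg_of_lt_one_right hx (zero_le) h2
  · rw [map_mul]
    exact mul_lt_one_of_nonneg_of_lt_one_left (zero_le) h1 hy'

private theorem congr_symm_B1 (v : HeightOneSpectrum (𝓞 K)) {x y : K} (h : v.valuation K (x - y) < 1) :
    v.valuation K (y - x) < 1 := by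
  rwa [Valuation.map_sub_swap]

private theorem congr_trans_B1 (v : HeightOneSpectrum (𝓞 K)) {x y z : K} (h : v.valuation K (x - y) < 1)
    (h' : v.valuation K (y - z) < 1) : v.valuation K (x - z) < 1 := by
  have e : x - z = (x - y) + (y - z) := by ring
  rw [e]
  exact Valuation.map_add_lt _ h h'

/-- an element congruent to an element of valuation one has valuation one -/
private theorem val_one_of_congr_B1 (v : HeightOneSpectrum (𝓞 K)) {x y : K}
    (h : v.valuation K (x - y) < 1) (hy : v.valuation K y = 1) : v.valuation K x = 1 := by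
  have e : x = (x - y) + y := by ring
  rw [e, Valuation.map_add_eq_of_lt_right _ (by rw [hy]; exact h), hy]

private theorem mk_eq_B1 (v : HeightOneSpectrum (𝓞 K)) {a b : 𝓞 K}
    (h : v.valuation K ((a : K) - (b : K)) < 1) :
    Ideal.Quotient.mk v.asIdeal a = Ideal.Quotient.mk v.asIdeal b := by
  rw [Ideal.Quotient.eq, ← mem_iff_B1 (K := K)]
  exact h

private theorem ep_eq_B1 (hU : UnrAt K q V) {v : HeightOneSpectrum (𝓞 K)} (hv : v ∈ V) {z : K}
    (hz : z ≠ 0) {m : ℤ} (hm : v.valuation K (z * (q : K) ^ m) = 1) {a : 𝓞 K}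
    (ha : v.valuation K (z * (q : K) ^ m - (a : K)) < 1) :
    ep q v z = lg (Ideal.Quotient.mk v.asIdeal a) := by
  have hq0 := q_ne_B1 hU
  have hVq := Vq_B1 hU hv
  have key : (∃ (n : ℤ) (y : K), v.valuation K (z * (q : K) ^ n * y ^ 2 - 1) < 1) ↔
      IsSquare (Ideal.Quotient.mk v.asIdeal a) := by
    constructor
    · rintro ⟨n, y, hy⟩
      have h1 : v.valuation K (z * (q : K) ^ n * y ^ 2) = 1 := val_one_of_congr_B1 v hy (map_one _)
      have hy0 : y ≠ 0 := by
        intro h
        rw [h] at h1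
        simp at h1
      have hqn : (q : K) ^ n ≠ 0 := zpow_ne_zero _ hq0
      have hqm : (q : K) ^ m ≠ 0 := zpow_ne_zero _ hq0
      have h2 : V_B1 v z + n * (-1) + 2 * V_B1 v y = 0 := by
        rw [val_one_iff_B1 v (mul_ne_zero (mul_ne_zero hz hqn) (pow_ne_zero 2 hy0)),
          V_mul_B1 v (mul_ne_zero hz hqn) (pow_ne_zero 2 hy0), V_mul_B1 v hz hqn, V_zpow_B1, V_pow_B1,
          hVq] at h1
        exact_mod_cast h1
      have h3 : V_B1 v z + m * (-1) = 0 := by
        rw [val_one_iff_B1 v (mul_ne_zero hz hqm), V_mul_B1 v hz hqm, V_zpow_B1, hVq] at hm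
        exact hm
      -- n - m = 2 k with k = V y
      have h4 : n = m + 2 * V_B1 v y := by linarith
      set t : K := (q : K) ^ (V_B1 v y) * y with ht
      have e1 : z * (q : K) ^ n * y ^ 2 = z * (q : K) ^ m * t ^ 2 := by
        rw [h4, zpow_add₀ hq0, ht, mul_pow, ← zpow_natCast ((q : K) ^ (V_B1 v y)), ← _root_.zpow_mul,
          mul_comm (V_B1 v y)]
        push_cast
        ring
      rw [e1] at hy
      have ht1 : v.valuation K t = 1 := by
        rw [ht, val_one_iff_B1 v (mul_ne_zero (zpow_ne_zero _ hq0) hy0),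
          V_mul_B1 v (zpow_ne_zero _ hq0) hy0, V_zpow_B1, hVq]
        ring
      obtain ⟨c, hc⟩ := approx_B1 v ht1.le
      have hc1 : v.valuation K (c : K) = 1 := val_one_of_congr_B1 v hc ht1
      have h5 : v.valuation K (z * (q : K) ^ m * (t * t) - (a : K) * ((c : K) * (c : K))) < 1 := by
        refine mul_congr_B1 v hm.le ?_ ha ?_
        · rw [map_mul, hc1, mul_one]
        · exact mul_congr_B1 v ht1.le hc1.le (congr_symm_B1 v hc) (congr_symm_B1 v hc)
      have h6 : v.valuation K (((a * (c * c) : 𝓞 K) : K) - ((1 : 𝓞 K) : K)) < 1 := by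
        have h7 := congr_trans_B1 v (congr_symm_B1 v h5) (by rw [← sq]; exact hy)
        simpa using h7
      have h8 := mk_eq_B1 v h6
      rw [map_mul, map_mul, map_one] at h8
      refine ⟨Ideal.Quotient.mk v.asIdeal a * Ideal.Quotient.mk v.asIdeal c, ?_⟩
      calc Ideal.Quotient.mk v.asIdeal a = Ideal.Quotient.mk v.asIdeal a *
            (Ideal.Quotient.mk v.asIdeal a * (Ideal.Quotient.mk v.asIdeal c *
              Ideal.Quotient.mk v.asIdeal c)) := by rw [h8, mul_one]
        _ = _ := by ring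
    · rintro ⟨s, hs⟩
      obtain ⟨c, rfl⟩ := Ideal.Quotient.mk_surjective s
      have ha1 : v.valuation K (a : K) = 1 := val_one_of_congr_B1 v (congr_symm_B1 v ha) hm
      have ha2 : Ideal.Quotient.mk v.asIdeal a ≠ 0 := by
        rw [Ne, Ideal.Quotient.eq_zero_iff_mem]
        exact (notMem_iff_B1 v a).1 ha1
      have hc0 : Ideal.Quotient.mk v.asIdeal c ≠ 0 := by
        intro h
        rw [h, mul_zero] at hs
        exact ha2 hs
      haveI := v.isMaximal
      obtain ⟨d', hd'⟩ := Ideal.Quotient.exists_inv hc0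
      obtain ⟨d, rfl⟩ := Ideal.Quotient.mk_surjective d'
      refine ⟨m, (d : K), ?_⟩
      have h1 : v.valuation K (((a * (d * d) : 𝓞 K) : K) - ((1 : 𝓞 K) : K)) < 1 := by
        rw [← map_sub, mem_iff_B1 v, ← Ideal.Quotient.eq, map_mul, map_mul, map_one, hs]
        calc _ = (Ideal.Quotient.mk v.asIdeal c * Ideal.Quotient.mk v.asIdeal d) *
              (Ideal.Quotient.mk v.asIdeal c * Ideal.Quotient.mk v.asIdeal d) := by ring
          _ = 1 := by rw [hd', one_mul]
      have hd1 : v.valuation K ((d * d : 𝓞 K) : K) ≤ 1 := v.valuation_le_one _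
      have h2 : v.valuation K (z * (q : K) ^ m * (((d * d : 𝓞 K)) : K) -
          (a : K) * ((d * d : 𝓞 K) : K)) < 1 :=
        mul_congr_B1 v hm.le hd1 ha (by simp)
      have h3 := congr_trans_B1 v h2 (by simpa using h1)
      rw [sq]
      simpa using h3
  unfold ep lg
  by_cases h : IsSquare (Ideal.Quotient.mk v.asIdeal a)
  · rw [if_pos (key.2 h), if_pos h]
  · rw [if_neg (fun h' => h (key.1 h')), if_neg h]

/-- existence of the data -/
private theorem data_B1 (hU : UnrAt K q V) {v : HeightOneSpectrum (𝓞 K)} (hv : v ∈ V) {z : K}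
    (hz : z ≠ 0) : ∃ (m : ℤ) (a : 𝓞 K), v.valuation K (z * (q : K) ^ m) = 1 ∧
      v.valuation K (z * (q : K) ^ m - (a : K)) < 1 := by
  have hq0 := q_ne_B1 hU
  have h1 : v.valuation K (z * (q : K) ^ (V_B1 v z)) = 1 := by
    rw [val_one_iff_B1 v (mul_ne_zero hz (zpow_ne_zero _ hq0)), V_mul_B1 v hz (zpow_ne_zero _ hq0),
      V_zpow_B1, Vq_B1 hU hv]
    ring
  obtain ⟨a, ha⟩ := approx_B1 v h1.le
  exact ⟨V_B1 v z, a, h1, congr_symm_B1 v ha⟩

private theorem lg_mul_B1 (v : HeightOneSpectrum (𝓞 K)) {x y : 𝓞 K ⧸ v.asIdeal} (hx : x ≠ 0)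
    (hy : y ≠ 0) : lg (x * y) = lg x + lg y := by
  classical
  haveI := v.isMaximal
  letI : Field (𝓞 K ⧸ v.asIdeal) := Ideal.Quotient.field v.asIdeal
  haveI : Finite (𝓞 K ⧸ v.asIdeal) := Ideal.finiteQuotientOfFreeOfNeBot _ v.ne_bot
  letI : Fintype (𝓞 K ⧸ v.asIdeal) := Fintype.ofFinite _
  have hxy : x * y ≠ 0 := mul_ne_zero hx hy
  have e := map_mul (quadraticChar (𝓞 K ⧸ v.asIdeal)) x y
  have h1 := quadraticChar_one_iff_isSquare hx
  have h2 := quadraticChar_one_iff_isSquare hy
  have h3 := quadraticChar_one_iff_isSquare hxy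
  unfold lg
  by_cases hsx : IsSquare x
  · rw [if_pos hsx]
    by_cases hsy : IsSquare y
    · rw [if_pos hsy, if_pos (h3.1 (by rw [e, h1.2 hsx, h2.2 hsy]; rfl))]
      rfl
    · rw [if_neg hsy, if_neg]
      · rfl
      · intro hs
        apply hsy
        rw [← h2]
        have := h3.2 hs
        rw [e, h1.2 hsx, one_mul] at this
        exact this
  · rw [if_neg hsx]
    by_cases hsy : IsSquare y
    · rw [if_pos hsy, if_neg]
      · rfl
      · intro hs
        apply hsx
        rw [← h1]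
        have := h3.2 hs
        rw [e, h2.2 hsy, mul_one] at this
        exact this
    · rw [if_neg hsy, if_pos]
      · rfl
      · rw [← h3, e]
        have hx' : quadraticChar (𝓞 K ⧸ v.asIdeal) x = -1 := by
          rcases quadraticChar_dichotomy hx with h | h
          · exact absurd (h1.1 h) hsx
          · exact h
        have hy' : quadraticChar (𝓞 K ⧸ v.asIdeal) y = -1 := by
          rcases quadraticChar_dichotomy hy with h | h
          · exact absurd (h2.1 h) hsy
          · exact h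
        rw [hx', hy']
        rfl

end NF

theorem hB1 : StB1 := by
  intro K _ _ q V hU v hv
  have hq0 : (q : K) ≠ 0 := q_ne_B1 hU
  refine ⟨?_, ?_, ?_, ?_⟩
  · intro z w hz hw
    rw [om_eq_B1 v hz, om_eq_B1 v hw, om_eq_B1 v (mul_ne_zero hz hw), V_mul_B1 v hz hw]
    push_cast
    rfl
  · intro z w hz hw
    obtain ⟨m, a, hm, ha⟩ := data_B1 hU hv hz
    obtain ⟨n, b, hn, hb⟩ := data_B1 hU hv hw
    have e1 : z * w * (q : K) ^ (m + n) = z * (q : K) ^ m * (w * (q : K) ^ n) := by
      rw [zpow_add₀ hq0]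
      ring
    have hmn : v.valuation K (z * w * (q : K) ^ (m + n)) = 1 := by
      rw [e1, map_mul, hm, hn, one_mul]
    have hb1 : v.valuation K (b : K) = 1 := val_one_of_congr_B1 v (congr_symm_B1 v hb) hn
    have ha1 : v.valuation K (a : K) = 1 := val_one_of_congr_B1 v (congr_symm_B1 v ha) hm
    have hab : v.valuation K (z * w * (q : K) ^ (m + n) - ((a * b : 𝓞 K) : K)) < 1 := by
      rw [e1]
      have := mul_congr_B1 v hm.le hb1.le ha hb
      simpa using this
    rw [ep_eq_B1 hU hv hz hm ha, ep_eq_B1 hU hv hw hn hb, ep_eq_B1 hU hv (mul_ne_zero hz hw) hmn hab,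
      map_mul]
    refine lg_mul_B1 v ?_ ?_
    · rw [Ne, Ideal.Quotient.eq_zero_iff_mem]
      exact (notMem_iff_B1 v a).1 ha1
    · rw [Ne, Ideal.Quotient.eq_zero_iff_mem]
      exact (notMem_iff_B1 v b).1 hb1
  · intro a ha
    have ha1 : v.valuation K (a : K) = 1 := (notMem_iff_B1 v a).2 ha
    have ha0 : (a : K) ≠ 0 := by
      intro h
      rw [h] at ha1
      simp at ha1
    refine ep_eq_B1 hU hv ha0 (m := 0) ?_ ?_
    · rw [zpow_zero, mul_one, ha1]
    · rw [zpow_zero, mul_one, sub_self, map_zero]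
      exact zero_lt_one
  · intro z hz
    constructor
    · rw [om_eq_B1 v (pow_ne_zero 2 hz), V_pow_B1]
      push_cast
      rw [show (2 : ZMod 2) = 0 from rfl, zero_mul]
    · unfold ep
      rw [if_pos]
      refine ⟨0, z⁻¹, ?_⟩
      rw [zpow_zero, mul_one, inv_pow, mul_inv_cancel₀ (pow_ne_zero 2 hz), sub_self, map_zero]
      exact zero_lt_one

end Pool.TW
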