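import Pool.Agent.Helper34.TW.StB
import Pool.Agent.Helper54.HQ.M_Hc0
import Pool.Agent.Helper54.HQ.M_Hd
import Pool.Agent.Helper54.HQ.M_He

/-!
# TW module B10: the reciprocity law
-/

set_option autoImplicit false

open scoped NumberField TensorProduct nonZeroDivisors
open NumberField Matrix IsDedekindDomain
open Pool.Agent.Helper54.HQ (Prm hs hs2 hsR hasse IsSym lg)

namespace Pool.TW

private lemma om_one_B10 {K : Type} [Field K] [NumberField K] (v : HeightOneSpectrum (𝓞 K)) :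
    om v (1 : K) = 0 := by
  unfold om
  rw [if_pos]
  rw [map_one]
  exact IsSquare.one

private lemma om_eq_zero_B10 {K : Type} [Field K] [NumberField K] (v : HeightOneSpectrum (𝓞 K)) (z : K) :
    om v z = 0 ↔ IsSquare (v.valuation K z) := by
  unfold om
  split_ifs with h
  · exact ⟨fun _ => h, fun _ => rfl⟩
  · exact ⟨fun h1 => absurd h1 one_ne_zero, fun h1 => absurd h1 h⟩

private lemma om_mul_B10 {K : Type} [Field K] [NumberField K] (v : HeightOneSpectrum (𝓞 K)) (z w : K)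
    (hz : om v z = 0) (hw : om v w = 0) : om v (z * w) = 0 := by
  rw [om_eq_zero_B10] at *
  rw [map_mul]
  exact hz.mul hw

private lemma zmod_id_B10 (o e o' e' c : ZMod 2) :
    (1 + 0) * (0 + c) + (1 + o) * (e + c) + (1 + o') * (e' + c) +
      (1 + (o + o')) * ((e + e') + c) = o * e' + o' * e := by
  revert o e o' e' c
  decide

private lemma zmod_two_B10 (a b : ZMod 2) (h : a + b = 0) : a = b := by
  revert a b
  decide

private lemma natCast_mem_B10 {K : Type} [Field K] [NumberField K] (v : HeightOneSpectrum (𝓞 K))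
    {p q : ℕ} (hp : p.Prime) (hq : q.Prime) (hpq : p ≠ q) (h : (p : 𝓞 K) ∈ v.asIdeal) :
    (q : 𝓞 K) ∉ v.asIdeal := by
  intro h'
  have hc : IsCoprime (p : ℤ) (q : ℤ) := Nat.isCoprime_iff_coprime.mpr ((Nat.coprime_primes hp hq).mpr hpq)
  obtain ⟨a, b, hab⟩ := hc
  apply v.isPrime.ne_top
  rw [Ideal.eq_top_iff_one]
  have h1 : ((a : 𝓞 K) * (p : 𝓞 K) + (b : 𝓞 K) * (q : 𝓞 K)) = 1 := by
    have h2 := congrArg (Int.cast : ℤ → 𝓞 K) hab
    push_cast at h2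
    exact h2
  rw [← h1]
  exact add_mem (Ideal.mul_mem_left _ _ h) (Ideal.mul_mem_left _ _ h')

/-- Module B10 (with the additional hypotheses B2, B8, B9c, B9d, which are premises of B7 and B9). -/
theorem hB10 (hB2 : StB2) (hB8 : StB8) (hB9c : StB9c) (hB9d : StB9d) : StB10 := by
  intro hB1 hB3 hB4 hB5 hB6 hB6a hB7 hB9 K _ _ δ hδ Q V hQ z w hz hw hNz hNw h2z hRz hom
  have hHd := Pool.Agent.Helper54.HQ.hHd Pool.Agent.Helper54.HQ.hHc0
  have hHe := Pool.Agent.Helper54.HQ.hHe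
  obtain ⟨n, ⟨ω⟩⟩ : ∃ n : ℕ, Nonempty (Module.Basis (Fin n) ℤ (𝓞 K)) :=
    ⟨_, ⟨Module.finBasis ℤ (𝓞 K)⟩⟩
  obtain ⟨hδ0, hsym, ⟨ε, hε, hdet⟩, -⟩ := hB3 K n ω δ hδ
  have hdet0 : ∀ x : K, x ≠ 0 → (gram ω δ x).det ≠ 0 := by
    intro x hx
    rw [hdet x]
    have h1 : Algebra.norm ℚ x ≠ 0 := Algebra.norm_ne_zero_iff.mpr hx
    refine mul_ne_zero ?_ h1
    rcases hε with h | h <;> rw [h] <;> norm_num
  have hzw : z * w ≠ 0 := mul_ne_zero hz hw
  have h1ne : (1 : K) ≠ 0 := one_ne_zero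
  -- local constants at the primes of Q
  have hcex : ∀ q : ℕ, ∃ c : HeightOneSpectrum (𝓞 K) → ZMod 2, q ∈ Q → ∀ hq : Fact q.Prime, ∀ x : K,
      x ≠ 0 → IsSquare (Algebra.norm ℚ x) → Hs (hs q) ((gram ω δ x).map (algebraMap ℚ ℚ_[q]))
        (∑ v ∈ V q, (1 + om v x) * (ep q v x + c v)) := by
    intro q
    by_cases hqQ : q ∈ Q
    · haveI : Fact q.Prime := ⟨(hQ q hqQ).2.pr⟩
      obtain ⟨c, hc⟩ := hB9 hB1 hB2 hB3 hB4 hB8 hB9c hB9d K n ω δ hδ q (V q) (hQ q hqQ).1 (hQ q hqQ).2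
      exact ⟨c, fun _ hq x hx hN => hc x hx hN⟩
    · exact ⟨fun _ => 0, fun h => absurd h hqQ⟩
  choose c hc using hcex
  -- Hasse invariants at 2 and at infinity
  have hG2 : ∀ x : K, ((gram ω δ x).map (algebraMap ℚ ℚ_[2]))ᵀ = (gram ω δ x).map (algebraMap ℚ ℚ_[2]) := by
    intro x
    rw [← Matrix.transpose_map, hsym x]
  have hGR : ∀ x : K, ((gram ω δ x).map (algebraMap ℚ ℝ))ᵀ = (gram ω δ x).map (algebraMap ℚ ℝ) := by
    intro x
    rw [← Matrix.transpose_map, hsym x]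
  have hd2 : ∀ x : K, x ≠ 0 → ((gram ω δ x).map (algebraMap ℚ ℚ_[2])).det ≠ 0 := by
    intro x hx h
    rw [← RingHom.mapMatrix_apply, ← RingHom.map_det] at h
    exact hdet0 x hx ((map_eq_zero _).mp h)
  have hdR : ∀ x : K, x ≠ 0 → ((gram ω δ x).map (algebraMap ℚ ℝ)).det ≠ 0 := by
    intro x hx h
    rw [← RingHom.mapMatrix_apply, ← RingHom.map_det] at h
    exact hdet0 x hx ((map_eq_zero _).mp h)
  have hex2 : ∀ x : K, x ≠ 0 → ∃ h, Hs hs2 ((gram ω δ x).map (algebraMap ℚ ℚ_[2])) h := fun x hx =>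
    hB6a ℚ_[2] hs2 two_ne_zero n _ (hG2 x) (hd2 x hx)
  have hexR : ∀ x : K, x ≠ 0 → ∃ h, Hs hsR ((gram ω δ x).map (algebraMap ℚ ℝ)) h := fun x hx =>
    hB6a ℝ hsR two_ne_zero n _ (hGR x) (hdR x hx)
  have key2 : ∀ (x : K), x ≠ 0 → ∀ h h', Hs hs2 ((gram ω δ x).map (algebraMap ℚ ℚ_[2])) h →
      Hs hs2 ((gram ω δ (z * x)).map (algebraMap ℚ ℚ_[2])) h' → h = h' := by
    intro x hx h h' hh hh'
    obtain ⟨M, hM, hMe⟩ := hB4 K n ω δ ℚ_[2] z x hz h2z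
    rw [hMe] at hh'
    exact hB5 ℚ_[2] hs2 hHd.1 two_ne_zero n _ M (hG2 x) hM h h' hh hh'
  have keyR : ∀ (x : K), x ≠ 0 → ∀ h h', Hs hsR ((gram ω δ x).map (algebraMap ℚ ℝ)) h →
      Hs hsR ((gram ω δ (z * x)).map (algebraMap ℚ ℝ)) h' → h = h' := by
    intro x hx h h' hh hh'
    obtain ⟨M, hM, hMe⟩ := hB4 K n ω δ ℝ z x hz hRz
    rw [hMe] at hh'
    exact hB5 ℝ hsR hHe.1 two_ne_zero n _ M (hGR x) hM h h' hh hh'
  -- the local invariants
  let H : K → Prm → ZMod 2 := fun x P =>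
    if (P : ℕ) ∈ Q then ∑ v ∈ V (P : ℕ), (1 + om v x) * (ep (P : ℕ) v x + c (P : ℕ) v) else 0
  have hH : ∀ x : K, x ≠ 0 → IsSquare (Algebra.norm ℚ x) →
      (∀ v : HeightOneSpectrum (𝓞 K), (2 : 𝓞 K) ∉ v.asIdeal → (∀ q ∈ Q, (q : 𝓞 K) ∉ v.asIdeal) →
        om v x = 0) → ∀ P : Prm, (P : ℕ) ≠ 2 →
      Hs (hs (P : ℕ)) ((gram ω δ x).map (algebraMap ℚ ℚ_[(P : ℕ)])) (H x P) := by
    intro x hx hN hv P hP
    by_cases hPQ : (P : ℕ) ∈ Q
    · have h1 : H x P = ∑ v ∈ V (P : ℕ), (1 + om v x) * (ep (P : ℕ) v x + c (P : ℕ) v) := if_pos hPQ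
      rw [h1]
      exact hc (P : ℕ) hPQ _ x hx hN
    · have h1 : H x P = 0 := if_neg hPQ
      rw [h1]
      refine hB7 hB2 hB3 hB4 K n ω δ hδ (P : ℕ) hP x hx ?_
      intro v hPv
      refine hv v ?_ ?_
      · have := natCast_mem_B10 v P.2 Nat.prime_two hP hPv
        exact_mod_cast this
      · intro q hq
        exact natCast_mem_B10 v P.2 (hQ q hq).2.pr (fun h => hPQ (h ▸ hq)) hPv
  -- the product formulas
  have hB6' := hB6 hB5
  obtain ⟨S1, hS1, hF1⟩ := hB6' n (gram ω δ 1) (hsym 1) (hdet0 1 h1ne)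
  obtain ⟨S2, hS2, hF2⟩ := hB6' n (gram ω δ z) (hsym z) (hdet0 z hz)
  obtain ⟨S3, hS3, hF3⟩ := hB6' n (gram ω δ w) (hsym w) (hdet0 w hw)
  obtain ⟨S4, hS4, hF4⟩ := hB6' n (gram ω δ (z * w)) (hsym _) (hdet0 _ hzw)
  classical
  let SQ : Finset Prm := Q.attach.image fun q => ⟨q.1, (hQ q.1 q.2).2.pr⟩
  have hSQ : ∀ P : Prm, P ∈ SQ ↔ (P : ℕ) ∈ Q := by
    intro P
    constructor
    · intro h
      obtain ⟨q, -, hq⟩ := Finset.mem_image.mp h
      rw [← hq]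
      exact q.2
    · intro h
      exact Finset.mem_image.mpr ⟨⟨(P : ℕ), h⟩, Finset.mem_attach _ _, rfl⟩
  let S : Finset Prm := SQ ∪ (S1 ∪ S2 ∪ (S3 ∪ S4))
  have hS : ∀ P ∈ S, (P : ℕ) ≠ 2 := by
    intro P hP
    rcases Finset.mem_union.mp hP with h | h
    · exact (hQ _ ((hSQ P).mp h)).2.ne
    · rcases Finset.mem_union.mp h with h | h
      · rcases Finset.mem_union.mp h with h | h
        · exact hS1 P h
        · exact hS2 P h
      · rcases Finset.mem_union.mp h with h | h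
        · exact hS3 P h
        · exact hS4 P h
  have hsub1 : S1 ⊆ S := fun P hP => by simp [S, hP]
  have hsub2 : S2 ⊆ S := fun P hP => by simp [S, hP]
  have hsub3 : S3 ⊆ S := fun P hP => by simp [S, hP]
  have hsub4 : S4 ⊆ S := fun P hP => by simp [S, hP]
  have hN1 : IsSquare (Algebra.norm ℚ (1 : K)) := by
    rw [map_one]
    exact IsSquare.one
  have hNzw : IsSquare (Algebra.norm ℚ (z * w)) := by
    rw [map_mul]
    exact hNz.mul hNw
  obtain ⟨a1, ha1⟩ := hex2 1 h1ne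
  obtain ⟨a2, ha2⟩ := hex2 z hz
  obtain ⟨a3, ha3⟩ := hex2 w hw
  obtain ⟨a4, ha4⟩ := hex2 (z * w) hzw
  obtain ⟨b1, hb1⟩ := hexR 1 h1ne
  obtain ⟨b2, hb2⟩ := hexR z hz
  obtain ⟨b3, hb3⟩ := hexR w hw
  obtain ⟨b4, hb4⟩ := hexR (z * w) hzw
  have ea : a1 = a2 := key2 1 h1ne a1 a2 ha1 (by rw [mul_one]; exact ha2)
  have ea' : a3 = a4 := key2 w hw a3 a4 ha3 ha4
  have eb : b1 = b2 := keyR 1 h1ne b1 b2 hb1 (by rw [mul_one]; exact hb2)
  have eb' : b3 = b4 := keyR w hw b3 b4 hb3 hb4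
  have f1 := hF1 S hsub1 hS (H 1) a1 b1
    (fun P hP => hH 1 h1ne hN1 (fun v _ _ => om_one_B10 v) P (hS P hP)) ha1 hb1
  have f2 := hF2 S hsub2 hS (H z) a2 b2
    (fun P hP => hH z hz hNz (fun v h h' => (hom v h h').1) P (hS P hP)) ha2 hb2
  have f3 := hF3 S hsub3 hS (H w) a3 b3
    (fun P hP => hH w hw hNw (fun v h h' => (hom v h h').2) P (hS P hP)) ha3 hb3
  have f4 := hF4 S hsub4 hS (H (z * w)) a4 b4
    (fun P hP => hH (z * w) hzw hNzw
      (fun v h h' => om_mul_B10 v z w (hom v h h').1 (hom v h h').2) P (hS P hP)) ha4 hb4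
  have hsum : ∑ P ∈ S, (H 1 P + H z P + H w P + H (z * w) P) = 0 := by
    rw [Finset.sum_add_distrib, Finset.sum_add_distrib, Finset.sum_add_distrib]
    rw [← ea, ← eb] at f2
    rw [← ea', ← eb'] at f4
    have h5 : ∀ s1 s2 s3 s4 a b a' b' : ZMod 2, s1 + a + b = 0 → s2 + a + b = 0 → s3 + a' + b' = 0 →
        s4 + a' + b' = 0 → s1 + s2 + s3 + s4 = 0 := by decide
    exact h5 _ _ _ _ _ _ _ _ f1 f2 f3 f4
  let T : ℕ → ZMod 2 := fun q => ∑ v ∈ V q, (om v z * ep q v w + om v w * ep q v z)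
  have hterm : ∀ P : Prm, H 1 P + H z P + H w P + H (z * w) P = if (P : ℕ) ∈ Q then T (P : ℕ) else 0 := by
    intro P
    by_cases hPQ : (P : ℕ) ∈ Q
    · simp only [H, T, if_pos hPQ]
      rw [← Finset.sum_add_distrib, ← Finset.sum_add_distrib, ← Finset.sum_add_distrib]
      refine Finset.sum_congr rfl fun v hv => ?_
      obtain ⟨hom1, hep1, -, hsq⟩ := hB1 K (P : ℕ) (V (P : ℕ)) (hQ _ hPQ).2 v hv
      have h1 := hsq 1 h1ne
      rw [one_pow] at h1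
      rw [h1.1, h1.2, hom1 z w hz hw, hep1 z w hz hw]
      exact zmod_id_B10 _ _ _ _ _
    · simp only [H, if_neg hPQ, add_zero]
  have hfin : ∑ P ∈ S, (if (P : ℕ) ∈ Q then T (P : ℕ) else 0) = ∑ q ∈ Q, T q := by
    rw [← Finset.sum_filter]
    refine Finset.sum_bij (fun P _ => (P : ℕ)) ?_ ?_ ?_ ?_
    · intro P hP
      exact (Finset.mem_filter.mp hP).2
    · intro P _ P' _ h
      exact Subtype.ext h
    · intro q hq
      refine ⟨⟨q, (hQ q hq).2.pr⟩, ?_, rfl⟩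
      rw [Finset.mem_filter]
      refine ⟨?_, hq⟩
      exact Finset.mem_union_left _ ((hSQ _).mpr hq)
    · intro P _
      rfl
  calc ∑ q ∈ Q, ∑ v ∈ V q, (om v z * ep q v w + om v w * ep q v z) = ∑ q ∈ Q, T q := rfl
    _ = ∑ P ∈ S, (if (P : ℕ) ∈ Q then T (P : ℕ) else 0) := hfin.symm
    _ = ∑ P ∈ S, (H 1 P + H z P + H w P + H (z * w) P) :=
        Finset.sum_congr rfl fun P _ => (hterm P).symm
    _ = 0 := hsum

end Pool.TW
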