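import Pool.Agent.Helper34.TW.StB

/-!
# TW module B2 (normalisation)
-/

set_option autoImplicit false

open scoped NumberField nonZeroDivisors
open NumberField IsDedekindDomain

namespace Pool.TW

private lemma sqdec_B2 {R : Type} [CommRing R] [IsDedekindDomain R] (I : Ideal R) :
    I ≠ 0 → ∃ J S : Ideal R, I = J ^ 2 * S ∧ Squarefree S := by
  induction I using WfDvdMonoid.induction_on_irreducible with
  | zero => exact fun h => absurd rfl h
  | unit u hu =>
    intro _
    exact ⟨1, u, by rw [one_pow, one_mul], hu.squarefree⟩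
  | mul a i ha hi ih =>
    intro _
    obtain ⟨J, S, hJS, hS⟩ := ih ha
    by_cases h : i ∣ S
    · obtain ⟨S', rfl⟩ := h
      refine ⟨i * J, S', ?_, hS.of_mul_right⟩
      rw [hJS]; ring
    · refine ⟨J, i * S, ?_, ?_⟩
      · rw [hJS]; ring
      · rw [squarefree_mul_iff]
        exact ⟨hi.isRelPrime_iff_not_dvd.mpr h, hi.squarefree, hS⟩

section

variable {K : Type} [Field K] [NumberField K]

private lemma exists_B2 (p : ℕ) (hp : p ≠ 0) (z : K) (hz : z ≠ 0) :
    ∃ (y : K) (a : 𝓞 K), y ≠ 0 ∧ z * y ^ 2 = a ∧ ∀ v : HeightOneSpectrum (𝓞 K), (p : 𝓞 K) ∈ v.asIdeal →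
      a ∉ v.asIdeal ^ 2 := by
  obtain ⟨a0, b0, hb0, hz0⟩ := IsFractionRing.div_surjective (A := 𝓞 K) z
  have hb : b0 ≠ 0 := nonZeroDivisors.ne_zero hb0
  have hbK : (algebraMap (𝓞 K) K b0) ≠ 0 := by
    simpa using hb
  have ha : a0 ≠ 0 := by
    rintro rfl
    apply hz
    rw [← hz0]; simp
  set c : 𝓞 K := a0 * b0 with hc
  have hc0 : c ≠ 0 := mul_ne_zero ha hb
  have hcK : (algebraMap (𝓞 K) K c) ≠ 0 := by
    simpa using hc0
  have hzc : z = algebraMap (𝓞 K) K c / (algebraMap (𝓞 K) K b0) ^ 2 := by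
    rw [← hz0, hc, map_mul]; field_simp
  by_cases htop : Ideal.span {(p : 𝓞 K)} = ⊤
  · refine ⟨algebraMap (𝓞 K) K b0, c, hbK, ?_, ?_⟩
    · rw [hzc]; field_simp
    · intro v hv _
      apply v.isPrime.ne_top
      rw [eq_top_iff, ← htop, Ideal.span_singleton_le_iff_mem]
      exact hv
  obtain ⟨J, S, hJS, hS⟩ := sqdec_B2 (Ideal.span {c}) (by simpa using hc0)
  have hspan0 : Ideal.span {c} ≠ 0 := by simpa using hc0
  have hJ0 : J ≠ 0 := by
    rintro rfl
    apply hspan0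
    rw [hJS]; simp
  have hS0 : S ≠ 0 := by
    rintro rfl
    apply hspan0
    rw [hJS]; simp
  set J' := J * S with hJ'
  have hJ'0 : J' ≠ 0 := mul_ne_zero hJ0 hS0
  have hp0 : (p : 𝓞 K) ≠ 0 := by exact_mod_cast hp
  have hle : J' * Ideal.span {(p : 𝓞 K)} ≤ J' := Ideal.le_of_dvd (Dvd.intro _ rfl)
  obtain ⟨d, hd⟩ := IsDedekindDomain.exists_sup_span_eq hle (mul_ne_zero hJ'0 (by simpa using hp0))
  have hdJ : J' ∣ Ideal.span {d} := by
    rw [Ideal.dvd_iff_le, ← hd]
    exact le_sup_right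
  obtain ⟨E, hE⟩ := hdJ
  have hsup : Ideal.span {(p : 𝓞 K)} ⊔ E = ⊤ := by
    have h1 : J' * (Ideal.span {(p : 𝓞 K)} ⊔ E) = J' * ⊤ := by
      rw [Ideal.mul_sup, ← hE, hd, Ideal.mul_top]
    exact mul_left_cancel₀ hJ'0 h1
  have hd0 : d ≠ 0 := by
    rintro rfl
    have : E = 0 := by
      have h2 : J' * E = 0 := by rw [← hE]; simp
      rcases mul_eq_zero.mp h2 with h | h
      · exact absurd h hJ'0
      · exact h
    rw [this] at hsup
    apply htop
    simpa using hsup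
  have hdvd : c ∣ d ^ 2 := by
    rw [← Ideal.span_singleton_le_span_singleton, ← Ideal.dvd_iff_le, ← Ideal.span_singleton_pow, hE, hJS, hJ']
    exact ⟨S * E ^ 2, by ring⟩
  obtain ⟨a, hca⟩ := hdvd
  have hdK : (algebraMap (𝓞 K) K d) ≠ 0 := by
    simpa using hd0
  have hcaK : (algebraMap (𝓞 K) K d) ^ 2 = algebraMap (𝓞 K) K c * algebraMap (𝓞 K) K a := by
    rw [← map_pow, hca, map_mul]
  refine ⟨algebraMap (𝓞 K) K b0 * algebraMap (𝓞 K) K d / algebraMap (𝓞 K) K c, a, ?_, ?_, ?_⟩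
  · exact div_ne_zero (mul_ne_zero hbK hdK) hcK
  · rw [hzc]
    field_simp
    rw [hcaK]
  · intro v hv hav
    have hsa : Ideal.span {a} = S * E ^ 2 := by
      apply mul_left_cancel₀ hspan0
      rw [Ideal.span_singleton_mul_span_singleton, ← hca, ← Ideal.span_singleton_pow, hE, hJS, hJ']
      ring
    have hvE : ¬ v.asIdeal ∣ E := by
      intro h
      apply v.isPrime.ne_top
      rw [eq_top_iff, ← hsup]
      refine sup_le ?_ (Ideal.le_of_dvd h)
      rw [Ideal.span_singleton_le_iff_mem]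
      exact hv
    have hvp : Prime v.asIdeal := v.prime
    have h3 : v.asIdeal ^ 2 ∣ S * E ^ 2 := by
      rw [← hsa, Ideal.dvd_span_singleton]
      exact hav
    have h4 : v.asIdeal ^ 2 ∣ S :=
      hvp.pow_dvd_of_dvd_mul_right 2 (fun h => hvE (hvp.dvd_of_dvd_pow h)) h3
    rw [sq] at h4
    exact hvp.not_isUnit (hS _ h4)

private lemma notsq_B2 : ¬ IsSquare (WithZero.exp (-1 : ℤ)) := by
  rintro ⟨r, hr⟩
  have hr0 : r ≠ 0 := by
    rintro rfl
    simp at hr
  rw [← WithZero.exp_log hr0, ← WithZero.exp_add, WithZero.exp_inj] at hr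
  omega

private lemma val_B2 (v : HeightOneSpectrum (𝓞 K)) (a : 𝓞 K) (h1 : a ∈ v.asIdeal) (h2 : a ∉ v.asIdeal ^ 2) :
    v.valuation K (algebraMap (𝓞 K) K a) = WithZero.exp (-1 : ℤ) := by
  rw [HeightOneSpectrum.valuation_of_algebraMap]
  have ha : a ≠ 0 := by
    rintro rfl
    exact h2 (Ideal.zero_mem _)
  have h3 : v.intValuation a ≤ WithZero.exp (-(1 : ℕ) : ℤ) := by
    rw [HeightOneSpectrum.intValuation_le_pow_iff_mem]
    simpa using h1
  have h4 : ¬ v.intValuation a ≤ WithZero.exp (-(2 : ℕ) : ℤ) := by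
    rw [HeightOneSpectrum.intValuation_le_pow_iff_mem]
    exact h2
  have h5 : v.intValuation a ≠ 0 := by
    exact HeightOneSpectrum.intValuation_ne_zero _ _ ha
  rw [← WithZero.exp_log h5] at h3 h4 ⊢
  rw [WithZero.exp_le_exp] at h3 h4
  rw [WithZero.exp_inj]
  push_cast at h3 h4
  omega

theorem hB2 : StB2 := by
  intro K _ _ p hp z hz
  obtain ⟨y, a, hy, hza, hv⟩ := exists_B2 p hp.ne_zero z hz
  refine ⟨y, a, hy, hza, fun v hpv => ?_⟩
  have hval : v.valuation K z * (v.valuation K y) ^ 2 = v.valuation K (algebraMap (𝓞 K) K a) := by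
    rw [← map_pow, ← map_mul, hza]
  have hy0 : v.valuation K y ≠ 0 := by
    simpa using hy
  have h2 := hv v hpv
  have key : a ∈ v.asIdeal → ¬ IsSquare (v.valuation K z) := by
    rintro h1 ⟨r, hr⟩
    apply notsq_B2
    rw [← val_B2 (K := K) v a h1 h2, ← hval, hr]
    exact ⟨r * v.valuation K y, by rw [sq]; exact mul_mul_mul_comm _ _ _ _⟩
  have key2 : a ∉ v.asIdeal → IsSquare (v.valuation K z) := by
    intro h1
    have h3 : v.valuation K (algebraMap (𝓞 K) K a) = 1 := by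
      rw [HeightOneSpectrum.valuation_of_algebraMap]
      by_contra hne
      have h4 : v.intValuation a < 1 := lt_of_le_of_ne (v.intValuation_le_one a) hne
      rw [HeightOneSpectrum.intValuation_lt_one_iff_mem] at h4
      exact h1 h4
    rw [h3] at hval
    refine ⟨(v.valuation K y)⁻¹, ?_⟩
    field_simp
    exact hval
  unfold om
  constructor
  · intro h h1
    rw [if_neg (key h1)] at h
    exact one_ne_zero h
  · intro h
    by_cases h1 : a ∈ v.asIdeal
    · exact ⟨h1, h2⟩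
    · rw [if_pos (key2 h1)] at h
      exact absurd h zero_ne_one

end

end Pool.TW
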