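import Pool.Agent.Helper34.TW.StB

set_option autoImplicit false

open scoped NumberField TensorProduct nonZeroDivisors
open NumberField Matrix IsDedekindDomain
open Pool.Agent.Helper54.HQ (Prm hs hs2 hsR hasse IsSym lg)

namespace Pool.TW

private theorem integral_B3 (K : Type) [Field K] [NumberField K] (δ : 𝓞 K)
    (hδ : differentIdeal ℤ (𝓞 K) = Ideal.span {δ}) (hδ0 : δ ≠ 0) (a : 𝓞 K) :
    ∃ m : ℤ, Algebra.trace ℚ K ((a : K) / (δ : K)) = (m : ℚ) := by
  have h1 := coeIdeal_differentIdeal (A := ℤ) (K := ℚ) (L := K) (B := 𝓞 K)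
  rw [hδ, FractionalIdeal.coeIdeal_span_singleton] at h1
  have hd : FractionalIdeal.dual ℤ ℚ (1 : FractionalIdeal (𝓞 K)⁰ K) =
      FractionalIdeal.spanSingleton (𝓞 K)⁰ ((algebraMap (𝓞 K) K δ)⁻¹) := by
    rw [← inv_inv (FractionalIdeal.dual ℤ ℚ (1 : FractionalIdeal (𝓞 K)⁰ K)), ← h1,
      FractionalIdeal.spanSingleton_inv]
  have hx : (a : K) / (δ : K) ∈ FractionalIdeal.dual ℤ ℚ (1 : FractionalIdeal (𝓞 K)⁰ K) := by
    rw [hd, FractionalIdeal.mem_spanSingleton]
    refine ⟨a, ?_⟩
    rw [Algebra.smul_def, div_eq_mul_inv]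
  rw [FractionalIdeal.mem_dual (one_ne_zero : (1 : FractionalIdeal (𝓞 K)⁰ K) ≠ 0)] at hx
  obtain ⟨m, hm⟩ := hx 1 (FractionalIdeal.one_mem_one _)
  refine ⟨m, ?_⟩
  rw [Algebra.traceForm_apply, mul_one] at hm
  rw [← hm]
  rfl

theorem hB3 : StB3 := by
  intro K _ _ n ω δ hδ
  have hδ0 : δ ≠ 0 := by
    intro h
    have := differentIdeal_ne_bot (A := ℤ) (B := 𝓞 K)
    rw [hδ, h] at this
    simp at this
  have hδK : (δ : K) ≠ 0 := by
    simpa using hδ0
  refine ⟨hδ0, ?_, ?_, ?_⟩
  · intro z
    ext i j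
    simp only [gram, Matrix.transpose_apply]
    congr 1
    ring
  · -- the determinant
    set b : Module.Basis (Fin n) ℚ K := ω.localizationLocalization ℚ ℤ⁰ K with hb
    have hbi : ∀ i, b i = (ω i : K) := fun i => Module.Basis.localizationLocalization_apply ℚ ℤ⁰ K ω i
    have hdisc : (Algebra.traceMatrix ℚ b).det = (discr K : ℚ) := by
      have h1 : Algebra.discr ℚ b = algebraMap ℤ ℚ (Algebra.discr ℤ ω) :=
        Algebra.discr_localizationLocalization ℤ ℤ⁰ K ω
      rw [NumberField.discr_eq_discr] at h1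
      rw [← Algebra.discr_def, h1]
      rfl
    have hgram : ∀ z : K, gram ω δ z =
        (Algebra.leftMulMatrix b (z / (δ : K)))ᵀ * Algebra.traceMatrix ℚ b := by
      intro z
      ext i j
      simp only [gram, Matrix.mul_apply, Matrix.transpose_apply, Algebra.traceMatrix_apply,
        Algebra.traceForm_apply]
      have e1 : z * (ω i : K) * (ω j : K) / (δ : K) =
          ∑ k, Algebra.leftMulMatrix b (z / (δ : K)) k i • (b k * b j) := by
        have e2 : z / (δ : K) * b i = ∑ k, Algebra.leftMulMatrix b (z / (δ : K)) k i • b k := by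
          conv_lhs => rw [← b.sum_repr (z / (δ : K) * b i)]
          refine Finset.sum_congr rfl fun k _ => ?_
          rw [Algebra.leftMulMatrix_eq_repr_mul]
        have e3 : z * (ω i : K) * (ω j : K) / (δ : K) = (z / (δ : K) * b i) * b j := by
          rw [hbi, hbi]
          ring
        rw [e3, e2, Finset.sum_mul]
        refine Finset.sum_congr rfl fun k _ => ?_
        rw [smul_mul_assoc]
      rw [e1, map_sum]
      refine Finset.sum_congr rfl fun k _ => ?_
      rw [map_smul, smul_eq_mul]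
    have hdet : ∀ z : K, (gram ω δ z).det = Algebra.norm ℚ (z / (δ : K)) * (discr K : ℚ) := by
      intro z
      rw [hgram, Matrix.det_mul, Matrix.det_transpose, hdisc, Algebra.norm_eq_matrix_det b]
    -- the norm of the different
    have hN : (Algebra.norm ℤ δ).natAbs = (discr K).natAbs := by
      have h1 := NumberField.absNorm_differentIdeal (K := K) (𝒪 := 𝓞 K)
      rw [hδ, Ideal.absNorm_span_singleton] at h1
      exact h1
    have hN0 : (Algebra.norm ℤ δ : ℤ) ≠ 0 := by
      rw [Ne, Algebra.norm_eq_zero_iff]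
      exact hδ0
    have hq : (Algebra.norm ℚ (δ : K)) = ((Algebra.norm ℤ δ : ℤ) : ℚ) := (Algebra.coe_norm_int δ).symm
    have hmul : ∀ z : K, Algebra.norm ℚ (z / (δ : K)) * Algebra.norm ℚ (δ : K) = Algebra.norm ℚ z := by
      intro z
      rw [← map_mul, div_mul_cancel₀ _ hδK]
    rcases Int.natAbs_eq_natAbs_iff.mp hN with h | h
    · refine ⟨1, Or.inl rfl, ?_⟩
      intro z
      rw [hdet, ← h, ← hq, hmul]
      simp
    · refine ⟨-1, Or.inr rfl, ?_⟩
      intro z
      have h2 : (discr K : ℚ) = -((Algebra.norm ℤ δ : ℤ) : ℚ) := by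
        rw [h]; push_cast; ring
      rw [hdet, h2, ← hq, mul_neg, hmul]
      simp
  · intro a
    have hint : ∀ i j, ∃ m : ℤ, gram ω δ (a : K) i j = (m : ℚ) := by
      intro i j
      obtain ⟨m, hm⟩ := integral_B3 K δ hδ hδ0 (a * ω i * ω j)
      refine ⟨m, ?_⟩
      rw [← hm]
      simp only [gram]
      congr 1
    choose G hG using hint
    refine ⟨fun i j => G i j, ?_, ?_⟩
    · ext i j
      have h1 := hG i j
      have h2 := hG j i
      have h3 : gram ω δ (a : K) i j = gram ω δ (a : K) j i := by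
        simp only [gram]
        congr 1
        ring
      rw [h1, h2] at h3
      have h4 : G i j = G j i := by exact_mod_cast h3
      exact h4.symm
    · ext i j
      rw [hG i j]
      rfl

end Pool.TW
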