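import Pool.Agent.Helper34.TW.StB

/-!
# Project TW, module B4: change of the Gram matrix by a square
-/

set_option autoImplicit false

open scoped NumberField TensorProduct nonZeroDivisors
open NumberField Matrix IsDedekindDomain

namespace Pool.TW

private theorem trace_one_tmul_B4 (K : Type) [Field K] [NumberField K] (F : Type) [Field F]
    [Algebra ℚ F] (x : K) :
    Algebra.trace F (F ⊗[ℚ] K) ((1 : F) ⊗ₜ[ℚ] x) = algebraMap ℚ F (Algebra.trace ℚ K x) := by
  rw [Algebra.trace_apply, Algebra.trace_apply, ← LinearMap.trace_baseChange]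
  congr 1
  ext y
  simp

theorem hB4 : StB4 := by
  classical
  intro K _ _ n ω δ F _ _ z w hz hsq
  obtain ⟨ζ, hζ⟩ := hsq
  let b : Module.Basis (Fin n) ℚ K := ω.localizationLocalization ℚ (nonZeroDivisors ℤ) K
  have hb : ∀ i, b i = (ω i : K) := fun i =>
    Module.Basis.localizationLocalization_apply ℚ (nonZeroDivisors ℤ) K ω i
  let B : Module.Basis (Fin n) F (F ⊗[ℚ] K) := Algebra.TensorProduct.basis F b
  have hB : ∀ i, B i = (1 : F) ⊗ₜ[ℚ] (ω i : K) := by
    intro i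
    rw [← hb i]
    exact Algebra.TensorProduct.basis_apply b i
  let T : LinearMap.BilinForm F (F ⊗[ℚ] K) :=
    LinearMap.mk₂ F (fun x y => Algebra.trace F (F ⊗[ℚ] K) (((1 : F) ⊗ₜ[ℚ] (w / (δ : K))) * x * y))
      (fun x x' y => by rw [mul_add, add_mul, map_add])
      (fun c x y => by rw [mul_smul_comm, smul_mul_assoc, map_smul])
      (fun x y y' => by rw [mul_add, map_add])
      (fun c x y => by rw [mul_smul_comm, map_smul])
  have hT : ∀ x y, T x y = Algebra.trace F (F ⊗[ℚ] K) (((1 : F) ⊗ₜ[ℚ] (w / (δ : K))) * x * y) :=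
    fun x y => rfl
  have hG : ∀ u : K, ∀ i j, (gram ω δ u).map (algebraMap ℚ F) i j =
      Algebra.trace F (F ⊗[ℚ] K)
        (((1 : F) ⊗ₜ[ℚ] (u / (δ : K))) * ((1 : F) ⊗ₜ[ℚ] (ω i : K)) * ((1 : F) ⊗ₜ[ℚ] (ω j : K))) := by
    intro u i j
    rw [Algebra.TensorProduct.tmul_mul_tmul, Algebra.TensorProduct.tmul_mul_tmul, one_mul, one_mul,
      trace_one_tmul_B4, Matrix.map_apply]
    unfold gram
    congr 2
    ring
  let M : Matrix (Fin n) (Fin n) F := LinearMap.toMatrix B B (LinearMap.mulLeft F ζ)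
  have hU : IsUnit ζ := by
    have h1 : IsUnit ((1 : F) ⊗ₜ[ℚ] z) := by
      refine IsUnit.of_mul_eq_one ((1 : F) ⊗ₜ[ℚ] z⁻¹) ?_
      rw [Algebra.TensorProduct.tmul_mul_tmul, mul_inv_cancel₀ hz, one_mul]
      rfl
    rw [hζ] at h1
    exact isUnit_of_mul_isUnit_left h1
  refine ⟨M, ?_, ?_⟩
  · obtain ⟨η, hη⟩ := hU.exists_right_inv
    have : M * LinearMap.toMatrix B B (LinearMap.mulLeft F η) = 1 := by
      rw [← LinearMap.toMatrix_comp, ← LinearMap.toMatrix_id B]
      congr 1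
      ext y
      simp [← mul_assoc, hη]
    exact (Matrix.isUnit_iff_isUnit_det _).1 (IsUnit.of_mul_eq_one _ this)
  · have h1 : (gram ω δ w).map (algebraMap ℚ F) = LinearMap.BilinForm.toMatrix B T := by
      ext i j
      rw [hG, LinearMap.BilinForm.toMatrix_apply, hT, hB, hB]
    rw [h1]
    have h2 := LinearMap.BilinForm.toMatrix_comp B B T (LinearMap.mulLeft F ζ) (LinearMap.mulLeft F ζ)
    rw [← h2]
    ext i j
    rw [hG, LinearMap.BilinForm.toMatrix_apply, LinearMap.BilinForm.comp_apply, hT, hB, hB,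
      LinearMap.mulLeft_apply, LinearMap.mulLeft_apply]
    congr 1
    rw [show ((1 : F) ⊗ₜ[ℚ] (z * w / (δ : K))) = ((1 : F) ⊗ₜ[ℚ] z) * ((1 : F) ⊗ₜ[ℚ] (w / (δ : K))) by
      rw [Algebra.TensorProduct.tmul_mul_tmul, one_mul, mul_div_assoc], hζ]
    ring

end Pool.TW
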