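import Pool.Agent.Helper34.TW.StB
import Pool.Agent.Helper54.HQ.M_Ha

/-!
# Project TW, module B5: uniqueness of the Hasse invariant of a symmetric matrix
-/

set_option autoImplicit false

open scoped NumberField TensorProduct nonZeroDivisors
open NumberField Matrix IsDedekindDomain
open Pool.Agent.Helper54.HQ (Prm hs hs2 hsR hasse IsSym lg)

namespace Pool.TW

private theorem form_B5 {F : Type} [Field F] {n : ℕ} (G P : Matrix (Fin n) (Fin n) F) (i j : Fin n) :
    Matrix.toBilin' G (P *ᵥ Pi.single i 1) (P *ᵥ Pi.single j 1) = (Pᵀ * G * P) i j := by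
  rw [Matrix.toBilin'_apply']
  have h1 : (Pᵀ * G * P) i j = Pi.single i 1 ⬝ᵥ ((Pᵀ * G * P) *ᵥ Pi.single j 1) := by
    rw [Matrix.mulVec_single_one, single_one_dotProduct]
    rfl
  rw [h1, ← Matrix.mulVec_mulVec, ← Matrix.mulVec_mulVec]
  generalize G *ᵥ (P *ᵥ Pi.single j 1) = w
  rw [Matrix.dotProduct_mulVec, Matrix.vecMul_transpose]

private theorem basis_B5 {F : Type} [Field F] {n : ℕ} (P : Matrix (Fin n) (Fin n) F)
    (hP : IsUnit P.det) : ∃ e : Module.Basis (Fin n) F (Fin n → F), ∀ i, e i = P *ᵥ Pi.single i 1 := by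
  refine ⟨(Pi.basisFun F (Fin n)).map
    (Matrix.toLinearEquiv' P (Matrix.invertibleOfIsUnitDet P hP)), fun i => ?_⟩
  rw [Module.Basis.map_apply, Pi.basisFun_apply]
  rfl

theorem hB5 : StB5 := by
  intro F _ s hs h2 n G Q hG hQ h h' ⟨P, a, hP, ha, hPG, hh⟩ ⟨P', a', hP', ha', hPG', hh'⟩
  obtain ⟨e, he⟩ := basis_B5 P hP
  obtain ⟨f, hf⟩ := basis_B5 (Q * P') (by rw [Matrix.det_mul]; exact hQ.mul hP')
  have hPG'' : (Q * P')ᵀ * G * (Q * P') = Matrix.diagonal a' := by
    rw [← hPG', Matrix.transpose_mul]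
    simp only [Matrix.mul_assoc]
  have hE : ∀ i j, Matrix.toBilin' G (e i) (e j) = Matrix.diagonal a i j := by
    intro i j
    rw [he, he, form_B5, hPG]
  have hFf : ∀ i j, Matrix.toBilin' G (f i) (f j) = Matrix.diagonal a' i j := by
    intro i j
    rw [hf, hf, form_B5, hPG'']
  have hsymm : ∀ x y, Matrix.toBilin' G x y = Matrix.toBilin' G y x := by
    intro x y
    rw [Matrix.toBilin'_apply', Matrix.toBilin'_apply', Matrix.dotProduct_mulVec,
      ← Matrix.mulVec_transpose, hG, dotProduct_comm]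
  have key := Pool.Agent.Helper54.HQ.hHa Pool.Agent.Helper54.HQ.hHa1 F s hs h2 (Fin n → F)
    (Matrix.toBilin' G) hsymm n e f
    (fun i j hij => by rw [hE, Matrix.diagonal_apply_ne _ hij])
    (fun i j hij => by rw [hFf, Matrix.diagonal_apply_ne _ hij])
    (fun i => by rw [hE, Matrix.diagonal_apply_eq]; exact ha i)
    (fun i => by rw [hFf, Matrix.diagonal_apply_eq]; exact ha' i)
  have h3 : (fun i => Matrix.toBilin' G (e i) (e i)) = a := by
    funext i; rw [hE, Matrix.diagonal_apply_eq]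
  have h4 : (fun i => Matrix.toBilin' G (f i) (f i)) = a' := by
    funext i; rw [hFf, Matrix.diagonal_apply_eq]
  rw [h3, h4] at key
  rw [← hh, ← hh', key]

end Pool.TW
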