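import Pool.Agent.Helper34.TW.StB
import Pool.Agent.Helper54.HQ.M_Hc0
import Pool.Agent.Helper54.HQ.M_Hc
import Pool.Agent.Helper54.HQ.M_Hd
import Pool.Agent.Helper54.HQ.M_He
import Pool.Agent.Helper54.HQ.M_Hf
import Pool.Agent.Helper54.HQ.M_Hg0

/-!
# Project TW, module B6: product formula for Hasse invariants
-/

set_option autoImplicit false

open Matrix
open Pool.Agent.Helper54.HQ (Prm hs hs2 hsR hasse IsSym hHc0 hHc hHd hHe hHf hHg0)

namespace Pool.TW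

private theorem fin_B6 (a : ℚ) : {P : Prm | padicValRat (P : ℕ) a ≠ 0}.Finite := by
  refine Set.Finite.subset
    ((Set.finite_Iic (a.num.natAbs + a.den)).preimage Nat.Primes.coe_nat_injective.injOn) ?_
  intro P hP
  have hP' : padicValRat (P : ℕ) a ≠ 0 := hP
  show (P : ℕ) ≤ a.num.natAbs + a.den
  rw [padicValRat_def] at hP'
  by_cases h1 : padicValInt (P : ℕ) a.num = 0
  · have h2 : padicValNat (P : ℕ) a.den ≠ 0 := by
      intro h2
      rw [h1, h2] at hP'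
      simp at hP'
    have h3 : (P : ℕ) ∣ a.den := dvd_of_one_le_padicValNat (Nat.one_le_iff_ne_zero.2 h2)
    exact (Nat.le_of_dvd a.den_pos h3).trans (Nat.le_add_left _ _)
  · have h3 : (P : ℕ) ∣ a.num.natAbs := dvd_of_one_le_padicValNat (Nat.one_le_iff_ne_zero.2 h1)
    have h4 : a.num.natAbs ≠ 0 := by
      intro h4
      apply h1
      unfold padicValInt
      rw [h4]
      exact padicValNat_zero_right _
    exact (Nat.le_of_dvd (Nat.pos_of_ne_zero h4) h3).trans (Nat.le_add_right _ _)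

private theorem hs_eq_B6 (h5 : StB5) {F : Type} [Field F] [Algebra ℚ F] (s : F → F → ZMod 2)
    (hsym : IsSym F s) (h2 : (2 : F) ≠ 0) {n : ℕ} (G Q : Matrix (Fin n) (Fin n) ℚ) (hG : Gᵀ = G)
    (hQ : IsUnit Q.det) (a : Fin n → ℚ) (ha : ∀ i, a i ≠ 0) (hd : Qᵀ * G * Q = Matrix.diagonal a)
    (h : ZMod 2) (hh : Hs s (G.map (algebraMap ℚ F)) h) :
    h = hasse s (fun i => ((a i : ℚ) : F)) := by
  have hcast : ∀ q : ℚ, algebraMap ℚ F q = (q : F) := fun q => eq_ratCast _ q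
  refine h5 F s hsym h2 n (G.map (algebraMap ℚ F)) 1 ?_ (by simp) h _ hh ?_
  · rw [← Matrix.transpose_map, hG]
  · refine ⟨Q.map (algebraMap ℚ F), fun i => ((a i : ℚ) : F), ?_, ?_, ?_, rfl⟩
    · have := RingHom.map_det (algebraMap ℚ F) Q
      rw [RingHom.mapMatrix_apply] at this
      rw [← this]
      exact hQ.map _
    · intro i hi
      have h0 : algebraMap ℚ F (a i) = 0 := by rw [hcast]; exact hi
      exact ha i ((map_eq_zero _).1 h0)
    · rw [Matrix.transpose_one, Matrix.one_mul, Matrix.mul_one, ← Matrix.transpose_map,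
        ← Matrix.map_mul, ← Matrix.map_mul, hd, Matrix.diagonal_map (map_zero _)]
      congr 1
      funext i
      exact hcast (a i)

theorem hB6 : StB6 := by
  classical
  intro h5 n G hG hdet
  obtain ⟨Q, a, hQ, ha, hd⟩ := hHg0 ℚ (isUnit_iff_ne_zero.2 two_ne_zero) n G hG
    (isUnit_iff_ne_zero.2 hdet)
  have ha' : ∀ i, a i ≠ 0 := fun i => (ha i).ne_zero
  have hfin : {P : Prm | (P : ℕ) ≠ 2 ∧ ∃ i, padicValRat (P : ℕ) (a i) ≠ 0}.Finite := by
    refine (Set.finite_iUnion fun i => fin_B6 (a i)).subset ?_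
    rintro P ⟨-, i, hi⟩
    exact Set.mem_iUnion.2 ⟨i, hi⟩
  refine ⟨hfin.toFinset, fun P hP => ((hfin.mem_toFinset).1 hP).1, ?_⟩
  intro S hS hS2 h h2 hR hP h2' hR'
  have e1 : ∀ P ∈ S, h P = hasse (hs (P : ℕ)) (fun i => ((a i : ℚ) : ℚ_[(P : ℕ)])) := fun P hPS =>
    hs_eq_B6 h5 (hs (P : ℕ)) (hHc hHc0 (P : ℕ) (hS2 P hPS)) two_ne_zero G Q hG hQ a ha' hd _ (hP P hPS)
  have e2 : h2 = hasse hs2 (fun i => ((a i : ℚ) : ℚ_[2])) :=
    hs_eq_B6 h5 hs2 (hHd hHc0).1 two_ne_zero G Q hG hQ a ha' hd _ h2'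
  have e3 : hR = hasse hsR (fun i => ((a i : ℚ) : ℝ)) :=
    hs_eq_B6 h5 hsR hHe.1 two_ne_zero G Q hG hQ a ha' hd _ hR'
  rw [Finset.sum_congr rfl e1, e2, e3]
  unfold hasse
  rw [Finset.sum_comm, ← Finset.sum_add_distrib, ← Finset.sum_add_distrib]
  refine Finset.sum_eq_zero fun p _ => ?_
  by_cases hp : p.1 < p.2
  · simp only [hp, if_true]
    refine hHf hHc0 (hHc hHc0) (hHd hHc0) hHe (a p.1) (a p.2) (ha' _) (ha' _) S hS2 ?_
    intro P hP2 hPv
    apply hS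
    rw [Set.Finite.mem_toFinset]
    rcases hPv with hv | hv
    · exact ⟨hP2, _, hv⟩
    · exact ⟨hP2, _, hv⟩
  · simp [hp]

end Pool.TW
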