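import Pool.Agent.Helper34.TW.StB
import Pool.Agent.Helper54.HQ.M_Hg0

/-!
# Project TW, module B6a: diagonalisation of symmetric matrices
-/

set_option autoImplicit false

open scoped NumberField TensorProduct nonZeroDivisors
open NumberField Matrix IsDedekindDomain
open Pool.Agent.Helper54.HQ (Prm hs hs2 hsR hasse IsSym lg)

namespace Pool.TW

theorem hB6a : StB6a := by
  intro F _ s h2 n G hG hdet
  obtain ⟨Q, a, hQ, ha, hD⟩ := Pool.Agent.Helper54.HQ.hHg0 F (isUnit_iff_ne_zero.2 h2) n G hG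
    (isUnit_iff_ne_zero.2 hdet)
  exact ⟨hasse s a, Q, a, hQ, fun i => (ha i).ne_zero, hD, rfl⟩

end Pool.TW
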