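import Pool.Agent.Helper34.TW.StB
import Pool.Agent.Helper54.HQ.M_Hg0

/-!
# Project TW, module B7 (odd primes, even valuations)
-/

set_option autoImplicit false

open scoped NumberField TensorProduct nonZeroDivisors
open NumberField Matrix IsDedekindDomain
open Pool.Agent.Helper54.HQ (Prm hs hs2 hsR hasse IsSym lg v2)

namespace Pool.TW

/-- A prime number dividing the norm of `a` lies below a prime containing `a`. -/
private theorem norm_B7 {K : Type} [Field K] [NumberField K] {p : ℕ} (hp : p.Prime) (a : 𝓞 K)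
    (ha : ∀ v : HeightOneSpectrum (𝓞 K), (p : 𝓞 K) ∈ v.asIdeal → a ∉ v.asIdeal) :
    ¬ (p : ℤ) ∣ Algebra.norm ℤ a := by
  intro hd
  have h1 : p ∣ (Ideal.span ({a} : Set (𝓞 K))).absNorm := by
    rw [Ideal.absNorm_span_singleton]
    exact Int.natCast_dvd.mp hd
  obtain ⟨P, hP, hu, hPd⟩ := Ideal.exists_isMaximal_dvd_of_dvd_absNorm' hp _ h1
  have hmem : (p : 𝓞 K) ∈ P := by
    have h2 : (p : ℤ) ∈ P.under ℤ := by
      rw [hu]
      exact Ideal.mem_span_singleton_self _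
    rw [Ideal.under_def, Ideal.mem_comap] at h2
    simpa using h2
  have hne : P ≠ ⊥ := by
    intro h0
    rw [h0, Ideal.mem_bot] at hmem
    exact hp.ne_zero (by exact_mod_cast hmem)
  have haP : a ∈ P := by
    have := Ideal.dvd_iff_le.mp hPd
    exact this (Ideal.mem_span_singleton_self a)
  exact ha ⟨P, hP.isPrime, hne⟩ hmem haP

/-- A symmetric integral matrix with determinant prime to `p` has Hasse invariant `0` at `p`. -/
private theorem unit_B7 (p : ℕ) [Fact p.Prime] (hp2 : p ≠ 2) (n : ℕ) (G : Matrix (Fin n) (Fin n) ℤ) (hG : Gᵀ = G)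
    (hd : ¬ (p : ℤ) ∣ G.det) :
    ∃ (P : Matrix (Fin n) (Fin n) ℚ_[p]) (a : Fin n → ℚ_[p]), IsUnit P.det ∧ (∀ i, a i ≠ 0) ∧
      Pᵀ * G.map (Int.cast : ℤ → ℚ_[p]) * P = Matrix.diagonal a ∧ hasse (hs p) a = 0 := by
  have h2 : IsUnit (2 : ℤ_[p]) := by
    have h : ¬ (p : ℤ) ∣ 2 := by
      intro h
      have h3 : p ∣ 2 := by exact_mod_cast h
      exact hp2 ((Nat.prime_dvd_prime_iff_eq (Fact.out) Nat.prime_two).mp h3)
    rw [PadicInt.isUnit_iff]
    have h4 := PadicInt.norm_int_lt_one_iff_dvd (p := p) 2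
    have h5 : ‖((2 : ℤ) : ℤ_[p])‖ ≤ 1 := PadicInt.norm_le_one _
    have h6 : ¬ ‖((2 : ℤ) : ℤ_[p])‖ < 1 := fun hh => h (h4.mp hh)
    have h7 := le_antisymm h5 (not_lt.mp h6)
    simpa using h7
  have hdet : IsUnit (G.map (Int.cast : ℤ → ℤ_[p])).det := by
    have h1 : (G.map (Int.cast : ℤ → ℤ_[p])).det = ((G.det : ℤ) : ℤ_[p]) := by
      have := (Int.castRingHom ℤ_[p]).map_det G
      simpa using this.symm
    rw [h1, PadicInt.isUnit_iff]
    have h4 := PadicInt.norm_int_lt_one_iff_dvd (p := p) G.det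
    exact le_antisymm (PadicInt.norm_le_one _) (not_lt.mp fun hh => hd (h4.mp hh))
  have hs' : (G.map (Int.cast : ℤ → ℤ_[p])).IsSymm := by
    rw [Matrix.IsSymm, ← Matrix.transpose_map, hG]
  obtain ⟨Q, a, hQ, ha, hQa⟩ := Pool.Agent.Helper54.HQ.hHg0 ℤ_[p] h2 n _ hs' hdet
  have hn1 : ∀ i, ‖(a i : ℚ_[p])‖ = 1 := by
    intro i
    rw [← PadicInt.norm_def]
    exact PadicInt.isUnit_iff.mp (ha i)
  have hne : ∀ i, (a i : ℚ_[p]) ≠ 0 := by
    intro i h0
    have h1 := hn1 i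
    rw [h0, norm_zero] at h1
    exact zero_ne_one h1
  have hval : ∀ i, v2 p (a i : ℚ_[p]) = 0 := by
    intro i
    have h1 := hn1 i
    have h0 := hne i
    have h3 : ((a i : ℚ_[p])).valuation = 0 := by
      have h4 := Padic.norm_eq_zpow_neg_valuation h0
      rw [h1] at h4
      have hp1 : (1 : ℝ) < (p : ℝ) := by exact_mod_cast (Fact.out : p.Prime).one_lt
      have h5 : -((a i : ℚ_[p])).valuation = 0 := by
        have := zpow_right_injective₀ (by linarith : (0 : ℝ) < p) hp1.ne' (a₁ := -((a i : ℚ_[p])).valuation) (a₂ := 0)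
          (by simpa using h4.symm)
        exact this
      linarith
    rw [v2, h3]
    simp
  refine ⟨Q.map (PadicInt.Coe.ringHom (p := p)), fun i => (a i : ℚ_[p]), ?_, ?_, ?_, ?_⟩
  · have h1 : (Q.map (PadicInt.Coe.ringHom (p := p))).det = PadicInt.Coe.ringHom Q.det := by
      have := (PadicInt.Coe.ringHom (p := p)).map_det Q
      simpa using this.symm
    rw [h1]
    exact hQ.map _
  · exact hne
  · have h1 : G.map (Int.cast : ℤ → ℚ_[p]) =
        (G.map (Int.cast : ℤ → ℤ_[p])).map (PadicInt.Coe.ringHom (p := p)) := by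
      ext i j
      simp
    rw [h1, ← Matrix.transpose_map, ← Matrix.map_mul, ← Matrix.map_mul, hQa, Matrix.diagonal_map (map_zero _)]
    rfl
  · unfold hasse
    refine Finset.sum_eq_zero fun x _ => ?_
    split_ifs
    · rw [hs, hval, hval]
      ring
    · rfl

theorem hB7 : StB7 := by
  intro h2 h3 h4 K _ _ n ω δ hδ p _ hp2 z hz hom
  obtain ⟨y, a, hy, hya, hv⟩ := h2 K p Fact.out z hz
  have hav : ∀ v : HeightOneSpectrum (𝓞 K), (p : 𝓞 K) ∈ v.asIdeal → a ∉ v.asIdeal :=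
    fun v hpv => (hv v hpv).1 (hom v hpv)
  obtain ⟨-, -, ⟨ε, hε, hdet⟩, hint⟩ := h3 K n ω δ hδ
  obtain ⟨G, hG, hGa⟩ := hint a
  have hN := norm_B7 (Fact.out : p.Prime) a hav
  have hGd : ¬ (p : ℤ) ∣ G.det := by
    have h1 : ((G.det : ℤ) : ℚ) = ((ε * Algebra.norm ℤ a : ℤ) : ℚ) := by
      have h5 := hdet (a : K)
      rw [hGa] at h5
      have h6 : (G.map (Int.cast : ℤ → ℚ)).det = ((G.det : ℤ) : ℚ) := by
        have := (Int.castRingHom ℚ).map_det G
        simpa using this.symm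
      rw [h6] at h5
      rw [h5, Int.cast_mul, Algebra.coe_norm_int]
    have h2' : G.det = ε * Algebra.norm ℤ a := by exact_mod_cast h1
    rw [h2']
    rcases hε with h | h
    · rw [h, one_mul]
      exact hN
    · rw [h, neg_one_mul, dvd_neg]
      exact hN
  obtain ⟨P, b, hP, hb, hPb, hh⟩ := unit_B7 p hp2 n G hG hGd
  obtain ⟨M, hM, hMz⟩ := h4 K n ω δ ℚ_[p] (y ^ 2) z (pow_ne_zero 2 hy)
    ⟨(1 : ℚ_[p]) ⊗ₜ[ℚ] y, by rw [Algebra.TensorProduct.tmul_mul_tmul, one_mul, sq]⟩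
  refine ⟨M * P, b, ?_, hb, ?_, hh⟩
  · rw [Matrix.det_mul]
    exact hM.mul hP
  · rw [mul_comm (y ^ 2) z, hya, hGa] at hMz
    have h5 : (G.map (Int.cast : ℤ → ℚ)).map (algebraMap ℚ ℚ_[p]) = G.map (Int.cast : ℤ → ℚ_[p]) := by
      ext i j
      simp
    rw [h5] at hMz
    rw [← hPb, hMz, Matrix.transpose_mul]
    simp only [Matrix.mul_assoc]

end Pool.TW
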