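import Pool.Agent.Helper34.TW.StB
import Pool.Agent.Helper54.HQ.M_Hc0
import Pool.Agent.Helper54.HQ.M_Hc
import Pool.Agent.Helper54.HQ.M_Hf
import Pool.Agent.Helper54.HQ.M_Hg0

/-!
# Project TW, module B8 : the Hasse invariant of a form with two Jordan blocks
-/

set_option autoImplicit false

open Matrix
open Pool.Agent.Helper54.HQ (hs hasse lg ur v2 hHc0 hHg0 lg_mul_Hc lg_one_Hf ur_p_Hf v2_p_Hf)

namespace Pool.TW

private lemma sum_lt_B8 {n : ℕ} (v l : Fin n → ZMod 2) :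
    (∑ p : Fin n × Fin n, if p.1 < p.2 then (v p.2 * l p.1 + v p.1 * l p.2) else 0) =
      (∑ i, l i) * (∑ j, v j) + ∑ i, v i * l i := by
  have h1 : (∑ i, l i) * (∑ j, v j) = ∑ p : Fin n × Fin n, l p.1 * v p.2 := by
    rw [Finset.sum_mul_sum, Fintype.sum_prod_type]
  have h2 : ∀ p : Fin n × Fin n, l p.1 * v p.2 = (if p.1 < p.2 then v p.2 * l p.1 else 0) +
      (if p.2 < p.1 then v p.2 * l p.1 else 0) + (if p.1 = p.2 then v p.1 * l p.1 else 0) := by
    intro p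
    rcases lt_trichotomy p.1 p.2 with h | h | h
    · rw [if_pos h, if_neg (not_lt.2 h.le), if_neg h.ne]
      ring
    · rw [if_neg (by rw [h]; exact lt_irrefl _), if_neg (by rw [h]; exact lt_irrefl _), if_pos h, h]
      ring
    · rw [if_neg (not_lt.2 h.le), if_pos h, if_neg h.ne']
      ring
  have h3 : (∑ p : Fin n × Fin n, if p.2 < p.1 then v p.2 * l p.1 else 0) =
      ∑ p : Fin n × Fin n, if p.1 < p.2 then v p.1 * l p.2 else 0 :=
    Fintype.sum_equiv (Equiv.prodComm _ _) _ _ (fun p => rfl)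
  have h4 : (∑ p : Fin n × Fin n, if p.1 = p.2 then v p.1 * l p.1 else 0) = ∑ i, v i * l i := by
    rw [Fintype.sum_prod_type]
    refine Finset.sum_congr rfl fun i _ => ?_
    simp
  have h5 : (∑ p : Fin n × Fin n, if p.1 < p.2 then (v p.2 * l p.1 + v p.1 * l p.2) else 0) =
      (∑ p : Fin n × Fin n, if p.1 < p.2 then v p.2 * l p.1 else 0) +
      ∑ p : Fin n × Fin n, if p.1 < p.2 then v p.1 * l p.2 else 0 := by
    rw [← Finset.sum_add_distrib]
    refine Finset.sum_congr rfl fun p _ => ?_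
    split_ifs
    · rfl
    · rw [add_zero]
  rw [h1, Finset.sum_congr rfl fun p _ => h2 p, Finset.sum_add_distrib, Finset.sum_add_distrib, h3,
    h4, h5, add_assoc, CharTwo.add_self_eq_zero, add_zero]

section loc

variable (q : ℕ) [Fact q.Prime]

/-- quadratic character of a `q`-adic integer -/
private noncomputable def L_B8 (x : ℤ_[q]) : ZMod 2 := lg (PadicInt.toZMod x : ZMod q)

private lemma unit_B8 {x : ℤ_[q]} (h : (PadicInt.toZMod x : ZMod q) ≠ 0) : IsUnit x := by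
  by_contra hx
  apply h
  have h1 : x ∈ RingHom.ker (PadicInt.toZMod : ℤ_[q] →+* ZMod q) := by
    rw [PadicInt.ker_toZMod, IsLocalRing.mem_maximalIdeal]
    exact hx
  exact h1

private lemma ne_B8 {x : ℤ_[q]} (h : IsUnit x) : (PadicInt.toZMod x : ZMod q) ≠ 0 :=
  (h.map (PadicInt.toZMod (p := q))).ne_zero

private lemma L_mul_B8 {x y : ℤ_[q]} (hx : IsUnit x) (hy : IsUnit y) :
    L_B8 q (x * y) = L_B8 q x + L_B8 q y := by
  unfold L_B8
  rw [map_mul, lg_mul_Hc q (ne_B8 q hx) (ne_B8 q hy)]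

private lemma L_sq_B8 {x y : ℤ_[q]} (hx : IsUnit x) (hy : IsUnit y) :
    L_B8 q (x * x * y) = L_B8 q y := by
  rw [L_mul_B8 q (hx.mul hx) hy, L_mul_B8 q hx hx, CharTwo.add_self_eq_zero, zero_add]

private lemma L_prod_B8 {ι : Type} (s : Finset ι) (a : ι → ℤ_[q]) (ha : ∀ i, IsUnit (a i)) :
    L_B8 q (∏ i ∈ s, a i) = ∑ i ∈ s, L_B8 q (a i) := by
  classical
  have hu : ∀ s : Finset ι, IsUnit (∏ i ∈ s, a i) := by
    intro s
    induction s using Finset.induction_on with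
    | empty => simp
    | insert i s hi ih =>
      rw [Finset.prod_insert hi]
      exact (ha i).mul ih
  induction s using Finset.induction_on with
  | empty =>
    rw [Finset.prod_empty, Finset.sum_empty, L_B8, map_one, lg_one_Hf]
  | insert i s hi ih =>
    rw [Finset.prod_insert hi, Finset.sum_insert hi, L_mul_B8 q (ha i) (hu s), ih]

private lemma val_B8 {x : ℤ_[q]} (h : IsUnit x) : (x : ℚ_[q]).valuation = 0 := by
  have h1 : ‖(x : ℚ_[q])‖ = 1 := by
    rw [PadicInt.padic_norm_e_of_padicInt]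
    exact PadicInt.isUnit_iff.1 h
  refine Pool.Agent.Helper54.HQ.val_of_norm_Hc q ?_ h1
  intro h0
  rw [h0, norm_zero] at h1
  exact zero_ne_one h1

private lemma cne_B8 {x : ℤ_[q]} (h : IsUnit x) : (x : ℚ_[q]) ≠ 0 := by
  intro h0
  exact h.ne_zero (Subtype.ext h0)

private lemma ur_unit_B8 {x : ℤ_[q]} (h : IsUnit x) : ur q (x : ℚ_[q]) = x := by
  apply Subtype.ext
  exact (hHc0 q).2.2 (x : ℚ_[q]) (cne_B8 q h) (val_B8 q h)

private lemma v2_unit_B8 {x : ℤ_[q]} (h : IsUnit x) : v2 q (x : ℚ_[q]) = 0 := by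
  rw [v2, val_B8 q h]
  rfl

private lemma qne_B8 : (q : ℚ_[q]) ≠ 0 := by exact_mod_cast (Fact.out : q.Prime).ne_zero

private lemma ur_q_B8 {x : ℤ_[q]} (h : IsUnit x) : ur q ((q : ℚ_[q]) * (x : ℚ_[q])) = x := by
  rw [((hHc0 q).2.1 _ _ (qne_B8 q) (cne_B8 q h)).1, ur_p_Hf q hHc0, one_mul, ur_unit_B8 q h]

private lemma v2_q_B8 {x : ℤ_[q]} (h : IsUnit x) : v2 q ((q : ℚ_[q]) * (x : ℚ_[q])) = 1 := by
  rw [((hHc0 q).2.1 _ _ (qne_B8 q) (cne_B8 q h)).2, v2_p_Hf, v2_unit_B8 q h, add_zero]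

private lemma hasse_B8 (hq : q % 4 = 1) {n : ℕ} (c : Fin n → ℚ_[q]) :
    hasse (hs q) c = (∑ i, lg (PadicInt.toZMod (ur q (c i)) : ZMod q)) * (∑ j, v2 q (c j)) +
      ∑ i, v2 q (c i) * lg (PadicInt.toZMod (ur q (c i)) : ZMod q) := by
  rw [← sum_lt_B8, hasse]
  have h1 : lg (-1 : ZMod q) = 0 := by
    have h2 : IsSquare (-1 : ZMod q) := by
      rw [ZMod.exists_sq_eq_neg_one_iff]
      omega
    rw [lg, if_pos h2]
  refine Finset.sum_congr rfl fun p _ => ?_
  rw [hs, h1, mul_zero, zero_add]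

end loc

theorem hB8 : StB8 := by
  classical
  intro q _ hq4 n n₀ n₁ G hG hn₁ P₀ P₀' hP1 hP2 A₀ hA₀ hPG u hu hdet hlu
  have hcard : n = n₀ + n₁ := by
    have := Matrix.square_of_invertible P₀ P₀' hP1 hP2
    simpa using this
  subst hcard
  have hq2 : q ≠ 2 := by omega
  have hφs : Function.Surjective (PadicInt.toZMod : ℤ_[q] →+* ZMod q) := ZMod.ringHom_surjective _
  obtain ⟨lift, hlift⟩ := hφs.hasRightInverse
  have h2u : IsUnit (2 : ℤ_[q]) := by
    apply unit_B8 q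
    rw [map_ofNat]
    intro h
    have h3 : ((2 : ℕ) : ZMod q) = 0 := by exact_mod_cast h
    rw [ZMod.natCast_eq_zero_iff] at h3
    exact hq2 ((Nat.prime_dvd_prime_iff_eq Fact.out Nat.prime_two).1 h3)
  let e : Fin n₀ ⊕ Fin n₁ ≃ Fin (n₀ + n₁) := finSumFinEquiv
  let P : Matrix (Fin (n₀ + n₁)) (Fin n₀ ⊕ Fin n₁) ℤ_[q] := P₀.map lift
  have hP : P.map (PadicInt.toZMod : ℤ_[q] →+* ZMod q) = P₀ := by
    ext i j
    exact hlift _
  let PS : Matrix (Fin (n₀ + n₁)) (Fin (n₀ + n₁)) ℤ_[q] := P.submatrix id e.symm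
  have hPS : IsUnit PS.det := by
    apply unit_B8 q
    rw [RingHom.map_det]
    intro h0
    have h1 : (PadicInt.toZMod : ℤ_[q] →+* ZMod q).mapMatrix PS * (P₀'.submatrix e.symm id) = 1 := by
      have h2 : (PadicInt.toZMod : ℤ_[q] →+* ZMod q).mapMatrix PS = P₀.submatrix id e.symm := by
        rw [← hP]
        rfl
      rw [h2, Matrix.submatrix_mul_equiv, hP1, Matrix.submatrix_id_id]
    have h3 := congrArg Matrix.det h1
    rw [Matrix.det_mul, h0, zero_mul, Matrix.det_one] at h3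
    exact zero_ne_one h3
  set H : Matrix (Fin n₀ ⊕ Fin n₁) (Fin n₀ ⊕ Fin n₁) ℤ_[q] := Pᵀ * G * P with hH
  have hHs : Hᵀ = H := by
    rw [hH, Matrix.transpose_mul, Matrix.transpose_mul, Matrix.transpose_transpose, hG,
      Matrix.mul_assoc]
  have hHφ : H.map (PadicInt.toZMod : ℤ_[q] →+* ZMod q) = fromBlocks A₀ 0 0 0 := by
    rw [← hPG, hH, Matrix.map_mul, Matrix.map_mul, Matrix.transpose_map, hP]
  have hHsij : ∀ i j, H i j = H j i := fun i j => by
    conv_lhs => rw [← hHs]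
    rfl
  have hHφij : ∀ i j, PadicInt.toZMod (H i j) = (fromBlocks A₀ 0 0 0 : Matrix _ _ (ZMod q)) i j :=
    fun i j => by rw [← hHφ]; rfl
  set A : Matrix (Fin n₀) (Fin n₀) ℤ_[q] := H.toBlocks₁₁ with hA
  set B : Matrix (Fin n₀) (Fin n₁) ℤ_[q] := H.toBlocks₁₂ with hB
  set C : Matrix (Fin n₁) (Fin n₁) ℤ_[q] := H.toBlocks₂₂ with hC
  have hHb : H = fromBlocks A B Bᵀ C := by
    have h1 : H.toBlocks₂₁ = Bᵀ := by
      ext i j
      exact hHsij _ _
    rw [← h1]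
    exact (fromBlocks_toBlocks H).symm
  have hAs : Aᵀ = A := by
    ext i j
    exact hHsij _ _
  have hCs : Cᵀ = C := by
    ext i j
    exact hHsij _ _
  have hAφ : A.map (PadicInt.toZMod : ℤ_[q] →+* ZMod q) = A₀ := by
    ext i j
    exact hHφij (Sum.inl i) (Sum.inl j)
  have hBφ : B.map (PadicInt.toZMod : ℤ_[q] →+* ZMod q) = 0 := by
    ext i j
    exact hHφij (Sum.inl i) (Sum.inr j)
  have hCφ : C.map (PadicInt.toZMod : ℤ_[q] →+* ZMod q) = 0 := by
    ext i j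
    exact hHφij (Sum.inr i) (Sum.inr j)
  have hAd : PadicInt.toZMod A.det = A₀.det := by
    rw [RingHom.map_det, ← hAφ]
    rfl
  have hAu : IsUnit A.det := unit_B8 q (by rw [hAd]; exact hA₀)
  -- the Schur complement
  set D : Matrix (Fin n₁) (Fin n₁) ℤ_[q] := C - Bᵀ * A⁻¹ * B with hD
  have hAis : (A⁻¹)ᵀ = A⁻¹ := by rw [Matrix.transpose_nonsing_inv, hAs]
  have hDs : Dᵀ = D := by
    rw [hD, Matrix.transpose_sub, Matrix.transpose_mul, Matrix.transpose_mul,
      Matrix.transpose_transpose, hAis, hCs, Matrix.mul_assoc]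
  let T : Matrix (Fin n₀ ⊕ Fin n₁) (Fin n₀ ⊕ Fin n₁) ℤ_[q] := fromBlocks 1 (-(A⁻¹ * B)) 0 1
  have hTd : T.det = 1 := by
    rw [Matrix.det_fromBlocks_zero₂₁, Matrix.det_one, Matrix.det_one, one_mul]
  have hT : Tᵀ * H * T = fromBlocks A 0 0 D := by
    have e1 : (A⁻¹ * B)ᵀ * A = Bᵀ := by
      rw [Matrix.transpose_mul, hAis, Matrix.mul_assoc, Matrix.nonsing_inv_mul A hAu,
        Matrix.mul_one]
    have e2 : A * (A⁻¹ * B) = B := by
      rw [← Matrix.mul_assoc, Matrix.mul_nonsing_inv A hAu, Matrix.one_mul]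
    have e3 : (A⁻¹ * B)ᵀ * B = Bᵀ * A⁻¹ * B := by
      rw [Matrix.transpose_mul, hAis]
    rw [hHb, Matrix.fromBlocks_transpose, Matrix.fromBlocks_multiply, Matrix.fromBlocks_multiply]
    simp only [Matrix.transpose_one, Matrix.transpose_zero, Matrix.transpose_neg, Matrix.one_mul,
      Matrix.zero_mul, Matrix.mul_zero, Matrix.mul_one, add_zero, Matrix.neg_mul, Matrix.mul_neg,
      e1, e2, e3]
    have e4 : -Bᵀ + Bᵀ = (0 : Matrix (Fin n₁) (Fin n₀) ℤ_[q]) := neg_add_cancel _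
    rw [hD]
    simp only [e4, Matrix.zero_mul, neg_zero, zero_add]
    congr 1 <;> abel
  have hDφ : ∀ i j, PadicInt.toZMod (D i j) = 0 := by
    intro i j
    have h1 : D.map (PadicInt.toZMod : ℤ_[q] →+* ZMod q) = 0 := by
      rw [hD]
      rw [Matrix.map_sub (PadicInt.toZMod : ℤ_[q] →+* ZMod q) (map_sub _), Matrix.map_mul, hBφ,
        hCφ, Matrix.mul_zero, sub_zero]
    exact congrFun (congrFun h1 i) j
  have hq0 : (q : ℤ_[q]) ≠ 0 := by
    exact_mod_cast (Fact.out : q.Prime).ne_zero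
  have hDd : ∀ i j, ∃ y : ℤ_[q], D i j = (q : ℤ_[q]) * y := by
    intro i j
    have h1 : D i j ∈ RingHom.ker (PadicInt.toZMod : ℤ_[q] →+* ZMod q) := hDφ i j
    rw [PadicInt.ker_toZMod, PadicInt.maximalIdeal_eq_span_p, Ideal.mem_span_singleton] at h1
    exact h1
  choose C' hC' using hDd
  have hDC : D = (q : ℤ_[q]) • (Matrix.of C') := by
    ext i j
    exact hC' i j
  set E : Matrix (Fin n₁) (Fin n₁) ℤ_[q] := Matrix.of C' with hE
  have hEs : Eᵀ = E := by
    ext i j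
    apply mul_left_cancel₀ hq0
    show (q : ℤ_[q]) * C' j i = q * C' i j
    rw [← hC', ← hC']
    conv_lhs => rw [← hDs]
    rfl
  -- determinants
  have hdH : H.det = PS.det * PS.det * G.det := by
    have h1 : H.submatrix e.symm e.symm = PSᵀ * G * PS := by
      rw [hH]
      ext i j
      simp only [Matrix.submatrix_apply, Matrix.mul_apply, Matrix.transpose_apply, PS, id_eq]
    rw [← Matrix.det_submatrix_equiv_self e.symm H, h1, Matrix.det_mul, Matrix.det_mul,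
      Matrix.det_transpose]
    ring
  have hdH2 : H.det = A.det * ((q : ℤ_[q]) ^ n₁ * E.det) := by
    have h1 := congrArg Matrix.det hT
    rw [Matrix.det_mul, Matrix.det_mul, Matrix.det_transpose, hTd, one_mul, mul_one,
      Matrix.det_fromBlocks_zero₂₁, hDC, Matrix.det_smul, Fintype.card_fin] at h1
    exact h1
  have hde : PS.det * PS.det * u = A.det * E.det := by
    have hqn : (q : ℤ_[q]) ^ n₁ ≠ 0 := pow_ne_zero _ hq0
    apply mul_left_cancel₀ hqn
    rw [hdH, hdet] at hdH2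
    linear_combination hdH2
  have hEu : IsUnit E.det := by
    have h1 : IsUnit (A.det * E.det) := by
      rw [← hde]
      exact (hPS.mul hPS).mul hu
    exact isUnit_of_mul_isUnit_right h1
  have hLAE : L_B8 q A.det = L_B8 q E.det := by
    have h1 := L_sq_B8 q hPS hu
    rw [hde, L_mul_B8 q hAu hEu] at h1
    have h2 : L_B8 q u = 0 := hlu
    rw [h2] at h1
    exact CharTwo.add_eq_zero.1 h1
  -- diagonalisation
  obtain ⟨Q₀, a, hQ₀, ha, hQa⟩ := hHg0 ℤ_[q] h2u n₀ A hAs hAu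
  obtain ⟨Q₁, b, hQ₁, hb, hQb⟩ := hHg0 ℤ_[q] h2u n₁ E hEs hEu
  have hLb : ∑ j, L_B8 q (b j) = L_B8 q E.det := by
    rw [← L_prod_B8 q Finset.univ b hb, ← Matrix.det_diagonal, ← hQb, Matrix.det_mul,
      Matrix.det_mul, Matrix.det_transpose]
    have : Q₁.det * E.det * Q₁.det = Q₁.det * Q₁.det * E.det := by ring
    rw [this, L_sq_B8 q hQ₁ hEu]
  let W : Matrix (Fin n₀ ⊕ Fin n₁) (Fin n₀ ⊕ Fin n₁) ℤ_[q] := fromBlocks Q₀ 0 0 Q₁
  have hWd : IsUnit W.det := by
    rw [Matrix.det_fromBlocks_zero₂₁]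
    exact hQ₀.mul hQ₁
  let d : Fin n₀ ⊕ Fin n₁ → ℤ_[q] := Sum.elim a (fun j => (q : ℤ_[q]) * b j)
  have hW : Wᵀ * (fromBlocks A 0 0 D) * W = diagonal d := by
    have e1 : Q₁ᵀ * D * Q₁ = diagonal (fun j => (q : ℤ_[q]) * b j) := by
      rw [hDC, Matrix.mul_smul, Matrix.smul_mul, hQb]
      ext i j
      rw [Matrix.smul_apply, Matrix.diagonal_apply, Matrix.diagonal_apply]
      split_ifs
      · rfl
      · exact smul_zero _
    rw [Matrix.fromBlocks_transpose, Matrix.fromBlocks_multiply, Matrix.fromBlocks_multiply]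
    simp only [Matrix.transpose_zero, Matrix.zero_mul, Matrix.mul_zero, add_zero, zero_add, hQa, e1]
    exact Matrix.fromBlocks_diagonal _ _
  let RS : Matrix (Fin (n₀ + n₁)) (Fin (n₀ + n₁)) ℤ_[q] :=
    PS * T.submatrix e.symm e.symm * W.submatrix e.symm e.symm
  have hRSd : IsUnit RS.det := by
    rw [Matrix.det_mul, Matrix.det_mul, Matrix.det_submatrix_equiv_self,
      Matrix.det_submatrix_equiv_self, hTd, mul_one]
    exact hPS.mul hWd
  have hRSe : RS = (P * T * W).submatrix id e.symm := by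
    show P.submatrix id e.symm * T.submatrix e.symm e.symm * W.submatrix e.symm e.symm = _
    rw [Matrix.submatrix_mul_equiv, Matrix.submatrix_mul_equiv]
  have hRS : RSᵀ * G * RS = diagonal (fun i => d (e.symm i)) := by
    have h1 : (P * T * W)ᵀ * G * (P * T * W) = diagonal d := by
      rw [← hW, ← hT, hH]
      simp only [Matrix.transpose_mul, Matrix.mul_assoc]
    have h2 : RSᵀ * G * RS = ((P * T * W)ᵀ * G * (P * T * W)).submatrix e.symm e.symm := by
      rw [hRSe]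
      ext i j
      simp only [Matrix.submatrix_apply, Matrix.mul_apply, Matrix.transpose_apply, id_eq]
    rw [h2, h1]
    ext i j
    rw [Matrix.submatrix_apply, Matrix.diagonal_apply, Matrix.diagonal_apply]
    simp only [EmbeddingLike.apply_eq_iff_eq]
  have hdn : ∀ s, ((d s : ℤ_[q]) : ℚ_[q]) ≠ 0 := by
    rintro (i | j)
    · exact cne_B8 q (ha i)
    · show (((q : ℤ_[q]) * b j : ℤ_[q]) : ℚ_[q]) ≠ 0
      rw [PadicInt.coe_mul, PadicInt.coe_natCast]
      exact mul_ne_zero (qne_B8 q) (cne_B8 q (hb j))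
  refine ⟨RS.map (algebraMap ℤ_[q] ℚ_[q]), fun i => ((d (e.symm i) : ℤ_[q]) : ℚ_[q]), ?_,
    fun i => hdn _, ?_, ?_⟩
  · have h1 : (RS.map (algebraMap ℤ_[q] ℚ_[q])).det = algebraMap ℤ_[q] ℚ_[q] RS.det := by
      rw [RingHom.map_det]
      rfl
    rw [h1]
    exact hRSd.map _
  · rw [← Matrix.transpose_map, ← Matrix.map_mul, ← Matrix.map_mul, hRS,
      Matrix.diagonal_map (map_zero _)]
    rfl
  · rw [hasse_B8 q hq4]
    have key1 : ∀ i, v2 q (((a i : ℤ_[q])) : ℚ_[q]) = 0 := fun i => v2_unit_B8 q (ha i)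
    have key2 : ∀ j, v2 q (((d (Sum.inr j) : ℤ_[q])) : ℚ_[q]) = 1 := fun j => by
      show v2 q ((((q : ℤ_[q]) * b j : ℤ_[q])) : ℚ_[q]) = 1
      rw [PadicInt.coe_mul, PadicInt.coe_natCast]
      exact v2_q_B8 q (hb j)
    have key3 : ∀ j, ur q (((d (Sum.inr j) : ℤ_[q])) : ℚ_[q]) = b j := fun j => by
      show ur q ((((q : ℤ_[q]) * b j : ℤ_[q])) : ℚ_[q]) = b j
      rw [PadicInt.coe_mul, PadicInt.coe_natCast]
      exact ur_q_B8 q (hb j)
    have s1 : (∑ j : Fin (n₀ + n₁), v2 q ((d (e.symm j) : ℤ_[q]) : ℚ_[q])) = 0 := by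
      rw [Equiv.sum_comp e.symm (fun s => v2 q ((d s : ℤ_[q]) : ℚ_[q])), Fintype.sum_sum_type]
      have t1 : (∑ x : Fin n₀, v2 q ((d (Sum.inl x) : ℤ_[q]) : ℚ_[q])) = 0 :=
        Finset.sum_eq_zero fun i _ => key1 i
      rw [t1, Finset.sum_congr rfl fun j _ => key2 j, Finset.sum_const, Finset.card_univ,
        Fintype.card_fin, nsmul_eq_mul, mul_one, zero_add]
      exact (ZMod.natCast_eq_zero_iff_even).2 hn₁
    have s2 : (∑ i : Fin (n₀ + n₁), v2 q ((d (e.symm i) : ℤ_[q]) : ℚ_[q]) *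
        lg (PadicInt.toZMod (ur q ((d (e.symm i) : ℤ_[q]) : ℚ_[q])) : ZMod q)) =
        L_B8 q E.det := by
      rw [Equiv.sum_comp e.symm (fun s => v2 q ((d s : ℤ_[q]) : ℚ_[q]) *
        lg (PadicInt.toZMod (ur q ((d s : ℤ_[q]) : ℚ_[q])) : ZMod q)), Fintype.sum_sum_type]
      have t1 : (∑ x : Fin n₀, v2 q ((d (Sum.inl x) : ℤ_[q]) : ℚ_[q]) *
          lg (PadicInt.toZMod (ur q ((d (Sum.inl x) : ℤ_[q]) : ℚ_[q])) : ZMod q)) = 0 :=
        Finset.sum_eq_zero fun i _ => by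
          show v2 q ((a i : ℤ_[q]) : ℚ_[q]) * _ = 0
          rw [key1, zero_mul]
      rw [t1, zero_add, ← hLb]
      refine Finset.sum_congr rfl fun j _ => ?_
      rw [key2, key3, one_mul]
      rfl
    rw [s1, s2, mul_zero, zero_add, ← hLAE, L_B8, hAd]

end Pool.TW
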