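import Pool.Agent.Helper34.TW.StB

/-!
# Project TW, module B9: the primes of `Q`
-/

set_option autoImplicit false

open scoped NumberField TensorProduct nonZeroDivisors
open NumberField Matrix IsDedekindDomain
open Pool.Agent.Helper54.HQ (Prm hs hs2 hsR hasse IsSym lg)

namespace Pool.TW

/-- the Hasse invariant does not change under a change of basis -/
private theorem Hs_trans_B9 {F : Type} [Field F] (s : F → F → ZMod 2) {n : ℕ}
    (G M : Matrix (Fin n) (Fin n) F) (hM : IsUnit M.det) (h : ZMod 2) (hG : Hs s G h) :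
    Hs s (Mᵀ * G * M) h := by
  obtain ⟨P, a, hP, ha, hd, hh⟩ := hG
  refine ⟨M⁻¹ * P, a, ?_, ha, ?_, hh⟩
  · rw [Matrix.det_mul]
    exact ((Matrix.isUnit_nonsing_inv_det_iff).2 hM).mul hP
  · have h1 : M * (M⁻¹ * P) = P := by
      rw [← Matrix.mul_assoc, Matrix.mul_nonsing_inv M hM, Matrix.one_mul]
    have h2 : (M⁻¹ * P)ᵀ * Mᵀ = Pᵀ := by
      rw [← Matrix.transpose_mul, h1]
    calc (M⁻¹ * P)ᵀ * (Mᵀ * G * M) * (M⁻¹ * P)
        = ((M⁻¹ * P)ᵀ * Mᵀ) * G * (M * (M⁻¹ * P)) := by simp only [Matrix.mul_assoc]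
      _ = Matrix.diagonal a := by rw [h1, h2, hd]

/-- if `q ^ k * m` is a rational square and `q` does not divide `m` then `k` is even and `m` is a square -/
private theorem sq_norm_B9 (q : ℕ) [hq : Fact q.Prime] (k : ℕ) (m : ℤ) (hm : ¬ (q : ℤ) ∣ m)
    (h : IsSquare ((q : ℚ) ^ k * m)) : Even k ∧ IsSquare m := by
  have hq0 : (q : ℚ) ≠ 0 := by exact_mod_cast hq.out.ne_zero
  have hm0 : (m : ℚ) ≠ 0 := by
    intro h0
    apply hm
    have : m = 0 := by exact_mod_cast h0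
    rw [this]
    exact dvd_zero _
  have hk : Even k := by
    obtain ⟨r, hr⟩ := h
    have hr0 : r ≠ 0 := by
      rintro rfl
      rw [mul_zero] at hr
      exact (mul_ne_zero (pow_ne_zero k hq0) hm0) hr
    have h1 := congrArg (padicValRat q) hr
    rw [padicValRat.mul (pow_ne_zero k hq0) hm0, padicValRat.mul hr0 hr0, padicValRat.pow,
      padicValRat.self hq.out.one_lt, padicValRat.of_int,
      padicValInt.eq_zero_of_not_dvd hm] at h1
    have h2 : (k : ℤ) = padicValRat q r + padicValRat q r := by simpa using h1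
    have h3 : Even (k : ℤ) := ⟨_, h2⟩
    exact_mod_cast h3
  refine ⟨hk, ?_⟩
  obtain ⟨l, hl⟩ := hk
  rw [← Rat.isSquare_intCast_iff]
  obtain ⟨r, hr⟩ := h
  refine ⟨r / (q : ℚ) ^ l, ?_⟩
  rw [hl, pow_add] at hr
  field_simp
  rw [pow_two, pow_two, ← hr]
  ring

/-- **B9** the primes of `Q` -/
theorem hB9 (h9a : StB9a) (h9b : StB9b) : StB9 := by
  intro hB1 hB2 hB3 hB4 hB8 hB9c hB9d K _ _ n ω δ hδ q hq V hq4 hV
  obtain ⟨c, hc⟩ := hB9c hB3 h9a h9b K n ω δ hδ q V hV (hB9d K δ hδ q V hV)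
  refine ⟨c, ?_⟩
  intro z hz hN
  obtain ⟨y, a, hy, hza, hav⟩ := hB2 K q hq.out z hz
  have hzy : z * y ^ 2 ≠ 0 := mul_ne_zero hz (pow_ne_zero 2 hy)
  have haK : (a : K) ≠ 0 := hza ▸ hzy
  have ha0 : a ≠ 0 := by
    rintro rfl
    exact haK (by simp)
  have h01 : ∀ v : HeightOneSpectrum (𝓞 K), om v z = 0 ∨ om v z = 1 := by
    intro v
    unfold om
    split_ifs
    · exact Or.inl rfl
    · exact Or.inr rfl
  have hvq : ∀ v ∈ V, (q : 𝓞 K) ∈ v.asIdeal := fun v hv => (hV.mem v).1 hv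
  have hsq : ∀ v ∈ V, a ∉ v.asIdeal ^ 2 := by
    intro v hv
    rcases h01 v with h | h
    · intro h2
      exact (hav v (hvq v hv)).1 h (Ideal.pow_le_self two_ne_zero h2)
    · exact ((hav v (hvq v hv)).2 h).2
  have hx : ∀ v ∈ V, (a ∉ v.asIdeal → om v z = 0) ∧ (a ∈ v.asIdeal → om v z = 1) := by
    intro v hv
    rcases h01 v with h | h
    · exact ⟨fun _ => h, fun h2 => absurd h2 ((hav v (hvq v hv)).1 h)⟩
    · exact ⟨fun h2 => absurd ((hav v (hvq v hv)).2 h).1 h2, fun _ => h⟩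
  obtain ⟨-, -, ⟨ε, hε, hdet⟩, hint⟩ := hB3 K n ω δ hδ
  obtain ⟨G, hGt, hG⟩ := hint a
  obtain ⟨n₀, n₁, P₀, P₀', A₀, m, hPP, hPP', hA₀, hblk, hlg, hnorm, hqm⟩ :=
    hc a ha0 hsq (fun v => om v z) hx G hG
  -- the norm
  have hNa : IsSquare (Algebra.norm ℚ (a : K)) := by
    have h1 : (a : K) = z * (y * y) := by
      rw [← hza, pow_two]
    rw [h1, map_mul, map_mul]
    exact hN.mul ⟨_, rfl⟩
  rw [hnorm] at hNa
  obtain ⟨hn₁, hm⟩ := sq_norm_B9 q n₁ m hqm hNa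
  have hεm : ¬ (q : ℤ) ∣ ε * m := by
    rcases hε with h | h <;> rw [h] <;> simpa using hqm
  -- the determinant
  have hdG : G.det = (q : ℤ) ^ n₁ * (ε * m) := by
    have h1 := hdet (a : K)
    rw [hG, hnorm] at h1
    have h2 : (G.map (Int.cast : ℤ → ℚ)).det = ((G.det : ℤ) : ℚ) := by
      have := RingHom.map_det (Int.castRingHom ℚ) G
      simpa using this.symm
    rw [h2] at h1
    have h3 : ((G.det : ℤ) : ℚ) = (((q : ℤ) ^ n₁ * (ε * m) : ℤ) : ℚ) := by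
      rw [h1]
      push_cast
      ring
    exact_mod_cast h3
  have hunit : IsUnit (((ε * m : ℤ)) : ℤ_[q]) := by
    rw [PadicInt.isUnit_iff]
    by_contra hne
    have h1 : ‖(((ε * m : ℤ)) : ℤ_[q])‖ < 1 := lt_of_le_of_ne (PadicInt.norm_le_one _) hne
    rw [PadicInt.norm_int_lt_one_iff_dvd] at h1
    exact hεm h1
  have hmz : lg (PadicInt.toZMod (((ε * m : ℤ)) : ℤ_[q])) = 0 := by
    have h1 : IsSquare (PadicInt.toZMod (((ε * m : ℤ)) : ℤ_[q])) := by
      rw [map_intCast, Int.cast_mul]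
      have h2 : IsSquare ((ε : ℤ) : ZMod q) := by
        rcases hε with h | h
        · rw [h, Int.cast_one]
          exact ⟨1, by simp⟩
        · rw [h, Int.cast_neg, Int.cast_one]
          exact ZMod.exists_sq_eq_neg_one_iff.2 (by omega)
      obtain ⟨t, ht⟩ := hm
      exact h2.mul ⟨(t : ZMod q), by rw [ht, Int.cast_mul]⟩
    unfold lg
    rw [if_pos h1]
  have hdG' : (G.map (Int.cast : ℤ → ℤ_[q])).det = (q : ℤ_[q]) ^ n₁ * ((ε * m : ℤ) : ℤ_[q]) := by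
    have h1 : (G.map (Int.cast : ℤ → ℤ_[q])).det = ((G.det : ℤ) : ℤ_[q]) := by
      have := RingHom.map_det (Int.castRingHom ℤ_[q]) G
      simpa using this.symm
    rw [h1, hdG]
    push_cast
    ring
  have hmap1 : (G.map (Int.cast : ℤ → ℤ_[q])).map (PadicInt.toZMod) =
      G.map (Int.cast : ℤ → ZMod q) := by
    ext i j
    simp
  have hH := hB8 q hq4 n n₀ n₁ (G.map (Int.cast : ℤ → ℤ_[q]))
    (by rw [← Matrix.transpose_map, hGt]) hn₁ P₀ P₀' hPP hPP' A₀ hA₀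
    (by rw [hmap1]; exact hblk) _ hunit hdG' hmz
  have hmap2 : (G.map (Int.cast : ℤ → ℤ_[q])).map (algebraMap ℤ_[q] ℚ_[q]) =
      (gram ω δ (a : K)).map (algebraMap ℚ ℚ_[q]) := by
    rw [hG]
    ext i j
    simp
  rw [hmap2] at hH
  -- back to `z`
  have hyi : (y⁻¹) ^ 2 ≠ 0 := pow_ne_zero 2 (inv_ne_zero hy)
  obtain ⟨M, hM, hMe⟩ := hB4 K n ω δ ℚ_[q] ((y⁻¹) ^ 2) (a : K) hyi
    ⟨(1 : ℚ_[q]) ⊗ₜ[ℚ] (y⁻¹), by
      rw [Algebra.TensorProduct.tmul_mul_tmul, one_mul, pow_two]⟩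
  have hza' : (y⁻¹) ^ 2 * (a : K) = z := by
    rw [← hza]
    field_simp
  rw [hza'] at hMe
  have hfin := Hs_trans_B9 (hs q) _ M hM _ hH
  rw [← hMe, hlg] at hfin
  have hsum : ∑ v ∈ V, (1 + om v z) * (lg (Ideal.Quotient.mk v.asIdeal a) + c v) =
      ∑ v ∈ V, (1 + om v z) * (ep q v z + c v) := by
    refine Finset.sum_congr rfl fun v hv => ?_
    rcases h01 v with h | h
    · have hnv : a ∉ v.asIdeal := (hav v (hvq v hv)).1 h
      obtain ⟨-, he2, he3, he4⟩ := hB1 K q V hV v hv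
      have h1 : ep q v (a : K) = ep q v z := by
        rw [← hza, he2 z (y ^ 2) hz (pow_ne_zero 2 hy), (he4 y hy).2, add_zero]
      rw [← he3 a hnv, h1]
    · rw [h]
      have h2 : (1 + 1 : ZMod 2) = 0 := by decide
      rw [h2, zero_mul, zero_mul]
  rw [← hsum]
  exact hfin

end Pool.TW
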