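import Pool.Agent.Helper34.TW.StB

/-!
# Project TW, module B9a: trace forms of finite fields
-/

set_option autoImplicit false

open Matrix
open Pool.Agent.Helper54.HQ (lg)

namespace Pool.TW

theorem lg_mul_B9a {κ : Type} [Field κ] [Fintype κ] {x y : κ} (hx : x ≠ 0) (hy : y ≠ 0) :
    lg (x * y) = lg x + lg y := by
  classical
  unfold lg
  have h := map_mul (quadraticChar κ) x y
  have h1 := quadraticChar_one_iff_isSquare (F := κ) hx
  have h2 := quadraticChar_one_iff_isSquare (F := κ) hy
  have h3 := quadraticChar_one_iff_isSquare (F := κ) (mul_ne_zero hx hy)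
  have d1 := quadraticChar_dichotomy (F := κ) hx
  have d2 := quadraticChar_dichotomy (F := κ) hy
  by_cases sx : IsSquare x
  · by_cases sy : IsSquare y
    · rw [if_pos sx, if_pos sy, if_pos (sx.mul sy), add_zero]
    · have e2 : quadraticChar κ y ≠ 1 := fun h' => sy (h2.1 h')
      rw [h1.2 sx, one_mul] at h
      have n3 : ¬ IsSquare (x * y) := fun h' => e2 (h ▸ h3.2 h')
      rw [if_pos sx, if_neg sy, if_neg n3, zero_add]
  · have e1 : quadraticChar κ x = -1 := d1.resolve_left fun h' => sx (h1.1 h')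
    by_cases sy : IsSquare y
    · rw [h2.2 sy, mul_one] at h
      have n3 : ¬ IsSquare (x * y) := fun h' => by
        have h4 := h3.2 h'
        rw [h, e1] at h4
        exact absurd h4 (by decide)
      rw [if_neg sx, if_pos sy, if_neg n3, add_zero]
    · have e2 : quadraticChar κ y = -1 := d2.resolve_left fun h' => sy (h2.1 h')
      rw [e1, e2] at h
      have s3 : IsSquare (x * y) := h3.1 (by rw [h]; norm_num)
      rw [if_neg sx, if_neg sy, if_pos s3]
      decide

theorem ringChar_ne_two_B9a {κ : Type} [Field κ] (h : (2 : κ) ≠ 0) : ringChar κ ≠ 2 := by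
  intro h2
  apply h
  have := (ringChar.spec κ 2).2 (by rw [h2])
  exact_mod_cast this

theorem det_trace_mul_B9a {κ k : Type} [Field κ] [Field k] [Algebra κ k] {m : ℕ}
    (b : Module.Basis (Fin m) κ k) (t : k) :
    Matrix.det (fun i j => Algebra.trace κ k (t * b i * b j)) =
      Algebra.norm κ t * Matrix.det (fun i j => Algebra.trace κ k (b i * b j)) := by
  rw [Algebra.norm_eq_matrix_det b, ← Matrix.det_transpose (Algebra.leftMulMatrix b t),
    ← Matrix.det_mul]
  congr 1
  ext i j
  rw [Matrix.mul_apply]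
  have h : t * b i = ∑ l, b.repr (t * b i) l • b l := (b.sum_repr _).symm
  conv_lhs => rw [h]
  rw [Finset.sum_mul, map_sum]
  refine Finset.sum_congr rfl fun l _ => ?_
  rw [Matrix.transpose_apply, Algebra.leftMulMatrix_eq_repr_mul, smul_mul_assoc, map_smul,
    smul_eq_mul]

theorem isSquare_norm_B9a {κ k : Type} [Field κ] [Field k] [Fintype κ] [Fintype k] [Algebra κ k]
    (h2 : (2 : κ) ≠ 0) {t : k} (ht : t ≠ 0) : IsSquare (Algebra.norm κ t) ↔ IsSquare t := by
  have hκ := ringChar_ne_two_B9a h2
  have h2' : (2 : k) ≠ 0 := by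
    intro h
    apply h2
    apply (algebraMap κ k).injective
    rw [map_zero, map_ofNat, h]
  have hk := ringChar_ne_two_B9a h2'
  have hN : Algebra.norm κ t ≠ 0 := Algebra.norm_ne_zero_iff.2 ht
  rw [FiniteField.isSquare_iff hκ hN, FiniteField.isSquare_iff hk ht]
  rw [← (algebraMap κ k).injective.eq_iff, map_pow, FiniteField.algebraMap_norm_eq_pow, map_one,
    ← pow_mul, Nat.card_eq_fintype_card, Nat.card_eq_fintype_card]
  have hodd : Fintype.card κ % 2 = 1 := FiniteField.odd_card_of_char_ne_two hκ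
  have hodd' : Fintype.card k % 2 = 1 := FiniteField.odd_card_of_char_ne_two hk
  have hcard : Fintype.card k = Fintype.card κ ^ Module.finrank κ k :=
    Module.card_eq_pow_finrank
  have hdvd : Fintype.card κ - 1 ∣ Fintype.card k - 1 := by
    rw [hcard]
    simpa using Nat.sub_dvd_pow_sub_pow (Fintype.card κ) 1 (Module.finrank κ k)
  obtain ⟨c, hc⟩ := hdvd
  have h1 : 1 < Fintype.card κ := Fintype.one_lt_card
  obtain ⟨s, hs⟩ : ∃ s, Fintype.card κ = 2 * s + 1 := ⟨Fintype.card κ / 2, by omega⟩
  have e : (Fintype.card k - 1) / (Fintype.card κ - 1) * (Fintype.card κ / 2) =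
      Fintype.card k / 2 := by
    rw [hc, Nat.mul_div_cancel_left _ (by omega)]
    have e1 : Fintype.card κ - 1 = 2 * s := by omega
    have e2 : Fintype.card κ / 2 = s := by omega
    rw [e1] at hc
    rw [e2]
    have e3 : 2 * s * c = 2 * (c * s) := by ring
    omega
  rw [e]

theorem hB9a : StB9a := by
  intro κ k _ _ _ _ _ h2 m b t ht
  have : FiniteDimensional κ k := Module.Basis.finiteDimensional_of_finite b
  have hD : Matrix.det (fun i j => Algebra.trace κ k (b i * b j)) ≠ 0 := by
    have h := Algebra.discr_not_zero_of_basis κ b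
    rw [Algebra.discr_def] at h
    exact h
  have hN : Algebra.norm κ t ≠ 0 := Algebra.norm_ne_zero_iff.2 ht
  rw [det_trace_mul_B9a]
  refine ⟨mul_ne_zero hN hD, ?_⟩
  rw [lg_mul_B9a hN hD]
  congr 1
  unfold lg
  by_cases h : IsSquare t
  · rw [if_pos h, if_pos ((isSquare_norm_B9a h2 ht).2 h)]
  · rw [if_neg h, if_neg fun h' => h ((isSquare_norm_B9a h2 ht).1 h')]

end Pool.TW
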