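import Pool.Agent.Helper34.TW.StB

set_option autoImplicit false

open scoped NumberField TensorProduct nonZeroDivisors
open NumberField Matrix IsDedekindDomain
open Pool.Agent.Helper54.HQ (Prm hs hs2 hsR hasse IsSym lg)

namespace Pool.TW

/-- trace of a finite product -/
private theorem tr_pi_B9b {F : Type} [Field F] {ι : Type} [Fintype ι] [DecidableEq ι]
    (A : ι → Type) [∀ i, CommRing (A i)] [∀ i, Algebra F (A i)] [∀ i, Module.Finite F (A i)]
    (x : ∀ i, A i) : Algebra.trace F (∀ i, A i) x = ∑ i, Algebra.trace F (A i) (x i) := by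
  classical
  let b : ∀ i, Module.Basis (Fin (Module.finrank F (A i))) F (A i) := fun i => Module.finBasis F (A i)
  rw [Algebra.trace_eq_matrix_trace (Pi.basis b), Matrix.trace, Fintype.sum_sigma]
  refine Finset.sum_congr rfl (fun i _ => ?_)
  rw [Algebra.trace_eq_matrix_trace (b i), Matrix.trace]
  refine Finset.sum_congr rfl (fun j _ => ?_)
  rw [Matrix.diag_apply, Matrix.diag_apply, Algebra.leftMulMatrix_eq_repr_mul,
    Algebra.leftMulMatrix_eq_repr_mul, Pi.basis_repr, Pi.basis_apply]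
  congr 2
  simp

private theorem ideal_B9b {K : Type} [Field K] [NumberField K] {q : ℕ}
    {V : Finset (HeightOneSpectrum (𝓞 K))} (hU : UnrAt K q V) :
    Ideal.span {(q : 𝓞 K)} = ⨅ v : V, v.1.asIdeal := by
  classical
  have hcop : (V : Set (HeightOneSpectrum (𝓞 K))).Pairwise
      (Function.onFun IsCoprime fun v => v.asIdeal) := by
    intro v _ w _ hvw
    exact Ideal.isCoprime_of_isMaximal (fun h => hvw (HeightOneSpectrum.ext h))
  have h1 : (∏ v ∈ V, v.asIdeal) = ⨅ v : V, v.1.asIdeal := by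
    rw [Ideal.prod_eq_iInf_of_pairwise_isCoprime hcop, iInf_subtype]
  rw [← h1]
  have hq0 : (q : 𝓞 K) ≠ 0 := Nat.cast_ne_zero.mpr hU.pr.ne_zero
  have hdvd : (∏ v ∈ V, v.asIdeal) ∣ Ideal.span {(q : 𝓞 K)} := by
    rw [Ideal.dvd_iff_le, h1]
    refine le_iInf (fun v => ?_)
    rw [Ideal.span_singleton_le_iff_mem]
    exact (hU.mem v.1).mp v.2
  obtain ⟨L, hL⟩ := hdvd
  have hLtop : L = ⊤ := by
    by_contra hne
    obtain ⟨M, hM, hLM⟩ := Ideal.exists_le_maximal L hne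
    have hqM : (q : 𝓞 K) ∈ M := by
      have h2 : Ideal.span {(q : 𝓞 K)} ≤ L := by
        rw [hL]
        exact Ideal.le_of_dvd (Dvd.intro_left _ rfl)
      exact hLM (h2 (Ideal.mem_span_singleton_self _))
    have hM0 : M ≠ ⊥ := by
      rintro rfl
      exact hq0 (by simpa using hqM)
    let w : HeightOneSpectrum (𝓞 K) := ⟨M, hM.isPrime, hM0⟩
    have hwV : w ∈ V := (hU.mem w).mpr hqM
    apply hU.unr w hwV
    have h3 : Ideal.span {(q : 𝓞 K)} ≤ M ^ 2 := by
      rw [hL, pow_two]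
      refine Ideal.mul_mono ?_ hLM
      exact Ideal.le_of_dvd (Finset.dvd_prod_of_mem (fun v : HeightOneSpectrum (𝓞 K) => v.asIdeal) hwV)
    exact h3 (Ideal.mem_span_singleton_self _)
  rw [hL, hLtop, Ideal.mul_top]

theorem hB9b : StB9b := by
  intro K _ _ q V hU inst x
  classical
  haveI : Fact q.Prime := ⟨hU.pr⟩
  have hqp : Prime (q : ℤ) := Nat.prime_iff_prime_int.mp hU.pr
  let p : Ideal ℤ := Ideal.span {(q : ℤ)}
  haveI hpm : p.IsMaximal :=
    PrincipalIdealRing.isMaximal_of_irreducible hqp.irreducible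
  have hmap : Ideal.map (algebraMap ℤ (𝓞 K)) p = ⨅ v : V, v.1.asIdeal := by
    rw [← ideal_B9b hU, Ideal.map_span]
    simp
  have hcop : Pairwise (Function.onFun IsCoprime fun v : V => v.1.asIdeal) := by
    intro v w hvw
    exact Ideal.isCoprime_of_isMaximal (fun h => hvw (Subtype.ext (HeightOneSpectrum.ext h)))
  haveI hfin : ∀ v : V, Module.Finite (ZMod q) (𝓞 K ⧸ v.1.asIdeal) := by
    intro v
    haveI : Finite (𝓞 K ⧸ v.1.asIdeal) := Ideal.finiteQuotientOfFreeOfNeBot _ v.1.ne_bot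
    exact Module.Finite.of_finite
  let e1 : ℤ ⧸ p ≃+* ZMod q := Int.quotientSpanNatEquivZMod q
  let e2 : (𝓞 K ⧸ Ideal.map (algebraMap ℤ (𝓞 K)) p) ≃+* (∀ v : V, 𝓞 K ⧸ v.1.asIdeal) :=
    (Ideal.quotEquivOfEq hmap).trans (Ideal.quotientInfRingEquivPiQuotient _ hcop)
  have h1 := Algebra.trace_quotient_eq_of_isDedekindDomain (R := ℤ) (S := 𝓞 K) p x
  rw [Algebra.intTrace_eq_trace] at h1
  have h2 := Algebra.trace_eq_of_equiv_equiv e1 e2 (by
    apply Ideal.Quotient.ringHom_ext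
    exact RingHom.ext_int _ _) (Ideal.Quotient.mk (Ideal.map (algebraMap ℤ (𝓞 K)) p) x)
  rw [h1] at h2
  have h3 : e1 (Ideal.Quotient.mk p (Algebra.trace ℤ (𝓞 K) x)) =
      Algebra.trace (ZMod q) (∀ v : V, 𝓞 K ⧸ v.1.asIdeal)
        (e2 (Ideal.Quotient.mk (Ideal.map (algebraMap ℤ (𝓞 K)) p) x)) := by
    rw [h2, RingEquiv.apply_symm_apply]
  have h4 : e1 (Ideal.Quotient.mk p (Algebra.trace ℤ (𝓞 K) x)) =
      ((Algebra.trace ℤ (𝓞 K) x : ℤ) : ZMod q) := rfl
  rw [← h4, h3, tr_pi_B9b]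
  rfl

end Pool.TW
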