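import Pool.Agent.Helper34.TW.StB

/-!
# Project TW, module B9d: the different at unramified primes
-/

set_option autoImplicit false

open scoped NumberField TensorProduct nonZeroDivisors
open NumberField Matrix IsDedekindDomain

namespace Pool.TW

attribute [local instance] FractionRing.liftAlgebra FractionRing.isScalarTower_liftAlgebra

private theorem sep_B9d (K : Type) [Field K] [NumberField K] :
    Algebra.IsSeparable (FractionRing ℤ) (FractionRing (𝓞 K)) := by
  have : IsLocalization (Algebra.algebraMapSubmonoid (𝓞 K) ℤ⁰) (FractionRing (𝓞 K)) :=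
    IsIntegralClosure.isLocalization _ (FractionRing ℤ) _ _
  have : FiniteDimensional (FractionRing ℤ) (FractionRing (𝓞 K)) := .of_isLocalization ℤ (𝓞 K) ℤ⁰
  infer_instance

/-- the different at unramified primes -/
theorem hB9d : StB9d := by
  intro K _ _ δ hδ q V hV v hv hmem
  have hq : q.Prime := hV.pr
  have hqv : (q : 𝓞 K) ∈ v.asIdeal := (hV.mem v).1 hv
  have hsep := sep_B9d K
  set p : Ideal ℤ := Ideal.span {(q : ℤ)} with hp
  have hpmax : p.IsMaximal := by
    have : Prime (q : ℤ) := Nat.prime_iff_prime_int.1 hq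
    exact PrincipalIdealRing.isMaximal_of_irreducible this.irreducible
  have hmap : p.map (algebraMap ℤ (𝓞 K)) = Ideal.span {(q : 𝓞 K)} := by
    rw [hp, Ideal.map_span, Set.image_singleton]
    simp
  have hfin : Finite (ℤ ⧸ p) := by
    have : NeZero q := ⟨hq.ne_zero⟩
    exact Finite.of_equiv (ZMod q) (Int.quotientSpanNatEquivZMod q).symm.toEquiv
  have hPmax : v.asIdeal.IsMaximal := v.isMaximal
  have hdvd : v.asIdeal ∣ Ideal.span {(q : 𝓞 K)} := by
    rw [Ideal.dvd_span_singleton]
    exact hqv
  obtain ⟨Q, hQ⟩ := hdvd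
  have hQP : ¬ Q ≤ v.asIdeal := by
    intro hle
    apply hV.unr v hv
    have h1 : Ideal.span {(q : 𝓞 K)} ≤ v.asIdeal ^ 2 := by
      rw [hQ, pow_two]
      exact Ideal.mul_mono_right hle
    exact h1 (Ideal.mem_span_singleton_self _)
  have hco : IsCoprime v.asIdeal Q := by
    rw [Ideal.isCoprime_iff_sup_eq]
    by_contra hne
    have h1 := hPmax.eq_of_le hne le_sup_left
    exact hQP (h1 ▸ le_sup_right)
  have hmain := not_dvd_differentIdeal_of_isCoprime ℤ v.asIdeal Q hco (hQ.symm.trans hmap.symm)
  apply hmain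
  rw [hδ, Ideal.dvd_span_singleton]
  exact hmem

end Pool.TW
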