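import Pool.Agent.Helper34.TW.StC
import Pool.Agent.Helper54.DG.CaseC

/-!
# Project TW, module C0 (helper7): the fields `KS f θ`
-/

set_option autoImplicit false

open scoped Pointwise NumberField
open NumberField Polynomial IsDedekindDomain Pool.RG2

namespace Pool.TW

theorem trans_C0 {r : ℕ} (f : Fin r → ℤ[X]) (hf : Hyp f) (S : Finset (Fin r)) (x y : Pt (RY f) S) :
    ∃ g : GQ, g • x = y := by
  classical
  obtain ⟨g, hg⟩ := hf.gal fun s => if h : s ∈ S then Equiv.swap (x ⟨s, h⟩) (y ⟨s, h⟩) else 1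
  refine ⟨g, ?_⟩
  funext s
  have h1 := hg s.1 (x s)
  rw [dif_pos s.2] at h1
  rw [Pi.smul_apply]
  rw [h1]
  exact Equiv.swap_apply_left _ _

theorem smul_C0 {r : ℕ} (f : Fin r → ℤ[X]) {S : Finset (Fin r)} (g : GQ) (x : Pt (RY f) S) (s : S) :
    (((g • x) s).1 : Qb) = g ((x s).1 : Qb) := rfl

theorem fix_C0 {r : ℕ} (f : Fin r → ℤ[X]) {S : Finset (Fin r)} (θ : Pt (RY f) S) (g : GQ) :
    g • θ = θ ↔ g ∈ GF (KS f θ) := by
  constructor
  · intro h
    refine (IntermediateField.mem_fixingSubgroup_iff _ g).2 fun x hx => ?_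
    induction hx using IntermediateField.adjoin_induction with
    | mem x hx =>
      obtain ⟨s, rfl⟩ := hx
      have h1 := congrArg (fun y : Pt (RY f) S => ((y s).1 : Qb)) h
      exact h1
    | algebraMap x => exact g.commutes x
    | add x y _ _ hx hy =>
      change g (x + y) = x + y
      change g x = x at hx
      change g y = y at hy
      rw [map_add, hx, hy]
    | inv x _ hx =>
      change g x⁻¹ = x⁻¹
      change g x = x at hx
      rw [map_inv₀, hx]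
    | mul x y _ _ hx hy =>
      change g (x * y) = x * y
      change g x = x at hx
      change g y = y at hy
      rw [map_mul, hx, hy]
  · intro h
    funext s
    apply Subtype.ext
    rw [smul_C0]
    exact (IntermediateField.mem_fixingSubgroup_iff _ g).1 h _
      (IntermediateField.subset_adjoin ℚ _ ⟨s, rfl⟩)

/-- the point of an embedding -/
noncomputable def pt_C0 {r : ℕ} (f : Fin r → ℤ[X]) {S : Finset (Fin r)} (θ : Pt (RY f) S)
    (φ : KS f θ →ₐ[ℚ] Qb) : Pt (RY f) S := fun s =>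
  ⟨φ ⟨(θ s).1, IntermediateField.subset_adjoin ℚ _ ⟨s, rfl⟩⟩, by
    have h := (θ s).2
    rw [Polynomial.mem_rootSet'] at h ⊢
    refine ⟨h.1, ?_⟩
    have h2 : aeval (φ ⟨(θ s).1, IntermediateField.subset_adjoin ℚ _ ⟨s, rfl⟩⟩) (f s) =
        φ (aeval (⟨(θ s).1, IntermediateField.subset_adjoin ℚ _ ⟨s, rfl⟩⟩ : KS f θ) (f s)) :=
      Polynomial.aeval_algHom_apply (φ.restrictScalars ℤ) _ (f s)
    have h3 : aeval (⟨(θ s).1, IntermediateField.subset_adjoin ℚ _ ⟨s, rfl⟩⟩ : KS f θ) (f s) = 0 := by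
      apply Subtype.ext
      have := Polynomial.aeval_algebraMap_apply Qb
        (⟨(θ s).1, IntermediateField.subset_adjoin ℚ _ ⟨s, rfl⟩⟩ : KS f θ) (f s)
      exact this.symm.trans h.2
    rw [h2, h3, map_zero]⟩

/-- the embedding given by an element of the Galois group -/
noncomputable def emb_C0 (K : Sub) (g : GQ) : K →ₐ[ℚ] Qb := (g : Qb →ₐ[ℚ] Qb).comp K.val

theorem emb_apply_C0 (K : Sub) (g : GQ) (x : K) : emb_C0 K g x = g (x : Qb) := rfl

theorem pt_emb_C0 {r : ℕ} (f : Fin r → ℤ[X]) {S : Finset (Fin r)} (θ : Pt (RY f) S) (g : GQ) :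
    pt_C0 f θ (emb_C0 (KS f θ) g) = g • θ := rfl

theorem pt_inj_C0 {r : ℕ} (f : Fin r → ℤ[X]) {S : Finset (Fin r)} (θ : Pt (RY f) S) :
    Function.Injective (pt_C0 f θ) := by
  intro φ ψ h
  refine IntermediateField.algHom_ext_of_eq_adjoin ℚ rfl ?_
  rintro x ⟨s, rfl⟩
  exact congrArg (fun y : Pt (RY f) S => ((y s).1 : Qb)) h

theorem pt_bij_C0 {r : ℕ} (f : Fin r → ℤ[X]) (hf : Hyp f) {S : Finset (Fin r)} (θ : Pt (RY f) S) :
    Function.Bijective (pt_C0 f θ) := by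
  refine ⟨pt_inj_C0 f θ, fun y => ?_⟩
  obtain ⟨g, hg⟩ := trans_C0 f hf S θ y
  exact ⟨emb_C0 (KS f θ) g, (pt_emb_C0 f θ g).trans hg⟩

theorem hC0 : StC0 := by
  intro r f hf S
  refine ⟨trans_C0 f hf S, fun θ => ⟨fix_C0 f θ, ?_, ?_, ?_⟩⟩
  · have h1 : {g : GQ | g • θ = θ} = (GF (KS f θ) : Set GQ) := by
      ext g
      exact fix_C0 f θ g
    rw [h1]
    exact IntermediateField.fixingSubgroup_isOpen (KS f θ)
  · rw [← AlgHom.card ℚ (KS f θ) Qb]
    exact Fintype.card_of_bijective (pt_bij_C0 f hf θ)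
  · intro F hF
    have hmem : F θ ∈ KS f θ := Pool.RG.CC.mem_of_fixed _ _ fun g hg => by
      rw [hF]
      rw [(fix_C0 f θ g).2 hg]
    refine ⟨⟨F θ, hmem⟩, rfl, ?_⟩
    have h1 := Algebra.norm_eq_prod_embeddings ℚ Qb (⟨F θ, hmem⟩ : KS f θ)
    have h2 : ((Algebra.norm ℚ (⟨F θ, hmem⟩ : KS f θ) : ℚ) : Qb) =
        algebraMap ℚ Qb (Algebra.norm ℚ (⟨F θ, hmem⟩ : KS f θ)) := rfl
    rw [h2, h1]
    refine Fintype.prod_bijective (pt_C0 f θ) (pt_bij_C0 f hf θ) _ _ fun φ => ?_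
    obtain ⟨g, hg⟩ := trans_C0 f hf S θ (pt_C0 f θ φ)
    have h3 : φ = emb_C0 (KS f θ) g := pt_inj_C0 f θ (hg.symm.trans (pt_emb_C0 f θ g).symm)
    rw [← hg, ← hF, h3]
    rfl

end Pool.TW
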