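import Pool.Agent.Helper34.TW.StC
import Pool.Agent.Helper54.DG.CaseC

set_option autoImplicit false

open scoped Pointwise NumberField TensorProduct
open NumberField Polynomial IsDedekindDomain Pool.RG2

namespace Pool.TW

private theorem sg_mul_C1 (a b : ZMod 2) : sg (a + b) = sg a * sg b := by
  have h01 : ∀ x : ZMod 2, x ≠ 0 → x = 1 := by decide
  have h11 : (1 : ZMod 2) + 1 = 0 := by decide
  have h10 : (1 : ZMod 2) ≠ 0 := by decide
  unfold sg
  by_cases ha : a = 0
  · subst ha
    simp
  · by_cases hb : b = 0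
    · subst hb
      simp
    · rw [h01 a ha, h01 b hb, h11, if_pos rfl, if_neg h10]
      ring

private theorem sg_sq_C1 (a : ZMod 2) : sg a * sg a = 1 := by
  unfold sg
  split_ifs <;> ring

private theorem sg_ne_C1 (a : ZMod 2) : sg a ≠ 0 := by
  intro h
  have := sg_sq_C1 a
  rw [h, mul_zero] at this
  exact zero_ne_one this

private theorem map_sg_C1 (g : GQ) (a : ZMod 2) : g (sg a) = sg a := by
  unfold sg
  split_ifs <;> simp

private theorem sg_zero_C1 : sg 0 = 1 := by
  unfold sg
  simp

private theorem sg_one_C1 : sg 1 = -1 := by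
  unfold sg
  rw [if_neg (by decide)]

theorem hC1 : StC1 := by
  intro X _ htr hop c hc
  rcases isEmpty_or_nonempty X with hX | ⟨⟨θ⟩⟩
  · exact ⟨fun x => (hX.false x).elim, ⟨fun x => (hX.false x).elim, fun g x => (hX.false x).elim⟩⟩
  have hmul := hc.mul
  obtain ⟨U, hU, hcU⟩ := hc.lc
  have h1 : ∀ x, c 1 x = 0 := by
    intro x
    have := hmul 1 1 x
    rw [mul_one, inv_one, one_smul] at this
    exact left_eq_add.mp this
  -- the stabiliser
  let H : Subgroup GQ := MulAction.stabilizer GQ θ
  have hHmem : ∀ g, g ∈ H ↔ g • θ = θ := fun g => MulAction.mem_stabilizer_iff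
  have hHopen : IsOpen (H : Set GQ) := by
    have : (H : Set GQ) = {g : GQ | g • θ = θ} := by
      ext g; exact hHmem g
    rw [this]; exact hop θ
  have hinv : ∀ g ∈ H, g⁻¹ • θ = θ := fun g hg => (hHmem _).1 (H.inv_mem hg)
  have hadd : ∀ g ∈ H, ∀ h, c (g * h) θ = c g θ + c h θ := by
    intro g hg h
    rw [hmul, hinv g hg]
  let N : Subgroup GQ :=
    { carrier := {g | g ∈ H ∧ c g θ = 0}
      mul_mem' := by
        rintro a b ⟨ha, ha'⟩ ⟨hb, hb'⟩
        refine ⟨H.mul_mem ha hb, ?_⟩
        rw [hadd a ha b, ha', hb', add_zero]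
      one_mem' := ⟨H.one_mem, h1 θ⟩
      inv_mem' := by
        rintro a ⟨ha, ha'⟩
        refine ⟨H.inv_mem ha, ?_⟩
        have := hadd a ha a⁻¹
        rw [mul_inv_cancel, h1, ha', zero_add] at this
        exact this.symm }
  have hNmem : ∀ g, g ∈ N ↔ g ∈ H ∧ c g θ = 0 := fun g => Iff.rfl
  have hNopen : IsOpen (N : Set GQ) := by
    apply Subgroup.isOpen_mono (H₁ := U ⊓ H) (H₂ := N)
    · rintro g ⟨hg1, hg2⟩
      exact ⟨hg2, hcU g hg1 θ⟩
    · exact hU.inter hHopen
  have key : ∃ β : Qb, β ≠ 0 ∧ ∀ h ∈ H, h β = sg (c h θ) * β := by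
    by_cases hN : ∀ h ∈ H, c h θ = 0
    · refine ⟨1, one_ne_zero, ?_⟩
      intro h hh
      rw [hN h hh, sg_zero_C1, map_one, one_mul]
    · push Not at hN
      obtain ⟨a, haH, ha⟩ := hN
      have h01 : ∀ x : ZMod 2, x ≠ 0 → x = 1 := by decide
      have ha1 : c a θ = 1 := h01 _ ha
      have hF : GF (IntermediateField.fixedField H) = H := Pool.RG.CC.GF_fixed H hHopen
      have hrel : N.relIndex H = 2 := by
        rw [Subgroup.relIndex_eq_two_iff]
        refine ⟨a, haH, ?_⟩
        intro b hb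
        have e1 : c (b * a) θ = c b θ + 1 := by rw [hadd b hb a, ha1]
        by_cases hb0 : c b θ = 0
        · right
          refine ⟨⟨hb, hb0⟩, ?_⟩
          rintro ⟨_, h3⟩
          rw [e1, hb0, zero_add] at h3
          exact one_ne_zero h3
        · left
          refine ⟨⟨H.mul_mem hb haH, ?_⟩, fun h3 => hb0 h3.2⟩
          rw [e1, h01 _ hb0]; decide
      obtain ⟨σ, β, hk⟩ := Pool.RG.CC.exists_kum (IntermediateField.fixedField H) N
        (by
          have : N ≤ H := fun g hg => hg.1
          exact this.trans_eq hF.symm)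
        (by
          intro g hg n hn
          have hg' : g ∈ H := by
            have h9 : g ∈ GF (IntermediateField.fixedField H) := hg
            rw [hF] at h9
            exact h9
          refine ⟨H.mul_mem (H.mul_mem hg' hn.1) (H.inv_mem hg'), ?_⟩
          rw [hadd _ (H.mul_mem hg' hn.1), hadd g hg', hn.2, add_zero, ← hadd g hg',
            mul_inv_cancel, h1])
        hNopen
        (by
          have : N.relIndex (GF (IntermediateField.fixedField H)) = N.relIndex H := by rw [hF]
          exact this.trans hrel)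
      have hσH : σ ∈ H := by
        have := hk.sF
        have h5 : σ ∈ GF (IntermediateField.fixedField H) := this
        rw [hF] at h5
        exact h5
      have hσ1 : c σ θ = 1 := by
        apply h01
        intro h0
        exact hk.sN ⟨hσH, h0⟩
      have hσi : c σ⁻¹ θ = 1 := by
        have := hadd σ hσH σ⁻¹
        rw [mul_inv_cancel, h1, hσ1] at this
        have h6 : ∀ x : ZMod 2, 0 = 1 + x → x = 1 := by decide
        exact h6 _ this
      refine ⟨β, hk.ne, ?_⟩
      intro h hh
      by_cases h0 : c h θ = 0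
      · rw [h0, sg_zero_C1, one_mul]
        exact hk.fix h ⟨hh, h0⟩
      · rw [h01 _ h0, sg_one_C1, neg_one_mul]
        have h7 : σ⁻¹ * h ∈ N := by
          refine ⟨H.mul_mem (H.inv_mem hσH) hh, ?_⟩
          rw [hadd _ (H.inv_mem hσH), hσi, h01 _ h0]; decide
        have h8 := hk.fix _ h7
        have h9 : h β = σ ((σ⁻¹ * h) β) := by
          rw [← AlgEquiv.mul_apply, mul_inv_cancel_left]
        rw [h9, h8, hk.neg]
  obtain ⟨β, hβ, hβH⟩ := key
  choose k hkx using fun x => htr θ x
  have hwd : ∀ g : GQ, sg (c g (g • θ)) * g β = sg (c (k (g • θ)) (g • θ)) * k (g • θ) β := by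
    intro g
    set x := g • θ with hx
    have hh : (k x)⁻¹ * g ∈ H := by
      rw [hHmem, mul_smul, ← hx, inv_smul_eq_iff, hkx]
    have hg : g = k x * ((k x)⁻¹ * g) := by rw [mul_inv_cancel_left]
    have e1 : c g x = c (k x) x + c ((k x)⁻¹ * g) θ := by
      conv_lhs => rw [hg]
      rw [hmul]
      congr 2
      rw [inv_smul_eq_iff, hkx]
    have e2 : g β = sg (c ((k x)⁻¹ * g) θ) * k x β := by
      conv_lhs => rw [hg]
      rw [AlgEquiv.mul_apply, hβH _ hh, map_mul, map_sg_C1]
    rw [e1, e2, sg_mul_C1]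
    calc sg (c (k x) x) * sg (c ((k x)⁻¹ * g) θ) * (sg (c ((k x)⁻¹ * g) θ) * k x β)
        = sg (c (k x) x) * (sg (c ((k x)⁻¹ * g) θ) * sg (c ((k x)⁻¹ * g) θ)) * k x β := by ring
      _ = _ := by rw [sg_sq_C1, mul_one]
  refine ⟨fun x => sg (c (k x) x) * k x β, ⟨?_, ?_⟩⟩
  · intro x
    apply mul_ne_zero (sg_ne_C1 _)
    intro h
    apply hβ
    exact (map_eq_zero (k x)).1 h
  · intro g x
    have h3 := hwd (g * k x)
    have e3 : (g * k x) • θ = g • x := by rw [mul_smul, hkx]
    rw [e3] at h3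
    rw [← h3, hmul, inv_smul_smul, sg_mul_C1, map_mul, map_sg_C1, AlgEquiv.mul_apply]
    calc sg (c (k x) x) * g (k x β)
        = (sg (c g (g • x)) * sg (c g (g • x))) * (sg (c (k x) x) * g (k x β)) := by
          rw [sg_sq_C1, one_mul]
      _ = _ := by ring

end Pool.TW
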