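import Pool.Agent.Helper34.TW.StC

/-!
# Project TW, module C10 (the local pairing)
-/

set_option autoImplicit false

open scoped Pointwise NumberField
open NumberField Polynomial IsDedekindDomain Pool.RG2

namespace Pool.TW

/-- An inertia element acts trivially on the roots of `f` if these are distinct modulo `P`. -/
private theorem triv_C10 {f : ℤ[X]} (hf : f.Monic) {P : Ideal Zb} (hg : GoodAt f P) {σ : GQ} (hσ : σ ∈ Ine P)
    (x : Rt f) : σ • x = x := by
  by_contra hne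
  have hx := x.2
  rw [Polynomial.mem_rootSet'] at hx
  have hint : IsIntegral ℤ x.1 := ⟨f, hf, by rw [← Polynomial.aeval_def]; exact hx.2⟩
  have h1 : σ • (⟨x.1, hint⟩ : Zb) - ⟨x.1, hint⟩ ∈ P := (Pool.RG.mem_Ine σ P).1 hσ _
  exact hg (σ • x) x hne _ h1 rfl

/-- The value of a cocycle at a power, at a point. -/
private theorem pow_C10 {X : Type} [MulAction GQ X] {c : GQ → X → ZMod 2} (hc : XCoc c) (φ : GQ) (y : X) (m : ℕ) :
    c (φ ^ m) y = ∑ i ∈ Finset.range m, c φ ((φ ^ i)⁻¹ • y) := by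
  induction m with
  | zero =>
    have h := hc.mul 1 1 y
    rw [mul_one, inv_one, one_smul] at h
    simp only [pow_zero, Finset.range_zero, Finset.sum_empty]
    simpa using h
  | succ m ih => rw [Finset.sum_range_succ, ← ih, pow_succ, hc.mul]

private theorem sum_C10 {X : Type} [MulAction GQ X] (φ : GQ) (y : X) (m : ℕ) (hm : φ ^ m • y = y) (h : X → ZMod 2) :
    ∑ i ∈ Finset.range m, h ((φ ^ i)⁻¹ • y) = ∑ i ∈ Finset.range m, h (φ ^ i • y) := by
  have e1 : ∀ i ∈ Finset.range m, h ((φ ^ i)⁻¹ • y) = h (φ ^ (m - 1 - i + 1) • y) := by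
    intro i hi
    rw [Finset.mem_range] at hi
    have : (φ ^ i)⁻¹ • y = φ ^ (m - 1 - i + 1) • y := by
      rw [inv_smul_eq_iff, ← mul_smul, ← pow_add, show i + (m - 1 - i + 1) = m by omega, hm]
    rw [this]
  rw [Finset.sum_congr rfl e1, Finset.sum_range_reflect (fun j => h (φ ^ (j + 1) • y)) m]
  have e2 := Finset.sum_range_succ' (fun j => h (φ ^ j • y)) m
  have e3 := Finset.sum_range_succ (fun j => h (φ ^ j • y)) m
  rw [e3] at e2
  simp only [pow_zero, one_smul, hm] at e2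
  exact (add_right_cancel e2).symm

/-- Sum over an orbit. -/
private theorem orb_C10 {X : Type} [Fintype X] [DecidableEq X] [MulAction GQ X] (φ : GQ) (y : X) (h : X → ZMod 2)
    (F : Finset X) (hF : ∀ x, x ∈ F ↔ ∃ k : ℕ, x = φ ^ k • y) :
    ∑ x ∈ F, h x = ∑ i ∈ Finset.range (Function.minimalPeriod (fun x => φ • x) y), h (φ ^ i • y) := by
  have hit : ∀ n : ℕ, (fun x : X => φ • x)^[n] y = φ ^ n • y := fun n => smul_iterate_apply φ n y
  have hper : y ∈ Function.periodicPts (fun x : X => φ • x) :=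
    (MulAction.injective φ).mem_periodicPts y
  have hpos := Function.minimalPeriod_pos_of_mem_periodicPts hper
  symm
  apply Finset.sum_bij (fun i _ => φ ^ i • y)
  · intro i _
    exact (hF _).2 ⟨i, rfl⟩
  · intro i hi j hj hij
    have h1 := Function.iterate_injOn_Iio_minimalPeriod (f := fun x : X => φ • x) (x := y)
      (Set.mem_Iio.2 (Finset.mem_range.1 hi)) (Set.mem_Iio.2 (Finset.mem_range.1 hj))
    apply h1
    simp only [hit]
    exact hij
  · intro x hx
    obtain ⟨k, hk⟩ := (hF x).1 hx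
    refine ⟨k % Function.minimalPeriod (fun x => φ • x) y, Finset.mem_range.2 (Nat.mod_lt _ hpos), ?_⟩
    have h1 := Function.iterate_mod_minimalPeriod_eq (f := fun x : X => φ • x) (x := y) (n := k)
    rw [hit, hit] at h1
    rw [h1, hk]
  · intro i _
    rfl

theorem hC10 : StC10 := by
  intro h0 h2 h7 h8 h9 r f hf S θ q hq hq2 dt hgood V hV
  classical
  obtain ⟨hmul, hsq, hinj, hkum⟩ := h2
  obtain ⟨htr, hθ⟩ := h0 r f hf S
  have hθ' := (hθ θ).1
  obtain ⟨W, hW1, hW2, hW3, hW4, hW5⟩ := h7 h0 r f hf S θ q hq dt.P dt.φ dt.hP dt.hq dt.hφ hgood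
  -- the inertia element acts trivially
  have hσ : ∀ y : Pt (RY f) S, dt.σ • y = y := by
    intro y
    funext s
    exact triv_C10 (hf.monic s) (hgood s s.2) dt.hσ (y s)
  have hfix : ∀ (g γ : GQ), g • (γ • θ) = γ • θ → ∀ x ∈ KS f θ, g (γ x) = γ x := by
    intro g γ hg x hx
    have h1 : (γ⁻¹ * g * γ) • θ = θ := by
      rw [mul_smul, mul_smul, hg, inv_smul_smul]
    have h3 := (Pool.RG.mem_GF _ _).1 ((hθ' _).1 h1) x hx
    have h4 : γ ((γ⁻¹ * g * γ) x) = γ x := by rw [h3]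
    have h5 : γ ((γ⁻¹ * g * γ) x) = g (γ x) := by
      change (γ * (γ⁻¹ * g * γ)) x = g (γ x)
      rw [show γ * (γ⁻¹ * g * γ) = g * γ by group]
      rfl
    rw [← h5, h4]
  have hz0 : ∀ (c : GQ → Pt (RY f) S → ZMod 2) (b : Pt (RY f) S → Qb), IsKum c b → ∀ z : KS f θ,
      (z : Qb) = b θ ^ 2 → z ≠ 0 := by
    intro c b hb z hz h
    rw [h] at hz
    exact pow_ne_zero 2 (hb.ne θ) (by rw [← hz]; rfl)
  -- the values at the inertia element
  have hom : ∀ (c : GQ → Pt (RY f) S → ZMod 2) (b : Pt (RY f) S → Qb), IsKum c b → ∀ z : KS f θ,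
      (z : Qb) = b θ ^ 2 → ∀ y, c dt.σ y = om (W y) z := by
    intro c b hb z hz y
    obtain ⟨γ, rfl⟩ := htr θ y
    have e1 : b (γ • θ) ^ 2 = γ (z : Qb) := by
      rw [hz, ((hkum _ c b hb).1 γ θ)]
    have e2 := h8 (KS f θ) q hq hq2 dt γ (hfix dt.σ γ (hσ _)) (W (γ • θ)) (hW1 γ) (hW4 _).1 (hW4 _).2 z
      (b (γ • θ)) (hz0 c b hb z hz) e1
    have e3 := hb.eq dt.σ (γ • θ)
    rw [hσ] at e3
    rw [e3] at e2
    exact hinj _ _ (mul_right_cancel₀ (hb.ne _) e2)
  -- the values at the Frobenius element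
  have hep : ∀ (c : GQ → Pt (RY f) S → ZMod 2) (b : Pt (RY f) S → Qb), XCoc c → IsKum c b → ∀ z : KS f θ,
      (z : Qb) = b θ ^ 2 → ∀ y, ∑ x ∈ Finset.univ.filter (fun x => W x = W y), c dt.φ x = ep q (W y) z := by
    intro c b hc hb z hz y
    set m := Function.minimalPeriod (fun x : Pt (RY f) S => dt.φ • x) y with hm
    have hper : y ∈ Function.periodicPts (fun x : Pt (RY f) S => dt.φ • x) :=
      (MulAction.injective dt.φ).mem_periodicPts y
    have hpos : 0 < m := Function.minimalPeriod_pos_of_mem_periodicPts hper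
    have hmy : dt.φ ^ m • y = y := by
      have h1 := Function.iterate_minimalPeriod (f := fun x : Pt (RY f) S => dt.φ • x) (x := y)
      rwa [smul_iterate_apply] at h1
    rw [orb_C10 dt.φ y (c dt.φ) (Finset.univ.filter (fun x => W x = W y))
      (by
        intro x
        rw [Finset.mem_filter]
        constructor
        · intro hx
          exact (hW2 y x).1 hx.2.symm
        · intro hx
          exact ⟨Finset.mem_univ _, ((hW2 y x).2 hx).symm⟩), ← sum_C10 dt.φ y _ hmy (c dt.φ), ← pow_C10 hc]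
    obtain ⟨γ, rfl⟩ := htr θ y
    have e1 : b (γ • θ) ^ 2 = γ (z : Qb) := by
      rw [hz, ((hkum _ c b hb).1 γ θ)]
    have e2 := h9 (KS f θ) q hq hq2 dt γ m hpos (hfix (dt.φ ^ m) γ hmy) (W (γ • θ)) (hW1 γ) (hW4 _).1 (hW4 _).2
      (hW5 _) z (b (γ • θ)) (hz0 c b hb z hz) e1
    have e3 := hb.eq (dt.φ ^ m) (γ • θ)
    rw [hmy] at e3
    rw [e3] at e2
    exact hinj _ _ (mul_right_cancel₀ (hb.ne _) e2)
  -- one half of the pairing
  have half : ∀ (c c' : GQ → Pt (RY f) S → ZMod 2) (b b' : Pt (RY f) S → Qb), XCoc c' → IsKum c b → IsKum c' b' →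
      ∀ z z' : KS f θ, (z : Qb) = b θ ^ 2 → (z' : Qb) = b' θ ^ 2 →
      ∑ y, c dt.σ y * c' dt.φ y = ∑ v ∈ V, om v z * ep q v z' := by
    intro c c' b b' hc' hb hb' z z' hz hz'
    have hWV : ∀ y ∈ (Finset.univ : Finset (Pt (RY f) S)), W y ∈ V := fun y _ => (hV _).2 (hW4 y).1
    rw [← Finset.sum_fiberwise_of_maps_to hWV]
    apply Finset.sum_congr rfl
    intro v hv
    obtain ⟨y, rfl⟩ := hW3 v ((hV v).1 hv)
    rw [← hep c' b' hc' hb' z' hz' y, Finset.mul_sum]
    apply Finset.sum_congr rfl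
    intro x hx
    rw [Finset.mem_filter] at hx
    rw [hom c b hb z hz x, hx.2]
  intro c c' b b' hc hc' hb hb' z z' hz hz'
  unfold lp pr
  rw [half c c' b b' hc' hb hb' z z' hz hz', Finset.sum_add_distrib]
  congr 1
  rw [← half c' c b' b hc hb' hb z' z hz' hz]
  exact Finset.sum_congr rfl fun y _ => mul_comm _ _

end Pool.TW
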