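import Pool.Agent.Helper34.TW.StC

/-!
# Project TW, module C11: the different of `KS f θ` is principal (helper72)
-/

set_option autoImplicit false

open scoped Pointwise NumberField TensorProduct
open NumberField Polynomial IsDedekindDomain Pool.RG2

namespace Pool.TW

/-! ### roots and derivative -/

private theorem irr_C11 {r : ℕ} {f : Fin r → ℤ[X]} (hf : Hyp f) (s : Fin r) :
    Irreducible ((f s).map (algebraMap ℤ ℚ)) := by
  have h1 : Irreducible (f s) :=
    (hf.monic s).irreducible_of_irreducible_map (Int.castRingHom (ZMod 2)) _ (hf.irr2 s)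
  exact ((hf.monic s).irreducible_iff_irreducible_map_fraction_map (K := ℚ)).1 h1

private theorem nodup_C11 {r : ℕ} {f : Fin r → ℤ[X]} (hf : Hyp f) (s : Fin r) :
    ((f s).map (algebraMap ℤ Qb)).roots.Nodup := by
  have h1 := (irr_C11 hf s).separable
  have h2 : ((f s).map (algebraMap ℤ Qb)).Separable := by
    have h3 := h1.map (f := algebraMap ℚ Qb)
    rwa [Polynomial.map_map, ← IsScalarTower.algebraMap_eq ℤ ℚ Qb] at h3
  exact Polynomial.nodup_roots h2

private theorem exI_C11 (x : Qb) (hx : IsIntegral ℤ x) : ∃ z : Zb, (z : Qb) = x := ⟨⟨x, hx⟩, rfl⟩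

private theorem prodP_C11 (P : Ideal Zb) (hP : P.IsPrime) (m : Multiset Qb) :
    (∀ a ∈ m, IsIntegral ℤ a) → ∀ w : Zb, (w : Qb) = m.prod → w ∈ P →
      ∃ a ∈ m, ∃ z ∈ P, (z : Qb) = a := by
  induction m using Multiset.induction_on with
  | empty =>
    intro _ w hw hwP
    exfalso
    have : w = 1 := by
      apply RingOfIntegers.ext
      rw [hw, Multiset.prod_zero]
      rfl
    rw [this] at hwP
    exact hP.ne_top ((Ideal.eq_top_iff_one P).2 hwP)
  | cons a m ih =>
    intro hi w hw hwP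
    obtain ⟨a', ha'⟩ := exI_C11 a (hi a (Multiset.mem_cons_self a m))
    have hi' : ∀ a ∈ m, IsIntegral ℤ a := fun b hb => hi b (Multiset.mem_cons_of_mem hb)
    obtain ⟨w', hw'⟩ := exI_C11 m.prod (IsIntegral.multiset_prod hi')
    have : w = a' * w' := by
      apply RingOfIntegers.ext
      rw [hw, Multiset.prod_cons, ← ha', ← hw']
      rfl
    rw [this] at hwP
    rcases hP.mem_or_mem hwP with h | h
    · exact ⟨a, Multiset.mem_cons_self a m, a', h, ha'⟩
    · obtain ⟨b, hb, z, hz, hzb⟩ := ih hi' w' hw' h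
      exact ⟨b, Multiset.mem_cons_of_mem hb, z, hz, hzb⟩

private theorem root_C11 {r : ℕ} {f : Fin r → ℤ[X]} (hf : Hyp f) (s : Fin r) (y : Qb) :
    y ∈ ((f s).map (algebraMap ℤ Qb)).roots ↔ y ∈ (f s).rootSet Qb := by
  have hm : ((f s).map (algebraMap ℤ Qb)).Monic := (hf.monic s).map _
  rw [Polynomial.mem_roots hm.ne_zero, Polynomial.IsRoot, Polynomial.eval_map, ← Polynomial.aeval_def,
    Polynomial.mem_rootSet]
  exact ⟨fun h => ⟨(hf.monic s).ne_zero, h⟩, fun h => h.2⟩

private theorem rint_C11 {r : ℕ} {f : Fin r → ℤ[X]} (hf : Hyp f) (s : Fin r) (x : Rt (f s)) :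
    IsIntegral ℤ x.1 :=
  ⟨f s, hf.monic s, by rw [← Polynomial.aeval_def]; exact (Polynomial.mem_rootSet.1 x.2).2⟩

/-- if the derivative at a root lies in a prime then the prime is not good -/
private theorem bad_C11 {r : ℕ} {f : Fin r → ℤ[X]} (hf : Hyp f) (s : Fin r) (x : Rt (f s))
    (P : Ideal Zb) (hP : P.IsPrime) (w : Zb) (hw : (w : Qb) = aeval x.1 (derivative (f s)))
    (hwP : w ∈ P) : ¬ GoodAt (f s) P := by
  classical
  intro hG
  have hm : ((f s).map (algebraMap ℤ Qb)).Monic := (hf.monic s).map _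
  have hsp : ((f s).map (algebraMap ℤ Qb)).Splits := IsAlgClosed.splits _
  have hx : x.1 ∈ ((f s).map (algebraMap ℤ Qb)).roots := (root_C11 hf s x.1).2 x.2
  have h1 := hsp.eval_root_derivative hm hx
  rw [Polynomial.derivative_map, Polynomial.eval_map, ← Polynomial.aeval_def, ← hw] at h1
  obtain ⟨b, hb, z, hz, hzb⟩ := prodP_C11 P hP _ (by
    intro a ha
    rw [Multiset.mem_map] at ha
    obtain ⟨y, hy, rfl⟩ := ha
    exact (rint_C11 hf s x).sub (rint_C11 hf s ⟨y, (root_C11 hf s y).1 (Multiset.mem_of_mem_erase hy)⟩))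
    w h1 hwP
  rw [Multiset.mem_map] at hb
  obtain ⟨y, hy, rfl⟩ := hb
  have hne : y ≠ x.1 := ((nodup_C11 hf s).mem_erase_iff.1 hy).1
  exact hG x ⟨y, (root_C11 hf s y).1 (Multiset.mem_of_mem_erase hy)⟩
    (fun h => hne (congrArg Subtype.val h).symm) z hz hzb

/-! ### composite -/

/-- restriction of a full tuple -/
private abbrev rs_C11 {r : ℕ} {f : Fin r → ℤ[X]} (Θ : (s : Fin r) → Rt (f s)) (S : Finset (Fin r)) :
    Pt (RY f) S := fun s => Θ s.1

private theorem mono_C11 {r : ℕ} {f : Fin r → ℤ[X]} (Θ : (s : Fin r) → Rt (f s))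
    {S T : Finset (Fin r)} (h : S ⊆ T) : KS f (rs_C11 Θ S) ≤ KS f (rs_C11 Θ T) := by
  apply IntermediateField.adjoin.mono
  rintro _ ⟨s, rfl⟩
  exact ⟨⟨s.1, h s.2⟩, rfl⟩

private theorem card_C11 {r : ℕ} (f : Fin r → ℤ[X]) (S : Finset (Fin r)) :
    Fintype.card (Pt (RY f) S) = ∏ s ∈ S, Fintype.card (Rt (f s)) := by
  rw [Fintype.card_pi]
  exact Finset.prod_coe_sort S fun s => Fintype.card (Rt (f s))

private theorem empty_C11 (K : Type) [Field K] [NumberField K] (h : Module.finrank ℚ K = 1) :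
    differentIdeal ℤ (𝓞 K) = Ideal.span {1} := by
  have h1 : Ideal.absNorm (differentIdeal ℤ (𝓞 K)) = (NumberField.discr K).natAbs :=
    absNorm_differentIdeal K (𝓞 K)
  have h2 : (⊥ : Subalgebra ℚ K) = ⊤ := Subalgebra.bot_eq_top_of_finrank_eq_one h
  have e : K ≃ₐ[ℚ] ℚ :=
    ((Algebra.botEquiv ℚ K).symm.trans ((Subalgebra.equivOfEq _ _ h2).trans Subalgebra.topEquiv)).symm
  rw [discr_eq_discr_of_algEquiv K e, discr_rat, Int.natAbs_one, Ideal.absNorm_eq_one_iff] at h1
  rw [h1, Ideal.span_singleton_one]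

private theorem coe_mul_C11 (F : Sub) (a b : 𝓞 F) : (((a * b : 𝓞 F) : F) : Qb) = ((a : F) : Qb) * ((b : F) : Qb) :=
  rfl

private theorem dint_C11 {r : ℕ} {f : Fin r → ℤ[X]} (hf : Hyp f) (s : Fin r) (x : Rt (f s)) :
    IsIntegral ℤ (aeval x.1 (derivative (f s))) := by
  have h1 : ((aeval (⟨x.1, rint_C11 hf s x⟩ : Zb) (derivative (f s)) : Zb) : Qb) =
      aeval x.1 (derivative (f s)) := by
    have := Polynomial.aeval_algebraMap_apply Qb (⟨x.1, rint_C11 hf s x⟩ : Zb) (derivative (f s))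
    exact this.symm
  rw [← h1]
  exact RingOfIntegers.isIntegral_coe _

private theorem over_C11 (L : Sub) [NumberField L] (M : Ideal (𝓞 L)) (hM : M.IsMaximal) :
    ∃ P : Ideal Zb, P.IsMaximal ∧ Ideal.comap (algebraMap (𝓞 L) Zb) P = M := by
  have h1 : Algebra.IsIntegral (𝓞 L) Zb := by
    constructor
    intro x
    have h2 : IsIntegral ℤ x := RingOfIntegers.isIntegral x
    exact h2.tower_top
  refine Ideal.exists_ideal_over_maximal_of_isIntegral M ?_
  have h3 : Function.Injective (algebraMap (𝓞 L) Zb) := by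
    intro a b hab
    apply RingOfIntegers.ext
    apply Subtype.ext
    exact congrArg (fun z : Zb => (z : Qb)) hab
  rw [(RingHom.injective_iff_ker_eq_bot _).1 h3]
  exact bot_le

private theorem main_C11 (h0 : StC0) (ha : StC11a) (hb : StC11b) {r : ℕ} (f : Fin r → ℤ[X])
    (hf : Hyp f) (Θ : (s : Fin r) → Rt (f s)) (S : Finset (Fin r)) :
    ∃ δ : 𝓞 (KS f (rs_C11 Θ S)), differentIdeal ℤ (𝓞 (KS f (rs_C11 Θ S))) = Ideal.span {δ} ∧
      ((δ : KS f (rs_C11 Θ S)) : Qb) = ∏ s ∈ S, aeval (Θ s).1 (derivative (f s)) := by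
  classical
  induction S using Finset.induction_on with
  | empty =>
    refine ⟨1, empty_C11 _ ?_, by simp⟩
    have h1 := ((h0 r f hf ∅).2 (rs_C11 Θ ∅)).2.2.1
    rw [h1, card_C11, Finset.prod_empty]
  | insert s T hs ih =>
    obtain ⟨δ₁, hδ₁, hv₁⟩ := ih
    have e2 : KS f (rs_C11 Θ {s}) = IntermediateField.adjoin ℚ {(Θ s).1} := by
      show IntermediateField.adjoin ℚ _ = _
      congr 1
      ext y
      constructor
      · rintro ⟨⟨t, ht⟩, rfl⟩
        rw [Finset.mem_singleton] at ht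
        subst ht
        rfl
      · intro hy
        rw [Set.mem_singleton_iff] at hy
        exact ⟨⟨s, Finset.mem_singleton_self s⟩, hy.symm⟩
    obtain ⟨δ₂, hδ₂, hv₂⟩ := ha r f hf s (Θ s) (KS f (rs_C11 Θ {s})) e2
    have l1 : KS f (rs_C11 Θ T) ≤ KS f (rs_C11 Θ (insert s T)) :=
      mono_C11 Θ (Finset.subset_insert s T)
    have l2 : KS f (rs_C11 Θ {s}) ≤ KS f (rs_C11 Θ (insert s T)) :=
      mono_C11 Θ (by intro t ht; rw [Finset.mem_singleton] at ht; rw [ht]; exact Finset.mem_insert_self s T)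
    have g1 := ((h0 r f hf T).2 (rs_C11 Θ T)).2.2.1
    have g2 := ((h0 r f hf {s}).2 (rs_C11 Θ {s})).2.2.1
    have g3 := ((h0 r f hf (insert s T)).2 (rs_C11 Θ (insert s T))).2.2.1
    rw [card_C11] at g1 g2 g3
    rw [Finset.prod_singleton] at g2
    rw [Finset.prod_insert hs, ← g1, ← g2, mul_comm] at g3
    let A1 : Algebra (KS f (rs_C11 Θ T)) (KS f (rs_C11 Θ (insert s T))) :=
      (IntermediateField.inclusion l1).toRingHom.toAlgebra
    let A2 : Algebra (KS f (rs_C11 Θ {s})) (KS f (rs_C11 Θ (insert s T))) :=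
      (IntermediateField.inclusion l2).toRingHom.toAlgebra
    have c1 : ∀ x, ((algebraMap (KS f (rs_C11 Θ T)) (KS f (rs_C11 Θ (insert s T))) x :
        KS f (rs_C11 Θ (insert s T))) : Qb) = (x : Qb) := fun x => rfl
    have c2 : ∀ x, ((algebraMap (KS f (rs_C11 Θ {s})) (KS f (rs_C11 Θ (insert s T))) x :
        KS f (rs_C11 Θ (insert s T))) : Qb) = (x : Qb) := fun x => rfl
    have i1 : IsIntegral ℤ (algebraMap (KS f (rs_C11 Θ T)) (KS f (rs_C11 Θ (insert s T))) δ₁) :=
      map_isIntegral_int _ (RingOfIntegers.isIntegral_coe δ₁)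
    have i2 : IsIntegral ℤ (algebraMap (KS f (rs_C11 Θ {s})) (KS f (rs_C11 Θ (insert s T))) δ₂) :=
      map_isIntegral_int _ (RingOfIntegers.isIntegral_coe δ₂)
    obtain ⟨d₁, hd₁⟩ : ∃ d : 𝓞 (KS f (rs_C11 Θ (insert s T))), (d : KS f (rs_C11 Θ (insert s T))) =
      algebraMap (KS f (rs_C11 Θ T)) (KS f (rs_C11 Θ (insert s T))) δ₁ := ⟨⟨_, i1⟩, rfl⟩
    obtain ⟨d₂, hd₂⟩ : ∃ d : 𝓞 (KS f (rs_C11 Θ (insert s T))), (d : KS f (rs_C11 Θ (insert s T))) =
      algebraMap (KS f (rs_C11 Θ {s})) (KS f (rs_C11 Θ (insert s T))) δ₂ := ⟨⟨_, i2⟩, rfl⟩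
    have w1 : ((d₁ : KS f (rs_C11 Θ (insert s T))) : Qb) =
        ∏ s ∈ T, aeval (Θ s).1 (derivative (f s)) := by rw [hd₁, c1, hv₁]
    have w2 : ((d₂ : KS f (rs_C11 Θ (insert s T))) : Qb) = aeval (Θ s).1 (derivative (f s)) := by
      rw [hd₂, c2, hv₂]
    refine ⟨d₁ * d₂, ?_, ?_⟩
    · refine hb (KS f (rs_C11 Θ T)) (KS f (rs_C11 Θ {s})) (KS f (rs_C11 Θ (insert s T))) g3 ?_
        δ₁ δ₂ hδ₁ hδ₂ d₁ d₂ hd₁ hd₂ ?_
      · -- generation
        intro F hF1 hF2
        have hM : KS f (rs_C11 Θ (insert s T)) ≤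
            (F.map (algebraMap (KS f (rs_C11 Θ (insert s T))) Qb)).toIntermediateField (by
              intro x
              refine ⟨algebraMap ℚ _ x, ?_, rfl⟩
              rw [eq_ratCast]
              exact SubfieldClass.ratCast_mem F x) := by
          rw [IntermediateField.adjoin_le_iff]
          rintro _ ⟨⟨t, ht⟩, rfl⟩
          rw [Finset.mem_insert] at ht
          rcases ht with rfl | ht
          · have hm : (Θ t).1 ∈ KS f (rs_C11 Θ {t}) :=
              IntermediateField.subset_adjoin ℚ _ ⟨⟨t, Finset.mem_singleton_self t⟩, rfl⟩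
            exact ⟨_, hF2 ⟨(Θ t).1, hm⟩, rfl⟩
          · have hm : (Θ t).1 ∈ KS f (rs_C11 Θ T) :=
              IntermediateField.subset_adjoin ℚ _ ⟨⟨t, ht⟩, rfl⟩
            exact ⟨_, hF1 ⟨(Θ t).1, hm⟩, rfl⟩
        rw [eq_top_iff]
        intro x _
        obtain ⟨y, hy, hyx⟩ := hM x.2
        have : y = x := Subtype.ext hyx
        rw [← this]
        exact hy
      · -- coprimality
        by_contra hcop
        have hne : Ideal.span {d₁, d₂} ≠ ⊤ := by
          intro h
          apply hcop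
          rw [Ideal.eq_top_iff_one, Ideal.mem_span_pair] at h
          exact h
        obtain ⟨M, hM, hle⟩ := Ideal.exists_le_maximal _ hne
        obtain ⟨P, hP, hPM⟩ := over_C11 _ M hM
        have m1 : algebraMap _ Zb d₁ ∈ P := by
          rw [← Ideal.mem_comap, hPM]; exact hle (Ideal.subset_span (by simp))
        have m2 : algebraMap _ Zb d₂ ∈ P := by
          rw [← Ideal.mem_comap, hPM]; exact hle (Ideal.subset_span (by simp))
        obtain ⟨a, hat, z, hz, hza⟩ := prodP_C11 P hP.isPrime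
          (T.val.map fun s => aeval (Θ s).1 (derivative (f s))) (by
            intro a ha
            rw [Multiset.mem_map] at ha
            obtain ⟨t, _, rfl⟩ := ha
            exact dint_C11 hf t (Θ t)) (algebraMap _ Zb d₁) w1 m1
        rw [Multiset.mem_map] at hat
        obtain ⟨t, ht, rfl⟩ := hat
        have hts : t ≠ s := fun h => hs (h ▸ ht)
        rcases hf.disc P hP t s hts with h | h
        · exact bad_C11 hf t (Θ t) P hP.isPrime z hza hz h
        · exact bad_C11 hf s (Θ s) P hP.isPrime (algebraMap _ Zb d₂) w2 m2 h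
    · rw [coe_mul_C11, w1, w2, Finset.prod_insert hs, mul_comm]

theorem hC11 : StC11 := by
  classical
  intro h0 ha hb r f hf S θ
  have hne : ∀ s, Nonempty (Rt (f s)) := by
    intro s
    have h3 := hf.three s
    have hne : f s ≠ 0 := (hf.monic s).ne_zero
    have hdeg : (f s).degree ≠ 0 := by
      intro h
      rw [Polynomial.degree_eq_natDegree hne] at h
      have h4 : (f s).natDegree = 0 := by exact_mod_cast h
      omega
    obtain ⟨x, hx⟩ := IsAlgClosed.exists_aeval_eq_zero_of_injective Qb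
      (algebraMap ℤ Qb).injective_int (f s) hdeg
    exact ⟨⟨x, Polynomial.mem_rootSet.2 ⟨hne, hx⟩⟩⟩
  have H : ∃ δ : 𝓞 (KS f (rs_C11 (f := f) (fun s => if h : s ∈ S then θ ⟨s, h⟩ else
      Classical.choice (hne s)) S)), differentIdeal ℤ (𝓞 (KS f (rs_C11 (f := f) (fun s =>
        if h : s ∈ S then θ ⟨s, h⟩ else Classical.choice (hne s)) S))) = Ideal.span {δ} := by
    obtain ⟨δ, hδ, -⟩ := main_C11 h0 ha hb f hf
      (fun s => if h : s ∈ S then θ ⟨s, h⟩ else Classical.choice (hne s)) S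
    exact ⟨δ, hδ⟩
  have e : rs_C11 (f := f) (fun s => if h : s ∈ S then θ ⟨s, h⟩ else Classical.choice (hne s)) S = θ := by
    funext s
    exact dif_pos s.2
  rw [e] at H
  exact H

end Pool.TW
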