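import Pool.Agent.Helper34.TW.StC

/-!
# Project TW: module C11a (monogenic fields)
-/

set_option autoImplicit false

open scoped Pointwise NumberField TensorProduct
open NumberField Polynomial IsDedekindDomain Pool.RG2

namespace Pool.TW

/-- The root as an element of the field. -/
private theorem mem_C11a (x : Qb) (F : Sub) (hF : F = IntermediateField.adjoin ℚ {x}) : x ∈ F := by
  rw [hF]; exact IntermediateField.mem_adjoin_simple_self ℚ x

theorem hC11a : StC11a := by
  intro r f hf s x F _ hF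
  have hxF : x.1 ∈ F := mem_C11a x.1 F hF
  have hmon := hf.monic s
  have hx0 : aeval x.1 (f s) = 0 := by
    have h := x.2
    rw [Polynomial.mem_rootSet'] at h
    exact h.2
  have hirr : Irreducible (f s) := hmon.irreducible_of_irreducible_map _ _ (hf.irr2 s)
  have hint : IsIntegral ℤ x.1 := ⟨f s, hmon, by rwa [← Polynomial.aeval_def]⟩
  set xF : F := ⟨x.1, hxF⟩ with hxFdef
  have hintF : IsIntegral ℤ xF := by
    have := hint
    rwa [show x.1 = algebraMap F Qb xF from rfl, isIntegral_algebraMap_iff (algebraMap F Qb).injective] at this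
  set ξ : 𝓞 F := ⟨xF, hintF⟩ with hξ
  have hξF : algebraMap (𝓞 F) F ξ = xF := rfl
  -- the map to Qb
  let ι : 𝓞 F →ₐ[ℤ] Qb := ((algebraMap F Qb).comp (algebraMap (𝓞 F) F)).toIntAlgHom
  have hιinj : Function.Injective ι := by
    intro a b hab
    exact RingOfIntegers.coe_injective ((algebraMap F Qb).injective hab)
  have hιξ : ι ξ = x.1 := rfl
  -- the minimal polynomial
  have hmin : minpoly ℤ ξ = f s := by
    have hξint : IsIntegral ℤ ξ := IsIntegralClosure.isIntegral ℤ F ξ
    have haev : aeval ξ (f s) = 0 := by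
      apply hιinj
      rw [map_zero, ← Polynomial.aeval_algHom_apply, hιξ, hx0]
    have hdvd : minpoly ℤ ξ ∣ f s := minpoly.isIntegrallyClosed_dvd hξint haev
    have hm : (minpoly ℤ ξ).Monic := minpoly.monic hξint
    have hne : ¬ IsUnit (minpoly ℤ ξ) := minpoly.not_isUnit ℤ ξ
    exact Polynomial.eq_of_monic_of_associated hm hmon
      ((hirr.dvd_iff.mp hdvd).resolve_left hne).symm
  -- monogenic
  have hadj : Algebra.adjoin ℤ {ξ} = ⊤ := by
    rw [eq_top_iff]
    intro y _
    have hy1 : ι y ∈ IntermediateField.adjoin ℚ {x.1} := by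
      rw [← hF]
      exact (algebraMap (𝓞 F) F y).2
    have hy2 : IsIntegral ℤ (ι y) := (IsIntegralClosure.isIntegral ℤ F y).map ι
    have h3 := hf.mono s x (ι y) hy1 hy2
    have h4 : (Algebra.adjoin ℤ {ξ}).map ι = Algebra.adjoin ℤ {x.1} := by
      rw [AlgHom.map_adjoin, Set.image_singleton, hιξ]
    rw [← h4] at h3
    obtain ⟨y', hy', hyy⟩ := h3
    rw [← hιinj hyy]
    exact hy'
  have hadj2 : Algebra.adjoin ℚ {algebraMap (𝓞 F) F ξ} = ⊤ := by
    rw [eq_top_iff]
    rintro y -
    have h1 : (y : Qb) ∈ IntermediateField.adjoin ℚ {x.1} := by rw [← hF]; exact y.2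
    have hintQ : IsIntegral ℚ x.1 := hint.tower_top
    have h2 : (y : Qb) ∈ Algebra.adjoin ℚ {x.1} := by
      rw [← IntermediateField.adjoin_simple_toSubalgebra_of_isAlgebraic hintQ.isAlgebraic]
      exact h1
    let κ : F →ₐ[ℚ] Qb := (algebraMap F Qb).toRatAlgHom
    have h4 : (Algebra.adjoin ℚ {algebraMap (𝓞 F) F ξ}).map κ = Algebra.adjoin ℚ {x.1} := by
      rw [AlgHom.map_adjoin, Set.image_singleton]
      rfl
    rw [← h4] at h2
    obtain ⟨y', hy', hyy⟩ := h2
    have : y' = y := Subtype.ext hyy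
    rw [← this]
    exact hy'
  refine ⟨aeval ξ (derivative (f s)), ?_, ?_⟩
  · have h := conductor_mul_differentIdeal ℤ ℚ F ξ hadj2
    rw [conductor_eq_top_of_adjoin_eq_top hadj, hmin] at h
    rw [← h]
    simp
  · show ι (aeval ξ (derivative (f s))) = _
    rw [← Polynomial.aeval_algHom_apply, hιξ]

end Pool.TW
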