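import Pool.Agent.Helper34.TW.StC
import Mathlib.NumberTheory.NumberField.Discriminant.Different
import Mathlib.RingTheory.DedekindDomain.LinearDisjoint

/-!
# Project TW, module C11b: composite of fields with coprime principal differents
-/

set_option autoImplicit false

open scoped Pointwise NumberField TensorProduct nonZeroDivisors
open NumberField Polynomial IsDedekindDomain Pool.RG2

namespace Pool.TW

attribute [local instance] FractionRing.liftAlgebra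

private theorem main_C11b (K₁ K₂ L : Type) [Field K₁] [NumberField K₁] [Field K₂] [NumberField K₂]
    [Field L] [NumberField L] [Algebra K₁ L] [Algebra K₂ L] (F₁ F₂ : IntermediateField ℚ L)
    [Algebra K₁ F₁] [Algebra K₂ F₂] [IsScalarTower K₁ F₁ L] [IsScalarTower K₂ F₂ L]
    (hb₁ : Function.Bijective (algebraMap K₁ F₁)) (hb₂ : Function.Bijective (algebraMap K₂ F₂))
    (h₁ : F₁.LinearDisjoint F₂) (h₂ : F₁ ⊔ F₂ = ⊤)
    (h₃ : IsCoprime ((differentIdeal ℤ (𝓞 K₁)).map (algebraMap (𝓞 K₁) (𝓞 L)))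
      ((differentIdeal ℤ (𝓞 K₂)).map (algebraMap (𝓞 K₂) (𝓞 L)))) :
    differentIdeal ℤ (𝓞 L) = (differentIdeal ℤ (𝓞 K₁)).map (algebraMap (𝓞 K₁) (𝓞 L)) *
      (differentIdeal ℤ (𝓞 K₂)).map (algebraMap (𝓞 K₂) (𝓞 L)) := by
  have t₁ : IsScalarTower (𝓞 K₁) K₁ F₁ := inferInstance
  have t₂ : IsScalarTower (𝓞 K₂) K₂ F₂ := inferInstance
  let e₁ : K₁ ≃ₐ[𝓞 K₁] F₁ := AlgEquiv.ofBijective (IsScalarTower.toAlgHom (𝓞 K₁) K₁ F₁) hb₁
  let e₂ : K₂ ≃ₐ[𝓞 K₂] F₂ := AlgEquiv.ofBijective (IsScalarTower.toAlgHom (𝓞 K₂) K₂ F₂) hb₂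
  have i₁ : IsFractionRing (𝓞 K₁) F₁ :=
    IsLocalization.isLocalization_of_algEquiv (𝓞 K₁)⁰ e₁
  have i₂ : IsFractionRing (𝓞 K₂) F₂ :=
    IsLocalization.isLocalization_of_algEquiv (𝓞 K₂)⁰ e₂
  have s₁ : IsScalarTower (𝓞 K₁) F₁ L := IsScalarTower.of_algebraMap_eq fun x => by
    rw [IsScalarTower.algebraMap_apply (𝓞 K₁) K₁ L, IsScalarTower.algebraMap_apply K₁ F₁ L,
      ← IsScalarTower.algebraMap_apply (𝓞 K₁) K₁ F₁]
  have s₂ : IsScalarTower (𝓞 K₂) F₂ L := IsScalarTower.of_algebraMap_eq fun x => by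
    rw [IsScalarTower.algebraMap_apply (𝓞 K₂) K₂ L, IsScalarTower.algebraMap_apply K₂ F₂ L,
      ← IsScalarTower.algebraMap_apply (𝓞 K₂) K₂ F₂]
  have k1 := IsDedekindDomain.differentIdeal_eq_map_differentIdeal ℤ (𝓞 L) (𝓞 K₁) (𝓞 K₂)
    (K := ℚ) (L := L) (F₁ := F₁) (F₂ := F₂) h₁ h₂ h₃
  have k2 := differentIdeal_eq_differentIdeal_mul_differentIdeal ℤ (𝓞 K₁) (𝓞 L)
  rw [k2, k1, mul_comm]

theorem hC11b : StC11b := by
  intro K₁ K₂ L _ _ _ _ _ _ _ _ hdeg hgen δ₁ δ₂ e₁ e₂ d₁ d₂ hd₁ hd₂ hc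
  let f₁ : K₁ →ₐ[ℚ] L := (algebraMap K₁ L).toRatAlgHom
  let f₂ : K₂ →ₐ[ℚ] L := (algebraMap K₂ L).toRatAlgHom
  let F₁ : IntermediateField ℚ L := f₁.fieldRange
  let F₂ : IntermediateField ℚ L := f₂.fieldRange
  let a₁ : Algebra K₁ F₁ := (f₁.equivFieldRange : K₁ →+* F₁).toAlgebra
  let a₂ : Algebra K₂ F₂ := (f₂.equivFieldRange : K₂ →+* F₂).toAlgebra
  have t₁ : IsScalarTower K₁ F₁ L := IsScalarTower.of_algebraMap_eq fun x => rfl
  have t₂ : IsScalarTower K₂ F₂ L := IsScalarTower.of_algebraMap_eq fun x => rfl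
  have hb₁ : Function.Bijective (algebraMap K₁ F₁) := f₁.equivFieldRange.bijective
  have hb₂ : Function.Bijective (algebraMap K₂ F₂) := f₂.equivFieldRange.bijective
  have r₁ : Module.finrank ℚ F₁ = Module.finrank ℚ K₁ :=
    f₁.equivFieldRange.toLinearEquiv.finrank_eq.symm
  have r₂ : Module.finrank ℚ F₂ = Module.finrank ℚ K₂ :=
    f₂.equivFieldRange.toLinearEquiv.finrank_eq.symm
  have h₂ : F₁ ⊔ F₂ = ⊤ := by
    have h := hgen (F₁ ⊔ F₂).toSubfield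
      (fun x => (le_sup_left : F₁ ≤ F₁ ⊔ F₂) (AlgHom.mem_fieldRange.2 ⟨x, rfl⟩))
      (fun x => (le_sup_right : F₂ ≤ F₁ ⊔ F₂) (AlgHom.mem_fieldRange.2 ⟨x, rfl⟩))
    apply IntermediateField.toSubfield_injective
    rw [h]
    rfl
  have h₁ : F₁.LinearDisjoint F₂ := by
    apply IntermediateField.LinearDisjoint.of_finrank_sup
    rw [h₂, r₁, r₂, IntermediateField.finrank_top', hdeg]
  have m₁ : (differentIdeal ℤ (𝓞 K₁)).map (algebraMap (𝓞 K₁) (𝓞 L)) = Ideal.span {d₁} := by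
    rw [e₁, Ideal.map_span, Set.image_singleton]
    congr 2
    exact RingOfIntegers.ext hd₁.symm
  have m₂ : (differentIdeal ℤ (𝓞 K₂)).map (algebraMap (𝓞 K₂) (𝓞 L)) = Ideal.span {d₂} := by
    rw [e₂, Ideal.map_span, Set.image_singleton]
    congr 2
    exact RingOfIntegers.ext hd₂.symm
  have h₃ : IsCoprime ((differentIdeal ℤ (𝓞 K₁)).map (algebraMap (𝓞 K₁) (𝓞 L)))
      ((differentIdeal ℤ (𝓞 K₂)).map (algebraMap (𝓞 K₂) (𝓞 L))) := by
    rw [m₁, m₂, Ideal.isCoprime_span_singleton_iff]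
    exact hc
  rw [main_C11b K₁ K₂ L F₁ F₂ hb₁ hb₂ h₁ h₂ h₃, m₁, m₂, Ideal.span_singleton_mul_span_singleton]

end Pool.TW
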