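import Pool.Agent.Helper34.TW.StC

/-!
# Project TW, module C12: proof of the reciprocity law REC (helper72)
-/

set_option autoImplicit false

open scoped Pointwise NumberField TensorProduct
open NumberField Polynomial IsDedekindDomain Pool.RG2
open Pool.Agent.Helper54.HQ (Prm hs hs2 hsR hasse IsSym lg)

namespace Pool.TW

private theorem pt_C12 {r : ℕ} {f : Fin r → ℤ[X]} (hf : Hyp f) (S : Finset (Fin r)) :
    Nonempty (Pt (RY f) S) := by
  refine ⟨fun s => Classical.choice ?_⟩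
  have h3 := hf.three s
  have hne : f s ≠ 0 := (hf.monic s).ne_zero
  have hdeg : (f s).degree ≠ 0 := by
    intro h
    rw [Polynomial.degree_eq_natDegree hne] at h
    have h4 : (f s).natDegree = 0 := by exact_mod_cast h
    omega
  obtain ⟨x, hx⟩ := IsAlgClosed.exists_aeval_eq_zero_of_injective Qb
    (algebraMap ℤ Qb).injective_int (f s) hdeg
  exact ⟨⟨x, Polynomial.mem_rootSet.2 ⟨hne, hx⟩⟩⟩

private theorem sg_zero_C12 : sg 0 = 1 := by simp [sg]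

theorem hC12 (h8 : StC8) (h9 : StC9) (h11a : StC11a) (h11b : StC11b) : StC12 := by
  classical
  intro hB10 hC0 hC1 hC2 hC3 hC4 hC5 hC5a hC5b hC6 hC6b hC7 hC10 hC11
  intro r f hf P0 hP0 h2P0 dt S hS Q hQ c c' hc hc' hu hu' hcob
  obtain ⟨θ⟩ := pt_C12 hf S
  obtain ⟨htr, hθ⟩ := hC0 r f hf S
  obtain ⟨hfix, -, -, hF⟩ := hθ θ
  have hop : ∀ x : Pt (RY f) S, IsOpen {g : GQ | g • x = x} := fun x => (hθ x).2.1
  have hX : ∀ c : GQ → Pt (RY f) S → ZMod 2, IsCoc (RY f) c → XCoc c := by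
    intro c hc
    refine ⟨fun g h x => ?_, ?_⟩
    · have := congrFun (hc.mul g h) x
      rw [Pi.add_apply] at this
      exact this
    · obtain ⟨U, hU, hU'⟩ := hc.lc
      exact ⟨U, hU, fun u hu x => congrFun (hU' u hu) x⟩
  obtain ⟨b, hb⟩ := hC1 _ htr hop c (hX c hc)
  obtain ⟨b', hb'⟩ := hC1 _ htr hop c' (hX c' hc')
  have hC2' := hC2.2.2.2
  obtain ⟨z, hz, -⟩ := hF (fun x => b x ^ 2) (hC2' _ c b hb).1
  obtain ⟨z', hz', -⟩ := hF (fun x => b' x ^ 2) (hC2' _ c' b' hb').1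
  have hz : (z : Qb) = b θ ^ 2 := hz
  have hz' : (z' : Qb) = b' θ ^ 2 := hz'
  have hz0 : z ≠ 0 := by
    intro h
    rw [h] at hz
    exact pow_ne_zero 2 (hb.ne θ) hz.symm
  have hz0' : z' ≠ 0 := by
    intro h
    rw [h] at hz'
    exact pow_ne_zero 2 (hb'.ne θ) hz'.symm
  have hn := hC3 hC0 hC2 r f hf S hS θ c hc b hb z hz
  have hn' := hC3 hC0 hC2 r f hf S hS θ c' hc' b' hb' z' hz'
  obtain ⟨δ, hδ⟩ := hC11 hC0 h11a h11b r f hf S θ
  -- the real place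
  have hR : IsSquare ((1 : ℝ) ⊗ₜ[ℚ] z) := hC6 (KS f θ) (hC6b r f hf S θ) z hz0 hn
  -- the value of a Kummer function at elements fixing `θ`
  have hval : ∀ (c : GQ → Pt (RY f) S → ZMod 2) (b : Pt (RY f) S → Qb), IsKum c b →
      ∀ (A : Set GQ), CobOn (RY f) A c → ∀ g ∈ GF (KS f θ), g ∈ A → g (b θ) = b θ := by
    intro c b hb A hA g hg hgA
    have hgθ : g • θ = θ := (hfix g).2 hg
    obtain ⟨m, -, hm⟩ := hA
    have h1 := hb.eq g θ
    rw [hgθ] at h1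
    have h2 := congrFun (hm g hgA) θ
    have h3 : g⁻¹ • θ = θ := by
      rw [inv_smul_eq_iff]; exact hgθ.symm
    have h4 : c g θ = 0 := by
      rw [h2]
      show m (g⁻¹ • θ) - m θ = 0
      rw [h3, sub_self]
    rw [h1, h4, sg_zero_C12, one_mul]
  -- the prime above 2
  have h2K : Prime (2 : 𝓞 (KS f θ)) := hC5b hC0 r f hf S θ
  have hQ2 : IsSquare ((1 : ℚ_[2]) ⊗ₜ[ℚ] z) := by
    have h20 : (2 : 𝓞 (KS f θ)) ∈ P0.comap (algebraMap (𝓞 (KS f θ)) Zb) := by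
      rw [Ideal.mem_comap, map_ofNat]
      exact h2P0
    let v0 : HeightOneSpectrum (𝓞 (KS f θ)) := ⟨P0.comap (algebraMap (𝓞 (KS f θ)) Zb),
      Ideal.IsPrime.comap _ (hK := hP0.isPrime), fun h => by
        rw [h, Ideal.mem_bot] at h20
        exact h2K.ne_zero h20⟩
    obtain ⟨y, hy⟩ := hC5 (KS f θ) P0 hP0 v0 (fun a => Iff.rfl) (b θ) z hz0 hz (by
      intro g hg
      exact hval c b hb _ hcob g hg.1 hg.2)
    exact hC5a (KS f θ) h2K v0 h20 z y hy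
  -- even valuations
  have hom : ∀ (c : GQ → Pt (RY f) S → ZMod 2) (b : Pt (RY f) S → Qb), IsKum c b → Unr f Q c →
      ∀ z : KS f θ, z ≠ 0 → (z : Qb) = b θ ^ 2 → ∀ v : HeightOneSpectrum (𝓞 (KS f θ)),
      (2 : 𝓞 (KS f θ)) ∉ v.asIdeal → (∀ q ∈ Q, (q : 𝓞 (KS f θ)) ∉ v.asIdeal) → om v z = 0 := by
    intro c b hb hu z hz0 hz
    refine hC4 (KS f θ) Q (b θ) z hz0 hz ?_
    intro P hP g hg
    refine hval c b hb _ (hu P hP.1 ?_ hP.2.2) g hg.1 hg.2
    have := hP.2.1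
    rwa [Nat.cast_ofNat] at this
  -- the sets of primes
  have hV : ∀ q ∈ Q, ∃ V : Finset (HeightOneSpectrum (𝓞 (KS f θ))), UnrAt (KS f θ) q V := by
    intro q hq
    obtain ⟨hqp, hq8, hqG⟩ := hQ q hq
    have hq2 : q ≠ 2 := by rintro rfl; omega
    obtain ⟨W, -, -, hW3, hW4, -⟩ := hC7 hC0 r f hf S θ q hqp (dt q hqp hq2).P (dt q hqp hq2).φ
      (dt q hqp hq2).hP (dt q hqp hq2).hq (dt q hqp hq2).hφ
      (fun s _ => hqG _ (dt q hqp hq2).hP (dt q hqp hq2).hq s)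
    refine ⟨Finset.univ.image W, hqp, hq2, ?_, ?_⟩
    · intro v
      rw [Finset.mem_image]
      constructor
      · rintro ⟨y, -, rfl⟩
        exact (hW4 y).1
      · intro hv
        obtain ⟨y, hy⟩ := hW3 v hv
        exact ⟨y, Finset.mem_univ _, hy⟩
    · intro v hv
      rw [Finset.mem_image] at hv
      obtain ⟨y, -, rfl⟩ := hv
      exact (hW4 y).2
  choose! V hV using hV
  have key := hB10 (KS f θ) δ hδ Q V (fun q hq => ⟨by have := (hQ q hq).2.1; omega, hV q hq⟩)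
    z z' hz0 hz0' hn hn' hQ2 hR (fun v h1 h2 => ⟨hom c b hb hu z hz0 hz v h1 h2,
      hom c' b' hb' hu' z' hz0' hz' v h1 h2⟩)
  rw [← key]
  refine Finset.sum_congr rfl fun q hq => ?_
  obtain ⟨hqp, hq8, hqG⟩ := hQ q hq
  have hq2 : q ≠ 2 := by rintro rfl; omega
  unfold lpd
  rw [dif_pos ⟨hqp, hq2⟩]
  exact hC10 hC0 hC2 hC7 h8 h9 r f hf S θ q hqp hq2 (dt q hqp hq2)
    (fun s _ => hqG _ (dt q hqp hq2).hP (dt q hqp hq2).hq s) (V q) (hV q hq).mem c c' b b'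
    (hX c hc) (hX c' hc') hb hb' z z' hz hz'

end Pool.TW
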