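import Pool.Agent.Helper34.TW.StC

/-!
# Project TW, module C2: formal properties of Kummer functions
-/

set_option autoImplicit false

open scoped Pointwise NumberField TensorProduct
open NumberField Polynomial IsDedekindDomain Pool.RG2

namespace Pool.TW

private theorem cases_C2 : ∀ a : ZMod 2, a = 0 ∨ a = 1 := by decide

private theorem sg_zero_C2 : sg 0 = 1 := by simp [sg]

private theorem sg_one_C2 : sg 1 = -1 := by
  unfold sg
  rw [if_neg (by decide)]

private theorem sg_add_C2 (a b : ZMod 2) : sg (a + b) = sg a * sg b := by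
  rcases cases_C2 a with rfl | rfl <;> rcases cases_C2 b with rfl | rfl
  · rw [add_zero, sg_zero_C2, one_mul]
  · rw [zero_add, sg_zero_C2, one_mul]
  · rw [add_zero, sg_zero_C2, mul_one]
  · rw [show (1 : ZMod 2) + 1 = 0 by decide, sg_zero_C2, sg_one_C2]
    norm_num

private theorem sg_sq_C2 (a : ZMod 2) : sg a ^ 2 = 1 := by
  rcases cases_C2 a with rfl | rfl
  · rw [sg_zero_C2, one_pow]
  · rw [sg_one_C2]
    norm_num

private theorem sg_inj_C2 (a b : ZMod 2) (h : sg a = sg b) : a = b := by
  have hne : (1 : Qb) ≠ -1 := by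
    intro h
    have h2 : (2 : Qb) = 0 := by linear_combination h
    exact two_ne_zero h2
  rcases cases_C2 a with rfl | rfl <;> rcases cases_C2 b with rfl | rfl
  · rfl
  · rw [sg_zero_C2, sg_one_C2] at h
    exact absurd h hne
  · rw [sg_zero_C2, sg_one_C2] at h
    exact absurd h.symm hne
  · rfl

private theorem fix_C2 (g : GQ) (a : ZMod 2) : g (sg a) = sg a := by
  rcases cases_C2 a with rfl | rfl
  · rw [sg_zero_C2, map_one]
  · rw [sg_one_C2, map_neg, map_one]

/-- formal properties of Kummer functions -/
theorem hC2 : StC2 := by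
  refine ⟨sg_add_C2, sg_sq_C2, sg_inj_C2, ?_⟩
  intro X _ c b hb
  refine ⟨?_, ?_, ?_⟩
  · intro g x
    rw [map_pow, hb.eq, mul_pow, sg_sq_C2, one_mul]
  · intro c' b' hb'
    refine ⟨fun x => mul_ne_zero (hb.ne x) (hb'.ne x), fun g x => ?_⟩
    rw [map_mul, hb.eq, hb'.eq, sg_add_C2]
    ring
  · constructor
    · rintro ⟨m, hm⟩
      refine ⟨fun x => sg (m x) * b x, fun g x => ?_, fun x => ?_⟩
      · rw [map_mul, fix_C2, hb.eq, hm, inv_smul_smul]
        have h1 : sg (m x) * sg (m x - m (g • x)) = sg (m (g • x)) := by
          rw [← sg_add_C2]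
          congr 1
          generalize m x = p
          generalize m (g • x) = q
          revert p q
          decide
        show sg (m x) * (sg (m x - m (g • x)) * b (g • x)) = sg (m (g • x)) * b (g • x)
        rw [← h1]
        ring
      · rw [mul_pow, sg_sq_C2, one_mul]
    · rintro ⟨h, hh, hbh⟩
      classical
      set m : X → ZMod 2 := fun x => if b x = h x then 0 else 1 with hm
      have hbm : ∀ x, b x = sg (m x) * h x := by
        intro x
        by_cases h1 : b x = h x
        · rw [hm]
          simp only [if_pos h1]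
          rw [sg_zero_C2, one_mul, h1]
        · rw [hm]
          simp only [if_neg h1]
          rw [sg_one_C2]
          rcases sq_eq_sq_iff_eq_or_eq_neg.1 (hbh x) with h2 | h2
          · exact absurd h2 h1
          · rw [h2]
            ring
      have hhm : ∀ x, h x = sg (m x) * b x := by
        intro x
        have h1 := hbm x
        have h2 := sg_sq_C2 (m x)
        linear_combination (-(h x)) * h2 - sg (m x) * h1
      refine ⟨m, fun g x => ?_⟩
      have h3 := hb.eq g (g⁻¹ • x)
      rw [smul_inv_smul] at h3
      have h4 : g (b (g⁻¹ • x)) = sg (m (g⁻¹ • x) + m x) * b x := by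
        conv_lhs => rw [hbm (g⁻¹ • x)]
        rw [map_mul, fix_C2, hh, smul_inv_smul, hhm x, sg_add_C2]
        ring
      rw [h4] at h3
      have h5 := sg_inj_C2 _ _ (mul_right_cancel₀ (hb.ne x) h3)
      rw [← h5]
      generalize m (g⁻¹ • x) = p
      generalize m x = q
      revert p q
      decide

end Pool.TW
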