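import Pool.Agent.Helper34.TW.StC

/-!
# Project TW, module C3: the norm is a square
-/

set_option autoImplicit false

open scoped Pointwise NumberField TensorProduct
open NumberField Polynomial IsDedekindDomain Pool.RG2

namespace Pool.TW

/-- The sum of all values of an element of `Ev` is zero. -/
private theorem sum_ev_C3 {r : ℕ} (Y : Fin r → Type) [∀ s, Fintype (Y s)] {S : Finset (Fin r)}
    (hS : S.Nonempty) (m : Pt Y S → ZMod 2) (hm : m ∈ Ev Y S) : ∑ x, m x = 0 := by
  classical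
  obtain ⟨s, hs⟩ := hS
  let s' : S := ⟨s, hs⟩
  let e := Equiv.piSplitAt s' (fun s : S => Y s)
  have h1 : ∑ x, m x = ∑ q : Y s' × ((j : {j : S // j ≠ s'}) → Y j), m (e.symm q) :=
    (Equiv.sum_comp e.symm m).symm
  rw [h1, Fintype.sum_prod_type_right]
  refine Finset.sum_eq_zero fun z _ => ?_
  by_cases hne : Nonempty (Y s')
  · obtain ⟨y0⟩ := hne
    have h2 := hm s' (e.symm (y0, z))
    rw [← h2]
    refine Finset.sum_congr rfl fun y _ => ?_
    congr 1
    funext t
    by_cases ht : t = s'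
    · subst ht
      rw [Function.update_self]
      simp [e, Equiv.piSplitAt]
    · rw [Function.update_of_ne ht]
      simp [e, Equiv.piSplitAt, ht]
  · have : IsEmpty (Y s') := not_nonempty_iff.1 hne
    simp

private theorem prod_sg_C3 (h : ∀ a b : ZMod 2, sg (a + b) = sg a * sg b) {X : Type} (T : Finset X)
    (m : X → ZMod 2) : ∏ x ∈ T, sg (m x) = sg (∑ x ∈ T, m x) := by
  classical
  induction T using Finset.induction_on with
  | empty => simp [sg]
  | insert a T ha ih =>
    rw [Finset.prod_insert ha, Finset.sum_insert ha, h, ih]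

theorem hC3 : StC3 := by
  intro h0 h2 r f hf S hS θ c hc b hb z hz
  obtain ⟨hadd, -, -, hK⟩ := h2
  obtain ⟨hsq, -, -⟩ := hK _ c b hb
  obtain ⟨-, hC0⟩ := h0 r f hf S
  obtain ⟨-, -, -, hnorm⟩ := hC0 θ
  obtain ⟨z', hz', hN⟩ := hnorm (fun y => b y ^ 2) hsq
  have hzz : z' = z := Subtype.ext (hz'.trans hz.symm)
  rw [hzz] at hN
  set P : Qb := ∏ y, b y with hP
  have hfix : ∀ g : GQ, g P = P := by
    intro g
    rw [hP, map_prod]
    have h3 : ∀ y : Pt (RY f) S, g (b y) = sg (c g (g • y)) * b (g • y) := fun y => hb.eq g y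
    rw [Finset.prod_congr rfl (fun y _ => h3 y)]
    have h4 : ∏ y : Pt (RY f) S, sg (c g (g • y)) * b (g • y) = ∏ y : Pt (RY f) S, sg (c g y) * b y :=
      Equiv.prod_comp (MulAction.toPerm g : Equiv.Perm (Pt (RY f) S)) (fun y => sg (c g y) * b y)
    rw [h4, Finset.prod_mul_distrib, prod_sg_C3 hadd, sum_ev_C3 (RY f) hS (c g) (hc.ev g)]
    have h5 : sg 0 = 1 := by simp [sg]
    rw [h5, one_mul]
  have hmem : P ∈ (⊥ : IntermediateField ℚ Qb) := by
    have := Pool.RG.instGal
    exact (InfiniteGalois.mem_bot_iff_fixed P).2 hfix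
  rw [IntermediateField.mem_bot] at hmem
  obtain ⟨q, hq⟩ := hmem
  refine ⟨q, ?_⟩
  have h6 : ((Algebra.norm ℚ z : ℚ) : Qb) = ((q * q : ℚ) : Qb) := by
    rw [hN, Finset.prod_pow, ← hP, ← hq]
    rw [eq_ratCast, Rat.cast_mul, sq]
  exact_mod_cast h6

end Pool.TW
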