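import Pool.Agent.Helper34.TW.StC
import Pool.Agent.Helper54.DG.CaseC
import Pool.Agent.Helper2.RG.M_LIFT
import Pool.Agent.Helper52.RG.M_PROF

/-!
# Project TW, module C4: even valuations
-/

set_option autoImplicit false

open scoped Pointwise NumberField TensorProduct
open NumberField Polynomial IsDedekindDomain

namespace Pool.TW

open Pool.RG Pool.RG.CC in
/-- the subgroup of the elements fixing `β`, when `β ^ 2` lies in `K` and is not a square in `K` -/
theorem kum_C4 (K : IntermediateField ℚ Qb) [NumberField K] (β : Qb) (z : K) (hz0 : z ≠ 0)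
    (hz : (z : Qb) = β ^ 2) (hns : ¬ IsSquare z) :
    ∃ (N : Subgroup GQ) (σ : GQ), N ≤ GF K ∧ (∀ g ∈ GF K, ∀ n ∈ N, g * n * g⁻¹ ∈ N) ∧
      IsOpen (N : Set GQ) ∧ N.relIndex (GF K) = 2 ∧ Kum K N σ β ∧
      ∀ g ∈ GF K, g β = β → g ∈ N := by
  have hβ0 : β ≠ 0 := by
    rintro rfl
    apply hz0
    apply Subtype.ext
    rw [hz]
    simp
  have hpm : ∀ g ∈ GF K, g β = β ∨ g β = -β := by
    intro g hg
    have h1 : (g β) ^ 2 = β ^ 2 := by
      rw [← map_pow, ← hz]
      exact fixed_of_mem K _ z.2 g hg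
    exact sq_eq_sq_iff_eq_or_eq_neg.1 h1
  have hnn : -β ≠ β := by
    intro h
    have h7 : (2 : Qb) * β = 0 := by linear_combination -h
    rcases mul_eq_zero.1 h7 with h | h
    · exact two_ne_zero h
    · exact hβ0 h
  let N : Subgroup GQ :=
    { carrier := {g | g ∈ GF K ∧ g β = β}
      mul_mem' := by
        rintro a b ⟨ha, ha'⟩ ⟨hb, hb'⟩
        refine ⟨mul_mem ha hb, ?_⟩
        rw [AlgEquiv.mul_apply, hb', ha']
      one_mem' := ⟨one_mem _, rfl⟩
      inv_mem' := by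
        rintro a ⟨ha, ha'⟩
        refine ⟨inv_mem ha, ?_⟩
        have h1 : a⁻¹ (a β) = β := by
          rw [← AlgEquiv.mul_apply, inv_mul_cancel]
          rfl
        rw [ha'] at h1
        exact h1 }
  have hmem : ∀ g, g ∈ N ↔ g ∈ GF K ∧ g β = β := fun g => Iff.rfl
  obtain ⟨σ, hσ, hσβ⟩ : ∃ σ ∈ GF K, σ β ≠ β := by
    by_contra hcon
    push Not at hcon
    apply hns
    refine ⟨⟨β, mem_of_fixed K β hcon⟩, ?_⟩
    apply Subtype.ext
    rw [hz, pow_two]
    rfl
  have hσn : σ β = -β := (hpm σ hσ).resolve_left hσβ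
  have hσN : σ ∉ N := fun h => hσβ ((hmem σ).1 h).2
  refine ⟨N, σ, fun g hg => hg.1, ?_, ?_, ?_, ⟨hσ, hσN, hβ0, fun m hm => hm.2, hσn⟩,
    fun g hg hg' => ⟨hg, hg'⟩⟩
  · intro g hg n hn
    rw [hmem] at hn ⊢
    refine ⟨mul_mem (mul_mem hg hn.1) (inv_mem hg), ?_⟩
    have h1 : g (g⁻¹ β) = β := by
      rw [← AlgEquiv.mul_apply, mul_inv_cancel]
      rfl
    rw [AlgEquiv.mul_apply, AlgEquiv.mul_apply]
    rcases hpm g⁻¹ (inv_mem hg) with h | h
    · rw [h] at h1 ⊢
      rw [hn.2, h1]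
    · rw [h] at h1 ⊢
      rw [map_neg, hn.2, h1]
  · have hfin : FiniteDimensional ℚ (IntermediateField.adjoin ℚ {β}) :=
      IntermediateField.adjoin.finiteDimensional (Algebra.IsIntegral.isIntegral β)
    have hK : FiniteDimensional ℚ K := inferInstance
    have hs : FiniteDimensional ℚ (K ⊔ IntermediateField.adjoin ℚ {β} : IntermediateField ℚ Qb) :=
      IntermediateField.finiteDimensional_sup K _
    have h1 : IsOpen ((K ⊔ IntermediateField.adjoin ℚ {β} :
        IntermediateField ℚ Qb).fixingSubgroup : Set GQ) :=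
      IntermediateField.fixingSubgroup_isOpen _
    refine Subgroup.isOpen_mono (fun g hg => ?_) h1
    have h2 := (IntermediateField.mem_fixingSubgroup_iff _ g).1 hg
    refine ⟨(IntermediateField.mem_fixingSubgroup_iff _ g).2 fun x hx => h2 x ?_, h2 β ?_⟩
    · exact (le_sup_left : K ≤ K ⊔ IntermediateField.adjoin ℚ {β}) hx
    · exact (le_sup_right : IntermediateField.adjoin ℚ {β} ≤ K ⊔ IntermediateField.adjoin ℚ {β})
        (IntermediateField.mem_adjoin_simple_self ℚ β)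
  · rw [Subgroup.relIndex_eq_two_iff_exists_notMem_and]
    refine ⟨σ, hσ, hσN, ?_⟩
    intro b hb
    rcases hpm b hb with h | h
    · exact Or.inr ⟨hb, h⟩
    · left
      refine ⟨mul_mem hb hσ, ?_⟩
      rw [AlgEquiv.mul_apply, hσn, map_neg, h, neg_neg]

open Pool.RG2 in
/-- **C4** even valuations -/
theorem hC4 : StC4 := by
  intro K _ Q β z hz0 hz hI v hv2 hvQ
  have key : IsSquare (v.valuation K z) := by
    by_cases hs : IsSquare z
    · obtain ⟨y, hy⟩ := hs
      exact ⟨v.valuation K y, by rw [hy, map_mul]⟩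
    · obtain ⟨N, σ, hNF, hn, ho, h2, hk, hN⟩ := kum_C4 K β z hz0 hz hs
      exact Pool.RG.CC.ine_step (Pool.Agent.Helper2.RG.tLift Pool.Agent.Helper52.RG.tProf) Q hNF hn ho h2 hk
        (fun P hP g hg => hN g hg.1 (hI P hP g hg)) z hz hz0 v hv2 hvQ
  unfold om
  rw [if_pos key]

end Pool.TW
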