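import Pool.Agent.Helper34.TW.StC
import Pool.Agent.Helper54.DG.CaseC
import Pool.Agent.Helper52.RG.M_PROF

/-!
# Project TW, module C5 (helper7): the prime below `P0`
-/

set_option autoImplicit false

open scoped Pointwise NumberField
open NumberField Polynomial IsDedekindDomain Pool.RG2

namespace Pool.TW

/-- Kummer data of degree two for an element whose square lies in `K`. -/
theorem kum_C5 (K : Sub) [NumberField K] (β : Qb) (z : K) (hz0 : z ≠ 0) (hz : (z : Qb) = β ^ 2)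
    (hsq : ¬ IsSquare z) :
    ∃ (N : Subgroup GQ) (σ : GQ), N ≤ GF K ∧ (∀ g ∈ GF K, ∀ n ∈ N, g * n * g⁻¹ ∈ N) ∧
      IsOpen (N : Set GQ) ∧ N.relIndex (GF K) = 2 ∧ Pool.RG.CC.Kum K N σ β ∧
      ∀ g ∈ GF K, g β = β → g ∈ N := by
  have hz0' : (z : Qb) ≠ 0 := fun h => hz0 (Subtype.ext h)
  have hβ0 : β ≠ 0 := by
    rintro rfl
    exact hz0' (by rw [hz]; ring)
  have hneg : β ≠ -β := by
    intro h
    have h7 : (2 : Qb) * β = 0 := by linear_combination h
    rcases mul_eq_zero.1 h7 with h | h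
    · exact two_ne_zero h
    · exact hβ0 h
  have hpm : ∀ g ∈ GF K, g β = β ∨ g β = -β := by
    intro g hg
    have h1 : (g β) ^ 2 = β ^ 2 := by
      rw [← map_pow, ← hz]
      exact Pool.RG.CC.fixed_of_mem K _ z.2 g hg
    exact sq_eq_sq_iff_eq_or_eq_neg.1 h1
  have hex : ∃ σ ∈ GF K, σ β = -β := by
    by_contra hcon
    push Not at hcon
    have h1 : β ∈ K := Pool.RG.CC.mem_of_fixed K β fun g hg =>
      (hpm g hg).resolve_right (hcon g hg)
    apply hsq
    refine ⟨⟨β, h1⟩, Subtype.ext ?_⟩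
    change (z : Qb) = β * β
    rw [hz, sq]
  obtain ⟨σ, hσ, hσβ⟩ := hex
  let N : Subgroup GQ := GF K ⊓ MulAction.stabilizer GQ β
  have hmem : ∀ g, g ∈ N ↔ g ∈ GF K ∧ g β = β := fun g => Iff.rfl
  have hopen : IsOpen (N : Set GQ) := by
    have h1 : IsOpen ((GF K : Subgroup GQ) : Set GQ) := IntermediateField.fixingSubgroup_isOpen K
    have hfd : FiniteDimensional ℚ (IntermediateField.adjoin ℚ {β}) := by
      apply IntermediateField.adjoin.finiteDimensional
      have := Pool.RG.instAlg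
      exact Algebra.IsIntegral.isIntegral β
    have h2 : IsOpen ((GF (IntermediateField.adjoin ℚ {β}) : Subgroup GQ) : Set GQ) :=
      IntermediateField.fixingSubgroup_isOpen _
    refine Subgroup.isOpen_mono (H₁ := GF K ⊓ GF (IntermediateField.adjoin ℚ {β})) ?_ (h1.inter h2)
    intro g hg
    refine (hmem g).2 ⟨hg.1, ?_⟩
    exact (IntermediateField.mem_fixingSubgroup_iff _ g).1 hg.2 β
      (IntermediateField.mem_adjoin_simple_self ℚ β)
  have hinvβ : ∀ g : GQ, g β = β → g⁻¹ β = β := by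
    intro g hg
    have h1 : (g⁻¹ * g) β = β := by simp
    rw [AlgEquiv.mul_apply, hg] at h1
    exact h1
  have hσN : σ ∉ N := fun h => hneg (by rw [← hσβ]; exact ((hmem σ).1 h).2.symm)
  refine ⟨N, σ, inf_le_left, ?_, hopen, ?_, ⟨hσ, hσN, hβ0, fun m hm => ((hmem m).1 hm).2, hσβ⟩,
    fun g hg hgβ => (hmem g).2 ⟨hg, hgβ⟩⟩
  · intro g hg n hn
    obtain ⟨hnK, hnβ⟩ := (hmem n).1 hn
    refine (hmem _).2 ⟨mul_mem (mul_mem hg hnK) (inv_mem hg), ?_⟩
    rw [AlgEquiv.mul_apply, AlgEquiv.mul_apply]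
    have hgg : g (g⁻¹ β) = β := by
      rw [← AlgEquiv.mul_apply, mul_inv_cancel, AlgEquiv.one_apply]
    rcases hpm g⁻¹ (inv_mem hg) with h | h
    · rw [h] at hgg ⊢
      rw [hnβ, hgg]
    · rw [h] at hgg ⊢
      rw [map_neg n, hnβ, hgg]
  · rw [Subgroup.relIndex_eq_two_iff]
    refine ⟨σ, hσ, fun b hb => ?_⟩
    rcases hpm b hb with h | h
    · refine Or.inr ⟨(hmem b).2 ⟨hb, h⟩, fun h1 => ?_⟩
      have h2 := ((hmem _).1 h1).2
      rw [AlgEquiv.mul_apply, hσβ, map_neg, h] at h2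
      exact hneg h2.symm
    · refine Or.inl ⟨(hmem _).2 ⟨mul_mem hb hσ, ?_⟩, fun h1 => ?_⟩
      · rw [AlgEquiv.mul_apply, hσβ, map_neg, h, neg_neg]
      · have h2 := ((hmem _).1 h1).2
        rw [h] at h2
        exact hneg h2.symm

theorem hC5 : StC5 := by
  intro K _ P0 hP0 v0 hv0 β z hz0 hz hD
  have h4 : v0.valuation K (4 : K) ≠ 0 := by
    rw [Valuation.ne_zero_iff]
    norm_num
  by_cases hsq : IsSquare z
  · obtain ⟨w, hw⟩ := hsq
    have hw0 : w ≠ 0 := by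
      rintro rfl
      exact hz0 (by rw [hw]; ring)
    refine ⟨w⁻¹, ?_⟩
    have h1 : z * w⁻¹ ^ 2 - 1 = 0 := by
      rw [hw]
      field_simp
      ring
    rw [h1, map_zero]
    exact zero_lt_iff.2 h4
  · obtain ⟨N, σ, hNF, hn, ho, h2, hk, hN⟩ := kum_C5 K β z hz0 hz hsq
    exact Pool.RG.CC.dec_step Pool.Agent.Helper52.RG.tProf P0 hP0 v0 hv0 hNF hn ho h2 hk
      (fun g hg => hN g hg.1 (hD g hg)) z hz

end Pool.TW
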