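import Pool.Agent.Helper34.TW.StC

/-!
# TW module C5a (squares at 2)
-/

set_option autoImplicit false

open scoped NumberField TensorProduct
open NumberField IsDedekindDomain

namespace Pool.TW

/-- Sequences in `ℤ_2` which converge 2-adically. -/
private lemma prec_C5a (s : ℕ → ℤ_[2]) (h : ∀ n, ∃ r, s (n + 1) - s n = 2 ^ n * r) :
    ∃ t, ∀ n, ∃ r, t - s n = 2 ^ n * r := by
  have hI : IsLocalRing.maximalIdeal ℤ_[2] = Ideal.span {2} := by
    have := PadicInt.maximalIdeal_eq_span_p (p := 2)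
    simpa using this
  have key : ∀ m k, ∃ r, s (m + k) - s m = 2 ^ m * r := by
    intro m k
    induction k with
    | zero => exact ⟨0, by simp⟩
    | succ k ih =>
      obtain ⟨r, hr⟩ := ih
      obtain ⟨r', hr'⟩ := h (m + k)
      refine ⟨r + 2 ^ k * r', ?_⟩
      have : s (m + (k + 1)) - s m = (s (m + k + 1) - s (m + k)) + (s (m + k) - s m) := by
        rw [← add_assoc]; ring
      rw [this, hr, hr', pow_add]; ring
  obtain ⟨t, ht⟩ := IsPrecomplete.prec (I := IsLocalRing.maximalIdeal ℤ_[2]) (M := ℤ_[2])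
    inferInstance (f := s) (by
      intro m n hmn
      obtain ⟨k, rfl⟩ := Nat.exists_eq_add_of_le hmn
      obtain ⟨r, hr⟩ := key m k
      rw [SModEq.sub_mem, hI, Ideal.span_singleton_pow, smul_eq_mul, Ideal.mul_top,
        Ideal.mem_span_singleton]
      refine ⟨-r, ?_⟩
      linear_combination -hr)
  refine ⟨t, fun n => ?_⟩
  have h1 := ht n
  rw [SModEq.sub_mem, hI, Ideal.span_singleton_pow, smul_eq_mul, Ideal.mul_top,
        Ideal.mem_span_singleton] at h1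
  obtain ⟨r, hr⟩ := h1
  exact ⟨-r, by linear_combination -hr⟩

private lemma haus_C5a (x : ℤ_[2]) (h : ∀ n : ℕ, ∃ r, x = 2 ^ n * r) : x = 0 := by
  have hI : IsLocalRing.maximalIdeal ℤ_[2] = Ideal.span {2} := by
    have := PadicInt.maximalIdeal_eq_span_p (p := 2)
    simpa using this
  apply IsHausdorff.haus (I := IsLocalRing.maximalIdeal ℤ_[2]) (M := ℤ_[2]) inferInstance
  intro n
  rw [SModEq.sub_mem, hI, Ideal.span_singleton_pow, smul_eq_mul, Ideal.mul_top,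
        Ideal.mem_span_singleton, sub_zero]
  exact h n

/-- In a free `ℤ_2`-algebra of finite rank the equation `(1 + 2 x) t + 2 t ^ 2 = c` has a solution. -/
private lemma solve_C5a {R : Type} [CommRing R] [Algebra ℤ_[2] R] {ι : Type} [Finite ι]
    (b : Module.Basis ι ℤ_[2] R) (x c : R) : ∃ t : R, (1 + 2 * x) * t + 2 * t ^ 2 = c := by
  classical
  have := Fintype.ofFinite ι
  obtain ⟨s, hs⟩ : ∃ s : ℕ → R, ∀ n, s (n + 1) = c - 2 * (x * s n + s n ^ 2) :=
    ⟨fun n => Nat.rec 0 (fun _ t => c - 2 * (x * t + t ^ 2)) n, fun _ => rfl⟩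
  have h1 : ∀ n, ∃ r, s (n + 1) - s n = 2 ^ n * r := by
    intro n
    induction n with
    | zero => exact ⟨s 1 - s 0, by simp⟩
    | succ n ih =>
      obtain ⟨r, hr⟩ := ih
      refine ⟨-(r * (x + s (n + 1) + s n)), ?_⟩
      have : s (n + 1 + 1) - s (n + 1) = - 2 * ((s (n + 1) - s n) * (x + s (n + 1) + s n)) := by
        rw [hs (n + 1)]
        linear_combination -hs n
      rw [this, hr, pow_succ]; ring
  have h2 : ∀ i, ∃ t, ∀ n, ∃ r, t - b.repr (s n) i = 2 ^ n * r := by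
    intro i
    apply prec_C5a
    intro n
    obtain ⟨r, hr⟩ := h1 n
    refine ⟨b.repr r i, ?_⟩
    have e : s (n + 1) - s n = (2 ^ n : ℤ_[2]) • r := by
      rw [hr, Algebra.smul_def, map_pow, map_ofNat]
    have e2 := congrArg (fun y => b.repr y i) e
    simpa using e2
  choose T hT using h2
  choose r hr using hT
  let t : R := ∑ i, T i • b i
  have ht : ∀ n, ∃ y, t - s n = 2 ^ n * y := by
    intro n
    refine ⟨∑ i, r i n • b i, ?_⟩
    have e : s n = ∑ i, b.repr (s n) i • b i := (b.sum_repr (s n)).symm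
    calc t - s n = ∑ i, (T i - b.repr (s n) i) • b i := by
            conv_lhs => rw [e]
            simp only [t, ← Finset.sum_sub_distrib, sub_smul]
      _ = ∑ i, (2 ^ n * r i n) • b i := by
            refine Finset.sum_congr rfl fun i _ => ?_
            rw [hr]
      _ = 2 ^ n * ∑ i, r i n • b i := by
            rw [Finset.mul_sum]
            refine Finset.sum_congr rfl fun i _ => ?_
            rw [mul_smul, Algebra.smul_def, map_pow, map_ofNat]
  refine ⟨t, ?_⟩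
  have h3 : ∀ n : ℕ, ∃ y, (1 + 2 * x) * t + 2 * t ^ 2 - c = 2 ^ n * y := by
    intro n
    obtain ⟨y, hy⟩ := ht n
    obtain ⟨y', hy'⟩ := ht (n + 1)
    have := hs n
    refine ⟨2 * y' + 2 * (x * y + y * (t + s n)), ?_⟩
    have e : (1 + 2 * x) * t + 2 * t ^ 2 - c =
        (t - s (n + 1)) + 2 * (x * (t - s n) + (t - s n) * (t + s n)) := by
      rw [this]; ring
    rw [e, hy, hy', pow_succ]; ring
  have h4 : (1 + 2 * x) * t + 2 * t ^ 2 - c = 0 := by
    apply b.ext_elem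
    intro i
    rw [map_zero, Finsupp.zero_apply]
    apply haus_C5a
    intro n
    obtain ⟨y, hy⟩ := h3 n
    refine ⟨b.repr y i, ?_⟩
    have e : (1 + 2 * x) * t + 2 * t ^ 2 - c = (2 ^ n : ℤ_[2]) • y := by
      rw [hy, Algebra.smul_def, map_pow, map_ofNat]
    have e2 := congrArg (fun y => b.repr y i) e
    simpa using e2
  exact sub_eq_zero.mp h4

/-- The natural homomorphism. -/
private lemma hom_C5a (K : Type) [Field K] [NumberField K] :
    ∃ φ : (ℤ_[2] ⊗[ℤ] (𝓞 K)) →+* (ℚ_[2] ⊗[ℚ] K), ∀ x : 𝓞 K,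
      φ (1 ⊗ₜ x) = 1 ⊗ₜ (algebraMap (𝓞 K) K x) := by
  let f : ℤ_[2] →ₐ[ℤ] (ℚ_[2] ⊗[ℚ] K) :=
    ((Algebra.TensorProduct.includeLeftRingHom (R := ℚ) (A := ℚ_[2]) (B := K)).comp
      PadicInt.Coe.ringHom).toIntAlgHom
  let g : 𝓞 K →ₐ[ℤ] (ℚ_[2] ⊗[ℚ] K) :=
    (((Algebra.TensorProduct.includeRight (R := ℚ) (A := ℚ_[2]) (B := K)).toRingHom).comp
      (algebraMap (𝓞 K) K)).toIntAlgHom
  refine ⟨(Algebra.TensorProduct.lift f g (fun _ _ => Commute.all _ _)).toRingHom, fun x => ?_⟩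
  show Algebra.TensorProduct.lift f g _ (1 ⊗ₜ x) = _
  rw [Algebra.TensorProduct.lift_tmul, map_one, one_mul]
  rfl

theorem hC5a : StC5a := by
  intro K _ _ h2 v0 hv0 z y hzy
  have hspan : v0.asIdeal = Ideal.span {(2 : 𝓞 K)} := by
    have hp : (Ideal.span {(2 : 𝓞 K)}).IsPrime := by
      rw [Ideal.span_singleton_prime h2.ne_zero]; exact h2
    have hm : (Ideal.span {(2 : 𝓞 K)}).IsMaximal := hp.isMaximal (by simp)
    exact (hm.eq_of_le v0.isPrime.ne_top ((Ideal.span_singleton_le_iff_mem _).mpr hv0)).symm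
  have h4 : v0.valuation K (4 : K) ≠ 0 := by
    rw [Valuation.ne_zero_iff]; norm_num
  have hlt : v0.valuation K ((z * y ^ 2 - 1) / 4) < 1 := by
    rw [map_div₀, div_lt_one₀ (zero_lt_iff.mpr h4)]
    exact hzy
  obtain ⟨a, ⟨b, hb⟩, hab⟩ := v0.exists_primeCompl_mul_eq_of_integer _ hlt.le
  have hb' : b ∉ v0.asIdeal := hb
  have ha : a ∈ v0.asIdeal := by
    have h5 : v0.valuation K (algebraMap (𝓞 K) K a) < 1 := by
      rw [← hab, map_mul, v0.valuation_eq_one_iff_notMem.mpr hb', mul_one]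
      exact hlt
    exact (v0.valuation_lt_one_iff_mem (K := K) a).mp h5
  rw [hspan, Ideal.mem_span_singleton] at ha
  obtain ⟨a, rfl⟩ := ha
  have hy : y ≠ 0 := by
    rintro rfl
    have h3 : v0.valuation K (4 : K) ≤ 1 := by
      have h5 := v0.valuation_le_one (K := K) (4 : 𝓞 K)
      have h6 : algebraMap (𝓞 K) K 4 = 4 := map_ofNat _ 4
      rw [← h6]
      exact h5
    rw [zero_pow two_ne_zero, mul_zero, zero_sub, Valuation.map_neg, map_one] at hzy
    exact absurd hzy (not_lt.mpr h3)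
  -- a power of `b` is `1` modulo `2`
  obtain ⟨k, hk, x, hx⟩ : ∃ k : ℕ, 0 < k ∧ ∃ x : 𝓞 K, b ^ k = 1 + 2 * x := by
    have hm : v0.asIdeal.IsMaximal := v0.isMaximal
    let _ := Ideal.Quotient.field v0.asIdeal
    have : Finite (𝓞 K ⧸ v0.asIdeal) := Ideal.finiteQuotientOfFreeOfNeBot _ v0.ne_bot
    have hne : Ideal.Quotient.mk v0.asIdeal b ≠ 0 := by
      rwa [Ne, Ideal.Quotient.eq_zero_iff_mem]
    obtain ⟨k, hk, hk1⟩ := (isOfFinOrder_of_finite (Units.mk0 _ hne)).exists_pow_eq_one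
    refine ⟨k, hk, ?_⟩
    have h5 := congrArg Units.val hk1
    rw [Units.val_pow_eq_pow_val, Units.val_mk0, Units.val_one, ← map_pow, ← map_one (Ideal.Quotient.mk v0.asIdeal),
      Ideal.Quotient.eq, hspan, Ideal.mem_span_singleton] at h5
    obtain ⟨x, hx⟩ := h5
    exact ⟨x, by linear_combination hx⟩
  obtain ⟨k, rfl⟩ := Nat.exists_eq_add_of_lt hk
  rw [zero_add] at hx hk
  have hb0 : b ≠ 0 := by
    rintro rfl
    exact hb' (zero_mem _)
  have hab' : (z * y ^ 2 - 1) / 4 * (algebraMap (𝓞 K) K b) = algebraMap (𝓞 K) K (2 * a) := hab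
  have hbK : algebraMap (𝓞 K) K b ≠ 0 := by
    simpa using hb0
  set B : K := algebraMap (𝓞 K) K b with hB
  have hz : z * (B ^ (k + 1) * y) ^ 2 =
      algebraMap (𝓞 K) K (b ^ (k + 1) * b ^ (k + 1) + 8 * (a * b ^ k * b ^ (k + 1))) := by
    have h6 : z * y ^ 2 * B = B + 8 * algebraMap (𝓞 K) K a := by
      rw [map_mul, map_ofNat] at hab'
      have h8 : (z * y ^ 2 - 1) * B = 4 * (2 * algebraMap (𝓞 K) K a) := by
        rw [← hab']; ring
      linear_combination h8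
    have h9 : z * (B ^ (k + 1) * y) ^ 2 = (z * y ^ 2 * B) * (B ^ k * B ^ (k + 1)) := by
      ring
    rw [h9, h6]
    simp only [map_add, map_mul, map_pow, map_ofNat, ← hB]
    ring
  obtain ⟨φ, hφ⟩ := hom_C5a K
  obtain ⟨t, ht⟩ := solve_C5a (R := ℤ_[2] ⊗[ℤ] (𝓞 K))
    (Algebra.TensorProduct.basis ℤ_[2] (RingOfIntegers.basis K)) (1 ⊗ₜ x) (1 ⊗ₜ (a * b ^ k * b ^ (k + 1)))
  let i : 𝓞 K →+* (ℤ_[2] ⊗[ℤ] (𝓞 K)) := (Algebra.TensorProduct.includeRight (R := ℤ) (A := ℤ_[2]) (B := 𝓞 K)).toRingHom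
  let j : K →+* (ℚ_[2] ⊗[ℚ] K) := (Algebra.TensorProduct.includeRight (R := ℚ) (A := ℚ_[2]) (B := K)).toRingHom
  have hi : ∀ x : 𝓞 K, φ (i x) = j (algebraMap (𝓞 K) K x) := hφ
  have hx' : i (b ^ (k + 1)) = 1 + 2 * i x := by
    rw [hx, map_add, map_mul, map_one, map_ofNat]
  have ht' : i (b ^ (k + 1)) * t + 2 * t ^ 2 = i (a * b ^ k * b ^ (k + 1)) := by
    rw [hx']; exact ht
  have hsq : (i (b ^ (k + 1)) + 4 * t) ^ 2 =
      i (b ^ (k + 1) * b ^ (k + 1) + 8 * (a * b ^ k * b ^ (k + 1))) := by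
    have h8 : i 8 = 8 := map_ofNat i 8
    rw [map_add, map_mul, map_mul i 8, h8, ← ht']; ring
  have hjz : j z * j (B ^ (k + 1) * y) ^ 2 = φ (i (b ^ (k + 1)) + 4 * t) ^ 2 := by
    rw [← map_pow φ, hsq, hi, ← hz, map_mul j z, map_pow j (_ * y)]
  have hu : j (B ^ (k + 1) * y) * j ((B ^ (k + 1) * y)⁻¹) = 1 := by
    rw [← map_mul, mul_inv_cancel₀ (mul_ne_zero (pow_ne_zero _ hbK) hy), map_one]
  refine ⟨φ (i (b ^ (k + 1)) + 4 * t) * j ((B ^ (k + 1) * y)⁻¹), ?_⟩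
  show j z = _
  calc j z = j z * (j (B ^ (k + 1) * y) * j ((B ^ (k + 1) * y)⁻¹)) ^ 2 := by
        rw [hu, one_pow, mul_one]
    _ = (j z * j (B ^ (k + 1) * y) ^ 2) * j ((B ^ (k + 1) * y)⁻¹) ^ 2 := by ring
    _ = _ := by rw [hjz]; ring

end Pool.TW
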