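import Pool.Agent.Helper34.TW.StC

/-!
# Project TW, module C5b (helper7): `2` is inert
-/

set_option autoImplicit false

open scoped Pointwise NumberField
open NumberField Polynomial IsDedekindDomain Pool.RG2

namespace Pool.TW

/-- the degree of an irreducible polynomial modulo 2 with a root in a finite quotient of characteristic two -/
theorem res_C5b (k : Type) [Field k] [Finite k] (h2 : (2 : k) = 0) (g : ℤ[X]) (hm : g.Monic)
    (hi : Irreducible (g.map (Int.castRingHom (ZMod 2)))) (x : k) (hx : eval₂ (Int.castRingHom k) x g = 0) :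
    ∀ d : ℕ, Nat.card k = 2 ^ d → g.natDegree ∣ d := by
  intro d hd
  have hch : CharP k 2 := (CharP.charP_iff_prime_eq_zero Nat.prime_two).2 (by exact_mod_cast h2)
  let _ : Algebra (ZMod 2) k := ZMod.algebra k 2
  have hfin : Module.Finite (ZMod 2) k := Module.Finite.of_finite
  have hfin2 : Fintype k := Fintype.ofFinite k
  have h3 : Polynomial.aeval x (g.map (Int.castRingHom (ZMod 2))) = 0 := by
    rw [Polynomial.aeval_def, Polynomial.eval₂_map]
    have : (algebraMap (ZMod 2) k).comp (Int.castRingHom (ZMod 2)) = Int.castRingHom k :=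
      RingHom.ext_int _ _
    rw [this, hx]
  have hmon : (g.map (Int.castRingHom (ZMod 2))).Monic := hm.map _
  have h4 := minpoly.eq_of_irreducible_of_monic hi h3 hmon
  have h5 : (minpoly (ZMod 2) x).natDegree ∣ Module.finrank (ZMod 2) k :=
    minpoly.degree_dvd (Algebra.IsIntegral.isIntegral x)
  rw [← h4, hm.natDegree_map] at h5
  have h6 : Nat.card k = 2 ^ Module.finrank (ZMod 2) k := by
    have := Module.card_eq_pow_finrank (K := ZMod 2) (V := k)
    rw [ZMod.card] at this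
    rw [Nat.card_eq_fintype_card, this]
  have h7 : d = Module.finrank (ZMod 2) k := Nat.pow_right_injective le_rfl (by
    change 2 ^ d = 2 ^ Module.finrank (ZMod 2) k
    rw [← hd, h6])
  rw [h7]
  exact h5

theorem prod_C5b {ι : Type} (S : Finset ι) (N : ι → ℕ) (hN : ∀ s t, s ≠ t → Nat.Coprime (N s) (N t)) (d : ℕ)
    (h : ∀ s ∈ S, N s ∣ d) : ∏ s ∈ S, N s ∣ d := by
  refine Finset.prod_dvd_of_isRelPrime ?_ h
  intro a _ b _ hab
  exact Nat.coprime_iff_isRelPrime.1 (hN a b hab)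

theorem card_C5b {r : ℕ} (f : Fin r → ℤ[X]) (S : Finset (Fin r)) :
    Fintype.card (Pt (RY f) S) ≤ ∏ s ∈ S, (f s).natDegree := by
  classical
  rw [← Finset.prod_coe_sort S (fun s => (f s).natDegree)]
  have h1 : Fintype.card (Pt (RY f) S) = ∏ s : S, Nat.card (RY f s) := by
    rw [← Nat.card_eq_fintype_card]
    exact Nat.card_pi
  rw [h1]
  refine Finset.prod_le_prod (fun _ _ => Nat.zero_le _) fun s _ => ?_
  have := ncard_rootSet_le (f s) Qb
  exact this

theorem hC5b : StC5b := by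
  intro h0 r f hf S θ
  obtain ⟨-, hc⟩ := h0 r f hf S
  obtain ⟨-, -, hfin, -⟩ := hc θ
  have hle := card_C5b f S
  rw [← hfin] at hle
  have hn2 : (Ideal.span {(2 : 𝓞 (KS f θ))}).absNorm = 2 ^ Module.finrank ℚ (KS f θ) := by
    have := Ideal.absNorm_span_natCast (S := 𝓞 (KS f θ)) 2
    rw [RingOfIntegers.rank] at this
    exact_mod_cast this
  have hpos : 0 < Module.finrank ℚ (KS f θ) := Module.finrank_pos
  have hne : Ideal.span {(2 : 𝓞 (KS f θ))} ≠ ⊤ := by
    intro h
    rw [h, Ideal.absNorm_top] at hn2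
    have := Nat.one_lt_two_pow hpos.ne'
    omega
  obtain ⟨v, hvmax, hv2⟩ := Ideal.exists_le_maximal _ hne
  have hv2' : (2 : 𝓞 (KS f θ)) ∈ v := hv2 (Ideal.mem_span_singleton_self _)
  have hvbot : v ≠ ⊥ := by
    rintro rfl
    have : (2 : 𝓞 (KS f θ)) = 0 := by simpa only [Ideal.mem_bot] using hv2'
    exact two_ne_zero this
  have hdvd : v.absNorm ∣ 2 ^ Module.finrank ℚ (KS f θ) := by
    rw [← hn2]
    exact Ideal.absNorm_dvd_absNorm_of_le hv2
  obtain ⟨d, hd, hdv⟩ := (Nat.dvd_prime_pow Nat.prime_two).1 hdvd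
  let _ : Field (𝓞 (KS f θ) ⧸ v) := Ideal.Quotient.field v
  have hfink : Finite (𝓞 (KS f θ) ⧸ v) := by
    apply Nat.finite_of_card_ne_zero
    change v.absNorm ≠ 0
    rw [hdv]
    positivity
  have hcard : Nat.card (𝓞 (KS f θ) ⧸ v) = 2 ^ d := hdv
  have hd0 : d ≠ 0 := by
    rintro rfl
    rw [pow_zero] at hcard
    have : 1 < Nat.card (𝓞 (KS f θ) ⧸ v) := Finite.one_lt_card
    omega
  have h20 : (2 : 𝓞 (KS f θ) ⧸ v) = 0 := by
    have := Ideal.Quotient.eq_zero_iff_mem.2 hv2'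
    rw [map_ofNat] at this
    exact this
  have hroot : ∀ s ∈ S, (f s).natDegree ∣ d := by
    intro s hs
    have hmem : ((θ ⟨s, hs⟩).1 : Qb) ∈ KS f θ :=
      IntermediateField.subset_adjoin ℚ _ ⟨⟨s, hs⟩, rfl⟩
    have hr := (θ ⟨s, hs⟩).2
    rw [Polynomial.mem_rootSet'] at hr
    have hr2 : aeval (⟨_, hmem⟩ : KS f θ) (f s) = 0 := by
      apply Subtype.ext
      have := Polynomial.aeval_algebraMap_apply Qb (⟨_, hmem⟩ : KS f θ) (f s)
      exact this.symm.trans hr.2
    have hint : IsIntegral ℤ (⟨_, hmem⟩ : KS f θ) := ⟨f s, hf.monic s, hr2⟩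
    let t : 𝓞 (KS f θ) := ⟨⟨_, hmem⟩, hint⟩
    have ht : eval₂ (Int.castRingHom (𝓞 (KS f θ))) t (f s) = 0 := by
      apply RingOfIntegers.coe_injective
      have := Polynomial.hom_eval₂ (f s) (Int.castRingHom (𝓞 (KS f θ))) (algebraMap (𝓞 (KS f θ)) (KS f θ)) t
      rw [this, map_zero]
      have h5 : (algebraMap (𝓞 (KS f θ)) (KS f θ)).comp (Int.castRingHom (𝓞 (KS f θ))) =
        algebraMap ℤ (KS f θ) := RingHom.ext_int _ _
      rw [h5]
      exact hr2
    refine res_C5b (𝓞 (KS f θ) ⧸ v) h20 (f s) (hf.monic s) (hf.irr2 s) (Ideal.Quotient.mk v t) ?_ d hcard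
    have := Polynomial.hom_eval₂ (f s) (Int.castRingHom (𝓞 (KS f θ))) (Ideal.Quotient.mk v) t
    rw [ht, map_zero] at this
    have h5 : (Ideal.Quotient.mk v).comp (Int.castRingHom (𝓞 (KS f θ))) =
        Int.castRingHom (𝓞 (KS f θ) ⧸ v) := RingHom.ext_int _ _
    rw [h5] at this
    exact this.symm
  have hprod := prod_C5b S (fun s => (f s).natDegree) hf.coprime d hroot
  have hle2 := Nat.le_of_dvd (Nat.pos_of_ne_zero hd0) hprod
  have hdeq : d = Module.finrank ℚ (KS f θ) := by omega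
  obtain ⟨I, hI⟩ := Ideal.dvd_iff_le.2 hv2
  have hnI : I.absNorm = 1 := by
    have h6 : v.absNorm * I.absNorm = v.absNorm * 1 := by
      rw [← map_mul, ← hI, hn2, mul_one, hdv, hdeq]
    refine Nat.eq_of_mul_eq_mul_left ?_ h6
    rw [hdv]
    positivity
  rw [Ideal.absNorm_eq_one_iff] at hnI
  rw [hnI, Ideal.mul_top] at hI
  rw [← Ideal.span_singleton_prime two_ne_zero, hI]
  exact hvmax.isPrime

end Pool.TW
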