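import Pool.Agent.Helper34.TW.StC

set_option autoImplicit false

open scoped Pointwise NumberField TensorProduct
open NumberField Polynomial IsDedekindDomain Pool.RG2

namespace Pool.TW

open NumberField.InfinitePlace NumberField.ComplexEmbedding

section

variable (K : Type) [Field K] [NumberField K]

open scoped Classical in
/-- the contribution of an infinite place to the norm -/
private noncomputable def pw_C6 (w : InfinitePlace K) (z : K) : ℝ :=
  if h : IsReal w then embedding_of_isReal h z else (w z) ^ 2

open scoped Classical in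
private theorem fib_C6 (w : InfinitePlace K) (z : K) :
    ∏ φ ∈ Finset.univ.filter (fun φ : K →+* ℂ => mk φ = w), φ z = ((pw_C6 K w z : ℝ) : ℂ) := by
  have hset : Finset.univ.filter (fun φ : K →+* ℂ => mk φ = w) =
      {embedding w} ∪ {ComplexEmbedding.conjugate (embedding w)} := by
    ext φ
    simp only [Finset.mem_filter, Finset.mem_univ, true_and, Finset.mem_union,
      Finset.mem_singleton]
    constructor
    · intro h
      rcases embedding_mk_eq φ with h1 | h1
      · left; rw [← h, h1]
      · right; rw [← h, h1]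
        exact (star_involutive φ).symm
    · rintro (h | h)
      · rw [h, mk_embedding]
      · rw [h, mk_conjugate_eq, mk_embedding]
  rw [hset]
  by_cases hw : IsReal w
  · rw [conjugate_embedding_eq_of_isReal hw, Finset.union_idempotent, Finset.prod_singleton]
    unfold pw_C6
    rw [dif_pos hw, embedding_of_isReal_apply]
  · have hne : embedding w ≠ ComplexEmbedding.conjugate (embedding w) := by
      intro h
      apply hw
      rw [InfinitePlace.isReal_iff, ComplexEmbedding.isReal_iff]
      exact h.symm
    have hdis : Disjoint ({embedding w} : Finset (K →+* ℂ))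
        {ComplexEmbedding.conjugate (embedding w)} := by
      rw [Finset.disjoint_singleton]
      exact hne
    rw [Finset.prod_union hdis, Finset.prod_singleton, Finset.prod_singleton]
    unfold pw_C6
    rw [dif_neg hw, ComplexEmbedding.conjugate_coe_eq, Complex.mul_conj, Complex.normSq_eq_norm_sq,
      norm_embedding_eq]

open scoped Classical in
private theorem norm_C6 (z : K) : ∏ w : InfinitePlace K, pw_C6 K w z = (Algebra.norm ℚ z : ℝ) := by
  have h1 := Algebra.norm_eq_prod_embeddings ℚ ℂ z
  rw [← Fintype.prod_equiv (RingHom.equivRatAlgHom K ℂ) (fun f => f z)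
      (fun φ => φ z) fun _ => by simp [RingHom.equivRatAlgHom_apply]] at h1
  rw [← Finset.prod_fiberwise Finset.univ mk (fun φ : K →+* ℂ => φ z)] at h1
  simp only [fib_C6] at h1
  rw [← Complex.ofReal_prod] at h1
  have h2 : ((Algebra.norm ℚ z : ℝ) : ℂ) = algebraMap ℚ ℂ (Algebra.norm ℚ z) := by
    rw [eq_ratCast]
    push_cast
    rfl
  rw [← h2] at h1
  exact (Complex.ofReal_injective h1).symm

open scoped Classical in
private theorem pos_C6 (huniq : ∀ φ φ' : K →+* ℝ, φ = φ') (z : K) (hz : z ≠ 0)
    (hsq : IsSquare (Algebra.norm ℚ z)) (w : InfinitePlace K) (hw : IsReal w) :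
    0 ≤ embedding_of_isReal hw z := by
  by_contra hneg
  push Not at hneg
  have h0 : (0 : ℝ) ≤ (Algebra.norm ℚ z : ℝ) := by
    obtain ⟨y, hy⟩ := hsq
    rw [hy]
    push_cast
    exact mul_self_nonneg _
  rw [← norm_C6 K z, ← Finset.mul_prod_erase Finset.univ _ (Finset.mem_univ w)] at h0
  have h1 : pw_C6 K w z < 0 := by
    unfold pw_C6
    rw [dif_pos hw]; exact hneg
  have h2 : 0 < ∏ v ∈ Finset.univ.erase w, pw_C6 K v z := by
    apply Finset.prod_pos
    intro v hv
    have hvw : v ≠ w := (Finset.mem_erase.1 hv).1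
    have hvr : ¬ IsReal v := by
      intro hvr
      apply hvw
      have h3 := huniq (embedding_of_isReal hvr) (embedding_of_isReal hw)
      have h4 : embedding v = embedding w := by
        ext x
        rw [← embedding_of_isReal_apply hvr, ← embedding_of_isReal_apply hw, h3]
      exact embedding_injective K h4
    unfold pw_C6
    rw [dif_neg hvr]
    exact pow_pos (pos_iff.2 hz) 2
  have := mul_neg_of_neg_of_pos h1 h2
  linarith

/-- the map `ℝ ⊗ K → mixedSpace K` -/
private noncomputable def Phi_C6 : (ℝ ⊗[ℚ] K) →ₐ[ℝ] mixedEmbedding.mixedSpace K :=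
  Algebra.TensorProduct.lift (Algebra.ofId ℝ (mixedEmbedding.mixedSpace K))
    (RingHom.toRatAlgHom (mixedEmbedding K)) (fun _ _ => Commute.all _ _)

private theorem Phi_one_C6 (z : K) : Phi_C6 K ((1 : ℝ) ⊗ₜ[ℚ] z) = mixedEmbedding K z := by
  unfold Phi_C6
  rw [Algebra.TensorProduct.lift_tmul, map_one, one_mul]
  rfl

private theorem Phi_surj_C6 : Function.Surjective (Phi_C6 K) := by
  have h : (⊤ : Submodule ℝ (mixedEmbedding.mixedSpace K)) ≤
      LinearMap.range (Phi_C6 K).toLinearMap := by
    rw [← (mixedEmbedding.latticeBasis K).span_eq, Submodule.span_le]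
    rintro _ ⟨i, rfl⟩
    refine ⟨(1 : ℝ) ⊗ₜ[ℚ] (integralBasis K i), ?_⟩
    rw [mixedEmbedding.latticeBasis_apply]
    exact Phi_one_C6 K _
  intro x
  obtain ⟨y, hy⟩ := h (Submodule.mem_top (x := x))
  exact ⟨y, hy⟩

private theorem Phi_inj_C6 : Function.Injective (Phi_C6 K) := by
  have h1 : Module.finrank ℝ (ℝ ⊗[ℚ] K) = Module.finrank ℝ (mixedEmbedding.mixedSpace K) := by
    rw [mixedEmbedding.finrank]
    exact Module.finrank_baseChange
  exact (LinearMap.injective_iff_surjective_of_finrank_eq_finrank
    (f := (Phi_C6 K).toLinearMap) h1).2 (Phi_surj_C6 K)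

end

theorem hC6 : StC6 := by
  intro K _ _ huniq z hz hsq
  have hc : ∀ x : ℂ, ∃ y, y * y = x := fun x => by
    obtain ⟨y, hy⟩ := IsAlgClosed.exists_pow_nat_eq x (n := 2) (by norm_num)
    exact ⟨y, by rw [← hy]; ring⟩
  choose sq hsqc using hc
  let s : mixedEmbedding.mixedSpace K :=
    (fun w => Real.sqrt (embedding_of_isReal w.2 z), fun w => sq (w.1.embedding z))
  have hs : s * s = mixedEmbedding K z := by
    apply Prod.ext
    · funext w
      show Real.sqrt (embedding_of_isReal w.2 z) * Real.sqrt (embedding_of_isReal w.2 z) = _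
      rw [Real.mul_self_sqrt (pos_C6 K huniq z hz hsq w.1 w.2)]
      exact (mixedEmbedding.mixedEmbedding_apply_isReal K z w).symm
    · funext w
      show sq (w.1.embedding z) * sq (w.1.embedding z) = _
      rw [hsqc]
      exact (mixedEmbedding.mixedEmbedding_apply_isComplex K z w).symm
  obtain ⟨t, ht⟩ := Phi_surj_C6 K s
  refine ⟨t, ?_⟩
  apply Phi_inj_C6 K
  rw [map_mul, ht, hs, Phi_one_C6]

end Pool.TW
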