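import Pool.Agent.Helper34.TW.StC
import Pool.Agent.Helper52.RG.M_PROF

/-!
# TW module C7: the primes above a good prime are the orbits of Frobenius
-/

set_option autoImplicit false

open scoped Pointwise NumberField
open NumberField Polynomial IsDedekindDomain Pool.RG2

namespace Pool.TW

private theorem frob_pow_C7 {E : Type} [Field E] (q : ℕ) [Fact q.Prime] [CharP E q] (T : Set E)
    (hT : T.Finite) (hi : ∀ x ∈ T, IsIntegral ℤ x) (τ : E →+* E) :
    ∃ k : ℕ, ∀ x ∈ T, τ x = x ^ q ^ k := by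
  letI := ZMod.algebra E q
  haveI : IsScalarTower ℤ (ZMod q) E := by
    refine ⟨fun a b c => ?_⟩
    rw [Algebra.smul_def, Algebra.smul_def, Algebra.smul_def, Algebra.smul_def, map_mul, mul_assoc]
    congr 1
    simp
  have hi' : ∀ x ∈ T, IsIntegral (ZMod q) x := fun x hx => (hi x hx).tower_top
  haveI : Finite T := hT
  haveI : FiniteDimensional (ZMod q) (IntermediateField.adjoin (ZMod q) T) :=
    IntermediateField.finiteDimensional_adjoin hi'
  haveI : Finite (IntermediateField.adjoin (ZMod q) T) := Module.finite_of_finite (ZMod q)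
  let τ' : E →ₐ[ZMod q] E := { τ with
    commutes' := fun r => by
      have h1 : τ.comp (algebraMap (ZMod q) E) = algebraMap (ZMod q) E := Subsingleton.elim _ _
      exact congrArg (fun g : ZMod q →+* E => g r) h1 }
  obtain ⟨n, hn⟩ := (FiniteField.bijective_frobeniusAlgHom_pow (ZMod q)
    (IntermediateField.adjoin (ZMod q) T)).2
      (τ'.restrictNormal (IntermediateField.adjoin (ZMod q) T))
  refine ⟨n, fun x hx => ?_⟩
  have h1 := τ'.restrictNormal_commutes (IntermediateField.adjoin (ZMod q) T)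
    ⟨x, IntermediateField.subset_adjoin _ _ hx⟩
  rw [← hn] at h1
  have h2 : ((FiniteField.frobeniusAlgHom (ZMod q) (IntermediateField.adjoin (ZMod q) T) ^ (n : ℕ))
      ⟨x, IntermediateField.subset_adjoin _ _ hx⟩) =
      (⟨x, IntermediateField.subset_adjoin _ _ hx⟩ : IntermediateField.adjoin (ZMod q) T) ^ q ^ (n : ℕ) := by
    rw [AlgHom.coe_pow, FiniteField.coe_frobeniusAlgHom, pow_iterate, ZMod.card]
  dsimp only at h1
  rw [h2] at h1
  exact h1.symm

private theorem int_mem_C7 (P : Ideal Zb) (hP : P.IsMaximal) (q : ℕ) (hq : q.Prime) (hqP : (q : Zb) ∈ P)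
    (n : ℤ) : (n : Zb) ∈ P ↔ (q : ℤ) ∣ n := by
  constructor
  · intro h
    by_contra hn
    obtain ⟨a, b, hab⟩ := (Nat.prime_iff_prime_int.1 hq).coprime_iff_not_dvd.2 hn
    have h2 : (1 : Zb) ∈ P := by
      have h1 : (1 : Zb) = (a : Zb) * (q : Zb) + b * n := by
        have := congrArg (fun t : ℤ => (t : Zb)) hab
        push_cast at this
        exact this.symm
      rw [h1]
      exact P.add_mem (P.mul_mem_left _ hqP) (P.mul_mem_left _ h)
    exact hP.ne_top ((Ideal.eq_top_iff_one _).2 h2)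
  · rintro ⟨m, rfl⟩
    push_cast
    exact P.mul_mem_right _ hqP

private theorem conj_C7 (P P' : Ideal Zb) (hP : P.IsMaximal) (hP' : P'.IsMaximal) (q : ℕ) (hq : q.Prime)
    (h1 : (q : Zb) ∈ P) (h2 : (q : Zb) ∈ P') : ∃ g : GQ, g • P = P' := by
  obtain ⟨g, _, hg⟩ := (Pool.Agent.Helper52.RG.tProf ⊥).1 P P' hP hP' (fun x hx => by
    rw [IntermediateField.mem_bot] at hx
    obtain ⟨y, hy⟩ := hx
    have h3 : IsIntegral ℤ y := by
      have h4 : IsIntegral ℤ (x : Qb) := x.isIntegral_coe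
      rw [← hy] at h4
      exact (isIntegral_algebraMap_iff (algebraMap ℚ Qb).injective).1 h4
    obtain ⟨n, hn⟩ := IsIntegrallyClosed.isIntegral_iff.1 h3
    have h5 : x = (n : Zb) := by
      apply RingOfIntegers.ext
      rw [← hy, ← hn]
      simp
    rw [h5, int_mem_C7 P hP q hq h1, int_mem_C7 P' hP' q hq h2])
  exact ⟨g, hg⟩

/-- a root as an algebraic integer -/
private noncomputable def rz_C7 {f : ℤ[X]} (hf : f.Monic) (x : Rt f) : Zb :=
  ⟨x.1, ⟨f, hf, by
    have h := x.2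
    rw [Polynomial.mem_rootSet'] at h
    exact h.2⟩⟩

private theorem rz_smul_C7 {f : ℤ[X]} (hf : f.Monic) (x : Rt f) (g : GQ) :
    g • rz_C7 hf x = rz_C7 hf (g • x) := rfl

private theorem good_C7 {f : ℤ[X]} (hf : f.Monic) {P : Ideal Zb} (hG : GoodAt f P) (x y : Rt f)
    (h : rz_C7 hf x - rz_C7 hf y ∈ P) : x = y := by
  by_contra hne
  exact hG x y hne _ h rfl

private theorem pow_C7 (P : Ideal Zb) (φ : GQ) (q : ℕ) (hφ : ∀ x : Zb, φ • x - x ^ q ∈ P) (k : ℕ) (x : Zb) :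
    φ ^ k • x - x ^ q ^ k ∈ P := by
  induction k with
  | zero => simp
  | succ k ih =>
    have h1 : φ ^ (k + 1) • x - x ^ q ^ (k + 1) =
        (φ • (φ ^ k • x) - (φ ^ k • x) ^ q) + ((φ ^ k • x) ^ q - (x ^ q ^ k) ^ q) := by
      rw [pow_succ' φ k, mul_smul, ← pow_mul, ← pow_succ]
      ring
    rw [h1]
    exact P.add_mem (hφ _) (P.mem_of_dvd (sub_dvd_pow_sub_pow _ _ q) ih)

private theorem phi_C7 (P : Ideal Zb) (hP : P.IsMaximal) (φ : GQ) (q : ℕ) (hq : q.Prime)
    (hφ : ∀ x : Zb, φ • x - x ^ q ∈ P) (k : ℕ) (x : Zb) : φ ^ k • x ∈ P ↔ x ∈ P := by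
  have h1 := pow_C7 P φ q hφ k x
  constructor
  · intro h
    have h2 : x ^ q ^ k ∈ P := by
      have h3 : x ^ q ^ k = φ ^ k • x - (φ ^ k • x - x ^ q ^ k) := by ring
      rw [h3]
      exact P.sub_mem h h1
    exact hP.isPrime.mem_of_pow_mem _ h2
  · intro h
    have h3 : φ ^ k • x = (φ ^ k • x - x ^ q ^ k) + x ^ q ^ k := by ring
    rw [h3]
    exact P.add_mem h1 (P.pow_mem_of_mem h _ (pow_pos hq.pos k))

/-- the homomorphism `a ↦ γ a` -/
private noncomputable def J_C7 (K : Sub) (γ : GQ) : 𝓞 K →+* Zb :=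
  (MulSemiringAction.toRingHom GQ Zb γ).comp (algebraMap (𝓞 K) Zb)

private theorem J_apply_C7 (K : Sub) (γ : GQ) (a : 𝓞 K) : J_C7 K γ a = γ • algebraMap (𝓞 K) Zb a := rfl

/-- a decomposition element acts on the roots as a power of Frobenius -/
private theorem dec_C7 {r : ℕ} (f : Fin r → ℤ[X]) (hf : Hyp f) (S : Finset (Fin r)) (q : ℕ) (hq : q.Prime)
    (P : Ideal Zb) (φ : GQ) (hP : P.IsMaximal) (hqP : (q : Zb) ∈ P) (hφ : ∀ x : Zb, φ • x - x ^ q ∈ P)
    (hG : ∀ s ∈ S, GoodAt (f s) P) (d : GQ) (hd : d • P = P) (y : Pt (RY f) S) :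
    ∃ k : ℕ, d • y = φ ^ k • y := by
  haveI : Fact q.Prime := ⟨hq⟩
  letI : Field (Zb ⧸ P) := Ideal.Quotient.field P
  haveI : CharP (Zb ⧸ P) q := by
    refine (CharP.charP_iff_prime_eq_zero hq).2 ?_
    have := Ideal.Quotient.eq_zero_iff_mem.2 hqP
    rw [map_natCast] at this
    exact this
  let τ : Zb ⧸ P →+* Zb ⧸ P := Ideal.quotientMap P (MulSemiringAction.toRingHom GQ Zb d) (by
    intro x hx
    change d • x ∈ P
    have := Ideal.smul_mem_pointwise_smul d x P hx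
    rwa [hd] at this)
  have hτ : ∀ x : Zb, τ (Ideal.Quotient.mk P x) = Ideal.Quotient.mk P (d • x) := fun x =>
    Ideal.quotientMap_mk
  let F : (Σ s : S, Rt (f s)) → Zb ⧸ P := fun p => Ideal.Quotient.mk P (rz_C7 (hf.monic p.1) p.2)
  obtain ⟨k, hk⟩ := frob_pow_C7 q (Set.range F) (Set.finite_range F) (by
    rintro _ ⟨p, rfl⟩
    have h1 : IsIntegral ℤ (rz_C7 (hf.monic p.1) p.2) := Algebra.IsIntegral.isIntegral _
    exact h1.map (Ideal.Quotient.mkₐ ℤ P)) τ
  refine ⟨k, ?_⟩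
  funext s
  have h1 := hk _ ⟨⟨s, y s⟩, rfl⟩
  change τ (Ideal.Quotient.mk P (rz_C7 (hf.monic s) (y s))) =
    (Ideal.Quotient.mk P (rz_C7 (hf.monic s) (y s))) ^ q ^ k at h1
  rw [hτ, ← map_pow, Ideal.Quotient.eq] at h1
  have h2 := pow_C7 P φ q hφ k (rz_C7 (hf.monic s) (y s))
  have h3 : d • rz_C7 (hf.monic s) (y s) - φ ^ k • rz_C7 (hf.monic s) (y s) ∈ P := by
    have h4 : d • rz_C7 (hf.monic s) (y s) - φ ^ k • rz_C7 (hf.monic s) (y s) =
      (d • rz_C7 (hf.monic s) (y s) - rz_C7 (hf.monic s) (y s) ^ q ^ k) -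
        (φ ^ k • rz_C7 (hf.monic s) (y s) - rz_C7 (hf.monic s) (y s) ^ q ^ k) := by ring
    rw [h4]
    exact P.sub_mem h1 h2
  rw [rz_smul_C7, rz_smul_C7] at h3
  exact good_C7 (hf.monic s) (hG s s.2) _ _ h3

/-- `∑ d_v ≤ n` for the primes above `q`, with the exponents -/
private theorem norm_C7 (K : Type) [Field K] [NumberField K] (q : ℕ) (hq : q.Prime)
    (W : Finset (HeightOneSpectrum (𝓞 K))) (hW : ∀ v ∈ W, (q : 𝓞 K) ∈ v.asIdeal)
    (D : HeightOneSpectrum (𝓞 K) → ℕ) (hD : ∀ v ∈ W, Ideal.absNorm v.asIdeal = q ^ D v)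
    (e : HeightOneSpectrum (𝓞 K) → ℕ) (he : ∀ v ∈ W, (q : 𝓞 K) ∈ v.asIdeal ^ e v) :
    ∑ v ∈ W, e v * D v ≤ Module.finrank ℚ K := by
  have h1 : ∏ v ∈ W, v.asIdeal ^ e v ∣ Ideal.span {(q : 𝓞 K)} := by
    refine Finset.prod_dvd_of_coprime ?_ ?_
    · intro v _ w _ hvw
      refine IsCoprime.pow ?_
      rw [Ideal.isCoprime_iff_sup_eq]
      exact Ideal.IsMaximal.coprime_of_ne v.isMaximal w.isMaximal fun h =>
        hvw (HeightOneSpectrum.ext h)
    · intro v hv
      rw [Ideal.dvd_span_singleton]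
      exact he v hv
  have h2 := map_dvd Ideal.absNorm h1
  rw [map_prod, Ideal.absNorm_span_natCast, RingOfIntegers.rank] at h2
  have h3 : ∏ v ∈ W, Ideal.absNorm (v.asIdeal ^ e v) = q ^ ∑ v ∈ W, e v * D v := by
    rw [← Finset.prod_pow_eq_pow_sum]
    refine Finset.prod_congr rfl fun v hv => ?_
    rw [map_pow, hD v hv, ← pow_mul, mul_comm]
  rw [h3] at h2
  exact (Nat.pow_dvd_pow_iff_le_right hq.one_lt).1 h2

theorem hC7 : StC7 := by
  classical
  intro hC0 r f hf S θ q hq P φ hP hqP hφ hG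
  obtain ⟨htr, h0⟩ := hC0 r f hf S
  obtain ⟨hst, _, hdeg, _⟩ := h0 θ
  choose γ hγ using htr θ
  -- independence of the choice
  have hind : ∀ γ₁ γ₂ : GQ, γ₁ • θ = γ₂ • θ → ∀ a : 𝓞 (KS f θ),
      γ₁ • algebraMap (𝓞 (KS f θ)) Zb a = γ₂ • algebraMap (𝓞 (KS f θ)) Zb a := by
    intro γ₁ γ₂ h a
    have h1 : (γ₂⁻¹ * γ₁) • θ = θ := by rw [mul_smul, h, inv_smul_smul]
    have h2 := (hst _).1 h1
    have h3 : (γ₂⁻¹ * γ₁) • algebraMap (𝓞 (KS f θ)) Zb a = algebraMap (𝓞 (KS f θ)) Zb a := by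
      apply RingOfIntegers.ext
      rw [Pool.RG.coe_smul']
      exact (Pool.RG.mem_GF _ _).1 h2 _ (a : KS f θ).2
    have h4 : γ₂ • ((γ₂⁻¹ * γ₁) • algebraMap (𝓞 (KS f θ)) Zb a) = γ₁ • algebraMap (𝓞 (KS f θ)) Zb a := by
      rw [← mul_smul, mul_inv_cancel_left]
    rw [← h4, h3]
  have hq0 : (q : 𝓞 (KS f θ)) ≠ 0 := Nat.cast_ne_zero.2 hq.ne_zero
  have hqJ : ∀ g : GQ, (q : 𝓞 (KS f θ)) ∈ P.comap (J_C7 (KS f θ) g) := fun g => by
    rw [Ideal.mem_comap, map_natCast]
    exact hqP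
  let V : Pt (RY f) S → HeightOneSpectrum (𝓞 (KS f θ)) := fun y =>
    ⟨P.comap (J_C7 (KS f θ) (γ y)), haveI := hP.isPrime; Ideal.comap_isPrime _ _, fun h => by
      have h1 := hqJ (γ y)
      rw [h] at h1
      exact hq0 ((Ideal.mem_bot).1 h1)⟩
  have hV : ∀ (g : GQ) (a : 𝓞 (KS f θ)),
      a ∈ (V (g • θ)).asIdeal ↔ g • (algebraMap (𝓞 (KS f θ)) Zb a) ∈ P := by
    intro g a
    change γ (g • θ) • algebraMap (𝓞 (KS f θ)) Zb a ∈ P ↔ _
    rw [hind _ g (hγ _)]
  have hVq : ∀ y, (q : 𝓞 (KS f θ)) ∈ (V y).asIdeal := fun y => hqJ (γ y)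
  -- (2)
  have h2 : ∀ y y', V y = V y' ↔ ∃ k : ℕ, y' = φ ^ k • y := by
    intro y y'
    constructor
    · intro hyy
      have e1 : ∀ a : 𝓞 (KS f θ), γ y • algebraMap (𝓞 (KS f θ)) Zb a ∈ P ↔
          γ y' • algebraMap (𝓞 (KS f θ)) Zb a ∈ P := by
        intro a
        rw [← hV (γ y), ← hV (γ y'), hγ, hγ, hyy]
      obtain ⟨h, hh, hhP⟩ := (Pool.Agent.Helper52.RG.tProf (KS f θ)).1 ((γ y)⁻¹ • P) ((γ y')⁻¹ • P)
        (Pool.RG.isMaximal_smul _ _ hP) (Pool.RG.isMaximal_smul _ _ hP) (fun x hx => by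
          have hxi : IsIntegral ℤ (⟨(x : Qb), hx⟩ : KS f θ) := by
            have h4 : IsIntegral ℤ (x : Qb) := x.isIntegral_coe
            exact (isIntegral_algebraMap_iff (algebraMap (KS f θ) Qb).injective).1 h4
          have hx2 : x = algebraMap (𝓞 (KS f θ)) Zb ⟨⟨(x : Qb), hx⟩, hxi⟩ := by
            apply RingOfIntegers.ext
            rfl
          rw [Pool.RG.mem_smul, Pool.RG.mem_smul, inv_inv, inv_inv, hx2]
          exact e1 _)
      have hd : (γ y' * h * (γ y)⁻¹) • P = P := by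
        rw [mul_smul, mul_smul, hhP, smul_inv_smul]
      obtain ⟨k, hk⟩ := dec_C7 f hf S q hq P φ hP hqP hφ hG _ hd y
      refine ⟨k, ?_⟩
      rw [← hk, mul_smul, mul_smul]
      have e2 : (γ y)⁻¹ • y = θ := by rw [inv_smul_eq_iff, hγ]
      rw [e2, (hst h).2 hh, hγ]
    · rintro ⟨k, rfl⟩
      apply HeightOneSpectrum.ext
      ext a
      have e1 : φ ^ k • y = (φ ^ k * γ y) • θ := by rw [mul_smul, hγ]
      rw [e1, hV, mul_smul, phi_C7 P hP φ q hq hφ k, ← hV (γ y), hγ]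
  -- (3)
  have h3 : ∀ v : HeightOneSpectrum (𝓞 (KS f θ)), (q : 𝓞 (KS f θ)) ∈ v.asIdeal → ∃ y, V y = v := by
    intro v hv
    haveI : Algebra.IsIntegral (𝓞 (KS f θ)) Zb := by
      refine ⟨fun x => ?_⟩
      have h1 : IsIntegral ℤ x := Algebra.IsIntegral.isIntegral x
      exact h1.tower_top
    haveI := v.isMaximal
    obtain ⟨P', hP', hPv⟩ := Ideal.exists_ideal_over_maximal_of_isIntegral (S := Zb) v.asIdeal (by
      intro a ha
      rw [RingHom.mem_ker] at ha
      have h1 : a = 0 := by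
        apply RingOfIntegers.ext
        apply Subtype.ext
        exact congrArg (fun t : Zb => (t : Qb)) ha
      rw [h1]
      exact zero_mem _)
    have hqP' : (q : Zb) ∈ P' := by
      have h1 : (q : 𝓞 (KS f θ)) ∈ P'.comap (algebraMap (𝓞 (KS f θ)) Zb) := by
        rw [hPv]
        exact hv
      rw [Ideal.mem_comap, map_natCast] at h1
      exact h1
    obtain ⟨g, hg⟩ := conj_C7 P P' hP hP' q hq hqP hqP'
    refine ⟨g⁻¹ • θ, ?_⟩
    apply HeightOneSpectrum.ext
    ext a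
    rw [hV, ← hPv, Ideal.mem_comap, ← hg, Pool.RG.mem_smul]
  -- the residue degrees
  have hnorm : ∀ y, ∃ d : ℕ, Ideal.absNorm (V y).asIdeal = q ^ d := by
    intro y
    have e1 : Ideal.absNorm (V y).asIdeal ∣ Ideal.absNorm (Ideal.span {(q : 𝓞 (KS f θ))}) :=
      Ideal.absNorm_dvd_absNorm_of_le ((Ideal.span_singleton_le_iff_mem _).2 (hVq y))
    rw [Ideal.absNorm_span_natCast] at e1
    obtain ⟨d, _, hd⟩ := (Nat.dvd_prime_pow hq).1 e1
    exact ⟨d, hd⟩
  choose D hD using hnorm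
  have hDV : ∀ y y', V y = V y' → D y = D y' := fun y y' h => by
    have e1 := hD y
    rw [h, hD y'] at e1
    exact (Nat.pow_right_injective hq.two_le e1).symm
  have hcard : ∀ y, Nat.card (𝓞 (KS f θ) ⧸ (V y).asIdeal) = q ^ D y := fun y => by
    rw [← hD y, Ideal.absNorm_apply, Submodule.cardQuot_apply]
  have hDpos : ∀ y, 0 < D y := by
    intro y
    by_contra h
    have h1 : D y = 0 := by omega
    have h2 := hD y
    rw [h1, pow_zero, Ideal.absNorm_eq_one_iff] at h2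
    exact (V y).isPrime.ne_top h2
  -- the period divides the residue degree
  have hper : ∀ y, Function.minimalPeriod (fun x => φ • x) y ≤ D y := by
    intro y
    refine Function.IsPeriodicPt.minimalPeriod_le (hDpos y) ?_
    have e0 : (fun x : Pt (RY f) S => φ • x)^[D y] y = φ ^ D y • y := by
      rw [smul_iterate]
    change (fun x : Pt (RY f) S => φ • x)^[D y] y = y
    rw [e0]
    funext s
    change φ ^ D y • y s = y s
    refine good_C7 (hf.monic s) (hG s s.2) _ _ ?_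
    rw [← rz_smul_C7]
    have e1 := pow_C7 P φ q hφ (D y) (rz_C7 (hf.monic s) (y s))
    -- the element θ_s of 𝓞 K
    have hθm : ((θ s).1 : Qb) ∈ KS f θ := IntermediateField.subset_adjoin _ _ ⟨s, rfl⟩
    have hθi : IsIntegral ℤ (⟨(θ s).1, hθm⟩ : KS f θ) := by
      have h4 : IsIntegral ℤ ((θ s).1 : Qb) := (rz_C7 (hf.monic s) (θ s)).isIntegral_coe
      exact (isIntegral_algebraMap_iff (algebraMap (KS f θ) Qb).injective).1 h4
    have e2 : algebraMap (𝓞 (KS f θ)) Zb ⟨⟨(θ s).1, hθm⟩, hθi⟩ = rz_C7 (hf.monic s) (θ s) := by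
      apply RingOfIntegers.ext
      rfl
    have e3 : γ y • rz_C7 (hf.monic s) (θ s) = rz_C7 (hf.monic s) (y s) := by
      rw [rz_smul_C7]
      congr 1
      exact congrFun (hγ y) s
    haveI := (V y).isMaximal
    letI : Field (𝓞 (KS f θ) ⧸ (V y).asIdeal) := Ideal.Quotient.field _
    haveI : Finite (𝓞 (KS f θ) ⧸ (V y).asIdeal) := Nat.finite_of_card_ne_zero (by
      rw [hcard]
      exact pow_ne_zero _ hq.ne_zero)
    letI := Fintype.ofFinite (𝓞 (KS f θ) ⧸ (V y).asIdeal)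
    have e4 := FiniteField.pow_card (Ideal.Quotient.mk (V y).asIdeal ⟨⟨(θ s).1, hθm⟩, hθi⟩)
    rw [← Nat.card_eq_fintype_card, hcard, ← map_pow, Ideal.Quotient.eq] at e4
    have e5 := (hV (γ y) _).1 (by rw [hγ]; exact e4)
    rw [map_sub, map_pow, e2, smul_sub, smul_pow', e3] at e5
    have e6 : φ ^ D y • rz_C7 (hf.monic s) (y s) - rz_C7 (hf.monic s) (y s) =
        (φ ^ D y • rz_C7 (hf.monic s) (y s) - rz_C7 (hf.monic s) (y s) ^ q ^ D y) +
          (rz_C7 (hf.monic s) (y s) ^ q ^ D y - rz_C7 (hf.monic s) (y s)) := by ring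
    rw [e6]
    exact P.add_mem e1 e5
  -- counting
  let W : Finset (HeightOneSpectrum (𝓞 (KS f θ))) := Finset.univ.image V
  have hWmem : ∀ y, V y ∈ W := fun y => Finset.mem_image_of_mem _ (Finset.mem_univ y)
  let Y : HeightOneSpectrum (𝓞 (KS f θ)) → Pt (RY f) S := fun v => if h : ∃ y, V y = v then h.choose else θ
  have hY : ∀ v ∈ W, V (Y v) = v := by
    intro v hv
    obtain ⟨y, _, hy⟩ := Finset.mem_image.1 hv
    have h : ∃ y, V y = v := ⟨y, hy⟩
    change V (if h : ∃ y, V y = v then h.choose else θ) = v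
    rw [dif_pos h]
    exact h.choose_spec
  have hfib : ∀ v ∈ W, (Finset.univ.filter fun y => V y = v).card =
      Function.minimalPeriod (fun x => φ • x) (Y v) := by
    intro v hv
    have e1 : (Finset.univ.filter fun y => V y = v) =
        (Finset.range (Function.minimalPeriod (fun x : Pt (RY f) S => φ • x) (Y v))).image
          fun k => φ ^ k • Y v := by
      ext y
      simp only [Finset.mem_filter, Finset.mem_univ, true_and, Finset.mem_image, Finset.mem_range]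
      constructor
      · intro hy
        have e2 : V (Y v) = V y := by rw [hY v hv, hy]
        obtain ⟨k, rfl⟩ := (h2 _ _).1 e2
        have hpos : 0 < Function.minimalPeriod (fun x : Pt (RY f) S => φ • x) (Y v) := by
          rw [Function.minimalPeriod_pos_iff_mem_periodicPts]
          have hinj : Function.Injective (fun x : Pt (RY f) S => φ • x) := MulAction.injective φ
          exact hinj.mem_periodicPts _
        refine ⟨k % Function.minimalPeriod (fun x : Pt (RY f) S => φ • x) (Y v), Nat.mod_lt _ hpos, ?_⟩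
        have e3 : ∀ k, (fun x : Pt (RY f) S => φ • x)^[k] (Y v) = φ ^ k • Y v := fun k => by
          rw [smul_iterate]
        rw [← e3, ← e3, Function.iterate_mod_minimalPeriod_eq]
      · rintro ⟨k, _, rfl⟩
        rw [← (h2 (Y v) (φ ^ k • Y v)).2 ⟨k, rfl⟩, hY v hv]
    rw [e1, Finset.card_image_of_injOn, Finset.card_range]
    intro a ha b hb hab
    have e3 : ∀ k, (fun x : Pt (RY f) S => φ • x)^[k] (Y v) = φ ^ k • Y v := fun k => by
      rw [smul_iterate]
    dsimp only at hab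
    rw [← e3, ← e3] at hab
    exact (Function.iterate_eq_iterate_iff_of_lt_minimalPeriod (Finset.mem_range.1 ha)
      (Finset.mem_range.1 hb)).1 hab
  have hcount : ∑ v ∈ W, Function.minimalPeriod (fun x : Pt (RY f) S => φ • x) (Y v) =
      Module.finrank ℚ (KS f θ) := by
    rw [hdeg, ← Finset.sum_congr rfl hfib, ← Finset.card_univ]
    exact (Finset.card_eq_sum_card_image V Finset.univ).symm
  have hWq : ∀ v ∈ W, (q : 𝓞 (KS f θ)) ∈ v.asIdeal := fun v hv => by
    rw [← hY v hv]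
    exact hVq _
  have hWD : ∀ v ∈ W, Ideal.absNorm v.asIdeal = q ^ D (Y v) := fun v hv => by
    rw [← hD, hY v hv]
  have hle : ∑ v ∈ W, Function.minimalPeriod (fun x : Pt (RY f) S => φ • x) (Y v) ≤ ∑ v ∈ W, D (Y v) :=
    Finset.sum_le_sum fun v _ => hper _
  refine ⟨V, hV, h2, h3, fun y => ⟨hVq y, fun hsq => ?_⟩, fun y => ?_⟩
  · -- (4)
    have e1 := norm_C7 (KS f θ) q hq W hWq (fun v => D (Y v)) hWD (fun v => if v = V y then 2 else 1)
      (fun v hv => by
        by_cases hvy : v = V y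
        · rw [if_pos hvy, hvy]
          exact hsq
        · rw [if_neg hvy, pow_one]
          exact hWq v hv)
    have e2 : ∑ v ∈ W, D (Y v) < ∑ v ∈ W, (if v = V y then 2 else 1) * D (Y v) := by
      refine Finset.sum_lt_sum (fun v _ => ?_) ⟨V y, hWmem y, ?_⟩
      · split_ifs
        · omega
        · omega
      · rw [if_pos rfl]
        have := hDpos (Y (V y))
        omega
    omega
  · -- (5)
    have e1 := norm_C7 (KS f θ) q hq W hWq (fun v => D (Y v)) hWD (fun _ => 1)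
      (fun v hv => by rw [pow_one]; exact hWq v hv)
    simp only [one_mul] at e1
    have e2 : ∑ v ∈ W, Function.minimalPeriod (fun x : Pt (RY f) S => φ • x) (Y v) = ∑ v ∈ W, D (Y v) :=
      le_antisymm hle (by rw [hcount]; exact e1)
    have e3 := (Finset.sum_eq_sum_iff_of_le fun v _ => hper (Y v)).1 e2 (V y) (hWmem y)
    have e4 : V (Y (V y)) = V y := hY _ (hWmem y)
    have e5 : Function.minimalPeriod (fun x : Pt (RY f) S => φ • x) y =
        Function.minimalPeriod (fun x : Pt (RY f) S => φ • x) (Y (V y)) := by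
      obtain ⟨k, hk⟩ := (h2 _ _).1 e4
      conv_lhs => rw [hk]
      have e3' : ∀ k, (fun x : Pt (RY f) S => φ • x)^[k] (Y (V y)) = φ ^ k • Y (V y) := fun k => by
        rw [smul_iterate]
      have hinj : Function.Injective (fun x : Pt (RY f) S => φ • x) := MulAction.injective φ
      rw [← e3']
      exact Function.minimalPeriod_apply_iterate (hinj.mem_periodicPts _) k
    rw [hcard, e5, e3, hDV _ _ e4]

end Pool.TW
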