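import Pool.Agent.Helper34.TW.StC

/-!
# Project TW, module C8 (the value at the inertia element)
-/

set_option autoImplicit false

open scoped Pointwise NumberField
open NumberField Polynomial IsDedekindDomain Pool.RG2

namespace Pool.TW

section dec

variable {K : Type} [Field K] [NumberField K]

theorem val_q_C8 {q : ℕ} {v : HeightOneSpectrum (𝓞 K)} (h1 : (q : 𝓞 K) ∈ v.asIdeal)
    (h2 : (q : 𝓞 K) ∉ v.asIdeal ^ 2) : v.valuation K (q : K) = WithZero.exp (-1 : ℤ) := by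
  have e : (q : K) = algebraMap (𝓞 K) K (q : 𝓞 K) := by simp
  rw [e, HeightOneSpectrum.valuation_of_algebraMap]
  have a1 : v.intValuation (q : 𝓞 K) ≤ WithZero.exp (-((1 : ℕ) : ℤ)) := by
    rw [HeightOneSpectrum.intValuation_le_pow_iff_mem, pow_one]
    exact h1
  have a2 : ¬ v.intValuation (q : 𝓞 K) ≤ WithZero.exp (-((2 : ℕ) : ℤ)) := by
    rw [HeightOneSpectrum.intValuation_le_pow_iff_mem]
    exact h2
  have hne : v.intValuation (q : 𝓞 K) ≠ 0 := by
    intro h0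
    rw [h0] at a2
    exact a2 zero_le
  have e2 : v.intValuation (q : 𝓞 K) = WithZero.exp (WithZero.log (v.intValuation (q : 𝓞 K))) :=
    (WithZero.exp_log hne).symm
  rw [e2] at a1 a2 ⊢
  rw [WithZero.exp_le_exp] at a1 a2
  congr 1
  push_cast at a1 a2
  omega

/-- Decomposition `z = q^n a / b`. -/
theorem dec_C8 {q : ℕ} {v : HeightOneSpectrum (𝓞 K)} (h1 : (q : 𝓞 K) ∈ v.asIdeal)
    (h2 : (q : 𝓞 K) ∉ v.asIdeal ^ 2) (hq0 : (q : K) ≠ 0) {z : K} (hz : z ≠ 0) :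
    ∃ (n : ℤ) (a b : 𝓞 K), a ∉ v.asIdeal ∧ b ∉ v.asIdeal ∧ z * (b : K) = (q : K) ^ n * (a : K) ∧
      v.valuation K z = WithZero.exp (-n) := by
  have hvz : v.valuation K z ≠ 0 := (Valuation.ne_zero_iff _).2 hz
  set n : ℤ := - WithZero.log (v.valuation K z) with hn
  have e1 : v.valuation K z = WithZero.exp (-n) := by
    rw [hn, neg_neg, WithZero.exp_log hvz]
  have e2 : v.valuation K (z * (q : K) ^ (-n)) = 1 := by
    rw [map_mul, map_zpow₀, val_q_C8 h1 h2, e1, ← WithZero.exp_zsmul, ← WithZero.exp_add]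
    rw [← WithZero.exp_zero]
    congr 1
    simp
  obtain ⟨a, ⟨b, hb⟩, hab⟩ := HeightOneSpectrum.exists_primeCompl_mul_eq_of_integer v (z * (q : K) ^ (-n)) e2.le
  have hb' : b ∉ v.asIdeal := hb
  have hvb : v.valuation K (algebraMap (𝓞 K) K b) = 1 := (HeightOneSpectrum.valuation_eq_one_iff_notMem v).2 hb'
  refine ⟨n, a, b, ?_, hb', ?_, e1⟩
  · rw [← HeightOneSpectrum.valuation_eq_one_iff_notMem (K := K), ← hab, map_mul, e2, one_mul]
    exact hvb
  · have h3 : z * (q : K) ^ (-n) * (b : K) = (a : K) := hab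
    rw [← h3]
    have h4 : (q : K) ^ n * (q : K) ^ (-n) = 1 := by
      rw [← zpow_add₀ hq0, add_neg_cancel, zpow_zero]
    linear_combination (-(z * (b : K))) * h4

theorem om_C8 {v : HeightOneSpectrum (𝓞 K)} {z : K} {n : ℤ} (h : v.valuation K z = WithZero.exp (-n)) :
    om v z = (n : ZMod 2) := by
  have key : IsSquare (v.valuation K z) ↔ Even n := by
    rw [h]
    constructor
    · rintro ⟨r, hr⟩
      have hr0 : r ≠ 0 := by
        rintro rfl
        rw [mul_zero] at hr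
        exact WithZero.coe_ne_zero hr
      have h1 := congrArg WithZero.log hr
      rw [WithZero.log_exp, WithZero.log_mul hr0 hr0] at h1
      exact ⟨- WithZero.log r, by omega⟩
    · rintro ⟨k, rfl⟩
      exact ⟨WithZero.exp (-k), by rw [← WithZero.exp_add]; congr 1; ring⟩
  unfold om
  by_cases hs : IsSquare (v.valuation K z)
  · rw [if_pos hs]
    symm
    rw [ZMod.intCast_zmod_eq_zero_iff_dvd]
    exact_mod_cast (key.1 hs).two_dvd
  · rw [if_neg hs]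
    have : Odd n := by
      rw [← Int.not_even_iff_odd]
      exact fun h' => hs (key.2 h')
    symm
    exact (ZMod.intCast_eq_one_iff_odd).2 this

end dec

theorem sg_C8 (n : ℤ) : sg ((n : ℤ) : ZMod 2) = (-1 : Qb) ^ n := by
  unfold sg
  rcases Int.even_or_odd n with h | h
  · rw [if_pos, h.neg_one_zpow]
    rw [ZMod.intCast_zmod_eq_zero_iff_dvd]
    exact_mod_cast h.two_dvd
  · rw [if_neg, h.neg_one_zpow]
    rw [(ZMod.intCast_eq_one_iff_odd).2 h]
    decide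

/-- The unit `t` with `t² = γ(a b)`. -/
theorem tdat_C8 {K : Sub} [NumberField K] {q : ℕ} (hq0 : q ≠ 0) (dt : LocData q) (γ : GQ)
    {v : HeightOneSpectrum (𝓞 K)}
    (hv : ∀ a : 𝓞 K, a ∈ v.asIdeal ↔ γ • (algebraMap (𝓞 K) Zb a) ∈ dt.P) (h1 : (q : 𝓞 K) ∈ v.asIdeal)
    (h2 : (q : 𝓞 K) ∉ v.asIdeal ^ 2) {z : K} {β : Qb} (hz : z ≠ 0) (hβ : β ^ 2 = γ (z : Qb)) :
    ∃ (n : ℤ) (a b : 𝓞 K) (t : Zb), a ∉ v.asIdeal ∧ b ∉ v.asIdeal ∧ z * (b : K) = (q : K) ^ n * (a : K) ∧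
      v.valuation K z = WithZero.exp (-n) ∧ t ^ 2 = γ • (algebraMap (𝓞 K) Zb (a * b)) ∧ t ∉ dt.P ∧
      γ ((b : K) : Qb) ≠ 0 ∧ β * γ ((b : K) : Qb) = (t : Qb) * dt.w ^ n := by
  have hqK : (q : K) ≠ 0 := by exact_mod_cast hq0
  have hqQ : (q : Qb) ≠ 0 := by exact_mod_cast hq0
  have hw0 : dt.w ≠ 0 := by
    intro h0
    have := dt.hw
    rw [h0] at this
    exact hqQ (by rw [← this]; simp)
  obtain ⟨n, a, b, ha, hb, hzab, hval⟩ := dec_C8 h1 h2 hqK hz
  have hb0 : (b : K) ≠ 0 := by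
    intro h0
    have : b = 0 := by exact_mod_cast h0
    rw [this] at hb
    exact hb (zero_mem _)
  have hbQ : γ ((b : K) : Qb) ≠ 0 := by
    rw [_root_.map_ne_zero]
    intro h0
    exact hb0 (by exact_mod_cast h0)
  set u : Qb := β * γ ((b : K) : Qb) * (dt.w ^ n)⁻¹ with hu
  have hwn : dt.w ^ n ≠ 0 := zpow_ne_zero _ hw0
  have hu2 : u ^ 2 = ((γ • (algebraMap (𝓞 K) Zb (a * b)) : Zb) : Qb) := by
    have e1 : ((γ • (algebraMap (𝓞 K) Zb (a * b)) : Zb) : Qb) = γ ((a : K) : Qb) * γ ((b : K) : Qb) := by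
      change γ (((a * b : 𝓞 K) : K) : Qb) = _
      rw [← map_mul]
      congr 1
    have e2 : (z : Qb) * ((b : K) : Qb) = (q : Qb) ^ n * ((a : K) : Qb) := by
      have := congrArg (algebraMap K Qb) hzab
      rwa [map_mul, map_mul, map_zpow₀, map_natCast] at this
    have e3 : γ (z : Qb) * γ ((b : K) : Qb) = (q : Qb) ^ n * γ ((a : K) : Qb) := by
      rw [← map_mul, e2, map_mul, map_zpow₀, map_natCast]
    have e4 : (dt.w ^ n) ^ 2 = (q : Qb) ^ n := by
      rw [← dt.hw, ← zpow_natCast, ← zpow_natCast, ← zpow_mul, ← zpow_mul, mul_comm]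
    have hqn : (q : Qb) ^ n ≠ 0 := zpow_ne_zero _ hqQ
    rw [e1, hu, mul_pow, mul_pow, inv_pow, e4, hβ]
    rw [show γ (z : Qb) * γ ((b : K) : Qb) ^ 2 = (γ (z : Qb) * γ ((b : K) : Qb)) * γ ((b : K) : Qb) by ring, e3]
    field_simp
  have hint : IsIntegral ℤ u := by
    have : IsIntegral ℤ (u ^ 2) := by
      rw [hu2]
      exact (γ • (algebraMap (𝓞 K) Zb (a * b)) : Zb).2
    exact this.of_pow (by norm_num)
  obtain ⟨t, ht⟩ : ∃ t : Zb, (t : Qb) = u := ⟨⟨u, hint⟩, rfl⟩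
  have h4 : t ^ 2 = γ • (algebraMap (𝓞 K) Zb (a * b)) := by
    apply RingOfIntegers.ext
    rw [← hu2, ← ht]
    simp
  refine ⟨n, a, b, t, ha, hb, hzab, hval, h4, ?_, hbQ, ?_⟩
  · intro hmem
    have h3 : t ^ 2 ∈ dt.P := Ideal.pow_mem_of_mem _ hmem 2 (by norm_num)
    rw [h4, ← hv] at h3
    rcases v.isPrime.mem_or_mem h3 with h | h
    · exact ha h
    · exact hb h
  · rw [ht, hu]
    field_simp

theorem two_C8 {q : ℕ} (hq : q.Prime) (hq2 : q ≠ 2) (dt : LocData q) : (2 : Zb) ∉ dt.P := by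
  intro h
  have hco : Nat.Coprime q 2 := (Nat.coprime_primes hq Nat.prime_two).2 hq2
  have h1 : (1 : Zb) ∈ dt.P := by
    have e := Nat.gcd_eq_gcd_ab q 2
    rw [hco.gcd_eq_one] at e
    have e' : (1 : Zb) = (q : Zb) * ((Nat.gcdA q 2 : ℤ) : Zb) + (2 : Zb) * ((Nat.gcdB q 2 : ℤ) : Zb) := by
      have := congrArg (fun x : ℤ => (x : Zb)) e
      push_cast at this
      exact this
    rw [e']
    exact add_mem (Ideal.mul_mem_right _ _ dt.hq) (Ideal.mul_mem_right _ _ h)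
  exact dt.hP.ne_top ((Ideal.eq_top_iff_one _).2 h1)

theorem hC8 : StC8 := by
  intro K _ q hq hq2 dt γ hfix v hv h1 h2 z β hz hβ
  obtain ⟨n, a, b, t, ha, hb, hzab, hval, ht2, htP, hbQ, hβt⟩ := tdat_C8 hq.ne_zero dt γ hv h1 h2 hz hβ
  have hmax := dt.hP
  have hprime := hmax.isPrime
  have hfixK : ∀ x : K, dt.σ (γ (x : Qb)) = γ (x : Qb) := fun x => hfix _ x.2
  have hσt : dt.σ (t : Qb) = t := by
    have e1 : ((t ^ 2 : Zb) : Qb) = γ (((a * b : 𝓞 K) : K) : Qb) := by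
      rw [ht2]; rfl
    have e2 : (dt.σ (t : Qb)) ^ 2 = (t : Qb) ^ 2 := by
      have e3 : (t : Qb) ^ 2 = γ (((a * b : 𝓞 K) : K) : Qb) := by rw [← e1]; simp
      rw [← map_pow, e3, hfixK]
    rcases sq_eq_sq_iff_eq_or_eq_neg.1 e2 with h | h
    · exact h
    · exfalso
      have h3 : dt.σ • t - t ∈ dt.P := (Pool.RG.mem_Ine _ _).1 dt.hσ t
      have h4 : dt.σ • t - t = -(2 * t) := by
        apply RingOfIntegers.ext
        change dt.σ (t : Qb) - (t : Qb) = -(2 * (t : Qb))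
        rw [h]; ring
      rw [h4, neg_mem_iff] at h3
      rcases hprime.mem_or_mem h3 with h5 | h5
      · exact two_C8 hq hq2 dt h5
      · exact htP h5
  have e5 : dt.σ (β * γ ((b : K) : Qb)) = dt.σ ((t : Qb) * dt.w ^ n) := by rw [hβt]
  rw [map_mul, map_mul, map_zpow₀, dt.hσw, hσt, hfixK] at e5
  rw [om_C8 hval, sg_C8]
  apply mul_right_cancel₀ hbQ
  rw [e5, mul_assoc, hβt]
  rw [show (-dt.w : Qb) = (-1) * dt.w by ring, mul_zpow]
  ring

end Pool.TW
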