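import Pool.Agent.Helper34.TW.M_C8

/-!
# Project TW, module C9 (the value at the Frobenius element)
-/

set_option autoImplicit false

open scoped Pointwise NumberField
open NumberField Polynomial IsDedekindDomain Pool.RG2

namespace Pool.TW

private theorem frob_C9 {q : ℕ} (dt : LocData q) (m : ℕ) (x : Zb) :
    (dt.φ ^ m) • x - x ^ (q ^ m) ∈ dt.P := by
  have hpres : ∀ y ∈ dt.P, dt.φ • y ∈ dt.P := by
    intro y hy
    rcases Nat.eq_zero_or_pos q with h0 | hpos
    · have h1 : (1 : Zb) ∈ dt.P := by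
        have h2 := dt.hφ 0
        subst h0
        simp only [smul_zero, pow_zero, zero_sub, neg_mem_iff] at h2
        exact h2
      exact absurd ((Ideal.eq_top_iff_one _).2 h1) dt.hP.ne_top
    · have h2 := dt.hφ y
      have h3 : y ^ q ∈ dt.P := Ideal.pow_mem_of_mem _ hy q hpos
      have h4 := add_mem h2 h3
      rwa [sub_add_cancel] at h4
  induction m with
  | zero => simp
  | succ m ih =>
    have h1 : dt.φ • ((dt.φ ^ m) • x - x ^ (q ^ m)) ∈ dt.P := hpres _ ih
    have h2 := dt.hφ (x ^ (q ^ m))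
    have h3 := add_mem h1 h2
    have e : dt.φ • ((dt.φ ^ m) • x - x ^ (q ^ m)) + (dt.φ • x ^ (q ^ m) - (x ^ (q ^ m)) ^ q) =
        (dt.φ ^ (m + 1)) • x - x ^ (q ^ (m + 1)) := by
      rw [smul_sub, ← mul_smul, ← pow_succ', ← pow_mul, ← pow_succ]
      ring
    rwa [e] at h3

/-- `ep` in terms of the residue of `a b`. -/
private theorem ep_C9 {K : Type} [Field K] [NumberField K] {q : ℕ} {v : HeightOneSpectrum (𝓞 K)}
    (h1 : (q : 𝓞 K) ∈ v.asIdeal) (h2 : (q : 𝓞 K) ∉ v.asIdeal ^ 2) (hq0 : (q : K) ≠ 0) {z : K}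
    {n : ℤ} {a b : 𝓞 K} (ha : a ∉ v.asIdeal) (hb : b ∉ v.asIdeal) (hz : z * (b : K) = (q : K) ^ n * (a : K))
    (hval : v.valuation K z = WithZero.exp (-n)) :
    (∃ (n' : ℤ) (y : K), v.valuation K (z * (q : K) ^ n' * y ^ 2 - 1) < 1) ↔
      ∃ s : 𝓞 K, a * b - s ^ 2 ∈ v.asIdeal := by
  have hvone : ∀ x : 𝓞 K, x ∉ v.asIdeal → v.valuation K (x : K) = 1 := fun x hx =>
    (HeightOneSpectrum.valuation_eq_one_iff_notMem v).2 hx
  have hvlt : ∀ x : 𝓞 K, x ∈ v.asIdeal ↔ v.valuation K (x : K) < 1 := fun x =>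
    (HeightOneSpectrum.valuation_lt_one_iff_mem v x).symm
  have hne : ∀ x : 𝓞 K, x ∉ v.asIdeal → (x : K) ≠ 0 := by
    intro x hx h0
    have : x = 0 := by exact_mod_cast h0
    rw [this] at hx
    exact hx (zero_mem _)
  have hqn : ∀ k : ℤ, (q : K) ^ k ≠ 0 := fun k => zpow_ne_zero _ hq0
  have hb0 := hne b hb
  have hzv : z = (q : K) ^ n * (a : K) / (b : K) := by
    rw [eq_div_iff hb0, hz]
  have hprime := v.isPrime
  constructor
  · rintro ⟨n', y, hy⟩
    -- the valuation of `z q^n' y^2` is 1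
    have hv1 : v.valuation K (z * (q : K) ^ n' * y ^ 2) = 1 := by
      have e := Valuation.map_add_eq_of_lt_right (v.valuation K) (x := z * (q : K) ^ n' * y ^ 2 - 1) (y := 1)
        (by rw [map_one]; exact hy)
      rw [sub_add_cancel, map_one] at e
      exact e
    have hy0 : y ≠ 0 := by
      rintro rfl
      simp at hv1
    have hvy : v.valuation K y ≠ 0 := (Valuation.ne_zero_iff _).2 hy0
    obtain ⟨k, hk⟩ : ∃ k : ℤ, v.valuation K y = WithZero.exp (-k) :=
      ⟨- WithZero.log (v.valuation K y), by rw [neg_neg, WithZero.exp_log hvy]⟩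
    have hn' : n' = -n - 2 * k := by
      have e := hv1
      rw [map_mul, map_mul, map_zpow₀, map_pow, val_q_C8 h1 h2, hval, hk, ← WithZero.exp_zsmul,
        ← WithZero.exp_nsmul, ← WithZero.exp_add, ← WithZero.exp_add, ← WithZero.exp_zero] at e
      have e2 := WithZero.exp_injective e
      simp only [smul_eq_mul, nsmul_eq_mul] at e2
      push_cast at e2
      omega
    -- the unit `x = y q^(-k) / b`
    set x : K := y * (q : K) ^ (-k) / (b : K) with hx
    have hvx : v.valuation K x = 1 := by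
      rw [hx, map_div₀, map_mul, map_zpow₀, val_q_C8 h1 h2, hk, hvone b hb, div_one, ← WithZero.exp_zsmul,
        ← WithZero.exp_add, ← WithZero.exp_zero]
      congr 1
      simp
    have e3 : z * (q : K) ^ n' * y ^ 2 = ((a * b : 𝓞 K) : K) * x ^ 2 := by
      have e4 : (q : K) ^ n * (q : K) ^ n' = ((q : K) ^ (-k)) ^ 2 := by
        rw [← zpow_add₀ hq0, ← zpow_natCast, ← zpow_mul, hn']
        congr 1
        push_cast
        ring
      have e5 : ((a * b : 𝓞 K) : K) = (a : K) * (b : K) := by simp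
      rw [hzv, hx, e5]
      have e6 : (q : K) ^ n * (a : K) / (b : K) * (q : K) ^ n' * y ^ 2 =
          ((q : K) ^ n * (q : K) ^ n') * ((a : K) / (b : K) * y ^ 2) := by ring
      rw [e6, e4]
      field_simp
    obtain ⟨e, ⟨d, hd⟩, hed⟩ := HeightOneSpectrum.exists_primeCompl_mul_eq_of_integer v x hvx.le
    have hd' : d ∉ v.asIdeal := hd
    have he : e ∉ v.asIdeal := by
      rw [← HeightOneSpectrum.valuation_eq_one_iff_notMem (K := K), ← hed, map_mul, hvx, one_mul]
      exact hvone d hd'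
    have hed' : x * (d : K) = (e : K) := hed
    have hmem : a * b * e ^ 2 - d ^ 2 ∈ v.asIdeal := by
      rw [hvlt]
      have e7 : ((a * b * e ^ 2 - d ^ 2 : 𝓞 K) : K) = (z * (q : K) ^ n' * y ^ 2 - 1) * (d : K) ^ 2 := by
        rw [e3]
        have : ((a * b * e ^ 2 - d ^ 2 : 𝓞 K) : K) = ((a * b : 𝓞 K) : K) * (e : K) ^ 2 - (d : K) ^ 2 := by
          simp
        rw [this, ← hed']
        ring
      rw [e7, map_mul, map_pow, hvone d hd', one_pow, mul_one]
      exact hy
    -- invert `e` modulo `v`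
    obtain ⟨e', he'⟩ : ∃ e' : 𝓞 K, e * e' - 1 ∈ v.asIdeal := by
      have hmax : v.asIdeal.IsMaximal := v.isMaximal
      obtain ⟨e', h⟩ := hmax.exists_inv he
      obtain ⟨i, hi, h3⟩ := h
      refine ⟨e', ?_⟩
      have : e * e' - 1 = -i := by rw [← h3]; ring
      rw [this]
      exact neg_mem hi
    refine ⟨d * e', ?_⟩
    have e8 : a * b - (d * e') ^ 2 = (a * b * e ^ 2 - d ^ 2) * e' ^ 2 - a * b * (e * e' + 1) * (e * e' - 1) := by
      ring
    rw [e8]
    exact sub_mem (Ideal.mul_mem_right _ _ hmem) (Ideal.mul_mem_left _ _ he')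
  · rintro ⟨s, hs⟩
    have hab : a * b ∉ v.asIdeal := by
      intro h
      rcases hprime.mem_or_mem h with h | h
      · exact ha h
      · exact hb h
    have hs' : s ∉ v.asIdeal := by
      intro h
      apply hab
      have : a * b = (a * b - s ^ 2) + s ^ 2 := by ring
      rw [this]
      exact add_mem hs (Ideal.pow_mem_of_mem _ h 2 (by norm_num))
    have hs0 := hne s hs'
    refine ⟨-n, (b : K) / (s : K), ?_⟩
    have e1 : z * (q : K) ^ (-n) * ((b : K) / (s : K)) ^ 2 - 1 = ((a * b - s ^ 2 : 𝓞 K) : K) / (s : K) ^ 2 := by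
      have e2 : ((a * b - s ^ 2 : 𝓞 K) : K) = (a : K) * (b : K) - (s : K) ^ 2 := by simp
      have e3 : (q : K) ^ n * (q : K) ^ (-n) = 1 := by
        rw [← zpow_add₀ hq0, add_neg_cancel, zpow_zero]
      rw [e2, hzv]
      have e6 : (q : K) ^ n * (a : K) / (b : K) * (q : K) ^ (-n) * ((b : K) / (s : K)) ^ 2 =
          ((q : K) ^ n * (q : K) ^ (-n)) * ((a : K) / (b : K) * ((b : K) / (s : K)) ^ 2) := by ring
      rw [e6, e3]
      field_simp
    rw [e1, map_div₀, map_pow, hvone s hs', one_pow, div_one]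
    exact (hvlt _).1 hs

theorem hC9 : StC9 := by
  intro K _ q hq hq2 dt γ m hm hfix v hv h1 h2 hcard z β hz hβ
  obtain ⟨n, a, b, t, ha, hb, hzab, hval, ht2, htP, hbQ, hβt⟩ := tdat_C8 hq.ne_zero dt γ hv h1 h2 hz hβ
  have hprime := dt.hP.isPrime
  have h2P := two_C8 hq hq2 dt
  have hfixK : ∀ x : K, (dt.φ ^ m) (γ (x : Qb)) = γ (x : Qb) := fun x => hfix _ x.2
  have hφw : (dt.φ ^ m) dt.w = dt.w := by
    clear hm hfix hcard hfixK
    induction m with
    | zero => simp
    | succ m ih =>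
      rw [pow_succ, AlgEquiv.mul_apply, dt.hφw, ih]
  have hqm : q ^ m = 2 * ((q ^ m) / 2) + 1 := by
    have : Odd (q ^ m) := (hq.odd_of_ne_two hq2).pow
    have := Nat.two_mul_div_two_add_one_of_odd this
    omega
  set N := (q ^ m) / 2 with hN
  -- the sign
  have hsign : (dt.φ ^ m) (t : Qb) = t ∨ (dt.φ ^ m) (t : Qb) = -(t : Qb) := by
    have e3 : (t : Qb) ^ 2 = γ (((a * b : 𝓞 K) : K) : Qb) := by
      have e1 : ((t ^ 2 : Zb) : Qb) = γ (((a * b : 𝓞 K) : K) : Qb) := by
        rw [ht2]; rfl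
      rw [← e1]; simp
    have e2 : ((dt.φ ^ m) (t : Qb)) ^ 2 = (t : Qb) ^ 2 := by
      rw [← map_pow, e3, hfixK]
    exact sq_eq_sq_iff_eq_or_eq_neg.1 e2
  -- transfer of congruences
  have htrans : ∀ x : 𝓞 K, x ∈ v.asIdeal → γ • (algebraMap (𝓞 K) Zb x) ∈ dt.P := fun x hx => (hv x).1 hx
  have hpowt : t ^ (q ^ m) = t * (γ • (algebraMap (𝓞 K) Zb ((a * b) ^ N))) := by
    rw [hqm, pow_succ, pow_mul, ht2, map_pow, smul_pow', mul_comm]
  have hfrob := frob_C9 dt m t
  rw [hpowt] at hfrob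
  have hab : a * b ∉ v.asIdeal := by
    intro h
    rcases v.isPrime.mem_or_mem h with h | h
    · exact ha h
    · exact hb h
  -- Euler's criterion
  have hmax : v.asIdeal.IsMaximal := v.isMaximal
  letI : Field (𝓞 K ⧸ v.asIdeal) := Ideal.Quotient.field v.asIdeal
  haveI : Finite (𝓞 K ⧸ v.asIdeal) := by
    apply Nat.finite_of_card_ne_zero
    rw [hcard]
    exact pow_ne_zero _ hq.ne_zero
  letI : Fintype (𝓞 K ⧸ v.asIdeal) := Fintype.ofFinite _
  have hcard' : Fintype.card (𝓞 K ⧸ v.asIdeal) = q ^ m := by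
    rw [← Nat.card_eq_fintype_card, hcard]
  have hF : ringChar (𝓞 K ⧸ v.asIdeal) ≠ 2 := by
    intro h
    have h3 : ((2 : ℕ) : 𝓞 K ⧸ v.asIdeal) = 0 := by
      rw [← h]
      exact ringChar.Nat.cast_ringChar
    have h4 : (2 : 𝓞 K) ∈ v.asIdeal := by
      rw [← Ideal.Quotient.eq_zero_iff_mem, map_ofNat]
      exact_mod_cast h3
    have h5 := htrans _ h4
    apply h2P
    have : γ • (algebraMap (𝓞 K) Zb (2 : 𝓞 K)) = (2 : Zb) := by
      rw [map_ofNat]
      apply RingOfIntegers.ext
      change γ ((2 : Zb) : Qb) = ((2 : Zb) : Qb)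
      have e : ((2 : Zb) : Qb) = 2 := rfl
      rw [e, map_ofNat]
    rwa [this] at h5
  set ab : 𝓞 K ⧸ v.asIdeal := Ideal.Quotient.mk v.asIdeal (a * b) with habdef
  have hab0 : ab ≠ 0 := by
    rw [habdef, Ne, Ideal.Quotient.eq_zero_iff_mem]
    exact hab
  have hsqiff : (∃ s : 𝓞 K, a * b - s ^ 2 ∈ v.asIdeal) ↔ IsSquare ab := by
    constructor
    · rintro ⟨s, hs⟩
      refine ⟨Ideal.Quotient.mk _ s, ?_⟩
      rw [habdef, ← map_mul, ← sq]
      exact Ideal.Quotient.eq.2 hs
    · rintro ⟨s, hs⟩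
      obtain ⟨s, rfl⟩ := Ideal.Quotient.mk_surjective s
      refine ⟨s, ?_⟩
      rw [← map_mul, ← sq, habdef] at hs
      exact Ideal.Quotient.eq.1 hs
  have hgone : γ • (algebraMap (𝓞 K) Zb 1) = (1 : Zb) := by
    rw [map_one, smul_one]
  have hfin : (dt.φ ^ m) (t : Qb) = sg (ep q v z) * t := by
    by_cases hS : IsSquare ab
    · have hep : ep q v z = 0 := by
        unfold ep
        rw [if_pos]
        rw [ep_C9 h1 h2 (by exact_mod_cast hq.ne_zero) ha hb hzab hval, hsqiff]
        exact hS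
      have hsg : sg (ep q v z) = 1 := by rw [hep]; simp [sg]
      rw [hsg, one_mul]
      rcases hsign with h | h
      · exact h
      · exfalso
        have h3 : ab ^ (Fintype.card (𝓞 K ⧸ v.asIdeal) / 2) = 1 := (FiniteField.isSquare_iff hF hab0).1 hS
        rw [hcard', ← hN, habdef, ← map_pow, ← map_one (Ideal.Quotient.mk v.asIdeal)] at h3
        have h4 := htrans _ (Ideal.Quotient.eq.1 h3)
        rw [map_sub, smul_sub, hgone] at h4
        have h5 : (dt.φ ^ m) • t = -t := by
          apply RingOfIntegers.ext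
          change (dt.φ ^ m) (t : Qb) = -(t : Qb)
          exact h
        rw [h5] at hfrob
        have h6 : 2 * t ∈ dt.P := by
          have h7 := Ideal.mul_mem_left dt.P t h4
          have h8 := add_mem hfrob h7
          have e : -t - t * (γ • (algebraMap (𝓞 K) Zb ((a * b) ^ N))) +
              t * (γ • (algebraMap (𝓞 K) Zb ((a * b) ^ N)) - 1) = -(2 * t) := by ring
          rw [e, neg_mem_iff] at h8
          exact h8
        rcases hprime.mem_or_mem h6 with h | h
        · exact h2P h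
        · exact htP h
    · have hep : ep q v z = 1 := by
        unfold ep
        rw [if_neg]
        rw [ep_C9 h1 h2 (by exact_mod_cast hq.ne_zero) ha hb hzab hval, hsqiff]
        exact hS
      have hsg : sg (ep q v z) = -1 := by rw [hep]; simp [sg]
      rw [hsg, neg_one_mul]
      rcases hsign with h | h
      · exfalso
        have h3 : ab ^ (Fintype.card (𝓞 K ⧸ v.asIdeal) / 2) = -1 := by
          rcases FiniteField.pow_dichotomy hF hab0 with h' | h'
          · exact absurd ((FiniteField.isSquare_iff hF hab0).2 h') hS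
          · exact h'
        rw [hcard', ← hN, habdef, ← map_pow, ← map_one (Ideal.Quotient.mk v.asIdeal), ← map_neg] at h3
        have h4 := htrans _ (Ideal.Quotient.eq.1 h3)
        rw [map_sub, map_neg, smul_sub, smul_neg, hgone] at h4
        have h5 : (dt.φ ^ m) • t = t := by
          apply RingOfIntegers.ext
          exact h
        rw [h5] at hfrob
        have h6 : 2 * t ∈ dt.P := by
          have h7 := Ideal.mul_mem_left dt.P t h4
          have h8 := add_mem hfrob h7
          have e : t - t * (γ • (algebraMap (𝓞 K) Zb ((a * b) ^ N))) +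
              t * (γ • (algebraMap (𝓞 K) Zb ((a * b) ^ N)) - -1) = 2 * t := by ring
          rw [e] at h8
          exact h8
        rcases hprime.mem_or_mem h6 with h | h
        · exact h2P h
        · exact htP h
      · exact h
  have e5 : (dt.φ ^ m) (β * γ ((b : K) : Qb)) = (dt.φ ^ m) ((t : Qb) * dt.w ^ n) := by rw [hβt]
  rw [map_mul, map_mul, map_zpow₀, hφw, hfin, hfixK] at e5
  apply mul_right_cancel₀ hbQ
  rw [e5, mul_assoc, mul_assoc, hβt]

end Pool.TW
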