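import Pool.Agent.Helper34.TW.StD
import Pool.Agent.Helper2.RG.M_LIFT
import Pool.Agent.Helper52.RG.M_PROF
import Pool.Agent.Helper45.RG.M_CONJ

/-!
# Project TW, module D10: Minkowski's theorem for open subgroups
-/

set_option autoImplicit false

open scoped Pointwise NumberField
open NumberField Polynomial IsDedekindDomain Pool.RG2 Filter Topology

namespace Pool.TW

/-- A Galois number field different from `ℚ` has a nontrivial inertia group. -/
theorem ine_D10 (K : Type) [Field K] [NumberField K] [IsGalois ℚ K] (h : Module.finrank ℚ K ≠ 1) :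
    ∃ (p : Ideal (𝓞 K)) (τ : Gal(K/ℚ)), p.IsMaximal ∧ τ ≠ 1 ∧ ∀ x : 𝓞 K, τ • x - x ∈ p := by
  obtain ⟨P, hP, hP'⟩ := NumberField.exists_not_isUnramifiedAt_int (𝒪 := 𝓞 K) h
  have := IsGaloisGroup.of_isFractionRing Gal(K/ℚ) ℤ (𝓞 K) ℚ K
  have hPp : P.IsPrime := hP.isPrime
  rw [← Ideal.ramificationIdx_eq_one_iff,
    ← Ideal.ramificationIdxIn_eq_ramificationIdx (P.under ℤ) _ Gal(K/ℚ),
    ← Ideal.card_inertia_eq_ramificationIdxIn (G := Gal(K/ℚ)) (P.under ℤ) P] at hP'
  have h2 : (P.inertia Gal(K/ℚ)) ≠ ⊥ := by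
    intro h3
    rw [h3] at hP'
    exact hP' (by simp)
  obtain ⟨⟨τ, hτ⟩, hτ1⟩ := Subgroup.ne_bot_iff_exists_ne_one.mp h2
  refine ⟨P, τ, hP, ?_, fun x => hτ x⟩
  rintro rfl
  exact hτ1 rfl

/-- Minkowski for normal subgroups. -/
theorem norm_D10 (U : Subgroup GQ) (hU : IsOpen (U : Set GQ)) (hn : U.Normal)
    (hI : ∀ P : Ideal Zb, P.IsMaximal → Ine P ≤ U) : U = ⊤ := by
  have hcl : IsClosed (U : Set GQ) := U.isClosed_of_isOpen hU
  let F : Sub := IntermediateField.fixedField U
  have hF : F.fixingSubgroup = U := InfiniteGalois.fixingSubgroup_fixedField ⟨U, hcl⟩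
  have hfin : FiniteDimensional ℚ F := by
    rw [← InfiniteGalois.isOpen_iff_finite, hF]
    exact hU
  have hgal : IsGalois ℚ F := (InfiniteGalois.normal_iff_isGalois F).mp (by rw [hF]; exact hn)
  have : NumberField F := { to_charZero := inferInstance, to_finiteDimensional := hfin }
  have hone : Module.finrank ℚ F = 1 := by
    by_contra hne
    obtain ⟨p, τ, hp, hτ1, hτ⟩ := ine_D10 F hne
    obtain ⟨g, hg⟩ := AlgEquiv.restrictNormalHom_surjective (F := ℚ) (K₁ := F) Qb τ
    obtain ⟨P, hPm, hPp⟩ := Ideal.exists_ideal_over_maximal_of_isIntegral (S := Zb) p (by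
      rw [(RingHom.injective_iff_ker_eq_bot _).mp]
      · exact bot_le
      · intro a b hab
        have h1 : ((algebraMap (𝓞 F) Zb a : Zb) : Qb) = ((algebraMap (𝓞 F) Zb b : Zb) : Qb) :=
          congrArg _ hab
        exact RingOfIntegers.ext (Subtype.ext h1))
    have hgx : ∀ y : 𝓞 F, g • (algebraMap (𝓞 F) Zb y) = algebraMap (𝓞 F) Zb (τ • y) := by
      intro y
      apply RingOfIntegers.ext
      change g ((y : F) : Qb) = ((τ (y : F) : F) : Qb)
      rw [← hg]
      exact (AlgEquiv.restrictNormal_commutes g F (y : F)).symm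
    obtain ⟨σ, hσ, hσg⟩ := Pool.Agent.Helper2.RG.tLift Pool.Agent.Helper52.RG.tProf ⊥ F bot_le (by
      intro a _ b hb
      change a * b * a⁻¹ ∈ F.fixingSubgroup
      have hb' : b ∈ F.fixingSubgroup := hb
      rw [hF] at hb' ⊢
      exact hn.conj_mem b hb' a) P hPm g (by
        change g ∈ (⊥ : Sub).fixingSubgroup
        rw [IntermediateField.fixingSubgroup_bot]
        trivial) (by
        intro x hx
        have hxi : IsIntegral ℤ (⟨(x : Qb), hx⟩ : F) :=
          (isIntegral_algebraMap_iff (A := F) (B := Qb) (algebraMap F Qb).injective).mp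
            (RingOfIntegers.isIntegral_coe x)
        let y : 𝓞 F := ⟨⟨(x : Qb), hx⟩, hxi⟩
        have hxy : x = algebraMap (𝓞 F) Zb y := RingOfIntegers.ext rfl
        rw [hxy, hgx, ← map_sub]
        have h3 : τ • y - y ∈ P.comap (algebraMap (𝓞 F) Zb) := by
          rw [hPp]
          exact hτ y
        exact h3)
    apply hτ1
    have h5 : σ ∈ F.fixingSubgroup := by
      rw [hF]
      exact hI P hPm hσ.2
    have h6 : g ∈ F.fixingSubgroup := by
      have h7 : σ * (σ⁻¹ * g) ∈ F.fixingSubgroup := mul_mem h5 hσg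
      rwa [mul_inv_cancel_left] at h7
    rw [← IntermediateField.restrictNormalHom_ker, MonoidHom.mem_ker] at h6
    rw [← hg]
    exact h6
  have hbot : F = ⊥ := IntermediateField.finrank_eq_one_iff.mp hone
  rw [← hF, hbot, IntermediateField.fixingSubgroup_bot]

theorem hD10 : StD10 := by
  intro U hU hI
  have hcl : IsClosed (U : Set GQ) := U.isClosed_of_isOpen hU
  have hfq : Finite (GQ ⧸ U) := Subgroup.quotient_finite_of_isOpen U hU
  have hfi : U.FiniteIndex := Subgroup.finiteIndex_of_finite_quotient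
  have hNc : IsClosed (U.normalCore : Set GQ) := U.normalCore_isClosed hcl
  have hNo : IsOpen (U.normalCore : Set GQ) :=
    U.normalCore.isOpen_of_isClosed_of_finiteIndex hNc
  have h1 := norm_D10 U.normalCore hNo inferInstance (by
    intro P hP σ hσ g
    have hPg : (g • P).IsMaximal := by
      have h2 : (g • P) = P.map (MulSemiringAction.toRingEquiv GQ (𝓞 Qb) g : (𝓞 Qb) →+* (𝓞 Qb)) :=
        rfl
      rw [h2]
      exact Ideal.map_isMaximal_of_equiv (p := P) (MulSemiringAction.toRingEquiv GQ (𝓞 Qb) g)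
    exact hI (g • P) hPg ((Pool.Agent.Helper45.RG.tConj P).1 g σ hσ))
  exact top_le_iff.mp (h1 ▸ U.normalCore_le)

end Pool.TW
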