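import Pool.Agent.Helper34.TW.StD

/-!
# Project TW, module D11: good primes and the group `Gp Q`
-/

set_option autoImplicit false

open scoped Pointwise NumberField
open NumberField Polynomial IsDedekindDomain Pool.RG2 Filter Topology

namespace Pool.TW

/-- the algebraic integer of a root -/
private noncomputable def zr_D11 {f : ℤ[X]} (hf : f.Monic) (x : Rt f) : Zb :=
  ⟨x.1, ⟨f, hf, by
    have h := (Polynomial.mem_rootSet'.1 x.2).2
    rwa [aeval_def] at h⟩⟩

private theorem eval_zr_D11 {f : ℤ[X]} (hf : f.Monic) (x : Rt f) :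
    (f.map (Int.castRingHom Zb)).eval (zr_D11 hf x) = 0 := by
  apply NumberField.RingOfIntegers.ext
  rw [eval_map]
  have h1 := hom_eval₂ f (Int.castRingHom Zb) (algebraMap Zb Qb) (zr_D11 hf x)
  have h2 : (algebraMap Zb Qb).comp (Int.castRingHom Zb) = algebraMap ℤ Qb := RingHom.ext_int _ _
  have h3 : algebraMap Zb Qb (zr_D11 hf x) = x.1 := rfl
  rw [h2, h3] at h1
  have h4 := (Polynomial.mem_rootSet'.1 x.2).2
  rw [aeval_def] at h4
  rw [h4] at h1
  exact h1

/-- distinct roots modulo a prime above `2` -/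
private theorem good_D11 {f : ℤ[X]} (hf : f.Monic)
    (hirr : Irreducible (f.map (Int.castRingHom (ZMod 2)))) (P : Ideal Zb) (hP : P.IsMaximal)
    (h2 : (2 : Zb) ∈ P) : GoodAt f P := by
  intro x y hxy z hz hzxy
  have := hP
  let _ : Field (Zb ⧸ P) := Ideal.Quotient.field P
  have htwo : (2 : Zb ⧸ P) = 0 := by
    have h3 := Ideal.Quotient.eq_zero_iff_mem.2 h2
    rw [map_ofNat] at h3
    exact h3
  have : CharP (Zb ⧸ P) 2 := CharTwo.of_one_ne_zero_of_two_eq_zero one_ne_zero htwo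
  set F : Zb[X] := f.map (Int.castRingHom Zb) with hF
  set u := zr_D11 hf x with hu
  set v := zr_D11 hf y with hv
  have huv : u ≠ v := by
    intro h
    apply hxy
    apply Subtype.ext
    exact congrArg (fun w : Zb => (w : Qb)) h
  have hz' : z = u - v := by
    apply NumberField.RingOfIntegers.ext
    have e : ((u - v : Zb) : Qb) = x.1 - y.1 := rfl
    rw [e]
    exact hzxy
  have hFu : IsRoot F u := eval_zr_D11 hf x
  obtain ⟨g, hg0⟩ := dvd_iff_isRoot.2 hFu
  have hg : F = (X - C u) * g := hg0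
  have hgv : g.eval v = 0 := by
    have h3 : F.eval v = 0 := eval_zr_D11 hf y
    rw [hg, eval_mul, eval_sub, eval_X, eval_C] at h3
    rcases mul_eq_zero.1 h3 with h4 | h4
    · exact absurd (sub_eq_zero.1 h4).symm huv
    · exact h4
  obtain ⟨k, hk⟩ := dvd_iff_isRoot.2 (hgv : IsRoot g v)
  set q : Zb →+* Zb ⧸ P := Ideal.Quotient.mk P with hq
  have hquv : q u = q v := by
    have h3 : q z = 0 := Ideal.Quotient.eq_zero_iff_mem.2 hz
    rw [hz', map_sub, sub_eq_zero] at h3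
    exact h3
  have hFq : F.map q = (X - C (q v)) * (X - C (q v)) * k.map q := by
    rw [hg, hk, Polynomial.map_mul, Polynomial.map_mul, Polynomial.map_sub, Polynomial.map_sub,
      map_X, map_C, map_C, hquv, mul_assoc]
  have hFq2 : F.map q = (f.map (Int.castRingHom (ZMod 2))).map (ZMod.castHom (dvd_refl 2) (Zb ⧸ P)) := by
    rw [hF, Polynomial.map_map, Polynomial.map_map]
    congr 1
    exact RingHom.ext_int _ _
  have hsep : (F.map q).Separable := by
    rw [hFq2]
    exact (PerfectField.separable_of_irreducible hirr).map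
  have hsq := hsep.squarefree
  have h5 := hsq (X - C (q v)) (by rw [hFq]; exact Dvd.intro _ rfl)
  exact not_isUnit_X_sub_C _ h5

/-- inertia fixes the roots at good primes -/
private theorem fix_D11 {f : ℤ[X]} (hf : f.Monic) (P : Ideal Zb) (hg : GoodAt f P) (σ : GQ)
    (hσ : σ ∈ Ine P) (x : Rt f) : σ • x = x := by
  by_contra hne
  have h1 : σ • (zr_D11 hf x) - zr_D11 hf x ∈ P := hσ _
  refine hg (σ • x) x hne _ h1 ?_
  rfl

/-- every automorphism changes `y` by a sign -/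
private theorem sign_D11 {y : Qb} {c : ℚ} (hy : y ^ 2 = (c : Qb)) (g : GQ) : g y = y ∨ g y = -y := by
  have h1 : (g y) ^ 2 = y ^ 2 := by
    rw [← map_pow, hy]
    exact map_ratCast g c
  exact sq_eq_sq_iff_eq_or_eq_neg.1 h1

private theorem rat_D11 {Q : Finset ℕ} {y : Qb}
    (hy : y ^ 2 = -1 ∨ y ^ 2 = 2 ∨ ∃ q ∈ Q, y ^ 2 = (q : Qb)) : ∃ c : ℚ, y ^ 2 = (c : Qb) := by
  rcases hy with h | h | ⟨q, -, h⟩
  · exact ⟨-1, by rw [h]; push_cast; ring⟩
  · exact ⟨2, by rw [h]; push_cast; ring⟩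
  · exact ⟨q, by rw [h]; push_cast; ring⟩

private theorem comm_D11 (Q : Finset ℕ) (a b : GQ) : a * b * a⁻¹ * b⁻¹ ∈ Gp Q := by
  intro y hy
  obtain ⟨c, hc⟩ := rat_D11 hy
  have ha := sign_D11 hc a
  have hb := sign_D11 hc b
  have ha' : a⁻¹ y = a y := by
    change a.symm y = a y
    rw [AlgEquiv.symm_apply_eq]
    rcases ha with h | h
    · rw [h, h]
    · rw [h, map_neg, h, neg_neg]
  have hb' : b⁻¹ y = b y := by
    change b.symm y = b y
    rw [AlgEquiv.symm_apply_eq]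
    rcases hb with h | h
    · rw [h, h]
    · rw [h, map_neg, h, neg_neg]
  have e : (a * b * a⁻¹ * b⁻¹) y = a (b (a⁻¹ (b⁻¹ y))) := rfl
  rw [e, hb']
  rcases ha with h | h <;> rcases hb with h' | h' <;>
    simp only [h, h', ha', map_neg, neg_neg]

private theorem open_D11 (Q : Finset ℕ) : IsOpen (Gp Q : Set GQ) := by
  have hfin : {y : Qb | y ^ 2 = -1 ∨ y ^ 2 = 2 ∨ ∃ q ∈ Q, y ^ 2 = (q : Qb)}.Finite := by
    have h0 : ∀ c : Qb, {y : Qb | y ^ 2 = c}.Finite := by
      classical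
      intro c
      have h1 : {y : Qb | y ^ 2 = c} ⊆ (nthRoots 2 c).toFinset := by
        intro y hy
        rw [Finset.mem_coe, Multiset.mem_toFinset, mem_nthRoots (by norm_num)]
        exact hy
      exact (Finset.finite_toSet _).subset h1
    have h2 : {y : Qb | y ^ 2 = -1 ∨ y ^ 2 = 2 ∨ ∃ q ∈ Q, y ^ 2 = (q : Qb)}
        ⊆ {y : Qb | y ^ 2 = -1} ∪ ({y : Qb | y ^ 2 = 2} ∪ ⋃ q ∈ Q, {y : Qb | y ^ 2 = (q : Qb)}) := by
      rintro y (h | h | ⟨q, hq, h⟩)
      · exact Or.inl h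
      · exact Or.inr (Or.inl h)
      · exact Or.inr (Or.inr (Set.mem_biUnion hq h))
    refine Set.Finite.subset ?_ h2
    exact (h0 _).union ((h0 _).union (Set.Finite.biUnion (Finset.finite_toSet Q) fun q _ => h0 _))
  have := Pool.RG.instAlg
  set S := {y : Qb | y ^ 2 = -1 ∨ y ^ 2 = 2 ∨ ∃ q ∈ Q, y ^ 2 = (q : Qb)} with hS
  have : Finite S := hfin
  have : FiniteDimensional ℚ (IntermediateField.adjoin ℚ S) :=
    IntermediateField.finiteDimensional_adjoin fun x _ => Algebra.IsIntegral.isIntegral x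
  have hopen := IntermediateField.fixingSubgroup_isOpen (IntermediateField.adjoin ℚ S)
  refine Subgroup.isOpen_mono (H₁ := (IntermediateField.adjoin ℚ S).fixingSubgroup) ?_ hopen
  intro g hg y hy
  rw [IntermediateField.mem_fixingSubgroup_iff] at hg
  exact hg y (IntermediateField.subset_adjoin ℚ S hy)

/-- inertia outside `2` and `Q` -/
private theorem ine_D11 (Q : Finset ℕ) (P : Ideal Zb) (hP : P.IsMaximal) (h2 : (2 : Zb) ∉ P)
    (hQ : ∀ q ∈ Q, (q : Zb) ∉ P) : Ine P ≤ Gp Q := by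
  intro σ hσ y hy
  obtain ⟨c, hc⟩ := rat_D11 hy
  rcases sign_D11 hc σ with h | h
  · exact h
  exfalso
  -- `y` as an algebraic integer
  have hint : ∃ m : ℤ, y ^ 2 = (m : Qb) ∧ (m : Zb) ∉ P := by
    rcases hy with h3 | h3 | ⟨q, hq, h3⟩
    · refine ⟨-1, by rw [h3]; push_cast; ring, fun h4 => hP.ne_top ?_⟩
      rw [Ideal.eq_top_iff_one]
      have h5 := P.neg_mem h4
      have h6 : -(((-1 : ℤ) : Zb)) = 1 := by push_cast; ring
      rwa [h6] at h5
    · refine ⟨2, by rw [h3]; push_cast; ring, fun h4 => h2 ?_⟩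
      have h6 : (((2 : ℤ) : Zb)) = 2 := by push_cast; ring
      rwa [h6] at h4
    · refine ⟨q, by rw [h3]; push_cast; ring, fun h4 => hQ q hq ?_⟩
      have h6 : (((q : ℤ) : Zb)) = (q : Zb) := by push_cast; ring
      rwa [h6] at h4
  obtain ⟨m, hm, hmP⟩ := hint
  have hyint : IsIntegral ℤ y := by
    refine IsIntegral.of_pow (n := 2) (by norm_num) ?_
    rw [hm]
    exact isIntegral_algebraMap (R := ℤ) (A := Qb) (x := m)
  let Y : Zb := ⟨y, hyint⟩
  have h4 : σ • Y - Y ∈ P := hσ Y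
  have h5 : σ • Y - Y = -(2 * Y) := by
    apply NumberField.RingOfIntegers.ext
    have e1 : ((σ • Y - Y : Zb) : Qb) = σ y - y := rfl
    have e2 : ((-(2 * Y) : Zb) : Qb) = -(2 * y) := rfl
    rw [e1, e2, h]
    ring
  rw [h5] at h4
  have h6 : 2 * Y ∈ P := by
    have := P.neg_mem h4
    rwa [neg_neg] at this
  rcases hP.isPrime.mem_or_mem h6 with h7 | h7
  · exact h2 h7
  · have h8 : Y ^ 2 ∈ P := by
      rw [sq]
      exact P.mul_mem_left _ h7
    have h9 : Y ^ 2 = (m : Zb) := by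
      apply NumberField.RingOfIntegers.ext
      have e1 : ((Y ^ 2 : Zb) : Qb) = y ^ 2 := rfl
      rw [e1, hm]
      rfl
    rw [h9] at h8
    exact hmP h8

theorem hD11 : StD11 := by
  intro h10 r f hf
  refine ⟨fun P hP h2 s => good_D11 (hf.monic s) (hf.irr2 s) P hP h2,
    fun P s hg σ hσ x => fix_D11 (hf.monic s) P hg σ hσ x, fun Q => ⟨comm_D11 Q, open_D11 Q, ?_⟩⟩
  intro hQ π
  -- the subgroup acting trivially on the roots
  let N₀ : Subgroup GQ :=
    { carrier := {g | ∀ (s : Fin r) (x : Rt (f s)), g • x = x}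
      mul_mem' := by
        intro a b ha hb s x
        rw [mul_smul, hb s x, ha s x]
      one_mem' := fun s x => one_smul _ x
      inv_mem' := by
        intro a ha s x
        rw [inv_smul_eq_iff]
        exact (ha s x).symm }
  have hN : N₀.Normal := by
    refine ⟨fun n hn g s x => ?_⟩
    rw [mul_smul, mul_smul, hn s (g⁻¹ • x), smul_inv_smul]
  have hU : N₀ ⊔ Gp Q = ⊤ := by
    apply h10
    · exact Subgroup.isOpen_mono (H₁ := Gp Q) le_sup_right (open_D11 Q)
    · intro P hP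
      by_cases h2 : (2 : Zb) ∈ P
      · refine le_trans ?_ (le_sup_left : N₀ ≤ N₀ ⊔ Gp Q)
        intro σ hσ s x
        exact fix_D11 (hf.monic s) P (good_D11 (hf.monic s) (hf.irr2 s) P hP h2) σ hσ x
      · by_cases hq : ∃ q ∈ Q, (q : Zb) ∈ P
        · obtain ⟨q, hqQ, hqP⟩ := hq
          refine le_trans ?_ (le_sup_left : N₀ ≤ N₀ ⊔ Gp Q)
          intro σ hσ s x
          exact fix_D11 (hf.monic s) P ((hQ q hqQ).2.2 P hP hqP s) σ hσ x
        · push Not at hq
          exact (ine_D11 Q P hP h2 hq).trans (le_sup_right : Gp Q ≤ N₀ ⊔ Gp Q)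
  obtain ⟨g, hg⟩ := hf.gal π
  have hgU : g ∈ N₀ ⊔ Gp Q := by rw [hU]; exact Subgroup.mem_top g
  obtain ⟨n, hn, γ, hγ, hnγ⟩ := Subgroup.mem_sup_of_normal_left.1 hgU
  refine ⟨γ, hγ, fun s x => ?_⟩
  have h1 : γ = n⁻¹ * g := by rw [← hnγ, inv_mul_cancel_left]
  rw [h1, mul_smul, hg s x]
  exact (N₀.inv_mem hn) s _

end Pool.TW
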