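import Pool.Agent.Helper34.TW.StD

/-!
# Project TW, module D12: quadratic reciprocity
-/

set_option autoImplicit false

open scoped Pointwise NumberField
open NumberField Polynomial IsDedekindDomain Pool.RG2 Filter Topology

namespace Pool.TW

private theorem coe_smul_D12 (g : GQ) (x : Zb) : ((g • x : Zb) : Qb) = g (x : Qb) := rfl

theorem int_mem_D12 {P : Ideal Zb} (hP : P.IsMaximal) {p : ℕ} (hp : p.Prime)
    (hpP : (p : Zb) ∈ P) (n : ℤ) : (n : Zb) ∈ P ↔ (p : ℤ) ∣ n := by
  constructor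
  · intro h
    by_contra hn
    have hpi : Prime (p : ℤ) := Nat.prime_iff_prime_int.1 hp
    have hc : IsCoprime (p : ℤ) n := (Prime.coprime_iff_not_dvd hpi).2 hn
    obtain ⟨a, b, hab⟩ := hc
    have h1 : (1 : Zb) ∈ P := by
      have h2 : ((a * p + b * n : ℤ) : Zb) ∈ P := by
        push_cast
        exact P.add_mem (P.mul_mem_left _ hpP) (P.mul_mem_left _ h)
      rw [hab] at h2
      simpa using h2
    exact hP.ne_top ((Ideal.eq_top_iff_one P).2 h1)
  · rintro ⟨k, rfl⟩
    push_cast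
    exact P.mul_mem_right _ hpP

theorem lift_D12 (y : Qb) (n : ℤ) (h : y ^ 2 = (n : Qb)) :
    ∃ Y : Zb, (Y : Qb) = y ∧ Y ^ 2 = (n : Zb) := by
  have h1 : IsIntegral ℤ y := by
    refine IsIntegral.of_pow (n := 2) two_pos ?_
    rw [h]
    have h2 : (n : Qb) = algebraMap ℤ Qb n := by simp
    rw [h2]
    exact isIntegral_algebraMap
  refine ⟨⟨y, h1⟩, rfl, ?_⟩
  apply RingOfIntegers.coe_injective
  rw [map_pow, map_intCast]
  exact h

private theorem pow_D12 (Y : Zb) (n : ℤ) (hY : Y ^ 2 = (n : Zb)) (p : ℕ) (hp : p.Prime) (hp2 : p ≠ 2) :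
    Y ^ p = Y * ((n ^ (p / 2) : ℤ) : Zb) := by
  have h1 : p = 2 * (p / 2) + 1 := by
    have := hp.eq_two_or_odd
    omega
  conv_lhs => rw [h1]
  rw [pow_succ, pow_mul, hY]
  push_cast
  ring

/-- if the Frobenius element fixes a square root of `n`, then `n` is a square modulo `p` -/
theorem fix_D12 {P : Ideal Zb} (hP : P.IsMaximal) {p : ℕ} (hp : p.Prime) (hp2 : p ≠ 2)
    (hpP : (p : Zb) ∈ P) {φ : GQ} (hφ : ∀ x : Zb, φ • x - x ^ p ∈ P) (n : ℤ) (hn : ¬ (p : ℤ) ∣ n)
    (y : Qb) (hy : y ^ 2 = (n : Qb)) (hfix : φ y = y) : IsSquare (n : ZMod p) := by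
  haveI := Fact.mk hp
  obtain ⟨Y, hY1, hY2⟩ := lift_D12 y n hy
  have hfixY : φ • Y = Y := by
    apply RingOfIntegers.coe_injective
    change φ (Y : Qb) = (Y : Qb)
    rw [hY1, hfix]
  have h1 := hφ Y
  rw [hfixY, pow_D12 Y n hY2 p hp hp2] at h1
  have h2 : Y * ((1 - n ^ (p / 2) : ℤ) : Zb) ∈ P := by
    have : Y * ((1 - n ^ (p / 2) : ℤ) : Zb) = Y - Y * ((n ^ (p / 2) : ℤ) : Zb) := by
      push_cast
      ring
    rw [this]
    exact h1
  have hprime := hP.isPrime
  rcases hprime.mem_or_mem h2 with h3 | h3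
  · exfalso
    have h4 : Y ^ 2 ∈ P := P.pow_mem_of_mem h3 2 two_pos
    rw [hY2, int_mem_D12 hP hp hpP] at h4
    exact hn h4
  · rw [int_mem_D12 hP hp hpP] at h3
    have hn0 : (n : ZMod p) ≠ 0 := by
      intro h
      exact hn ((ZMod.intCast_zmod_eq_zero_iff_dvd n p).1 h)
    rw [ZMod.euler_criterion p hn0]
    have h4 := (ZMod.intCast_zmod_eq_zero_iff_dvd _ p).2 h3
    push_cast at h4
    exact (sub_eq_zero.1 h4).symm

/-- if `n` is a square modulo `q` then the Frobenius element fixes the square roots of `n` -/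
theorem fixes_D12 {P : Ideal Zb} (hP : P.IsMaximal) {q : ℕ} (hq : q.Prime) (hq2 : q ≠ 2)
    (hqP : (q : Zb) ∈ P) {φ : GQ} (hφ : ∀ x : Zb, φ • x - x ^ q ∈ P) (n : ℤ) (hn : ¬ (q : ℤ) ∣ n)
    (hs : IsSquare (n : ZMod q)) (y : Qb) (hy : y ^ 2 = (n : Qb)) : φ y = y := by
  haveI := Fact.mk hq
  obtain ⟨Y, hY1, hY2⟩ := lift_D12 y n hy
  have hn0 : (n : ZMod q) ≠ 0 := by
    intro h
    exact hn ((ZMod.intCast_zmod_eq_zero_iff_dvd n q).1 h)
  rw [ZMod.euler_criterion q hn0] at hs
  have h3 : (((n ^ (q / 2) - 1 : ℤ)) : Zb) ∈ P := by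
    rw [int_mem_D12 hP hq hqP, ← ZMod.intCast_zmod_eq_zero_iff_dvd]
    push_cast
    rw [hs, sub_self]
  have h1 := hφ Y
  rw [pow_D12 Y n hY2 q hq hq2] at h1
  have h4 : φ • Y - Y ∈ P := by
    have h5 : φ • Y - Y = (φ • Y - Y * ((n ^ (q / 2) : ℤ) : Zb)) +
        Y * ((n ^ (q / 2) - 1 : ℤ) : Zb) := by
      push_cast
      ring
    rw [h5]
    exact P.add_mem h1 (P.mul_mem_left _ h3)
  have h6 : (φ y) ^ 2 = y ^ 2 := by
    rw [← map_pow, hy, map_intCast]
  rcases sq_eq_sq_iff_eq_or_eq_neg.1 h6 with h7 | h7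
  · exact h7
  · exfalso
    have h8 : φ • Y = - Y := by
      apply RingOfIntegers.coe_injective
      rw [map_neg]
      change φ (Y : Qb) = - (Y : Qb)
      rw [hY1, h7]
    rw [h8] at h4
    have h9 : ((2 : ℤ) : Zb) * Y ∈ P := by
      have : ((2 : ℤ) : Zb) * Y = - (- Y - Y) := by
        push_cast
        ring
      rw [this]
      exact P.neg_mem h4
    rcases hP.isPrime.mem_or_mem h9 with h10 | h10
    · rw [int_mem_D12 hP hq hqP] at h10
      have h11 : q ∣ 2 := by exact_mod_cast h10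
      exact hq2 ((Nat.prime_dvd_prime_iff_eq hq Nat.prime_two).1 h11)
    · have h11 : Y ^ 2 ∈ P := P.pow_mem_of_mem h10 2 two_pos
      rw [hY2, int_mem_D12 hP hq hqP] at h11
      exact hn h11

theorem hD12 : StD12 := by
  refine ⟨?_, ?_⟩
  · intro p hp hp2 P φ hP hpP hφ Q hQ
    haveI := Fact.mk hp
    have hp3 : 3 ≤ p := by
      have := hp.two_le
      omega
    have hm1 : IsSquare ((-1 : ℤ) : ZMod p) := by
      obtain ⟨y, hy⟩ := IsAlgClosed.exists_pow_nat_eq (-1 : Qb) two_pos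
      refine fix_D12 hP hp hp2 hpP hφ (-1) ?_ y (by rw [hy]; push_cast; rfl) ?_
      · intro h
        have h1 := Int.le_of_dvd (by norm_num) ((dvd_neg).1 h)
        omega
      · exact hQ y (Or.inl hy)
    have hm2 : IsSquare ((2 : ℤ) : ZMod p) := by
      obtain ⟨y, hy⟩ := IsAlgClosed.exists_pow_nat_eq (2 : Qb) two_pos
      refine fix_D12 hP hp hp2 hpP hφ 2 ?_ y (by rw [hy]; push_cast; rfl) ?_
      · intro h
        have h1 := Int.le_of_dvd (by norm_num) h
        omega
      · exact hQ y (Or.inr (Or.inl hy))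
    have h4 : p % 4 ≠ 3 := by
      have h5 : IsSquare (-1 : ZMod p) := by simpa using hm1
      exact ZMod.exists_sq_eq_neg_one_iff.1 h5
    have h8 : p % 8 = 1 ∨ p % 8 = 7 := by
      have h5 : IsSquare (2 : ZMod p) := by simpa using hm2
      exact (ZMod.exists_sq_eq_two_iff hp2).1 h5
    have h81 : p % 8 = 1 := by omega
    refine ⟨h81, ?_⟩
    intro q hq hqp hq2 hqne P' φ' hP' hqP' hφ' y hy
    haveI := Fact.mk hqp
    have hs1 : IsSquare (((q : ℕ) : ℤ) : ZMod p) := by
      obtain ⟨z, hz⟩ := IsAlgClosed.exists_pow_nat_eq (q : Qb) two_pos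
      refine fix_D12 hP hp hp2 hpP hφ (q : ℤ) ?_ z (by rw [hz]; push_cast; rfl) ?_
      · intro h
        have h1 : p ∣ q := by exact_mod_cast h
        exact hqne ((Nat.prime_dvd_prime_iff_eq hp hqp).1 h1).symm
      · exact hQ z (Or.inr (Or.inr ⟨q, hq, hz⟩))
    have hs2 : IsSquare (q : ZMod p) := by simpa using hs1
    have hs3 : IsSquare (p : ZMod q) :=
      (ZMod.exists_sq_eq_prime_iff_of_mod_four_eq_one (by omega) hq2).1 hs2
    refine fixes_D12 hP' hqp hq2 hqP' hφ' (p : ℤ) ?_ (by simpa using hs3) y (by rw [hy]; push_cast; rfl)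
    intro h
    have h1 : q ∣ p := by exact_mod_cast h
    exact hqne ((Nat.prime_dvd_prime_iff_eq hqp hp).1 h1)
  · intro p hp8 P0 hP0 h2 g hg y hy
    have h2' : ((2 : ℕ) : Zb) ∈ P0 := by exact_mod_cast h2
    have h6 : (g y) ^ 2 = y ^ 2 := by
      rw [← map_pow, hy, map_natCast]
    rcases sq_eq_sq_iff_eq_or_eq_neg.1 h6 with h7 | h7
    · exact h7
    · exfalso
      obtain ⟨k, hk⟩ : ∃ k : ℕ, p = 8 * k + 1 := ⟨p / 8, by omega⟩
      have htt : ((1 + y) / 2) * ((1 + y) / 2 - 1) = ((2 * k : ℤ) : Qb) := by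
        have h8 : y ^ 2 = 8 * (k : Qb) + 1 := by
          rw [hy, hk]
          push_cast
          ring
        push_cast
        linear_combination (1 / 4) * h8
      have hint : IsIntegral ℤ ((1 + y) / 2) := by
        refine ⟨X ^ 2 - X - C (2 * k : ℤ), ?_, ?_⟩
        · monicity!
        · simp only [eval₂_sub, eval₂_X_pow, eval₂_X, eval₂_C]
          have h9 : (algebraMap ℤ Qb) (2 * k : ℤ) = ((2 * k : ℤ) : Qb) := by simp
          rw [h9, ← htt]
          ring
      let t : Zb := ⟨(1 + y) / 2, hint⟩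
      have ht : (t : Qb) = (1 + y) / 2 := rfl
      have hgt : g • t = 1 - t := by
        apply RingOfIntegers.coe_injective
        rw [map_sub, map_one]
        change g (t : Qb) = 1 - (t : Qb)
        rw [ht, map_div₀, map_add, map_one, h7]
        have h10 : g (2 : Qb) = 2 := map_ofNat g 2
        rw [h10]
        ring
      have htm : t * (t - 1) ∈ P0 := by
        have h11 : t * (t - 1) = ((2 * k : ℤ) : Zb) := by
          apply RingOfIntegers.coe_injective
          rw [map_mul, map_sub, map_one, map_intCast]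
          exact htt
        rw [h11]
        push_cast
        exact P0.mul_mem_right _ h2
      have hgP : ∀ x ∈ P0, g • x ∈ P0 := by
        intro x hx
        have h12 : g • P0 = P0 := hg
        rw [← h12]
        exact Ideal.smul_mem_pointwise_smul g x P0 hx
      apply hP0.ne_top
      rw [Ideal.eq_top_iff_one]
      rcases hP0.isPrime.mem_or_mem htm with h13 | h13
      · have h14 := hgP t h13
        rw [hgt] at h14
        have h15 : (1 : Zb) = (1 - t) + t := by ring
        rw [h15]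
        exact P0.add_mem h14 h13
      · have h14 := hgP _ h13
        have h16 : g • (t - 1) = - t := by
          rw [smul_sub, hgt, smul_one]
          ring
        rw [h16] at h14
        have h15 : (1 : Zb) = - ((- t) + (t - 1)) := by ring
        rw [h15]
        exact P0.neg_mem (P0.add_mem h14 h13)

end Pool.TW
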