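import Pool.Agent.Helper34.TW.StD

/-!
# Project TW, module D13: killing permutation, Frobenius at 2
-/

set_option autoImplicit false

open scoped Pointwise NumberField
open NumberField Polynomial Pool.RG2

namespace Pool.TW

/-- Number of roots. -/
private theorem card_D13 {r : ℕ} {f : Fin r → ℤ[X]} (hf : Hyp f) (s : Fin r) :
    Fintype.card (Rt (f s)) = (f s).natDegree := by
  classical
  have h1 : Irreducible (f s) := Monic.irreducible_of_irreducible_map (Int.castRingHom (ZMod 2))
    (f s) (hf.monic s) (hf.irr2 s)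
  have h2 : Irreducible ((f s).map (algebraMap ℤ ℚ)) :=
    ((hf.monic s).irreducible_iff_irreducible_map_fraction_map (K := ℚ)).1 h1
  have h3 : ((f s).map (algebraMap ℤ ℚ)).Separable := h2.separable
  have h4 : (f s).rootSet Qb = ((f s).map (algebraMap ℤ ℚ)).rootSet Qb := by
    rw [Polynomial.rootSet_def, Polynomial.rootSet_def, Polynomial.aroots_def,
      Polynomial.aroots_def, Polynomial.map_map, ← IsScalarTower.algebraMap_eq]
  have h5 := Polynomial.card_rootSet_eq_natDegree (K := Qb) h3 (IsAlgClosed.splits _)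
  rw [(hf.monic s).natDegree_map] at h5
  rw [← h5, ← Nat.card_eq_fintype_card, ← Nat.card_eq_fintype_card]
  show Nat.card ↥((f s).rootSet Qb) = _
  rw [h4]

/-- A permutation with one fixed point which is a cycle on the other points. -/
private theorem perm_D13 (Y : Type) [Fintype Y] (h : 3 ≤ Fintype.card Y) :
    ∃ (π : Equiv.Perm Y) (y0 : Y), π y0 = y0 ∧
      (∀ y y' : Y, y ≠ y0 → y' ≠ y0 → ∃ k : ℕ, (π ^ k) y = y') ∧
      ∀ y : Y, y ≠ y0 → ∀ k : ℕ, (π ^ k) y = y ↔ (Fintype.card Y - 1) ∣ k := by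
  classical
  obtain ⟨y0⟩ : Nonempty Y := Fintype.card_pos_iff.1 (by omega)
  set n := Fintype.card Y - 1 with hn
  have : NeZero n := ⟨by omega⟩
  have hc : Fintype.card {y : Y // y ≠ y0} = Fintype.card (ZMod n) := by
    rw [ZMod.card, Fintype.card_subtype_compl, Fintype.card_subtype_eq]
  let e : {y : Y // y ≠ y0} ≃ ZMod n := Fintype.equivOfCardEq hc
  let τ : Equiv.Perm {y : Y // y ≠ y0} := (e.trans (Equiv.addRight 1)).trans e.symm
  let π : Equiv.Perm Y := Equiv.Perm.ofSubtype τ
  have hτ : ∀ (k : ℕ) (y : {y : Y // y ≠ y0}), (τ ^ k) y = e.symm (e y + k) := by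
    intro k
    induction k with
    | zero => intro y; simp
    | succ k ih =>
      intro y
      rw [pow_succ', Equiv.Perm.mul_apply, ih]
      simp only [τ, Equiv.trans_apply, Equiv.apply_symm_apply, Equiv.coe_addRight]
      congr 1
      push_cast
      ring
  have hπ : ∀ (k : ℕ) (y : Y) (hy : y ≠ y0), (π ^ k) y = ((τ ^ k) ⟨y, hy⟩ : Y) := by
    intro k y hy
    show ((Equiv.Perm.ofSubtype τ) ^ k) y = _
    rw [← map_pow]
    exact Equiv.Perm.ofSubtype_apply_of_mem (p := fun y => y ≠ y0) _ hy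
  refine ⟨π, y0, Equiv.Perm.ofSubtype_apply_of_not_mem _ (fun h => h rfl), ?_, ?_⟩
  · intro y y' hy hy'
    refine ⟨(e ⟨y', hy'⟩ - e ⟨y, hy⟩).val, ?_⟩
    rw [hπ _ y hy, hτ, ZMod.natCast_zmod_val, add_sub_cancel, Equiv.symm_apply_apply]
  · intro y hy k
    rw [hπ _ y hy, hτ]
    constructor
    · intro h1
      have h2 : e.symm (e ⟨y, hy⟩ + k) = ⟨y, hy⟩ := Subtype.ext h1
      rw [Equiv.symm_apply_eq] at h2
      have h3 : (k : ZMod n) = 0 := by
        have := congrArg (fun t => t - e ⟨y, hy⟩) h2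
        simpa using this
      exact (ZMod.natCast_eq_zero_iff k n).1 h3
    · intro h1
      rw [(ZMod.natCast_eq_zero_iff k n).2 h1, add_zero, Equiv.symm_apply_apply]

/-- The Frobenius element at `P0` has no short cycle on the roots. -/
private theorem frob_D13 {r : ℕ} {f : Fin r → ℤ[X]} (hf : Hyp f) (P0 : Ideal Zb)
    (hP : P0.IsMaximal) (h2 : (2 : Zb) ∈ P0) (φ : GQ) (hφ : ∀ x : Zb, φ • x - x ^ 2 ∈ P0)
    (s : Fin r) (x : Rt (f s)) (k : ℕ) (hk : φ ^ k • x = x) : (f s).natDegree ∣ k := by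
  classical
  let _ : Field (Zb ⧸ P0) := Ideal.Quotient.field P0
  have hchar : CharP (Zb ⧸ P0) 2 := by
    refine (CharP.charP_iff_prime_eq_zero Nat.prime_two).2 ?_
    have : (Ideal.Quotient.mk P0) (2 : Zb) = 0 := Ideal.Quotient.eq_zero_iff_mem.2 h2
    rw [← this]
    exact (map_ofNat (Ideal.Quotient.mk P0) 2).symm
  let _ : Algebra (ZMod 2) (Zb ⧸ P0) := ZMod.algebra _ 2
  have hx := x.2
  rw [Polynomial.mem_rootSet'] at hx
  have hint : IsIntegral ℤ x.1 := ⟨f s, hf.monic s, hx.2⟩
  let z : Zb := ⟨x.1, hint⟩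
  have hz : aeval z (f s) = 0 := by
    have h3 : ((aeval z (f s) : Zb) : Qb) = 0 := by
      rw [← hx.2]
      exact (Polynomial.aeval_algebraMap_apply Qb z (f s)).symm
    exact Subtype.ext h3
  -- iterates
  have hpow : ∀ k : ℕ, (φ ^ k) • z - z ^ 2 ^ k ∈ P0 := by
    intro k
    induction k with
    | zero => simp
    | succ k ih =>
      have h3 : φ • ((φ ^ k) • z) - ((φ ^ k) • z) ^ 2 ∈ P0 := hφ _
      have h4 : ((φ ^ k) • z) ^ 2 - (z ^ 2 ^ k) ^ 2 ∈ P0 := by
        have : ((φ ^ k) • z) ^ 2 - (z ^ 2 ^ k) ^ 2 =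
            ((φ ^ k) • z + z ^ 2 ^ k) * ((φ ^ k) • z - z ^ 2 ^ k) := by ring
        rw [this]
        exact P0.mul_mem_left _ ih
      have h5 := P0.add_mem h3 h4
      rw [pow_succ', mul_smul, pow_succ 2 k, pow_mul]
      simpa using h5
  have hfix : (φ ^ k) • z = z := by
    apply Subtype.ext
    have h3 := congrArg Subtype.val hk
    exact h3
  have h6 : z - z ^ 2 ^ k ∈ P0 := by
    have := hpow k
    rwa [hfix] at this
  set a : Zb ⧸ P0 := Ideal.Quotient.mk P0 z with ha
  have ha2 : a ^ 2 ^ k = a := by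
    have h7 : (Ideal.Quotient.mk P0) (z - z ^ 2 ^ k) = 0 := Ideal.Quotient.eq_zero_iff_mem.2 h6
    rw [map_sub, map_pow, sub_eq_zero] at h7
    exact h7.symm
  have haev : aeval a ((f s).map (Int.castRingHom (ZMod 2))) = 0 := by
    have h8 : (Ideal.Quotient.mk P0) (aeval z (f s)) = 0 := by rw [hz, map_zero]
    have h10 : (algebraMap (ZMod 2) (Zb ⧸ P0)).comp (Int.castRingHom (ZMod 2)) =
        (Ideal.Quotient.mk P0).comp (algebraMap ℤ Zb) := RingHom.ext_int _ _
    rw [aeval_def, eval₂_map, h10]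
    rw [aeval_def, Polynomial.hom_eval₂] at h8
    exact h8
  have hdvd : (f s).map (Int.castRingHom (ZMod 2)) ∣ X ^ (Nat.card (ZMod 2)) ^ k - X := by
    rw [← (hf.irr2 s).dvd_iff_aeval_eq_zero haev]
    simp [ha2]
  have h9 := (hf.irr2 s).natDegree_dvd_of_dvd_X_pow_card_pow_sub_X hdvd
  rwa [(hf.monic s).natDegree_map] at h9

/-- The Frobenius element at `P0` permutes the roots cyclically. -/
private theorem trans_D13 {r : ℕ} {f : Fin r → ℤ[X]} (hf : Hyp f) (P0 : Ideal Zb)
    (hP : P0.IsMaximal) (h2 : (2 : Zb) ∈ P0) (φ : GQ) (hφ : ∀ x : Zb, φ • x - x ^ 2 ∈ P0)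
    (s : Fin r) (x : Rt (f s)) :
    (∀ y, ∃ k : ℕ, φ ^ k • x = y) ∧ φ ^ (f s).natDegree • x = x := by
  classical
  set N := (f s).natDegree with hN
  have hN0 : 0 < N := by have := hf.three s; omega
  have hinj : Function.Injective (fun i : Fin N => φ ^ (i : ℕ) • x) := by
    have key : ∀ i j : Fin N, (i : ℕ) ≤ j → φ ^ (i : ℕ) • x = φ ^ (j : ℕ) • x → i = j := by
      intro i j hij h
      have h3 : φ ^ ((j : ℕ) - i) • x = x := by
        have h4 : φ ^ (j : ℕ) = φ ^ (i : ℕ) * φ ^ ((j : ℕ) - i) := by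
          rw [← pow_add]; congr 1; omega
        rw [h4, mul_smul] at h
        exact (smul_left_cancel _ h).symm
      have h5 := frob_D13 hf P0 hP h2 φ hφ s x _ h3
      have h6 : (j : ℕ) - i < N := by omega
      have h7 := Nat.eq_zero_of_dvd_of_lt h5 h6
      apply Fin.ext
      omega
    intro i j h
    rcases le_total (i : ℕ) j with hij | hij
    · exact key i j hij h
    · exact (key j i hij h.symm).symm
  have hbij : Function.Bijective (fun i : Fin N => φ ^ (i : ℕ) • x) := by
    rw [Fintype.bijective_iff_injective_and_card]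
    exact ⟨hinj, by rw [Fintype.card_fin, card_D13 hf s]⟩
  refine ⟨fun y => ?_, ?_⟩
  · obtain ⟨i, hi⟩ := hbij.2 y
    exact ⟨i, hi⟩
  · obtain ⟨i, hi⟩ := hbij.2 (φ ^ N • x)
    simp only at hi
    have h3 : φ ^ (N - i) • x = x := by
      have h4 : φ ^ N = φ ^ (i : ℕ) * φ ^ (N - i) := by
        rw [← pow_add]; congr 1; omega
      rw [h4, mul_smul] at hi
      exact (smul_left_cancel _ hi).symm
    have h5 := frob_D13 hf P0 hP h2 φ hφ s x _ h3
    have h6 : (i : ℕ) = 0 := by
      have := Nat.le_of_dvd (by omega) h5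
      omega
    rw [h6, Nat.sub_zero] at h3
    exact h3

theorem hD13 : StD13 := by
  classical
  intro h7 _ _ r f hf
  refine ⟨card_D13 hf, ?_, ?_⟩
  · have h3 : ∀ s, 3 ≤ Fintype.card (Rt (f s)) := fun s => by rw [card_D13 hf s]; exact hf.three s
    choose π y0 hπ1 hπ2 hπ3 using fun s => perm_D13 (Rt (f s)) (h3 s)
    obtain ⟨g, hg⟩ := hf.gal π
    have hgk : ∀ (k : ℕ) (s : Fin r) (y : Rt (f s)), g ^ k • y = (π s ^ k) y := by
      intro k
      induction k with
      | zero => intro s y; simp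
      | succ k ih =>
        intro s y
        rw [pow_succ', pow_succ', mul_smul, ih, hg, Equiv.Perm.mul_apply]
    refine ⟨g, fun s => ⟨y0 s, by rw [hg]; exact hπ1 s, ?_, ?_⟩⟩
    · intro y y' hy hy'
      obtain ⟨k, hk⟩ := hπ2 s y y' hy hy'
      exact ⟨k, by rw [hgk]; exact hk⟩
    · intro y hy k
      rw [hgk]
      exact hπ3 s y hy k
  · intro P0 hP h2 S hS m hm hinv
    obtain ⟨φ, hφ⟩ := (h7 2 Nat.prime_two).2 P0 hP (by exact_mod_cast h2)
    have hDec : φ ∈ Dec P0 := by
      show φ ∈ MulAction.stabilizer GQ P0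
      rw [MulAction.mem_stabilizer_iff]
      have hsub : φ • P0 ≤ P0 := by
        intro x hx
        rw [Ideal.pointwise_smul_def] at hx
        obtain ⟨y, hy, rfl⟩ := (Ideal.mem_map_iff_of_surjective _
          (MulSemiringAction.toRingEquiv GQ Zb φ).surjective).1 hx
        have h3 := P0.add_mem (hφ y) (P0.pow_mem_of_mem hy 2 (by norm_num))
        simpa using h3
      have hmax : (φ • P0).IsMaximal := by
        rw [Ideal.pointwise_smul_def]
        exact Ideal.map_isMaximal_of_equiv (MulSemiringAction.toRingEquiv GQ Zb φ)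
      exact hmax.eq_of_le hP.ne_top hsub
    have hm1 : ∀ (k : ℕ) (x : Pt (RY f) S), m (φ ^ k • x) = m x := by
      intro k
      induction k with
      | zero => intro x; simp
      | succ k ih =>
        intro x
        have h3 := congrFun (hinv φ hDec) (φ ^ (k + 1) • x)
        rw [← h3]
        show m (φ⁻¹ • φ ^ (k + 1) • x) = m x
        rw [smul_smul, pow_succ', inv_mul_cancel_left, ih]
    have hpk : ∀ (s : Fin r) (x : Rt (f s)) (k j : ℕ), k ≡ j [MOD (f s).natDegree] →
        φ ^ k • x = φ ^ j • x := by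
      intro s x k j hkj
      have hN := (trans_D13 hf P0 hP h2 φ hφ s x).2
      have hmul : ∀ q : ℕ, φ ^ ((f s).natDegree * q) • x = x := by
        intro q
        induction q with
        | zero => simp
        | succ q ih =>
          rw [Nat.mul_succ, pow_add, mul_smul, hN, ih]
      have hred : ∀ k : ℕ, φ ^ k • x = φ ^ (k % (f s).natDegree) • x := by
        intro k
        conv_lhs => rw [← Nat.mod_add_div k (f s).natDegree]
        rw [pow_add, mul_smul, hmul]
      rw [hred k, hred j, hkj]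
    have hconst : ∀ x y : Pt (RY f) S, m x = m y := by
      intro x y
      choose k hk using fun s : S => (trans_D13 hf P0 hP h2 φ hφ s.1 (x s)).1 (y s)
      obtain ⟨K, hK⟩ := Nat.chineseRemainderOfFinset k (fun s : S => (f s.1).natDegree)
        Finset.univ (fun s _ => by have := hf.three s.1; omega)
        (fun s _ t _ hst => hf.coprime _ _ (fun h => hst (Subtype.ext h)))
      rw [← hm1 K x]
      congr 1
      funext s
      show φ ^ K • x s = y s
      rw [hpk s.1 (x s) K (k s) (hK s (Finset.mem_univ _)), hk]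
    obtain ⟨s0, hs0⟩ := hS
    funext x
    have h3 := hm ⟨s0, hs0⟩ x
    rw [Finset.sum_congr rfl (fun y _ => hconst _ x), Finset.sum_const, Finset.card_univ,
      card_D13 hf s0, nsmul_eq_mul] at h3
    have h4 : (((f s0).natDegree : ℕ) : ZMod 2) = 1 := by
      rw [ZMod.natCast_eq_one_iff_odd]
      exact hf.odd s0
    rw [h4, one_mul] at h3
    exact h3

end Pool.TW
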