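import Pool.Agent.Helper34.TW.StD

/-!
# Project TW, module D2: the sum over the primes and `log (1 / (s - 1))`
-/

set_option autoImplicit false

open scoped NumberField
open NumberField IsDedekindDomain Filter Topology

namespace Pool.TW

/-- the sum over the primes -/
private noncomputable def T_D2 (K : Type) [Field K] [NumberField K] (s : ℝ) : ℝ :=
  ∑' v : HeightOneSpectrum (𝓞 K), (Ideal.absNorm v.asIdeal : ℝ) ^ (-s)

/-- **D2** -/
theorem hD2 : StD2 := by
  intro hD1 K _ _
  obtain ⟨C, hC⟩ := hD1 K
  have hr := dedekindZeta_residue_pos K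
  have htend : Tendsto (fun s : ℝ => (s - 1) * (dedekindZeta K s).re) (𝓝[>] 1)
      (𝓝 (dedekindZeta_residue K)) := by
    have h1 := (Complex.continuous_re.tendsto _).comp (tendsto_sub_one_mul_dedekindZeta_nhdsGT K)
    refine (h1.congr fun s => ?_)
    simp only [Function.comp_apply]
    have h2 : ((s : ℂ) - 1) = ((s - 1 : ℝ) : ℂ) := by push_cast; rfl
    rw [h2, Complex.re_ofReal_mul]
  have hev : ∀ᶠ s : ℝ in 𝓝[>] 1, (s - 1) * (dedekindZeta K s).re ∈
      Set.Ioo (dedekindZeta_residue K / 2) (2 * dedekindZeta_residue K) :=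
    htend (Ioo_mem_nhds (by linarith) (by linarith))
  obtain ⟨u, hu1, hu⟩ := mem_nhdsGT_iff_exists_Ioo_subset.1 hev
  have hu1' : (1 : ℝ) < u := hu1
  -- the sum over the primes is nonnegative and decreasing
  have hT0 : ∀ s : ℝ, 0 ≤ T_D2 K s := fun s => tsum_nonneg fun v => Real.rpow_nonneg (by positivity) _
  have hTm : ∀ s : ℝ, u ≤ s → T_D2 K s ≤ T_D2 K u := by
    intro s hs
    refine Summable.tsum_le_tsum (fun v => ?_) (hC s (hu1'.trans_le hs)).1 (hC u hu1').1
    have h1 : 1 ≤ Ideal.absNorm v.asIdeal :=
      Nat.one_le_iff_ne_zero.2 (Ideal.absNorm_ne_zero_iff_mem_nonZeroDivisors.2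
        (mem_nonZeroDivisors_iff_ne_zero.2 v.ne_bot))
    exact Real.rpow_le_rpow_of_exponent_le (by exact_mod_cast h1) (by linarith)
  refine ⟨max (C + (|Real.log (dedekindZeta_residue K / 2)| +
    |Real.log (2 * dedekindZeta_residue K)|)) (T_D2 K u + |Real.log (1 / (u - 1))|), ?_⟩
  intro s hs1 hs2
  refine ⟨(hC s hs1).1, ?_⟩
  obtain ⟨-, hz1, hzC⟩ := hC s hs1
  change |T_D2 K s - Real.log (1 / (s - 1))| ≤ _
  have hzC' : |T_D2 K s - Real.log (dedekindZeta K s).re| ≤ C := hzC
  by_cases hsu : s < u
  · refine le_trans ?_ (le_max_left _ _)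
    have h1 := hu ⟨hs1, hsu⟩
    obtain ⟨h2, h3⟩ : dedekindZeta_residue K / 2 < (s - 1) * (dedekindZeta K s).re ∧
      (s - 1) * (dedekindZeta K s).re < 2 * dedekindZeta_residue K := h1
    have h4 : Real.log ((s - 1) * (dedekindZeta K s).re) =
        Real.log (dedekindZeta K s).re - Real.log (1 / (s - 1)) := by
      rw [Real.log_mul (by linarith) (by linarith), one_div, Real.log_inv]
      ring
    have h5 : Real.log (dedekindZeta_residue K / 2) ≤
        Real.log ((s - 1) * (dedekindZeta K s).re) := Real.log_le_log (by linarith) h2.le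
    have h6 : Real.log ((s - 1) * (dedekindZeta K s).re) ≤
        Real.log (2 * dedekindZeta_residue K) := Real.log_le_log (by linarith) h3.le
    rw [h4] at h5 h6
    have h7 : |Real.log (dedekindZeta K s).re - Real.log (1 / (s - 1))| ≤
        |Real.log (dedekindZeta_residue K / 2)| + |Real.log (2 * dedekindZeta_residue K)| := by
      rw [abs_le]
      have h8 := neg_abs_le (Real.log (dedekindZeta_residue K / 2))
      have h9 := le_abs_self (Real.log (2 * dedekindZeta_residue K))
      have h10 := abs_nonneg (Real.log (dedekindZeta_residue K / 2))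
      have h11 := abs_nonneg (Real.log (2 * dedekindZeta_residue K))
      constructor <;> linarith
    have h8 : T_D2 K s - Real.log (1 / (s - 1)) = (T_D2 K s - Real.log (dedekindZeta K s).re) +
        (Real.log (dedekindZeta K s).re - Real.log (1 / (s - 1))) := by ring
    rw [h8]
    exact (abs_add_le _ _).trans (add_le_add hzC' h7)
  · refine le_trans ?_ (le_max_right _ _)
    push Not at hsu
    have h1 : 0 ≤ Real.log (1 / (s - 1)) := by
      apply Real.log_nonneg
      rw [le_div_iff₀ (by linarith)]
      linarith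
    have h2 : Real.log (1 / (s - 1)) ≤ Real.log (1 / (u - 1)) := by
      apply Real.log_le_log (div_pos one_pos (by linarith))
      exact one_div_le_one_div_of_le (by linarith) (by linarith)
    have h3 := hTm s hsu
    have h4 := hT0 s
    have h5 := le_abs_self (Real.log (1 / (u - 1)))
    have h6 := hT0 u
    rw [abs_le]
    constructor <;> linarith

end Pool.TW
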