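import Pool.Agent.Helper34.TW.StD

/-!
# TW module D3: the sum over the primes of degree one
-/

set_option autoImplicit false

open scoped Pointwise NumberField
open NumberField Polynomial IsDedekindDomain Pool.RG2 Filter Topology

namespace Pool.TW

private theorem ppow_D3 (K : Type) [Field K] [NumberField K] (v : HeightOneSpectrum (𝓞 K)) :
    ∃ p f : ℕ, p.Prime ∧ 1 ≤ f ∧ Ideal.absNorm v.asIdeal = p ^ f ∧ (p : 𝓞 K) ∈ v.asIdeal := by
  haveI := v.isMaximal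
  letI : Field (𝓞 K ⧸ v.asIdeal) := Ideal.Quotient.field _
  haveI : Finite (𝓞 K ⧸ v.asIdeal) := Ideal.finiteQuotientOfFreeOfNeBot _ v.ne_bot
  letI := Fintype.ofFinite (𝓞 K ⧸ v.asIdeal)
  obtain ⟨p, f, hp, hf, h⟩ := (isPrimePow_nat_iff _).1 (FiniteField.isPrimePow_card (𝓞 K ⧸ v.asIdeal))
  have h1 : Ideal.absNorm v.asIdeal = p ^ f := by
    rw [Ideal.absNorm_apply, Submodule.cardQuot_apply, Nat.card_eq_fintype_card, h]
  refine ⟨p, f, hp, hf, h1, ?_⟩
  have h2 := Ideal.absNorm_mem v.asIdeal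
  rw [h1, Nat.cast_pow] at h2
  exact v.isPrime.mem_of_pow_mem _ h2

private theorem card_D3 (K : Type) [Field K] [NumberField K] (p : ℕ) (hp : p.Prime)
    (W : Finset (HeightOneSpectrum (𝓞 K))) (hW : ∀ v ∈ W, (p : 𝓞 K) ∈ v.asIdeal) :
    W.card ≤ Module.finrank ℚ K := by
  have h1 : ∏ v ∈ W, v.asIdeal ∣ Ideal.span {(p : 𝓞 K)} := by
    refine Finset.prod_dvd_of_coprime ?_ ?_
    · intro v _ w _ hvw
      rw [Function.onFun, Ideal.isCoprime_iff_sup_eq]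
      exact Ideal.IsMaximal.coprime_of_ne v.isMaximal w.isMaximal fun h =>
        hvw (HeightOneSpectrum.ext h)
    · intro v hv
      rw [Ideal.dvd_span_singleton]
      exact hW v hv
  have h2 := map_dvd Ideal.absNorm h1
  rw [map_prod, Ideal.absNorm_span_natCast, RingOfIntegers.rank] at h2
  have h3 : ∀ v ∈ W, p ≤ Ideal.absNorm v.asIdeal := by
    intro v hv
    obtain ⟨d, _, hd⟩ := (Nat.dvd_prime_pow hp).1 ((Finset.dvd_prod_of_mem _ hv).trans h2)
    have h4 : d ≠ 0 := by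
      rintro rfl
      rw [pow_zero, Ideal.absNorm_eq_one_iff] at hd
      exact v.isPrime.ne_top hd
    rw [hd]
    exact Nat.le_self_pow h4 p
  have h5 : p ^ W.card ≤ p ^ Module.finrank ℚ K := by
    refine (Finset.pow_card_le_prod _ _ _ h3).trans (Nat.le_of_dvd (pow_pos hp.pos _) h2)
  exact (Nat.pow_le_pow_iff_right hp.one_lt).1 h5

private theorem mem_of_norm_D3 (K : Type) [Field K] [NumberField K] (v : HeightOneSpectrum (𝓞 K)) (p : ℕ)
    (h : Ideal.absNorm v.asIdeal = p) : (p : 𝓞 K) ∈ v.asIdeal := by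
  rw [← h]
  exact Ideal.absNorm_mem _

private theorem nd_D3 (K : Type) [Field K] [NumberField K] (p : ℕ) (hp : p.Prime) :
    nd K p ≤ Module.finrank ℚ K := by
  classical
  by_contra hc
  have h1 : 0 < nd K p := by omega
  unfold nd at h1 hc
  obtain ⟨_, hfin⟩ := Nat.card_pos_iff.1 h1
  letI := Fintype.ofFinite {v : HeightOneSpectrum (𝓞 K) // Ideal.absNorm v.asIdeal = p}
  have h2 := card_D3 K p hp ((Finset.univ : Finset {v : HeightOneSpectrum (𝓞 K) //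
    Ideal.absNorm v.asIdeal = p}).map (Function.Embedding.subtype _)) (by
      intro v hv
      obtain ⟨w, _, rfl⟩ := Finset.mem_map.1 hv
      exact mem_of_norm_D3 K _ p w.2)
  rw [Finset.card_map, Finset.card_univ, ← Nat.card_eq_fintype_card] at h2
  exact hc h2

private theorem rest_D3 (K : Type) [Field K] [NumberField K] (s : ℝ) (hs : 1 < s)
    (T : Finset (HeightOneSpectrum (𝓞 K))) (hT : ∀ v ∈ T, ¬ (Ideal.absNorm v.asIdeal).Prime) :
    ∑ v ∈ T, (Ideal.absNorm v.asIdeal : ℝ) ^ (-s) ≤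
      (Module.finrank ℚ K : ℝ) * ∑' k : ℕ, 1 / (k : ℝ) ^ 2 := by
  classical
  choose P F hP hF hN hM using ppow_D3 K
  have h1 : ∀ v ∈ T, (Ideal.absNorm v.asIdeal : ℝ) ^ (-s) ≤ 1 / (P v : ℝ) ^ 2 := by
    intro v hv
    have hF2 : 2 ≤ F v := by
      by_contra hc
      have h2 : F v = 1 := by have := hF v; omega
      have h3 := hT v hv
      rw [hN v, h2, pow_one] at h3
      exact h3 (hP v)
    have hp1 : (1 : ℝ) ≤ P v := by exact_mod_cast (hP v).one_lt.le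
    have hp0 : (0 : ℝ) < P v := by linarith
    rw [hN v, Nat.cast_pow, Real.rpow_neg (by positivity), one_div]
    refine inv_anti₀ (by positivity) ?_
    have h4 : (P v : ℝ) ^ 2 ≤ (P v : ℝ) ^ F v := pow_le_pow_right₀ hp1 hF2
    refine h4.trans ?_
    have h5 : (1 : ℝ) ≤ (P v : ℝ) ^ F v := one_le_pow₀ hp1
    calc (P v : ℝ) ^ F v = ((P v : ℝ) ^ F v) ^ (1 : ℝ) := (Real.rpow_one _).symm
      _ ≤ ((P v : ℝ) ^ F v) ^ s := Real.rpow_le_rpow_of_exponent_le h5 hs.le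
  have h6 : ∑ v ∈ T, 1 / (P v : ℝ) ^ 2 = ∑ p ∈ T.image P, ∑ v ∈ T.filter (fun v => P v = p), 1 / (P v : ℝ) ^ 2 :=
    (Finset.sum_fiberwise_of_maps_to (fun v hv => Finset.mem_image_of_mem P hv) _).symm
  have hsum : Summable fun k : ℕ => 1 / (k : ℝ) ^ 2 := Real.summable_one_div_nat_pow.2 (by norm_num)
  calc ∑ v ∈ T, (Ideal.absNorm v.asIdeal : ℝ) ^ (-s) ≤ ∑ v ∈ T, 1 / (P v : ℝ) ^ 2 := Finset.sum_le_sum h1
    _ = ∑ p ∈ T.image P, ∑ v ∈ T.filter (fun v => P v = p), 1 / (P v : ℝ) ^ 2 := h6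
    _ ≤ ∑ p ∈ T.image P, (Module.finrank ℚ K : ℝ) * (1 / (p : ℝ) ^ 2) := by
        refine Finset.sum_le_sum fun p hp => ?_
        obtain ⟨v₀, _, hv₀⟩ := Finset.mem_image.1 hp
        have hpp : p.Prime := hv₀ ▸ hP v₀
        have h7 : ∑ v ∈ T.filter (fun v => P v = p), 1 / (P v : ℝ) ^ 2 =
            ((T.filter (fun v => P v = p)).card : ℝ) * (1 / (p : ℝ) ^ 2) := by
          rw [Finset.sum_congr rfl (g := fun _ => 1 / (p : ℝ) ^ 2), Finset.sum_const, nsmul_eq_mul]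
          intro v hv
          rw [(Finset.mem_filter.1 hv).2]
        rw [h7]
        refine mul_le_mul_of_nonneg_right ?_ (by positivity)
        exact_mod_cast card_D3 K p hpp _ fun v hv => by
          rw [← (Finset.mem_filter.1 hv).2]
          exact hM v
    _ = (Module.finrank ℚ K : ℝ) * ∑ p ∈ T.image P, 1 / (p : ℝ) ^ 2 := by rw [Finset.mul_sum]
    _ ≤ (Module.finrank ℚ K : ℝ) * ∑' k : ℕ, 1 / (k : ℝ) ^ 2 := by
        refine mul_le_mul_of_nonneg_left ?_ (by positivity)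
        exact hsum.sum_le_tsum _ fun k _ => by positivity

/-- the primes of degree one, by their norm -/
private noncomputable def eqv_D3 (K : Type) [Field K] [NumberField K] :
    (Σ p : Nat.Primes, {v : HeightOneSpectrum (𝓞 K) // Ideal.absNorm v.asIdeal = p}) ≃
      {v : HeightOneSpectrum (𝓞 K) | (Ideal.absNorm v.asIdeal).Prime} where
  toFun x := ⟨x.2.1, by
    change (Ideal.absNorm x.2.1.asIdeal).Prime
    rw [x.2.2]
    exact x.1.2⟩
  invFun v := ⟨⟨Ideal.absNorm v.1.asIdeal, v.2⟩, ⟨v.1, rfl⟩⟩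
  left_inv := by
    rintro ⟨⟨p, hp⟩, ⟨v, hv⟩⟩
    dsimp only at hv
    subst hv
    rfl
  right_inv v := rfl

theorem hD3 : StD3 := by
  intro hD1 hD2 K _ _
  obtain ⟨C, hC⟩ := hD2 hD1 K
  refine ⟨C + (Module.finrank ℚ K : ℝ) * ∑' k : ℕ, 1 / (k : ℝ) ^ 2, nd_D3 K, fun s hs hs2 => ?_⟩
  obtain ⟨h1, h2⟩ := hC s hs hs2
  set A : Set (HeightOneSpectrum (𝓞 K)) := {v | (Ideal.absNorm v.asIdeal).Prime} with hA
  have h3 : Summable (fun x : (Σ p : Nat.Primes, {v : HeightOneSpectrum (𝓞 K) // Ideal.absNorm v.asIdeal = p}) =>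
      (x.1 : ℝ) ^ (-s)) := by
    have e1 := (eqv_D3 K).summable_iff.2 (h1.subtype A)
    refine e1.congr fun x => ?_
    change (Ideal.absNorm x.2.1.asIdeal : ℝ) ^ (-s) = _
    rw [x.2.2]
  have h4 : ∀ p : Nat.Primes, ∑' _ : {v : HeightOneSpectrum (𝓞 K) // Ideal.absNorm v.asIdeal = p}, (p : ℝ) ^ (-s) =
      (nd K p : ℝ) * (p : ℝ) ^ (-s) := fun p => by
    rw [tsum_const, nsmul_eq_mul]
    rfl
  have h5 : Summable (fun p : Nat.Primes => (nd K p : ℝ) * (p : ℝ) ^ (-s)) := by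
    refine h3.sigma.congr fun p => ?_
    exact h4 p
  have h6 : ∑' p : Nat.Primes, (nd K p : ℝ) * (p : ℝ) ^ (-s) =
      ∑' v : A, (Ideal.absNorm v.1.asIdeal : ℝ) ^ (-s) := by
    rw [← (eqv_D3 K).tsum_eq]
    have e1 : (fun x : (Σ p : Nat.Primes, {v : HeightOneSpectrum (𝓞 K) // Ideal.absNorm v.asIdeal = p}) =>
        (Ideal.absNorm ((eqv_D3 K) x).1.asIdeal : ℝ) ^ (-s)) = fun x => (x.1 : ℝ) ^ (-s) := by
      funext x
      change (Ideal.absNorm x.2.1.asIdeal : ℝ) ^ (-s) = _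
      rw [x.2.2]
    rw [e1, h3.tsum_sigma]
    exact tsum_congr fun p => (h4 p).symm
  have h7 : (∑' v : A, (Ideal.absNorm v.1.asIdeal : ℝ) ^ (-s)) +
      ∑' v : (Aᶜ : Set _), (Ideal.absNorm v.1.asIdeal : ℝ) ^ (-s) =
      ∑' v : HeightOneSpectrum (𝓞 K), (Ideal.absNorm v.asIdeal : ℝ) ^ (-s) :=
    (h1.subtype A).tsum_add_tsum_compl (h1.subtype Aᶜ)
  have h8 : ∑' v : (Aᶜ : Set _), (Ideal.absNorm v.1.asIdeal : ℝ) ^ (-s) ≤
      (Module.finrank ℚ K : ℝ) * ∑' k : ℕ, 1 / (k : ℝ) ^ 2 := by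
    refine Real.tsum_le_of_sum_le (fun v => by positivity) fun u => ?_
    have e1 := rest_D3 K s hs (u.map (Function.Embedding.subtype _)) (by
      intro v hv
      obtain ⟨w, _, rfl⟩ := Finset.mem_map.1 hv
      exact w.2)
    rw [Finset.sum_map] at e1
    exact e1
  have h9 : 0 ≤ ∑' v : (Aᶜ : Set _), (Ideal.absNorm v.1.asIdeal : ℝ) ^ (-s) :=
    tsum_nonneg fun v => by positivity
  refine ⟨h5, ?_⟩
  rw [h6]
  rw [← h7] at h2
  rw [abs_le] at h2 ⊢
  constructor <;> linarith [h2.1, h2.2]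

end Pool.TW
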