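import Pool.Agent.Helper34.TW.StD
import Pool.Agent.Helper52.RG.M_PROF
import Pool.Agent.Helper2.RG.M_LIFT
import Pool.Agent.Helper45.RG.M_CONJ

/-!
# TW module D4: primes of norm `p` of the fixed field of `H` and fixed cosets
-/

set_option autoImplicit false

open scoped Pointwise NumberField
open NumberField Polynomial IsDedekindDomain Pool.RG2

namespace Pool.TW

private theorem frob_pow_D4 {E : Type} [Field E] (q : ℕ) [Fact q.Prime] [CharP E q] (T : Set E)
    (hT : T.Finite) (hi : ∀ x ∈ T, IsIntegral ℤ x) (τ : E →+* E) :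
    ∃ k : ℕ, ∀ x ∈ T, τ x = x ^ q ^ k := by
  let _ := ZMod.algebra E q
  have : IsScalarTower ℤ (ZMod q) E := by
    refine ⟨fun a b c => ?_⟩
    rw [Algebra.smul_def, Algebra.smul_def, Algebra.smul_def, Algebra.smul_def, map_mul, mul_assoc]
    congr 1
    simp
  have hi' : ∀ x ∈ T, IsIntegral (ZMod q) x := fun x hx => (hi x hx).tower_top
  have : Finite T := hT
  have : FiniteDimensional (ZMod q) (IntermediateField.adjoin (ZMod q) T) :=
    IntermediateField.finiteDimensional_adjoin hi'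
  have : Finite (IntermediateField.adjoin (ZMod q) T) := Module.finite_of_finite (ZMod q)
  let τ' : E →ₐ[ZMod q] E := { τ with
    commutes' := fun r => by
      have h1 : τ.comp (algebraMap (ZMod q) E) = algebraMap (ZMod q) E := Subsingleton.elim _ _
      exact congrArg (fun g : ZMod q →+* E => g r) h1 }
  obtain ⟨n, hn⟩ := (FiniteField.bijective_frobeniusAlgHom_pow (ZMod q)
    (IntermediateField.adjoin (ZMod q) T)).2
      (τ'.restrictNormal (IntermediateField.adjoin (ZMod q) T))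
  refine ⟨n, fun x hx => ?_⟩
  have h1 := τ'.restrictNormal_commutes (IntermediateField.adjoin (ZMod q) T)
    ⟨x, IntermediateField.subset_adjoin _ _ hx⟩
  rw [← hn] at h1
  have h2 : ((FiniteField.frobeniusAlgHom (ZMod q) (IntermediateField.adjoin (ZMod q) T) ^ (n : ℕ))
      ⟨x, IntermediateField.subset_adjoin _ _ hx⟩) =
      (⟨x, IntermediateField.subset_adjoin _ _ hx⟩ : IntermediateField.adjoin (ZMod q) T) ^ q ^ (n : ℕ) := by
    rw [AlgHom.coe_pow, FiniteField.coe_frobeniusAlgHom, pow_iterate, ZMod.card]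
  dsimp only at h1
  rw [h2] at h1
  exact h1.symm

private theorem int_mem_D4 (P : Ideal Zb) (hP : P.IsMaximal) (q : ℕ) (hq : q.Prime) (hqP : (q : Zb) ∈ P)
    (n : ℤ) : (n : Zb) ∈ P ↔ (q : ℤ) ∣ n := by
  constructor
  · intro h
    by_contra hn
    obtain ⟨a, b, hab⟩ := (Nat.prime_iff_prime_int.1 hq).coprime_iff_not_dvd.2 hn
    have h2 : (1 : Zb) ∈ P := by
      have h1 : (1 : Zb) = (a : Zb) * (q : Zb) + b * n := by
        have := congrArg (fun t : ℤ => (t : Zb)) hab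
        push_cast at this
        exact this.symm
      rw [h1]
      exact P.add_mem (P.mul_mem_left _ hqP) (P.mul_mem_left _ h)
    exact hP.ne_top ((Ideal.eq_top_iff_one _).2 h2)
  · rintro ⟨m, rfl⟩
    push_cast
    exact P.mul_mem_right _ hqP

private theorem conj_D4 (P P' : Ideal Zb) (hP : P.IsMaximal) (hP' : P'.IsMaximal) (q : ℕ) (hq : q.Prime)
    (h1 : (q : Zb) ∈ P) (h2 : (q : Zb) ∈ P') : ∃ g : GQ, g • P = P' := by
  obtain ⟨g, _, hg⟩ := (Pool.Agent.Helper52.RG.tProf ⊥).1 P P' hP hP' (fun x hx => by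
    rw [IntermediateField.mem_bot] at hx
    obtain ⟨y, hy⟩ := hx
    have h3 : IsIntegral ℤ y := by
      have h4 : IsIntegral ℤ (x : Qb) := x.isIntegral_coe
      rw [← hy] at h4
      exact (isIntegral_algebraMap_iff (algebraMap ℚ Qb).injective).1 h4
    obtain ⟨n, hn⟩ := IsIntegrallyClosed.isIntegral_iff.1 h3
    have h5 : x = (n : Zb) := by
      apply RingOfIntegers.ext
      rw [← hy, ← hn]
      simp
    rw [h5, int_mem_D4 P hP q hq h1, int_mem_D4 P' hP' q hq h2])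
  exact ⟨g, hg⟩

private theorem pow_D4 (P : Ideal Zb) (φ : GQ) (q : ℕ) (hφ : ∀ x : Zb, φ • x - x ^ q ∈ P) (k : ℕ) (x : Zb) :
    φ ^ k • x - x ^ q ^ k ∈ P := by
  induction k with
  | zero => simp
  | succ k ih =>
    have h1 : φ ^ (k + 1) • x - x ^ q ^ (k + 1) =
        (φ • (φ ^ k • x) - (φ ^ k • x) ^ q) + ((φ ^ k • x) ^ q - (x ^ q ^ k) ^ q) := by
      rw [pow_succ' φ k, mul_smul, ← pow_mul, ← pow_succ]
      ring
    rw [h1]
    exact P.add_mem (hφ _) (P.mem_of_dvd (sub_dvd_pow_sub_pow _ _ q) ih)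

private theorem phi_D4 (P : Ideal Zb) (hP : P.IsMaximal) (φ : GQ) (q : ℕ) (hq : q.Prime)
    (hφ : ∀ x : Zb, φ • x - x ^ q ∈ P) (k : ℕ) (x : Zb) : φ ^ k • x ∈ P ↔ x ∈ P := by
  have h1 := pow_D4 P φ q hφ k x
  constructor
  · intro h
    have h2 : x ^ q ^ k ∈ P := by
      have h3 : x ^ q ^ k = φ ^ k • x - (φ ^ k • x - x ^ q ^ k) := by ring
      rw [h3]
      exact P.sub_mem h h1
    exact hP.isPrime.mem_of_pow_mem _ h2
  · intro h
    have h3 : φ ^ k • x = (φ ^ k • x - x ^ q ^ k) + x ^ q ^ k := by ring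
    rw [h3]
    exact P.add_mem h1 (P.pow_mem_of_mem h _ (pow_pos hq.pos k))

/-- the homomorphism `a ↦ γ a` -/
private noncomputable def J_D4 (K : Sub) (γ : GQ) : 𝓞 K →+* Zb :=
  (MulSemiringAction.toRingHom GQ Zb γ).comp (algebraMap (𝓞 K) Zb)

private theorem J_apply_D4 (K : Sub) (γ : GQ) (a : 𝓞 K) : J_D4 K γ a = γ • algebraMap (𝓞 K) Zb a := rfl


private theorem lift_D4 (K : Sub) (x : Zb) (hx : (x : Qb) ∈ K) : ∃ a : 𝓞 K, algebraMap (𝓞 K) Zb a = x := by
  have hxi : IsIntegral ℤ (⟨(x : Qb), hx⟩ : K) := by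
    have h4 : IsIntegral ℤ (x : Qb) := x.isIntegral_coe
    exact (isIntegral_algebraMap_iff (algebraMap K Qb).injective).1 h4
  exact ⟨⟨⟨(x : Qb), hx⟩, hxi⟩, by apply RingOfIntegers.ext; rfl⟩

private theorem GF_fixed_D4 (N : Subgroup GQ) (hN : IsOpen (N : Set GQ)) :
    IntermediateField.fixingSubgroup (IntermediateField.fixedField N) = N :=
  InfiniteGalois.fixingSubgroup_fixedField ⟨N, Subgroup.isClosed_of_isOpen N hN⟩

/-- an element of `Dec P` is `φ^k` modulo `N` -/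
private theorem dec_D4 (N : Subgroup GQ) (hN : IsOpen (N : Set GQ)) (hNn : N.Normal) (q : ℕ) (hq : q.Prime)
    (P : Ideal Zb) (φ : GQ) (hP : P.IsMaximal) (hqP : (q : Zb) ∈ P) (hφ : ∀ x : Zb, φ • x - x ^ q ∈ P)
    (hI : Ine P ≤ N) (d : GQ) (hd : d • P = P) : ∃ k : ℕ, (φ ^ k)⁻¹ * d ∈ N := by
  classical
  have : Fact q.Prime := ⟨hq⟩
  let _ : Field (Zb ⧸ P) := Ideal.Quotient.field P
  have : CharP (Zb ⧸ P) q := by
    refine (CharP.charP_iff_prime_eq_zero hq).2 ?_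
    have := Ideal.Quotient.eq_zero_iff_mem.2 hqP
    rw [map_natCast] at this
    exact this
  let τ : Zb ⧸ P →+* Zb ⧸ P := Ideal.quotientMap P (MulSemiringAction.toRingHom GQ Zb d) (by
    intro x hx
    change d • x ∈ P
    have := Ideal.smul_mem_pointwise_smul d x P hx
    rwa [hd] at this)
  have hτ : ∀ x : Zb, τ (Ideal.Quotient.mk P x) = Ideal.Quotient.mk P (d • x) := fun x =>
    Ideal.quotientMap_mk
  let M : Sub := IntermediateField.fixedField N
  have hGF : Pool.RG.GF M = N := GF_fixed_D4 N hN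
  have hfd : FiniteDimensional ℚ M := by
    rw [← InfiniteGalois.isOpen_iff_finite]
    show IsOpen ((Pool.RG.GF M : Subgroup GQ) : Set GQ)
    rw [hGF]
    exact hN
  have : NumberField M := { to_charZero := inferInstance, to_finiteDimensional := hfd }
  let J : Ideal (𝓞 M) := P.comap (algebraMap (𝓞 M) Zb)
  have hJ : J ≠ ⊥ := by
    intro h
    have h1 : (q : 𝓞 M) ∈ J := by
      rw [Ideal.mem_comap, map_natCast]
      exact hqP
    rw [h, Ideal.mem_bot] at h1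
    exact (Nat.cast_ne_zero.2 hq.ne_zero) h1
  have : Finite (𝓞 M ⧸ J) := Ideal.finiteQuotientOfFreeOfNeBot J hJ
  let T : Set (Zb ⧸ P) := Set.range fun a : 𝓞 M => Ideal.Quotient.mk P (algebraMap (𝓞 M) Zb a)
  have hT : T.Finite := by
    let F : 𝓞 M ⧸ J →+* Zb ⧸ P := Ideal.quotientMap P (algebraMap (𝓞 M) Zb) le_rfl
    refine (Set.finite_range F).subset ?_
    rintro _ ⟨a, rfl⟩
    exact ⟨Ideal.Quotient.mk J a, Ideal.quotientMap_mk⟩
  obtain ⟨k, hk⟩ := frob_pow_D4 q T hT (by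
    rintro _ ⟨a, rfl⟩
    have h1 : IsIntegral ℤ (algebraMap (𝓞 M) Zb a) := Algebra.IsIntegral.isIntegral _
    exact h1.map (Ideal.Quotient.mkₐ ℤ P)) τ
  refine ⟨k, ?_⟩
  have hres : ∀ x : Zb, (x : Qb) ∈ M → ((φ ^ k)⁻¹ * d) • x - x ∈ P := by
    intro x hx
    obtain ⟨a, ha⟩ := lift_D4 M x hx
    have h1 := hk _ ⟨a, rfl⟩
    dsimp only at h1
    rw [ha, hτ, ← map_pow, Ideal.Quotient.eq] at h1
    have h2 := pow_D4 P φ q hφ k x
    have h3 : d • x - φ ^ k • x ∈ P := by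
      have h4 : d • x - φ ^ k • x = (d • x - x ^ q ^ k) - (φ ^ k • x - x ^ q ^ k) := by ring
      rw [h4]
      exact P.sub_mem h1 h2
    rw [← phi_D4 P hP φ q hq hφ k, smul_sub, mul_smul, smul_inv_smul]
    exact h3
  obtain ⟨σ, hσ, hσ'⟩ := Pool.Agent.Helper2.RG.tLift Pool.Agent.Helper52.RG.tProf ⊥ M bot_le (by
    intro g _ n hn
    rw [hGF] at hn ⊢
    exact hNn.conj_mem n hn g) P hP ((φ ^ k)⁻¹ * d) (by
    rw [Pool.RG.mem_GF]
    intro x hx
    rw [IntermediateField.mem_bot] at hx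
    obtain ⟨y, rfl⟩ := hx
    exact AlgEquiv.commutes _ _) hres
  rw [hGF] at hσ'
  have h5 : σ ∈ N := hI hσ.2
  have h6 := N.mul_mem h5 hσ'
  rwa [mul_inv_cancel_left] at h6

/-- a finite field of characteristic `p` all of whose elements satisfy `a^p = a` has `p` elements -/
private theorem card_D4 (k : Type) [Field k] [Finite k] (p : ℕ) (hp : p.Prime) (hc : (p : k) = 0)
    (h : ∀ a : k, a ^ p = a) : Nat.card k = p := by
  classical
  have : Fact p.Prime := ⟨hp⟩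
  have : CharP k p := (CharP.charP_iff_prime_eq_zero hp).2 hc
  have : Fintype k := Fintype.ofFinite k
  obtain ⟨n, -, hn⟩ := FiniteField.card k p
  rw [Nat.card_eq_fintype_card]
  apply le_antisymm
  · have h1 : (X ^ p - X : k[X]) ≠ 0 := FiniteField.X_pow_card_sub_X_ne_zero k hp.one_lt
    have h2 := Polynomial.card_roots' (X ^ p - X : k[X])
    rw [FiniteField.X_pow_card_sub_X_natDegree_eq k hp.one_lt] at h2
    refine le_trans ?_ h2
    have h3 : (Finset.univ : Finset k).val ≤ (X ^ p - X : k[X]).roots := by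
      rw [Multiset.le_iff_subset Finset.univ.nodup]
      intro a _
      rw [Polynomial.mem_roots h1, Polynomial.IsRoot.def, eval_sub, eval_pow, eval_X, h, sub_self]
    have h4 := Multiset.card_le_card h3
    exact h4
  · rw [hn]
    exact Nat.le_self_pow n.pos.ne' p

theorem hD4 : StD4 := by
  classical
  intro N H hN hNn hNH F _ hF p hp P φ hP hpP hφ hI
  have hH : IsOpen (H : Set GQ) := Subgroup.isOpen_mono hNH hN
  have hGF : Pool.RG.GF F = H := by rw [hF]; exact GF_fixed_D4 H hH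
  have := hP.isPrime
  have hp0 : (p : 𝓞 F) ≠ 0 := Nat.cast_ne_zero.2 hp.ne_zero
  have hpJ : ∀ g : GQ, (p : 𝓞 F) ∈ P.comap (J_D4 F g) := fun g => by
    rw [Ideal.mem_comap, map_natCast]
    exact hpP
  let V : GQ → HeightOneSpectrum (𝓞 F) := fun γ =>
    ⟨P.comap (J_D4 F γ), Ideal.comap_isPrime _ _, fun h => by
      have h1 := hpJ γ
      rw [h] at h1
      exact hp0 ((Ideal.mem_bot).1 h1)⟩
  have hV : ∀ (γ : GQ) (a : 𝓞 F), a ∈ (V γ).asIdeal ↔ γ • (algebraMap (𝓞 F) Zb a) ∈ P := fun γ a => Iff.rfl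
  have hfixF : ∀ h ∈ H, ∀ a : 𝓞 F, h • algebraMap (𝓞 F) Zb a = algebraMap (𝓞 F) Zb a := by
    intro h hh a
    apply RingOfIntegers.ext
    rw [Pool.RG.coe_smul']
    rw [← hGF] at hh
    exact (Pool.RG.mem_GF _ _).1 hh _ (a : F).2
  -- the norm of `V γ`
  have hnorm : ∀ γ : GQ, γ⁻¹ * φ * γ ∈ H → Ideal.absNorm (V γ).asIdeal = p := by
    intro γ hγ
    have : (V γ).asIdeal.IsMaximal := (V γ).isMaximal
    let _ : Field (𝓞 F ⧸ (V γ).asIdeal) := Ideal.Quotient.field _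
    have : Finite (𝓞 F ⧸ (V γ).asIdeal) := Ideal.finiteQuotientOfFreeOfNeBot _ (V γ).ne_bot
    rw [Ideal.absNorm_apply, Submodule.cardQuot_apply]
    apply card_D4 (𝓞 F ⧸ (V γ).asIdeal) p hp
    · have := Ideal.Quotient.eq_zero_iff_mem.2 (hpJ γ)
      rw [map_natCast] at this
      exact this
    · intro a
      obtain ⟨a, rfl⟩ := Ideal.Quotient.mk_surjective a
      rw [← map_pow, Ideal.Quotient.eq, hV, map_sub, map_pow, smul_sub, smul_pow']
      have h1 := hφ (γ • algebraMap (𝓞 F) Zb a)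
      have h2 : φ • γ • algebraMap (𝓞 F) Zb a = γ • algebraMap (𝓞 F) Zb a := by
        have h3 := hfixF _ hγ a
        rw [mul_smul, mul_smul, inv_smul_eq_iff] at h3
        exact h3
      rw [h2] at h1
      have h4 := P.neg_mem h1
      rwa [neg_sub] at h4
  have hfix : ∀ x : GQ ⧸ H, φ • x = x → x.out⁻¹ * φ * x.out ∈ H := by
    intro x hx
    have h1 : φ • ((x.out : GQ) : GQ ⧸ H) = ((x.out : GQ) : GQ ⧸ H) := by
      rw [QuotientGroup.out_eq']; exact hx
    have h2 : ((x.out : GQ) : GQ ⧸ H) = ((φ * x.out : GQ) : GQ ⧸ H) := h1.symm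
    rw [QuotientGroup.eq] at h2
    rwa [← mul_assoc] at h2
  let f : {x : GQ ⧸ H // φ • x = x} → {v : HeightOneSpectrum (𝓞 F) // Ideal.absNorm v.asIdeal = p} :=
    fun x => ⟨V x.1.out, hnorm _ (hfix _ x.2)⟩
  unfold nd
  refine (Nat.card_congr (Equiv.ofBijective f ⟨?_, ?_⟩)).symm
  · rintro ⟨x, hx⟩ ⟨x', hx'⟩ hxx
    have hVV : V x.out = V x'.out := congrArg Subtype.val hxx
    apply Subtype.ext
    show x = x'
    obtain ⟨h, hh, hhP⟩ := (Pool.Agent.Helper52.RG.tProf F).1 (x.out⁻¹ • P) (x'.out⁻¹ • P)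
      (Pool.RG.isMaximal_smul _ _ hP) (Pool.RG.isMaximal_smul _ _ hP) (fun z hz => by
        obtain ⟨a, ha⟩ := lift_D4 F z hz
        rw [Pool.RG.mem_smul, Pool.RG.mem_smul, inv_inv, inv_inv, ← ha, ← hV, ← hV, hVV])
    rw [hGF] at hh
    have hd : (x'.out * h * x.out⁻¹) • P = P := by
      rw [mul_smul, mul_smul, hhP, smul_inv_smul]
    obtain ⟨k, hk⟩ := dec_D4 N hN hNn p hp P φ hP hpP hφ hI _ hd
    -- `φ^k` fixes the coset `x`
    have h1 : φ ^ k • x = x := by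
      clear hk
      induction k with
      | zero => simp
      | succ k ih => rw [pow_succ, mul_smul, hx, ih]
    have h2 : (((φ ^ k * x.out : GQ)) : GQ ⧸ H) = ((x.out : GQ) : GQ ⧸ H) := by
      have h3 : φ ^ k • ((x.out : GQ) : GQ ⧸ H) = ((x.out : GQ) : GQ ⧸ H) := by
        rw [QuotientGroup.out_eq']; exact h1
      exact h3
    have h4 : (((φ ^ k * x.out : GQ)) : GQ ⧸ H) = ((x'.out : GQ) : GQ ⧸ H) := by
      rw [QuotientGroup.eq]
      have h5 : (φ ^ k * x.out)⁻¹ * x'.out =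
          (x.out⁻¹ * ((φ ^ k)⁻¹ * (x'.out * h * x.out⁻¹)) * x.out⁻¹⁻¹) * h⁻¹ := by group
      rw [h5]
      exact H.mul_mem (hNH (hNn.conj_mem' _ hk _)) (H.inv_mem hh)
    rw [← QuotientGroup.out_eq' x, ← QuotientGroup.out_eq' x', ← h2, h4]
  · rintro ⟨v, hv⟩
    have : v.asIdeal.IsMaximal := v.isMaximal
    have : Algebra.IsIntegral (𝓞 F) Zb := by
      constructor
      intro z
      have h1 : IsIntegral ℤ z := Algebra.IsIntegral.isIntegral z
      exact h1.tower_top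
    obtain ⟨P', hP', hP'v⟩ := Ideal.exists_ideal_over_maximal_of_isIntegral (S := Zb) v.asIdeal (by
      rw [(RingHom.injective_iff_ker_eq_bot _).1 (FaithfulSMul.algebraMap_injective (𝓞 F) Zb)]
      exact bot_le)
    have hmem : ∀ a : 𝓞 F, a ∈ v.asIdeal ↔ algebraMap (𝓞 F) Zb a ∈ P' := by
      intro a
      rw [← hP'v, Ideal.mem_comap]
    have hpv : (p : 𝓞 F) ∈ v.asIdeal := by
      have := Ideal.absNorm_mem v.asIdeal
      rwa [hv] at this
    have hpP' : (p : Zb) ∈ P' := by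
      have := (hmem _).1 hpv
      rwa [map_natCast] at this
    obtain ⟨g, hg⟩ := conj_D4 P P' hP hP' p hp hpP hpP'
    -- `P' = g P`
    have hP'g : ∀ z : Zb, z ∈ P' ↔ g⁻¹ • z ∈ P := by
      intro z
      rw [← hg, Pool.RG.mem_smul]
    have hφ' : ∀ z : Zb, (g * φ * g⁻¹) • z - z ^ p ∈ P' := by
      intro z
      rw [hP'g, smul_sub, smul_pow', mul_smul, mul_smul, inv_smul_smul]
      exact hφ _
    have hdec : (g * φ * g⁻¹) • P' = P' := by
      ext z
      rw [Pool.RG.mem_smul]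
      have h1 := phi_D4 P' hP' (g * φ * g⁻¹) p hp hφ' 1 ((g * φ * g⁻¹)⁻¹ • z)
      rw [pow_one, smul_inv_smul] at h1
      exact h1.symm
    have hcardv : Nat.card (𝓞 F ⧸ v.asIdeal) = p := by
      rw [← hv, Ideal.absNorm_apply, Submodule.cardQuot_apply]
    have hpow : ∀ a : 𝓞 F, a ^ p - a ∈ v.asIdeal := by
      intro a
      let _ : Field (𝓞 F ⧸ v.asIdeal) := Ideal.Quotient.field _
      have : Finite (𝓞 F ⧸ v.asIdeal) := Ideal.finiteQuotientOfFreeOfNeBot _ v.ne_bot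
      have : Fintype (𝓞 F ⧸ v.asIdeal) := Fintype.ofFinite _
      rw [← Ideal.Quotient.eq, map_pow]
      rw [Nat.card_eq_fintype_card] at hcardv
      have := FiniteField.pow_card (Ideal.Quotient.mk v.asIdeal a)
      rwa [hcardv] at this
    obtain ⟨h, hh, hh'⟩ := (Pool.Agent.Helper52.RG.tProf F).2 P' hP' (g * φ * g⁻¹) hdec (by
      intro z hz
      obtain ⟨a, ha⟩ := lift_D4 F z hz
      have h1 := hφ' z
      have h2 : z ^ p - z ∈ P' := by
        rw [← ha, ← map_pow, ← map_sub, ← hmem]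
        exact hpow a
      have h3 := P'.add_mem h1 h2
      rwa [sub_add_sub_cancel] at h3)
    have hhH : h ∈ H := by rw [← hGF]; exact hh.1
    -- `g⁻¹ * (φ'⁻¹ h) * g ∈ Ine P`
    have hine : g⁻¹ * ((g * φ * g⁻¹)⁻¹ * h) * g ∈ Ine P := by
      show ∀ z : Zb, (g⁻¹ * ((g * φ * g⁻¹)⁻¹ * h) * g) • z - z ∈ P
      intro z
      have h1 := hh' (g • z)
      rw [hP'g] at h1
      rw [smul_sub] at h1
      have h2 : g⁻¹ • (g * φ * g⁻¹) • g • z = φ • z := by
        simp only [← mul_smul]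
        congr 1
        group
      rw [h2] at h1
      have h3 := phi_D4 P hP φ p hp hφ 1 ((g⁻¹ * ((g * φ * g⁻¹)⁻¹ * h) * g) • z - z)
      rw [← h3, pow_one, smul_sub]
      have h4 : φ • (g⁻¹ * ((g * φ * g⁻¹)⁻¹ * h) * g) • z = g⁻¹ • h • g • z := by
        simp only [← mul_smul]
        congr 1
        group
      rw [h4]
      exact h1
    have hφH : g * φ * g⁻¹ ∈ H := by
      have h1 := hI hine
      have h2 := hNn.conj_mem _ h1 g
      have h3 : g * (g⁻¹ * ((g * φ * g⁻¹)⁻¹ * h) * g) * g⁻¹ = (g * φ * g⁻¹)⁻¹ * h := by group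
      rw [h3] at h2
      have h4 := H.mul_mem hhH (H.inv_mem (hNH h2))
      have h5 : h * ((g * φ * g⁻¹)⁻¹ * h)⁻¹ = g * φ * g⁻¹ := by group
      rwa [h5] at h4
    have hx : φ • ((g⁻¹ : GQ) : GQ ⧸ H) = ((g⁻¹ : GQ) : GQ ⧸ H) := by
      have h1 : (((g⁻¹ : GQ)) : GQ ⧸ H) = ((φ * g⁻¹ : GQ) : GQ ⧸ H) := by
        rw [QuotientGroup.eq, inv_inv, ← mul_assoc]
        exact hφH
      exact h1.symm
    refine ⟨⟨((g⁻¹ : GQ) : GQ ⧸ H), hx⟩, ?_⟩
    apply Subtype.ext
    show V (Quotient.out ((g⁻¹ : GQ) : GQ ⧸ H)) = v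
    have h1 : ∃ h1 ∈ H, Quotient.out ((g⁻¹ : GQ) : GQ ⧸ H) = g⁻¹ * h1 := by
      refine ⟨(g⁻¹)⁻¹ * Quotient.out ((g⁻¹ : GQ) : GQ ⧸ H), ?_, by group⟩
      rw [← QuotientGroup.eq, QuotientGroup.out_eq']
    obtain ⟨h1, h1H, h1e⟩ := h1
    rw [h1e]
    apply HeightOneSpectrum.ext
    ext a
    rw [hV, mul_smul, hfixF _ h1H, ← hP'g, ← hmem]

end Pool.TW
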