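import Pool.Agent.Helper34.TW.StD

/-!
# Project TW, module D6: only finitely many ramified primes
-/

set_option autoImplicit false

open scoped Pointwise NumberField
open NumberField Polynomial IsDedekindDomain Pool.RG2 Filter Topology

namespace Pool.TW

private theorem nz_D6 (z : Zb) (hz : z ≠ 0) : ∃ B : ℕ, ∀ p : ℕ, p.Prime → B < p → ∀ P : Ideal Zb,
    P.IsMaximal → (p : Zb) ∈ P → z ∉ P := by
  have hint : IsIntegral ℤ z := NumberField.RingOfIntegers.isIntegral z
  have h1 : (Ideal.span {z}).comap (algebraMap ℤ Zb) ≠ ⊥ :=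
    Ideal.comap_ne_bot_of_integral_mem hz (Ideal.mem_span_singleton_self z) hint
  obtain ⟨m, hm, hm0⟩ := Submodule.exists_mem_ne_zero_of_ne_bot h1
  refine ⟨m.natAbs, fun p hp hB P hP hpP hzP => ?_⟩
  have hmP : (m : Zb) ∈ P := by
    have h2 : (algebraMap ℤ Zb) m ∈ Ideal.span {z} := hm
    exact (Ideal.span_singleton_le_iff_mem P).2 hzP h2
  have hcop : IsCoprime m (p : ℤ) := by
    rw [Int.isCoprime_iff_gcd_eq_one]
    have h3 : Nat.Coprime m.natAbs p := by
      refine Nat.Coprime.symm ((Nat.Prime.coprime_iff_not_dvd hp).2 fun hd => ?_)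
      exact absurd (Nat.le_of_dvd (Int.natAbs_pos.2 hm0) hd) (not_le.2 hB)
    exact h3
  obtain ⟨u, v, huv⟩ := hcop
  apply hP.ne_top
  rw [Ideal.eq_top_iff_one]
  have h4 : (1 : Zb) = (u : Zb) * (m : Zb) + (v : Zb) * (p : Zb) := by
    have h5 := congrArg (Int.cast : ℤ → Zb) huv
    push_cast at h5
    exact h5.symm
  rw [h4]
  exact P.add_mem (P.mul_mem_left _ hmP) (P.mul_mem_left _ hpP)

private theorem orb_D6 (x : Zb) : {y : Zb | ∃ σ : GQ, σ • x = y}.Finite := by
  have hx : IsIntegral ℤ (x : Qb) := NumberField.RingOfIntegers.isIntegral_coe x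
  have hfin : ((minpoly ℤ (x : Qb)).rootSet Qb).Finite := Polynomial.rootSet_finite _ _
  refine Set.Finite.of_finite_image (f := fun y : Zb => (y : Qb)) (hfin.subset ?_) ?_
  · rintro _ ⟨y, ⟨σ, rfl⟩, rfl⟩
    have hc : (((σ • x : Zb)) : Qb) = σ (x : Qb) := rfl
    show (((σ • x : Zb)) : Qb) ∈ (minpoly ℤ (x : Qb)).rootSet Qb
    rw [hc, Polynomial.mem_rootSet']
    constructor
    · rw [Polynomial.map_ne_zero_iff (algebraMap ℤ Qb).injective_int]
      exact minpoly.ne_zero hx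
    · have h1 : aeval (σ (x : Qb)) (minpoly ℤ (x : Qb)) = σ (aeval (x : Qb) (minpoly ℤ (x : Qb))) := by
        rw [aeval_def, aeval_def]
        have h2 := hom_eval₂ (minpoly ℤ (x : Qb)) (algebraMap ℤ Qb) (σ : Qb →+* Qb) (x : Qb)
        have h3 : ((σ : Qb →+* Qb)).comp (algebraMap ℤ Qb) = algebraMap ℤ Qb := RingHom.ext_int _ _
        rw [h3] at h2
        exact h2.symm
      rw [h1, minpoly.aeval, map_zero]
  · intro a _ b _ hab
    exact NumberField.RingOfIntegers.ext hab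

private theorem fix_D6 (x : Zb) : ∃ B : ℕ, ∀ p : ℕ, p.Prime → B < p → ∀ P : Ideal Zb,
    P.IsMaximal → (p : Zb) ∈ P → ∀ σ ∈ Ine P, σ • x = x := by
  classical
  have h0 : ∀ z : Zb, ∃ B : ℕ, z ≠ 0 → ∀ p : ℕ, p.Prime → B < p → ∀ P : Ideal Zb,
      P.IsMaximal → (p : Zb) ∈ P → z ∉ P := by
    intro z
    by_cases hz : z = 0
    · exact ⟨0, fun h => absurd hz h⟩
    · obtain ⟨B, hB⟩ := nz_D6 z hz
      exact ⟨B, fun _ => hB⟩
  choose B hB using h0
  refine ⟨(orb_D6 x).toFinset.sup (fun y => B (y - x)), fun p hp hlt P hP hpP σ hσ => ?_⟩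
  by_contra hne
  have h1 : σ • x - x ∈ P := hσ x
  have h2 : σ • x ∈ (orb_D6 x).toFinset := by
    rw [Set.Finite.mem_toFinset]
    exact ⟨σ, rfl⟩
  have h3 : B (σ • x - x) ≤ (orb_D6 x).toFinset.sup (fun y => B (y - x)) :=
    Finset.le_sup (f := fun y => B (y - x)) h2
  exact hB (σ • x - x) (sub_ne_zero.2 hne) p hp (lt_of_le_of_lt h3 hlt) P hP hpP h1

theorem hD6 : StD6 := by
  classical
  intro N hN
  have h1 : (N : Set GQ) ∈ 𝓝 (1 : GQ) := hN.mem_nhds (one_mem N)
  rw [krullTopology_mem_nhds_one_iff] at h1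
  obtain ⟨M, hM, hMN⟩ := h1
  haveI : NumberField M := { to_charZero := inferInstance, to_finiteDimensional := hM }
  let y : Module.Free.ChooseBasisIndex ℤ (𝓞 M) → Zb := fun i =>
    ⟨(((NumberField.RingOfIntegers.basis M i : 𝓞 M) : M) : Qb),
      (NumberField.RingOfIntegers.isIntegral_coe (NumberField.RingOfIntegers.basis M i)).algebraMap⟩
  choose B hB using fun i => fix_D6 (y i)
  refine ⟨Finset.univ.sup B, fun p hp hlt P hP hpP σ hσ => hMN ?_⟩
  have hfix : ∀ i, σ (((NumberField.RingOfIntegers.basis M i : 𝓞 M) : M) : Qb) =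
      (((NumberField.RingOfIntegers.basis M i : 𝓞 M) : M) : Qb) := by
    intro i
    have h2 := hB i p hp (lt_of_le_of_lt (Finset.le_sup (Finset.mem_univ i)) hlt) P hP hpP σ hσ
    exact congrArg (fun z : Zb => (z : Qb)) h2
  have hlin : (σ.toLinearMap).comp M.val.toLinearMap = M.val.toLinearMap := by
    refine (NumberField.integralBasis M).ext fun i => ?_
    rw [NumberField.integralBasis_apply]
    exact hfix i
  show σ ∈ M.fixingSubgroup
  rw [IntermediateField.mem_fixingSubgroup_iff]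
  intro x hx
  exact congrArg (fun f : M →ₗ[ℚ] Qb => f ⟨x, hx⟩) hlin

end Pool.TW
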