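import Pool.Agent.Helper34.TW.StD
import Pool.Agent.Helper52.RG.M_PROF

/-!
# D7: Frobenius elements exist
-/

set_option autoImplicit false

open scoped Pointwise NumberField
open NumberField Polynomial Pool.RG2

namespace Pool.TW

private theorem exists_max_D7 (p : ℕ) (hp : p.Prime) : ∃ P : Ideal Zb, P.IsMaximal ∧ (p : Zb) ∈ P := by
  have hu : ¬ IsUnit (p : Zb) := by
    rintro ⟨u, hu⟩
    have h1 : (p : Zb) * ((u⁻¹ : Zbˣ) : Zb) = 1 := by rw [← hu, Units.mul_inv]
    have h2 : (p : Qb) * (((u⁻¹ : Zbˣ) : Zb) : Qb) = 1 := by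
      have := congrArg (algebraMap Zb Qb) h1
      simpa using this
    have hp0 : (p : ℚ) ≠ 0 := by exact_mod_cast hp.ne_zero
    have hp0' : (p : Qb) ≠ 0 := by exact_mod_cast hp.ne_zero
    have h3 : (((u⁻¹ : Zbˣ) : Zb) : Qb) = algebraMap ℚ Qb (1 / p) := by
      rw [map_div₀, map_one, map_natCast]
      field_simp
      rw [mul_comm]; exact h2
    have h4 : IsIntegral ℤ (algebraMap ℚ Qb (1 / p)) := by
      rw [← h3]; exact ((u⁻¹ : Zbˣ) : Zb).2
    have h5 : IsIntegral ℤ (1 / p : ℚ) := (isIntegral_algebraMap_iff (algebraMap ℚ Qb).injective).1 h4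
    obtain ⟨n, hn⟩ := (IsIntegrallyClosed.isIntegral_iff (R := ℤ) (K := ℚ)).1 h5
    have h6 : (n : ℚ) * p = 1 := by
      have : (n : ℚ) = 1 / p := hn
      rw [this]; field_simp
    have h7 : n * (p : ℤ) = 1 := by exact_mod_cast h6
    have h8 : (p : ℤ) ∣ 1 := ⟨n, by rw [mul_comm]; exact h7.symm⟩
    have h9 : (p : ℤ) ≤ 1 := Int.le_of_dvd one_pos h8
    have := hp.two_le
    omega
  have hne : Ideal.span {(p : Zb)} ≠ ⊤ := fun h => hu (Ideal.span_singleton_eq_top.1 h)
  obtain ⟨P, hP, hle⟩ := Ideal.exists_le_maximal _ hne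
  exact ⟨P, hP, hle (Ideal.subset_span rfl)⟩

open Pool.Agent.Helper52.RG in
theorem hD7 : StD7 := by
  intro p hp
  refine ⟨exists_max_D7 p hp, ?_⟩
  intro P hP hpP
  have hP' : P.IsPrime := hP.isPrime
  let K : IntermediateField ℚ Qb := ⊥
  let := topB
  have : DiscreteTopology (𝓞 Qb) := ⟨rfl⟩
  have := contSMul K
  have := compGF K
  have : Fact p.Prime := ⟨hp⟩
  let pp : Ideal (AA K) := P.under (AA K)
  have : P.LiesOver pp := ⟨rfl⟩
  have hp0 : (p : Zb ⧸ P) = 0 := by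
    have : Ideal.Quotient.mk P (p : Zb) = 0 := Ideal.Quotient.eq_zero_iff_mem.2 hpP
    simpa using this
  have hch : CharP (Zb ⧸ P) p := by
    constructor
    intro x
    constructor
    · intro hx
      by_contra hnd
      have hco : Nat.Coprime x p := (Nat.Prime.coprime_iff_not_dvd hp).2 hnd |>.symm
      have hz : IsCoprime (x : ℤ) (p : ℤ) := Nat.isCoprime_iff_coprime.2 hco
      obtain ⟨a, b, hab⟩ := hz
      have h1 : ((a * x + b * p : ℤ) : Zb ⧸ P) = 1 := by rw [hab]; simp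
      push_cast at h1
      rw [hx, hp0] at h1
      simp at h1
    · rintro ⟨k, rfl⟩
      push_cast
      rw [hp0, zero_mul]
  have : IsDomain (Zb ⧸ P) := Ideal.Quotient.isDomain P
  have hsur : Function.Surjective (frobenius (Zb ⧸ P) p) := by
    intro y
    obtain ⟨y, rfl⟩ := Ideal.Quotient.mk_surjective y
    obtain ⟨z, hz⟩ := IsAlgClosed.exists_pow_nat_eq (y : Qb) hp.pos
    have hzi : IsIntegral ℤ z := by
      have : IsIntegral ℤ (z ^ p) := by rw [hz]; exact y.2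
      exact IsIntegral.of_pow hp.pos this
    let w : Zb := ⟨z, hzi⟩
    have hw : w ^ p = y := by
      apply NumberField.RingOfIntegers.ext
      exact hz
    refine ⟨Ideal.Quotient.mk P w, ?_⟩
    rw [frobenius_def, ← hw, map_pow]
  have hinj : Function.Injective (frobenius (Zb ⧸ P) p) := frobenius_inj _ _
  let e : (Zb ⧸ P) ≃+* (Zb ⧸ P) := RingEquiv.ofBijective (frobenius (Zb ⧸ P) p) ⟨hinj, hsur⟩
  have hfix : ∀ r : AA K, e (Ideal.Quotient.mk P r.1) = Ideal.Quotient.mk P r.1 := by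
    intro r
    have hr : ((r.1 : Zb) : Qb) ∈ K := mem_of_fixed K r.1 r.2
    obtain ⟨t, ht⟩ := IntermediateField.mem_bot.1 hr
    have h4 : IsIntegral ℤ (algebraMap ℚ Qb t) := by rw [ht]; exact r.1.2
    have h5 : IsIntegral ℤ t := (isIntegral_algebraMap_iff (algebraMap ℚ Qb).injective).1 h4
    obtain ⟨n, hn⟩ := (IsIntegrallyClosed.isIntegral_iff (R := ℤ) (K := ℚ)).1 h5
    have h6 : (r.1 : Zb) = (n : Zb) := by
      apply NumberField.RingOfIntegers.ext
      rw [← ht, ← hn]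
      simp
    rw [h6]
    change frobenius (Zb ⧸ P) p (Ideal.Quotient.mk P (n : Zb)) = _
    rw [map_intCast, map_intCast]
  let σ : (Zb ⧸ P) ≃ₐ[AA K ⧸ pp] (Zb ⧸ P) := AlgEquiv.ofRingEquiv (f := e) (by
    intro r
    obtain ⟨r, rfl⟩ := Ideal.Quotient.mk_surjective r
    exact hfix r)
  obtain ⟨g, hg⟩ := Ideal.Quotient.stabilizerHom_surjective_of_profinite (G := Pool.RG.GF K) pp P σ
  refine ⟨g.1.1, ?_⟩
  intro x
  have hx := DFunLike.congr_fun hg (Ideal.Quotient.mk P x)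
  have h1 : Ideal.Quotient.mk P (g.1.1 • x) = Ideal.Quotient.mk P (x ^ p) := by
    rw [map_pow]
    exact hx
  exact Ideal.Quotient.eq.1 h1

end Pool.TW
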