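import Pool.Agent.Helper34.TW.StD

set_option autoImplicit false

open scoped Pointwise NumberField
open NumberField Polynomial IsDedekindDomain Pool.RG2 Filter Topology

namespace Pool.TW

private theorem mob_D8 (d : ℕ) (hd : 0 < d) :
    0 < ∑ n ∈ d.divisors, ((ArithmeticFunction.moebius n : ℝ)) / n := by
  have h1 : ∀ n : ℕ, n > 0 → ∑ i ∈ n.divisors, (fun i => (Nat.totient i : ℝ)) i = (fun n => (n : ℝ)) n := by
    intro n _
    have := Nat.sum_totient n
    simp only
    exact_mod_cast this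
  have h2 := ArithmeticFunction.sum_eq_iff_sum_mul_moebius_eq.1 h1 d hd
  rw [Nat.sum_divisorsAntidiagonal (fun a b => ((ArithmeticFunction.moebius a : ℤ) : ℝ) * (b : ℝ))] at h2
  have hd0 : (d : ℝ) ≠ 0 := by exact_mod_cast hd.ne'
  have h3 : ∑ n ∈ d.divisors, ((ArithmeticFunction.moebius n : ℝ)) / n =
      (∑ i ∈ d.divisors, ((ArithmeticFunction.moebius i : ℤ) : ℝ) * ((d / i : ℕ) : ℝ)) / d := by
    rw [Finset.sum_div]
    refine Finset.sum_congr rfl fun n hn => ?_
    have hdvd := Nat.dvd_of_mem_divisors hn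
    have hn0 : (n : ℝ) ≠ 0 := by
      have := Nat.pos_of_mem_divisors hn
      exact_mod_cast this.ne'
    rw [Nat.cast_div hdvd hn0]
    field_simp
  rw [h3, h2]
  have h4 : 0 < Nat.totient d := Nat.totient_pos.2 hd
  positivity

private theorem nf_D8 (H : Subgroup GQ) (hH : IsOpen (H : Set GQ)) :
    NumberField (IntermediateField.fixedField H : Sub) where
  to_charZero := inferInstance
  to_finiteDimensional := by
    have := Pool.RG.instGal
    rw [← InfiniteGalois.isOpen_iff_finite]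
    have hc : IsClosed (H : Set GQ) := Subgroup.isClosed_of_isOpen H hH
    have h1 : (IntermediateField.fixedField H : Sub).fixingSubgroup = H :=
      InfiniteGalois.fixingSubgroup_fixedField ⟨H, hc⟩
    rw [h1]
    exact hH

theorem hD8 : StD8 := by
  intro h1 h2 h3 h4 h5 h6 _ N hN hNn g B
  by_contra hcon
  have hfin : Finite (GQ ⧸ N) := Subgroup.quotient_finite_of_isOpen N hN
  have hFI : N.FiniteIndex := Subgroup.finiteIndex_of_finite_quotient
  set d := orderOf (g : GQ ⧸ N) with hd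
  have hdpos : 0 < d := orderOf_pos _
  obtain ⟨B0, hB0⟩ := h6 N hN
  set H : ℕ → Subgroup GQ := fun n => N ⊔ Subgroup.zpowers (g ^ n) with hH
  have hNH : ∀ n, N ≤ H n := fun n => le_sup_left
  have hHo : ∀ n, IsOpen (H n : Set GQ) := fun n => Subgroup.isOpen_mono (hNH n) hN
  set F : ℕ → Sub := fun n => IntermediateField.fixedField (H n) with hF
  have hNF : ∀ n, NumberField (F n) := fun n => nf_D8 (H n) (hHo n)
  set c : ℕ → ℝ := fun n => (ArithmeticFunction.moebius n : ℝ) / n with hc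
  -- the sums vanish for large primes
  have hzero : ∀ p : ℕ, p.Prime → max B B0 < p → ∑ n ∈ d.divisors, c n * (nd (F n) p : ℝ) = 0 := by
    intro p hp hBp
    by_contra hne
    apply hcon
    refine ⟨p, hp, lt_of_le_of_lt (le_max_left _ _) hBp, ?_⟩
    intro P hP hpP
    have hI : Ine P ≤ N := hB0 p hp (lt_of_le_of_lt (le_max_right _ _) hBp) P hP hpP
    refine ⟨hI, ?_⟩
    intro φ hφ
    refine h5 GQ N g φ ?_
    intro hz
    apply hne
    have h7 : ∀ n, nd (F n) p = Nat.card {x : GQ ⧸ (N ⊔ Subgroup.zpowers (g ^ n)) // φ • x = x} :=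
      fun n => h4 N (H n) hN hNn (hNH n) (F n) rfl p hp P φ hP hpP hφ hI
    have h8 : (((∑ n ∈ d.divisors, (ArithmeticFunction.moebius n : ℚ) / n *
      Nat.card {x : GQ ⧸ (N ⊔ Subgroup.zpowers (g ^ n)) // φ • x = x}) : ℚ) : ℝ) = 0 := by
      rw [hz]
      simp
    push_cast at h8
    rw [← h8]
    refine Finset.sum_congr rfl fun n _ => ?_
    rw [h7 n]
  -- logarithmic sums
  have h9 : ∀ n, ∃ C : ℝ, (∀ p : ℕ, p.Prime → nd (F n) p ≤ Module.finrank ℚ (F n)) ∧
    ∀ s : ℝ, 1 < s → s ≤ 2 →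
    Summable (fun p : Nat.Primes => (nd (F n) p : ℝ) * (p : ℝ) ^ (-s)) ∧
    |(∑' p : Nat.Primes, (nd (F n) p : ℝ) * (p : ℝ) ^ (-s)) - Real.log (1 / (s - 1))| ≤ C :=
    fun n => h3 h1 h2 (F n)
  choose C hC using h9
  -- the finite set of small primes
  have hSfin : {p : Nat.Primes | (p : ℕ) ≤ max B B0}.Finite := by
    have : {p : Nat.Primes | (p : ℕ) ≤ max B B0} = (fun p : Nat.Primes => (p : ℕ)) ⁻¹' Set.Iic (max B B0) := rfl
    rw [this]
    exact (Set.finite_Iic _).preimage (Subtype.val_injective.injOn)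
  set S : Finset Nat.Primes := hSfin.toFinset with hS
  set M : ℝ := ∑ p ∈ S, |∑ n ∈ d.divisors, c n * (nd (F n) p : ℝ)| with hM
  set D : ℝ := M + ∑ n ∈ d.divisors, |c n| * C n with hD
  set κ : ℝ := ∑ n ∈ d.divisors, c n with hκ
  have hκpos : 0 < κ := mob_D8 d hdpos
  have hbound : ∀ s : ℝ, 1 < s → s ≤ 2 → κ * Real.log (1 / (s - 1)) ≤ D := by
    intro s hs1 hs2
    set T : ℕ → ℝ := fun n => ∑' p : Nat.Primes, (nd (F n) p : ℝ) * (p : ℝ) ^ (-s) with hT
    have hsum : ∀ n, Summable (fun p : Nat.Primes => c n * ((nd (F n) p : ℝ) * (p : ℝ) ^ (-s))) :=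
      fun n => ((hC n).2 s hs1 hs2).1.mul_left (c n)
    have e1 : ∑ n ∈ d.divisors, c n * T n =
        ∑' p : Nat.Primes, ∑ n ∈ d.divisors, c n * ((nd (F n) p : ℝ) * (p : ℝ) ^ (-s)) := by
      rw [Summable.tsum_finsetSum (fun n _ => hsum n)]
      refine Finset.sum_congr rfl fun n _ => ?_
      rw [hT, tsum_mul_left]
    have e2 : ∑' p : Nat.Primes, ∑ n ∈ d.divisors, c n * ((nd (F n) p : ℝ) * (p : ℝ) ^ (-s)) =
        ∑ p ∈ S, ∑ n ∈ d.divisors, c n * ((nd (F n) p : ℝ) * (p : ℝ) ^ (-s)) := by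
      refine tsum_eq_sum ?_
      intro p hp
      rw [hS, Set.Finite.mem_toFinset, Set.mem_ofPred_eq, not_le] at hp
      have h10 := hzero p p.2 hp
      have e3 : ∑ n ∈ d.divisors, c n * ((nd (F n) p : ℝ) * (p : ℝ) ^ (-s)) =
          (∑ n ∈ d.divisors, c n * (nd (F n) p : ℝ)) * (p : ℝ) ^ (-s) := by
        rw [Finset.sum_mul]
        refine Finset.sum_congr rfl fun n _ => ?_
        ring
      rw [e3, h10, zero_mul]
    have b1 : |∑ n ∈ d.divisors, c n * T n| ≤ M := by
      rw [e1, e2, hM]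
      refine (Finset.abs_sum_le_sum_abs _ _).trans (Finset.sum_le_sum fun p _ => ?_)
      have e3 : ∑ n ∈ d.divisors, c n * ((nd (F n) p : ℝ) * (p : ℝ) ^ (-s)) =
          (∑ n ∈ d.divisors, c n * (nd (F n) p : ℝ)) * (p : ℝ) ^ (-s) := by
        rw [Finset.sum_mul]
        refine Finset.sum_congr rfl fun n _ => ?_
        ring
      rw [e3, abs_mul]
      have hp1 : (1:ℝ) ≤ (p : ℝ) := by exact_mod_cast p.2.one_le
      have hp2 : |(p : ℝ) ^ (-s)| ≤ 1 := by
        rw [abs_of_nonneg (Real.rpow_nonneg (by linarith) _)]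
        exact Real.rpow_le_one_of_one_le_of_nonpos hp1 (by linarith)
      exact mul_le_of_le_one_right (abs_nonneg _) hp2
    have b2 : κ * Real.log (1 / (s - 1)) - ∑ n ∈ d.divisors, c n * T n ≤
        ∑ n ∈ d.divisors, |c n| * C n := by
      rw [hκ, Finset.sum_mul, ← Finset.sum_sub_distrib]
      refine Finset.sum_le_sum fun n _ => ?_
      have h11 := ((hC n).2 s hs1 hs2).2
      have e4 : c n * Real.log (1 / (s - 1)) - c n * T n = -(c n * (T n - Real.log (1 / (s - 1)))) := by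
        ring
      rw [e4]
      refine (neg_le_abs _).trans ?_
      rw [abs_mul]
      exact mul_le_mul_of_nonneg_left h11 (abs_nonneg _)
    have b3 := (abs_le.1 b1).2
    rw [hD]
    linarith
  have hD0 : 0 ≤ D := by
    have := hbound 2 (by norm_num) le_rfl
    norm_num at this
    exact this
  set t : ℝ := (D + 1) / κ with ht
  have ht0 : 0 ≤ t := by positivity
  have h12 := hbound (1 + Real.exp (-t)) (by linarith [Real.exp_pos (-t)])
    (by linarith [Real.exp_le_one_iff.2 (neg_nonpos.2 ht0)])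
  have e5 : Real.log (1 / (1 + Real.exp (-t) - 1)) = t := by
    rw [add_sub_cancel_left, one_div, ← Real.exp_neg, neg_neg, Real.log_exp]
  rw [e5, ht, mul_div_cancel₀ _ hκpos.ne'] at h12
  linarith

end Pool.TW
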