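import Pool.Agent.Helper34.TW.StD
import Pool.Agent.Helper52.RG.M_PROF
import Pool.Agent.Helper2.RG.M_LIFT

/-!
# Project TW, module D9: local data exist
-/

set_option autoImplicit false

open scoped Pointwise NumberField
open NumberField Polynomial IsDedekindDomain Pool.RG2 Filter Topology

namespace Pool.TW

private theorem coe_smul_D9 (g : GQ) (x : Zb) : ((g • x : Zb) : Qb) = g (x : Qb) := rfl

/-- an element fixed by everything is rational -/
private theorem rat_D9 (z : Qb) (h : ∀ g : GQ, g z = z) : ∃ r : ℚ, z = algebraMap ℚ Qb r := by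
  have := Pool.RG.instGal
  have h1 : IntermediateField.fixedField (IntermediateField.fixingSubgroup (⊥ : Sub)) = (⊥ : Sub) :=
    InfiniteGalois.fixedField_fixingSubgroup ⊥
  have h2 : z ∈ (⊥ : Sub) := by
    rw [← h1, IntermediateField.mem_fixedField_iff]
    intro f _
    exact h f
  obtain ⟨r, hr⟩ := IntermediateField.mem_bot.1 h2
  exact ⟨r, hr.symm⟩

/-- a rational number whose square is an integer is an integer -/
private theorem sq_int_D9 (r : ℚ) (m : ℤ) (h : r ^ 2 = m) : ∃ n : ℤ, r = n := by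
  have h1 : IsIntegral ℤ r := by
    refine IsIntegral.of_pow (n := 2) (by norm_num) ?_
    rw [h]
    exact isIntegral_algebraMap (R := ℤ) (A := ℚ) (x := m)
  obtain ⟨n, hn⟩ := IsIntegrallyClosed.isIntegral_iff.1 h1
  exact ⟨n, hn.symm⟩

private theorem notsq_D9 (q : ℕ) (hq : q.Prime) (n : ℤ) : n ^ 2 ≠ (q : ℤ) := by
  intro h
  have h1 : (q : ℤ) ∣ n ^ 2 := ⟨1, by rw [h, mul_one]⟩
  have h2 : (q : ℤ) ∣ n := (Nat.prime_iff_prime_int.1 hq).dvd_of_dvd_pow h1
  obtain ⟨t, ht⟩ := h2
  have hq0 : (q : ℤ) ≠ 0 := by exact_mod_cast hq.ne_zero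
  rw [ht] at h
  have h3 : (q : ℤ) * t ^ 2 = 1 := by
    have : (q : ℤ) * ((q : ℤ) * t ^ 2) = (q : ℤ) * 1 := by linear_combination h
    exact mul_left_cancel₀ hq0 this
  have h4 : (q : ℤ) ∣ 1 := ⟨t ^ 2, h3.symm⟩
  have h5 := Int.natAbs_dvd_natAbs.2 h4
  simp only [Int.natAbs_natCast, Int.natAbs_one] at h5
  exact hq.one_lt.ne' (Nat.dvd_one.1 h5)

theorem hD9 : StD9 := by
  intro h7 q hq hq2
  obtain ⟨⟨P, hP, hqP⟩, hF⟩ := h7 q hq
  obtain ⟨φ₀, hφ₀⟩ := hF P hP hqP
  obtain ⟨w, hw⟩ : ∃ w : Qb, w ^ 2 = (q : Qb) := IsAlgClosed.exists_pow_nat_eq (q : Qb) (by norm_num)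
  have hq0 : (q : Qb) ≠ 0 := by exact_mod_cast hq.ne_zero
  have hw0 : w ≠ 0 := by
    rintro rfl
    apply hq0
    rw [← hw]
    ring
  have hpm : ∀ g : GQ, g w = w ∨ g w = -w := by
    intro g
    have h1 : (g w) ^ 2 = w ^ 2 := by
      rw [← map_pow, hw, map_natCast]
    exact sq_eq_sq_iff_eq_or_eq_neg.1 h1
  -- an automorphism moving `w`
  obtain ⟨τ, hτ⟩ : ∃ τ : GQ, τ w = -w := by
    by_contra hcon
    push Not at hcon
    obtain ⟨r, hr⟩ := rat_D9 w (fun g => (hpm g).resolve_right (hcon g))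
    have h2 : r ^ 2 = ((q : ℤ) : ℚ) := by
      have h3 : algebraMap ℚ Qb (r ^ 2) = algebraMap ℚ Qb ((q : ℤ) : ℚ) := by
        rw [map_pow, ← hr, hw]
        simp
      exact (algebraMap ℚ Qb).injective h3
    obtain ⟨n, hn⟩ := sq_int_D9 r q h2
    rw [hn] at h2
    exact notsq_D9 q hq n (by exact_mod_cast h2)
  -- the integral element `w`
  have hwint : IsIntegral ℤ w := by
    refine IsIntegral.of_pow (n := 2) (by norm_num) ?_
    rw [hw]
    have : (q : Qb) = algebraMap ℤ Qb (q : ℤ) := by simp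
    rw [this]
    exact isIntegral_algebraMap
  let W : Zb := ⟨w, hwint⟩
  have hWP : W ∈ P := by
    have h4 : W ^ 2 = (q : Zb) := by
      apply NumberField.RingOfIntegers.ext
      show (w : Qb) ^ 2 = ((q : Zb) : Qb)
      rw [hw]
      simp
    have h5 : W ^ 2 ∈ P := by rw [h4]; exact hqP
    exact hP.isPrime.mem_of_pow_mem 2 h5
  -- the quadratic field
  let L : Sub := IntermediateField.adjoin ℚ {w}
  have hwL : w ∈ L := IntermediateField.mem_adjoin_simple_self ℚ w
  have hfix : ∀ g : GQ, g w = w → g ∈ Pool.RG.GF L := by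
    intro g hg
    show g ∈ IntermediateField.fixingSubgroup L
    have h6 : L ≤ IntermediateField.fixedField (Subgroup.zpowers g) := by
      rw [IntermediateField.adjoin_simple_le_iff, IntermediateField.mem_fixedField_iff]
      intro f hf
      obtain ⟨k, rfl⟩ := Subgroup.mem_zpowers_iff.1 hf
      have h8 : ∀ k : ℤ, (g ^ k) w = w := by
        intro k
        induction k using Int.induction_on with
        | zero => simp
        | succ i ih =>
          rw [zpow_add_one]
          show (g ^ (i : ℤ)) (g w) = w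
          rw [hg, ih]
        | pred i ih =>
          rw [zpow_sub_one]
          show (g ^ (-(i : ℤ))) (g⁻¹ w) = w
          have h9 : g⁻¹ w = w := by
            have : g⁻¹ (g w) = w := by
              show (g⁻¹ * g) w = w
              rw [inv_mul_cancel]
              rfl
            rwa [hg] at this
          rw [h9, ih]
      exact h8 k
    rw [IntermediateField.mem_fixingSubgroup_iff]
    intro x hx
    have h9 := (IntermediateField.mem_fixedField_iff _ x).1 (h6 hx) g (Subgroup.mem_zpowers g)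
    exact h9
  have hGw : ∀ g ∈ Pool.RG.GF L, g w = w := by
    intro g hg
    exact (IntermediateField.mem_fixingSubgroup_iff L g).1 hg w hwL
  have hGx : ∀ g : GQ, g w = w → ∀ x ∈ L, g x = x := by
    intro g hg x hx
    exact (IntermediateField.mem_fixingSubgroup_iff L g).1 (hfix g hg) x hx
  have hnorm : ∀ g ∈ Pool.RG.GF (⊥ : Sub), ∀ n ∈ Pool.RG.GF L, g * n * g⁻¹ ∈ Pool.RG.GF L := by
    intro g _ n hn
    apply hfix
    show g (n (g⁻¹ w)) = w
    have hn' := hGw n hn
    have hgg : g (g⁻¹ w) = w := by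
      show (g * g⁻¹) w = w
      rw [mul_inv_cancel]
      rfl
    rcases hpm g⁻¹ with h | h
    · rw [h] at hgg ⊢
      rw [hn', hgg]
    · rw [h] at hgg ⊢
      rw [map_neg n, hn', hgg]
  have hinv : ∀ g : GQ, g w = -w → ∀ x ∈ L, g (g x) = x := by
    intro g hg x hx
    have : (g * g) w = w := by
      show g (g w) = w
      rw [hg, map_neg, hg, neg_neg]
    exact hGx (g * g) this x hx
  have hstab : ∀ x ∈ L, τ x ∈ L := by
    intro x hx
    exact Pool.RG.stable ⊥ L hnorm τ (by
      show τ ∈ IntermediateField.fixingSubgroup (⊥ : Sub)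
      rw [IntermediateField.fixingSubgroup_bot]
      exact Subgroup.mem_top _) x hx
  -- `τ` acts trivially modulo `P` on the integers of `L`
  have hτP : ∀ x : Zb, (x : Qb) ∈ L → τ • x - x ∈ P := by
    intro x hx
    have hτx : τ (x : Qb) ∈ L := hstab _ hx
    obtain ⟨r, hr⟩ := rat_D9 ((τ (x : Qb) - (x : Qb)) / w) (by
      intro g
      rw [map_div₀, map_sub]
      rcases hpm g with h | h
      · rw [h, hGx g h _ hx, hGx g h _ hτx]
      · have e1 : g (x : Qb) = τ (x : Qb) := by
          have e2 : (τ⁻¹ * g) w = w := by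
            show τ⁻¹ (g w) = w
            rw [h, ← hτ]
            show (τ⁻¹ * τ) w = w
            rw [inv_mul_cancel]
            rfl
          have e3 := hGx _ e2 _ hx
          have e4 : τ ((τ⁻¹ * g) (x : Qb)) = g (x : Qb) := by
            show (τ * (τ⁻¹ * g)) (x : Qb) = g (x : Qb)
            rw [mul_inv_cancel_left]
          rw [← e4, e3]
        have e5 : g (τ (x : Qb)) = (x : Qb) := by
          rw [← e1]
          exact hinv g h _ hx
        rw [h, e5, e1]
        field_simp
        ring)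
    -- `r q` is an integer
    have hxint : IsIntegral ℤ ((τ • x - x : Zb) : Qb) := (τ • x - x : Zb).2
    have hd : ((τ • x - x : Zb) : Qb) = algebraMap ℚ Qb r * w := by
      have e6 : ((τ • x - x : Zb) : Qb) = τ (x : Qb) - (x : Qb) := by
        rw [← coe_smul_D9]
        exact map_sub (algebraMap Zb Qb) (τ • x) x
      rw [e6, ← hr]
      field_simp
    have h10 : IsIntegral ℤ (algebraMap ℚ Qb (r ^ 2 * q)) := by
      have : algebraMap ℚ Qb (r ^ 2 * q) = ((τ • x - x : Zb) : Qb) ^ 2 := by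
        rw [hd, mul_pow, hw, map_mul, map_pow, map_natCast]
      rw [this]
      exact hxint.pow 2
    have h11 : IsIntegral ℤ (r ^ 2 * q : ℚ) := by
      exact (isIntegral_algebraMap_iff (algebraMap ℚ Qb).injective).1 h10
    obtain ⟨m, hm⟩ := IsIntegrallyClosed.isIntegral_iff.1 h11
    have hm' : (m : ℚ) = r ^ 2 * q := by
      have : (algebraMap ℤ ℚ) m = (m : ℚ) := rfl
      rw [← this, hm]
    obtain ⟨n, hn⟩ := sq_int_D9 (r * q) (m * q) (by
      push_cast
      rw [hm']
      ring)
    have hdvd : (q : ℤ) ∣ n := by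
      have h12 : n ^ 2 = m * q := by
        have h13 : ((n ^ 2 : ℤ) : ℚ) = ((m * q : ℤ) : ℚ) := by
          push_cast
          rw [← hn, hm']
          ring
        exact_mod_cast h13
      exact (Nat.prime_iff_prime_int.1 hq).dvd_of_dvd_pow ⟨m, by rw [h12, mul_comm]⟩
    obtain ⟨t, ht⟩ := hdvd
    have hrt : r = t := by
      have hqq : (q : ℚ) ≠ 0 := by exact_mod_cast hq.ne_zero
      have h14 : r * q = (t : ℚ) * q := by
        rw [hn, ht]
        push_cast
        ring
      exact mul_right_cancel₀ hqq h14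
    have h15 : (τ • x - x : Zb) = (t : Zb) * W := by
      apply NumberField.RingOfIntegers.ext
      rw [hd, hrt]
      have e8 : (((t : Zb) * W : Zb) : Qb) = (((t : Zb)) : Qb) * w :=
        map_mul (algebraMap Zb Qb) (t : Zb) W
      rw [e8]
      simp
    rw [h15]
    exact P.mul_mem_left _ hWP
  obtain ⟨σ, hσ, hσ2⟩ := Pool.Agent.Helper2.RG.tLift Pool.Agent.Helper52.RG.tProf ⊥ L bot_le hnorm P hP τ (by
      show τ ∈ IntermediateField.fixingSubgroup (⊥ : Sub)
      rw [IntermediateField.fixingSubgroup_bot]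
      exact Subgroup.mem_top _) hτP
  have hσI : σ ∈ Ine P := hσ.2
  have hσw : σ w = -w := by
    have h16 := hGw _ hσ2
    have h17 : σ ((σ⁻¹ * τ) w) = τ w := by
      show (σ * (σ⁻¹ * τ)) w = τ w
      rw [mul_inv_cancel_left]
    rw [h16, hτ] at h17
    exact h17
  rcases hpm φ₀ with h | h
  · exact ⟨⟨P, φ₀, σ, w, hP, hqP, hφ₀, hσI, hw, h, hσw⟩⟩
  · refine ⟨⟨P, φ₀ * σ, σ, w, hP, hqP, ?_, hσI, hw, ?_, hσw⟩⟩
    · intro x
      have e7 : (φ₀ * σ) • x - x ^ q = (φ₀ • (σ • x) - (σ • x) ^ q) + ((σ • x) ^ q - x ^ q) := by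
        rw [mul_smul]
        ring
      rw [e7]
      refine P.add_mem (hφ₀ _) ?_
      obtain ⟨y, hy⟩ := sub_dvd_pow_sub_pow (σ • x) x q
      rw [hy]
      have h18 : σ • x - x ∈ P := hσI x
      exact P.mul_mem_right _ h18
    · show φ₀ (σ w) = w
      rw [hσw, map_neg, h, neg_neg]

end Pool.TW
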