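import Pool.Agent.Helper34.TW.StE

/-!
# Project TW, module E1: `V`-units modulo squares
-/

set_option autoImplicit false
set_option maxSynthPendingDepth 3

open scoped NumberField
open NumberField IsDedekindDomain

namespace Pool.TW

/-- the index of the squares along a homomorphism whose kernel contains the square roots of its elements -/
private theorem sq_rel_E1 {G G' : Type*} [CommGroup G] [CommGroup G'] (f : G →* G') (H : Subgroup G)
    (hf : ∀ x ∈ H, f x ^ 2 = 1 → f x = 1) :
    (H.map (powMonoidHom 2)).relIndex H =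
      ((H ⊓ f.ker).map (powMonoidHom 2)).relIndex (H ⊓ f.ker) *
        ((H.map f).map (powMonoidHom 2)).relIndex (H.map f) := by
  have hle : H.map (powMonoidHom 2) ≤ H := by
    rintro _ ⟨x, hx, rfl⟩
    exact pow_mem hx 2
  have h1 : (H.map f).map (powMonoidHom 2) = (H.map (powMonoidHom 2)).map f := by
    rw [Subgroup.map_map, Subgroup.map_map]
    congr 1
    ext x
    simp
  rw [h1, Subgroup.relIndex_map_map]
  have h2 : (H.map (powMonoidHom 2) ⊔ f.ker).relIndex (H ⊔ f.ker) =
      (H.map (powMonoidHom 2) ⊔ f.ker).relIndex H := by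
    rw [← Subgroup.relIndex_sup_right H (H.map (powMonoidHom 2) ⊔ f.ker), ← sup_assoc,
      sup_of_le_left hle]
  rw [h2]
  have h3 : (H.map (powMonoidHom 2) ⊔ (H ⊓ f.ker)).relIndex H =
      (H.map (powMonoidHom 2) ⊔ f.ker).relIndex H := by
    rw [← Subgroup.inf_relIndex_right (H.map (powMonoidHom 2) ⊔ f.ker) H]
    congr 1
    apply le_antisymm
    · exact le_inf (sup_le_sup_left inf_le_right _) (sup_le hle inf_le_left)
    · rintro x ⟨hx, hxH⟩
      obtain ⟨s, hs, k, hk, rfl⟩ := Subgroup.mem_sup.1 hx
      refine Subgroup.mul_mem_sup hs ⟨?_, hk⟩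
      have h4 := H.mul_mem (H.inv_mem (hle hs)) hxH
      rwa [inv_mul_cancel_left] at h4
  rw [← h3]
  have h4 : ((H ⊓ f.ker).map (powMonoidHom 2)).relIndex (H ⊓ f.ker) =
      (H.map (powMonoidHom 2)).relIndex (H.map (powMonoidHom 2) ⊔ (H ⊓ f.ker)) := by
    rw [Subgroup.relIndex_sup_left, ← Subgroup.inf_relIndex_right (H.map (powMonoidHom 2))]
    congr 1
    apply le_antisymm
    · refine le_inf (Subgroup.map_mono inf_le_left) ?_
      rintro _ ⟨x, hx, rfl⟩
      exact pow_mem hx 2
    · rintro _ ⟨⟨x, hx, rfl⟩, -, hk⟩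
      refine ⟨x, ⟨hx, hf x hx ?_⟩, rfl⟩
      have hk' : f (x ^ 2) = 1 := hk
      rwa [map_pow] at hk'
  rw [h4, Subgroup.relIndex_mul_relIndex _ _ _ le_sup_left (sup_le hle inf_le_left)]

/-- the index of the `n`-th powers -/
private theorem index_pow_E1 (ι : Type*) [Fintype ι] (n : ℕ) [NeZero n] :
    (powMonoidHom n : (ι → Multiplicative ℤ) →* (ι → Multiplicative ℤ)).range.index =
      n ^ Fintype.card ι := by
  let c : (ι → Multiplicative ℤ) →* (ι → Multiplicative (ZMod n)) :=
    { toFun := fun x i => Multiplicative.ofAdd ((Multiplicative.toAdd (x i) : ℤ) : ZMod n)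
      map_one' := by
        funext i
        simp
      map_mul' := by
        intro x y
        funext i
        simp }
  have hker : c.ker = (powMonoidHom n : (ι → Multiplicative ℤ) →* _).range := by
    ext x
    rw [MonoidHom.mem_ker]
    constructor
    · intro hx
      have h1 : ∀ i, ∃ k : ℤ, Multiplicative.toAdd (x i) = n * k := by
        intro i
        have h2 : Multiplicative.ofAdd ((Multiplicative.toAdd (x i) : ℤ) : ZMod n) = 1 :=
          congrFun hx i
        have h3 : ((Multiplicative.toAdd (x i) : ℤ) : ZMod n) = 0 := h2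
        exact (ZMod.intCast_zmod_eq_zero_iff_dvd _ n).1 h3
      choose k hk using h1
      refine ⟨fun i => Multiplicative.ofAdd (k i), ?_⟩
      funext i
      apply Multiplicative.toAdd.injective
      rw [hk i]
      simp
    · rintro ⟨y, rfl⟩
      funext i
      change Multiplicative.ofAdd (((Multiplicative.toAdd ((y i) ^ n) : ℤ)) : ZMod n) = 1
      rw [toAdd_pow]
      simp
  have hsurj : c.range = ⊤ := by
    rw [MonoidHom.range_eq_top]
    intro y
    refine ⟨fun i => Multiplicative.ofAdd ((Multiplicative.toAdd (y i)).cast : ℤ), ?_⟩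
    funext i
    change Multiplicative.ofAdd ((((Multiplicative.toAdd (y i)).cast : ℤ)) : ZMod n) = y i
    rw [ZMod.intCast_zmod_cast]
    rfl
  rw [← hker, Subgroup.index_ker, hsurj]
  rw [Nat.card_congr Subgroup.topEquiv.toEquiv, Nat.card_pi, Finset.prod_const, Finset.card_univ]
  congr 1
  exact Nat.card_zmod n

/-- the index of the squares in a subgroup of finite index of a free group -/
private theorem index_sq_E1 (ι : Type*) [Fintype ι] (B : Subgroup (ι → Multiplicative ℤ))
    (hB : B.index ≠ 0) : (B.map (powMonoidHom 2)).relIndex B = 2 ^ Fintype.card ι := by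
  have hle : B.map (powMonoidHom 2) ≤ B := by
    rintro _ ⟨x, hx, rfl⟩
    exact pow_mem hx 2
  have hinj : Function.Injective
      (powMonoidHom 2 : (ι → Multiplicative ℤ) →* (ι → Multiplicative ℤ)) := by
    intro x y hxy
    funext i
    have h1 : x i ^ 2 = y i ^ 2 := congrFun hxy i
    apply Multiplicative.toAdd.injective
    have h2 := congrArg Multiplicative.toAdd h1
    rw [toAdd_pow, toAdd_pow] at h2
    simpa using h2
  have h1 := Subgroup.relIndex_mul_index hle
  have h2 := Subgroup.relIndex_mul_index (Subgroup.map_mono (f := powMonoidHom 2) (le_top : B ≤ ⊤))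
  rw [Subgroup.relIndex_map_map_of_injective _ _ hinj, Subgroup.relIndex_top_right,
    ← MonoidHom.range_eq_map, index_pow_E1 ι 2] at h2
  rw [← h2, mul_comm] at h1
  exact Nat.eq_of_mul_eq_mul_left (Nat.pos_of_ne_zero hB) h1

/-- the squares in the torsion group have index two -/
private theorem torsion_E1 (K : Type) [Field K] [NumberField K] :
    ((Units.torsion K).map (powMonoidHom 2)).relIndex (Units.torsion K) = 2 := by
  have hle : (Units.torsion K).map (powMonoidHom 2) ≤ Units.torsion K := by
    rintro _ ⟨x, hx, rfl⟩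
    exact pow_mem hx 2
  have hneg : (-1 : (𝓞 K)ˣ) ∈ Units.torsion K := by
    rw [Units.torsion, CommGroup.mem_torsion]
    exact isOfFinOrder_iff_pow_eq_one.2 ⟨2, by norm_num, by simp⟩
  have hne : (1 : (𝓞 K)ˣ) ≠ -1 := by
    intro h
    have h1 : (1 : 𝓞 K) = -1 := by
      have := congrArg (fun u : (𝓞 K)ˣ => (u : 𝓞 K)) h
      simpa using this
    have h2 : (2 : 𝓞 K) = 0 := by linear_combination h1
    exact two_ne_zero h2
  have hker : ((powMonoidHom 2 : (𝓞 K)ˣ →* (𝓞 K)ˣ).ker ⊓ Units.torsion K : Set (𝓞 K)ˣ) = {1, -1} := by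
    ext x
    constructor
    · rintro ⟨hx, -⟩
      have h1 : x ^ 2 = 1 := hx
      have h2 : (x : 𝓞 K) * x = 1 := by
        have := congrArg (fun u : (𝓞 K)ˣ => (u : 𝓞 K)) h1
        simpa [pow_two] using this
      rcases mul_self_eq_one_iff.1 h2 with h | h
      · left
        exact Units.ext h
      · right
        apply Units.ext
        simpa using h
    · rintro (rfl | rfl)
      · exact ⟨one_mem _, one_mem _⟩
      · exact ⟨by change (-1 : (𝓞 K)ˣ) ^ 2 = 1; simp, hneg⟩
  have hcard : Nat.card ((powMonoidHom 2 : (𝓞 K)ˣ →* (𝓞 K)ˣ).ker ⊓ Units.torsion K :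
      Subgroup (𝓞 K)ˣ) = 2 := by
    have h1 : Nat.card ((powMonoidHom 2 : (𝓞 K)ˣ →* (𝓞 K)ˣ).ker ⊓ Units.torsion K :
      Subgroup (𝓞 K)ˣ) = ({1, -1} : Set (𝓞 K)ˣ).ncard := by
      rw [← hker, ← Nat.card_coe_set_eq]
      rfl
    rw [h1, Set.ncard_pair hne]
  have h1 := Subgroup.relIndex_ker (Units.torsion K) (powMonoidHom 2 : (𝓞 K)ˣ →* (𝓞 K)ˣ)
  have h2 := Subgroup.relIndex_mul_relIndex ⊥
    ((powMonoidHom 2 : (𝓞 K)ˣ →* (𝓞 K)ˣ).ker ⊓ Units.torsion K) (Units.torsion K) bot_le inf_le_right
  have h3 := Subgroup.relIndex_mul_relIndex ⊥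
    ((Units.torsion K).map (powMonoidHom 2)) (Units.torsion K) bot_le hle
  rw [Subgroup.relIndex_bot_left, Subgroup.relIndex_bot_left, hcard,
    Subgroup.inf_relIndex_right, h1] at h2
  rw [Subgroup.relIndex_bot_left, Subgroup.relIndex_bot_left] at h3
  have hpos : 0 < Nat.card ((Units.torsion K).map (powMonoidHom 2)) := by
    have hfin : Finite (Units.torsion K) := inferInstance
    have : Finite ((Units.torsion K).map (powMonoidHom 2)) :=
      Finite.of_injective _ (Subgroup.inclusion_injective hle)
    exact Nat.card_pos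
  rw [← h3, mul_comm] at h2
  exact (Nat.eq_of_mul_eq_mul_left hpos h2).symm

/-- in a free group the square roots of `1` are trivial -/
private theorem sq_one_E1 {ι : Type*} (x : ι → Multiplicative ℤ) (h : x ^ 2 = 1) : x = 1 := by
  funext i
  have h1 : x i ^ 2 = 1 := congrFun h i
  apply Multiplicative.toAdd.injective
  have h2 := congrArg Multiplicative.toAdd h1
  rw [toAdd_pow] at h2
  simpa using h2

/-- the units modulo squares -/
private theorem units_E1 (K : Type) [Field K] [NumberField K] :
    ((⊤ : Subgroup (𝓞 K)ˣ).map (powMonoidHom 2)).relIndex ⊤ =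
      2 ^ (InfinitePlace.nrRealPlaces K + InfinitePlace.nrComplexPlaces K) := by
  let f : (𝓞 K)ˣ →* (Fin (Units.rank K) → Multiplicative ℤ) :=
    { toFun := fun x i => Multiplicative.ofAdd
        ((Units.basisModTorsion K).repr (Additive.ofMul (x : (𝓞 K)ˣ ⧸ Units.torsion K)) i)
      map_one' := by
        funext i
        simp
      map_mul' := by
        intro x y
        funext i
        simp }
  have hker : f.ker = Units.torsion K := by
    ext x
    rw [MonoidHom.mem_ker, ← QuotientGroup.eq_one_iff]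
    constructor
    · intro hx
      have h1 : (Units.basisModTorsion K).repr
          (Additive.ofMul (x : (𝓞 K)ˣ ⧸ Units.torsion K)) = 0 := by
        ext i
        have h2 : Multiplicative.ofAdd ((Units.basisModTorsion K).repr
          (Additive.ofMul (x : (𝓞 K)ˣ ⧸ Units.torsion K)) i) = 1 := congrFun hx i
        exact h2
      have h3 := (LinearEquiv.map_eq_zero_iff _).1 h1
      exact h3
    · intro hx
      funext i
      change Multiplicative.ofAdd ((Units.basisModTorsion K).repr
          (Additive.ofMul (x : (𝓞 K)ˣ ⧸ Units.torsion K)) i) = 1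
      rw [hx]
      simp
  have hsurj : (⊤ : Subgroup (𝓞 K)ˣ).map f = ⊤ := by
    rw [← MonoidHom.range_eq_map, MonoidHom.range_eq_top]
    intro y
    obtain ⟨x, hx⟩ := QuotientGroup.mk_surjective
      (((Units.basisModTorsion K).equivFun.symm (fun i => Multiplicative.toAdd (y i))).toMul)
    refine ⟨x, ?_⟩
    funext i
    change Multiplicative.ofAdd ((Units.basisModTorsion K).repr
          (Additive.ofMul (x : (𝓞 K)ˣ ⧸ Units.torsion K)) i) = y i
    rw [hx, ofMul_toMul]
    have h1 := congrFun ((Units.basisModTorsion K).equivFun.apply_symm_apply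
      (fun i => Multiplicative.toAdd (y i))) i
    rw [Module.Basis.equivFun_apply] at h1
    rw [h1]
    rfl
  have h1 := sq_rel_E1 f ⊤ (fun x _ h => sq_one_E1 (f x) h)
  rw [top_inf_eq, hker, hsurj, torsion_E1,
    index_sq_E1 (Fin (Units.rank K)) ⊤ (by simp), Fintype.card_fin] at h1
  rw [h1, ← pow_succ']
  congr 1
  have h2 : 0 < Fintype.card (InfinitePlace K) := Fintype.card_pos
  rw [← InfinitePlace.card_eq_nrRealPlaces_add_nrComplexPlaces, Units.rank]
  omega

/-- a generator of the `h`-th power of a prime -/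
private theorem gen_E1 (K : Type) [Field K] [NumberField K] (v : HeightOneSpectrum (𝓞 K)) :
    ∃ u : Kˣ, v.valuationOfNeZero u = Multiplicative.ofAdd (-(classNumber K : ℤ)) ∧
      ∀ w : HeightOneSpectrum (𝓞 K), w ≠ v → w.valuation K (u : K) = 1 := by
  have hh : 0 < classNumber K := by
    rw [classNumber]
    exact Fintype.card_pos
  obtain ⟨a, ha⟩ : ∃ a : 𝓞 K, v.asIdeal ^ classNumber K = Ideal.span {a} := by
    have h0 : (v.asIdeal : Ideal (𝓞 K)) ∈ nonZeroDivisors (Ideal (𝓞 K)) :=
      mem_nonZeroDivisors_iff_ne_zero.2 v.ne_bot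
    have h1 : ClassGroup.mk0 ((⟨v.asIdeal, h0⟩ : nonZeroDivisors (Ideal (𝓞 K))) ^ classNumber K) = 1 := by
      rw [map_pow, classNumber]
      exact pow_card_eq_one
    have h2 := ClassGroup.mk0_eq_one_iff (by
      exact ((⟨v.asIdeal, h0⟩ : nonZeroDivisors (Ideal (𝓞 K))) ^ classNumber K).2)|>.1 h1
    obtain ⟨a, ha⟩ := h2
    exact ⟨a, ha⟩
  have ha0 : a ≠ 0 := by
    rintro rfl
    rw [Ideal.span_singleton_eq_bot.2 rfl] at ha
    exact v.ne_bot (pow_eq_zero_iff hh.ne' |>.1 ha)
  have haK : (a : K) ≠ 0 := by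
    intro h
    apply ha0
    exact RingOfIntegers.ext h
  refine ⟨Units.mk0 (a : K) haK, ?_, ?_⟩
  · rw [← WithZero.coe_inj, HeightOneSpectrum.valuationOfNeZero_eq]
    change v.valuation K (algebraMap (𝓞 K) K a) = _
    rw [HeightOneSpectrum.valuation_of_algebraMap]
    have h1 : v.intValuation a ≤ WithZero.exp (-(classNumber K : ℤ)) :=
      (v.intValuation_le_pow_iff_dvd a _).2 (by rw [ha])
    have h2 : ¬ v.intValuation a ≤ WithZero.exp (-((classNumber K + 1 : ℕ) : ℤ)) := by
      intro h
      have h3 := (v.intValuation_le_pow_iff_dvd a _).1 h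
      rw [← ha] at h3
      have h4 : IsUnit v.asIdeal := by
        have h5 : v.asIdeal ^ classNumber K * v.asIdeal ∣ v.asIdeal ^ classNumber K * 1 := by
          rw [mul_one, ← pow_succ]
          exact h3
        have h6 := (mul_dvd_mul_iff_left (pow_ne_zero _ v.ne_bot)).1 h5
        exact isUnit_of_dvd_one h6
      exact v.isPrime.ne_top (Ideal.isUnit_iff.1 h4)
    have h3 : v.intValuation a ≠ 0 := v.intValuation_ne_zero a ha0
    obtain ⟨n, hn⟩ : ∃ n : ℤ, v.intValuation a = WithZero.exp n := ⟨_, (WithZero.exp_log h3).symm⟩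
    rw [hn, WithZero.exp_le_exp] at h1 h2
    have h4 : n = -(classNumber K : ℤ) := by
      push_cast at h2
      omega
    rw [hn, h4]
    rfl
  · intro w hw
    change w.valuation K (algebraMap (𝓞 K) K a) = 1
    refine (HeightOneSpectrum.valuation_eq_one_iff_notMem _).2 ?_
    intro h
    apply hw
    have h1 : v.asIdeal ^ classNumber K ≤ w.asIdeal := by
      rw [ha, Ideal.span_singleton_le_iff_mem]
      exact h
    have h2 : v.asIdeal ≤ w.asIdeal := w.isPrime.le_of_pow_le h1
    exact (HeightOneSpectrum.ext (v.isMaximal.eq_of_le w.isPrime.ne_top h2)).symm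

/-- **E1** `V`-units modulo squares -/
theorem hE1 : StE1 := by
  classical
  intro K _ _ V U hU
  let f : Kˣ →* (V → Multiplicative ℤ) :=
    { toFun := fun u v => v.1.valuationOfNeZero u
      map_one' := by
        funext v
        simp
      map_mul' := by
        intro x y
        funext v
        simp }
  have h1 := sq_rel_E1 f U (fun x _ h => sq_one_E1 (f x) h)
  -- the kernel
  have hker : U ⊓ f.ker = (⊤ : Subgroup (𝓞 K)ˣ).map (Units.map (algebraMap (𝓞 K) K : 𝓞 K →* K)) := by
    ext u
    constructor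
    · rintro ⟨hu, hk⟩
      have hval : ∀ v : HeightOneSpectrum (𝓞 K), v.valuation K (u : K) = 1 := by
        intro v
        by_cases hv : v ∈ V
        · have h2 : v.valuationOfNeZero u = 1 := congrFun hk ⟨v, hv⟩
          rw [← HeightOneSpectrum.valuationOfNeZero_eq, h2]
          rfl
        · exact (hU u).1 hu v hv
      obtain ⟨a, ha⟩ := HeightOneSpectrum.mem_integers_of_valuation_le_one K (u : K)
        (fun v => (hval v).le)
      obtain ⟨b, hb⟩ := HeightOneSpectrum.mem_integers_of_valuation_le_one K ((u⁻¹ : Kˣ) : K)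
        (fun v => by rw [Units.val_inv_eq_inv_val, map_inv₀, hval v, inv_one])
      have hab : a * b = 1 := by
        apply RingOfIntegers.ext
        change algebraMap (𝓞 K) K (a * b) = 1
        rw [map_mul, ha, hb, Units.mul_inv]
      have hba : b * a = 1 := by rw [mul_comm, hab]
      refine ⟨⟨a, b, hab, hba⟩, Subgroup.mem_top _, ?_⟩
      apply Units.ext
      exact ha
    · rintro ⟨a, -, rfl⟩
      have hval : ∀ v : HeightOneSpectrum (𝓞 K), v.valuationOfNeZero
          (Units.map (algebraMap (𝓞 K) K : 𝓞 K →* K) a) = 1 := fun v =>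
        HeightOneSpectrum.valuation_of_unit_eq v a
      refine ⟨(hU _).2 fun v _ => ?_, ?_⟩
      · rw [← HeightOneSpectrum.valuationOfNeZero_eq, hval v]
        rfl
      · change f _ = 1
        funext v
        exact hval v.1
  have hinj : Function.Injective (Units.map (algebraMap (𝓞 K) K : 𝓞 K →* K)) :=
    Units.map_injective (FaithfulSMul.algebraMap_injective (𝓞 K) K)
  have h2 : ((U ⊓ f.ker).map (powMonoidHom 2)).relIndex (U ⊓ f.ker) =
      2 ^ (InfinitePlace.nrRealPlaces K + InfinitePlace.nrComplexPlaces K) := by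
    rw [hker, ← units_E1 K, ← Subgroup.relIndex_map_map_of_injective _ _ hinj]
    congr 1
    rw [Subgroup.map_map, Subgroup.map_map]
    congr 1
  -- the image
  have hh : 0 < classNumber K := by
    rw [classNumber]
    exact Fintype.card_pos
  have : NeZero (classNumber K) := ⟨hh.ne'⟩
  have himg : (powMonoidHom (classNumber K) :
      (V → Multiplicative ℤ) →* (V → Multiplicative ℤ)).range ≤ U.map f := by
    rintro _ ⟨x, rfl⟩
    have h3 : (powMonoidHom (classNumber K)) x =
        ∏ v : V, Pi.mulSingle v ((x v) ^ classNumber K) := by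
      rw [Finset.univ_prod_mulSingle]
      rfl
    rw [h3]
    refine Subgroup.prod_mem _ fun v _ => ?_
    obtain ⟨u, hu, hu'⟩ := gen_E1 K v.1
    refine ⟨u ^ (-(Multiplicative.toAdd (x v))), ?_, ?_⟩
    · refine zpow_mem ((hU u).2 fun w hw => hu' w ?_) _
      rintro rfl
      exact hw v.2
    · rw [map_zpow]
      have h4 : f u = Pi.mulSingle v (Multiplicative.ofAdd (-(classNumber K : ℤ))) := by
        funext w
        by_cases hw : w = v
        · rw [hw, Pi.mulSingle_eq_same]
          exact hu
        · rw [Pi.mulSingle_eq_of_ne hw]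
          change w.1.valuationOfNeZero u = 1
          rw [← WithZero.coe_inj, HeightOneSpectrum.valuationOfNeZero_eq,
            hu' w.1 (fun h => hw (Subtype.ext h))]
          rfl
      rw [h4, ← Pi.mulSingle_zpow]
      congr 1
      apply Multiplicative.toAdd.injective
      rw [toAdd_zpow, toAdd_pow]
      simp [mul_comm]
  have hidx : (U.map f).index ≠ 0 := by
    intro h0
    have h3 := Subgroup.index_dvd_of_le himg
    rw [h0, zero_dvd_iff, index_pow_E1] at h3
    exact pow_ne_zero _ hh.ne' h3
  rw [h1, h2, index_sq_E1 V _ hidx, ← pow_add, Fintype.card_coe]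

end Pool.TW
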