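import Pool.Agent.Helper34.TW.StE

/-!
# Project TW, module E2 : the signature of `KS f θ`
-/

set_option autoImplicit false

open scoped Pointwise NumberField
open NumberField Polynomial IsDedekindDomain Pool.RG2

namespace Pool.TW

private lemma real_le_E2 (K : Type) [Field K] [NumberField K] (h : ∀ φ φ' : K →+* ℝ, φ = φ') :
    InfinitePlace.nrRealPlaces K ≤ 1 := by
  classical
  rw [← InfinitePlace.card_real_embeddings, Fintype.card_le_one_iff]
  rintro ⟨φ, hφ⟩ ⟨φ', hφ'⟩
  apply Subtype.ext
  have h1 := h hφ.embedding hφ'.embedding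
  ext x
  have h2 := ComplexEmbedding.IsReal.coe_embedding_apply hφ x
  have h3 := ComplexEmbedding.IsReal.coe_embedding_apply hφ' x
  rw [← h2, ← h3, h1]

theorem hE2 : StE2 := by
  classical
  intro h0 h6 r f hf hcard T θ
  have h1 := real_le_E2 (KS f θ) (h6 r f hf T θ)
  have h2 : Module.finrank ℚ (KS f θ) = ∏ s ∈ T, (f s).natDegree := by
    rw [((h0 r f hf T).2 θ).2.2.1, Fintype.card_pi, Finset.prod_coe_sort T
      (fun s => Fintype.card (Rt (f s)))]
    exact Finset.prod_congr rfl fun s _ => hcard s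
  have h3 : Odd (∏ s ∈ T, (f s).natDegree) := by
    refine Finset.prod_induction _ Odd (fun a b ha hb => ha.mul hb) odd_one fun s _ => hf.odd s
  have h4 : 0 < InfinitePlace.nrRealPlaces (KS f θ) :=
    InfinitePlace.nrRealPlaces_pos_of_odd_finrank (by rw [h2]; exact h3)
  have h5 := InfinitePlace.card_add_two_mul_card_eq_rank (KS f θ)
  rw [h2] at h5
  omega

end Pool.TW
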