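import Pool.Agent.Helper34.TW.StE
import Pool.Agent.Helper54.DG.CaseC

/-! TW module E3 (helper93): the group of equivariant units. -/

set_option autoImplicit false

open scoped Pointwise NumberField
open NumberField Polynomial IsDedekindDomain Pool.RG2

namespace Pool.TW

private theorem mul_E3 {P : Ideal Zb} (hP : P.IsPrime) {u v : Qb} (hu : UnitAt P u)
    (hv : UnitAt P v) : UnitAt P (u * v) := by
  obtain ⟨a, b, ha, hb, hab⟩ := hu
  obtain ⟨c, d, hc, hd, hcd⟩ := hv
  refine ⟨a * c, b * d, fun h => (hP.mem_or_mem h).elim ha hc,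
    fun h => (hP.mem_or_mem h).elim hb hd, ?_⟩
  have hab' : u * algebraMap Zb Qb b = algebraMap Zb Qb a := hab
  have hcd' : v * algebraMap Zb Qb d = algebraMap Zb Qb c := hcd
  show u * v * algebraMap Zb Qb (b * d) = algebraMap Zb Qb (a * c)
  rw [map_mul, map_mul, ← hab', ← hcd']
  ring

private theorem one_E3 {P : Ideal Zb} (hP : P.IsPrime) : UnitAt P 1 := by
  refine ⟨1, 1, fun h => hP.ne_top ((Ideal.eq_top_iff_one _).2 h),
    fun h => hP.ne_top ((Ideal.eq_top_iff_one _).2 h), ?_⟩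
  rw [one_mul]

private theorem inv_E3 {P : Ideal Zb} {u : Qb} (hu : UnitAt P u) : UnitAt P u⁻¹ := by
  obtain ⟨a, b, ha, hb, hab⟩ := hu
  refine ⟨b, a, hb, ha, ?_⟩
  have hu0 : u ≠ 0 := by
    rintro rfl
    rw [zero_mul] at hab
    have h1 : a = 0 := by
      apply RingOfIntegers.coe_injective
      rw [map_zero]
      exact hab.symm
    exact ha (by rw [h1]; exact P.zero_mem)
  rw [← hab, inv_mul_cancel_left₀ hu0]

private theorem smul_E3 {P : Ideal Zb} (g : GQ) {u : Qb} (hu : UnitAt P u) :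
    UnitAt (g • P) (g u) := by
  obtain ⟨a, b, ha, hb, hab⟩ := hu
  have h1 : ∀ c : Zb, c ∉ P → g • c ∉ g • P := by
    intro c hc h
    have h2 := (Pool.RG.mem_smul g P (g • c)).1 h
    rw [inv_smul_smul] at h2
    exact hc h2
  refine ⟨g • a, g • b, h1 a ha, h1 b hb, ?_⟩
  have h3 : ((g • b : Zb) : Qb) = g (b : Qb) := rfl
  have h4 : ((g • a : Zb) : Qb) = g (a : Qb) := rfl
  rw [h3, h4, ← map_mul, hab]

private theorem key_E3 (K : Sub) [NumberField K] (P : Ideal Zb) (hP : P.IsPrime)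
    (v : HeightOneSpectrum (𝓞 K))
    (hv : ∀ a : 𝓞 K, a ∈ v.asIdeal ↔ algebraMap (𝓞 K) Zb a ∈ P) (z : K) :
    UnitAt P (z : Qb) ↔ v.valuation K z = 1 := by
  have hco : ∀ a : 𝓞 K, algebraMap Zb Qb (algebraMap (𝓞 K) Zb a) =
      ((algebraMap (𝓞 K) K a : K) : Qb) := fun a => rfl
  obtain ⟨n, d, hnd⟩ := HeightOneSpectrum.exists_primeCompl_mul_eq_or_mul_eq (K := K) v z
  have hd : v.valuation K (algebraMap (𝓞 K) K (d : 𝓞 K)) = 1 :=
    HeightOneSpectrum.valuation_eq_one_iff_notMem v |>.2 d.2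
  have hdP : algebraMap (𝓞 K) Zb (d : 𝓞 K) ∉ P := fun h => d.2 ((hv _).2 h)
  constructor
  · rintro ⟨a, b, ha, hb, hab⟩
    have hab' : (z : Qb) * algebraMap Zb Qb b = algebraMap Zb Qb a := hab
    have hn : n ∉ v.asIdeal := by
      intro hn
      have hnP := (hv n).1 hn
      rcases hnd with h | h
      · have h1 : a * algebraMap (𝓞 K) Zb (d : 𝓞 K) = algebraMap (𝓞 K) Zb n * b := by
          apply RingOfIntegers.coe_injective
          have h2 : ((z : K) : Qb) * ((algebraMap (𝓞 K) K (d : 𝓞 K) : K) : Qb) =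
              ((algebraMap (𝓞 K) K n : K) : Qb) := by
            rw [← h]
            rfl
          rw [map_mul, map_mul, hco, hco, ← hab', ← h2]
          ring
        have h3 : a * algebraMap (𝓞 K) Zb (d : 𝓞 K) ∈ P := by
          rw [h1]
          exact P.mul_mem_right _ hnP
        exact (hP.mem_or_mem h3).elim ha hdP
      · have h1 : algebraMap (𝓞 K) Zb (d : 𝓞 K) * b = algebraMap (𝓞 K) Zb n * a := by
          apply RingOfIntegers.coe_injective
          have h2 : ((z : K) : Qb) * ((algebraMap (𝓞 K) K n : K) : Qb) =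
              ((algebraMap (𝓞 K) K (d : 𝓞 K) : K) : Qb) := by
            rw [← h]
            rfl
          rw [map_mul, map_mul, hco, hco, ← hab', ← h2]
          ring
        have h3 : algebraMap (𝓞 K) Zb (d : 𝓞 K) * b ∈ P := by
          rw [h1]
          exact P.mul_mem_right _ hnP
        exact (hP.mem_or_mem h3).elim hdP hb
    have hn1 : v.valuation K (algebraMap (𝓞 K) K n) = 1 :=
      HeightOneSpectrum.valuation_eq_one_iff_notMem v |>.2 hn
    rcases hnd with h | h
    · have h1 := congrArg (v.valuation K) h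
      rw [map_mul, hd, hn1, mul_one] at h1
      exact h1
    · have h1 := congrArg (v.valuation K) h
      rw [map_mul, hd, hn1, mul_one] at h1
      exact h1
  · intro hz
    have hn1 : v.valuation K (algebraMap (𝓞 K) K n) = 1 := by
      rcases hnd with h | h
      · have h1 := congrArg (v.valuation K) h
        rw [map_mul, hd, hz, mul_one] at h1
        exact h1.symm
      · have h1 := congrArg (v.valuation K) h
        rw [map_mul, hd, hz, one_mul] at h1
        exact h1
    have hn : n ∉ v.asIdeal := HeightOneSpectrum.valuation_eq_one_iff_notMem v |>.1 hn1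
    have hnP : algebraMap (𝓞 K) Zb n ∉ P := fun h => hn ((hv _).2 h)
    rcases hnd with h | h
    · refine ⟨algebraMap (𝓞 K) Zb n, algebraMap (𝓞 K) Zb (d : 𝓞 K), hnP, hdP, ?_⟩
      show (z : Qb) * algebraMap Zb Qb (algebraMap (𝓞 K) Zb (d : 𝓞 K)) =
        algebraMap Zb Qb (algebraMap (𝓞 K) Zb n)
      rw [hco, hco, ← h]
      rfl
    · refine ⟨algebraMap (𝓞 K) Zb (d : 𝓞 K), algebraMap (𝓞 K) Zb n, hdP, hnP, ?_⟩
      show (z : Qb) * algebraMap Zb Qb (algebraMap (𝓞 K) Zb n) =
        algebraMap Zb Qb (algebraMap (𝓞 K) Zb (d : 𝓞 K))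
      rw [hco, hco, ← h]
      rfl

private theorem orb_E3 {X Y : Type} [Fintype X] [MulAction GQ X] [DecidableEq Y] (φ : GQ) (V : X → Y)
    (hV : ∀ y y', V y = V y' ↔ ∃ k : ℕ, y' = φ ^ k • y) :
    (Finset.univ.image V).card = Nat.card (MulAction.orbitRel.Quotient (Subgroup.zpowers φ) X) := by
  have hrel : ∀ a b : X, V a = V b ↔ a ∈ MulAction.orbit (Subgroup.zpowers φ) b := by
    intro a b
    constructor
    · intro h
      obtain ⟨k, hk⟩ := (hV a b).1 h
      refine ⟨⟨(φ ^ k)⁻¹, Subgroup.inv_mem _ (Subgroup.npow_mem_zpowers φ k)⟩, ?_⟩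
      show (φ ^ k)⁻¹ • b = a
      rw [hk, inv_smul_smul]
    · rintro ⟨⟨g, hg⟩, h⟩
      have h' : g • b = a := h
      obtain ⟨k, rfl⟩ := Subgroup.mem_zpowers_iff.1 hg
      rcases Int.eq_nat_or_neg k with ⟨n, rfl | rfl⟩
      · exact ((hV b a).2 ⟨n, by rw [← h', zpow_natCast]⟩).symm
      · refine (hV a b).2 ⟨n, ?_⟩
        rw [← h', zpow_neg, zpow_natCast, smul_inv_smul]
  let W : MulAction.orbitRel.Quotient (Subgroup.zpowers φ) X → Y :=
    Quotient.lift V fun a b h => (hrel a b).2 h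
  have hW : Function.Injective W := by
    intro x y
    refine Quotient.inductionOn₂ x y fun a b h => ?_
    exact Quotient.sound ((hrel a b).1 h)
  have h1 : (Finset.univ.image V : Set Y) = Set.range W := by
    rw [Finset.coe_image, Finset.coe_univ, Set.image_univ]
    ext y
    constructor
    · rintro ⟨x, rfl⟩
      exact ⟨Quotient.mk _ x, rfl⟩
    · rintro ⟨x, rfl⟩
      refine Quotient.inductionOn x fun a => ?_
      exact ⟨a, rfl⟩
  rw [← Nat.card_range_of_injective hW, ← h1]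
  exact (Nat.card_eq_card_toFinset _).trans (by rw [Finset.toFinset_coe]) |>.symm

private theorem sqi_E3 {G H : Type} [CommGroup G] [CommGroup H] (A : Subgroup G) (W : Subgroup H)
    (j : A ≃* W) :
    (A.map (powMonoidHom 2)).relIndex A = (W.map (powMonoidHom 2)).relIndex W := by
  have h : ∀ {G : Type} [CommGroup G] (A : Subgroup G),
      (A.map (powMonoidHom 2)).relIndex A = (powMonoidHom 2 : A →* A).range.index := by
    intro G _ A
    rw [Subgroup.relIndex]
    congr 1
    ext x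
    rw [Subgroup.mem_subgroupOf, Subgroup.mem_map, MonoidHom.mem_range]
    constructor
    · rintro ⟨y, hy, hyx⟩
      exact ⟨⟨y, hy⟩, Subtype.ext hyx⟩
    · rintro ⟨y, hy⟩
      exact ⟨y, y.2, congrArg Subtype.val hy⟩
  rw [h A, h W, ← Subgroup.index_map_equiv (powMonoidHom 2 : A →* A).range j]
  congr 1
  ext x
  rw [Subgroup.mem_map, MonoidHom.mem_range]
  constructor
  · rintro ⟨_, ⟨y, rfl⟩, hyx⟩
    exact ⟨j y, by rw [← hyx]; exact (map_pow j y 2).symm⟩
  · rintro ⟨y, rfl⟩
    refine ⟨_, ⟨j.symm y, rfl⟩, ?_⟩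
    show j ((j.symm y) ^ 2) = y ^ 2
    rw [map_pow, j.apply_symm_apply]

theorem hE3 : StE3 := by
  intro hC0 hC6b hC7 hE1 hE2 r f hf hcard dt Q hQ T
  classical
  have hne : ∀ s : T, Nonempty (Rt (f s)) := fun s => by
    rw [← Fintype.card_pos_iff, hcard]
    have := hf.three s
    omega
  let θ : Pt (RY f) T := fun s => Classical.choice (hne s)
  obtain ⟨htr, hθ⟩ := hC0 r f hf T
  obtain ⟨hst, -, -, hF⟩ := hθ θ
  have hprime : ∀ q ∈ Q, q.Prime ∧ q ≠ 2 := fun q hq => ⟨(hQ q hq).1, by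
    rintro rfl
    have := (hQ 2 hq).2.1
    omega⟩
  -- the primes above `q`
  have hW : ∀ q, ∃ W : Finset (HeightOneSpectrum (𝓞 (KS f θ))), q ∈ Q → W.card = orbq f T dt q ∧
      ∀ v : HeightOneSpectrum (𝓞 (KS f θ)), v ∈ W ↔ (q : 𝓞 (KS f θ)) ∈ v.asIdeal := by
    intro q
    by_cases hq : q ∈ Q
    · have hp := hprime q hq
      let D := dt q hp.1 hp.2
      obtain ⟨V, -, hV2, hV3, hV4, -⟩ := hC7 hC0 r f hf T θ q hp.1 D.P D.φ D.hP D.hq D.hφ
        (fun s _ => (hQ q hq).2.2 D.P D.hP D.hq s)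
      refine ⟨Finset.univ.image V, fun _ => ⟨?_, fun v => ?_⟩⟩
      · rw [orb_E3 D.φ V hV2, orbq, dif_pos hp]
        rfl
      · rw [Finset.mem_image]
        constructor
        · rintro ⟨y, -, rfl⟩
          exact (hV4 y).1
        · intro hv
          obtain ⟨y, hy⟩ := hV3 v hv
          exact ⟨y, Finset.mem_univ _, hy⟩
    · exact ⟨∅, fun h => absurd h hq⟩
  choose W hW using hW
  let V : Finset (HeightOneSpectrum (𝓞 (KS f θ))) := Q.biUnion W
  have hVmem : ∀ v : HeightOneSpectrum (𝓞 (KS f θ)), v ∈ V ↔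
      ∃ q ∈ Q, (q : 𝓞 (KS f θ)) ∈ v.asIdeal := by
    intro v
    rw [Finset.mem_biUnion]
    constructor
    · rintro ⟨q, hq, hv⟩
      exact ⟨q, hq, ((hW q hq).2 v).1 hv⟩
    · rintro ⟨q, hq, hv⟩
      exact ⟨q, hq, ((hW q hq).2 v).2 hv⟩
  have hVcard : V.card = ∑ q ∈ Q, orbq f T dt q := by
    rw [Finset.card_biUnion]
    · exact Finset.sum_congr rfl fun q hq => (hW q hq).1
    · intro q hq q' hq' hne
      rw [Function.onFun, Finset.disjoint_left]
      intro v hv hv'
      have h1 := ((hW q hq).2 v).1 hv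
      have h2 := ((hW q' hq').2 v).1 hv'
      have h3 : IsCoprime (q : ℤ) (q' : ℤ) :=
        Nat.isCoprime_iff_coprime.2 ((Nat.coprime_primes (hprime q hq).1 (hprime q' hq').1).2 hne)
      obtain ⟨a, b, hab⟩ := h3
      have h4 : ((a : 𝓞 (KS f θ)) * (q : 𝓞 (KS f θ)) + (b : 𝓞 (KS f θ)) * (q' : 𝓞 (KS f θ))) = 1 := by
        exact_mod_cast congrArg (fun n : ℤ => (n : 𝓞 (KS f θ))) hab
      have h5 : (1 : 𝓞 (KS f θ)) ∈ v.asIdeal := by
        rw [← h4]
        exact v.asIdeal.add_mem (v.asIdeal.mul_mem_left _ h1) (v.asIdeal.mul_mem_left _ h2)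
      exact v.isPrime.ne_top ((Ideal.eq_top_iff_one _).2 h5)
  let U : Subgroup (KS f θ)ˣ :=
    { carrier := {u | ∀ v : HeightOneSpectrum (𝓞 (KS f θ)), v ∉ V →
        v.valuation (KS f θ) (u : KS f θ) = 1}
      mul_mem' := fun {a b} ha hb v hv => by
        rw [Units.val_mul, map_mul, ha v hv, hb v hv, one_mul]
      one_mem' := fun v _ => by rw [Units.val_one, map_one]
      inv_mem' := fun {a} ha v hv => by
        rw [Units.val_inv_eq_inv_val, map_inv₀, ha v hv, inv_one] }
  have hU := hE1 (KS f θ) V U (fun u => Iff.rfl)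
  rw [hE2 hC0 hC6b r f hf hcard T θ, hVcard] at hU
  let A : Subgroup (Pt (RY f) T → Qbˣ) :=
    { carrier := {F | IsEqU f Q F}
      mul_mem' := fun {a b} ha hb => ⟨fun g x => by
          rw [Pi.mul_apply, Pi.mul_apply, Units.val_mul, Units.val_mul, map_mul, ha.eqv, hb.eqv],
        fun x P hP hq => by
          rw [Pi.mul_apply, Units.val_mul]
          exact mul_E3 hP.isPrime (ha.unit x P hP hq) (hb.unit x P hP hq)⟩
      one_mem' := ⟨fun g x => map_one g, fun x P hP hq => one_E3 hP.isPrime⟩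
      inv_mem' := fun {a} ha => ⟨fun g x => by
          rw [Pi.inv_apply, Pi.inv_apply, Units.val_inv_eq_inv_val, Units.val_inv_eq_inv_val,
            map_inv₀, ha.eqv],
        fun x P hP hq => by
          rw [Pi.inv_apply, Units.val_inv_eq_inv_val]
          exact inv_E3 (ha.unit x P hP hq)⟩ }
  refine ⟨A, fun F => Iff.rfl, ?_⟩
  rw [← hU]
  let ι : (KS f θ)ˣ →* Qbˣ := Units.map (algebraMap (KS f θ) Qb).toMonoidHom
  have hι : Function.Injective ι :=
    Units.map_injective (algebraMap (KS f θ) Qb).injective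
  have hιc : ∀ u : (KS f θ)ˣ, ((ι u : Qbˣ) : Qb) = ((u : KS f θ) : Qb) := fun u => rfl
  have h1 : ((U.map ι).map (powMonoidHom 2)).relIndex (U.map ι) =
      (U.map (powMonoidHom 2)).relIndex U := by
    rw [← Subgroup.relIndex_map_map_of_injective _ U hι, Subgroup.map_map, Subgroup.map_map]
    congr 2
  rw [← h1]
  -- the evaluation at `θ`
  let ev : (Pt (RY f) T → Qbˣ) →* Qbˣ := Pi.evalMonoidHom _ θ
  have hev : ∀ F : A, ev (F : Pt (RY f) T → Qbˣ) ∈ U.map ι := by
    intro F
    obtain ⟨z, hz, -⟩ := hF (fun x => ((F : Pt (RY f) T → Qbˣ) x : Qb)) F.2.eqv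
    have hz0 : z ≠ 0 := by
      rintro rfl
      exact ((F : Pt (RY f) T → Qbˣ) θ).ne_zero (by rw [← hz]; rfl)
    refine ⟨Units.mk0 z hz0, fun v hv => ?_, Units.ext hz⟩
    obtain ⟨P, hPmax, hPv⟩ := Ideal.exists_maximal_ideal_liesOver_of_isIntegral (S := 𝓞 Qb) v.asIdeal
    have hPv' : ∀ a : 𝓞 (KS f θ), a ∈ v.asIdeal ↔ algebraMap (𝓞 (KS f θ)) Zb a ∈ P := by
      intro a
      rw [hPv.over]
      exact Iff.rfl
    refine (key_E3 (KS f θ) P hPmax.isPrime v hPv' z).1 ?_
    rw [hz]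
    refine F.2.unit θ P hPmax fun q hq hqP => hv ((hVmem v).2 ⟨q, hq, (hPv' _).2 ?_⟩)
    rw [map_natCast]
    exact hqP
  let j : A →* (U.map ι : Subgroup Qbˣ) := (ev.comp A.subtype).codRestrict (U.map ι) hev
  have hinj : Function.Injective j := by
    intro F F' h
    have h2 : (F : Pt (RY f) T → Qbˣ) θ = (F' : Pt (RY f) T → Qbˣ) θ := congrArg Subtype.val h
    apply Subtype.ext
    funext x
    obtain ⟨g, rfl⟩ := htr θ x
    apply Units.ext
    rw [← F.2.eqv, ← F'.2.eqv, h2]
  have hsurj : Function.Surjective j := by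
    rintro ⟨w, u, hu, rfl⟩
    choose g hg using fun x => htr θ x
    have hfix : ∀ a b : GQ, a • θ = b • θ → a ((u : KS f θ) : Qb) = b ((u : KS f θ) : Qb) := by
      intro a b hab
      have h3 : b⁻¹ * a ∈ GF (KS f θ) := by
        rw [← hst, mul_smul, hab, inv_smul_smul]
      have h4 := Pool.RG.CC.fixed_of_mem (KS f θ) _ (u : KS f θ).2 _ h3
      rw [AlgEquiv.mul_apply] at h4
      have h5 := congrArg b h4
      rw [← AlgEquiv.mul_apply, mul_inv_cancel, AlgEquiv.one_apply] at h5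
      exact h5
    let F : Pt (RY f) T → Qbˣ := fun x => Units.map (g x : Qb →* Qb) (ι u)
    have hFx : ∀ x, (F x : Qb) = g x ((u : KS f θ) : Qb) := fun x => rfl
    have hFA : IsEqU f Q F := by
      constructor
      · intro a x
        rw [hFx, hFx, ← AlgEquiv.mul_apply]
        apply hfix
        rw [mul_smul, hg, hg]
      · intro x P hP hq
        rw [hFx]
        have hP' : ((g x)⁻¹ • P).IsMaximal := Pool.RG.isMaximal_smul _ P hP
        have h3 : UnitAt ((g x)⁻¹ • P) ((u : KS f θ) : Qb) := by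
          have hm : (((g x)⁻¹ • P).under (𝓞 (KS f θ))).IsMaximal := inferInstance
          let v : HeightOneSpectrum (𝓞 (KS f θ)) := ⟨((g x)⁻¹ • P).under (𝓞 (KS f θ)), inferInstance,
            Ring.ne_bot_of_isMaximal_of_not_isField inferInstance
              (RingOfIntegers.not_isField (KS f θ))⟩
          refine (key_E3 (KS f θ) _ hP'.isPrime v (fun a => Iff.rfl) _).2 (hu v fun hv => ?_)
          obtain ⟨q, hqQ, hqv⟩ := (hVmem v).1 hv
          have h4 : algebraMap (𝓞 (KS f θ)) Zb (q : 𝓞 (KS f θ)) ∈ (g x)⁻¹ • P := hqv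
          rw [map_natCast, Pool.RG.mem_smul, inv_inv] at h4
          refine hq q hqQ ?_
          have h5 : (g x) • (q : Zb) = (q : Zb) := by
            apply RingOfIntegers.coe_injective
            have h6 : algebraMap Zb Qb (g x • (q : Zb)) = g x (algebraMap Zb Qb (q : Zb)) := rfl
            rw [h6, map_natCast, map_natCast]
          rwa [h5] at h4
        have h7 := smul_E3 (g x) h3
        rwa [smul_inv_smul] at h7
    refine ⟨⟨F, hFA⟩, Subtype.ext (Units.ext ?_)⟩
    show (F θ : Qb) = ((u : KS f θ) : Qb)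
    rw [hFx]
    have h8 := hfix (g θ) 1 (by rw [hg, one_smul])
    rw [h8]
    rfl
  exact sqi_E3 A (U.map ι) (MulEquiv.ofBijective j ⟨hinj, hsurj⟩)

end Pool.TW
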