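import Pool.Agent.Helper34.TW.StE

/-! TW module E4 (helper93): commuting idempotents on `A / A²`. -/

set_option autoImplicit false

namespace Pool.TW

private theorem comp_E4 {A ι : Type} [CommGroup A] [DecidableEq ι] (e : ι → A →* A) (n : ι → ℕ)
    {V : Type} (π : A → V) (hπ : ∀ s x y, π x = π y → π (e s x) = π (e s y)) (T : Finset ι)
    (hn : ∀ s ∈ T, Odd (n s)) (he : ∀ s ∈ T, ∀ x, e s (e s x) = e s x ^ n s)
    (hc : ∀ s ∈ T, ∀ t ∈ T, ∀ x, e s (e t x) = e t (e s x)) :
    ∃ (E : A →* A) (N : ℕ), Odd N ∧ (∀ x, ∀ s ∈ T, e s (E x) = E x ^ n s) ∧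
      (∀ x, (∀ s ∈ T, e s x = x ^ n s) → E x = x ^ N) ∧
      (∀ x, (∀ s ∈ T, π (e s x) = π x) → π (E x) = π x) := by
  induction T using Finset.induction_on with
  | empty =>
      refine ⟨MonoidHom.id A, 1, odd_one, fun x s hs => absurd hs (Finset.notMem_empty s),
        fun x _ => (pow_one x).symm, fun x _ => rfl⟩
  | insert a T haT ih =>
      obtain ⟨E, N, hN, h1, h2, h3⟩ := ih (fun s hs => hn s (Finset.mem_insert_of_mem hs))
        (fun s hs => he s (Finset.mem_insert_of_mem hs))
        (fun s hs t ht => hc s (Finset.mem_insert_of_mem hs) t (Finset.mem_insert_of_mem ht))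
      refine ⟨(e a).comp E, n a * N, (hn a (Finset.mem_insert_self _ _)).mul hN, ?_, ?_, ?_⟩
      · intro x s hs
        show e s (e a (E x)) = e a (E x) ^ n s
        rcases Finset.mem_insert.1 hs with rfl | hs'
        · exact he s (Finset.mem_insert_self _ _) (E x)
        · rw [hc s hs a (Finset.mem_insert_self _ _), h1 x s hs', map_pow]
      · intro x hx
        show e a (E x) = x ^ (n a * N)
        rw [h2 x fun s hs => hx s (Finset.mem_insert_of_mem hs), map_pow,
          hx a (Finset.mem_insert_self _ _), pow_mul]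
      · intro x hx
        show π (e a (E x)) = π x
        rw [hπ a _ _ (h3 x fun s hs => hx s (Finset.mem_insert_of_mem hs))]
        exact hx a (Finset.mem_insert_self _ _)

/-- The subgroup of the elements `x` with `e s x = x ^ n s` for `s ∈ T`. -/
private def sub_E4 {A ι : Type} [CommGroup A] (e : ι → A →* A) (n : ι → ℕ) (T : Finset ι) :
    Subgroup A where
  carrier := {x | ∀ s ∈ T, e s x = x ^ n s}
  mul_mem' := by
    intro a b ha hb s hs
    rw [map_mul, ha s hs, hb s hs, mul_pow]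
  one_mem' := by
    intro s _
    rw [map_one, one_pow]
  inv_mem' := by
    intro a ha s hs
    rw [map_inv, ha s hs, inv_pow]

private theorem core_E4 (hA2 : StA2) {A ι : Type} [CommGroup A] [DecidableEq ι] (S : Finset ι)
    (e : ι → A →* A) (n : ι → ℕ) (d : Finset ι → ℕ) (hn : ∀ s ∈ S, Odd (n s))
    (he : ∀ s ∈ S, ∀ x, e s (e s x) = e s x ^ n s)
    (hc : ∀ s ∈ S, ∀ t ∈ S, ∀ x, e s (e t x) = e t (e s x))
    (hB : ∀ T ⊆ S, ∀ B : Subgroup A, (∀ x, x ∈ B ↔ ∀ s ∈ T, e s x = x ^ n s) →
      (B.map (powMonoidHom 2)).relIndex B = 2 ^ d T)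
    (V : Type) [AddCommGroup V] [Module (ZMod 2) V] [Finite V] (π : A →* Multiplicative V)
    (hsurj : Function.Surjective π) (hker : ∀ x, π x = 1 ↔ IsSquare x)
    (ē : ι → V →ₗ[ZMod 2] V) (hē : ∀ s x, ē s (Multiplicative.toAdd (π x)) =
      Multiplicative.toAdd (π (e s x))) :
    ∃ (D : ℕ) (x : Fin D → A), (D : ℤ) = ∑ T ∈ S.powerset, (-1) ^ T.card * (d T : ℤ) ∧
      (∀ i, ∀ s ∈ S, IsSquare (e s (x i))) ∧ ∀ I : Finset (Fin D), IsSquare (∏ i ∈ I, x i) → I = ∅ := by
  have hodd : ∀ (k : ℕ) (x : A), Odd k → π (x ^ k) = π x := by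
    rintro k x ⟨m, rfl⟩
    have h1 : π ((x ^ m) ^ 2) = 1 := (hker _).2 ⟨x ^ m, sq _⟩
    rw [pow_succ, mul_comm 2 m, pow_mul, map_mul, h1, one_mul]
  have hπe : ∀ s x y, π x = π y → π (e s x) = π (e s y) := by
    intro s x y hxy
    have h1 := hē s x
    have h2 := hē s y
    rw [hxy] at h1
    exact Multiplicative.toAdd.injective (h1.symm.trans h2)
  have hid : ∀ s ∈ S, ∀ v, ē s (ē s v) = ē s v := by
    intro s hs v
    obtain ⟨x, hx⟩ := hsurj (Multiplicative.ofAdd v)
    have hv : v = Multiplicative.toAdd (π x) := by rw [hx]; rfl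
    rw [hv, hē, hē, he s hs, hodd _ _ (hn s hs)]
  have hcomm : ∀ s ∈ S, ∀ t ∈ S, ∀ v, ē s (ē t v) = ē t (ē s v) := by
    intro s hs t ht v
    obtain ⟨x, hx⟩ := hsurj (Multiplicative.ofAdd v)
    have hv : v = Multiplicative.toAdd (π x) := by rw [hx]; rfl
    rw [hv, hē, hē, hē, hē, hc s hs t ht]
  have hdim : ∀ T ⊆ S, Module.finrank (ZMod 2)
      (⨅ s ∈ T, LinearMap.ker (ē s - LinearMap.id) : Submodule (ZMod 2) V) = d T := by
    intro T hT
    have hmemU : ∀ v, v ∈ (⨅ s ∈ T, LinearMap.ker (ē s - LinearMap.id) : Submodule (ZMod 2) V) ↔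
        ∀ s ∈ T, ē s v = v := by
      intro v
      simp only [Submodule.mem_iInf, LinearMap.mem_ker, LinearMap.sub_apply, LinearMap.id_apply,
        sub_eq_zero]
    obtain ⟨E, N, hN, h1, h2, h3⟩ := comp_E4 e n π hπe T (fun s hs => hn s (hT hs))
      (fun s hs => he s (hT hs)) (fun s hs t ht => hc s (hT hs) t (hT ht))
    have hBT := hB T hT (sub_E4 e n T) (fun x => Iff.rfl)
    let ψ : sub_E4 e n T →* Multiplicative V := π.comp (sub_E4 e n T).subtype
    have hψker : ψ.ker = ((sub_E4 e n T).map (powMonoidHom 2)).subgroupOf (sub_E4 e n T) := by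
      ext x
      rw [MonoidHom.mem_ker, Subgroup.mem_subgroupOf, Subgroup.mem_map]
      constructor
      · intro hx
        obtain ⟨y, hy⟩ := (hker (x : A)).1 hx
        obtain ⟨k, hk⟩ := hN
        have h4 : (x : A) ^ N = E y ^ 2 := by
          rw [← h2 x x.2, hy, map_mul, sq]
        refine ⟨E y * ((x : A) ^ k)⁻¹, ?_, ?_⟩
        · exact (sub_E4 e n T).mul_mem (h1 y) ((sub_E4 e n T).inv_mem ((sub_E4 e n T).pow_mem x.2 k))
        · show (E y * ((x : A) ^ k)⁻¹) ^ 2 = x
          rw [mul_pow, ← h4, hk, inv_pow, ← pow_mul, mul_comm k 2, pow_succ]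
          exact mul_inv_cancel_comm _ _
      · rintro ⟨y, _, hy2⟩
        exact (hker (x : A)).2 ⟨y, by rw [← hy2]; exact sq y⟩
    have hcard : Nat.card (⨅ s ∈ T, LinearMap.ker (ē s - LinearMap.id) : Submodule (ZMod 2) V) =
        2 ^ d T := by
      rw [← hBT, Subgroup.relIndex, ← hψker, Subgroup.index_ker]
      refine Nat.card_congr (Equiv.subtypeEquiv Multiplicative.ofAdd fun v => ?_)
      rw [hmemU]
      constructor
      · intro hv
        obtain ⟨x, hx⟩ := hsurj (Multiplicative.ofAdd v)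
        have hv2 : v = Multiplicative.toAdd (π x) := by rw [hx]; rfl
        have h5 : π (E x) = π x := by
          refine h3 x fun s hs => ?_
          have h6 := hv s hs
          rw [hv2, hē] at h6
          exact Multiplicative.toAdd.injective h6
        exact ⟨⟨E x, h1 x⟩, h5.trans hx⟩
      · rintro ⟨x, hx⟩ s hs
        have hv2 : v = Multiplicative.toAdd (π (x : A)) := by
          have h6 : π (x : A) = Multiplicative.ofAdd v := hx
          rw [h6]
          rfl
        rw [hv2, hē, x.2 s hs, hodd _ _ (hn s (hT hs))]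
    have h7 := Module.natCard_eq_pow_finrank (K := ZMod 2)
      (V := (⨅ s ∈ T, LinearMap.ker (ē s - LinearMap.id) : Submodule (ZMod 2) V))
    rw [hcard, Nat.card_zmod] at h7
    exact (Nat.pow_right_injective le_rfl h7).symm
  have hfin : Module.Finite (ZMod 2) V := Module.Finite.of_finite
  have hmain := hA2 V ι S ē hid hcomm
  rw [Finset.sum_congr rfl fun T hT => by rw [hdim T (Finset.mem_powerset.1 hT)]] at hmain
  let W : Submodule (ZMod 2) V := ⨅ s ∈ S, LinearMap.ker (ē s)
  let b := Module.finBasis (ZMod 2) W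
  have hx : ∀ i, ∃ x : A, π x = Multiplicative.ofAdd ((b i : W) : V) := fun i => hsurj _
  choose x hx using hx
  refine ⟨Module.finrank (ZMod 2) W, x, hmain, ?_, ?_⟩
  · intro i s hs
    have h1 : ((b i : W) : V) ∈ LinearMap.ker (ē s) := by
      have h2 := (b i).2
      rw [Submodule.mem_iInf] at h2
      have h3 := h2 s
      rw [Submodule.mem_iInf] at h3
      exact h3 hs
    rw [← hker]
    have h4 := hē s (x i)
    rw [hx i] at h4
    have h5 : ē s ((b i : W) : V) = Multiplicative.toAdd (π (e s (x i))) := h4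
    rw [LinearMap.mem_ker.1 h1] at h5
    exact Multiplicative.toAdd.injective h5.symm
  · intro I hI
    have h1 : ∑ i ∈ I, (b i) = 0 := by
      apply Subtype.ext
      rw [AddSubmonoidClass.coe_finsetSum, ZeroMemClass.coe_zero]
      have h2 := (hker _).2 hI
      rw [map_prod, Finset.prod_congr rfl fun i _ => hx i] at h2
      exact h2
    by_contra hne
    obtain ⟨i, hi⟩ := Finset.nonempty_iff_ne_empty.2 hne
    have h3 := linearIndependent_iff'.1 b.linearIndependent I (fun _ => 1) (by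
      rw [← h1]
      exact Finset.sum_congr rfl fun i _ => one_smul _ _) i hi
    exact one_ne_zero h3

theorem hE4 : StE4 := by
  intro hA2 A ι _ _ S e n d hn he hc hB
  let R : Subgroup A := (powMonoidHom 2 : A →* A).range
  have hsq : ∀ x : A, x ∈ R ↔ IsSquare x := by
    intro x
    constructor
    · rintro ⟨y, hy⟩
      exact ⟨y, by rw [← hy]; exact sq y⟩
    · rintro ⟨y, hy⟩
      exact ⟨y, by rw [hy]; exact sq y⟩
  have htwo : ∀ v : Additive (A ⧸ R), 2 • v = 0 := by
    intro v
    obtain ⟨x, hx⟩ := QuotientGroup.mk_surjective (Additive.toMul v)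
    have h1 : (Additive.toMul v) ^ 2 = 1 := by
      rw [← hx, ← QuotientGroup.mk_pow, QuotientGroup.eq_one_iff]
      exact ⟨x, rfl⟩
    exact h1
  letI : Module (ZMod 2) (Additive (A ⧸ R)) := AddCommGroup.zmodModule htwo
  have hfin : Finite (Additive (A ⧸ R)) := by
    have h1 := hB ∅ (Finset.empty_subset _) ⊤ (fun x => by simp)
    have h2 : ((⊤ : Subgroup A).map (powMonoidHom 2)) = R := (MonoidHom.range_eq_map _).symm
    rw [h2, Subgroup.relIndex_top_right] at h1
    have h3 : R.index ≠ 0 := by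
      rw [h1]
      positivity
    have h5 : R.FiniteIndex := ⟨h3⟩
    have h4 : Finite (A ⧸ R) := Subgroup.finite_quotient_of_finiteIndex
    exact h4
  have hmap : ∀ s, R ≤ R.comap (e s) := by
    rintro s _ ⟨y, rfl⟩
    exact ⟨e s y, (map_pow (e s) y 2).symm⟩
  let π : A →* Multiplicative (Additive (A ⧸ R)) :=
    { toFun := fun x => Multiplicative.ofAdd (Additive.ofMul (QuotientGroup.mk x))
      map_one' := rfl
      map_mul' := fun x y => rfl }
  refine core_E4 hA2 S e n d hn he hc hB (Additive (A ⧸ R)) π ?_ ?_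
    (fun s => AddMonoidHom.toZModLinearMap 2 (MonoidHom.toAdditive (QuotientGroup.map R R (e s) (hmap s)))) ?_
  · intro v
    obtain ⟨x, hx⟩ := QuotientGroup.mk_surjective (Additive.toMul (Multiplicative.toAdd v))
    exact ⟨x, hx⟩
  · intro x
    rw [← hsq, ← QuotientGroup.eq_one_iff]
    exact Iff.rfl
  · intro s x
    rfl

end Pool.TW
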