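import Pool.Agent.Helper34.TW.StE

set_option autoImplicit false

open scoped Pointwise NumberField
open NumberField Polynomial IsDedekindDomain Pool.RG2

namespace Pool.TW

/-! ### A sign function on units at `P` -/

private lemma unitAt_neg_E6 {P : Ideal Zb} {u : Qb} (h : UnitAt P u) : UnitAt P (-u) := by
  obtain ⟨a, b, ha, hb, hab⟩ := h
  refine ⟨-a, b, fun h' => ha ?_, hb, ?_⟩
  · have := P.neg_mem h'
    rwa [neg_neg] at this
  · rw [neg_mul, hab]
    push_cast
    rfl

private lemma coe_smul_E6 (g : GQ) (x : Zb) : ((g • x : Zb) : Qb) = g (x : Qb) := rfl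

private lemma sign_field_E6 (k : Type) [Field k] (h2 : (2 : k) ≠ 0) :
    ∃ ε : k → ZMod 2, ∀ z, z ≠ 0 → ε (-z) = ε z + 1 := by
  classical
  let R : k → k → Prop := WellOrderingRel
  refine ⟨fun z => if R z (-z) then 0 else 1, fun z hz => ?_⟩
  have hne : z ≠ -z := by
    intro h
    have h3 : (2 : k) * z = 0 := by
      rw [two_mul]
      nth_rewrite 2 [h]
      exact add_neg_cancel z
    rcases mul_eq_zero.1 h3 with h4 | h4
    · exact h2 h4
    · exact hz h4
  simp only [neg_neg]
  rcases trichotomous_of (WellOrderingRel : k → k → Prop) z (-z) with h | h | h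
  · have h' : ¬ R (-z) z := fun h'' => asymm_of (WellOrderingRel : k → k → Prop) h h''
    have h1 : R z (-z) := h
    rw [if_neg h', if_pos h1, zero_add]
  · exact absurd h hne
  · have h' : ¬ R z (-z) := fun h'' => asymm_of (WellOrderingRel : k → k → Prop) h h''
    have h1 : R (-z) z := h
    rw [if_pos h1, if_neg h']
    decide

private lemma exists_sign_E6 (P : Ideal Zb) (hP : P.IsMaximal) (h2 : (2 : Zb) ∉ P) :
    ∃ σ : Qb → ZMod 2, (∀ u, UnitAt P u → ∀ g ∈ Ine P, σ (g u) = σ u) ∧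
      ∀ u, UnitAt P u → σ (-u) = σ u + 1 := by
  classical
  let _ : Field (Zb ⧸ P) := Ideal.Quotient.field P
  obtain ⟨ε, hε⟩ := sign_field_E6 (Zb ⧸ P) (by
    intro h
    apply h2
    rw [← Ideal.Quotient.eq_zero_iff_mem]
    rw [map_ofNat]
    exact h)
  let ρ : Qb → Zb ⧸ P := fun u =>
    if h : UnitAt P u then Ideal.Quotient.mk P h.choose / Ideal.Quotient.mk P h.choose_spec.choose else 0
  have hmk : ∀ a : Zb, a ∉ P → (Ideal.Quotient.mk P a) ≠ 0 := fun a ha h =>
    ha (Ideal.Quotient.eq_zero_iff_mem.1 h)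
  have hρ : ∀ (u : Qb) (a b : Zb), a ∉ P → b ∉ P → u * (b : Qb) = a →
      ρ u = Ideal.Quotient.mk P a / Ideal.Quotient.mk P b := by
    intro u a b ha hb hab
    have h : UnitAt P u := ⟨a, b, ha, hb, hab⟩
    have h1 : ρ u = Ideal.Quotient.mk P h.choose / Ideal.Quotient.mk P h.choose_spec.choose :=
      dif_pos h
    rw [h1]
    obtain ⟨ha0, hb0, hab0⟩ := h.choose_spec.choose_spec
    have key : h.choose * b = a * h.choose_spec.choose := by
      apply NumberField.RingOfIntegers.coe_injective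
      rw [map_mul, map_mul]
      show ((h.choose : Zb) : Qb) * (b : Qb) = (a : Qb) * ((h.choose_spec.choose : Zb) : Qb)
      linear_combination ((h.choose_spec.choose : Zb) : Qb) * hab - (b : Qb) * hab0
    rw [div_eq_div_iff (hmk _ hb0) (hmk _ hb), ← map_mul, ← map_mul, key]
  refine ⟨fun u => ε (ρ u), ?_, ?_⟩
  · intro u hu g hg
    obtain ⟨a, b, ha, hb, hab⟩ := hu
    have hg' : ∀ x : Zb, g • x - x ∈ P := hg
    have hmkg : ∀ x : Zb, Ideal.Quotient.mk P (g • x) = Ideal.Quotient.mk P x := fun x =>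
      (Ideal.Quotient.mk_eq_mk_iff_sub_mem _ _).2 (hg' x)
    have hgn : ∀ x : Zb, x ∉ P → g • x ∉ P := by
      intro x hx h
      apply hx
      rw [← Ideal.Quotient.eq_zero_iff_mem, ← hmkg]
      exact Ideal.Quotient.eq_zero_iff_mem.2 h
    have h1 : (g u) * ((g • b : Zb) : Qb) = ((g • a : Zb) : Qb) := by
      rw [coe_smul_E6, coe_smul_E6, ← map_mul, hab]
    show ε (ρ (g u)) = ε (ρ u)
    rw [hρ (g u) (g • a) (g • b) (hgn a ha) (hgn b hb) h1, hρ u a b ha hb hab, hmkg, hmkg]
  · intro u hu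
    obtain ⟨a, b, ha, hb, hab⟩ := hu
    have h1 : (-u) * (b : Qb) = ((-a : Zb) : Qb) := by
      rw [neg_mul, hab]; push_cast; rfl
    have ha' : -a ∉ P := fun h => ha (by have := P.neg_mem h; rwa [neg_neg] at this)
    show ε (ρ (-u)) = ε (ρ u) + 1
    rw [hρ (-u) (-a) b ha' hb h1, hρ u a b ha hb hab, map_neg, neg_div]
    exact hε _ (div_ne_zero (hmk a ha) (hmk b hb))

private lemma unitAt_of_sq_E6 {P : Ideal Zb} (hP : P.IsMaximal) {u : Qb} (h : UnitAt P (u ^ 2)) :
    UnitAt P u := by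
  obtain ⟨a, b, ha, hb, hab⟩ := h
  have hprime := hP.isPrime
  -- `(u b)^2 = a b`
  have h1 : (u * (b : Qb)) ^ 2 = ((a * b : Zb) : Qb) := by
    show (u * (b : Qb)) ^ 2 = (a : Qb) * (b : Qb)
    linear_combination (b : Qb) * hab
  have hint : IsIntegral ℤ (u * (b : Qb)) := by
    apply IsIntegral.of_pow (n := 2) (by norm_num)
    rw [h1]
    exact NumberField.RingOfIntegers.isIntegral_coe _
  let t : Zb := ⟨u * (b : Qb), hint⟩
  have ht : (t : Qb) = u * (b : Qb) := rfl
  have ht2 : t ^ 2 = a * b := by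
    apply NumberField.RingOfIntegers.coe_injective
    rw [map_pow]
    exact h1
  refine ⟨t, b, fun h => ?_, hb, ht.symm⟩
  have h2 : a * b ∈ P := by
    rw [← ht2, pow_two]
    exact P.mul_mem_left _ h
  rcases hprime.mem_or_mem h2 with h3 | h3
  · exact ha h3
  · exact hb h3

/-! ### The Kummer cocycle -/

private lemma sg_add_E6 (hC2 : StC2) (a b : ZMod 2) : sg (a + b) = sg a * sg b := hC2.1 a b

private lemma sg_ne_E6 (hC2 : StC2) (a : ZMod 2) : sg a ≠ 0 := by
  intro h
  have := hC2.2.1 a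
  rw [h] at this
  norm_num at this

private lemma sg_inj_E6 (hC2 : StC2) {a b : ZMod 2} (h : sg a = sg b) : a = b := hC2.2.2.1 a b h

private lemma map_sg_E6 (g : GQ) (a : ZMod 2) : g (sg a) = sg a := by
  unfold sg
  split_ifs
  · exact map_one g
  · rw [map_neg, map_one]

open Classical in
/-- The sign cocycle. -/
private noncomputable def kap_E6 {X : Type} [MulAction GQ X] (b : X → Qb) (g : GQ) (x : X) : ZMod 2 :=
  if g (b (g⁻¹ • x)) = b x then 0 else 1

private lemma kap_spec_E6 {X : Type} [MulAction GQ X] (b : X → Qb)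
    (hb : ∀ (g : GQ) x, g (b x ^ 2) = b (g • x) ^ 2) (g : GQ) (x : X) :
    g (b (g⁻¹ • x)) = sg (kap_E6 b g x) * b x := by
  have h1 : (g (b (g⁻¹ • x))) ^ 2 = b x ^ 2 := by
    rw [← map_pow, hb, smul_inv_smul]
  unfold kap_E6 sg
  by_cases h : g (b (g⁻¹ • x)) = b x
  · rw [if_pos h, if_pos rfl, one_mul, h]
  · rw [if_neg h, if_neg (by decide : ¬ ((1 : ZMod 2) = 0)), neg_one_mul]
    exact (sq_eq_sq_iff_eq_or_eq_neg.1 h1).resolve_left h

private lemma isKum_E6 {X : Type} [MulAction GQ X] (b : X → Qb) (hne : ∀ x, b x ≠ 0)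
    (hb : ∀ (g : GQ) x, g (b x ^ 2) = b (g • x) ^ 2) : IsKum (kap_E6 b) b := by
  refine ⟨hne, fun g x => ?_⟩
  have := kap_spec_E6 b hb g (g • x)
  rwa [inv_smul_smul] at this

private lemma kap_mul_E6 (hC2 : StC2) {X : Type} [MulAction GQ X] (b : X → Qb) (hne : ∀ x, b x ≠ 0)
    (hb : ∀ (g : GQ) x, g (b x ^ 2) = b (g • x) ^ 2) (g h : GQ) (x : X) :
    kap_E6 b (g * h) x = kap_E6 b g x + kap_E6 b h (g⁻¹ • x) := by
  apply sg_inj_E6 hC2
  rw [sg_add_E6 hC2]
  apply mul_right_cancel₀ (hne x)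
  rw [← kap_spec_E6 b hb (g * h) x]
  rw [mul_inv_rev, mul_smul]
  have h1 := kap_spec_E6 b hb h (g⁻¹ • x)
  show g (h (b (h⁻¹ • g⁻¹ • x))) = _
  rw [h1, map_mul, map_sg_E6, kap_spec_E6 b hb g x]
  ring


private lemma sg_sum_E6 (hC2 : StC2) {ι : Type} (I : Finset ι) (a : ι → ZMod 2) :
    sg (∑ i ∈ I, a i) = ∏ i ∈ I, sg (a i) := by
  classical
  induction I using Finset.induction_on with
  | empty => simp [sg]
  | insert j I hj ih => rw [Finset.sum_insert hj, Finset.prod_insert hj, sg_add_E6 hC2, ih]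

/-- The kernel of the Kummer cocycle is open. -/
private lemma open_E6 {r : ℕ} (f : Fin r → ℤ[X]) {S : Finset (Fin r)} (b : Pt (RY f) S → Qb) :
    ∃ U : Subgroup GQ, IsOpen (U : Set GQ) ∧ ∀ u ∈ U, (∀ x : Pt (RY f) S, u⁻¹ • x = x) ∧ ∀ x, u (b x) = b x := by
  classical
  have hinst := Pool.RG.instAlg
  let A : Set Qb := Set.range b ∪ ⋃ s : S, (f s).rootSet Qb
  have hfin : A.Finite := by
    apply (Set.finite_range b).union
    exact Set.finite_iUnion fun s => Set.toFinite _
  let L : IntermediateField ℚ Qb := IntermediateField.adjoin ℚ A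
  have hL : FiniteDimensional ℚ L := by
    have : Finite A := hfin
    apply IntermediateField.finiteDimensional_adjoin
    intro x _
    exact Algebra.IsIntegral.isIntegral x
  refine ⟨L.fixingSubgroup, IntermediateField.fixingSubgroup_isOpen L, fun u hu => ?_⟩
  have hfix : ∀ y ∈ A, u y = y := fun y hy =>
    (IntermediateField.mem_fixingSubgroup_iff L u).1 hu y (IntermediateField.subset_adjoin ℚ A hy)
  refine ⟨fun x => ?_, fun x => hfix _ (Or.inl ⟨x, rfl⟩)⟩
  rw [inv_smul_eq_iff]
  funext s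
  apply Subtype.ext
  have h1 : u ((x s).1) = (x s).1 := hfix _ (Or.inr (Set.mem_iUnion.2 ⟨s, (x s).2⟩))
  exact h1.symm

private lemma act_eq_E6 {r : ℕ} (f : Fin r → ℤ[X]) {S : Finset (Fin r)} (g : GQ) (m : Pt (RY f) S → ZMod 2)
    (x : Pt (RY f) S) : act (RY f) g m x = m (g⁻¹ • x) := rfl

theorem hE6 : StE6 := by
  classical
  intro hA1 hC2 r f hf hcard Q S D F hF hsq
  have hodd : ∀ s, Odd (Fintype.card (RY f s)) := fun s => by
    show Odd (Fintype.card (Rt (f s)))
    rw [hcard]; exact hf.odd s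
  obtain ⟨act_add, act_one, act_mul, act_ev, act_pr, rest, -⟩ := hA1 GQ r (RY f) S
  obtain ⟨⟨p, p_ev, p_id, p_act, p_adj, p_cob⟩, -, -⟩ := rest hodd
  have hex : ∀ (i : Fin D) (x : Pt (RY f) S), ∃ z : Qb, z ^ 2 = (F i x : Qb) := fun i x =>
    IsAlgClosed.exists_pow_nat_eq _ (by norm_num)
  choose b hb using hex
  have hbne : ∀ i x, b i x ≠ 0 := by
    intro i x h
    have h1 := hb i x
    rw [h] at h1
    have h2 : (F i x : Qb) = 0 := by rw [← h1]; norm_num
    exact (F i x).ne_zero h2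
  have hbg : ∀ i (g : GQ) x, g (b i x ^ 2) = b i (g • x) ^ 2 := by
    intro i g x
    rw [hb, hb]
    exact (hF i).eqv g x
  let κ : Fin D → GQ → Pt (RY f) S → ZMod 2 := fun i => kap_E6 (b i)
  have κmul : ∀ i g h, κ i (g * h) = κ i g + act (RY f) g (κ i h) := by
    intro i g h
    funext x
    exact kap_mul_E6 hC2 (b i) (hbne i) (hbg i) g h x
  have κspec : ∀ i (g : GQ) x, g (b i (g⁻¹ • x)) = sg (κ i g x) * b i x := fun i g x =>
    kap_spec_E6 (b i) (hbg i) g x
  refine ⟨fun i g => p (κ i g), fun i => ⟨⟨⟨fun g => p_ev _, fun g h => ?_⟩, ?_⟩, ?_⟩, ?_⟩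
  · show p (κ i (g * h)) = p (κ i g) + act (RY f) g (p (κ i h))
    rw [κmul, map_add, p_act]
  · obtain ⟨U, hU, hU'⟩ := open_E6 f (b i)
    refine ⟨U, hU, fun u hu => ?_⟩
    obtain ⟨h1, h2⟩ := hU' u hu
    have h3 : κ i u = 0 := by
      funext x
      apply sg_inj_E6 hC2
      apply mul_right_cancel₀ (hbne i x)
      rw [← κspec i u x, h1, h2]
      simp [sg]
    show p (κ i u) = 0
    rw [h3, map_zero]
  · intro P hP h2 hQ
    obtain ⟨σ, hσ, hσ'⟩ := exists_sign_E6 P hP h2
    have hunit : ∀ x, UnitAt P (b i x) := by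
      intro x
      apply unitAt_of_sq_E6 hP
      rw [hb]
      exact (hF i).unit x P hP hQ
    have hσsg : ∀ (a : ZMod 2) (u : Qb), UnitAt P u → σ (sg a * u) = σ u + a := by
      intro a u hu
      unfold sg
      split_ifs with h
      · rw [one_mul, h, add_zero]
      · rw [neg_one_mul, hσ' u hu]
        congr 1
        revert h
        revert a
        decide
    let m0 : Pt (RY f) S → ZMod 2 := fun x => σ (b i x)
    refine ⟨p m0, p_ev _, fun g hg => ?_⟩
    have h3 : κ i g = act (RY f) g m0 - m0 := by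
      funext x
      have h4 := congrArg σ (κspec i g x)
      rw [hσ _ (hunit _) g hg, hσsg _ _ (hunit _)] at h4
      show κ i g x = σ (b i (g⁻¹ • x)) - σ (b i x)
      rw [h4]; ring
    show p (κ i g) = act (RY f) g (p m0) - p m0
    rw [h3, map_sub, p_act]
  · intro I hI
    obtain ⟨m, hm, hm'⟩ := hI
    let b' : Pt (RY f) S → Qb := fun x => ∏ i ∈ I, b i x
    have hb' : ∀ x, b' x ^ 2 = ((∏ i ∈ I, F i) x : Qb) := by
      intro x
      show (∏ i ∈ I, b i x) ^ 2 = _
      rw [← Finset.prod_pow, Finset.prod_apply]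
      rw [Units.coe_prod]
      exact Finset.prod_congr rfl fun i _ => hb i x
    have hb'ne : ∀ x, b' x ≠ 0 := fun x => Finset.prod_ne_zero_iff.2 fun i _ => hbne i x
    have hb'g : ∀ (g : GQ) x, g (b' x ^ 2) = b' (g • x) ^ 2 := by
      intro g x
      show g ((∏ i ∈ I, b i x) ^ 2) = (∏ i ∈ I, b i (g • x)) ^ 2
      rw [← Finset.prod_pow, ← Finset.prod_pow, map_prod]
      exact Finset.prod_congr rfl fun i _ => hbg i g x
    have κ' : ∀ g, kap_E6 b' g = ∑ i ∈ I, κ i g := by
      intro g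
      funext x
      apply sg_inj_E6 hC2
      apply mul_right_cancel₀ (hb'ne x)
      rw [← kap_spec_E6 b' hb'g g x, Finset.sum_apply, sg_sum_E6 hC2]
      show g (∏ i ∈ I, b i (g⁻¹ • x)) = (∏ i ∈ I, sg (κ i g x)) * ∏ i ∈ I, b i x
      rw [map_prod, ← Finset.prod_mul_distrib]
      exact Finset.prod_congr rfl fun i _ => κspec i g x
    -- partial sums
    have hps : ∀ s : S, ∃ n : Pt (RY f) S → ZMod 2, ∀ g, ps (RY f) s (kap_E6 b' g) = act (RY f) g n - n := by
      intro s
      choose G hG hG' using fun i => hsq i s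
      let H : Pt (RY f) S → Qb := fun x => ∏ i ∈ I, (G i x : Qb)
      have hHne : ∀ x, H x ≠ 0 := fun x => Finset.prod_ne_zero_iff.2 fun i _ => (G i x).ne_zero
      have hHg : ∀ (g : GQ) x, g (H x) = H (g • x) := by
        intro g x
        show g (∏ i ∈ I, (G i x : Qb)) = ∏ i ∈ I, (G i (g • x) : Qb)
        rw [map_prod]
        exact Finset.prod_congr rfl fun i _ => (hG i).eqv g x
      let B : Pt (RY f) S → Qb := fun x => ∏ y : Rt (f s), b' (Function.update x s y)
      have hB : ∀ x, B x ^ 2 = H x ^ 2 := by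
        intro x
        show (∏ y : Rt (f s), b' (Function.update x s y)) ^ 2 = (∏ i ∈ I, (G i x : Qb)) ^ 2
        rw [← Finset.prod_pow, ← Finset.prod_pow]
        have h1 : ∀ y : Rt (f s), b' (Function.update x s y) ^ 2 =
            ∏ i ∈ I, (F i (Function.update x s y) : Qb) := by
          intro y
          rw [hb', Finset.prod_apply, Units.coe_prod]
        rw [Finset.prod_congr rfl fun y _ => h1 y, Finset.prod_comm]
        refine Finset.prod_congr rfl fun i _ => ?_
        have h2 := congrFun (hG' i) x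
        have h3 : ((es f s (F i) x : Qbˣ) : Qb) = ((G i ^ 2) x : Qbˣ) := by rw [h2]
        rw [show ((G i ^ 2) x) = (G i x) ^ 2 from rfl, Units.val_pow_eq_pow_val] at h3
        rw [← h3]
        show _ = (((∏ y : Rt (f s), F i (Function.update x s y)) : Qbˣ) : Qb)
        rw [Units.coe_prod]
      let n : Pt (RY f) S → ZMod 2 := fun x => if B x = H x then 0 else 1
      have hn : ∀ x, B x = sg (n x) * H x := by
        intro x
        show B x = sg (if B x = H x then 0 else 1) * H x
        by_cases h : B x = H x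
        · rw [if_pos h]; simp [sg, h]
        · rw [if_neg h]
          have h1 := (sq_eq_sq_iff_eq_or_eq_neg.1 (hB x)).resolve_left h
          simp [sg, h1]
      refine ⟨n, fun g => ?_⟩
      funext x
      have h1 : g (B (g⁻¹ • x)) = sg (ps (RY f) s (kap_E6 b' g) x) * B x := by
        show g (∏ y : Rt (f s), b' (Function.update (g⁻¹ • x) s y)) =
          sg (∑ y : Rt (f s), kap_E6 b' g (Function.update x s y)) * ∏ y : Rt (f s), b' (Function.update x s y)
        rw [map_prod, sg_sum_E6 hC2, ← Finset.prod_mul_distrib]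
        have h2 : ∀ y : Rt (f s), g (b' (g⁻¹ • Function.update x s y)) =
            sg (kap_E6 b' g (Function.update x s y)) * b' (Function.update x s y) := fun y =>
          kap_spec_E6 b' hb'g g _
        rw [← Finset.prod_congr rfl fun y _ => h2 y]
        refine Fintype.prod_equiv (MulAction.toPerm g) _ _ fun y => ?_
        congr 2
        funext t
        show Function.update (g⁻¹ • x) s y t = g⁻¹ • (Function.update x s (g • y) t)
        by_cases h : t = s
        · subst h
          rw [Function.update_self, Function.update_self, inv_smul_smul]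
        · rw [Function.update_of_ne h, Function.update_of_ne h]
          rfl
      have h2 : g (B (g⁻¹ • x)) = sg (n (g⁻¹ • x)) * (sg (n x) * B x) := by
        rw [hn (g⁻¹ • x), map_mul, map_sg_E6, hHg, smul_inv_smul, hn x, ← mul_assoc (sg (n x)), ← pow_two,
          hC2.2.1, one_mul]
      have hBne : B x ≠ 0 := Finset.prod_ne_zero_iff.2 fun y _ => hb'ne _
      apply sg_inj_E6 hC2
      apply mul_right_cancel₀ hBne
      rw [← h1, h2, Pi.sub_apply, ← mul_assoc, ← sg_add_E6 hC2]
      congr 2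
      show n (g⁻¹ • x) + n x = n (g⁻¹ • x) - n x
      generalize n (g⁻¹ • x) = a1
      generalize n x = a2
      revert a1 a2
      decide
    obtain ⟨n', hn'⟩ := p_cob (kap_E6 b') hps
    have hkum := isKum_E6 b' hb'ne hb'g
    obtain ⟨-, -, hiff⟩ := hC2.2.2.2 _ (kap_E6 b') b' hkum
    have hcob : ∀ (g : GQ) x, kap_E6 b' g x = (m + n') (g⁻¹ • x) - (m + n') x := by
      intro g x
      have h1 := congrFun (hn' g) x
      have h2 : p (kap_E6 b' g) = act (RY f) g m - m := by
        rw [κ' g, map_sum, ← hm' g (Set.mem_univ _)]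
        rw [Finset.sum_apply]
      rw [h2] at h1
      rw [h1]
      simp only [Pi.add_apply, Pi.sub_apply, act_eq_E6]
      ring
    obtain ⟨h, hh, hh'⟩ := hiff.1 ⟨m + n', hcob⟩
    exact ⟨h, hh, fun x => by rw [← hb', hh']⟩

end Pool.TW

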