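import Pool.Agent.Helper34.TW.StE

/-!
# Project TW, module E7 (helper7): independent unit cocycles
-/

set_option autoImplicit false

open scoped Pointwise NumberField
open NumberField Polynomial IsDedekindDomain Pool.RG2

namespace Pool.TW

theorem unit_one_E7 (P : Ideal Zb) (hP : P.IsMaximal) : UnitAt P 1 := by
  refine ⟨1, 1, ?_, ?_, ?_⟩
  · exact fun h => hP.ne_top ((Ideal.eq_top_iff_one P).2 h)
  · exact fun h => hP.ne_top ((Ideal.eq_top_iff_one P).2 h)
  · simp

theorem mul_coe_E7 (a b : Zb) : ((a * b : Zb) : Qb) = (a : Qb) * (b : Qb) := rfl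

theorem unit_mul_E7 (P : Ideal Zb) (hP : P.IsMaximal) (u v : Qb) (hu : UnitAt P u) (hv : UnitAt P v) :
    UnitAt P (u * v) := by
  obtain ⟨a, b, ha, hb, h⟩ := hu
  obtain ⟨c, d, hc, hd, h'⟩ := hv
  refine ⟨a * c, b * d, ?_, ?_, ?_⟩
  · intro h1
    rcases hP.isPrime.mem_or_mem h1 with h1 | h1
    · exact ha h1
    · exact hc h1
  · intro h1
    rcases hP.isPrime.mem_or_mem h1 with h1 | h1
    · exact hb h1
    · exact hd h1
  · rw [mul_coe_E7, mul_coe_E7, ← h, ← h']
    ring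

theorem unit_sq_E7 (P : Ideal Zb) (hP : P.IsMaximal) (u : Qb) (hu : UnitAt P (u ^ 2)) : UnitAt P u := by
  obtain ⟨a, b, ha, hb, h⟩ := hu
  have h1 : (u * (b : Qb)) ^ 2 = ((a * b : Zb) : Qb) := by
    rw [mul_coe_E7, ← h]
    ring
  have h2 : IsIntegral ℤ (u * (b : Qb)) := by
    refine IsIntegral.of_pow (n := 2) (by norm_num) ?_
    rw [h1]
    exact (a * b).2
  refine ⟨⟨_, h2⟩, b, ?_, hb, rfl⟩
  intro h3
  have h4 : (⟨_, h2⟩ : Zb) ^ 2 = a * b := by
    ext
    exact h1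
  have h5 : a * b ∈ P := by
    rw [← h4]
    exact Ideal.pow_mem_of_mem P h3 2 (by norm_num)
  rcases hP.isPrime.mem_or_mem h5 with h6 | h6
  · exact ha h6
  · exact hb h6

theorem unit_prod_E7 {r : ℕ} (f : Fin r → ℤ[X]) {S : Finset (Fin r)} (Q : Finset ℕ) {D : ℕ}
    (F : Fin D → (Pt (RY f) S → Qbˣ)) (hF : ∀ i, IsEqU f Q (F i)) (I : Finset (Fin D)) (x : Pt (RY f) S)
    (P : Ideal Zb) (hP : P.IsMaximal) (hQ : ∀ q ∈ Q, (q : Zb) ∉ P) :
    UnitAt P ((∏ i ∈ I, F i) x : Qb) := by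
  classical
  induction I using Finset.induction_on with
  | empty =>
    rw [Finset.prod_empty]
    exact unit_one_E7 P hP
  | insert i I hi ih =>
    rw [Finset.prod_insert hi, Pi.mul_apply, Units.val_mul]
    exact unit_mul_E7 P hP _ _ ((hF i).unit x P hP hQ) ih

section cob

variable {r : ℕ} (f : Fin r → ℤ[X]) {S : Finset (Fin r)}

theorem act_add_E7 (g : GQ) (m m' : Pt (RY f) S → ZMod 2) :
    act (RY f) g (m + m') = act (RY f) g m + act (RY f) g m' := rfl

theorem coc_zero_E7 : IsCoc (RY f) (0 : GQ → Pt (RY f) S → ZMod 2) :=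
  { ev := fun _ => zero_mem _
    mul := fun g h => by
      funext x
      simp [act]
    lc := ⟨⊤, isOpen_univ, fun _ _ => rfl⟩ }

theorem coc_add_E7 {c c' : GQ → Pt (RY f) S → ZMod 2} (hc : IsCoc (RY f) c) (hc' : IsCoc (RY f) c') :
    IsCoc (RY f) (c + c') :=
  { ev := fun g => add_mem (hc.ev g) (hc'.ev g)
    mul := fun g h => by
      rw [Pi.add_apply, Pi.add_apply, Pi.add_apply, hc.mul, hc'.mul, act_add_E7]
      abel
    lc := by
      obtain ⟨U, hU, hU'⟩ := hc.lc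
      obtain ⟨V, hV, hV'⟩ := hc'.lc
      refine ⟨U ⊓ V, hU.inter hV, fun u hu => ?_⟩
      rw [Pi.add_apply, hU' u hu.1, hV' u hu.2, add_zero] }

theorem cob_zero_E7 (A : Set GQ) : CobOn (RY f) A (0 : GQ → Pt (RY f) S → ZMod 2) :=
  ⟨0, zero_mem _, fun g _ => by
    funext x
    simp [act]⟩

theorem cob_add_E7 (A : Set GQ) {c c' : GQ → Pt (RY f) S → ZMod 2} (hc : CobOn (RY f) A c)
    (hc' : CobOn (RY f) A c') : CobOn (RY f) A (c + c') := by
  obtain ⟨m, hm, h⟩ := hc
  obtain ⟨m', hm', h'⟩ := hc'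
  refine ⟨m + m', add_mem hm hm', fun g hg => ?_⟩
  rw [Pi.add_apply, h g hg, h' g hg, act_add_E7]
  abel

theorem unr_zero_E7 (Q : Finset ℕ) : Unr f Q (0 : GQ → Pt (RY f) S → ZMod 2) :=
  fun _ _ _ _ => cob_zero_E7 f _

theorem unr_add_E7 (Q : Finset ℕ) {c c' : GQ → Pt (RY f) S → ZMod 2} (hc : Unr f Q c)
    (hc' : Unr f Q c') : Unr f Q (c + c') :=
  fun P hP h2 hq => cob_add_E7 f _ (hc P hP h2 hq) (hc' P hP h2 hq)

end cob

theorem two_E7 (a : ZMod 2) : a = 0 ∨ a = 1 := by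
  revert a
  decide

theorem hE7 : StE7 := by
  classical
  intro hcard hE5 hA1 hC2 hE6 r f hf dt Q hQ S hS
  obtain ⟨F, hF, hes, hind⟩ := hE5 r f hf dt Q hQ S hS
  obtain ⟨c, hc, hcob⟩ := hE6 hA1 hC2 r f hf (hcard r f hf) Q S _ F hF hes
  have key : ∀ I : Finset (Fin (aN f S + ∑ q ∈ Q, fixq f S dt q)),
      CobOn (RY f) Set.univ (∑ i ∈ I, c i) → I = ∅ := by
    intro I hI
    obtain ⟨h, heq, hsq⟩ := hcob I hI
    have hne : ∀ x, h x ≠ 0 := by
      intro x hx
      have := hsq x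
      rw [hx, zero_pow (by norm_num)] at this
      exact ((∏ i ∈ I, F i) x).ne_zero this
    apply hind I
    refine ⟨fun x => Units.mk0 (h x) (hne x), ⟨fun g x => heq g x, ?_⟩, ?_⟩
    · intro x P hP hPQ
      have h1 := unit_prod_E7 f Q F hF I x P hP hPQ
      rw [hsq x] at h1
      exact unit_sq_E7 P hP _ h1
    · funext x
      apply Units.ext
      rw [hsq x]
      rfl
  have hsum : ∀ a : Fin (aN f S + ∑ q ∈ Q, fixq f S dt q) → ZMod 2,
      ∑ i, a i • c i = ∑ i ∈ Finset.univ.filter (fun i => a i = 1), c i := by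
    intro a
    rw [Finset.sum_filter]
    refine Finset.sum_congr rfl fun i _ => ?_
    rcases two_E7 (a i) with h | h
    · rw [h, zero_smul, if_neg (by decide)]
    · rw [h, one_smul, if_pos rfl]
  have hli : LinearIndependent (ZMod 2) c := by
    rw [Fintype.linearIndependent_iff]
    intro a ha i
    rw [hsum] at ha
    have h1 := key _ (by rw [ha]; exact cob_zero_E7 f _)
    rcases two_E7 (a i) with h | h
    · exact h
    · exfalso
      have : i ∈ Finset.univ.filter (fun i => a i = 1) := by simp [h]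
      rw [h1] at this
      exact absurd this (Finset.notMem_empty i)
  refine ⟨Submodule.span (ZMod 2) (Set.range c), ?_, ?_, ?_, ?_⟩
  · exact FiniteDimensional.span_of_finite (ZMod 2) (Set.finite_range c)
  · intro d hd
    induction hd using Submodule.span_induction with
    | mem x hx =>
      obtain ⟨i, rfl⟩ := hx
      exact hc i
    | zero => exact ⟨coc_zero_E7 f, unr_zero_E7 f Q⟩
    | add x y _ _ hx hy => exact ⟨coc_add_E7 f hx.1 hy.1, unr_add_E7 f Q hx.2 hy.2⟩
    | smul a x _ hx =>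
      rcases two_E7 a with h | h
      · rw [h, zero_smul]
        exact ⟨coc_zero_E7 f, unr_zero_E7 f Q⟩
      · rw [h, one_smul]
        exact hx
  · intro d hd hcobd
    obtain ⟨a, ha⟩ := (Submodule.mem_span_range_iff_exists_fun (ZMod 2)).1 hd
    rw [hsum] at ha
    have h1 := key _ (by rw [ha]; exact hcobd)
    rw [← ha, h1, Finset.sum_empty]
  · rw [finrank_span_eq_card hli, Fintype.card_fin]

end Pool.TW
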