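import Pool.Agent.Helper34.TW.StE

/-!
# Project TW, module E8: finiteness of the 2-Selmer group of a number field
-/

set_option autoImplicit false

open scoped Pointwise NumberField nonZeroDivisors
open NumberField Polynomial IsDedekindDomain Pool.RG2

namespace Pool.TW

/-- the units modulo squares are finite -/
private theorem units_E8 (K : Type) [Field K] [NumberField K] :
    ∃ R : Finset (𝓞 K)ˣ, ∀ u : (𝓞 K)ˣ, ∃ r ∈ R, ∃ w : (𝓞 K)ˣ, u = r * w ^ 2 := by
  classical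
  have : Fintype (NumberField.Units.torsion K) := Fintype.ofFinite _
  refine ⟨Finset.univ.image (fun ζe : NumberField.Units.torsion K ×
    (Fin (NumberField.Units.rank K) → Fin 2) =>
      (ζe.1 : (𝓞 K)ˣ) * ∏ i, (NumberField.Units.fundSystem K i) ^ ((ζe.2 i : ℕ))), fun u => ?_⟩
  obtain ⟨⟨ζ, e⟩, he, -⟩ := NumberField.Units.exist_unique_eq_mul_prod K u
  have hmod : ∀ i, (e i % 2).toNat < 2 := fun i => by
    have := Int.emod_lt_of_pos (e i) (by norm_num : (0:ℤ) < 2)
    have := Int.emod_nonneg (e i) (by norm_num : (2:ℤ) ≠ 0)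
    omega
  refine ⟨(ζ : (𝓞 K)ˣ) * ∏ i, (NumberField.Units.fundSystem K i) ^ ((e i % 2).toNat), ?_,
    ∏ i, (NumberField.Units.fundSystem K i) ^ (e i / 2), ?_⟩
  · rw [Finset.mem_image]
    exact ⟨(ζ, fun i => ⟨(e i % 2).toNat, hmod i⟩), Finset.mem_univ _, rfl⟩
  · rw [← Finset.prod_pow, mul_assoc, ← Finset.prod_mul_distrib]
    rw [he]
    congr 1
    refine Finset.prod_congr rfl fun i _ => ?_
    have h1 : ((e i % 2).toNat : ℤ) = e i % 2 :=
      Int.toNat_of_nonneg (Int.emod_nonneg (e i) (by norm_num))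
    rw [← zpow_natCast, h1, ← zpow_natCast, ← zpow_mul, ← zpow_add]
    congr 1
    push_cast
    have := Int.emod_add_mul_ediv (e i) 2
    linarith

/-- a square part of an ideal: `I = A B²` where `A` is the product of the primes with odd exponent -/
private theorem split_E8 (K : Type) [Field K] [NumberField K] (a : 𝓞 K) (ha : a ≠ 0)
    (hev : ∀ v : HeightOneSpectrum (𝓞 K), (2 : 𝓞 K) ∉ v.asIdeal → om v (a : K) = 0) :
    ∃ A B : Ideal (𝓞 K), A ∣ Ideal.span {(2 : 𝓞 K)} ∧ B ≠ 0 ∧ Ideal.span {a} = A * B ^ 2 := by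
  classical
  set I : Ideal (𝓞 K) := Ideal.span {a} with hI
  have hI0 : I ≠ ⊥ := by
    rw [hI, Ne, Ideal.span_singleton_eq_bot]
    exact ha
  set F := UniqueFactorizationMonoid.normalizedFactors I with hF
  have hprime : ∀ p ∈ F.toFinset, Prime p := fun p hp =>
    UniqueFactorizationMonoid.prime_of_normalized_factor p (Multiset.mem_toFinset.1 hp)
  refine ⟨∏ p ∈ F.toFinset, p ^ (F.count p % 2), ∏ p ∈ F.toFinset, p ^ (F.count p / 2), ?_, ?_, ?_⟩
  · -- the primes with odd exponent divide 2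
    have h1 : ∏ p ∈ F.toFinset, p ^ (F.count p % 2) =
        ∏ p ∈ F.toFinset.filter (fun p => F.count p % 2 = 1), p := by
      rw [Finset.prod_filter]
      refine Finset.prod_congr rfl fun p _ => ?_
      rcases Nat.mod_two_eq_zero_or_one (F.count p) with h | h
      · rw [h]; simp
      · rw [h]; simp
    rw [h1]
    refine Finset.prod_primes_dvd _ (fun p hp => hprime p (Finset.mem_filter.1 hp).1) ?_
    intro p hp
    rw [Finset.mem_filter] at hp
    have hpp := hprime p hp.1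
    have hp0 : p ≠ ⊥ := hpp.ne_zero
    have hpi : p.IsPrime := Ideal.isPrime_of_prime hpp
    rw [Ideal.dvd_span_singleton]
    by_contra h2
    have h3 := hev ⟨p, hpi, hp0⟩ h2
    have h4 : IsSquare ((⟨p, hpi, hp0⟩ : HeightOneSpectrum (𝓞 K)).valuation K (a : K)) := by
      unfold om at h3
      by_contra h5
      rw [if_neg h5] at h3
      exact one_ne_zero h3
    rw [show ((a : 𝓞 K) : K) = algebraMap (𝓞 K) K a from rfl,
      HeightOneSpectrum.valuation_of_algebraMap, HeightOneSpectrum.intValuation_if_neg _ ha] at h4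
    obtain ⟨t, ht⟩ := h4
    have ht0 : t ≠ 0 := by
      rintro rfl
      rw [mul_zero] at ht
      exact WithZero.exp_ne_zero ht
    have h5 := congrArg WithZero.log ht
    rw [WithZero.log_exp, WithZero.log_mul ht0 ht0] at h5
    have h6 : (Associates.mk p).count (Associates.mk (Ideal.span {a} : Ideal (𝓞 K))).factors =
        F.count p := Ideal.count_associates_factors_eq hI0 hpi hp0
    have h7 : (((Associates.mk p).count (Associates.mk (Ideal.span {a} : Ideal (𝓞 K))).factors : ℕ) : ℤ)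
        = ((F.count p : ℕ) : ℤ) := by rw [h6]
    have h8 : (-(((Associates.mk p).count
        (Associates.mk (Ideal.span {a} : Ideal (𝓞 K))).factors : ℕ) : ℤ)) =
        WithZero.log t + WithZero.log t := h5
    rw [h7] at h8
    have := hp.2
    omega
  · rw [Finset.prod_ne_zero_iff]
    intro p hp
    exact pow_ne_zero _ (hprime p hp).ne_zero
  · rw [← Finset.prod_pow, ← Finset.prod_mul_distrib]
    have h1 : F.prod = I := Ideal.prod_normalizedFactors_eq_self hI0
    rw [Finset.prod_multiset_count] at h1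
    refine h1.symm.trans (Finset.prod_congr rfl fun p _ => ?_)
    rw [← pow_mul, ← pow_add]
    congr 1
    have := Nat.mod_add_div (F.count p) 2
    omega

private theorem om_sq_E8 (K : Type) [Field K] [NumberField K] (v : HeightOneSpectrum (𝓞 K))
    (z y : K) (h : om v z = 0) : om v (z * y ^ 2) = 0 := by
  unfold om at h ⊢
  have h1 : IsSquare (v.valuation K z) := by
    by_contra h5
    rw [if_neg h5] at h
    exact one_ne_zero h
  rw [if_pos]
  rw [map_mul, map_pow]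
  exact h1.mul (IsSquare.sq _)

theorem hE8 : StE8 := by
  classical
  intro K _ _
  obtain ⟨R, hR⟩ := units_E8 K
  -- the divisors of 2
  have h20 : Ideal.span {(2 : 𝓞 K)} ≠ 0 := by
    rw [Ideal.zero_eq_bot, Ne, Ideal.span_singleton_eq_bot]
    exact two_ne_zero
  let D : Type := {A : Ideal (𝓞 K) // A ∣ Ideal.span {(2 : 𝓞 K)}}
  have : Fintype D := UniqueFactorizationMonoid.fintypeSubtypeDvd _ h20
  -- the reference elements
  let Pr : D → ClassGroup (𝓞 K) → 𝓞 K → Prop := fun A c a =>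
    a ≠ 0 ∧ ∃ B : (Ideal (𝓞 K))⁰, ClassGroup.mk0 B = c ∧ Ideal.span {a} = A.1 * (B : Ideal (𝓞 K)) ^ 2
  let ref : D → ClassGroup (𝓞 K) → 𝓞 K := fun A c =>
    if h : ∃ a, Pr A c a then h.choose else 0
  have href : ∀ A c, (∃ a, Pr A c a) → Pr A c (ref A c) := by
    intro A c h
    simp only [ref, dif_pos h]
    exact h.choose_spec
  refine ⟨(Finset.univ ×ˢ (Finset.univ ×ˢ R)).image
    (fun t : D × (ClassGroup (𝓞 K) × (𝓞 K)ˣ) =>
      ((ref t.1 t.2.1 : 𝓞 K) : K) * (((t.2.2 : (𝓞 K)ˣ) : 𝓞 K) : K)), ?_⟩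
  intro z hz hev
  -- integral representative
  obtain ⟨a, b, hb, hab⟩ := IsFractionRing.div_surjective (A := 𝓞 K) z
  have hb0 : b ≠ 0 := nonZeroDivisors.ne_zero hb
  have hbK : (algebraMap (𝓞 K) K b) ≠ 0 := by
    rw [Ne, map_eq_zero_iff _ (IsFractionRing.injective (𝓞 K) K)]
    exact hb0
  have hzab : ((a * b : 𝓞 K) : K) = z * (algebraMap (𝓞 K) K b) ^ 2 := by
    rw [← hab, show (((a * b : 𝓞 K)) : K) = algebraMap (𝓞 K) K (a * b) from rfl, map_mul]
    field_simp
  have hab0 : a * b ≠ 0 := by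
    intro h
    rw [h] at hzab
    have h1 : (0 : K) = z * (algebraMap (𝓞 K) K b) ^ 2 := by
      rw [← hzab]; exact (map_zero (algebraMap (𝓞 K) K)).symm
    exact mul_ne_zero hz (pow_ne_zero 2 hbK) h1.symm
  obtain ⟨A, B, hA, hB, hAB⟩ := split_E8 K (a * b) hab0 (by
    intro v hv
    rw [hzab]
    exact om_sq_E8 K v z _ (hev v hv))
  have hB' : B ∈ (Ideal (𝓞 K))⁰ := mem_nonZeroDivisors_of_ne_zero hB
  have hex : ∃ a, Pr ⟨A, hA⟩ (ClassGroup.mk0 ⟨B, hB'⟩) a := ⟨a * b, hab0, ⟨B, hB'⟩, rfl, hAB⟩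
  obtain ⟨hr0, B₀, hB₀, hrB⟩ := href _ _ hex
  set ρ : 𝓞 K := ref ⟨A, hA⟩ (ClassGroup.mk0 ⟨B, hB'⟩) with hρ
  rw [ClassGroup.mk0_eq_mk0_iff] at hB₀
  obtain ⟨x, y, hx, hy, hxy⟩ := hB₀
  -- compare
  have hcmp : Ideal.span {y ^ 2 * (a * b)} = Ideal.span {x ^ 2 * ρ} := by
    have e1 : Ideal.span {y ^ 2 * (a * b)} = Ideal.span {y} ^ 2 * Ideal.span {a * b} := by
      rw [Ideal.span_singleton_pow, Ideal.span_singleton_mul_span_singleton]
    have e2 : Ideal.span {x ^ 2 * ρ} = Ideal.span {x} ^ 2 * Ideal.span {ρ} := by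
      rw [Ideal.span_singleton_pow, Ideal.span_singleton_mul_span_singleton]
    rw [e1, e2, hAB, hrB]
    have h1 : Ideal.span {y} ^ 2 * (A * B ^ 2) = A * (Ideal.span {y} * B) ^ 2 := by ring
    have h2 : Ideal.span {x} ^ 2 * (A * (B₀ : Ideal (𝓞 K)) ^ 2) =
      A * (Ideal.span {x} * (B₀ : Ideal (𝓞 K))) ^ 2 := by ring
    rw [h1]
    refine Eq.trans ?_ h2.symm
    rw [hxy]
  rw [Ideal.span_singleton_eq_span_singleton] at hcmp
  obtain ⟨u, hu⟩ := hcmp.symm
  obtain ⟨r, hr, w, huw⟩ := hR u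
  refine ⟨((ρ : 𝓞 K) : K) * (((r : (𝓞 K)ˣ) : 𝓞 K) : K), ?_,
    algebraMap (𝓞 K) K x * algebraMap (𝓞 K) K (w : 𝓞 K) /
      (algebraMap (𝓞 K) K y * algebraMap (𝓞 K) K b), ?_, ?_⟩
  · rw [Finset.mem_image]
    refine ⟨(⟨A, hA⟩, (ClassGroup.mk0 ⟨B, hB'⟩, r)), ?_, rfl⟩
    simp only [Finset.mem_product, Finset.mem_univ, true_and]
    exact hr
  · have inj := IsFractionRing.injective (𝓞 K) K
    refine div_ne_zero (mul_ne_zero ?_ ?_) (mul_ne_zero ?_ hbK)
    · rw [Ne, map_eq_zero_iff _ inj]; exact hx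
    · rw [Ne, map_eq_zero_iff _ inj]; exact w.ne_zero
    · rw [Ne, map_eq_zero_iff _ inj]; exact hy
  · have hyK : (algebraMap (𝓞 K) K y) ≠ 0 := by
      rw [Ne, map_eq_zero_iff _ (IsFractionRing.injective (𝓞 K) K)]; exact hy
    have h1 := congrArg (algebraMap (𝓞 K) K) hu
    rw [huw] at h1
    simp only [Units.val_mul, Units.val_pow_eq_pow_val, map_mul, map_pow] at h1
    have h2 : algebraMap (𝓞 K) K a * algebraMap (𝓞 K) K b = z * (algebraMap (𝓞 K) K b) ^ 2 := by
      rw [← hzab, ← map_mul]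
    have h3 : z * ((algebraMap (𝓞 K) K y) ^ 2 * (algebraMap (𝓞 K) K b) ^ 2) =
        (algebraMap (𝓞 K) K x) ^ 2 * algebraMap (𝓞 K) K ρ *
          (algebraMap (𝓞 K) K (r : 𝓞 K) * (algebraMap (𝓞 K) K (w : 𝓞 K)) ^ 2) := by
      rw [h1, h2]
      ring
    show z = (algebraMap (𝓞 K) K ρ * algebraMap (𝓞 K) K (r : 𝓞 K)) *
      (algebraMap (𝓞 K) K x * algebraMap (𝓞 K) K (w : 𝓞 K) /
      (algebraMap (𝓞 K) K y * algebraMap (𝓞 K) K b)) ^ 2
    field_simp
    linear_combination h3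

end Pool.TW
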