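import Pool.Agent.Helper34.TW.StE

/-!
# Project TW, module E9: finiteness of the group of everywhere unramified classes
-/

set_option autoImplicit false

open scoped Pointwise NumberField
open NumberField Polynomial IsDedekindDomain Pool.RG2

namespace Pool.TW

private theorem neg_E9 (a b : ZMod 2) : a - b = a + b := by
  rw [CharTwo.sub_eq_add]

theorem hE9 : StE9 := by
  classical
  intro hcard A1 C0 C1 C2 C4 E8 r f hf S hS
  obtain ⟨_, _, hC2⟩ := C2
  obtain ⟨_, hC2⟩ := hC2
  -- a point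
  have hne : ∀ s : S, Nonempty (Rt (f s)) := by
    intro s
    apply Fintype.card_pos_iff.1
    rw [hcard r f hf s]
    have := hf.three s
    omega
  let θ : Pt (RY f) S := fun s => Classical.choice (hne s)
  obtain ⟨htr, hθ⟩ := C0 r f hf S
  obtain ⟨hfix, hopen, _, hmem⟩ := hθ θ
  have hop : ∀ x : Pt (RY f) S, IsOpen {g : GQ | g • x = x} := fun x => ((hθ x).2.1)
  obtain ⟨Z, hZ⟩ := E8 (KS f θ)
  -- the relation
  let R : (GQ → Pt (RY f) S → ZMod 2) → KS f θ → Prop := fun c z₀ =>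
    IsCoc (RY f) c ∧ ∃ b : Pt (RY f) S → Qb, IsKum c b ∧ ∃ y : KS f θ, b θ ^ 2 = (z₀ : Qb) * (y : Qb) ^ 2
  have hR : ∀ c, IsCoc (RY f) c → Unr f ∅ c → ∃ z₀ ∈ Z, R c z₀ := by
    intro c hc hu
    have hX : XCoc c := by
      refine ⟨?_, ?_⟩
      · intro g h x
        rw [hc.mul g h]
        rfl
      · obtain ⟨U, hU, h0⟩ := hc.lc
        exact ⟨U, hU, fun u hu x => by rw [h0 u hu]; rfl⟩
    obtain ⟨b, hb⟩ := C1 (Pt (RY f) S) htr hop c hX
    obtain ⟨z, hz, _⟩ := hmem (fun x => b x ^ 2) (hC2 _ c b hb).1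
    have hz : (z : Qb) = b θ ^ 2 := hz
    have hz0 : z ≠ 0 := by
      intro h
      rw [h] at hz
      exact pow_ne_zero 2 (hb.ne θ) (by simpa using hz.symm)
    have hom : ∀ v : HeightOneSpectrum (𝓞 (KS f θ)), (2 : 𝓞 (KS f θ)) ∉ v.asIdeal → om v z = 0 := by
      intro v hv
      refine C4 (KS f θ) ∅ (b θ) z hz0 hz ?_ v hv (by simp)
      rintro P ⟨hP1, hP2, _⟩ g hg
      obtain ⟨m, _, hm⟩ := hu P hP1 hP2 (by simp)
      have hgθ : g • θ = θ := (hfix g).2 hg.1
      have h1 := hb.eq g θ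
      rw [hgθ] at h1
      have h2 : c g θ = 0 := by
        rw [hm g hg.2]
        have h3 : g⁻¹ • θ = θ := by
          rw [inv_smul_eq_iff]
          exact hgθ.symm
        simp only [Pi.sub_apply, act, h3, sub_self]
      rw [h2] at h1
      rw [h1]
      simp [sg]
    obtain ⟨z₀, hz₀, y, _, hy⟩ := hZ z hz0 hom
    refine ⟨z₀, hz₀, hc, b, hb, y, ?_⟩
    rw [← hz, hy]
    simp
  -- two cocycles with the same reference element
  have hodd : ∀ s, Odd (Fintype.card (RY f s)) := by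
    intro s
    have h := hcard r f hf s
    have h' : Fintype.card (RY f s) = (f s).natDegree := h
    rw [h']
    exact hf.odd s
  obtain ⟨_, _, _, _, _, A6, _⟩ := A1 GQ r (RY f) S
  obtain ⟨⟨p, hp1, hp2, hp3, _⟩, _⟩ := A6 hodd
  have hcob : ∀ c c' z₀, R c z₀ → R c' z₀ → CobOn (RY f) Set.univ (c - c') := by
    rintro c c' z₀ ⟨hc, b, hb, y, hy⟩ ⟨hc', b', hb', y', hy'⟩
    have hk := (hC2 _ c b hb).2.1 c' b' hb'
    have hiff := (hC2 _ _ _ hk).2.2
    let k : KS f θ := z₀ * y * y'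
    choose γ hγ using fun x => htr θ x
    have hwd : ∀ g g' : GQ, g • θ = g' • θ → g (k : Qb) = g' (k : Qb) := by
      intro g g' h
      have h1 : (g⁻¹ * g') • θ = θ := by
        rw [mul_smul, ← h, inv_smul_smul]
      have h2 := (hfix _).1 h1
      have h3 : (g⁻¹ * g') (k : Qb) = k := h2 ⟨(k : Qb), k.2⟩
      have h4 : g ((g⁻¹ * g') (k : Qb)) = g' (k : Qb) := by
        rw [← AlgEquiv.mul_apply, ← mul_assoc, mul_inv_cancel, one_mul]
      rw [← h4, h3]
    have hex : ∃ h : Pt (RY f) S → Qb, (∀ (g : GQ) x, g (h x) = h (g • x)) ∧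
        ∀ x, (b x * b' x) ^ 2 = h x ^ 2 := by
      refine ⟨fun x => γ x (k : Qb), ?_, ?_⟩
      · intro g x
        have : g (γ x (k : Qb)) = (g * γ x) (k : Qb) := rfl
        rw [this]
        apply hwd
        rw [mul_smul, hγ, hγ]
      · intro x
        have h1 := (hC2 _ _ _ hk).1 (γ x) θ
        rw [hγ x] at h1
        rw [← h1, ← map_pow]
        congr 1
        rw [mul_pow, hy, hy']
        simp only [k]
        push_cast
        ring
    obtain ⟨m, hm⟩ := hiff.2 hex
    refine ⟨p m, hp1 m, ?_⟩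
    intro g _
    have h1 : c g + c' g = act (RY f) g m - m := by
      funext x
      exact hm g x
    have h2 : p (c g + c' g) = c g + c' g := by
      rw [map_add, hp2 _ (hc.ev g), hp2 _ (hc'.ev g)]
    have h3 : (c - c') g = c g + c' g := by
      funext x
      simp only [Pi.sub_apply, Pi.add_apply, neg_E9]
    rw [h3, ← h2, h1, map_sub, hp3]
  -- the space
  let pick : KS f θ → (GQ → Pt (RY f) S → ZMod 2) := fun z₀ =>
    if h : ∃ c, R c z₀ then h.choose else 0
  refine ⟨Submodule.span (ZMod 2) ((Z.image pick : Finset _) : Set _), ?_, ?_⟩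
  · exact Module.Finite.span_of_finite _ (Finset.finite_toSet _)
  · intro c hc hu
    obtain ⟨z₀, hz₀, hRc⟩ := hR c hc hu
    have hex : ∃ c, R c z₀ := ⟨c, hRc⟩
    refine ⟨pick z₀, Submodule.subset_span (Finset.mem_coe.2 (Finset.mem_image_of_mem pick hz₀)), ?_⟩
    have : pick z₀ = hex.choose := by
      simp only [pick]
      rw [dif_pos hex]
    rw [this]
    exact hcob _ _ z₀ hRc hex.choose_spec

end Pool.TW
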