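import Pool.Agent.Helper34.TW.StF
import Pool.Agent.Helper2.RG.M_LIFT
import Pool.Agent.Helper52.RG.M_PROF
import Pool.Agent.Helper54.DG.CaseC

/-!
# Project TW, module F1: no ramification if the inertia group acts trivially
-/

set_option autoImplicit false

open scoped Pointwise NumberField
open NumberField Polynomial IsDedekindDomain Pool.RG2

namespace Pool.TW

section

variable (F M : Type) [Field F] [NumberField F] [Field M] [NumberField M] [Algebra F M] [IsGalois ℚ M]

private theorem perfect_F1 (R : Type) [CommRing R] [IsDedekindDomain R] [Ring.HasFiniteQuotients R] (q : Ideal R) [q.IsMaximal] (h0 : q ≠ ⊥) : PerfectField q.ResidueField := by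
  have h1 : Finite (R ⧸ q) := Ring.HasFiniteQuotients.finiteQuotient h0
  have h2 : Finite q.ResidueField := Finite.of_surjective _ (Ideal.bijective_algebraMap_quotient_residueField q).2
  infer_instance

private theorem ram_F1 (P : Ideal (𝓞 M)) (hP : P.IsMaximal) (hP0 : P ≠ ⊥)
    (hI : ∀ g : Gal(M/ℚ), g ∈ P.inertia Gal(M/ℚ) → ∀ x : F, g (algebraMap F M x) = algebraMap F M x) :
    (P.under (𝓞 F)).ramificationIdx ℤ = 1 := by
  have hT : IsScalarTower ℚ F M := inferInstance
  have : IsGalois F M := IsGalois.tower_top_of_isGalois ℚ F M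
  have g1 : IsGaloisGroup Gal(M/ℚ) ℤ (𝓞 M) := IsGaloisGroup.of_isFractionRing Gal(M/ℚ) ℤ (𝓞 M) ℚ M
  have g2 : IsGaloisGroup Gal(M/F) (𝓞 F) (𝓞 M) := IsGaloisGroup.of_isFractionRing Gal(M/F) (𝓞 F) (𝓞 M) F M
  have hv0 : P.under (𝓞 F) ≠ ⊥ := fun h => hP0 (Ideal.eq_bot_of_comap_eq_bot h)
  have hz0 : P.under ℤ ≠ ⊥ := fun h => hP0 (Ideal.eq_bot_of_comap_eq_bot h)
  have hvm : (P.under (𝓞 F)).IsMaximal := Ideal.isMaximal_comap_of_isIntegral_of_isMaximal P
  have hzm : (P.under ℤ).IsMaximal := Ideal.isMaximal_comap_of_isIntegral_of_isMaximal P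
  have p1 := perfect_F1 _ (P.under (𝓞 F)) hv0
  have p2 := perfect_F1 _ (P.under ℤ) hz0
  have e1 := Ideal.card_inertia_eq_ramificationIdxIn (G := Gal(M/F)) (P.under (𝓞 F)) P
  have e2 := Ideal.card_inertia_eq_ramificationIdxIn (G := Gal(M/ℚ)) (P.under ℤ) P
  rw [Ideal.ramificationIdxIn_eq_ramificationIdx (P.under (𝓞 F)) P Gal(M/F)] at e1
  rw [Ideal.ramificationIdxIn_eq_ramificationIdx (P.under ℤ) P Gal(M/ℚ)] at e2
  have e3 : Nat.card (P.inertia Gal(M/ℚ)) = Nat.card (P.inertia Gal(M/F)) := by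
    refine Nat.card_congr ?_
    refine ⟨fun g => ⟨AlgEquiv.ofRingEquiv (f := (g.1 : M ≃ₐ[ℚ] M).toRingEquiv) (fun x => hI g.1 g.2 x), ?_⟩, fun g => ⟨(g.1 : M ≃ₐ[F] M).restrictScalars ℚ, ?_⟩, ?_, ?_⟩
    · intro x
      exact g.2 x
    · intro x
      exact g.2 x
    · intro g
      rfl
    · intro g
      rfl
  have e4 := Ideal.ramificationIdx_tower (R := ℤ) (P.under (𝓞 F)) P
  rw [← e1, ← e2, e3] at e4
  have e5 : 0 < Nat.card (P.inertia Gal(M/F)) := Nat.card_pos
  exact Nat.eq_of_mul_eq_mul_right e5 (by rw [one_mul]; exact e4.symm)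

end


theorem hF1 : StF1 := by
  intro F _ q hq P hP hqP hI v hv
  have hvq : (q : 𝓞 F) ∈ v.asIdeal := (hv _).mpr (by rw [map_natCast]; exact hqP)
  refine ⟨hvq, ?_⟩
  intro h3
  let M : Sub := IntermediateField.normalClosure ℚ F Qb
  have hFM : F ≤ M := F.le_normalClosure
  have i1 : FiniteDimensional ℚ M := normalClosure.is_finiteDimensional ℚ F Qb
  have i2 : Normal ℚ M := normalClosure.normal ℚ F Qb
  have i3 : NumberField M := ⟨⟩
  have i4 : IsGalois ℚ M := ⟨⟩
  let iA : Algebra F M := (IntermediateField.inclusion hFM).toAlgebra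
  have hcomp : ∀ x : 𝓞 F, algebraMap (𝓞 M) Zb (algebraMap (𝓞 F) (𝓞 M) x) = algebraMap (𝓞 F) Zb x := by
    intro x
    apply NumberField.RingOfIntegers.ext
    rfl
  let PM : Ideal (𝓞 M) := P.comap (algebraMap (𝓞 M) Zb)
  have hint : Algebra.IsIntegral (𝓞 M) Zb := Algebra.IsIntegral.tower_top ℤ
  have hPM : PM.IsMaximal := Ideal.isMaximal_comap_of_isIntegral_of_isMaximal P
  have hPq : (q : 𝓞 M) ∈ PM := by
    change algebraMap (𝓞 M) Zb (q : 𝓞 M) ∈ P
    rw [map_natCast]
    exact hqP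
  have hPM0 : PM ≠ ⊥ := by
    intro h
    rw [h, Ideal.mem_bot] at hPq
    exact hq.ne_zero (by exact_mod_cast hPq)
  have hst := Pool.Agent.Helper2.RG.tLift Pool.Agent.Helper52.RG.tProf
  have h1 := ram_F1 F M PM hPM hPM0 (by
    intro g hg x
    let t : GQ := g.liftNormal Qb
    have ht : ∀ y : M, t (y : Qb) = ((g y : M) : Qb) := fun y => AlgEquiv.liftNormal_commutes g Qb y
    obtain ⟨σ, hσ, hσ2⟩ := hst (⊥ : IntermediateField ℚ Qb) M bot_le (by
      intro a _ n hn
      have i5 : ∀ (b : GQ) (y : Qb), y ∈ M → b y ∈ M := by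
        intro b y hy
        have := (IntermediateField.normal_iff_forall_map_le' (K := M)).mp i2 b
        exact this ⟨y, hy, rfl⟩
      rw [Pool.RG.mem_GF] at hn ⊢
      intro y hy
      have e1 : n (a⁻¹ y) = a⁻¹ y := hn _ (i5 a⁻¹ y hy)
      calc (a * n * a⁻¹) y = a (n (a⁻¹ y)) := rfl
        _ = a (a⁻¹ y) := by rw [e1]
        _ = y := a.apply_symm_apply y) P hP t (by
        rw [Pool.RG.mem_GF]
        intro y hy
        obtain ⟨c, rfl⟩ := IntermediateField.mem_bot.mp hy
        exact t.commutes c) (by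
        intro y hy
        obtain ⟨z, hz⟩ := Pool.RG.CC.lift_int (F := M) y hy
        have h2 : t • y = algebraMap (𝓞 M) Zb (g • z) := by
          apply NumberField.RingOfIntegers.ext
          change t (y : Qb) = _
          rw [← hz]
          exact ht (z : M)
        rw [h2, ← hz, ← map_sub]
        exact hg z)
    have h3 : σ ∈ GF F := hI hσ.2
    have h4 : σ⁻¹ * t ∈ GF F := IntermediateField.fixingSubgroup_le hFM hσ2
    have h5 : t ∈ GF F := by
      have := (GF F).mul_mem h3 h4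
      rwa [mul_inv_cancel_left] at this
    apply Subtype.ext
    rw [← ht]
    exact (IntermediateField.mem_fixingSubgroup_iff F t).mp h5 _ x.2)
  have h2 : PM.under (𝓞 F) = v.asIdeal := by
    ext x
    rw [hv x, ← hcomp x]
    rfl
  rw [h2] at h1
  have h4 : v.asIdeal.LiesOver (Ideal.span {(q : ℤ)}) := by
    constructor
    have hm : (Ideal.span {(q : ℤ)}).IsMaximal :=
      PrincipalIdealRing.isMaximal_of_irreducible (Nat.prime_iff_prime_int.mp hq).irreducible
    refine hm.eq_of_le ?_ ?_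
    · intro h
      have h7 : (1 : ℤ) ∈ v.asIdeal.under ℤ := by rw [h]; trivial
      rw [Ideal.under_def, Ideal.mem_comap, map_one] at h7
      exact v.isPrime.ne_top ((Ideal.eq_top_iff_one _).mpr h7)
    · rw [Ideal.span_singleton_le_iff_mem, Ideal.under_def, Ideal.mem_comap]
      simpa using hvq
  have h5 : (Ideal.span {(q : ℤ)}).map (algebraMap ℤ (𝓞 F)) = Ideal.span {(q : 𝓞 F)} := by
    rw [Ideal.map_span, Set.image_singleton]
    simp
  have h6 : Ideal.span {(q : 𝓞 F)} ≠ ⊥ := by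
    rw [Ne, Ideal.span_singleton_eq_bot]
    exact_mod_cast hq.ne_zero
  rw [Ideal.IsDedekindDomain.ramificationIdx_eq_normalizedFactors_count (Ideal.span {(q : ℤ)}) v.asIdeal (by rw [h5]; exact h6), h5] at h1
  have h7 : v.asIdeal ^ 2 ∣ Ideal.span {(q : 𝓞 F)} := by
    rw [Ideal.dvd_span_singleton]
    exact h3
  have h8 : 2 ≤ (UniqueFactorizationMonoid.normalizedFactors (Ideal.span {(q : 𝓞 F)})).count v.asIdeal := by
    rw [Multiset.le_count_iff_replicate_le]
    have hp : Prime v.asIdeal := v.prime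
    have := (UniqueFactorizationMonoid.le_emultiplicity_iff_replicate_le_normalizedFactors hp.irreducible h6 (n := 2)).mp (pow_dvd_iff_le_emultiplicity.mp h7)
    rwa [normalize_eq] at this
  omega

end Pool.TW
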