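import Pool.Agent.Helper34.TW.StF
import Pool.Agent.Helper34.TW.M_C8
import Pool.Agent.Helper54.DG.CaseC

/-!
# Project TW, module F2: the homomorphisms of an inertia group to `ZMod 2`
-/

set_option autoImplicit false

open scoped Pointwise NumberField
open NumberField Polynomial IsDedekindDomain Pool.RG2

namespace Pool.TW

private theorem open_normal_F2 (U : Subgroup GQ) (hU : IsOpen (U : Set GQ)) :
    ∃ V : Subgroup GQ, V.Normal ∧ IsOpen (V : Set GQ) ∧ V ≤ U := by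
  have hfin : Finite (GQ ⧸ U) := Subgroup.quotient_finite_of_isOpen U hU
  have hfi : U.FiniteIndex := Subgroup.finiteIndex_of_finite_quotient
  have hc : IsClosed (U.normalCore : Set GQ) := U.normalCore_isClosed (U.isClosed_of_isOpen hU)
  exact ⟨U.normalCore, inferInstance, U.normalCore.isOpen_of_isClosed_of_finiteIndex hc,
    U.normalCore_le⟩

private theorem zmod2_F2 : ∀ x : ZMod 2, x ≠ 0 → x = 1 := by decide

private theorem sg_inj_F2 {a b : ZMod 2} {β : Qb} (hβ : β ≠ 0) (h : sg a * β = sg b * β) :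
    a = b := by
  have h1 : sg a = sg b := mul_right_cancel₀ hβ h
  unfold sg at h1
  by_cases ha : a = 0
  · by_cases hb : b = 0
    · rw [ha, hb]
    · rw [if_pos ha, if_neg hb] at h1
      exact absurd h1 (by norm_num)
  · by_cases hb : b = 0
    · rw [if_neg ha, if_pos hb] at h1
      exact absurd h1 (by norm_num)
    · rw [zmod2_F2 a ha, zmod2_F2 b hb]

/-- the Kummer element of a nonzero homomorphism -/
private theorem kum_F2 (P : Ideal Zb) (h : GQ → ZMod 2)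
    (hadd : ∀ a ∈ Ine P, ∀ b ∈ Ine P, h (a * b) = h a + h b)
    (U : Subgroup GQ) (hU : IsOpen (U : Set GQ)) (hUh : ∀ u ∈ U, u ∈ Ine P → h u = 0)
    (i₀ : GQ) (hi₀ : i₀ ∈ Ine P) (hi₀' : h i₀ = 1) :
    ∃ (F : Sub) (_ : NumberField F) (β : Qb) (z : F), Ine P ≤ GF F ∧ z ≠ 0 ∧ β ≠ 0 ∧
      β ^ 2 = (z : Qb) ∧ ∀ i ∈ Ine P, i β = sg (h i) * β := by
  obtain ⟨V, hVn, hVo, hVU⟩ := open_normal_F2 U hU
  have h1 : h 1 = 0 := by
    have := hadd 1 (Ine P).one_mem 1 (Ine P).one_mem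
    rw [mul_one] at this
    exact left_eq_add.mp this
  have hinv : ∀ a ∈ Ine P, h a⁻¹ = h a := by
    intro a ha
    have := hadd a ha a⁻¹ ((Ine P).inv_mem ha)
    rw [mul_inv_cancel, h1] at this
    have h2 : ∀ x y : ZMod 2, 0 = x + y → y = x := by decide
    exact h2 _ _ this
  let N₀ : Subgroup GQ :=
    { carrier := {i | i ∈ Ine P ∧ h i = 0}
      one_mem' := ⟨(Ine P).one_mem, h1⟩
      mul_mem' := fun {a b} ha hb => ⟨(Ine P).mul_mem ha.1 hb.1, by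
        rw [hadd a ha.1 b hb.1, ha.2, hb.2, add_zero]⟩
      inv_mem' := fun {a} ha => ⟨(Ine P).inv_mem ha.1, by rw [hinv a ha.1, ha.2]⟩ }
  have hN₀ : ∀ i, i ∈ N₀ ↔ i ∈ Ine P ∧ h i = 0 := fun _ => Iff.rfl
  set H : Subgroup GQ := Ine P ⊔ V with hH
  set N : Subgroup GQ := N₀ ⊔ V with hN
  have memH : ∀ g, g ∈ H ↔ ∃ i ∈ Ine P, ∃ u ∈ V, i * u = g := by
    intro g
    have := Subgroup.mul_normal (Ine P) V
    rw [← SetLike.mem_coe, hH, this, Set.mem_mul]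
    rfl
  have memN : ∀ g, g ∈ N ↔ ∃ i ∈ N₀, ∃ u ∈ V, i * u = g := by
    intro g
    have := Subgroup.mul_normal N₀ V
    rw [← SetLike.mem_coe, hN, this, Set.mem_mul]
    rfl
  have key : ∀ i ∈ Ine P, ∀ u ∈ V, (i * u ∈ N ↔ h i = 0) := by
    intro i hi u hu
    constructor
    · intro hm
      obtain ⟨i₁, hi₁, u₁, hu₁, he⟩ := (memN _).1 hm
      have e1 : i₁⁻¹ * i = u₁ * u⁻¹ := by
        rw [eq_mul_inv_iff_mul_eq, mul_assoc, inv_mul_eq_iff_eq_mul]
        exact he.symm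
      have hI : i₁⁻¹ * i ∈ Ine P := (Ine P).mul_mem ((Ine P).inv_mem hi₁.1) hi
      have h2 : h (i₁⁻¹ * i) = 0 := by
        refine hUh _ (hVU ?_) hI
        rw [e1]
        exact V.mul_mem hu₁ (V.inv_mem hu)
      have h3 := hadd i₁ hi₁.1 _ hI
      rw [mul_inv_cancel_left, hi₁.2, h2, add_zero] at h3
      exact h3
    · intro h0
      exact (memN _).2 ⟨i, ⟨hi, h0⟩, u, hu, rfl⟩
  have hNH : N ≤ H := sup_le_sup_right (fun i hi => hi.1) V
  have hNo : IsOpen (N : Set GQ) := Subgroup.isOpen_mono (le_sup_right : V ≤ N) hVo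
  have hHo : IsOpen (H : Set GQ) := Subgroup.isOpen_mono (le_sup_right : V ≤ H) hVo
  have hi₀H : i₀ ∈ H := (le_sup_left : Ine P ≤ H) hi₀
  have hrel : N.relIndex H = 2 := by
    refine Subgroup.index_eq_two_iff.2 ⟨⟨i₀, hi₀H⟩, ?_⟩
    rintro ⟨b, hb⟩
    obtain ⟨i, hi, u, hu, rfl⟩ := (memH b).1 hb
    rw [Subgroup.mem_subgroupOf, Subgroup.mem_subgroupOf]
    have e1 : i * u * i₀ = (i * i₀) * (i₀⁻¹ * u * i₀) := by group
    have hu' : i₀⁻¹ * u * i₀ ∈ V := by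
      have := hVn.conj_mem u hu i₀⁻¹
      rwa [inv_inv] at this
    have k1 : (i * u * i₀ ∈ N ↔ h (i * i₀) = 0) := by
      rw [e1]
      exact key _ ((Ine P).mul_mem hi hi₀) _ hu'
    have k2 := key i hi u hu
    rw [hadd i hi i₀ hi₀, hi₀'] at k1
    change Xor (i * u * i₀ ∈ N) (i * u ∈ N)
    rw [k1, k2]
    have h2 : ∀ x : ZMod 2, Xor (x + 1 = 0) (x = 0) := by decide
    exact h2 _
  set F : Sub := IntermediateField.fixedField H with hF
  have hGF : GF F = H := Pool.RG.CC.GF_fixed H hHo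
  have hfd : FiniteDimensional ℚ F := by
    rw [← InfiniteGalois.isOpen_iff_finite (k := ℚ) (K := Qb) F]
    have h2 : IsOpen ((GF F : Subgroup GQ) : Set GQ) := by rw [hGF]; exact hHo
    exact h2
  have hnf : NumberField F := { to_charZero := inferInstance, to_finiteDimensional := hfd }
  have hnorm : ∀ g ∈ GF F, ∀ n ∈ N, g * n * g⁻¹ ∈ N := by
    intro g hg n hn
    have hnn : (N.subgroupOf H).Normal := Subgroup.normal_of_index_eq_two hrel
    rw [hGF] at hg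
    have := hnn.conj_mem ⟨n, hNH hn⟩ (Subgroup.mem_subgroupOf.2 hn) ⟨g, hg⟩
    exact Subgroup.mem_subgroupOf.1 this
  have hNF : N ≤ GF F := by rw [hGF]; exact hNH
  have hrel' : N.relIndex (GF F) = 2 := by rw [hGF]; exact hrel
  obtain ⟨σ, β, hk⟩ := Pool.RG.CC.exists_kum F N hNF hnorm hNo hrel'
  obtain ⟨z, hz, hz0, -⟩ := Pool.RG.CC.exists_z hNF hrel' hk
  refine ⟨F, hnf, β, z, ?_, hz0, hk.ne, hz.symm, fun i hi => ?_⟩
  · rw [hGF]; exact le_sup_left
  · have k1 := key i hi 1 V.one_mem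
    rw [mul_one] at k1
    by_cases h0 : h i = 0
    · rw [hk.fix i (k1.2 h0), h0, sg, if_pos rfl, one_mul]
    · have hiN : i ∉ N := fun hm => h0 (k1.1 hm)
      have hiF : i ∈ GF F := by rw [hGF]; exact (le_sup_left : Ine P ≤ H) hi
      have hσi : σ⁻¹ * i ∈ N := by
        refine Pool.RG.CC.mul_mem_of_not F N hNF hrel' _ _ (inv_mem hk.sF) hiF ?_ hiN
        intro hm
        exact hk.sN (by simpa using inv_mem hm)
      have e1 : i β = σ ((σ⁻¹ * i) β) := by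
        rw [← AlgEquiv.mul_apply]
        congr 1
        group
      rw [e1, hk.fix _ hσi, hk.neg, sg, if_neg h0]
      ring

private theorem val_F2 (h1 : StF1) (q : ℕ) (hq : q.Prime) (hq2 : q ≠ 2) (dt : LocData q)
    (F : Sub) [NumberField F] (β : Qb) (z : F) (hI : Ine dt.P ≤ GF F) (hz : z ≠ 0)
    (hβ : β ^ 2 = (z : Qb)) :
    ∃ n : ZMod 2, ∀ i ∈ Ine dt.P, i dt.w = -dt.w → i β = sg n * β := by
  have hqF : (q : 𝓞 F) ≠ 0 := by exact_mod_cast hq.ne_zero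
  have hPp : dt.P.IsPrime := dt.hP.isPrime
  have hpr : (dt.P.comap (algebraMap (𝓞 F) Zb)).IsPrime := Ideal.comap_isPrime _ _
  have hmem : (q : 𝓞 F) ∈ dt.P.comap (algebraMap (𝓞 F) Zb) := by
    rw [Ideal.mem_comap, map_natCast]
    exact dt.hq
  let v : HeightOneSpectrum (𝓞 F) := ⟨dt.P.comap (algebraMap (𝓞 F) Zb), hpr, fun h => hqF (by
    rw [h] at hmem
    exact (Submodule.mem_bot _).1 hmem)⟩
  have hv : ∀ a : 𝓞 F, a ∈ v.asIdeal ↔ algebraMap (𝓞 F) Zb a ∈ dt.P := fun a => Iff.rfl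
  obtain ⟨hv1, hv2⟩ := h1 F q hq dt.P dt.hP dt.hq hI v hv
  refine ⟨om v z, fun i hi hiw => ?_⟩
  let dt' : LocData q := { dt with σ := i, hσ := hi, hσw := hiw }
  refine hC8 F q hq hq2 dt' 1 ?_ v ?_ hv1 hv2 z β hz ?_
  · intro x hx
    exact Pool.RG.CC.fixed_of_mem F x hx i (hI hi)
  · intro a
    rw [one_smul]
    exact hv a
  · exact hβ

theorem hF2 : StF2 := by
  intro h1 q hq hq2 dt h hadd hU a ha
  obtain ⟨U, hUo, hUh⟩ := hU
  have hw0 : dt.w ≠ 0 := by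
    intro h0
    have := dt.hw
    rw [h0] at this
    have h2 : (q : Qb) ≠ 0 := by exact_mod_cast hq.ne_zero
    exact h2 (by rw [← this]; ring)
  have hpm : a dt.w = dt.w ∨ a dt.w = -dt.w := by
    have h2 : (a dt.w) ^ 2 = dt.w ^ 2 := by
      rw [← map_pow, dt.hw, map_natCast]
    exact sq_eq_sq_iff_eq_or_eq_neg.1 h2
  -- the main claim
  have main : ∀ i ∈ Ine dt.P, i dt.w = -dt.w → h i = h dt.σ := by
    by_cases hz : ∀ i ∈ Ine dt.P, h i = 0
    · intro i hi _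
      rw [hz i hi, hz dt.σ dt.hσ]
    · push Not at hz
      obtain ⟨i₀, hi₀, hi₀'⟩ := hz
      obtain ⟨F, hnf, β, z, hI, hz0, hβ0, hβ, hsg⟩ :=
        kum_F2 dt.P h hadd U hUo hUh i₀ hi₀ (zmod2_F2 _ hi₀')
      obtain ⟨n, hn⟩ := val_F2 h1 q hq hq2 dt F β z hI hz0 hβ
      intro i hi hiw
      have e1 : h i = n := sg_inj_F2 hβ0 ((hsg i hi).symm.trans (hn i hi hiw))
      have e2 : h dt.σ = n :=
        sg_inj_F2 hβ0 ((hsg dt.σ dt.hσ).symm.trans (hn dt.σ dt.hσ dt.hσw))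
      rw [e1, e2]
  refine ⟨⟨hw0, hpm⟩, fun haw => ?_, fun haw => main a ha haw⟩
  have e1 : (a * dt.σ) dt.w = -dt.w := by
    rw [AlgEquiv.mul_apply, dt.hσw, map_neg, haw]
  have e2 := main (a * dt.σ) ((Ine dt.P).mul_mem ha dt.hσ) e1
  rw [hadd a ha dt.σ dt.hσ] at e2
  exact add_eq_right.1 e2

end Pool.TW
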