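import Pool.Agent.Helper34.TW.StF

/-!
# Project TW, module F3: a cyclic 2-group
-/

set_option autoImplicit false

namespace Pool.TW

/-- a subgroup of index two above a proper subgroup of a 2-group -/
private theorem exists_index_two_F3 {K : Type*} [Group K] [Finite K] (hp : IsPGroup 2 K)
    (Z : Subgroup K) (hZ : Z ≠ ⊤) : ∃ M : Subgroup K, Z ≤ M ∧ M.index = 2 := by
  haveI : Fact (Nat.Prime 2) := ⟨Nat.prime_two⟩
  obtain ⟨N, hN⟩ := (IsPGroup.iff_card).1 hp
  obtain ⟨n, hn⟩ := (IsPGroup.iff_card).1 (hp.to_subgroup Z)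
  have hlt : n < N := by
    have h1 : Nat.card Z < Nat.card K := by
      refine lt_of_le_of_ne (Nat.le_of_dvd Nat.card_pos (Subgroup.card_subgroup_dvd_card Z))
        (fun h => hZ ?_)
      exact Subgroup.eq_top_of_card_eq Z h
    rw [hN, hn] at h1
    exact (Nat.pow_lt_pow_iff_right (by norm_num)).1 h1
  obtain ⟨m, rfl⟩ : ∃ m, N = m + 1 := ⟨N - 1, by omega⟩
  obtain ⟨M, hM, hle⟩ := Sylow.exists_subgroup_card_pow_prime_le 2 (n := n) (m := m)
    (by rw [hN]; exact pow_dvd_pow 2 (Nat.le_succ m)) Z hn (by omega)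
  refine ⟨M, hle, ?_⟩
  have h1 := M.card_mul_index
  rw [hN, hM, pow_succ] at h1
  exact Nat.eq_of_mul_eq_mul_left (pow_pos (by norm_num) m) h1

theorem hF3 : StF3 := by
  classical
  intro I G _ _ _ f χ σ hχ hσ hs2 h2 hh
  set s : f.range := ⟨f σ, ⟨σ, rfl⟩⟩ with hs
  have hp : IsPGroup 2 f.range := by
    rintro ⟨_, a, rfl⟩
    obtain ⟨k, hk⟩ := h2 a
    exact ⟨k, Subtype.ext (by rw [Subgroup.coe_pow]; exact hk)⟩
  have hss : s * s = 1 := Subtype.ext (by rw [← sq]; exact hs2)
  have htop : Subgroup.zpowers s = ⊤ := by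
    by_contra hne
    obtain ⟨M, hle, hidx⟩ := exists_index_two_F3 hp _ hne
    have h0 : ∀ x y : f.range, (if x * y ∈ M then (0 : ZMod 2) else 1) =
        (if x ∈ M then (0 : ZMod 2) else 1) + (if y ∈ M then (0 : ZMod 2) else 1) := by
      intro x y
      have h1 := Subgroup.mul_mem_iff_of_index_two hidx (a := x) (b := y)
      by_cases hx : x ∈ M <;> by_cases hy : y ∈ M <;> simp only [hx, hy, h1, if_true, if_false,
        iff_true, iff_false, not_true_eq_false, not_false_eq_true] <;> decide
    have h1 := hh (fun x => if x ∈ M then 0 else 1) h0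
    have hsM : s ∈ M := hle (Subgroup.mem_zpowers s)
    have h3 : M = ⊤ := by
      rw [eq_top_iff]
      rintro ⟨_, a, rfl⟩ _
      have h4 := h1 a
      rw [if_pos hsM, mul_zero] at h4
      by_contra hn
      rw [if_neg hn] at h4
      exact absurd h4 (by decide)
    rw [h3, Subgroup.index_top] at hidx
    exact absurd hidx (by norm_num)
  have hall : ∀ x : f.range, x = 1 ∨ x = s := by
    intro x
    have hx : x ∈ Subgroup.zpowers s := by rw [htop]; trivial
    obtain ⟨n, rfl⟩ := Subgroup.mem_zpowers_iff.1 hx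
    rcases Int.even_or_odd' n with ⟨m, rfl | rfl⟩
    · left
      rw [zpow_mul, zpow_two, hss, one_zpow]
    · right
      rw [zpow_add, zpow_mul, zpow_two, hss, one_zpow, one_mul, zpow_one]
  intro a
  by_cases hs1 : f σ = 1
  · have ha : f a = 1 := by
      rcases hall ⟨f a, ⟨a, rfl⟩⟩ with h | h
      · exact congrArg Subtype.val h
      · exact (congrArg Subtype.val h).trans hs1
    exact ⟨fun _ => ha, fun _ => ha.trans hs1.symm⟩
  · have hs1' : s ≠ 1 := fun h => hs1 (congrArg Subtype.val h)
    have h0 : ∀ x y : f.range, (if x * y = 1 then (0 : ZMod 2) else 1) =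
        (if x = 1 then (0 : ZMod 2) else 1) + (if y = 1 then (0 : ZMod 2) else 1) := by
      intro x y
      rcases hall x with rfl | rfl <;> rcases hall y with rfl | rfl <;>
        simp only [one_mul, mul_one, hss, hs1', if_true, if_false] <;> decide
    have h1 := hh (fun x => if x = 1 then 0 else 1) h0 a
    rw [if_neg hs1', mul_one] at h1
    refine ⟨fun h => ?_, fun h => ?_⟩
    · rw [h] at h1
      by_contra hne
      rw [if_neg (fun h' => hne (congrArg Subtype.val h'))] at h1
      exact absurd h1 (by decide)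
    · rw [h] at h1
      rcases hall ⟨f a, ⟨a, rfl⟩⟩ with h' | h'
      · rw [if_pos h'] at h1
        exact absurd h1 (by decide)
      · exact congrArg Subtype.val h'

end Pool.TW
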