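import Pool.Agent.Helper34.TW.StF

/-!
# Project TW, module F4: tame cocycles
-/

set_option autoImplicit false

open scoped Pointwise NumberField Topology
open NumberField Polynomial IsDedekindDomain Pool.RG2

namespace Pool.TW

/-! ### Reduction modulo `2^k` -/

private theorem nhds_F4 (k : ℕ) : {y : ℤ_[2] | PadicInt.toZModPow (p := 2) k y = 0} ∈ 𝓝 (0 : ℤ_[2]) := by
  have hpos : (0 : ℝ) < ((2 : ℕ) : ℝ) ^ (-k : ℤ) := by positivity
  refine Filter.mem_of_superset (Metric.ball_mem_nhds (0 : ℤ_[2]) hpos) ?_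
  intro y hy
  rw [Metric.mem_ball, dist_zero_right] at hy
  have h1 := (PadicInt.norm_le_pow_iff_mem_span_pow y k).1 hy.le
  rw [← PadicInt.ker_toZModPow, RingHom.mem_ker] at h1
  exact h1

/-- The affine map modulo `2^k`. -/
noncomputable def aff_F4 {n : ℕ} (k : ℕ) (M : Matrix (Fin n) (Fin n) ℤ_[2]) (v : Fin n → ℤ_[2]) :
    Function.End (Fin n → ZMod (2 ^ k)) :=
  fun x => ((PadicInt.toZModPow (p := 2) k).mapMatrix M).mulVec x + fun i => PadicInt.toZModPow (p := 2) k (v i)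

private theorem red_mulVec_F4 {n : ℕ} (k : ℕ) (M : Matrix (Fin n) (Fin n) ℤ_[2]) (v : Fin n → ℤ_[2]) :
    (fun i => PadicInt.toZModPow (p := 2) k (M.mulVec v i)) =
      ((PadicInt.toZModPow (p := 2) k).mapMatrix M).mulVec (fun i => PadicInt.toZModPow (p := 2) k (v i)) := by
  funext i
  exact RingHom.map_mulVec _ _ _ i

/-- The homomorphism `F`. -/
noncomputable def hom_F4 {Γ : Type} [Group Γ] {n : ℕ} (k : ℕ) (ρ : Γ →* GL (Fin n) ℤ_[2]) (c : Γ → Fin n → ℤ_[2])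
    (hc1 : c 1 = 0) (hcoc : ∀ a b, c (a * b) = c a + (ρ a : Matrix (Fin n) (Fin n) ℤ_[2]).mulVec (c b)) :
    Γ →* Function.End (Fin n → ZMod (2 ^ k)) where
  toFun a := aff_F4 k (ρ a : Matrix (Fin n) (Fin n) ℤ_[2]) (c a)
  map_one' := by
    funext x
    show ((PadicInt.toZModPow (p := 2) k).mapMatrix ((ρ 1 : GL (Fin n) ℤ_[2]) : Matrix (Fin n) (Fin n) ℤ_[2])).mulVec x +
      (fun i => PadicInt.toZModPow (p := 2) k (c 1 i)) = x
    rw [map_one, Units.val_one, map_one, Matrix.one_mulVec, hc1]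
    funext i
    simp
  map_mul' a b := by
    funext x
    show ((PadicInt.toZModPow (p := 2) k).mapMatrix ((ρ (a * b) : GL (Fin n) ℤ_[2]) : Matrix (Fin n) (Fin n) ℤ_[2])).mulVec x +
      (fun i => PadicInt.toZModPow (p := 2) k (c (a * b) i)) =
      ((PadicInt.toZModPow (p := 2) k).mapMatrix ((ρ a : GL (Fin n) ℤ_[2]) : Matrix (Fin n) (Fin n) ℤ_[2])).mulVec
        (((PadicInt.toZModPow (p := 2) k).mapMatrix ((ρ b : GL (Fin n) ℤ_[2]) : Matrix (Fin n) (Fin n) ℤ_[2])).mulVec x +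
          fun i => PadicInt.toZModPow (p := 2) k (c b i)) + fun i => PadicInt.toZModPow (p := 2) k (c a i)
    rw [map_mul, Units.val_mul, map_mul, Matrix.mulVec_add, Matrix.mulVec_mulVec, hcoc]
    have h : (fun i => PadicInt.toZModPow (p := 2) k ((c a + (ρ a : Matrix (Fin n) (Fin n) ℤ_[2]).mulVec (c b)) i)) =
        (fun i => PadicInt.toZModPow (p := 2) k (c a i)) +
          ((PadicInt.toZModPow (p := 2) k).mapMatrix ((ρ a : GL (Fin n) ℤ_[2]) : Matrix (Fin n) (Fin n) ℤ_[2])).mulVec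
            (fun i => PadicInt.toZModPow (p := 2) k (c b i)) := by
      rw [← red_mulVec_F4]
      funext i
      simp only [Pi.add_apply, map_add]
    rw [h]
    abel

private theorem hom_apply_F4 {Γ : Type} [Group Γ] {n : ℕ} (k : ℕ) (ρ : Γ →* GL (Fin n) ℤ_[2]) (c : Γ → Fin n → ℤ_[2])
    (hc1 : c 1 = 0) (hcoc : ∀ a b, c (a * b) = c a + (ρ a : Matrix (Fin n) (Fin n) ℤ_[2]).mulVec (c b)) (a : Γ)
    (x : Fin n → ZMod (2 ^ k)) : (hom_F4 k ρ c hc1 hcoc a : (Fin n → ZMod (2 ^ k)) → _) x =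
      ((PadicInt.toZModPow (p := 2) k).mapMatrix ((ρ a : GL (Fin n) ℤ_[2]) : Matrix (Fin n) (Fin n) ℤ_[2])).mulVec x +
        fun i => PadicInt.toZModPow (p := 2) k (c a i) := rfl

/-- The permutation valued homomorphism. -/
noncomputable def per_F4 {Γ : Type} [Group Γ] {n : ℕ} (k : ℕ) (ρ : Γ →* GL (Fin n) ℤ_[2]) (c : Γ → Fin n → ℤ_[2])
    (hc1 : c 1 = 0) (hcoc : ∀ a b, c (a * b) = c a + (ρ a : Matrix (Fin n) (Fin n) ℤ_[2]).mulVec (c b)) :
    Γ →* Equiv.Perm (Fin n → ZMod (2 ^ k)) := (hom_F4 k ρ c hc1 hcoc).toHomPerm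

private theorem per_apply_F4 {Γ : Type} [Group Γ] {n : ℕ} (k : ℕ) (ρ : Γ →* GL (Fin n) ℤ_[2]) (c : Γ → Fin n → ℤ_[2])
    (hc1 : c 1 = 0) (hcoc : ∀ a b, c (a * b) = c a + (ρ a : Matrix (Fin n) (Fin n) ℤ_[2]).mulVec (c b)) (a : Γ)
    (x : Fin n → ZMod (2 ^ k)) : per_F4 k ρ c hc1 hcoc a x =
      ((PadicInt.toZModPow (p := 2) k).mapMatrix ((ρ a : GL (Fin n) ℤ_[2]) : Matrix (Fin n) (Fin n) ℤ_[2])).mulVec x +
        fun i => PadicInt.toZModPow (p := 2) k (c a i) := rfl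

private theorem per_one_F4 {Γ : Type} [Group Γ] {n : ℕ} (k : ℕ) (ρ : Γ →* GL (Fin n) ℤ_[2]) (c : Γ → Fin n → ℤ_[2])
    (hc1 : c 1 = 0) (hcoc : ∀ a b, c (a * b) = c a + (ρ a : Matrix (Fin n) (Fin n) ℤ_[2]).mulVec (c b)) (a : Γ)
    (ha : ρ a = 1) (x : Fin n → ZMod (2 ^ k)) : per_F4 k ρ c hc1 hcoc a x =
      x + fun i => PadicInt.toZModPow (p := 2) k (c a i) := by
  rw [per_apply_F4, ha, Units.val_one, map_one, Matrix.one_mulVec]

private theorem per_neg_F4 {Γ : Type} [Group Γ] {n : ℕ} (k : ℕ) (ρ : Γ →* GL (Fin n) ℤ_[2]) (c : Γ → Fin n → ℤ_[2])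
    (hc1 : c 1 = 0) (hcoc : ∀ a b, c (a * b) = c a + (ρ a : Matrix (Fin n) (Fin n) ℤ_[2]).mulVec (c b)) (a : Γ)
    (ha : ρ a = -1) (x : Fin n → ZMod (2 ^ k)) : per_F4 k ρ c hc1 hcoc a x =
      -x + fun i => PadicInt.toZModPow (p := 2) k (c a i) := by
  rw [per_apply_F4, ha, Units.val_neg, Units.val_one, map_neg, map_one, Matrix.neg_mulVec, Matrix.one_mulVec]

private theorem per_pow_F4 {Γ : Type} [Group Γ] {n : ℕ} (k : ℕ) (ρ : Γ →* GL (Fin n) ℤ_[2]) (c : Γ → Fin n → ℤ_[2])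
    (hc1 : c 1 = 0) (hcoc : ∀ a b, c (a * b) = c a + (ρ a : Matrix (Fin n) (Fin n) ℤ_[2]).mulVec (c b)) (a : Γ)
    (ha : ρ a = 1) (m : ℕ) : ∀ x : Fin n → ZMod (2 ^ k), (per_F4 k ρ c hc1 hcoc a ^ m) x =
      x + m • fun i => PadicInt.toZModPow (p := 2) k (c a i) := by
  induction m with
  | zero =>
    intro x
    rw [pow_zero, zero_smul, add_zero]
    rfl
  | succ m ih =>
    intro x
    rw [pow_succ, Equiv.Perm.mul_apply, per_one_F4 k ρ c hc1 hcoc a ha, ih, succ_nsmul]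
    abel

private theorem per_sq_F4 {Γ : Type} [Group Γ] {n : ℕ} (k : ℕ) (ρ : Γ →* GL (Fin n) ℤ_[2]) (c : Γ → Fin n → ℤ_[2])
    (hc1 : c 1 = 0) (hcoc : ∀ a b, c (a * b) = c a + (ρ a : Matrix (Fin n) (Fin n) ℤ_[2]).mulVec (c b)) (a : Γ)
    (ha : ρ a = -1) : per_F4 k ρ c hc1 hcoc a ^ 2 = 1 := by
  ext1 x
  rw [pow_two, Equiv.Perm.mul_apply, per_neg_F4 k ρ c hc1 hcoc a ha, per_neg_F4 k ρ c hc1 hcoc a ha]
  show _ = x
  abel

/-- the kernel is open -/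
private theorem open_F4 {n : ℕ} (k : ℕ) (ρ : GQ →* GL (Fin n) ℤ_[2]) (c : GQ → Fin n → ℤ_[2])
    (hc1 : c 1 = 0) (hcoc : ∀ a b, c (a * b) = c a + (ρ a : Matrix (Fin n) (Fin n) ℤ_[2]).mulVec (c b))
    (hρ : Continuous ρ) (hc : Continuous c) :
    IsOpen ((per_F4 k ρ c hc1 hcoc).ker : Set GQ) := by
  refine Subgroup.isOpen_of_mem_nhds _ (g := 1) ?_
  have h1 : ∀ i, {a : GQ | PadicInt.toZModPow (p := 2) k (c a i) = 0} ∈ 𝓝 (1 : GQ) := by
    intro i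
    have hct : Filter.Tendsto (fun a : GQ => c a i) (𝓝 1) (𝓝 (c 1 i)) :=
      ((continuous_apply i).comp hc).tendsto 1
    rw [hc1, Pi.zero_apply] at hct
    exact hct (nhds_F4 k)
  have h2 : ∀ i j, {a : GQ | PadicInt.toZModPow (p := 2) k
      ((ρ a : Matrix (Fin n) (Fin n) ℤ_[2]) i j - (1 : Matrix (Fin n) (Fin n) ℤ_[2]) i j) = 0} ∈ 𝓝 (1 : GQ) := by
    intro i j
    have hcont : Continuous (fun a : GQ => (ρ a : Matrix (Fin n) (Fin n) ℤ_[2]) i j -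
        (1 : Matrix (Fin n) (Fin n) ℤ_[2]) i j) :=
      (Continuous.matrix_elem (Units.continuous_val.comp hρ) i j).sub continuous_const
    have hct : Filter.Tendsto (fun a : GQ => (ρ a : Matrix (Fin n) (Fin n) ℤ_[2]) i j -
        (1 : Matrix (Fin n) (Fin n) ℤ_[2]) i j) (𝓝 1) (𝓝 ((ρ 1 : Matrix (Fin n) (Fin n) ℤ_[2]) i j -
        (1 : Matrix (Fin n) (Fin n) ℤ_[2]) i j)) := hcont.tendsto 1
    rw [map_one, Units.val_one, sub_self] at hct
    exact hct (nhds_F4 k)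
  have h3 := (Filter.iInter_mem.2 h1)
  have h4 := (Filter.iInter_mem.2 fun i => Filter.iInter_mem.2 (h2 i))
  refine Filter.mem_of_superset (Filter.inter_mem h3 h4) ?_
  rintro a ⟨ha1, ha2⟩
  simp only [Set.mem_iInter] at ha1 ha2
  show a ∈ (per_F4 k ρ c hc1 hcoc).ker
  rw [MonoidHom.mem_ker]
  ext1 x
  rw [per_apply_F4]
  have e1 : (PadicInt.toZModPow (p := 2) k).mapMatrix ((ρ a : GL (Fin n) ℤ_[2]) : Matrix (Fin n) (Fin n) ℤ_[2]) = 1 := by
    rw [← map_one (PadicInt.toZModPow (p := 2) k).mapMatrix]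
    ext i j
    have h := ha2 i j
    have h' : PadicInt.toZModPow (p := 2) k ((ρ a : Matrix (Fin n) (Fin n) ℤ_[2]) i j - (1 : Matrix (Fin n) (Fin n) ℤ_[2]) i j) = 0 := h
    rw [map_sub, sub_eq_zero] at h'
    exact h'
  have e2 : (fun i => PadicInt.toZModPow (p := 2) k (c a i)) = 0 := by
    funext i
    exact ha1 i
  rw [e1, e2, Matrix.one_mulVec, add_zero]
  rfl

/-- the group theoretic part -/
private theorem abs_F4 (hF1 : StF1) (hF2 : StF2) (hF3 : StF3) (q : ℕ) (hq : q.Prime) (hq2 : q ≠ 2) (dt : LocData q)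
    (hwn : dt.w ≠ -dt.w) (hpm : ∀ a : GQ, a dt.w = dt.w ∨ a dt.w = -dt.w)
    (G : Type) [Group G] [Finite G] (F : GQ →* G) (hopen : IsOpen (F.ker : Set GQ)) (hFσ : F dt.σ ^ 2 = 1)
    (hpow : ∀ a ∈ Ine dt.P, ∃ k : ℕ, F a ^ (2 ^ k) = 1) :
    ∀ a ∈ Ine dt.P, (a dt.w = dt.w → F a = 1) ∧ (a dt.w = -dt.w → F a = F dt.σ) := by
  classical
  set f : Ine dt.P →* G := F.comp (Ine dt.P).subtype with hf
  set χ : Ine dt.P → ZMod 2 := fun a => if (a : GQ) dt.w = dt.w then 0 else 1 with hχ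
  have hmul : ∀ a b : Ine dt.P, χ (a * b) = χ a + χ b := by
    intro a b
    have e : ((a * b : Ine dt.P) : GQ) dt.w = (a : GQ) ((b : GQ) dt.w) := rfl
    simp only [hχ, e]
    rcases hpm (b : GQ) with hb | hb
    · rw [hb, if_pos (rfl : dt.w = dt.w), add_zero]
    · have hbn : ¬ ((b : GQ) dt.w = dt.w) := fun h => hwn (h.symm.trans hb)
      rw [if_neg hbn, hb, map_neg]
      rcases hpm (a : GQ) with ha | ha
      · rw [ha, if_neg (fun h : -dt.w = dt.w => hwn h.symm), if_pos rfl, zero_add]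
      · have han : ¬ ((a : GQ) dt.w = dt.w) := fun h => hwn (h.symm.trans ha)
        rw [if_neg han, ha, neg_neg, if_pos rfl]
        decide
  have hχσ : χ ⟨dt.σ, dt.hσ⟩ = 1 := by
    simp only [hχ]
    rw [if_neg]
    intro h
    exact hwn (h.symm.trans dt.hσw)
  have hh : ∀ h : f.range → ZMod 2, (∀ x y, h (x * y) = h x + h y) →
      ∀ a : Ine dt.P, h ⟨f a, ⟨a, rfl⟩⟩ = χ a * h ⟨f ⟨dt.σ, dt.hσ⟩, ⟨⟨dt.σ, dt.hσ⟩, rfl⟩⟩ := by
    intro h hadd a
    have h1 : h 1 = 0 := by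
      have := hadd 1 1
      rw [mul_one] at this
      exact left_eq_add.1 this
    set h' : GQ → ZMod 2 := fun g => if hg : g ∈ Ine dt.P then h ⟨f ⟨g, hg⟩, ⟨⟨g, hg⟩, rfl⟩⟩ else 0 with hh'
    have hval : ∀ (g : GQ) (hg : g ∈ Ine dt.P), h' g = h ⟨f ⟨g, hg⟩, ⟨⟨g, hg⟩, rfl⟩⟩ := by
      intro g hg
      simp only [hh']
      rw [dif_pos hg]
    have hadd' : ∀ x ∈ Ine dt.P, ∀ y ∈ Ine dt.P, h' (x * y) = h' x + h' y := by
      intro x hx y hy
      rw [hval _ (mul_mem hx hy), hval x hx, hval y hy, ← hadd]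
      congr 1
      apply Subtype.ext
      exact map_mul f ⟨x, hx⟩ ⟨y, hy⟩
    have hU : ∃ U : Subgroup GQ, IsOpen (U : Set GQ) ∧ ∀ u ∈ U, u ∈ Ine dt.P → h' u = 0 := by
      refine ⟨F.ker, hopen, fun u hu hui => ?_⟩
      rw [hval u hui, ← h1]
      congr 1
      apply Subtype.ext
      exact MonoidHom.mem_ker.1 hu
    obtain ⟨-, ha0, ha1⟩ := hF2 hF1 q hq hq2 dt h' hadd' hU (a : GQ) a.2
    rw [hval _ a.2] at ha0 ha1
    rw [hval _ dt.hσ] at ha1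
    rcases hpm (a : GQ) with ha | ha
    · have e : χ a = 0 := if_pos ha
      rw [e, zero_mul]
      exact ha0 ha
    · have e : χ a = 1 := if_neg (fun h => hwn (h.symm.trans ha))
      rw [e, one_mul]
      exact ha1 ha
  have hF := hF3 (Ine dt.P) G f χ ⟨dt.σ, dt.hσ⟩ hmul hχσ hFσ (fun a => hpow a a.2) hh
  intro a ha
  constructor
  · intro haw
    exact (hF ⟨a, ha⟩).1 (if_pos haw)
  · intro haw
    exact (hF ⟨a, ha⟩).2 (if_neg (fun h => hwn (h.symm.trans haw)))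

theorem hF4 : StF4 := by
  intro hF1 hF2 hF3 q hq hq2 dt n ρ hρ hρI c hc hcoc
  have hc1 : c 1 = 0 := by
    have h := hcoc 1 1
    rw [mul_one, map_one, Units.val_one, Matrix.one_mulVec] at h
    exact left_eq_add.1 h
  have hw0 : dt.w ≠ 0 := by
    intro h
    have h1 := dt.hw
    rw [h, zero_pow two_ne_zero] at h1
    exact hq.ne_zero (by exact_mod_cast h1.symm)
  have hwn : dt.w ≠ -dt.w := by
    intro h
    have h1 : (2 : Qb) * dt.w = 0 := by linear_combination h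
    rcases mul_eq_zero.1 h1 with h2 | h2
    · exact two_ne_zero h2
    · exact hw0 h2
  have hpm : ∀ a : GQ, a dt.w = dt.w ∨ a dt.w = -dt.w := by
    intro a
    refine sq_eq_sq_iff_eq_or_eq_neg.1 ?_
    rw [← map_pow, dt.hw, map_natCast]
  -- the congruences
  have key : ∀ k : ℕ, ∀ a ∈ Ine dt.P,
      (a dt.w = dt.w → ∀ i, PadicInt.toZModPow (p := 2) k (c a i) = 0) ∧
      (a dt.w = -dt.w → ∀ i, PadicInt.toZModPow (p := 2) k (c a i) = PadicInt.toZModPow (p := 2) k (c dt.σ i)) := by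
    intro k
    have hne : NeZero (2 ^ k) := ⟨by positivity⟩
    have hpow : ∀ a ∈ Ine dt.P, ∃ l : ℕ, per_F4 k ρ c hc1 hcoc a ^ (2 ^ l) = 1 := by
      intro a ha
      rcases hpm a with haw | haw
      · refine ⟨k, ?_⟩
        ext1 x
        rw [per_pow_F4 k ρ c hc1 hcoc a ((hρI a ha).1 haw)]
        funext i
        rw [Pi.add_apply, Pi.smul_apply, nsmul_eq_mul, ZMod.natCast_self, zero_mul, add_zero]
        rfl
      · refine ⟨1, ?_⟩
        rw [pow_one]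
        exact per_sq_F4 k ρ c hc1 hcoc a ((hρI a ha).2 haw)
    have hF := abs_F4 hF1 hF2 hF3 q hq hq2 dt hwn hpm (Equiv.Perm (Fin n → ZMod (2 ^ k)))
      (per_F4 k ρ c hc1 hcoc) (open_F4 k ρ c hc1 hcoc hρ hc)
      (per_sq_F4 k ρ c hc1 hcoc dt.σ ((hρI dt.σ dt.hσ).2 dt.hσw)) hpow
    have hzero : ∀ g : GQ, per_F4 k ρ c hc1 hcoc g 0 = fun i => PadicInt.toZModPow (p := 2) k (c g i) := by
      intro g
      rw [per_apply_F4, Matrix.mulVec_zero, zero_add]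
    intro a ha
    constructor
    · intro haw i
      have h2 := hzero a
      rw [(hF a ha).1 haw] at h2
      exact (congrFun h2 i).symm
    · intro haw i
      have h2 := hzero a
      rw [(hF a ha).2 haw, hzero dt.σ] at h2
      exact (congrFun h2 i).symm
  have main : ∀ a ∈ Ine dt.P, (a dt.w = dt.w → c a = 0) ∧ (a dt.w = -dt.w → c a = c dt.σ) := by
    intro a ha
    constructor
    · intro haw
      funext i
      refine PadicInt.ext_of_toZModPow.1 fun k => ?_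
      rw [(key k a ha).1 haw i, Pi.zero_apply, map_zero]
    · intro haw
      funext i
      exact PadicInt.ext_of_toZModPow.1 fun k => (key k a ha).2 haw i
  refine ⟨main, ?_⟩
  -- the Frobenius element
  have hφP : ∀ x ∈ dt.P, dt.φ • x ∈ dt.P := by
    intro x hx
    have h1 := dt.hφ x
    have h2 : x ^ q ∈ dt.P := Ideal.pow_mem_of_mem _ hx _ hq.pos
    have := add_mem h1 h2
    rwa [sub_add_cancel] at this
  have hconj : dt.φ * dt.σ * dt.φ⁻¹ ∈ Ine dt.P := by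
    show ∀ x : Zb, (dt.φ * dt.σ * dt.φ⁻¹) • x - x ∈ dt.P
    intro x
    have h1 : dt.σ • (dt.φ⁻¹ • x) - dt.φ⁻¹ • x ∈ dt.P := dt.hσ (dt.φ⁻¹ • x)
    have h2 := hφP _ h1
    rw [smul_sub, smul_inv_smul] at h2
    rw [mul_smul, mul_smul]
    exact h2
  have hcw : (dt.φ * dt.σ * dt.φ⁻¹) dt.w = -dt.w := by
    have h1 : (dt.φ⁻¹ : GQ) dt.w = dt.w := by
      have : (dt.φ⁻¹ : GQ) (dt.φ dt.w) = dt.w := AlgEquiv.symm_apply_apply dt.φ dt.w
      rwa [dt.hφw] at this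
    show dt.φ (dt.σ ((dt.φ⁻¹ : GQ) dt.w)) = -dt.w
    rw [h1, dt.hσw, map_neg, dt.hφw]
  have e1 := (main _ hconj).2 hcw
  have e2 : c (dt.φ * dt.φ⁻¹) = c dt.φ + (ρ dt.φ : Matrix (Fin n) (Fin n) ℤ_[2]).mulVec (c dt.φ⁻¹) := hcoc _ _
  rw [mul_inv_cancel, hc1] at e2
  have hρσ : ρ dt.σ = -1 := (hρI dt.σ dt.hσ).2 dt.hσw
  rw [mul_assoc, hcoc, hcoc, hρσ, Units.val_neg, Units.val_one, Matrix.neg_mulVec, Matrix.one_mulVec,
    Matrix.mulVec_add, Matrix.mulVec_neg] at e1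
  have e3 : (ρ dt.φ : Matrix (Fin n) (Fin n) ℤ_[2]).mulVec (c dt.φ⁻¹) = -c dt.φ := by
    rw [eq_neg_iff_add_eq_zero, add_comm]
    exact e2.symm
  rw [e3, neg_neg] at e1
  rw [two_smul]
  linear_combination e1

end Pool.TW
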