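import Pool.Agent.Helper34.TW.StF
import Pool.Agent.Helper54.DG.CaseC

/-!
# Project TW, module G0: large primes are good
-/

set_option autoImplicit false

open scoped Pointwise NumberField
open NumberField Polynomial IsDedekindDomain Pool.RG2

namespace Pool.TW

private theorem root_int_G0 {f : ℤ[X]} (hf : f.Monic) (x : Rt f) : IsIntegral ℤ x.1 := by
  have h := x.2
  rw [Polynomial.mem_rootSet'] at h
  exact ⟨f, hf, by rw [← Polynomial.aeval_def]; exact h.2⟩

private theorem fixed_rat_G0 (x : Qb) (h : ∀ g : GQ, g x = x) : ∃ q : ℚ, algebraMap ℚ Qb q = x := by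
  have h1 : x ∈ (⊥ : IntermediateField ℚ Qb) := Pool.RG.CC.mem_of_fixed ⊥ x fun g _ => h g
  exact IntermediateField.mem_bot.mp h1

private theorem fixed_int_G0 (x : Zb) (h : ∀ g : GQ, g (x : Qb) = x) : ∃ n : ℤ, (n : Zb) = x := by
  obtain ⟨q, hq⟩ := fixed_rat_G0 (x : Qb) h
  have h2 : IsIntegral ℤ q := by
    have h3 : IsIntegral ℤ (algebraMap ℚ Qb q) := by
      rw [hq]
      exact x.2
    exact (isIntegral_algebraMap_iff (algebraMap ℚ Qb).injective).mp h3
  obtain ⟨n, hn⟩ := IsIntegrallyClosed.isIntegral_iff.mp h2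
  refine ⟨n, ?_⟩
  apply NumberField.RingOfIntegers.ext
  have h4 : (((n : Zb) : Qb)) = (n : Qb) := by simp
  rw [h4, ← hq, ← hn]
  simp

theorem hG0 : StG0 := by
  classical
  intro r f hf
  let z : (s : Fin r) → Rt (f s) → Zb := fun s x => ⟨x.1, root_int_G0 (hf.monic s) x⟩
  let Y : (s : Fin r) → Finset (Rt (f s) × Rt (f s)) := fun s => Finset.univ.filter (fun xy => xy.1 ≠ xy.2)
  let N : (s : Fin r) → Zb := fun s => ∏ xy ∈ Y s, (z s xy.1 - z s xy.2)
  have hz : ∀ s x, ((z s x : Zb) : Qb) = x.1 := fun s x => rfl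
  have hN : ∀ s, ((N s : Zb) : Qb) = ∏ xy ∈ Y s, (xy.1.1 - xy.2.1) := by
    intro s
    have h1 : ((N s : Zb) : Qb) = algebraMap Zb Qb (N s) := rfl
    rw [h1, map_prod]
    apply Finset.prod_congr rfl
    intro xy _
    rw [map_sub]
    rfl
  have hfix : ∀ s (g : GQ), g ((N s : Zb) : Qb) = ((N s : Zb) : Qb) := by
    intro s g
    rw [hN s, map_prod]
    have h2 : ∀ xy ∈ Y s, g (xy.1.1 - xy.2.1) = (g • xy.1).1 - (g • xy.2).1 := by
      intro xy _
      rw [map_sub]
      rfl
    rw [Finset.prod_congr rfl h2]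
    refine Finset.prod_bij (fun xy _ => (g • xy.1, g • xy.2)) ?_ ?_ ?_ ?_
    · intro xy hxy
      simp only [Y, Finset.mem_filter, Finset.mem_univ, true_and] at hxy ⊢
      intro h3
      exact hxy (MulAction.injective g h3)
    · intro a _ b _ hab
      have h4 := Prod.ext_iff.mp hab
      exact Prod.ext (MulAction.injective g h4.1) (MulAction.injective g h4.2)
    · intro b hb
      refine ⟨(g⁻¹ • b.1, g⁻¹ • b.2), ?_, ?_⟩
      · simp only [Y, Finset.mem_filter, Finset.mem_univ, true_and] at hb ⊢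
        intro h3
        exact hb (MulAction.injective g⁻¹ h3)
      · simp
    · intro xy _
      rfl
  have hint : ∀ s, ∃ n : ℤ, (n : Zb) = N s := fun s => fixed_int_G0 (N s) (hfix s)
  choose n hn using hint
  have hn0 : ∀ s, n s ≠ 0 := by
    intro s h0
    have h1 := hn s
    rw [h0, Int.cast_zero] at h1
    have h2 : ((N s : Zb) : Qb) = 0 := by
      rw [← h1]
      rfl
    rw [hN s, Finset.prod_eq_zero_iff] at h2
    obtain ⟨xy, hxy, h3⟩ := h2
    simp only [Y, Finset.mem_filter, Finset.mem_univ, true_and] at hxy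
    exact hxy (Subtype.ext (sub_eq_zero.mp h3))
  refine ⟨∑ s, (n s).natAbs, ?_⟩
  intro p hp hB P hP hpP s x y hxy w hw hwe
  have h1 : (w : Zb) = z s x - z s y := by
    apply NumberField.RingOfIntegers.ext
    rw [hwe]
    rfl
  have h2 : N s ∈ P := by
    have h3 : (x, y) ∈ Y s := by
      simp only [Y, Finset.mem_filter, Finset.mem_univ, true_and]
      exact hxy
    have h4 : z s x - z s y ∣ N s := Finset.dvd_prod_of_mem (fun xy : Rt (f s) × Rt (f s) => z s xy.1 - z s xy.2) h3
    rw [h1] at hw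
    exact P.mem_of_dvd h4 hw
  rw [← hn s] at h2
  have h5 : (p : ℤ) ∣ n s := by
    by_contra h6
    have h7 : IsCoprime (p : ℤ) (n s) := by
      rw [Int.isCoprime_iff_gcd_eq_one]
      have h8 := (Nat.Prime.coprime_iff_not_dvd hp (n := (n s).natAbs)).mpr (by
        intro h9
        exact h6 (Int.natCast_dvd.mpr h9))
      rw [Int.gcd_eq_natAbs, Int.natAbs_natCast]
      exact h8
    obtain ⟨a, b, hab⟩ := h7
    have h10 : (1 : Zb) ∈ P := by
      have h11 : (1 : Zb) = (a : Zb) * (p : Zb) + (b : Zb) * ((n s : ℤ) : Zb) := by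
        have h12 := congrArg (fun t : ℤ => (t : Zb)) hab
        push_cast at h12
        exact h12.symm
      rw [h11]
      exact P.add_mem (P.mul_mem_left _ hpP) (P.mul_mem_left _ h2)
    exact hP.ne_top ((Ideal.eq_top_iff_one P).mpr h10)
  have h6 : p ≤ (n s).natAbs := Nat.le_of_dvd (Int.natAbs_pos.mpr (hn0 s)) (Int.natCast_dvd.mp h5)
  have h7 : (n s).natAbs ≤ ∑ s, (n s).natAbs := Finset.single_le_sum (f := fun s => (n s).natAbs) (fun _ _ => Nat.zero_le _) (Finset.mem_univ s)
  omega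

end Pool.TW
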