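import Pool.Agent.Helper34.TW.StF
import Pool.Agent.Helper52.RG.M_PROF

/-!
# Project TW, module G1: cocycles at a good prime
-/

set_option autoImplicit false

open scoped Pointwise NumberField
open NumberField Polynomial IsDedekindDomain Pool.RG2

namespace Pool.TW

private theorem int_mem_G1 (P : Ideal Zb) (hP : P.IsMaximal) (q : ℕ) (hq : q.Prime) (hqP : (q : Zb) ∈ P)
    (n : ℤ) : (n : Zb) ∈ P ↔ (q : ℤ) ∣ n := by
  constructor
  · intro h
    by_contra hn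
    obtain ⟨a, b, hab⟩ := (Nat.prime_iff_prime_int.1 hq).coprime_iff_not_dvd.2 hn
    have h2 : (1 : Zb) ∈ P := by
      have h1 : (1 : Zb) = (a : Zb) * (q : Zb) + b * n := by
        have := congrArg (fun t : ℤ => (t : Zb)) hab
        push_cast at this
        exact this.symm
      rw [h1]
      exact P.add_mem (P.mul_mem_left _ hqP) (P.mul_mem_left _ h)
    exact hP.ne_top ((Ideal.eq_top_iff_one _).2 h2)
  · rintro ⟨m, rfl⟩
    push_cast
    exact P.mul_mem_right _ hqP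

private theorem conj_G1 (P P' : Ideal Zb) (hP : P.IsMaximal) (hP' : P'.IsMaximal) (q : ℕ) (hq : q.Prime)
    (h1 : (q : Zb) ∈ P) (h2 : (q : Zb) ∈ P') : ∃ g : GQ, g • P = P' := by
  obtain ⟨g, _, hg⟩ := (Pool.Agent.Helper52.RG.tProf ⊥).1 P P' hP hP' (fun x hx => by
    rw [IntermediateField.mem_bot] at hx
    obtain ⟨y, hy⟩ := hx
    have h3 : IsIntegral ℤ y := by
      have h4 : IsIntegral ℤ (x : Qb) := x.isIntegral_coe
      rw [← hy] at h4
      exact (isIntegral_algebraMap_iff (algebraMap ℚ Qb).injective).1 h4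
    obtain ⟨n, hn⟩ := IsIntegrallyClosed.isIntegral_iff.1 h3
    have h5 : x = (n : Zb) := by
      apply RingOfIntegers.ext
      rw [← hy, ← hn]
      simp
    rw [h5, int_mem_G1 P hP q hq h1, int_mem_G1 P' hP' q hq h2])
  exact ⟨g, hg⟩

private theorem mem_Ine_G1 (g : GQ) (P : Ideal Zb) : g ∈ Ine P ↔ ∀ x : Zb, g • x - x ∈ P := Iff.rfl

/-- if `g P ⊆ P'` then `g (Ine P) g⁻¹ ⊆ Ine P'` -/
private theorem conjI_G1 (P P' : Ideal Zb) (g : GQ) (hg : ∀ z ∈ P, g • z ∈ P') (a : GQ) (ha : a ∈ Ine P) :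
    g * a * g⁻¹ ∈ Ine P' := by
  rw [mem_Ine_G1] at ha ⊢
  intro x
  have h1 : (g * a * g⁻¹) • x - x = g • (a • (g⁻¹ • x) - g⁻¹ • x) := by
    rw [smul_sub, smul_inv_smul, mul_smul, mul_smul]
  rw [h1]
  exact hg _ (ha _)

private theorem act_mul_G1 {Γ : Type} [Group Γ] {r : ℕ} (Y : Fin r → Type) [∀ s, Fintype (Y s)]
    [∀ s, MulAction Γ (Y s)] {S : Finset (Fin r)} (g h : Γ) (m : Pt Y S → ZMod 2) :
    act Y (g * h) m = act Y g (act Y h m) := by
  funext x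
  show m ((g * h)⁻¹ • x) = m (h⁻¹ • (g⁻¹ • x))
  rw [mul_inv_rev, mul_smul]

private theorem act_add_G1 {Γ : Type} [Group Γ] {r : ℕ} (Y : Fin r → Type) [∀ s, Fintype (Y s)]
    [∀ s, MulAction Γ (Y s)] {S : Finset (Fin r)} (g : Γ) (m m' : Pt Y S → ZMod 2) :
    act Y g (m + m') = act Y g m + act Y g m' := rfl

private theorem act_one_G1 {Γ : Type} [Group Γ] {r : ℕ} (Y : Fin r → Type) [∀ s, Fintype (Y s)]
    [∀ s, MulAction Γ (Y s)] {S : Finset (Fin r)} (m : Pt Y S → ZMod 2) :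
    act Y (1 : Γ) m = m := by
  funext x
  show m ((1 : Γ)⁻¹ • x) = m x
  rw [inv_one, one_smul]

theorem hG1 : StG1 := by
  intro h1 h2 h10 h11 r f hf q hq dt
  obtain ⟨hqp, hq8, hqg⟩ := hq
  have hq2 : q ≠ 2 := by
    rintro rfl
    omega
  have htriv : ∀ a ∈ Ine dt.P, ∀ s (x : Rt (f s)), a • x = x :=
    fun a ha s x => (h11 h10 r f hf).2.1 dt.P s (hqg dt.P dt.hP dt.hq s) a ha x
  refine ⟨htriv, ?_⟩
  intro S c hc
  have hact : ∀ a ∈ Ine dt.P, ∀ m : Pt (RY f) S → ZMod 2, act (RY f) a m = m := by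
    intro a ha m
    funext x
    show m (a⁻¹ • x) = m x
    congr 1
    funext s
    exact htriv a⁻¹ (inv_mem ha) s (x s)
  have hc1 : c 1 = 0 := by
    have h3 := hc.mul 1 1
    rw [mul_one, act_one_G1] at h3
    exact left_eq_add.1 h3
  have hcinv : ∀ g : GQ, c g + act (RY f) g (c g⁻¹) = 0 := by
    intro g
    rw [← hc.mul, mul_inv_cancel, hc1]
  -- the values on the inertia group
  have hF2 : ∀ a ∈ Ine dt.P, (a dt.w = dt.w ∨ a dt.w = -dt.w) ∧ (a dt.w = dt.w → c a = 0) ∧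
      (a dt.w = -dt.w → c a = c dt.σ) := by
    intro a ha
    have hx : ∀ x : Pt (RY f) S, (dt.w ≠ 0 ∧ (a dt.w = dt.w ∨ a dt.w = -dt.w)) ∧
        (a dt.w = dt.w → c a x = 0) ∧ (a dt.w = -dt.w → c a x = c dt.σ x) := by
      intro x
      refine h2 h1 q hqp hq2 dt (fun g => c g x) ?_ ?_ a ha
      · intro a ha b _
        show c (a * b) x = c a x + c b x
        rw [hc.mul, hact a ha]
        rfl
      · obtain ⟨U, hU, hU'⟩ := hc.lc
        exact ⟨U, hU, fun u hu _ => by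
          show c u x = 0
          rw [hU' u hu]
          rfl⟩
    have hw : a dt.w = dt.w ∨ a dt.w = -dt.w := by
      have h3 : (a dt.w) ^ 2 = dt.w ^ 2 := by
        rw [← map_pow, dt.hw, map_natCast]
      exact sq_eq_sq_iff_eq_or_eq_neg.1 h3
    refine ⟨hw, fun h3 => ?_, fun h3 => ?_⟩
    · funext x
      exact (hx x).2.1 h3
    · funext x
      exact (hx x).2.2 h3
  refine ⟨?_, ?_, ?_⟩
  · refine ⟨hc.ev _, ?_⟩
    have hφP : ∀ z ∈ dt.P, dt.φ • z ∈ dt.P := by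
      intro z hz
      have h3 := dt.hφ z
      have h4 : z ^ q ∈ dt.P := Ideal.pow_mem_of_mem _ hz q hqp.pos
      have h5 := dt.P.add_mem h3 h4
      rwa [sub_add_cancel] at h5
    have h3 : dt.φ * dt.σ * dt.φ⁻¹ ∈ Ine dt.P := conjI_G1 dt.P dt.P dt.φ hφP dt.σ dt.hσ
    have h4 : (dt.φ * dt.σ * dt.φ⁻¹) dt.w = -dt.w := by
      have h5 : dt.φ⁻¹ dt.w = dt.w := by
        have h6 : dt.φ⁻¹ (dt.φ dt.w) = dt.w := by
          show (dt.φ⁻¹ * dt.φ) dt.w = dt.w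
          rw [inv_mul_cancel]
          rfl
        rwa [dt.hφw] at h6
      show dt.φ (dt.σ (dt.φ⁻¹ dt.w)) = -dt.w
      rw [h5, dt.hσw, map_neg, dt.hφw]
    have h5 := (hF2 _ h3).2.2 h4
    have h6 : c (dt.φ * dt.σ * dt.φ⁻¹) = act (RY f) dt.φ (c dt.σ) := by
      rw [mul_assoc, hc.mul, hc.mul, hact dt.σ dt.hσ, act_add_G1]
      have h7 := hcinv dt.φ
      rw [add_comm (act (RY f) dt.φ (c dt.σ)), ← add_assoc, h7, zero_add]
    rw [← h6, h5]
  · intro hσ0 P hP hqP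
    refine ⟨0, zero_mem _, ?_⟩
    have h0 : ∀ b ∈ Ine dt.P, c b = 0 := by
      intro b hb
      obtain ⟨h3, h4, h5⟩ := hF2 b hb
      rcases h3 with h3 | h3
      · exact h4 h3
      · rw [h5 h3, hσ0]
    obtain ⟨g, hg⟩ := conj_G1 dt.P P dt.hP hP q hqp dt.hq hqP
    intro a ha
    have hginv : ∀ z ∈ P, g⁻¹ • z ∈ dt.P := by
      intro z hz
      rw [← hg] at hz
      exact Ideal.mem_pointwise_smul_iff_inv_smul_mem.1 hz
    have hb : g⁻¹ * a * g⁻¹⁻¹ ∈ Ine dt.P := conjI_G1 P dt.P g⁻¹ hginv a ha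
    rw [inv_inv] at hb
    have ha' : a = g * ((g⁻¹ * a * g) * g⁻¹) := by group
    rw [ha', hc.mul, hc.mul, h0 _ hb, zero_add, hact _ hb, hcinv]
    have h8 : act (RY f) (g * ((g⁻¹ * a * g) * g⁻¹)) (0 : Pt (RY f) S → ZMod 2) = 0 := rfl
    rw [h8, sub_zero]
  · intro Q hQ hU
    have hcop : ∀ q' : ℕ, q'.Prime → q' ≠ q → (q' : Zb) ∉ dt.P := by
      intro q' hq' hne h3
      have h4 : ((q' : ℤ) : Zb) ∈ dt.P := by push_cast; exact h3
      rw [int_mem_G1 dt.P dt.hP q hqp dt.hq] at h4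
      have h5 : q ∣ q' := by exact_mod_cast h4
      exact hne ((Nat.prime_dvd_prime_iff_eq hqp hq').1 h5).symm
    obtain ⟨m, -, hm⟩ := hU dt.P dt.hP (by
      have := hcop 2 Nat.prime_two (Ne.symm hq2)
      exact_mod_cast this) (fun q' hq' => hcop q' (hQ q' hq').1 (hQ q' hq').2)
    rw [hm dt.σ dt.hσ, hact dt.σ dt.hσ, sub_self]

end Pool.TW
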