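import Pool.Agent.Helper34.TW.StF

/-!
# Project TW, module G2: the spaces `W`
-/

set_option autoImplicit false

open scoped Pointwise NumberField
open NumberField Polynomial IsDedekindDomain Pool.RG2

namespace Pool.TW

section lin

variable {M D : Type} [AddCommGroup M] [Module (ZMod 2) M] [AddCommGroup D] [Module (ZMod 2) D]

private theorem dim_G2 [Module.Finite (ZMod 2) D] (N : Submodule (ZMod 2) M)
    [Module.Finite (ZMod 2) N] (R : Submodule (ZMod 2) (M × D)) (h1 : ∀ p ∈ R, p.1 ∈ N)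
    (h0 : ∀ p ∈ R, p.1 = 0 → p.2 = 0) :
    Module.finrank (ZMod 2) (R.map (LinearMap.snd (ZMod 2) M D)) ≤ Module.finrank (ZMod 2) N := by
  set F : R →ₗ[ZMod 2] N :=
    LinearMap.codRestrict N ((LinearMap.fst (ZMod 2) M D).comp R.subtype) (fun p => h1 p.1 p.2) with hF
  have hFi : Function.Injective F := by
    rw [← LinearMap.ker_eq_bot, LinearMap.ker_eq_bot']
    intro p hp
    have h2 : p.1.1 = 0 := congrArg Subtype.val hp
    have h3 := h0 p.1 p.2 h2
    exact Subtype.ext (Prod.ext h2 h3)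
  have hfin : Module.Finite (ZMod 2) R := Module.Finite.of_injective F hFi
  have a1 : Module.finrank (ZMod 2) R ≤ Module.finrank (ZMod 2) N :=
    LinearMap.finrank_le_finrank_of_injective hFi
  exact (Submodule.finrank_map_le _ _).trans a1

private theorem sup_G2 [Module.Finite (ZMod 2) D] {ι : Type} (s : Finset ι)
    (T : ι → Submodule (ZMod 2) D) (d : ι → ℕ) (h : ∀ i ∈ s, Module.finrank (ZMod 2) (T i) ≤ d i) :
    Module.finrank (ZMod 2) (s.sup T : Submodule (ZMod 2) D) ≤ ∑ i ∈ s, d i := by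
  classical
  induction s using Finset.induction_on with
  | empty => simp
  | insert a s ha ih =>
    rw [Finset.sup_insert, Finset.sum_insert ha]
    refine (Submodule.finrank_add_le_finrank_add_finrank _ _).trans ?_
    exact Nat.add_le_add (h a (Finset.mem_insert_self _ _))
      (ih fun i hi => h i (Finset.mem_insert_of_mem hi))

private theorem sup2_G2 [Module.Finite (ZMod 2) D] (A B : Submodule (ZMod 2) D) (a b : ℕ)
    (ha : Module.finrank (ZMod 2) A ≤ a) (hb : Module.finrank (ZMod 2) B ≤ b) :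
    Module.finrank (ZMod 2) (A ⊔ B : Submodule (ZMod 2) D) ≤ a + b :=
  (Submodule.finrank_add_le_finrank_add_finrank _ _).trans (Nat.add_le_add ha hb)

private theorem perp_G2 (E : Submodule (ZMod 2) M) [Module.Finite (ZMod 2) E]
    (Φ : Submodule (ZMod 2) (Module.Dual (ZMod 2) E)) (k : ℕ) (hk : Module.finrank (ZMod 2) Φ ≤ k) :
    ∃ W : Submodule (ZMod 2) M, W ≤ E ∧
      Module.finrank (ZMod 2) E ≤ Module.finrank (ZMod 2) W + k ∧
      ∀ w ∈ W, ∃ w0 : E, w0.1 = w ∧ ∀ φ ∈ Φ, φ w0 = 0 := by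
  have hsum := Subspace.finrank_add_finrank_dualCoannihilator_eq (K := ZMod 2) (V := E) Φ
  refine ⟨(Φ.dualCoannihilator).map E.subtype, Submodule.map_subtype_le _ _, ?_, ?_⟩
  · have e : Module.finrank (ZMod 2) ((Φ.dualCoannihilator).map E.subtype) =
        Module.finrank (ZMod 2) Φ.dualCoannihilator :=
      (Submodule.equivMapOfInjective E.subtype E.injective_subtype Φ.dualCoannihilator).finrank_eq.symm
    rw [e]
    omega
  · intro w hw
    obtain ⟨w0, hw0, h⟩ := Submodule.mem_map.1 hw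
    refine ⟨w0, h, fun φ hφ => ?_⟩
    rw [Submodule.mem_dualCoannihilator] at hw0
    exact hw0 φ hφ

private theorem smul_G2 (R : Set M) (h0 : (0 : M) ∈ R) (c : ZMod 2) (x : M) (hx : x ∈ R) : c • x ∈ R := by
  have hc : ∀ c : ZMod 2, c = 0 ∨ c = 1 := by decide
  rcases hc c with rfl | rfl
  · rw [zero_smul]
    exact h0
  · rw [one_smul]
    exact hx

/-- an additive map to `ZMod 2` as a linear form -/
private def lm_G2 (φ : M → ZMod 2) (h : ∀ a b, φ (a + b) = φ a + φ b) : M →ₗ[ZMod 2] ZMod 2 where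
  toFun := φ
  map_add' := h
  map_smul' := by
    intro c x
    have hc : ∀ c : ZMod 2, c = 0 ∨ c = 1 := by decide
    have h0 : φ 0 = 0 := by
      have := h 0 0
      rw [add_zero] at this
      exact left_eq_add.1 this
    rcases hc c with rfl | rfl
    · rw [zero_smul, h0, RingHom.id_apply, zero_smul]
    · rw [one_smul, RingHom.id_apply, one_smul]

end lin

section acts

variable {r : ℕ} (Y : Fin r → Type) {S : Finset (Fin r)} {Γ : Type} [Group Γ] [∀ s, MulAction Γ (Y s)]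

private theorem act_add_G2 (g : Γ) (a b : Pt Y S → ZMod 2) : act Y g (a + b) = act Y g a + act Y g b := rfl

private theorem act_zero_G2 (g : Γ) : act Y g (0 : Pt Y S → ZMod 2) = 0 := rfl

end acts

section prs

variable {r : ℕ} (Y : Fin r → Type) [∀ s, Fintype (Y s)] {S : Finset (Fin r)}

private theorem pr_add_left_G2 (a b c : Pt Y S → ZMod 2) : pr Y (a + b) c = pr Y a c + pr Y b c := by
  unfold pr
  rw [← Finset.sum_add_distrib]
  exact Finset.sum_congr rfl fun x _ => by rw [Pi.add_apply, add_mul]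

private theorem pr_add_right_G2 (a b c : Pt Y S → ZMod 2) : pr Y a (b + c) = pr Y a b + pr Y a c := by
  unfold pr
  rw [← Finset.sum_add_distrib]
  exact Finset.sum_congr rfl fun x _ => by rw [Pi.add_apply, mul_add]

private theorem pr_zero_left_G2 (c : Pt Y S → ZMod 2) : pr Y 0 c = 0 := by
  unfold pr
  exact Finset.sum_eq_zero fun x _ => by rw [Pi.zero_apply, zero_mul]

private theorem pr_zero_right_G2 (c : Pt Y S → ZMod 2) : pr Y c 0 = 0 := by
  unfold pr
  exact Finset.sum_eq_zero fun x _ => by rw [Pi.zero_apply, mul_zero]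

variable {Γ : Type} [Group Γ] [∀ s, MulAction Γ (Y s)]

private theorem pr_act_G2 (g : Γ) (a b : Pt Y S → ZMod 2) : pr Y (act Y g a) (act Y g b) = pr Y a b := by
  unfold pr act
  exact Equiv.sum_comp (MulAction.toPerm g⁻¹) (fun x => a x * b x)

private theorem pr_fix_G2 (g : Γ) (m w : Pt Y S → ZMod 2) (hw : act Y g w = w) :
    pr Y (act Y g m - m) w = 0 := by
  have h1 : pr Y (act Y g m) w = pr Y m w := by
    conv_lhs => rw [← hw]
    exact pr_act_G2 Y g m w
  have h2 : pr Y (act Y g m) w = pr Y (act Y g m - m) w + pr Y m w := by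
    rw [← pr_add_left_G2, sub_add_cancel]
  rw [h1] at h2
  exact right_eq_add.1 h2

end prs

section coc

variable {r : ℕ} {f : Fin r → ℤ[X]} {S : Finset (Fin r)}

private theorem coc_zero_G2 : IsCoc (RY f) (0 : GQ → Pt (RY f) S → ZMod 2) where
  ev := fun _ => zero_mem _
  mul := fun g h => by
    show (0 : Pt (RY f) S → ZMod 2) = 0 + act (RY f) g 0
    rw [act_zero_G2, add_zero]
  lc := ⟨⊤, isOpen_univ, fun _ _ => rfl⟩

private theorem coc_add_G2 {c c' : GQ → Pt (RY f) S → ZMod 2} (h : IsCoc (RY f) c) (h' : IsCoc (RY f) c') :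
    IsCoc (RY f) (c + c') where
  ev := fun g => add_mem (h.ev g) (h'.ev g)
  mul := fun g k => by
    show c (g * k) + c' (g * k) = (c g + c' g) + act (RY f) g (c k + c' k)
    rw [h.mul, h'.mul, act_add_G2]
    abel
  lc := by
    obtain ⟨U, hU, hU'⟩ := h.lc
    obtain ⟨U2, hU2, hU2'⟩ := h'.lc
    refine ⟨U ⊓ U2, ?_, fun u hu => ?_⟩
    · have : ((U ⊓ U2 : Subgroup GQ) : Set GQ) = (U : Set GQ) ∩ (U2 : Set GQ) := rfl
      rw [this]
      exact hU.inter hU2
    · show c u + c' u = 0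
      rw [hU' u hu.1, hU2' u hu.2, add_zero]

private theorem cob_zero_G2 (A : Set GQ) : CobOn (RY f) A (0 : GQ → Pt (RY f) S → ZMod 2) :=
  ⟨0, zero_mem _, fun g _ => by rw [act_zero_G2, sub_zero]; rfl⟩

private theorem cob_add_G2 {A : Set GQ} {c c' : GQ → Pt (RY f) S → ZMod 2} (h : CobOn (RY f) A c)
    (h' : CobOn (RY f) A c') : CobOn (RY f) A (c + c') := by
  obtain ⟨m, hm, hm'⟩ := h
  obtain ⟨m2, hm2, hm2'⟩ := h'
  refine ⟨m + m2, add_mem hm hm2, fun g hg => ?_⟩
  show c g + c' g = _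
  rw [hm' g hg, hm2' g hg, act_add_G2]
  abel

private theorem unr_add_G2 {Q : Finset ℕ} {c c' : GQ → Pt (RY f) S → ZMod 2} (h : Unr f Q c)
    (h' : Unr f Q c') : Unr f Q (c + c') :=
  fun P hP h2 hQ => cob_add_G2 (h P hP h2 hQ) (h' P hP h2 hQ)

private theorem unr_mono_G2 {Q Q' : Finset ℕ} (hQ : Q ⊆ Q') {c : GQ → Pt (RY f) S → ZMod 2} (h : Unr f Q c) :
    Unr f Q' c :=
  fun P hP h2 hq => h P hP h2 fun q hq' => hq q (hQ hq')

private theorem lpd_add_left_G2 (dt : Dat) (q : ℕ) (a b c : GQ → Pt (RY f) S → ZMod 2) :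
    lpd f dt q (a + b) c = lpd f dt q a c + lpd f dt q b c := by
  unfold lpd
  split_ifs with h
  · unfold lp
    rw [Pi.add_apply, Pi.add_apply, pr_add_left_G2, pr_add_left_G2]
    abel
  · rw [add_zero]

private theorem lpd_add_right_G2 (dt : Dat) (q : ℕ) (a b c : GQ → Pt (RY f) S → ZMod 2) :
    lpd f dt q a (b + c) = lpd f dt q a b + lpd f dt q a c := by
  unfold lpd
  split_ifs with h
  · unfold lp
    rw [Pi.add_apply, Pi.add_apply, pr_add_right_G2, pr_add_right_G2]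
    abel
  · rw [add_zero]

private theorem lpd_zero_G2 (dt : Dat) (q : ℕ) (c : GQ → Pt (RY f) S → ZMod 2) :
    lpd f dt q 0 c = 0 := by
  unfold lpd
  split_ifs with h
  · unfold lp
    rw [Pi.zero_apply, Pi.zero_apply, pr_zero_left_G2, pr_zero_left_G2, add_zero]
  · rfl

end coc

/-- the spaces `W` -/
theorem hG2 : StG2 := by
  intro hREC hG1 hF1 hF2 hD10 hD11 r f hf P0 hP0 h2P0 dt S hS Q hQ E hE hEc L hL Λ hΛ
  have hG := hG1 hF1 hF2 hD10 hD11 r f hf
  have gp_ne : ∀ q, GP f q → q.Prime ∧ q ≠ 2 := by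
    intro q hq
    refine ⟨hq.1, ?_⟩
    rintro rfl
    have := hq.2.1
    norm_num at this
  -- the local pairing vanishes outside
  have hvan : ∀ (Q1 : Finset ℕ), (∀ q ∈ Q1, GP f q) → ∀ z w : GQ → Pt (RY f) S → ZMod 2,
      IsCoc (RY f) z → IsCoc (RY f) w → Unr f Q1 z → Unr f Q1 w → ∀ q, GP f q → q ∉ Q1 →
      lpd f dt q z w = 0 := by
    intro Q1 hQ1 z w hz hw hzu hwu q hq hqn
    have hq2 := gp_ne q hq
    have hne : ∀ q' ∈ Q1, q'.Prime ∧ q' ≠ q := by
      intro q' hq'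
      refine ⟨(hQ1 q' hq').1, ?_⟩
      rintro rfl
      exact hqn hq'
    have e1 := (((hG q hq (dt q hq2.1 hq2.2)).2 S z hz).2.2) Q1 hne hzu
    have e2 := (((hG q hq (dt q hq2.1 hq2.2)).2 S w hw).2.2) Q1 hne hwu
    unfold lpd
    rw [dif_pos hq2]
    unfold lp
    rw [e1, e2, pr_zero_left_G2, pr_zero_right_G2, add_zero]
  have hext : ∀ (Q1 Q2 : Finset ℕ), Q1 ⊆ Q2 → (∀ q ∈ Q2, GP f q) → ∀ z w : GQ → Pt (RY f) S → ZMod 2,
      IsCoc (RY f) z → IsCoc (RY f) w → Unr f Q1 z → Unr f Q1 w →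
      ∑ q ∈ Q2, lpd f dt q z w = ∑ q ∈ Q1, lpd f dt q z w := by
    intro Q1 Q2 h12 h2 z w hz hw hzu hwu
    refine (Finset.sum_subset h12 fun q hq hqn => ?_).symm
    exact hvan Q1 (fun q hq => h2 q (h12 hq)) z w hz hw hzu hwu q (h2 q hq) hqn
  -- the relation for the condition at `P0`
  set P : ((GQ → Pt (RY f) S → ZMod 2) × Module.Dual (ZMod 2) E) → Prop := fun p =>
    p.1 ∈ L ∧ ∃ (z : GQ → Pt (RY f) S → ZMod 2) (Q' : Finset ℕ), Q ⊆ Q' ∧ (∀ q ∈ Q', GP f q) ∧
      IsCoc (RY f) z ∧ Unr f Q' z ∧ CobOn (RY f) (Dec P0 : Set GQ) (z - p.1) ∧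
      ∀ w : E, p.2 w = ∑ q ∈ Q', lpd f dt q z w.1 with hP
  have hPzero : P 0 := by
    refine ⟨zero_mem _, 0, Q, subset_rfl, hQ, coc_zero_G2, ?_, ?_, ?_⟩
    · intro P hP h2 hq
      exact cob_zero_G2 _
    · rw [Prod.fst_zero, sub_zero]
      exact cob_zero_G2 _
    · intro w
      rw [Prod.snd_zero, LinearMap.zero_apply]
      exact (Finset.sum_eq_zero fun q _ => lpd_zero_G2 dt q w.1).symm
  have hPadd : ∀ p p', P p → P p' → P (p + p') := by
    rintro p p' ⟨hl, z, Q1, hQQ, hQ1, hz, hzu, hzc, hzw⟩ ⟨hl', z', Q2, hQQ', hQ2, hz', hzu', hzc', hzw'⟩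
    classical
    have h12 : ∀ q ∈ Q1 ∪ Q2, GP f q := by
      intro q hq
      rcases Finset.mem_union.1 hq with h | h
      · exact hQ1 q h
      · exact hQ2 q h
    refine ⟨add_mem hl hl', z + z', Q1 ∪ Q2, hQQ.trans Finset.subset_union_left, h12,
      coc_add_G2 hz hz', unr_add_G2 (unr_mono_G2 Finset.subset_union_left hzu)
        (unr_mono_G2 Finset.subset_union_right hzu'), ?_, ?_⟩
    · have e : z + z' - (p + p').1 = (z - p.1) + (z' - p'.1) := by
        rw [Prod.fst_add]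
        abel
      rw [e]
      exact cob_add_G2 hzc hzc'
    · intro w
      rw [Prod.snd_add, LinearMap.add_apply, hzw w, hzw' w,
        ← hext Q1 (Q1 ∪ Q2) Finset.subset_union_left h12 z w.1 hz (hEc w.1 w.2).1 hzu
          (unr_mono_G2 hQQ (hEc w.1 w.2).2),
        ← hext Q2 (Q1 ∪ Q2) Finset.subset_union_right h12 z' w.1 hz' (hEc w.1 w.2).1 hzu'
          (unr_mono_G2 hQQ' (hEc w.1 w.2).2), ← Finset.sum_add_distrib]
      exact Finset.sum_congr rfl fun q _ => (lpd_add_left_G2 dt q z z' w.1).symm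
  set R : Submodule (ZMod 2) ((GQ → Pt (RY f) S → ZMod 2) × Module.Dual (ZMod 2) E) :=
    { carrier := {p | P p}
      add_mem' := fun {a b} ha hb => hPadd a b ha hb
      zero_mem' := hPzero
      smul_mem' := fun c x hx => smul_G2 {p | P p} hPzero c x hx } with hR
  have hRdim : Module.finrank (ZMod 2) (R.map (LinearMap.snd (ZMod 2) _ (Module.Dual (ZMod 2) E))) ≤
      Module.finrank (ZMod 2) L := by
    refine dim_G2 L R (fun p hp => hp.1) ?_
    rintro p ⟨hl, z, Q1, hQQ, hQ1, hz, hzu, hzc, hzw⟩ hp0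
    rw [hp0, sub_zero] at hzc
    refine LinearMap.ext fun w => ?_
    rw [hzw w, LinearMap.zero_apply]
    exact hREC r f hf P0 hP0 h2P0 dt S hS Q1 hQ1 z w.1 hz (hEc w.1 w.2).1 hzu
      (unr_mono_G2 hQQ (hEc w.1 w.2).2) hzc
  -- the relations for the conditions at `q`
  set PQ : (q : ℕ) → ((Pt (RY f) S → ZMod 2) × Module.Dual (ZMod 2) E) → Prop := fun q p =>
    ∃ x ∈ Λ q, p.1 = x.1 ∧ ∀ (h : q.Prime) (h2 : q ≠ 2), ∀ w : E,
      p.2 w = pr (RY f) x.1 (w.1 (dt q h h2).φ) + pr (RY f) x.2 (w.1 (dt q h h2).σ) with hPQ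
  have hPQzero : ∀ q, PQ q 0 := by
    intro q
    refine ⟨0, zero_mem _, rfl, fun h h2 w => ?_⟩
    rw [Prod.snd_zero, LinearMap.zero_apply, Prod.fst_zero, pr_zero_left_G2]
    show (0 : ZMod 2) = 0 + pr (RY f) 0 _
    rw [pr_zero_left_G2, add_zero]
  have hPQadd : ∀ q p p', PQ q p → PQ q p' → PQ q (p + p') := by
    rintro q p p' ⟨x, hx, e, hw⟩ ⟨x', hx', e', hw'⟩
    refine ⟨x + x', add_mem hx hx', ?_, fun h h2 w => ?_⟩
    · rw [Prod.fst_add, Prod.fst_add, e, e']
    · rw [Prod.snd_add, LinearMap.add_apply, hw h h2, hw' h h2, Prod.fst_add, Prod.snd_add, pr_add_left_G2,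
        pr_add_left_G2]
      abel
  set RQ : ℕ → Submodule (ZMod 2) ((Pt (RY f) S → ZMod 2) × Module.Dual (ZMod 2) E) := fun q =>
    { carrier := {p | PQ q p}
      add_mem' := fun {a b} ha hb => hPQadd q a b ha hb
      zero_mem' := hPQzero q
      smul_mem' := fun c x hx => smul_G2 {p | PQ q p} (hPQzero q) c x hx } with hRQ
  have hRQdim : ∀ q ∈ Q, Module.finrank (ZMod 2)
      ((RQ q).map (LinearMap.snd (ZMod 2) _ (Module.Dual (ZMod 2) E))) ≤ fixq f S dt q := by
    intro q hq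
    have hq2 := gp_ne q (hQ q hq)
    have hfix : fixq f S dt q = Module.finrank (ZMod 2) (FixEv (RY f) S (dt q hq2.1 hq2.2).φ) := by
      unfold fixq
      rw [dif_pos hq2]
      rfl
    rw [hfix]
    refine dim_G2 _ (RQ q) ?_ ?_
    · rintro p ⟨x, hx, e, -⟩
      rw [e]
      exact (hΛ q hq hq2.1 hq2.2 x hx).1
    · rintro p ⟨x, hx, e, hw⟩ hp0
      rw [hp0] at e
      obtain ⟨m, -, hm⟩ := (hΛ q hq hq2.1 hq2.2 x hx).2 e.symm
      refine LinearMap.ext fun w => ?_
      rw [hw hq2.1 hq2.2 w, ← e, pr_zero_left_G2, hm, zero_add, LinearMap.zero_apply]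
      exact pr_fix_G2 (RY f) _ m _ ((hG q (hQ q hq) (dt q hq2.1 hq2.2)).2 S w.1 (hEc w.1 w.2).1).1.2
  -- the space
  set Φ : Submodule (ZMod 2) (Module.Dual (ZMod 2) E) :=
    (R.map (LinearMap.snd (ZMod 2) _ (Module.Dual (ZMod 2) E))) ⊔
      Q.sup (fun q => (RQ q).map (LinearMap.snd (ZMod 2) _ (Module.Dual (ZMod 2) E))) with hΦ
  have hΦdim : Module.finrank (ZMod 2) Φ ≤ Module.finrank (ZMod 2) L + ∑ q ∈ Q, fixq f S dt q :=
    sup2_G2 _ _ _ _ hRdim (sup_G2 Q _ _ hRQdim)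
  obtain ⟨W, hWE, hWdim, hWm⟩ := perp_G2 E Φ _ hΦdim
  refine ⟨W, hWE, by rw [Nat.add_assoc]; exact hWdim, ?_⟩
  · intro w hw
    obtain ⟨w0, rfl, hw0⟩ := hWm w hw
    constructor
    · intro q hq h h2 x hx
      set φx : Module.Dual (ZMod 2) E := lm_G2
        (fun w : E => pr (RY f) x.1 (w.1 (dt q h h2).φ) + pr (RY f) x.2 (w.1 (dt q h h2).σ)) (by
          intro a b
          show pr (RY f) x.1 (a.1 (dt q h h2).φ + b.1 (dt q h h2).φ) +
            pr (RY f) x.2 (a.1 (dt q h h2).σ + b.1 (dt q h h2).σ) = _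
          rw [pr_add_right_G2, pr_add_right_G2]
          abel) with hφx
      have hmem : φx ∈ Φ := by
        refine Submodule.mem_sup_right ?_
        have hle := Finset.le_sup (f := fun q => (RQ q).map
          (LinearMap.snd (ZMod 2) (Pt (RY f) S → ZMod 2) (Module.Dual (ZMod 2) E))) hq
        apply hle
        refine Submodule.mem_map.2 ⟨(x.1, φx), ?_, rfl⟩
        exact ⟨x, hx, rfl, fun _ _ w => rfl⟩
      exact hw0 φx hmem
    · intro Q' hQQ' hQ' z hz hzu hzl
      obtain ⟨l, hl, hzl⟩ := hzl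
      set φz : Module.Dual (ZMod 2) E := lm_G2 (fun w : E => ∑ q ∈ Q', lpd f dt q z w.1) (by
          intro a b
          rw [← Finset.sum_add_distrib]
          exact Finset.sum_congr rfl fun q _ => lpd_add_right_G2 dt q z a.1 b.1) with hφz
      have hmem : φz ∈ Φ := by
        refine Submodule.mem_sup_left ?_
        refine Submodule.mem_map.2 ⟨(l, φz), ?_, rfl⟩
        exact ⟨hl, z, Q', hQQ', hQ', hz, hzu, hzl, fun w => rfl⟩
      exact hw0 φz hmem

end Pool.TW
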