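import Pool.Agent.Helper34.TW.StF

/-!
# Project TW, module G3: the choice of the killing prime
-/

set_option autoImplicit false

open scoped Pointwise NumberField
open NumberField Polynomial IsDedekindDomain Pool.RG2

namespace Pool.TW

private lemma stab_open_G3 (f : ℤ[X]) (x : Rt f) : IsOpen {g : GQ | g • x = x} := by
  have hfd : FiniteDimensional ℚ (IntermediateField.adjoin ℚ {x.1}) := by
    apply IntermediateField.adjoin.finiteDimensional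
    have := Pool.RG.instAlg
    exact Algebra.IsIntegral.isIntegral x.1
  have h2 : IsOpen ((GF (IntermediateField.adjoin ℚ {x.1}) : Subgroup GQ) : Set GQ) :=
    IntermediateField.fixingSubgroup_isOpen _
  have h3 : IsOpen ((MulAction.stabilizer GQ x : Subgroup GQ) : Set GQ) := by
    refine Subgroup.isOpen_mono (fun g hg => ?_) h2
    rw [MulAction.mem_stabilizer_iff]
    apply Subtype.ext
    exact (IntermediateField.mem_fixingSubgroup_iff _ g).1 hg x.1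
      (IntermediateField.mem_adjoin_simple_self ℚ x.1)
  exact h3

private lemma core_G3 {r : ℕ} (f : Fin r → ℤ[X]) (G : Subgroup GQ) (hG : IsOpen (G : Set GQ))
    (E : (S : Finset (Fin r)) → Submodule (ZMod 2) (GQ → Pt (RY f) S → ZMod 2))
    (hfin : ∀ S, Module.Finite (ZMod 2) (E S)) (hcoc : ∀ S, ∀ w ∈ E S, IsCoc (RY f) w) :
    ∃ N : Subgroup GQ, N.Normal ∧ IsOpen (N : Set GQ) ∧ N ≤ G ∧
      (∀ n ∈ N, ∀ s (x : Rt (f s)), n • x = x) ∧ ∀ S, ∀ w ∈ E S, ∀ n ∈ N, w n = 0 := by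
  have hfE : ∀ S, Finite (E S) := fun S => by
    have := hfin S
    exact Module.finite_of_finite (ZMod 2)
  have hex : ∀ S, ∀ w : E S, ∃ U : Subgroup GQ, IsOpen (U : Set GQ) ∧ ∀ u ∈ U, w.1 u = 0 :=
    fun S w => (hcoc S w.1 w.2).lc
  choose U hUo hU0 using hex
  have hopen : IsOpen (((G : Set GQ) ∩ ⋂ s, ⋂ x : Rt (f s), {g : GQ | g • x = x}) ∩
      ⋂ S, ⋂ w : E S, (U S w : Set GQ)) := by
    refine (hG.inter ?_).inter ?_
    · exact isOpen_iInter_of_finite fun s => isOpen_iInter_of_finite fun x => stab_open_G3 (f s) x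
    · refine isOpen_iInter_of_finite fun S => ?_
      have := hfE S
      exact isOpen_iInter_of_finite fun w => hUo S w
  have hone : (1 : GQ) ∈ (((G : Set GQ) ∩ ⋂ s, ⋂ x : Rt (f s), {g : GQ | g • x = x}) ∩
      ⋂ S, ⋂ w : E S, (U S w : Set GQ)) := by
    refine ⟨⟨G.one_mem, ?_⟩, ?_⟩
    · exact Set.mem_iInter.2 fun s => Set.mem_iInter.2 fun x => one_smul _ _
    · exact Set.mem_iInter.2 fun S => Set.mem_iInter.2 fun w => (U S w).one_mem
  obtain ⟨H, hH⟩ := ProfiniteGrp.exist_openNormalSubgroup_sub_open_nhds_of_one hopen hone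
  refine ⟨H.toSubgroup, H.isNormal', H.isOpen', fun g hg => (hH hg).1.1, fun n hn s x => ?_,
    fun S w hw n hn => ?_⟩
  · exact Set.mem_iInter.1 (Set.mem_iInter.1 (hH hn).1.2 s) x
  · exact hU0 S ⟨w, hw⟩ n (Set.mem_iInter.1 (Set.mem_iInter.1 (hH hn).2 S) ⟨w, hw⟩)

private lemma even_G3 {Γ : Type} [Group Γ] {Y : Type} [Fintype Y] [MulAction Γ Y] (N : Subgroup Γ) [N.Normal]
    (hN : ∀ n ∈ N, ∀ y : Y, n • y = y) (g : Γ) (hodd : Odd (Fintype.card Y)) (h3 : 3 ≤ Fintype.card Y) (y0 : Y)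
    (hper : ∀ y : Y, y ≠ y0 → ∀ k : ℕ, g ^ k • y = y ↔ (Fintype.card Y - 1) ∣ k) :
    Even (orderOf (g : Γ ⧸ N)) := by
  obtain ⟨y, hy⟩ := Fintype.exists_ne_of_one_lt_card (by omega : 1 < Fintype.card Y) y0
  have h1 : ((g ^ orderOf (g : Γ ⧸ N) : Γ) : Γ ⧸ N) = 1 := by
    rw [QuotientGroup.mk_pow]
    exact pow_orderOf_eq_one _
  have h2 : g ^ orderOf (g : Γ ⧸ N) ∈ N := (QuotientGroup.eq_one_iff _).1 h1
  have h4 := (hper y hy _).1 (hN _ h2 y)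
  have h5 : Even (Fintype.card Y - 1) := by
    obtain ⟨m, hm⟩ := hodd
    exact ⟨m, by omega⟩
  exact h5.trans_dvd h4

private lemma smul_pow_G3 {Γ : Type} [Group Γ] {Y : Type} [MulAction Γ Y] {g g0 : Γ}
    (h : ∀ y : Y, g • y = g0 • y) (k : ℕ) (y : Y) : g ^ k • y = g0 ^ k • y := by
  induction k with
  | zero => rw [pow_zero, pow_zero]
  | succ k ih => rw [pow_succ', pow_succ', mul_smul, mul_smul, ih, h]

private lemma act_zero_G3 {Γ : Type} [Group Γ] {r : ℕ} (Y : Fin r → Type) [∀ s, MulAction Γ (Y s)]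
    {S : Finset (Fin r)} (γ : Γ) : act Y γ (0 : Pt Y S → ZMod 2) = 0 := rfl

/-- G3. -/
theorem hG3 : StG3 := by
  intro h1 _ h11 h12 hD7 hD10 hD11 hD12 hD13 hG0 hFROB h8910 r f hf dt Qa hQa E hfin hE0 hcoc hcob
    𝒮 J d W hW hfix hNum S0 c0 hc0 hc0ne B
  classical
  obtain ⟨h8, h9, h10⟩ := h8910
  obtain ⟨-, -, hGp⟩ := hD11 hD10 r f hf
  obtain ⟨hcomm, hGpo, hperm⟩ := hGp Qa
  have hperm' := hperm hQa
  obtain ⟨hcard, ⟨g0, hτ⟩, -⟩ := hD13 hD7 hD10 hD11 r f hf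
  have hodd : ∀ s, Odd (Fintype.card (RY f s)) := fun s => by rw [hcard s]; exact hf.odd s
  have h3 : ∀ s, 3 ≤ Fintype.card (RY f s) := fun s => by rw [hcard s]; exact hf.three s
  obtain ⟨g, hgG, hgg0, hgz, x, hx, hxc⟩ := h11 h1 h8 h9 h10 GQ r (RY f) hodd h3 (Gp Qa) hcomm hperm' E hfin hE0
    (fun S w hw => (hcoc S w hw).toIsCoc0) hcob g0 hτ (fun S => hfix S g0 hτ) 𝒮 J d W hW
    (fun S hS => hNum S hS g0 hτ) S0 c0 hc0 hc0ne
  obtain ⟨N, hNn, hNo, hNG, hNr, hNE⟩ := core_G3 f (Gp Qa) hGpo E hfin hcoc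
  -- the order of `g` is even
  have hS0 : S0.Nonempty := by
    rw [Finset.nonempty_iff_ne_empty]
    rintro rfl
    rw [hE0] at hc0
    exact hc0ne ((Submodule.mem_bot _).1 hc0)
  obtain ⟨s0, -⟩ := hS0
  have heven : Even (orderOf (g : GQ ⧸ N)) := by
    obtain ⟨y0, -, -, hper⟩ := hτ s0
    refine even_G3 N (fun n hn y => hNr n hn s0 y) g (hodd s0) (h3 s0) y0 fun y hy k => ?_
    rw [smul_pow_G3 (hgg0 s0) k y]
    exact hper y hy k
  -- the prime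
  obtain ⟨B0, hB0⟩ := hG0 r f hf
  obtain ⟨p, hp, hpB, hpP⟩ := hFROB N hNo g (B + Qa.sup id + 2 + B0)
  have hp2 : p ≠ 2 := by omega
  have hpQ : p ∉ Qa := by
    intro hpQ
    have : p ≤ Qa.sup id := Finset.le_sup (f := id) hpQ
    omega
  obtain ⟨-, hφ⟩ := hpP (dt p hp hp2).P (dt p hp hp2).hP (dt p hp hp2).hq
  obtain ⟨γ, k, hk, hN⟩ := hφ (dt p hp hp2).φ (dt p hp hp2).hφ
  have hφG : (dt p hp hp2).φ ∈ Gp Qa := by
    have e1 : γ * g ^ k * γ⁻¹ ∈ Gp Qa := by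
      have := (Gp Qa).mul_mem (hcomm γ (g ^ k)) ((Gp Qa).pow_mem hgG k)
      have e : γ * g ^ k * γ⁻¹ * (g ^ k)⁻¹ * g ^ k = γ * g ^ k * γ⁻¹ := by group
      rwa [e] at this
    have e2 := (Gp Qa).mul_mem e1 ((Gp Qa).inv_mem (hNG hN))
    have e : γ * g ^ k * γ⁻¹ * ((dt p hp hp2).φ⁻¹ * (γ * g ^ k * γ⁻¹))⁻¹ = (dt p hp hp2).φ := by group
    rwa [e] at e2
  obtain ⟨hp8, hrec⟩ := hD12.1 p hp hp2 (dt p hp hp2).P (dt p hp hp2).φ (dt p hp hp2).hP (dt p hp hp2).hq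
    (dt p hp hp2).hφ Qa hφG
  have h12' := fun S => h12 h1 GQ r (RY f) N hNr g γ (dt p hp hp2).φ k hk heven hN S
  refine ⟨p, hp, hp2, by omega, hpQ, ⟨hp, hp8, fun P hP hpP => hB0 p hp (by omega) P hP hpP⟩, ?_, ?_, ?_⟩
  · intro q hq h' h2' y hy
    exact hrec q hq h' h2' (fun h => hpQ (h ▸ hq)) (dt q h' h2').P (dt q h' h2').φ (dt q h' h2').hP
      (dt q h' h2').hq (dt q h' h2').hφ y hy
  · intro S hS k' z hz hzw
    obtain ⟨hA, hBB⟩ := h12' S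
    obtain ⟨x', hx', rfl⟩ := (hA z).1 hz
    have hx0 : x' = 0 := by
      refine hgz S hS k' x' hx' fun w hw => ?_
      have hwE := (hW S hS k').1 hw
      rw [← hBB w (hcoc S w hwE).toIsCoc0 (hNE S w hwE) x' hx']
      exact hzw w hw
    rw [hx0, act_zero_G3]
  · obtain ⟨hA, hBB⟩ := h12' S0
    refine ⟨act (RY f) γ x, (hA _).2 ⟨x, hx, rfl⟩, ?_⟩
    rw [hBB c0 (hcoc S0 c0 hc0).toIsCoc0 (hNE S0 c0 hc0) x hx]
    exact hxc

end Pool.TW
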