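import Pool.Agent.Helper34.TW.StF
import Pool.Agent.Helper34.TW.M_E7

/-!
Project TW, module G4: the killing step.
-/

set_option autoImplicit false

open scoped Pointwise NumberField
open NumberField Polynomial IsDedekindDomain Pool.RG2

namespace Pool.TW

section aux

variable {r : ℕ} (f : Fin r → ℤ[X]) {S : Finset (Fin r)}

private theorem sub_add_G4 (c c' : GQ → Pt (RY f) S → ZMod 2) : c - c' = c + c' := by
  funext g x
  exact CharTwo.sub_eq_add _ _

/-- enlarging the space by the class of `c0` -/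
private theorem ext_G4 (E : Submodule (ZMod 2) (GQ → Pt (RY f) S → ZMod 2))
    (hfin : Module.Finite (ZMod 2) E) (hE : ∀ c ∈ E, IsCoc (RY f) c)
    (hE0 : ∀ c ∈ E, CobOn (RY f) Set.univ c → c = 0) (c0 : GQ → Pt (RY f) S → ZMod 2)
    (hc0 : IsCoc (RY f) c0) (hn : ¬ CobOn (RY f) Set.univ c0) :
    ∃ E' : Submodule (ZMod 2) (GQ → Pt (RY f) S → ZMod 2), E ≤ E' ∧ Module.Finite (ZMod 2) E' ∧
      (∀ c ∈ E', IsCoc (RY f) c) ∧ (∀ c ∈ E', CobOn (RY f) Set.univ c → c = 0) ∧
      ∃ c0' ∈ E', c0' ≠ 0 ∧ CobOn (RY f) Set.univ (c0 - c0') := by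
  by_cases h : ∃ e ∈ E, CobOn (RY f) Set.univ (c0 - e)
  · obtain ⟨e, heE, he⟩ := h
    refine ⟨E, le_rfl, hfin, hE, hE0, e, heE, ?_, he⟩
    rintro rfl
    rw [sub_zero] at he
    exact hn he
  · have hmem : ∀ c ∈ E ⊔ Submodule.span (ZMod 2) {c0}, ∃ e ∈ E, c = e ∨ c = e + c0 := by
      intro c hc
      obtain ⟨e, he, y, hy, rfl⟩ := Submodule.mem_sup.1 hc
      obtain ⟨a, rfl⟩ := Submodule.mem_span_singleton.1 hy
      refine ⟨e, he, ?_⟩
      rcases two_E7 a with rfl | rfl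
      · left; rw [zero_smul, add_zero]
      · right; rw [one_smul]
    refine ⟨E ⊔ Submodule.span (ZMod 2) {c0}, le_sup_left, ?_, ?_, ?_, c0,
      Submodule.mem_sup_right (Submodule.mem_span_singleton_self c0), ?_, ?_⟩
    · have h1 : (Submodule.span (ZMod 2) {c0}).FG := Submodule.fg_span_singleton c0
      have h2 : E.FG := Module.Finite.iff_fg.1 hfin
      exact Module.Finite.iff_fg.2 (h2.sup h1)
    · intro c hc
      obtain ⟨e, he, rfl | rfl⟩ := hmem c hc
      · exact hE _ he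
      · exact coc_add_E7 f (hE e he) hc0
    · intro c hc hcob
      obtain ⟨e, he, rfl | rfl⟩ := hmem c hc
      · exact hE0 _ he hcob
      · exfalso
        refine h ⟨e, he, ?_⟩
        rw [sub_add_G4, add_comm]
        exact hcob
    · rintro rfl
      exact hn (cob_zero_E7 f _)
    · rw [sub_self]
      exact cob_zero_E7 f _

end aux

section sets

variable {r : ℕ} (𝒬 : Fin r → Finset ℕ) (s0 : Fin r)

private theorem QS_not_G4 (A : Finset ℕ) {S : Finset (Fin r)} (h : s0 ∉ S) :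
    QS (Function.update 𝒬 s0 A) S = QS 𝒬 S := by
  unfold QS
  apply Finset.biUnion_congr rfl
  intro s hs
  rw [Function.update_of_ne]
  rintro rfl
  exact h hs

private theorem QS_mem_G4 (p : ℕ) {S : Finset (Fin r)} (h : s0 ∈ S) :
    QS (Function.update 𝒬 s0 (insert p (𝒬 s0))) S = insert p (QS 𝒬 S) := by
  ext q
  simp only [QS, Finset.mem_biUnion, Finset.mem_insert]
  constructor
  · rintro ⟨s, hs, hq⟩
    by_cases hss : s = s0
    · subst hss
      rw [Function.update_self, Finset.mem_insert] at hq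
      rcases hq with hq | hq
      · exact Or.inl hq
      · exact Or.inr ⟨s, hs, hq⟩
    · rw [Function.update_of_ne hss] at hq
      exact Or.inr ⟨s, hs, hq⟩
  · rintro (hq | ⟨s, hs, hq⟩)
    · exact ⟨s0, h, by rw [Function.update_self]; exact Finset.mem_insert.2 (Or.inl hq)⟩
    · by_cases hss : s = s0
      · subst hss
        exact ⟨s, hs, by rw [Function.update_self]; exact Finset.mem_insert_of_mem hq⟩
      · exact ⟨s, hs, by rw [Function.update_of_ne hss]; exact hq⟩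

private theorem QS_univ_G4 (S : Finset (Fin r)) : QS 𝒬 S ⊆ QS 𝒬 Finset.univ :=
  Finset.biUnion_subset_biUnion_of_subset_left _ (Finset.subset_univ S)

private theorem qs_G4 (D p : ℕ) (hp : p ≠ 0) (g : GQ) (hg : ∀ y : Qb, y ^ 2 = (p : Qb) → g y = y) :
    qs (p * D) g = qs D g := by
  obtain ⟨t, ht⟩ := IsAlgClosed.exists_pow_nat_eq (p : Qb) (n := 2) (by norm_num)
  have ht0 : t ≠ 0 := by
    rintro rfl
    rw [zero_pow (by norm_num)] at ht
    exact hp (by exact_mod_cast ht.symm)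
  have hgt := hg t ht
  have h : (∀ y : Qb, y ^ 2 = ((p * D : ℕ) : Qb) → g y = y) ↔ (∀ y : Qb, y ^ 2 = (D : Qb) → g y = y) := by
    constructor
    · intro h1 y hy
      have h2 := h1 (t * y) (by rw [mul_pow, ht, hy]; push_cast; ring)
      rw [map_mul, hgt] at h2
      exact mul_left_cancel₀ ht0 h2
    · intro h1 y hy
      have h2 := h1 (y / t) (by
        rw [div_pow, hy, ht]
        push_cast
        rw [mul_comm, mul_div_assoc, div_self (by exact_mod_cast hp), mul_one])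
      rw [map_div₀, hgt] at h2
      field_simp at h2
      exact h2
  unfold qs
  by_cases h1 : ∀ y : Qb, y ^ 2 = (D : Qb) → g y = y
  · rw [if_pos h1, if_pos (h.2 h1)]
  · rw [if_neg h1, if_neg (fun h2 => h1 (h.1 h2))]

end sets

private theorem fixD_empty_G4 {r : ℕ} (f : Fin r → ℤ[X]) (g : GQ) : 1 ≤ fixD (RY f) ∅ g := by
  have h1 : (fun _ => 1 : Pt (RY f) (∅ : Finset (Fin r)) → ZMod 2) ∈ FixEv (RY f) ∅ g :=
    ⟨fun s => absurd s.2 (Finset.notMem_empty _), rfl⟩
  have h2 : (⟨_, h1⟩ : FixEv (RY f) ∅ g) ≠ 0 := by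
    intro h
    have h3 := congrArg (fun m : FixEv (RY f) ∅ g => m.1 (fun s => absurd s.2 (Finset.notMem_empty _))) h
    exact one_ne_zero h3
  have : Nontrivial (FixEv (RY f) ∅ g) := ⟨⟨_, _, h2⟩⟩
  have : Finite (Pt (RY f) (∅ : Finset (Fin r)) → ZMod 2) := inferInstance
  exact Module.finrank_pos

theorem hG4 : StG4 := by
  classical
  intro hUNI hG1 hG2 hG3 hREC hF1 hF2 hA1 hA4 hA11 hA12 hD7 hD10 hD11 hD12 hD13 hG0 hFROB hA r f hf P0
    hP0 h2P0 dt J tm L Lam hMA 𝒬 h𝒬 S0 s0 hs0 c0 hc0 _ hc0n B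
  have hQS : ∀ S, ∀ q ∈ QS 𝒬 S, GP f q := by
    intro S q hq
    obtain ⟨s, _, hs⟩ := Finset.mem_biUnion.1 hq
    exact h𝒬.gp s q hs
  have hE : ∀ S : Finset (Fin r), ∃ E : Submodule (ZMod 2) (GQ → Pt (RY f) S → ZMod 2),
      Module.Finite (ZMod 2) E ∧ (∀ c ∈ E, IsCoc (RY f) c ∧ Unr f (QS 𝒬 S) c) ∧
      (∀ c ∈ E, CobOn (RY f) Set.univ c → c = 0) ∧
      (S.Nonempty → aN f S + ∑ q ∈ QS 𝒬 S, fixq f S dt q ≤ Module.finrank (ZMod 2) E) ∧
      (S = ∅ → E = ⊥) := by
    intro S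
    rcases S.eq_empty_or_nonempty with rfl | hS
    · refine ⟨⊥, inferInstance, ?_, ?_, ?_, fun _ => rfl⟩
      · intro c hc
        rw [Submodule.mem_bot] at hc
        rw [hc]
        exact ⟨coc_zero_E7 f, unr_zero_E7 f _⟩
      · intro c hc _
        exact (Submodule.mem_bot _).1 hc
      · intro h
        exact absurd h Finset.not_nonempty_empty
    · obtain ⟨E, h1, h2, h3, h4⟩ := hUNI r f hf dt (QS 𝒬 S) (hQS S) S hS
      exact ⟨E, h1, h2, h3, fun _ => h4, fun h => absurd h hS.ne_empty⟩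
  choose E hEfin hEc hE0 hEd hEb using hE
  -- the spaces `W`
  let Λ : (S : Finset (Fin r)) → ℕ → Submodule (ZMod 2) ((Pt (RY f) S → ZMod 2) × (Pt (RY f) S → ZMod 2)) :=
    fun S q => if h : q.Prime ∧ q ≠ 2 then Lam S q (qs (DS 𝒬 S) (dt q h.1 h.2).φ) else ⊥
  have hΛ : ∀ S q (h : q.Prime) (h2 : q ≠ 2), Λ S q = Lam S q (qs (DS 𝒬 S) (dt q h h2).φ) :=
    fun S q h h2 => dif_pos ⟨h, h2⟩
  have hW : ∀ (S : Finset (Fin r)) (k : Fin (J S)), ∃ W : Submodule (ZMod 2) (GQ → Pt (RY f) S → ZMod 2),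
      S.Nonempty → (W ≤ E S ∧ aN f S - tm S ≤ Module.finrank (ZMod 2) W) ∧
      ∀ w ∈ W, (∀ q ∈ QS 𝒬 S, ∀ (h : q.Prime) (h2 : q ≠ 2),
          ∀ x ∈ Lam S q (qs (DS 𝒬 S) (dt q h h2).φ),
          pr (RY f) x.1 (w (dt q h h2).φ) + pr (RY f) x.2 (w (dt q h h2).σ) = 0) ∧
        (∀ Q' : Finset ℕ, QS 𝒬 S ⊆ Q' → (∀ q ∈ Q', GP f q) → ∀ z : GQ → Pt (RY f) S → ZMod 2,
          IsCoc (RY f) z → Unr f Q' z →
          (∃ l ∈ L S k, CobOn (RY f) (Dec P0 : Set GQ) (z - l)) → ∑ q ∈ Q', lpd f dt q z w = 0) := by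
    intro S k
    by_cases hS : S.Nonempty
    · obtain ⟨hLf, hLd⟩ := hMA.fin S k hS
      obtain ⟨W, hW1, hW2, hW3⟩ := hG2 hREC hG1 hF1 hF2 hD10 hD11 r f hf P0 hP0 h2P0 dt S hS
        (QS 𝒬 S) (hQS S) (E S) (hEfin S) (hEc S) (L S k) hLf (Λ S) (by
          intro q hq h h2 x hx
          rw [hΛ S q h h2] at hx
          refine ⟨(hMA.l1 S q h h2 _ hS (hQS S q hq) x hx).1, fun hx1 => ?_⟩
          exact hMA.l2 S q h h2 _ hS (hQS S q hq) x hx hx1)
      refine ⟨W, fun _ => ⟨⟨hW1, ?_⟩, fun w hw => ⟨?_, (hW3 w hw).2⟩⟩⟩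
      · have := hEd S hS
        omega
      · intro q hq h h2 x hx
        rw [← hΛ S q h h2] at hx
        exact (hW3 w hw).1 q hq h h2 x hx
    · exact ⟨⊥, fun h => absurd h hS⟩
  choose W hW using hW
  -- the enlarged spaces
  obtain ⟨E', hEE', hE'fin, hE'c, hE'0, c0', hc0'E, hc0'n, hc0'c⟩ := ext_G4 f (E S0) (hEfin S0)
    (fun c hc => (hEc S0 c hc).1) (hE0 S0) c0 hc0 hc0n
  have hE2 : ∃ E2 : (S : Finset (Fin r)) → Submodule (ZMod 2) (GQ → Pt (RY f) S → ZMod 2),
      (∀ S, E S ≤ E2 S) ∧ (∀ S, Module.Finite (ZMod 2) (E2 S)) ∧ (∀ S, ∀ c ∈ E2 S, IsCoc (RY f) c) ∧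
      (∀ S, ∀ c ∈ E2 S, CobOn (RY f) Set.univ c → c = 0) ∧ E2 ∅ = ⊥ ∧ c0' ∈ E2 S0 := by
    refine ⟨Function.update E S0 E', ?_, ?_, ?_, ?_, ?_, ?_⟩
    · intro S
      by_cases h : S = S0
      · subst h; rw [Function.update_self]; exact hEE'
      · rw [Function.update_of_ne h]
    · intro S
      by_cases h : S = S0
      · subst h; rw [Function.update_self]; exact hE'fin
      · rw [Function.update_of_ne h]; exact hEfin S
    · intro S
      by_cases h : S = S0
      · subst h; rw [Function.update_self]; exact hE'c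
      · rw [Function.update_of_ne h]; exact fun c hc => (hEc S c hc).1
    · intro S
      by_cases h : S = S0
      · subst h; rw [Function.update_self]; exact hE'0
      · rw [Function.update_of_ne h]; exact hE0 S
    · rw [Function.update_of_ne]
      · exact hEb ∅ rfl
      · rintro rfl
        exact absurd hs0 (Finset.notMem_empty _)
    · rw [Function.update_self]
      exact hc0'E
  obtain ⟨E2, hE2le, hE2fin, hE2c, hE20, hE2b, hc0'E2⟩ := hE2
  obtain ⟨p, hp, hp2, hBp, hpQ, hpG, hpq, hpk, x, hx, hxc⟩ := hG3 hA1 hA4 hA11 hA12 hD7 hD10 hD11 hD12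
    hD13 hG0 hFROB hA r f hf dt (QS 𝒬 Finset.univ) (hQS _) E2 hE2fin hE2b hE2c hE20
    (Finset.univ.filter fun S => s0 ∈ S) J (fun S => aN f S - tm S) W
    (by
      intro S hS k
      have hne : S.Nonempty := ⟨s0, (Finset.mem_filter.1 hS).2⟩
      exact ⟨(hW S k hne).1.1.trans (hE2le S), (hW S k hne).1.2⟩)
    (by
      intro S g hg
      rcases S.eq_empty_or_nonempty with rfl | hS
      · exact fixD_empty_G4 f g
      · exact (hMA.num S hS g hg).1)
    (by
      intro S hS g hg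
      have hne : S.Nonempty := ⟨s0, (Finset.mem_filter.1 hS).2⟩
      exact (hMA.num S hne g hg).2)
    S0 c0' hc0'E2 hc0'n B
  have hpS : ∀ S, p ∉ QS 𝒬 S := fun S h => hpQ (QS_univ_G4 𝒬 S h)
  have hDS : ∀ S, s0 ∈ S → DS (Function.update 𝒬 s0 (insert p (𝒬 s0))) S = p * DS 𝒬 S := by
    intro S hS
    unfold DS
    rw [QS_mem_G4 𝒬 s0 p hS, Finset.prod_insert (hpS S)]
  have hqs : ∀ S, s0 ∈ S → ∀ q ∈ QS 𝒬 S, ∀ (h : q.Prime) (h2 : q ≠ 2),
      qs (DS (Function.update 𝒬 s0 (insert p (𝒬 s0))) S) (dt q h h2).φ = qs (DS 𝒬 S) (dt q h h2).φ := by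
    intro S hS q hq h h2
    rw [hDS S hS]
    exact qs_G4 _ p hp.ne_zero _ (hpq q (QS_univ_G4 𝒬 S hq) h h2)
  obtain ⟨_, hG1p⟩ := hG1 hF1 hF2 hD10 hD11 r f hf p hpG (dt p hp hp2)
  have hGP' : ∀ S, ∀ q ∈ insert p (QS 𝒬 S), GP f q := by
    intro S q hq
    rcases Finset.mem_insert.1 hq with rfl | hq
    · exact hpG
    · exact hQS S q hq
  have key : ∀ S : Finset (Fin r), s0 ∈ S → ∀ k (z : GQ → Pt (RY f) S → ZMod 2),
      Sel f P0 dt (Function.update 𝒬 s0 (insert p (𝒬 s0))) (L S k) (Lam S) z →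
      z (dt p hp hp2).σ = 0 := by
    intro S hS k z hz
    have hne : S.Nonempty := ⟨s0, hS⟩
    obtain ⟨hg1, hg2, _⟩ := hG1p S z hz.coc
    refine hpk S (Finset.mem_filter.2 ⟨Finset.mem_univ _, hS⟩) k _ hg1 ?_
    intro w hw
    obtain ⟨⟨hWE, _⟩, hW2⟩ := hW S k hne
    obtain ⟨hw1, hw2⟩ := hW2 w hw
    have hzu : Unr f (insert p (QS 𝒬 S)) z := by
      have := hz.unr
      rwa [QS_mem_G4 𝒬 s0 p hS] at this
    have hsum := hw2 (insert p (QS 𝒬 S)) (Finset.subset_insert _ _) (hGP' S) z hz.coc hzu hz.at2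
    rw [Finset.sum_insert (hpS S)] at hsum
    have hzero : ∑ q ∈ QS 𝒬 S, lpd f dt q z w = 0 := by
      apply Finset.sum_eq_zero
      intro q hq
      have hqG := hQS S q hq
      have hq2 : q ≠ 2 := by
        rintro rfl
        have := hqG.2.1
        omega
      have hat := hz.atq q (by rw [QS_mem_G4 𝒬 s0 p hS]; exact Finset.mem_insert_of_mem hq) hqG.1 hq2
      rw [hqs S hS q hq hqG.1 hq2] at hat
      have := hw1 q hq hqG.1 hq2 _ hat
      unfold lpd lp
      rw [dif_pos ⟨hqG.1, hq2⟩]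
      exact this
    rw [hzero, add_zero] at hsum
    have hwσ : w (dt p hp hp2).σ = 0 := by
      have hwE := hWE hw
      refine (hG1p S w (hEc S w hwE).1).2.2 (QS 𝒬 S) ?_ (hEc S w hwE).2
      intro q' hq'
      refine ⟨(hQS S q' hq').1, ?_⟩
      rintro rfl
      exact hpS S hq'
    unfold lpd lp at hsum
    rw [dif_pos ⟨hp, hp2⟩, hwσ] at hsum
    have h0 : pr (RY f) (z (dt p hp hp2).φ) (0 : Pt (RY f) S → ZMod 2) = 0 := by
      unfold pr
      exact Finset.sum_eq_zero fun x _ => by rw [Pi.zero_apply, mul_zero]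
    rw [h0, add_zero] at hsum
    exact hsum
  refine ⟨p, hBp, ⟨?_, ?_⟩, ?_, ?_⟩
  · -- good primes
    intro s q hq
    by_cases hs : s = s0
    · subst hs
      rw [Function.update_self, Finset.mem_insert] at hq
      rcases hq with rfl | hq
      · exact hpG
      · exact h𝒬.gp s q hq
    · rw [Function.update_of_ne hs] at hq
      exact h𝒬.gp s q hq
  · -- disjointness
    have hpt : ∀ t, p ∉ 𝒬 t := fun t ht => hpQ (Finset.mem_biUnion.2 ⟨t, Finset.mem_univ _, ht⟩)
    intro s t hst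
    by_cases hs : s = s0
    · subst hs
      rw [Function.update_self, Function.update_of_ne (Ne.symm hst), Finset.disjoint_insert_left]
      exact ⟨hpt t, h𝒬.disj s t hst⟩
    · by_cases ht : t = s0
      · subst ht
        rw [Function.update_self, Function.update_of_ne hs, Finset.disjoint_insert_right]
        exact ⟨hpt s, h𝒬.disj s t hst⟩
      · rw [Function.update_of_ne hs, Function.update_of_ne ht]
        exact h𝒬.disj s t hst
  · -- the Selmer groups do not increase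
    intro S hne k z hz
    by_cases hS : s0 ∈ S
    · have hzσ := key S hS k z hz
      obtain ⟨_, hg2, _⟩ := hG1p S z hz.coc
      refine ⟨hz.coc, ?_, hz.at2, ?_⟩
      · intro P hP hP2 hPq
        by_cases hpP : (p : Zb) ∈ P
        · exact hg2 hzσ P hP hpP
        · refine hz.unr P hP hP2 ?_
          intro q hq
          rw [QS_mem_G4 𝒬 s0 p hS] at hq
          rcases Finset.mem_insert.1 hq with rfl | hq
          · exact hpP
          · exact hPq q hq
      · intro q hq h h2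
        have hat := hz.atq q (by rw [QS_mem_G4 𝒬 s0 p hS]; exact Finset.mem_insert_of_mem hq) h h2
        rwa [hqs S hS q hq h h2] at hat
    · have h1 := QS_not_G4 𝒬 s0 (insert p (𝒬 s0)) hS
      have h2 : DS (Function.update 𝒬 s0 (insert p (𝒬 s0))) S = DS 𝒬 S := by
        unfold DS
        rw [h1]
      refine ⟨hz.coc, ?_, hz.at2, ?_⟩
      · have := hz.unr
        rwa [h1] at this
      · intro q hq h h2'
        have hat := hz.atq q (by rw [h1]; exact hq) h h2'
        rwa [h2] at hat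
  · -- the class of `c0` is killed
    intro k z hz hcob
    have hne : S0.Nonempty := ⟨s0, hs0⟩
    have hzσ := key S0 hs0 k z hz
    have hat := hz.atq p (by rw [QS_mem_G4 𝒬 s0 p hs0]; exact Finset.mem_insert_self _ _) hp hp2
    obtain ⟨m', _, hm'⟩ := hMA.l2 S0 p hp hp2 _ hne hpG _ hat hzσ
    obtain ⟨m1, _, hm1⟩ := hcob
    obtain ⟨m2, _, hm2⟩ := hc0'c
    have e1 := hm1 (dt p hp hp2).φ (Set.mem_univ _)
    have e2 := hm2 (dt p hp hp2).φ (Set.mem_univ _)
    apply hxc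
    obtain ⟨ha1, _, _, _, ha5, _⟩ := hA1 GQ r (RY f) S0
    have hprs : ∀ a b c : Pt (RY f) S0 → ZMod 2, pr (RY f) a (b - c) = pr (RY f) a b - pr (RY f) a c := by
      intro a b c
      unfold pr
      rw [← Finset.sum_sub_distrib]
      exact Finset.sum_congr rfl fun y _ => by rw [Pi.sub_apply, mul_sub]
    have hinv : ∀ m : Pt (RY f) S0 → ZMod 2,
        pr (RY f) x (act (RY f) (dt p hp hp2).φ m - m) = 0 := by
      intro m
      rw [hprs]
      have h3 : pr (RY f) x (act (RY f) (dt p hp hp2).φ m) = pr (RY f) x m := by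
        have h4 := ha5 (dt p hp hp2).φ x m
        rwa [hx.2] at h4
      rw [h3, sub_self]
    have e3 : c0' (dt p hp hp2).φ = (act (RY f) (dt p hp hp2).φ m' - m')
        - (act (RY f) (dt p hp hp2).φ m1 - m1) - (act (RY f) (dt p hp hp2).φ m2 - m2) := by
      rw [← e1, ← e2, ← hm']
      simp only [Pi.sub_apply]
      abel
    rw [e3, hprs, hprs, hinv, hinv, hinv]
    simp

end Pool.TW
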