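import Pool.Agent.Helper34.TW.StH

set_option autoImplicit false

open scoped Pointwise NumberField
open NumberField Polynomial IsDedekindDomain Pool.RG2

namespace Pool.TW

/-- The arithmetic part of H1. -/
private theorem num_H1 (h13 : StA13) (h14 : StA14) {r : ℕ} (f : Fin r → ℤ[X]) (hf : Hyp f)
    (S : Finset (Fin r)) (hS : S.Nonempty) (h : ℕ)
    (hh : h * S.lcm (fun s => (f s).natDegree - 1) = ∏ s ∈ S, ((f s).natDegree - 1)) :
    1 ≤ h ∧ NumOK (JJ S) h (aN f S - tmm f S) := by
  have hA := h13 r (fun s => (f s).natDegree) hf.odd hf.three hf.coprime S h hh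
  have hB := h14 r (fun s => (f s).natDegree) hf.odd hf.three hf.coprime S h hh
  beta_reduce at hA hB
  have hc : 1 ≤ S.card := hS.card_pos
  rcases (by omega : S.card = 1 ∨ (S.card = 2 ∨ S.card = 3) ∨ 4 ≤ S.card) with h1 | h23 | h4
  · obtain ⟨ha, hb⟩ := hA.1 h1
    refine ⟨ha, Or.inl ⟨?_, ?_⟩⟩
    · simp [JJ, h1]
    · simpa [aN, tmm, h1] using hb
  · obtain ⟨ha, hb⟩ := hA.2 h23
    refine ⟨ha, Or.inl ⟨?_, ?_⟩⟩
    · unfold JJ
      rw [if_neg (by omega)]
      omega
    · have e1 : S.card / 2 = 1 := by omega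
      unfold tmm aN tn
      rw [if_neg (by omega), e1]
      simp only [Nat.cast_one, Int.toNat_one, Finset.sum_range_one, Nat.choose_zero_right, mul_one]
      omega
  · obtain ⟨ha, hb⟩ := hB h4
    refine ⟨ha, Or.inr ⟨S.card, hc, ?_, ?_⟩⟩
    · unfold JJ
      rw [if_neg (by omega)]
      have : S.card - 1 < 2 ^ (S.card - 1) := Nat.lt_two_pow_self
      omega
    · have hb' := hb (S.card / 2) (by omega) (by omega)
      unfold tmm aN tn
      rw [if_neg (by omega), Int.toNat_natCast]
      omega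

theorem hH1 : StH1 := by
  intro h4 h13 h14 r f hf hcard S hS g hg
  classical
  have h := h4 GQ r (RY f) S g (fun s => by rw [hcard s]; exact hf.three s) hg
  simp only [hcard] at h
  exact num_H1 h13 h14 f hf S hS _ h

end Pool.TW
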