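import Pool.Agent.Helper34.TW.StH

/-!
# Project TW, module H10 (continuity of the twists)
-/

set_option autoImplicit false

open scoped Pointwise NumberField
open NumberField Polynomial IsDedekindDomain Pool.RG2

namespace Pool.TW

private theorem cyc_cont_H10 : Continuous cyc := cyclotomicCharacter.continuous 2 ℚ Qb

private theorem quad_cont_H10 (D : ℕ) (χ : GQ →* ℤ_[2]ˣ) (hD : D ≠ 0) (h : IsQuad D χ) : Continuous χ := by
  obtain ⟨y, hy⟩ : ∃ y : Qb, y ^ 2 = (D : Qb) := IsAlgClosed.exists_pow_nat_eq (D : Qb) (by norm_num)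
  have hy0 : y ≠ 0 := by
    rintro rfl
    rw [zero_pow two_ne_zero] at hy
    exact hD (by exact_mod_cast hy.symm)
  have hyy : y ≠ -y := by
    intro h1
    have h2 : (2 : Qb) * y = 0 := by linear_combination h1
    rcases mul_eq_zero.mp h2 with h3 | h3
    · exact two_ne_zero h3
    · exact hy0 h3
  have hint : IsIntegral ℚ y := Algebra.IsIntegral.isIntegral y
  haveI : FiniteDimensional ℚ (IntermediateField.adjoin ℚ {y}) := IntermediateField.adjoin.finiteDimensional hint
  have hopen : IsOpen ((IntermediateField.adjoin ℚ {y}).fixingSubgroup : Set GQ) :=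
    IntermediateField.fixingSubgroup_isOpen _
  refine continuous_of_continuousAt_one χ ?_
  rw [ContinuousAt, map_one]
  refine Filter.Tendsto.congr' ?_ tendsto_const_nhds
  filter_upwards [hopen.mem_nhds (one_mem _)] with σ hσ
  have h1 : σ y = y := by
    have := hσ ⟨y, IntermediateField.mem_adjoin_simple_self ℚ y⟩
    simpa using this
  rcases h y hy σ with h2 | h2
  · exact h2.2.symm
  · exact absurd (h1.symm.trans h2.1) hyy

private theorem scal_cont_H10 (n : ℕ) : Continuous (scal n) := by
  unfold scal
  refine Continuous.units_map _ ?_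
  change Continuous fun a : ℤ_[2] => (Matrix.scalar (Fin n) a)
  simp only [Matrix.scalar_apply]
  exact Continuous.matrix_diagonal (continuous_pi fun _ => continuous_id)

theorem hH10 : StH10 := by
  intro n ρ hρ D χ hD h j
  have h1 : Continuous (fun σ : GQ => scal n ((χ * cyc ^ j) σ) * ρ σ) := by
    refine Continuous.mul ?_ hρ
    refine (scal_cont_H10 n).comp ?_
    change Continuous fun σ : GQ => χ σ * (cyc σ) ^ j
    exact (quad_cont_H10 D χ hD h).mul (cyc_cont_H10.zpow j)
  exact h1

end Pool.TW
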