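import Pool.Agent.Helper34.TW.StH

set_option autoImplicit false

open scoped Pointwise NumberField
open NumberField Polynomial IsDedekindDomain Pool.RG2

namespace Pool.TW

theorem hH11 : StH11 := by
  intro hR h9 h10 r f hf P0 hP0 h2 d ρ hρ u B
  obtain ⟨D, hD, h⟩ := hR r f hf P0 hP0 h2 d ρ hρ u B
  refine ⟨D, hD, fun S hS j hj χ hχ => ?_⟩
  have h0 : ∏ s ∈ S, D s ≠ 0 := Finset.prod_ne_zero_iff.2 fun s _ => (hD s).2.1.ne_zero
  exact h9 _ _ _ (h10 _ _ (hρ S hS).cont _ _ h0 hχ j) _ _ _ (h S hS j hj χ hχ)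

end Pool.TW
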