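import Pool.Agent.Helper34.TW.StH

set_option autoImplicit false

open scoped Pointwise NumberField
open NumberField Polynomial IsDedekindDomain Pool.RG2

namespace Pool.TW

private theorem vq_inj_H2 {n : ℕ} {x y : Fin n → ℤ_[2]} (h : vq x = vq y) : x = y := by
  funext i
  exact Subtype.ext (congrFun h i)

private theorem vq_add_H2 {n : ℕ} (x y : Fin n → ℤ_[2]) : vq (x + y) = vq x + vq y := by
  funext i
  simp [vq]

private theorem vq_sub_H2 {n : ℕ} (x y : Fin n → ℤ_[2]) : vq (x - y) = vq x - vq y := by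
  funext i
  simp [vq]

private theorem vq_smul_H2 {n : ℕ} (s : ℤ_[2]) (x : Fin n → ℤ_[2]) :
    vq (s • x) = (s : ℚ_[2]) • vq x := by
  funext i
  simp [vq]

private theorem vq_sum_H2 {n : ℕ} {ι : Type} (s : Finset ι) (x : ι → Fin n → ℤ_[2]) :
    vq (∑ i ∈ s, x i) = ∑ i ∈ s, vq (x i) := by
  classical
  induction s using Finset.induction_on with
  | empty =>
    funext i
    simp [vq]
  | insert a s ha ih => rw [Finset.sum_insert ha, Finset.sum_insert ha, vq_add_H2, ih]

private theorem vq_mulVec_H2 {n : ℕ} (g : GL (Fin n) ℤ_[2]) (x : Fin n → ℤ_[2]) :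
    vq ((g : Matrix (Fin n) (Fin n) ℤ_[2]).mulVec x) = (matQ 2 g).mulVec (vq x) := by
  funext i
  exact RingHom.map_mulVec (PadicInt.Coe.ringHom (p := 2)) (g : Matrix (Fin n) (Fin n) ℤ_[2]) x i

private theorem rdv_sub_H2 {n : ℕ} (x y : Fin n → ℤ_[2]) : rdv (x - y) = rdv x - rdv y := by
  funext i
  simp [rdv]

private theorem rdv_smul_H2 {n : ℕ} (s : ℤ_[2]) (x : Fin n → ℤ_[2]) :
    rdv (s • x) = (PadicInt.toZMod s : ZMod 2) • rdv x := by
  funext i
  simp [rdv]

private theorem rdv_sum_H2 {n : ℕ} {ι : Type} (s : Finset ι) (x : ι → Fin n → ℤ_[2]) :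
    rdv (∑ i ∈ s, x i) = ∑ i ∈ s, rdv (x i) := by
  funext i
  simp [rdv, Finset.sum_apply]

private theorem rdv_mulVec_H2 {n : ℕ} (g : GL (Fin n) ℤ_[2]) (x : Fin n → ℤ_[2]) :
    rdv ((g : Matrix (Fin n) (Fin n) ℤ_[2]).mulVec x) =
      (red 2 g : Matrix (Fin n) (Fin n) (ZMod 2)).mulVec (rdv x) := by
  funext i
  exact RingHom.map_mulVec (PadicInt.toZMod (p := 2)) (g : Matrix (Fin n) (Fin n) ℤ_[2]) x i

private theorem toZMod_zero_H2 (s : ℤ_[2]) (h : ‖s‖ < 1) : (PadicInt.toZMod s : ZMod 2) = 0 := by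
  rw [← RingHom.mem_ker, PadicInt.ker_toZMod, IsLocalRing.mem_maximalIdeal]
  exact PadicInt.mem_nonunits.2 h

/-- a vector of `V` whose coboundary on `A` is integral is integral, if there are no invariants modulo 2 -/
theorem integral_of_no_invariants_H2 {n : ℕ} (A : Set GQ) (ρ : GQ →* GL (Fin n) ℤ_[2])
    (hA : ∀ v : Fin n → ZMod 2, (∀ g ∈ A,
      (red 2 (ρ g) : Matrix (Fin n) (Fin n) (ZMod 2)).mulVec v = v) → v = 0)
    (C : GQ → Fin n → ℤ_[2]) (v : Fin n → ℚ_[2])
    (h : ∀ g ∈ A, vq (C g) = (matQ 2 (ρ g)).mulVec v - v) : ∃ w : Fin n → ℤ_[2], v = vq w := by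
  by_cases hint : ∀ i, ‖v i‖ ≤ 1
  · exact ⟨fun i => ⟨v i, hint i⟩, rfl⟩
  exfalso
  push Not at hint
  obtain ⟨i0, hi0⟩ := hint
  have hne : (Finset.univ : Finset (Fin n)).Nonempty := ⟨i0, Finset.mem_univ _⟩
  obtain ⟨i1, _, hi1⟩ := Finset.exists_max_image Finset.univ (fun i => ‖v i‖) hne
  have h1 : 1 < ‖v i1‖ := hi0.trans_le (hi1 i0 (Finset.mem_univ _))
  have hv0 : v i1 ≠ 0 := by
    intro h0
    rw [h0, norm_zero] at h1
    linarith
  have hs : ‖(v i1)⁻¹‖ < 1 := by
    rw [norm_inv]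
    exact inv_lt_one_of_one_lt₀ h1
  let s : ℤ_[2] := ⟨(v i1)⁻¹, hs.le⟩
  have hw : ∀ i, ‖(v i1)⁻¹ * v i‖ ≤ 1 := by
    intro i
    rw [norm_mul, norm_inv]
    have := hi1 i (Finset.mem_univ _)
    rw [inv_mul_le_iff₀ (by linarith)]
    simpa using this
  let w : Fin n → ℤ_[2] := fun i => ⟨(v i1)⁻¹ * v i, hw i⟩
  have hwv : vq w = (v i1)⁻¹ • v := by
    funext i
    rfl
  have h2 : ∀ g ∈ A, (ρ g : Matrix (Fin n) (Fin n) ℤ_[2]).mulVec w - w = s • C g := by
    intro g hg
    apply vq_inj_H2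
    rw [vq_sub_H2, vq_mulVec_H2, hwv, vq_smul_H2, h g hg, Matrix.mulVec_smul, smul_sub]
  have h3 : rdv w = 0 := by
    apply hA
    intro g hg
    have h4 := congrArg rdv (h2 g hg)
    rw [rdv_sub_H2, rdv_mulVec_H2, rdv_smul_H2, toZMod_zero_H2 s hs, zero_smul] at h4
    exact sub_eq_zero.1 h4
  have h5 := congrFun h3 i1
  have h6 : w i1 = 1 := by
    apply Subtype.ext
    change (v i1)⁻¹ * v i1 = ((1 : ℤ_[2]) : ℚ_[2])
    rw [inv_mul_cancel₀ hv0]
    rfl
  have h7 : rdv w i1 = 1 := by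
    change PadicInt.toZMod (w i1) = 1
    rw [h6, map_one]
  rw [h7] at h5
  exact one_ne_zero h5

theorem hH2 : StH2 := by
  classical
  intro n A ρ hA t u
  let Fn := GQ → Fin n → ZMod 2
  let B : Submodule (ZMod 2) (GQ → Fin n → ZMod 2) :=
    { carrier := {z | ∃ m : Fin n → ZMod 2, ∀ g ∈ A,
        z g = (red 2 (ρ g) : Matrix (Fin n) (Fin n) (ZMod 2)).mulVec m - m}
      add_mem' := by
        rintro a b ⟨m, hm⟩ ⟨m', hm'⟩
        refine ⟨m + m', fun g hg => ?_⟩
        rw [Pi.add_apply, hm g hg, hm' g hg, Matrix.mulVec_add]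
        abel
      zero_mem' := ⟨0, fun g _ => by simp⟩
      smul_mem' := by
        rintro r a ⟨m, hm⟩
        refine ⟨r • m, fun g hg => ?_⟩
        rw [Pi.smul_apply, hm g hg, Matrix.mulVec_smul, smul_sub] }
  let X : Set (GQ → Fin n → ℤ_[2]) := {c | ∃ (a : Fin t → ℚ_[2]) (v : Fin n → ℚ_[2]), ∀ g ∈ A,
    vq (c g) = ∑ i, a i • u i g + ((matQ 2 (ρ g)).mulVec v - v)}
  let r : (GQ → Fin n → ℤ_[2]) → (GQ → Fin n → ZMod 2) := fun c g => rdv (c g)
  let Y : Set ((GQ → Fin n → ZMod 2) ⧸ B) := (fun c => B.mkQ (r c)) '' X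
  -- the main claim
  have key : ∀ c : Fin (t + 1) → (GQ → Fin n → ℤ_[2]), (∀ i, c i ∈ X) →
      ¬ LinearIndependent (ZMod 2) (fun i => B.mkQ (r (c i))) := by
    intro c hc hli
    choose a v hav using hc
    have hdep : ¬ LinearIndependent ℚ_[2] a := by
      intro h
      have := h.fintype_card_le_finrank
      simp at this
    obtain ⟨lam, hlam, i0, hi0⟩ := Fintype.not_linearIndependent_iff.1 hdep
    have hne : (Finset.univ : Finset (Fin (t + 1))).Nonempty := ⟨i0, Finset.mem_univ _⟩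
    obtain ⟨i1, _, hi1⟩ := Finset.exists_max_image Finset.univ (fun i => ‖lam i‖) hne
    have h1 : 0 < ‖lam i1‖ := (norm_pos_iff.2 hi0).trans_le (hi1 i0 (Finset.mem_univ _))
    have hl0 : lam i1 ≠ 0 := norm_pos_iff.1 h1
    have hmu : ∀ i, ‖(lam i1)⁻¹ * lam i‖ ≤ 1 := by
      intro i
      rw [norm_mul, norm_inv]
      have := hi1 i (Finset.mem_univ _)
      rw [inv_mul_le_iff₀ h1]
      simpa using this
    let mu : Fin (t + 1) → ℤ_[2] := fun i => ⟨(lam i1)⁻¹ * lam i, hmu i⟩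
    have hmui1 : mu i1 = 1 := by
      apply Subtype.ext
      change (lam i1)⁻¹ * lam i1 = ((1 : ℤ_[2]) : ℚ_[2])
      rw [inv_mul_cancel₀ hl0]
      rfl
    have hmua : ∑ i, (mu i : ℚ_[2]) • a i = 0 := by
      have h2 : ∀ i, (mu i : ℚ_[2]) • a i = (lam i1)⁻¹ • (lam i • a i) := by
        intro i
        rw [smul_smul]
      simp_rw [h2]
      rw [← Finset.smul_sum, hlam, smul_zero]
    let C : GQ → Fin n → ℤ_[2] := fun g => ∑ i, mu i • c i g
    let V : Fin n → ℚ_[2] := ∑ i, (mu i : ℚ_[2]) • v i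
    have hC : ∀ g ∈ A, vq (C g) = (matQ 2 (ρ g)).mulVec V - V := by
      intro g hg
      have h3 : vq (C g) = ∑ i, (mu i : ℚ_[2]) • (∑ j, a i j • u j g +
          ((matQ 2 (ρ g)).mulVec (v i) - v i)) := by
        change vq (∑ i, mu i • c i g) = _
        rw [vq_sum_H2]
        apply Finset.sum_congr rfl
        intro i _
        rw [vq_smul_H2, hav i g hg]
      rw [h3]
      simp_rw [smul_add, smul_sub, Finset.smul_sum, smul_smul]
      rw [Finset.sum_add_distrib, Finset.sum_sub_distrib, Finset.sum_comm]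
      have h4 : ∑ j, ∑ i, ((mu i : ℚ_[2]) * a i j) • u j g = 0 := by
        apply Finset.sum_eq_zero
        intro j _
        rw [← Finset.sum_smul]
        have h5 := congrFun hmua j
        simp only [Finset.sum_apply, Pi.smul_apply, smul_eq_mul, Pi.zero_apply] at h5
        rw [h5, zero_smul]
      rw [h4, zero_add]
      have h6 : (matQ 2 (ρ g)).mulVec V = ∑ i, (mu i : ℚ_[2]) • (matQ 2 (ρ g)).mulVec (v i) := by
        change (matQ 2 (ρ g)).mulVec (∑ i, (mu i : ℚ_[2]) • v i) = _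
        rw [Matrix.mulVec_sum]
        apply Finset.sum_congr rfl
        intro i _
        rw [Matrix.mulVec_smul]
      rw [h6]
    obtain ⟨w, hw⟩ := integral_of_no_invariants_H2 A ρ hA C V hC
    have h7 : ∀ g ∈ A, C g = (ρ g : Matrix (Fin n) (Fin n) ℤ_[2]).mulVec w - w := by
      intro g hg
      apply vq_inj_H2
      rw [hC g hg, hw, vq_sub_H2, vq_mulVec_H2]
    have h8 : ∑ i, (PadicInt.toZMod (mu i) : ZMod 2) • r (c i) ∈ B := by
      refine ⟨rdv w, fun g hg => ?_⟩
      have h9 := congrArg rdv (h7 g hg)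
      rw [rdv_sub_H2, rdv_mulVec_H2] at h9
      rw [← h9]
      change _ = rdv (∑ i, mu i • c i g)
      rw [rdv_sum_H2, Finset.sum_apply]
      apply Finset.sum_congr rfl
      intro i _
      rw [rdv_smul_H2]
      rfl
    have h10 : ∑ i, (PadicInt.toZMod (mu i) : ZMod 2) • B.mkQ (r (c i)) = 0 := by
      have h11 := (Submodule.Quotient.mk_eq_zero B).2 h8
      have h12 : B.mkQ (∑ i, (PadicInt.toZMod (mu i) : ZMod 2) • r (c i)) = 0 := h11
      rw [map_sum] at h12
      simpa [map_smul] using h12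
    have h13 := Fintype.linearIndependent_iff.1 hli _ h10 i1
    rw [hmui1, map_one] at h13
    exact one_ne_zero h13
  obtain ⟨b, hbY, hbspan, hbli⟩ := exists_linearIndependent (ZMod 2) Y
  have hbcard : ∀ s : Finset ((GQ → Fin n → ZMod 2) ⧸ B), (s : Set _) ⊆ b → s.card ≤ t := by
    intro s hs
    by_contra hcon
    push Not at hcon
    obtain ⟨s', hs's, hs'c⟩ := Finset.exists_subset_card_eq hcon
    have e := s'.equivFinOfCardEq hs'c
    have hmem : ∀ i : Fin (t + 1), ((e.symm i : s') : (GQ → Fin n → ZMod 2) ⧸ B) ∈ b :=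
      fun i => hs (hs's (e.symm i).2)
    have hc : ∀ i : Fin (t + 1), ∃ c ∈ X, B.mkQ (r c) = ((e.symm i : s') : (GQ → Fin n → ZMod 2) ⧸ B) :=
      fun i => hbY (hmem i)
    choose c hcX hcr using hc
    apply key c hcX
    simp_rw [hcr]
    have h1 : LinearIndependent (ZMod 2) (fun i : Fin (t + 1) =>
        (⟨((e.symm i : s') : (GQ → Fin n → ZMod 2) ⧸ B), hmem i⟩ : b).1) := by
      refine hbli.comp (fun i : Fin (t + 1) => (⟨_, hmem i⟩ : b)) ?_
      intro i j hij
      have h2 := congrArg (fun z : b => z.1) hij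
      exact e.symm.injective (Subtype.ext h2)
    exact h1
  have hbfin : b.Finite := by
    by_contra hinf
    have hinf' : b.Infinite := hinf
    obtain ⟨s, hs, hsc⟩ := hinf'.exists_subset_card_eq (t + 1)
    have := hbcard s hs
    omega
  have hbc : hbfin.toFinset.card ≤ t := hbcard _ (by simp)
  have hch : ∀ y : b, ∃ c ∈ X, B.mkQ (r c) = y.1 := fun y => hbY y.2
  choose cc hccX hccr using hch
  have : Finite b := hbfin
  refine ⟨Submodule.span (ZMod 2) (Set.range (fun y : b => r (cc y))), ?_, ?_, ?_⟩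
  · exact Module.Finite.span_of_finite _ (Set.finite_range _)
  · have := Fintype.ofFinite b
    refine (finrank_range_le_card (fun y : b => r (cc y))).trans ?_
    rw [← Set.toFinset_card]
    have h1 : b.toFinset = hbfin.toFinset := by
      ext x
      simp
    rw [h1]
    exact hbc
  · intro c hc
    have h1 : B.mkQ (r c) ∈ Submodule.span (ZMod 2) b := by
      rw [hbspan]
      exact Submodule.subset_span ⟨c, hc, rfl⟩
    have h2 : b = Set.range (fun y : b => B.mkQ (r (cc y))) := by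
      ext y
      constructor
      · intro hy
        exact ⟨⟨y, hy⟩, hccr ⟨y, hy⟩⟩
      · rintro ⟨y', rfl⟩
        dsimp only
        rw [hccr y']
        exact y'.2
    have h3 : Submodule.span (ZMod 2) b =
        (Submodule.span (ZMod 2) (Set.range (fun y : b => r (cc y)))).map B.mkQ := by
      rw [Submodule.map_span, ← Set.range_comp]
      conv_lhs => rw [h2]
      rfl
    rw [h3] at h1
    obtain ⟨l, hl, hlc⟩ := h1
    have h4 : r c - l ∈ B := by
      rw [← Submodule.Quotient.mk_eq_zero]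
      have h5 : B.mkQ (r c - l) = 0 := by
        rw [map_sub, hlc, sub_self]
      exact h5
    obtain ⟨m, hm⟩ := h4
    refine ⟨l, hl, m, fun g hg => ?_⟩
    rw [← hm g hg]
    simp [r]

end Pool.TW
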