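import Pool.Agent.Helper34.TW.StH

/-!
# Project TW, module H3: the conditions `Lam`
-/

set_option autoImplicit false

open scoped Pointwise NumberField
open NumberField Polynomial IsDedekindDomain Pool.RG2

namespace Pool.TW

private lemma rdv_add_H3 {n : ℕ} (x y : Fin n → ℤ_[2]) : rdv (x + y) = rdv x + rdv y := by
  funext i
  exact map_add _ _ _

private lemma rdv_sub_H3 {n : ℕ} (x y : Fin n → ℤ_[2]) : rdv (x - y) = rdv x - rdv y := by
  funext i
  exact map_sub _ _ _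

private lemma rdv_smul_H3 {n : ℕ} (a : ℤ_[2]) (x : Fin n → ℤ_[2]) :
    rdv (a • x) = (PadicInt.toZMod a : ZMod 2) • rdv x := by
  funext i
  exact map_mul _ _ _

private lemma rdv_zero_H3 {n : ℕ} : rdv (0 : Fin n → ℤ_[2]) = 0 := by
  funext i
  exact map_zero _

private lemma rdv_mulVec_H3 {n : ℕ} (g : GL (Fin n) ℤ_[2]) (x : Fin n → ℤ_[2]) :
    rdv ((g : Matrix (Fin n) (Fin n) ℤ_[2]).mulVec x) =
      (red 2 g : Matrix (Fin n) (Fin n) (ZMod 2)).mulVec (rdv x) := by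
  funext i
  change PadicInt.toZMod (∑ j, (g : Matrix (Fin n) (Fin n) ℤ_[2]) i j * x j) =
    ∑ j, (red 2 g : Matrix (Fin n) (Fin n) (ZMod 2)) i j * rdv x j
  rw [map_sum]
  refine Finset.sum_congr rfl fun j _ => ?_
  rw [map_mul]
  rfl

private lemma two_H3 : (PadicInt.toZMod (2 : ℤ_[2]) : ZMod 2) = 0 := by
  have h : (PadicInt.toZMod (2 : ℤ_[2]) : ZMod 2) = 2 := map_ofNat _ 2
  rw [h]
  decide

private lemma sgn_H3 (ε : ZMod 2) :
    (PadicInt.toZMod (if ε = 0 then 1 else -1 : ℤ_[2]) : ZMod 2) = 1 := by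
  split_ifs
  · exact map_one _
  · rw [map_neg, map_one]
    decide

private lemma half_H3 {n : ℕ} (x : Fin n → ℤ_[2]) (hx : rdv x = 0) :
    ∃ x' : Fin n → ℤ_[2], x = (2 : ℤ_[2]) • x' := by
  have h : ∀ i, ∃ z : ℤ_[2], z * 2 = x i := by
    intro i
    have h1 : x i ∈ RingHom.ker (PadicInt.toZMod (p := 2)) := congrFun hx i
    rw [PadicInt.ker_toZMod, PadicInt.maximalIdeal_eq_span_p, Ideal.mem_span_singleton'] at h1
    obtain ⟨z, hz⟩ := h1
    exact ⟨z, by simpa using hz⟩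
  choose z hz using h
  refine ⟨z, ?_⟩
  funext i
  rw [Pi.smul_apply, smul_eq_mul, mul_comm]
  exact (hz i).symm

private lemma lift_H3 {n : ℕ} (v : Fin n → ZMod 2) : ∃ x : Fin n → ℤ_[2], rdv x = v := by
  have h : ∀ i, ∃ z : ℤ_[2], (PadicInt.toZMod z : ZMod 2) = v i := fun i =>
    ZMod.ringHom_surjective (PadicInt.toZMod (p := 2)) (v i)
  choose x hx using h
  exact ⟨x, funext hx⟩

private lemma two_cancel_H3 {n : ℕ} {x y : Fin n → ℤ_[2]} (h : (2 : ℤ_[2]) • x = (2 : ℤ_[2]) • y) :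
    x = y := by
  funext i
  have h1 := congrFun h i
  simp only [Pi.smul_apply, smul_eq_mul] at h1
  exact mul_left_cancel₀ two_ne_zero h1

/-- the space of the pairs `(e x̄, e ȳ)` with `2 y = x - s A x` -/
private noncomputable def LamA_H3 {n : ℕ} {W : Type} [AddCommGroup W] [Module (ZMod 2) W]
    (E : Submodule (ZMod 2) W) (e : (Fin n → ZMod 2) ≃ₗ[ZMod 2] E)
    (A : Matrix (Fin n) (Fin n) ℤ_[2]) (s : ℤ_[2]) : Submodule (ZMod 2) (W × W) where
  carrier := {p | ∃ x y : Fin n → ℤ_[2], (2 : ℤ_[2]) • y = x - s • A.mulVec x ∧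
    p = ((e (rdv x) : W), (e (rdv y) : W))}
  add_mem' := by
    rintro _ _ ⟨x, y, h, rfl⟩ ⟨x', y', h', rfl⟩
    refine ⟨x + x', y + y', ?_, ?_⟩
    · rw [smul_add, h, h', Matrix.mulVec_add, smul_add]
      abel
    · rw [rdv_add_H3, rdv_add_H3, map_add, map_add]
      rfl
  zero_mem' := by
    refine ⟨0, 0, ?_, ?_⟩
    · rw [Matrix.mulVec_zero]
      simp
    · rw [rdv_zero_H3, map_zero]
      rfl
  smul_mem' := by
    rintro c _ ⟨x, y, h, rfl⟩
    have hc : c = 0 ∨ c = 1 := by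
      revert c
      decide
    rcases hc with rfl | rfl
    · refine ⟨0, 0, ?_, ?_⟩
      · rw [Matrix.mulVec_zero]
        simp
      · rw [rdv_zero_H3, map_zero, zero_smul]
        rfl
    · exact ⟨x, y, h, one_smul _ _⟩

/-- The conditions `Lam`. -/
theorem hH3 : StH3 := by
  intro r f dt S n ρ e he
  classical
  refine ⟨fun q ε => if h : q.Prime ∧ q ≠ 2 then LamA_H3 (Ev (RY f) S) e
    (ρ (dt q h.1 h.2).φ : Matrix (Fin n) (Fin n) ℤ_[2]) (if ε = 0 then 1 else -1) else ⊥, ?_⟩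
  intro q h h2 ε
  beta_reduce
  rw [dif_pos ⟨h, h2⟩]
  set φ : GQ := (dt q h h2).φ with hφ
  set s : ℤ_[2] := if ε = 0 then 1 else -1 with hs
  have hs1 : (PadicInt.toZMod s : ZMod 2) = 1 := sgn_H3 ε
  have hneg : ∀ a b : Pt (RY f) S → ZMod 2, a - b = b - a := by
    intro a b
    funext i
    simp only [Pi.sub_apply]
    generalize a i = c
    generalize b i = d
    revert c d
    decide
  have hred : ∀ x : Fin n → ℤ_[2],
      rdv (x - s • (ρ φ : Matrix (Fin n) (Fin n) ℤ_[2]).mulVec x) =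
        rdv x - (red 2 (ρ φ) : Matrix (Fin n) (Fin n) (ZMod 2)).mulVec (rdv x) := by
    intro x
    rw [rdv_sub_H3, rdv_smul_H3, hs1, one_smul, rdv_mulVec_H3]
  have hact : ∀ x : Fin n → ℤ_[2],
      ((e (rdv (x - s • (ρ φ : Matrix (Fin n) (Fin n) ℤ_[2]).mulVec x)) : Ev (RY f) S) :
        Pt (RY f) S → ZMod 2) = act (RY f) φ (e (rdv x) : Pt (RY f) S → ZMod 2) -
          (e (rdv x) : Pt (RY f) S → ZMod 2) := by
    intro x
    rw [hred, map_sub, ← he φ (rdv x), hneg]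
    rfl
  refine ⟨?_, ?_, ?_, ?_⟩
  · rintro _ ⟨x, y, hxy, rfl⟩
    refine ⟨⟨(e (rdv x)).2, ?_⟩, (e (rdv y)).2⟩
    have h1 : rdv ((2 : ℤ_[2]) • y) = 0 := by
      rw [rdv_smul_H3, two_H3, zero_smul]
    rw [hxy, hred, sub_eq_zero] at h1
    change act (RY f) φ (e (rdv x) : Pt (RY f) S → ZMod 2) = (e (rdv x) : Pt (RY f) S → ZMod 2)
    rw [← he φ (rdv x), ← h1]
  · rintro _ ⟨x, y, hxy, rfl⟩ hx0
    replace hx0 : ((e (rdv x) : Ev (RY f) S) : Pt (RY f) S → ZMod 2) = 0 := hx0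
    have h1 : rdv x = 0 := by
      have h3 : e (rdv x) = 0 := Subtype.ext hx0
      exact (LinearEquiv.map_eq_zero_iff e).mp h3
    obtain ⟨x', rfl⟩ := half_H3 x h1
    have h4 : y = x' - s • (ρ φ : Matrix (Fin n) (Fin n) ℤ_[2]).mulVec x' := by
      apply two_cancel_H3
      rw [hxy, Matrix.mulVec_smul, smul_sub, smul_comm]
    refine ⟨_, (e (rdv x')).2, ?_⟩
    change ((e (rdv y) : Ev (RY f) S) : Pt (RY f) S → ZMod 2) = _
    rw [h4, hact]
  · intro m hm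
    obtain ⟨x', hx'⟩ := lift_H3 (e.symm ⟨m, hm⟩)
    refine ⟨(2 : ℤ_[2]) • x', x' - s • (ρ φ : Matrix (Fin n) (Fin n) ℤ_[2]).mulVec x', ?_, ?_⟩
    · rw [Matrix.mulVec_smul, smul_sub, smul_comm]
    · rw [hact, hx', LinearEquiv.apply_symm_apply, rdv_smul_H3, two_H3, zero_smul, map_zero]
      rfl
  · intro x y k k' hk hxy
    refine ⟨x, y + (2 : ℤ_[2]) • (k' • (ρ φ : Matrix (Fin n) (Fin n) ℤ_[2]).mulVec x), ?_, ?_⟩
    · rw [smul_add, hxy, hk, add_smul, smul_smul, smul_smul]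
      have h5 : (2 : ℤ_[2]) * 2 * k' = 4 * k' := by ring
      rw [h5]
      abel
    · rw [rdv_add_H3, rdv_smul_H3, two_H3, zero_smul, add_zero]

end Pool.TW
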