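import Pool.Agent.Helper34.TW.StH

/-!
# Project TW, module H4: characters
-/

set_option autoImplicit false

open scoped Pointwise NumberField
open NumberField Polynomial IsDedekindDomain Pool.RG2

namespace Pool.TW

private theorem lift_H4 (y : Qb) (n : ℕ) (h : y ^ 2 = (n : Qb)) :
    ∃ Y : Zb, (Y : Qb) = y ∧ Y ^ 2 = (n : Zb) := by
  have h1 : IsIntegral ℤ y := by
    refine IsIntegral.of_pow (n := 2) two_pos ?_
    rw [h]
    have h2 : (n : Qb) = algebraMap ℤ Qb n := by simp
    rw [h2]
    exact isIntegral_algebraMap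
  refine ⟨⟨y, h1⟩, rfl, ?_⟩
  apply RingOfIntegers.coe_injective
  rw [map_pow, map_natCast]
  exact h

/-- an inertia element does not change the sign of a unit at `P` -/
private theorem neg_H4 {P : Ideal Zb} (hP : P.IsMaximal) (h2 : (2 : Zb) ∉ P) {a : GQ} (ha : a ∈ Ine P)
    (Y : Zb) (hY : Y ∉ P) : a (Y : Qb) ≠ -(Y : Qb) := by
  intro h
  have h1 : a • Y - Y ∈ P := ha Y
  have h3 : a • Y - Y = -(2 * Y) := by
    apply RingOfIntegers.coe_injective
    rw [map_sub, map_neg, map_mul]
    have h4 : algebraMap Zb Qb (a • Y) = -(Y : Qb) := h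
    have h5 : algebraMap Zb Qb (2 : Zb) = 2 := map_ofNat _ 2
    rw [h4, h5]
    ring
  rw [h3, neg_mem_iff] at h1
  rcases hP.isPrime.mem_or_mem h1 with h4 | h4
  · exact h2 h4
  · exact hY h4

/-- an inertia element fixes the square roots of the integers which are units at `P` -/
private theorem fix_H4 {P : Ideal Zb} (hP : P.IsMaximal) (h2 : (2 : Zb) ∉ P) {a : GQ} (ha : a ∈ Ine P)
    (y : Qb) (n : ℕ) (hy : y ^ 2 = (n : Qb)) (hn : (n : Zb) ∉ P) : a y = y := by
  obtain ⟨Y, rfl, hY⟩ := lift_H4 y n hy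
  have h1 : Y ∉ P := by
    intro h
    apply hn
    rw [← hY, pow_two]
    exact P.mul_mem_left _ h
  have h3 : (a (Y : Qb)) ^ 2 = (Y : Qb) ^ 2 := by
    rw [← map_pow, hy, map_natCast]
  exact (sq_eq_sq_iff_eq_or_eq_neg.1 h3).resolve_right (neg_H4 hP h2 ha Y h1)

/-- an inertia element fixes the roots of unity of order a power of `2` -/
private theorem root_H4 {P : Ideal Zb} (hP : P.IsMaximal) (h2 : (2 : Zb) ∉ P) {a : GQ} (ha : a ∈ Ine P)
    (n : ℕ) : ∀ t : Qb, t ^ 2 ^ n = 1 → a t = t := by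
  induction n with
  | zero =>
    intro t ht
    rw [pow_zero, pow_one] at ht
    rw [ht, map_one]
  | succ n ih =>
    intro t ht
    have h1 : (t ^ 2) ^ 2 ^ n = 1 := by rw [← pow_mul, ← pow_succ', ht]
    have h3 := ih _ h1
    rw [map_pow] at h3
    refine (sq_eq_sq_iff_eq_or_eq_neg.1 h3).resolve_right ?_
    have hi : IsIntegral ℤ t := by
      refine IsIntegral.of_pow (n := 2 ^ (n + 1)) (by positivity) ?_
      rw [ht]
      exact isIntegral_one
    obtain ⟨T, rfl⟩ : ∃ T : Zb, (T : Qb) = t := ⟨⟨t, hi⟩, rfl⟩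
    refine neg_H4 hP h2 ha T ?_
    intro h
    have h4 : T ^ 2 ^ (n + 1) = 1 := by
      apply RingOfIntegers.coe_injective
      rw [map_pow, map_one]
      exact ht
    have h5 : (1 : Zb) ∈ P := by
      rw [← h4]
      exact Ideal.pow_mem_of_mem P h _ (by positivity)
    exact hP.ne_top ((Ideal.eq_top_iff_one P).2 h5)

private theorem enough_H4 (i : ℕ) : HasEnoughRootsOfUnity Qb (2 ^ i) := by
  have : NeZero ((2 ^ i : ℕ) : Qb) := ⟨by
    rw [Nat.cast_pow]
    exact pow_ne_zero _ (by norm_num)⟩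
  infer_instance

/-- the cyclotomic character modulo `2 ^ n` -/
private theorem cyc_H4 (g : GQ) (n : ℕ) (h : ∀ t : Qb, t ^ 2 ^ n = 1 → g t = t) :
    PadicInt.toZModPow n (cyc g : ℤ_[2]) = 1 := by
  have _ (i : ℕ) : HasEnoughRootsOfUnity Qb (2 ^ i) := enough_H4 i
  have h1 := cyclotomicCharacter.toZModPow 2 (n := n) (MulSemiringAction.toRingAut GQ Qb g)
  change PadicInt.toZModPow n ((cyclotomicCharacter Qb 2 (MulSemiringAction.toRingAut GQ Qb g)).val) = 1
  rw [h1, eq_comm]
  apply modularCyclotomicCharacter.unique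
  intro t ht
  have ht' : (t : Qb) ^ 2 ^ n = 1 := by
    have h3 := (mem_rootsOfUnity _ _).1 ht
    have h4 := congrArg (fun u : Qbˣ => (u : Qb)) h3
    simpa using h4
  have h5 : (MulSemiringAction.toRingAut GQ Qb g) (t : Qb) = t := h t ht'
  rw [h5]
  rcases Nat.eq_zero_or_pos n with hn | hn
  · subst hn
    rw [pow_zero, pow_one] at ht'
    rw [ht', one_pow]
  · have h6 : 1 < 2 ^ n := Nat.one_lt_two_pow hn.ne'
    have : Fact (1 < 2 ^ n) := ⟨h6⟩
    rw [ZMod.val_one, pow_one]

/-- **H4** characters -/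
theorem hH4 : StH4 := by
  intro hD12
  refine ⟨?_, ?_, ?_⟩
  · intro P hP h2 a ha
    apply Units.ext
    rw [Units.val_one]
    refine PadicInt.ext_of_toZModPow.1 fun n => ?_
    rw [map_one]
    exact cyc_H4 a n (root_H4 hP h2 ha n)
  · intro g hg
    have h1 : PadicInt.toZModPow 2 (cyc g : ℤ_[2]) = 1 := by
      refine cyc_H4 g 2 fun t ht => ?_
      have h3 : (t ^ 2) ^ 2 = 1 ^ 2 := by
        rw [← pow_mul, one_pow]
        exact ht
      rcases sq_eq_sq_iff_eq_or_eq_neg.1 h3 with h | h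
      · have h4 : t ^ 2 = 1 ^ 2 := by rw [h, one_pow]
        rcases sq_eq_sq_iff_eq_or_eq_neg.1 h4 with h5 | h5
        · rw [h5, map_one]
        · rw [h5, map_neg, map_one]
      · exact hg t h
    have h2 : (cyc g : ℤ_[2]) - 1 ∈ RingHom.ker (PadicInt.toZModPow (p := 2) 2) := by
      rw [RingHom.mem_ker, map_sub, map_one, h1, sub_self]
    rw [PadicInt.ker_toZModPow, Ideal.mem_span_singleton] at h2
    obtain ⟨k, hk⟩ := h2
    refine ⟨k, ?_⟩
    push_cast at hk
    linear_combination hk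
  · intro D χ hD hχ
    obtain ⟨y, hy⟩ := IsAlgClosed.exists_pow_nat_eq (D : Qb) (n := 2) two_pos
    have hDQ : (D : Qb) ≠ 0 := Nat.cast_ne_zero.2 hD
    have hroot : ∀ x : Qb, x ^ 2 = (D : Qb) → x ≠ -x := by
      intro x hx h
      have h7 : (2 : Qb) * x = 0 := by linear_combination h
      rcases mul_eq_zero.1 h7 with h | h
      · exact two_ne_zero h
      · rw [h] at hx
        apply hDQ
        rw [← hx]
        ring
    have hone : ∀ g : GQ, ∀ x : Qb, x ^ 2 = (D : Qb) → g x = x → χ g = 1 := by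
      intro g x hx hg
      rcases hχ x hx g with h | h
      · exact h.2
      · exact absurd (hg.symm.trans h.1) (hroot x hx)
    have hneg : ∀ g : GQ, ∀ x : Qb, x ^ 2 = (D : Qb) → g x = -x → χ g = -1 := by
      intro g x hx hg
      rcases hχ x hx g with h | h
      · exact absurd (h.1.symm.trans hg) (hroot x hx)
      · exact h.2
    refine ⟨?_, ?_, ?_, ?_⟩
    · intro q D' hq hq2 hDq hqD' dt a ha
      obtain ⟨y', hy'⟩ := IsAlgClosed.exists_pow_nat_eq (D' : Qb) (n := 2) two_pos
      have h2P : (2 : Zb) ∉ dt.P := by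
        intro h
        have h1 : q = 2 * (q / 2) + 1 := by
          have := hq.eq_two_or_odd
          omega
        have h3 : (1 : Zb) ∈ dt.P := by
          have h4 : ((2 * (q / 2) + 1 : ℕ) : Zb) ∈ dt.P := by rw [← h1]; exact dt.hq
          push_cast at h4
          exact (Ideal.add_mem_iff_right _ (dt.P.mul_mem_right _ h)).1 h4
        exact dt.hP.ne_top ((Ideal.eq_top_iff_one _).2 h3)
      have hD'P : (D' : Zb) ∉ dt.P := by
        intro h
        have hc : IsCoprime (q : ℤ) (D' : ℤ) :=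
          Nat.isCoprime_iff_coprime.2 ((Nat.Prime.coprime_iff_not_dvd hq).2 hqD')
        obtain ⟨u, v, huv⟩ := hc
        have h3 : (1 : Zb) ∈ dt.P := by
          have h4 : ((u * q + v * D' : ℤ) : Zb) ∈ dt.P := by
            push_cast
            exact dt.P.add_mem (dt.P.mul_mem_left _ dt.hq) (dt.P.mul_mem_left _ h)
          rw [huv] at h4
          simpa using h4
        exact dt.hP.ne_top ((Ideal.eq_top_iff_one _).2 h3)
      have hfix := fix_H4 dt.hP h2P ha y' D' hy' hD'P
      have hyy : (dt.w * y') ^ 2 = (D : Qb) := by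
        rw [mul_pow, dt.hw, hy', hDq]
        push_cast
        ring
      constructor
      · intro hw
        refine hone a _ hyy ?_
        rw [map_mul, hw, hfix]
      · intro hw
        refine hneg a _ hyy ?_
        rw [map_mul, hw, hfix]
        ring
    · intro P hP h2 hDP a ha
      exact hone a y hy (fix_H4 hP h2 ha y D hy hDP)
    · intro hD8 P0 hP0 h2 g hg
      exact hone g y hy (hD12.2 D hD8 P0 hP0 h2 g hg y hy)
    · intro g
      unfold qs
      by_cases hg : ∀ y : Qb, y ^ 2 = (D : Qb) → g y = y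
      · rw [if_pos hg, if_pos rfl, hone g y hy (hg y hy)]
        rfl
      · rw [if_neg hg, if_neg one_ne_zero]
        push Not at hg
        obtain ⟨x, hx, hgx⟩ := hg
        rcases hχ x hx g with h | h
        · exact absurd h.1 hgx
        · rw [h.2]
          rfl

end Pool.TW
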