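import Pool.Agent.Helper34.TW.StH

/-!
# Project TW, module H5: integrality on inertia groups
-/

set_option autoImplicit false

open scoped Pointwise NumberField
open NumberField Polynomial IsDedekindDomain Pool.RG2

namespace Pool.TW

private theorem vq_inj_H5 {n : ℕ} {s t : Fin n → ℤ_[2]} (h : vq s = vq t) : s = t := by
  funext i
  have h1 := congrFun h i
  simp only [vq] at h1
  exact Subtype.ext h1

private theorem vq_sub_H5 {n : ℕ} (s t : Fin n → ℤ_[2]) : vq (s - t) = vq s - vq t := by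
  funext i
  simp [vq]

private theorem vq_mulVec_H5 {n : ℕ} (g : GL (Fin n) ℤ_[2]) (t : Fin n → ℤ_[2]) :
    vq ((g : Matrix (Fin n) (Fin n) ℤ_[2]).mulVec t) = (matQ 2 g).mulVec (vq t) := by
  funext i
  simp only [vq, Matrix.mulVec, dotProduct, matQ, Matrix.map_apply]
  have h : ∀ a : ℤ_[2], (a : ℚ_[2]) = PadicInt.Coe.ringHom a := fun _ => rfl
  simp only [h, map_sum, map_mul]

theorem hH5 : StH5 := by
  intro n ρ P hdiv c hc
  obtain ⟨v, hv⟩ := hc
  obtain ⟨t, ht⟩ := hdiv v (fun σ hσ => ⟨c σ, (hv σ hσ).symm⟩)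
  refine ⟨t, fun σ hσ => ?_⟩
  apply vq_inj_H5
  rw [hv σ hσ, ht σ hσ, vq_sub_H5, vq_mulVec_H5]

end Pool.TW
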