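import Pool.Agent.Helper34.TW.StH

/-!
# Project TW, module H6: reduction of a cocycle
-/

set_option autoImplicit false

open scoped Pointwise NumberField
open NumberField Polynomial IsDedekindDomain Pool.RG2

namespace Pool.TW

private theorem toZMod_unit_H6 (u : ℤ_[2]ˣ) : PadicInt.toZMod (u : ℤ_[2]) = (1 : ZMod 2) := by
  have h : IsUnit (PadicInt.toZMod (u : ℤ_[2]) : ZMod 2) := u.isUnit.map _
  generalize (PadicInt.toZMod (u : ℤ_[2]) : ZMod 2) = z at h
  revert h
  revert z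
  decide

private theorem red_twist_H6 {n : ℕ} (ρ : GQ →* GL (Fin n) ℤ_[2]) (ψ : GQ →* ℤ_[2]ˣ) (g : GQ) :
    red 2 (twist ψ ρ g) = red 2 (ρ g) := by
  have h1 : twist ψ ρ g = scal n (ψ g) * ρ g := rfl
  have h2 : red 2 (scal n (ψ g)) = 1 := by
    apply Units.ext
    funext i j
    have h3 : (scal n (ψ g) : Matrix (Fin n) (Fin n) ℤ_[2]) i j = if i = j then (ψ g : ℤ_[2]) else 0 := by
      simp only [scal, Units.coe_map, RingHom.toMonoidHom_eq_coe, MonoidHom.coe_coe, Matrix.scalar_apply,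
        Matrix.diagonal_apply]
    have h4 : (red 2 (scal n (ψ g)) : Matrix (Fin n) (Fin n) (ZMod 2)) i j =
        PadicInt.toZMod ((scal n (ψ g) : Matrix (Fin n) (Fin n) ℤ_[2]) i j) := rfl
    rw [h4, h3]
    by_cases hij : i = j
    · subst hij
      simp [toZMod_unit_H6]
    · simp [hij]
  rw [h1, map_mul, h2, one_mul]

private theorem rdv_mulVec_H6 {n : ℕ} (A : GL (Fin n) ℤ_[2]) (x : Fin n → ℤ_[2]) :
    rdv ((A : Matrix (Fin n) (Fin n) ℤ_[2]).mulVec x) =
      (red 2 A : Matrix (Fin n) (Fin n) (ZMod 2)).mulVec (rdv x) := by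
  funext i
  have h4 : ∀ i j, (red 2 A : Matrix (Fin n) (Fin n) (ZMod 2)) i j =
      PadicInt.toZMod ((A : Matrix (Fin n) (Fin n) ℤ_[2]) i j) := fun i j => rfl
  simp only [rdv, Matrix.mulVec, dotProduct, map_sum, map_mul, h4]

private theorem rdv_add_H6 {n : ℕ} (x y : Fin n → ℤ_[2]) : rdv (x + y) = rdv x + rdv y := by
  funext i
  simp [rdv]

private theorem isOpen_H6 : IsOpen {x : ℤ_[2] | PadicInt.toZMod x = (0 : ZMod 2)} := by
  have h : {x : ℤ_[2] | PadicInt.toZMod x = (0 : ZMod 2)} = Metric.ball 0 1 := by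
    ext x
    rw [Set.mem_ofPred_eq, Metric.mem_ball, dist_zero_right]
    have h1 : PadicInt.toZMod x = (0 : ZMod 2) ↔ x ∈ RingHom.ker (PadicInt.toZMod (p := 2)) := Iff.rfl
    rw [h1, PadicInt.ker_toZMod, IsLocalRing.mem_maximalIdeal, PadicInt.mem_nonunits]
  rw [h]
  exact Metric.isOpen_ball

private theorem open_subgroup_H6 (U : Set GQ) (hU : IsOpen U) (h1 : (1 : GQ) ∈ U) :
    ∃ H : Subgroup GQ, IsOpen (H : Set GQ) ∧ (H : Set GQ) ⊆ U := by
  obtain ⟨E, hE, hEU⟩ := (krullTopology_mem_nhds_one_iff ℚ Qb U).1 (hU.mem_nhds h1)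
  exact ⟨E.fixingSubgroup, IntermediateField.fixingSubgroup_isOpen E, hEU⟩

theorem hH6 : StH6 := by
  intro r f S n ρ ψ e he
  have key : ∀ (g : GQ) (x : Fin n → ℤ_[2]),
      (e (rdv ((twist ψ ρ g : Matrix (Fin n) (Fin n) ℤ_[2]).mulVec x)) : Pt (RY f) S → ZMod 2) =
      act (RY f) g (e (rdv x) : Pt (RY f) S → ZMod 2) := by
    intro g x
    rw [rdv_mulVec_H6, red_twist_H6]
    exact he g (rdv x)
  refine ⟨fun g => red_twist_H6 ρ ψ g, key, ?_⟩
  intro c hc hcoc
  refine ⟨⟨fun g => (e (rdv (c g))).2, ?_⟩, ?_⟩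
  · intro a b
    show (e (rdv (c (a * b))) : Pt (RY f) S → ZMod 2) = _
    rw [hcoc a b, rdv_add_H6, map_add, Submodule.coe_add, key]
  · have hc1 : c 1 = 0 := by
      have h := hcoc 1 1
      rw [mul_one, map_one, Units.val_one, Matrix.one_mulVec] at h
      exact (left_eq_add.1 h)
    have hU : IsOpen {g : GQ | rdv (c g) = 0} := by
      have h : {g : GQ | rdv (c g) = 0} = ⋂ i : Fin n, (fun g => c g i) ⁻¹' {x : ℤ_[2] | PadicInt.toZMod x = (0 : ZMod 2)} := by
        ext g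
        simp only [Set.mem_ofPred_eq, Set.mem_iInter, Set.mem_preimage, rdv, funext_iff, Pi.zero_apply]
      rw [h]
      exact isOpen_iInter_of_finite fun i => isOpen_H6.preimage ((continuous_apply i).comp hc)
    obtain ⟨H, hH, hHU⟩ := open_subgroup_H6 _ hU (by
      show rdv (c 1) = 0
      rw [hc1]
      funext i
      simp [rdv])
    refine ⟨H, hH, fun u hu => ?_⟩
    have h2 : rdv (c u) = 0 := hHU hu
    show (e (rdv (c u)) : Pt (RY f) S → ZMod 2) = 0
    rw [h2, map_zero, Submodule.coe_zero]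

end Pool.TW
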