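import Pool.Agent.Helper34.TW.StH
import Pool.Agent.Helper34.TW.M_D12

/-!
# Project TW, module H7: one cocycle

The theorem takes `StH10` (continuity of the twist) as an additional hypothesis.
-/

set_option autoImplicit false

open scoped Pointwise NumberField
open NumberField Polynomial IsDedekindDomain Pool.RG2

namespace Pool.TW

private theorem rdv_sub_H7 {n : ℕ} (x y : Fin n → ℤ_[2]) : rdv (x - y) = rdv x - rdv y := by
  funext i
  simp [rdv]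

private theorem rdv_surj_H7 {n : ℕ} (x : Fin n → ZMod 2) : ∃ y : Fin n → ℤ_[2], rdv y = x := by
  have h : Function.Surjective (PadicInt.toZMod (p := 2)) := ZMod.ringHom_surjective _
  choose g hg using h
  exact ⟨fun i => g (x i), funext fun i => hg (x i)⟩

private theorem twist_one_H7 {n : ℕ} (ψ : GQ →* ℤ_[2]ˣ) (ρ : GQ →* GL (Fin n) ℤ_[2]) (g : GQ)
    (h : ψ g = 1) : twist ψ ρ g = ρ g := by
  change scal n (ψ g) * ρ g = ρ g
  rw [h, map_one, one_mul]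

private theorem twist_congr_H7 {n : ℕ} (ψ ψ' : GQ →* ℤ_[2]ˣ) (ρ : GQ →* GL (Fin n) ℤ_[2]) (g : GQ)
    (h : ψ g = ψ' g) : twist ψ ρ g = twist ψ' ρ g := by
  change scal n (ψ g) * ρ g = scal n (ψ' g) * ρ g
  rw [h]

private theorem scal_neg_H7 (n : ℕ) : scal n (-1) = -1 := by
  apply Units.ext
  change Matrix.scalar (Fin n) ((-1 : ℤ_[2]ˣ) : ℤ_[2]) =
    ((-1 : GL (Fin n) ℤ_[2]) : Matrix (Fin n) (Fin n) ℤ_[2])
  rw [Units.val_neg, Units.val_one, Units.val_neg, Units.val_one, map_neg, map_one]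

private theorem twist_mulVec_H7 {n : ℕ} (ψ : GQ →* ℤ_[2]ˣ) (ρ : GQ →* GL (Fin n) ℤ_[2]) (g : GQ)
    (x : Fin n → ℤ_[2]) : (twist ψ ρ g : Matrix (Fin n) (Fin n) ℤ_[2]).mulVec x =
      (ψ g : ℤ_[2]) • (ρ g : Matrix (Fin n) (Fin n) ℤ_[2]).mulVec x := by
  have h1 : (twist ψ ρ g : Matrix (Fin n) (Fin n) ℤ_[2]) =
      Matrix.scalar (Fin n) (ψ g : ℤ_[2]) * (ρ g : Matrix (Fin n) (Fin n) ℤ_[2]) := rfl
  rw [h1, ← Matrix.mulVec_mulVec, Matrix.scalar_apply]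
  funext i
  rw [Matrix.mulVec_diagonal]
  rfl

/-- units congruent to `1` modulo `4` -/
private def U4_H7 : Subgroup ℤ_[2]ˣ where
  carrier := {u | ∃ k : ℤ_[2], (u : ℤ_[2]) = 1 + 4 * k}
  mul_mem' := by
    rintro a b ⟨k, hk⟩ ⟨l, hl⟩
    exact ⟨k + l + 4 * k * l, by rw [Units.val_mul, hk, hl]; ring⟩
  one_mem' := ⟨0, by simp⟩
  inv_mem' := by
    rintro a ⟨k, hk⟩
    refine ⟨-(k * ((a⁻¹ : ℤ_[2]ˣ) : ℤ_[2])), ?_⟩
    have h1 : (a : ℤ_[2]) * ((a⁻¹ : ℤ_[2]ˣ) : ℤ_[2]) = 1 := by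
      rw [← Units.val_mul, mul_inv_cancel, Units.val_one]
    rw [hk] at h1
    linear_combination h1

private theorem zpow_H7 (g : GQ) (j : ℤ) (h : ∃ k : ℤ_[2], (cyc g : ℤ_[2]) = 1 + 4 * k) :
    ∃ k : ℤ_[2], (((cyc ^ j) g : ℤ_[2]ˣ) : ℤ_[2]) = 1 + 4 * k := by
  have h1 : cyc g ∈ U4_H7 := h
  have h2 : (cyc ^ j) g = (cyc g) ^ j := rfl
  rw [h2]
  exact U4_H7.zpow_mem h1 j

private theorem two_not_mem_H7 {q : ℕ} (hq : q.Prime) (hq2 : q ≠ 2) {P : Ideal Zb} (hP : P.IsMaximal)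
    (hqP : (q : Zb) ∈ P) : (2 : Zb) ∉ P := by
  intro h
  have h1 : ((2 : ℤ) : Zb) ∈ P := by exact_mod_cast h
  rw [int_mem_D12 hP hq hqP] at h1
  have h2 : q ∣ 2 := by exact_mod_cast h1
  exact hq2 ((Nat.prime_dvd_prime_iff_eq hq Nat.prime_two).1 h2)

private theorem DS_mod_H7 {r : ℕ} {f : Fin r → ℤ[X]} {𝒬 : Fin r → Finset ℕ} (hQ : GoodQ f 𝒬)
    (S : Finset (Fin r)) : ∀ T : Finset ℕ, T ⊆ QS 𝒬 S → (∏ q ∈ T, q) % 8 = 1 := by
  classical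
  intro T
  induction T using Finset.induction_on with
  | empty =>
    intro _
    simp
  | insert a s ha ih =>
    intro h
    rw [Finset.prod_insert ha, Nat.mul_mod, ih (fun x hx => h (Finset.mem_insert_of_mem hx))]
    have h1 := h (Finset.mem_insert_self a s)
    unfold QS at h1
    rw [Finset.mem_biUnion] at h1
    obtain ⟨s', _, hs'⟩ := h1
    rw [(hQ.gp s' a hs').2.1]

private theorem QS_gp_H7 {r : ℕ} {f : Fin r → ℤ[X]} {𝒬 : Fin r → Finset ℕ} (hQ : GoodQ f 𝒬)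
    (S : Finset (Fin r)) : ∀ q ∈ QS 𝒬 S, GP f q := by
  intro q hq
  unfold QS at hq
  rw [Finset.mem_biUnion] at hq
  obtain ⟨s', _, hs'⟩ := hq
  exact hQ.gp s' q hs'

private theorem DS_mem_H7 {P : Ideal Zb} (hP : P.IsMaximal) (T : Finset ℕ)
    (h : ∀ q ∈ T, (q : Zb) ∉ P) : ((∏ q ∈ T, q : ℕ) : Zb) ∉ P := by
  intro h1
  rw [Nat.cast_prod] at h1
  obtain ⟨q, hq, hq'⟩ := (hP.isPrime.prod_mem_iff).1 h1
  exact h q hq hq'

theorem hH7 (hH10 : StH10) : StH7 := by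
  classical
  intro hF1 hF2 hF3 hF4 hD10 hD11 hD12 hH4 hH5 hH6 r f hf P0 hP0 h2P0 dt 𝒬 hQ S hS n ρ hρ e he Lam
    hLam j t u L hL hSel χ hχ Is hIs c hc
  obtain ⟨hcyc, hcyc4, hchar⟩ := hH4 hD12
  have hD0 : DS 𝒬 S ≠ 0 := by
    unfold DS
    rw [Finset.prod_ne_zero_iff]
    intro q hq
    exact (QS_gp_H7 hQ S q hq).1.ne_zero
  obtain ⟨hc3, hc4, hc5, hc6⟩ := hchar (DS 𝒬 S) χ hD0 hχ
  have hD8 : DS 𝒬 S % 8 = 1 := DS_mod_H7 hQ S _ (Finset.Subset.refl _)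
  obtain ⟨-, hii, hiii⟩ := hH6 r f S n ρ (χ * cyc ^ j) e he
  have hcoc := hiii c hc.cont hc.coc
  -- on inertia groups outside `2`
  have hψ : ∀ P : Ideal Zb, P.IsMaximal → (2 : Zb) ∉ P → ∀ a ∈ Ine P, (χ * cyc ^ j) a = χ a := by
    intro P hP h2 a ha
    change χ a * (cyc a) ^ j = χ a
    rw [hcyc P hP h2 a ha, one_zpow, mul_one]
  have hunr : Unr f (QS 𝒬 S) (fun g => (e (rdv (c g)) : Pt (RY f) S → ZMod 2)) := by
    intro P hP h2 hq
    have hDP : (DS 𝒬 S : Zb) ∉ P := DS_mem_H7 hP _ hq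
    have htw : ∀ a ∈ Ine P, twist (χ * cyc ^ j) ρ a = ρ a := by
      intro a ha
      refine twist_one_H7 _ _ _ ?_
      rw [hψ P hP h2 a ha, hc4 P hP h2 hDP a ha]
    obtain ⟨v, hv⟩ := hc.ine P (hIs P hP h2 hq)
    obtain ⟨t', ht'⟩ := hH5 n ρ P (hρ.div P hP h2) c ⟨v, fun σ hσ => by
      rw [hv σ hσ, htw σ hσ]⟩
    refine ⟨(e (rdv t') : Pt (RY f) S → ZMod 2), (e (rdv t')).2, ?_⟩
    intro g hg
    have h3 := hii g t'
    rw [htw g hg] at h3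
    change (e (rdv (c g)) : Pt (RY f) S → ZMod 2) = _
    rw [ht' g hg, rdv_sub_H7, map_sub, ← h3]
    rfl
  have hat2 : ∃ l ∈ L, CobOn (RY f) (Dec P0 : Set GQ)
      ((fun g => (e (rdv (c g)) : Pt (RY f) S → ZMod 2)) - l) := by
    apply hL
    obtain ⟨a, v, hav⟩ := hc.dec
    refine ⟨a, v, ?_⟩
    intro g hg
    rw [hav g hg]
    have h3 : twist (χ * cyc ^ j) ρ g = twist (cyc ^ j) ρ g := by
      apply twist_congr_H7
      change χ g * (cyc ^ j) g = (cyc ^ j) g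
      rw [hc5 hD8 P0 hP0 h2P0 g hg, one_mul]
    rw [h3]
  have hatq : ∀ q ∈ QS 𝒬 S, ∀ (h : q.Prime) (h2 : q ≠ 2),
      ((e (rdv (c (dt q h h2).σ)) : Pt (RY f) S → ZMod 2),
        (e (rdv (c (dt q h h2).φ)) : Pt (RY f) S → ZMod 2)) ∈
          Lam q (qs (DS 𝒬 S) (dt q h h2).φ) := by
    intro q hq h h2
    have hgp := QS_gp_H7 hQ S q hq
    have h2P := two_not_mem_H7 h h2 (dt q h h2).hP (dt q h h2).hq
    -- the number `D / q`
    have hDq : DS 𝒬 S = q * ∏ q' ∈ (QS 𝒬 S).erase q, q' := by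
      unfold DS
      rw [Finset.mul_prod_erase _ (fun x => x) hq]
    have hqD : ¬ q ∣ ∏ q' ∈ (QS 𝒬 S).erase q, q' := by
      intro h3
      rw [Prime.dvd_finsetProd_iff h.prime] at h3
      obtain ⟨q', hq', hd⟩ := h3
      rw [Finset.mem_erase] at hq'
      exact hq'.1 ((Nat.prime_dvd_prime_iff_eq h (QS_gp_H7 hQ S q' hq'.2).1).1 hd).symm
    have hχa := hc3 q _ h h2 hDq hqD (dt q h h2)
    have hρa : ∀ a ∈ Ine (dt q h h2).P, ρ a = 1 := by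
      intro a ha
      exact hρ.unr _ (dt q h h2).hP h2P (fun s _ => hgp.2.2 _ (dt q h h2).hP (dt q h h2).hq s) a ha
    have hρ' : ∀ a ∈ Ine (dt q h h2).P,
        (a (dt q h h2).w = (dt q h h2).w → twist (χ * cyc ^ j) ρ a = 1) ∧
        (a (dt q h h2).w = -(dt q h h2).w → twist (χ * cyc ^ j) ρ a = -1) := by
      intro a ha
      constructor
      · intro hw
        rw [twist_one_H7 _ _ _ (by rw [hψ _ (dt q h h2).hP h2P a ha, (hχa a ha).1 hw]), hρa a ha]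
      · intro hw
        change scal n ((χ * cyc ^ j) a) * ρ a = -1
        rw [hρa a ha, mul_one, hψ _ (dt q h h2).hP h2P a ha, (hχa a ha).2 hw, scal_neg_H7]
    have hcont : Continuous (twist (χ * cyc ^ j) ρ) := hH10 n ρ hρ.cont (DS 𝒬 S) χ hD0 hχ j
    have h4 := (hF4 hF1 hF2 hF3 q h h2 (dt q h h2) n _ hcont hρ' c hc.cont hc.coc).2
    -- the scalar
    have hfix : ∀ y : Qb, y ^ 2 = -1 → (dt q h h2).φ y = y := by
      intro y hy
      haveI := Fact.mk h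
      have hq8 := hgp.2.1
      refine fixes_D12 (dt q h h2).hP h h2 (dt q h h2).hq (dt q h h2).hφ (-1) ?_ ?_ y
        (by rw [hy]; push_cast; rfl)
      · intro h5
        have h6 := Int.le_of_dvd (by norm_num) ((dvd_neg).1 h5)
        have := h.two_le
        omega
      · have h5 : IsSquare (-1 : ZMod q) := ZMod.exists_sq_eq_neg_one_iff.2 (by omega)
        simpa using h5
    obtain ⟨k₀, hk₀⟩ := zpow_H7 _ j (hcyc4 _ hfix)
    have hχφ := hc6 (dt q h h2).φ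
    have hk : ∃ k' : ℤ_[2], (((χ * cyc ^ j) (dt q h h2).φ : ℤ_[2]ˣ) : ℤ_[2]) =
        (if qs (DS 𝒬 S) (dt q h h2).φ = 0 then 1 else -1) + 4 * k' := by
      have h5 : (((χ * cyc ^ j) (dt q h h2).φ : ℤ_[2]ˣ) : ℤ_[2]) =
          (χ (dt q h h2).φ : ℤ_[2]) * (((cyc ^ j) (dt q h h2).φ : ℤ_[2]ˣ) : ℤ_[2]) := by
        rw [← Units.val_mul]
        rfl
      rw [h5, hk₀, hχφ]
      refine ⟨(if qs (DS 𝒬 S) (dt q h h2).φ = 0 then 1 else -1) * k₀, by ring⟩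
    obtain ⟨k', hk'⟩ := hk
    refine hLam q h h2 (qs (DS 𝒬 S) (dt q h h2).φ) (c (dt q h h2).σ) (c (dt q h h2).φ) _ k' hk' ?_
    rw [h4, twist_mulVec_H7]
  obtain ⟨M, hM, hMc⟩ := hSel _ ⟨hcoc, hunr, hat2, hatq⟩
  obtain ⟨m, hm⟩ := rdv_surj_H7 (e.symm ⟨M, hM⟩)
  refine ⟨m, fun σ => ?_⟩
  have h6 := hMc σ (Set.mem_univ _)
  apply e.injective
  apply Subtype.ext
  change (e (rdv (c σ)) : Pt (RY f) S → ZMod 2) = _
  rw [rdv_sub_H7, map_sub]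
  have h7 := hii σ m
  have h8 : (e (rdv m) : Pt (RY f) S → ZMod 2) = M := by
    rw [hm, LinearEquiv.apply_symm_apply]
  change (e (rdv (c σ)) : Pt (RY f) S → ZMod 2) = (e (rdv _) : Pt (RY f) S → ZMod 2) -
    (e (rdv m) : Pt (RY f) S → ZMod 2)
  rw [h7, h8]
  exact h6

end Pool.TW
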