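import Pool.Agent.Helper34.TW.StH

/-! # Project TW: module H8 (proof of RED) -/

set_option autoImplicit false

open scoped Pointwise NumberField
open NumberField Polynomial IsDedekindDomain Pool.RG2

namespace Pool.TW

/-- the condition at `P0` -/
private def PL_H8 {r : ℕ} (f : Fin r → ℤ[X]) (P0 : Ideal Zb) (S : Finset (Fin r)) {n : ℕ}
    (ρ : GQ →* GL (Fin n) ℤ_[2]) (e : (Fin n → ZMod 2) ≃ₗ[ZMod 2] Ev (RY f) S) (j : ℤ) {t : ℕ}
    (u : Fin t → GQ → Fin n → ℚ_[2])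
    (L : Submodule (ZMod 2) (GQ → Pt (RY f) S → ZMod 2)) : Prop :=
  ∀ c : GQ → Fin n → ℤ_[2],
    (∃ (a : Fin t → ℚ_[2]) (v : Fin n → ℚ_[2]), ∀ g ∈ Dec P0,
      vq (c g) = ∑ i, a i • u i g + ((matQ 2 (twist (cyc ^ j) ρ g)).mulVec v - v)) →
    ∃ l ∈ L, CobOn (RY f) (Dec P0 : Set GQ)
      ((fun g => (e (rdv (c g)) : Pt (RY f) S → ZMod 2)) - l)

/-- the space of the condition at `P0` -/
private theorem claimA_H8 (hH2 : StH2) (hH6 : StH6) (hD7 : StD7) (hD10 : StD10) (hD11 : StD11)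
    (hD13 : StD13) {r : ℕ} (f : Fin r → ℤ[X]) (hf : Hyp f) (P0 : Ideal Zb) (hP0 : P0.IsMaximal)
    (h2 : (2 : Zb) ∈ P0) (S : Finset (Fin r)) (hS : S.Nonempty) {n : ℕ}
    (ρ : GQ →* GL (Fin n) ℤ_[2]) (e : (Fin n → ZMod 2) ≃ₗ[ZMod 2] Ev (RY f) S)
    (he : ∀ (σ : GQ) (v : Fin n → ZMod 2),
      ((e ((red 2 (ρ σ) : Matrix (Fin n) (Fin n) (ZMod 2)).mulVec v) : Ev (RY f) S) :
        Pt (RY f) S → ZMod 2) = act (RY f) σ (e v : Pt (RY f) S → ZMod 2))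
    (j : ℤ) {t : ℕ} (u : Fin t → GQ → Fin n → ℚ_[2]) :
    ∃ L : Submodule (ZMod 2) (GQ → Pt (RY f) S → ZMod 2), Module.Finite (ZMod 2) L ∧
      Module.finrank (ZMod 2) L ≤ t ∧ PL_H8 f P0 S ρ e j u L := by
  obtain ⟨h61, -, -⟩ := hH6 r f S n ρ (cyc ^ j) e he
  have hinv : ∀ v : Fin n → ZMod 2, (∀ g ∈ (Dec P0 : Set GQ),
      (red 2 (twist (cyc ^ j) ρ g) : Matrix (Fin n) (Fin n) (ZMod 2)).mulVec v = v) → v = 0 := by
    intro v hv
    have h3 := (hD13 hD7 hD10 hD11 r f hf).2.2 P0 hP0 h2 S hS (e v : Pt (RY f) S → ZMod 2)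
      (e v).2 ?_
    · have h4 : e v = 0 := Subtype.ext h3
      exact (LinearEquiv.map_eq_zero_iff e).1 h4
    · intro g hg
      have h5 := hv g hg
      rw [h61 g] at h5
      rw [← he, h5]
  obtain ⟨L, hL1, hL2, hL3⟩ := hH2 n (Dec P0 : Set GQ) (twist (cyc ^ j) ρ) hinv t u
  let E : (Fin n → ZMod 2) →ₗ[ZMod 2] (Pt (RY f) S → ZMod 2) :=
    (Ev (RY f) S).subtype ∘ₗ e.toLinearMap
  refine ⟨L.map (LinearMap.compLeft E GQ), Module.Finite.map L _,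
    (Submodule.finrank_map_le _ _).trans hL2, ?_⟩
  intro c hc
  obtain ⟨l, hl, m, hm⟩ := hL3 c hc
  refine ⟨LinearMap.compLeft E GQ l, Submodule.mem_map_of_mem hl, (e m : Pt (RY f) S → ZMod 2),
    (e m).2, ?_⟩
  intro g hg
  have h6 := hm g hg
  rw [h61 g] at h6
  have h7 : (e (rdv (c g)) : Pt (RY f) S → ZMod 2) = E (rdv (c g)) := rfl
  have h8 : (e m : Pt (RY f) S → ZMod 2) = E m := rfl
  rw [Pi.sub_apply]
  change (e (rdv (c g)) : Pt (RY f) S → ZMod 2) - E (l g) = _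
  rw [h7, h6, map_add, map_sub, add_sub_cancel_left, ← he g m]
  rfl

private theorem tn_zero_H8 {r : ℕ} (f : Fin r → ℤ[X]) (S : Finset (Fin r)) (j : ℤ) (hj : j ≤ 0) :
    tn f S j = 0 := by
  unfold tn
  rw [Int.toNat_of_nonpos hj]
  simp

private theorem tn_mono_H8 {r : ℕ} (f : Fin r → ℤ[X]) (S : Finset (Fin r)) {j j' : ℤ}
    (h : j ≤ j') : tn f S j ≤ tn f S j' := by
  unfold tn
  refine Nat.mul_le_mul_left _ (Finset.sum_le_sum_of_subset ?_)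
  exact Finset.range_subset_range.2 (Int.toNat_le_toNat h)

/-- **H8** -/
theorem hH8 : StH8 := by
  rintro hMA ⟨hF1, hF2, hF3, hF4⟩ ⟨hD7, hD9, hD10, hD11, hD12, hD13⟩ ⟨hA4, hA13, hA14⟩
    ⟨hH1, hH2, hH3, hH4, hH5, hH6, hH7⟩
  intro r f hf P0 hP0 h2P0 d ρ hρ u B
  have hdt : ∀ (q : ℕ) (_ : q.Prime) (_ : q ≠ 2), Nonempty (LocData q) := hD9 hD7
  let dt : Dat := fun q hq h2 => (hdt q hq h2).some
  have hres : ∀ S : Finset (Fin r), S.Nonempty → ∃ e : (Fin (d S) → ZMod 2) ≃ₗ[ZMod 2] Ev (RY f) S,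
      ∀ (σ : GQ) (v : Fin (d S) → ZMod 2),
        ((e ((red 2 (ρ S σ) : Matrix (Fin (d S)) (Fin (d S)) (ZMod 2)).mulVec v) : Ev (RY f) S) :
          Pt (RY f) S → ZMod 2) = act (RY f) σ (e v : Pt (RY f) S → ZMod 2) :=
    fun S hS => (hρ S hS).res
  choose e he using hres
  -- the conditions at the good primes
  have hLam : ∀ S : Finset (Fin r), ∃ Lam : ℕ → ZMod 2 →
      Submodule (ZMod 2) ((Pt (RY f) S → ZMod 2) × (Pt (RY f) S → ZMod 2)),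
      ∀ hS : S.Nonempty, ∀ (q : ℕ) (h : q.Prime) (h2 : q ≠ 2) (ε : ZMod 2),
        (∀ x ∈ Lam q ε, x.1 ∈ FixEv (RY f) S (dt q h h2).φ ∧ x.2 ∈ Ev (RY f) S) ∧
        (∀ x ∈ Lam q ε, x.1 = 0 → ∃ m ∈ Ev (RY f) S, x.2 = act (RY f) (dt q h h2).φ m - m) ∧
        (∀ m ∈ Ev (RY f) S,
          ((0 : Pt (RY f) S → ZMod 2), act (RY f) (dt q h h2).φ m - m) ∈ Lam q ε) ∧
        ∀ (x y : Fin (d S) → ℤ_[2]) (k k' : ℤ_[2]), k = (if ε = 0 then 1 else -1) + 4 * k' →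
          (2 : ℤ_[2]) • y = x - k • (ρ S (dt q h h2).φ :
            Matrix (Fin (d S)) (Fin (d S)) ℤ_[2]).mulVec x →
          ((e S hS (rdv x) : Pt (RY f) S → ZMod 2), (e S hS (rdv y) : Pt (RY f) S → ZMod 2)) ∈
            Lam q ε := by
    intro S
    by_cases hS : S.Nonempty
    · obtain ⟨Lam, h⟩ := hH3 r f dt S (d S) (ρ S) (e S hS) (he S hS)
      exact ⟨Lam, fun _ => h⟩
    · exact ⟨fun _ _ => ⊥, fun h => absurd h hS⟩
  choose Lam hLam using hLam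
  -- the condition at `P0`
  have hL : ∀ (S : Finset (Fin r)) (k : Fin (JJ S)),
      ∃ L : Submodule (ZMod 2) (GQ → Pt (RY f) S → ZMod 2), ∀ hS : S.Nonempty,
        Module.Finite (ZMod 2) L ∧ Module.finrank (ZMod 2) L ≤ tmm f S ∧
        ∀ j : ℤ, (j = if S.card ≤ 1 then 0 else ((k : ℕ) : ℤ) + 1) →
          PL_H8 f P0 S (ρ S) (e S hS) j (u S j) L := by
    intro S k
    by_cases hS : S.Nonempty
    · obtain ⟨L, h1, h2, h3⟩ := claimA_H8 hH2 hH6 hD7 hD10 hD11 hD13 f hf P0 hP0 h2P0 S hS (ρ S)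
        (e S hS) (he S hS) (if S.card ≤ 1 then 0 else ((k : ℕ) : ℤ) + 1)
        (u S (if S.card ≤ 1 then 0 else ((k : ℕ) : ℤ) + 1))
      refine ⟨L, fun _ => ⟨h1, h2.trans ?_, ?_⟩⟩
      · unfold tmm
        split_ifs with hc
        · rw [tn_zero_H8 f S 0 (le_refl _)]
        · apply tn_mono_H8
          have hJ : JJ S = S.card / 2 := by
            unfold JJ
            rw [if_neg hc]
          have hk : (k : ℕ) < S.card / 2 := lt_of_lt_of_eq k.2 hJ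
          exact_mod_cast hk
      · rintro j rfl
        exact h3
    · exact ⟨⊥, fun h => absurd h hS⟩
  choose L hL using hL
  have hcard := (hD13 hD7 hD10 hD11 r f hf).1
  have hMA0 : MA f dt JJ (tmm f) L Lam :=
    { fin := fun S k hS => ⟨(hL S k hS).1, (hL S k hS).2.1⟩
      l1 := fun S q h h2 ε hS _ => (hLam S hS q h h2 ε).1
      l2 := fun S q h h2 ε hS _ => (hLam S hS q h h2 ε).2.1
      l3 := fun S q h h2 ε hS _ => (hLam S hS q h h2 ε).2.2.1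
      num := fun S hS g hg => hH1 hA4 hA13 hA14 r f hf hcard S hS g hg }
  obtain ⟨𝒬, hQ1, hQ2, hQ3⟩ := hMA r f hf P0 hP0 h2P0 dt JJ (tmm f) L Lam hMA0 B
  have hpr : ∀ s, ∀ q ∈ 𝒬 s, q.Prime := fun s q hq => (hQ1.gp s q hq).1
  refine ⟨fun s => ∏ q ∈ 𝒬 s, q, fun s => ⟨?_, ?_, ?_⟩, ?_⟩
  · obtain ⟨q, hq, hBq⟩ := hQ2 s
    refine hBq.trans_le (Nat.le_of_dvd ?_ (Finset.dvd_prod_of_mem _ hq))
    exact Finset.prod_pos fun q hq => (hpr s q hq).pos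
  · refine Finset.squarefree_prod_of_pairwise_isCoprime ?_ ?_
    · intro a ha b hb hab
      change IsRelPrime a b
      rw [← Nat.coprime_iff_isRelPrime]
      exact (Nat.coprime_primes (hpr s a ha) (hpr s b hb)).2 hab
    · intro q hq
      exact (hpr s q hq).squarefree
  · intro p hp hpd
    obtain ⟨q, hq, hpq⟩ := (hp.prime.dvd_finsetProd_iff _).1 hpd
    have h3 := (Nat.prime_dvd_prime_iff_eq hp (hpr s q hq)).1 hpq
    rw [h3]
    exact (hQ1.gp s q hq).2.1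
  · intro S hS j hj χ hχ
    have hDS : ∏ s ∈ S, ∏ q ∈ 𝒬 s, q = DS 𝒬 S := by
      unfold DS QS
      rw [Finset.prod_biUnion]
      intro s _ t _ hst
      exact hQ1.disj s t hst
    rw [hDS] at hχ
    have hcp : 0 < S.card := Finset.card_pos.2 hS
    -- the index
    have hk : ∃ k : Fin (JJ S), PL_H8 f P0 S (ρ S) (e S hS) j (u S j) (L S k) := by
      by_cases hj1 : 1 ≤ j
      · have hc : ¬ S.card ≤ 1 := by omega
        have hk : (j - 1).toNat < JJ S := by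
          unfold JJ
          rw [if_neg hc]
          omega
        refine ⟨⟨(j - 1).toNat, hk⟩, (hL S ⟨(j - 1).toNat, hk⟩ hS).2.2 j ?_⟩
        rw [if_neg hc]
        change j = ((j - 1).toNat : ℤ) + 1
        omega
      · have hk : 0 < JJ S := by
          unfold JJ
          split_ifs <;> omega
        refine ⟨⟨0, hk⟩, ?_⟩
        obtain ⟨L', h1, h2, h3⟩ := claimA_H8 hH2 hH6 hD7 hD10 hD11 hD13 f hf P0 hP0 h2P0 S hS
          (ρ S) (e S hS) (he S hS) j (u S j)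
        rw [tn_zero_H8 f S j (by omega)] at h2
        have h4 : L' = ⊥ := Submodule.finrank_eq_zero.1 (Nat.le_zero.1 h2)
        intro c hc
        obtain ⟨l, hl, hl2⟩ := h3 c hc
        rw [h4, Submodule.mem_bot] at hl
        rw [hl] at hl2
        exact ⟨0, zero_mem _, hl2⟩
    obtain ⟨k, hk⟩ := hk
    refine hH7 hF1 hF2 hF3 hF4 hD10 hD11 hD12 hH4 hH5 hH6 r f hf P0 hP0 h2P0 dt 𝒬 hQ1 S hS (d S)
      (ρ S) (hρ S hS) (e S hS) (he S hS) (Lam S) (fun q h h2 ε => (hLam S hS q h h2 ε).2.2.2) j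
      (tn f S j) (u S j) (L S k) hk (hQ3 S hS k) χ hχ (OutD S fun s => ∏ q ∈ 𝒬 s, q) ?_
    intro P hP h2P hq
    refine ⟨hP, h2P, fun s hs hmem => ?_⟩
    push_cast at hmem
    obtain ⟨q, hq1, hq2⟩ := hP.isPrime.prod_mem_iff.1 hmem
    exact hq q (Finset.mem_biUnion.2 ⟨s, hs, hq1⟩) hq2

end Pool.TW
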