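import Pool.Agent.Helper34.TW.StH

/-!
# Project TW, module H9 (helper7): devissage
-/

set_option autoImplicit false

open scoped Pointwise NumberField
open NumberField Polynomial IsDedekindDomain Pool.RG2

namespace Pool.TW

theorem vq_add_H9 {n : ℕ} (x y : Fin n → ℤ_[2]) : vq (x + y) = vq x + vq y := by
  funext i
  exact PadicInt.coe_add _ _

theorem vq_sub_H9 {n : ℕ} (x y : Fin n → ℤ_[2]) : vq (x - y) = vq x - vq y := by
  funext i
  exact PadicInt.coe_sub _ _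

theorem vq_smul_H9 {n : ℕ} (a : ℤ_[2]) (x : Fin n → ℤ_[2]) : vq (a • x) = (a : ℚ_[2]) • vq x := by
  funext i
  exact PadicInt.coe_mul _ _

theorem vq_inj_H9 {n : ℕ} (x y : Fin n → ℤ_[2]) (h : vq x = vq y) : x = y := by
  funext i
  exact Subtype.ext (congrFun h i)

theorem vq_mulVec_H9 {n : ℕ} (g : GL (Fin n) ℤ_[2]) (x : Fin n → ℤ_[2]) :
    vq ((g : Matrix (Fin n) (Fin n) ℤ_[2]).mulVec x) = (matQ 2 g).mulVec (vq x) := by
  funext i
  have h := map_sum (PadicInt.Coe.ringHom (p := 2))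
    (fun j => (g : Matrix (Fin n) (Fin n) ℤ_[2]) i j * x j) Finset.univ
  have h2 : vq ((g : Matrix (Fin n) (Fin n) ℤ_[2]).mulVec x) i =
      PadicInt.Coe.ringHom (p := 2) (∑ j, (g : Matrix (Fin n) (Fin n) ℤ_[2]) i j * x j) := rfl
  rw [h2, h]
  refine Finset.sum_congr rfl fun j _ => ?_
  exact PadicInt.coe_mul _ _

theorem half_H9 {n : ℕ} (x : Fin n → ℤ_[2]) (h : rdv x = 0) : ∃ y : Fin n → ℤ_[2], x = (2 : ℤ_[2]) • y := by
  have h1 : ∀ i, ∃ y : ℤ_[2], x i = 2 * y := by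
    intro i
    have h2 : PadicInt.toZMod (x i) = 0 := congrFun h i
    rw [← RingHom.mem_ker, PadicInt.ker_toZMod, PadicInt.maximalIdeal_eq_span_p,
      Ideal.mem_span_singleton] at h2
    obtain ⟨y, hy⟩ := h2
    exact ⟨y, by exact_mod_cast hy⟩
  choose y hy using h1
  exact ⟨y, funext hy⟩

theorem cont_vq_H9 {n : ℕ} (c : GQ → Fin n → ℤ_[2]) (h : Continuous fun σ => vq (c σ)) : Continuous c := by
  refine continuous_pi fun i => ?_
  have h1 : Continuous fun σ => vq (c σ) i := (continuous_apply i).comp h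
  exact continuous_induced_rng.2 h1

theorem cont_vq'_H9 {n : ℕ} (c : GQ → Fin n → ℤ_[2]) (h : Continuous c) : Continuous fun σ => vq (c σ) := by
  refine continuous_pi fun i => ?_
  exact continuous_subtype_val.comp ((continuous_apply i).comp h)

theorem cont_mul_H9 {n : ℕ} (ρ : GQ →* GL (Fin n) ℤ_[2]) (hρ : Continuous ρ) (m : Fin n → ℤ_[2]) :
    Continuous fun σ => (ρ σ : Matrix (Fin n) (Fin n) ℤ_[2]).mulVec m :=
  (Units.continuous_val.comp hρ).matrix_mulVec continuous_const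

theorem rdv_sub_H9 {n : ℕ} (x y : Fin n → ℤ_[2]) : rdv (x - y) = rdv x - rdv y := by
  funext i
  exact map_sub _ _ _

theorem step_H9 {n t : ℕ} (ρ : GQ →* GL (Fin n) ℤ_[2]) (hρ : Continuous ρ) (Is : Set (Ideal Zb))
    (P0 : Ideal Zb) (u : Fin t → GQ → Fin n → ℚ_[2]) (hM : ModTwo ρ Is P0 u) (c : GQ → Fin n → ℤ_[2])
    (hc : IntC ρ Is P0 u c) : ∃ (m : Fin n → ℤ_[2]) (c' : GQ → Fin n → ℤ_[2]), IntC ρ Is P0 u c' ∧
      ∀ σ, c σ = ((ρ σ : Matrix (Fin n) (Fin n) ℤ_[2]).mulVec m - m) + (2 : ℤ_[2]) • c' σ := by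
  obtain ⟨m, hm⟩ := hM c hc
  have h1 : ∀ σ, ∃ y : Fin n → ℤ_[2],
      c σ - ((ρ σ : Matrix (Fin n) (Fin n) ℤ_[2]).mulVec m - m) = (2 : ℤ_[2]) • y := by
    intro σ
    apply half_H9
    rw [rdv_sub_H9, hm σ, sub_self]
  choose c' hc' using h1
  have h20 : (2 : ℤ_[2]) ≠ 0 := two_ne_zero
  have h20' : (2 : ℚ_[2]) ≠ 0 := two_ne_zero
  have hv : ∀ σ, vq (c' σ) = (2 : ℚ_[2])⁻¹ • (vq (c σ) - ((matQ 2 (ρ σ)).mulVec (vq m) - vq m)) := by
    intro σ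
    have h2 := congrArg vq (hc' σ)
    rw [vq_sub_H9, vq_sub_H9, vq_mulVec_H9, vq_smul_H9] at h2
    rw [h2, smul_smul]
    have h3 : (2 : ℚ_[2])⁻¹ * ((2 : ℤ_[2]) : ℚ_[2]) = 1 := by
      have : ((2 : ℤ_[2]) : ℚ_[2]) = 2 := by norm_cast
      rw [this]
      exact inv_mul_cancel₀ h20'
    rw [h3, one_smul]
  refine ⟨m, c', ⟨?_, ?_, ?_, ?_⟩, ?_⟩
  · apply cont_vq_H9
    simp only [hv]
    have h4 := cont_vq'_H9 _ (cont_mul_H9 ρ hρ m)
    simp only [vq_mulVec_H9] at h4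
    have h5 := ((cont_vq'_H9 c hc.cont).sub (h4.sub (continuous_const (y := vq m))))
    exact h5.const_smul ((2 : ℚ_[2])⁻¹)
  · intro σ τ
    have h5 : (2 : ℤ_[2]) • c' (σ * τ) =
        (2 : ℤ_[2]) • (c' σ + (ρ σ : Matrix (Fin n) (Fin n) ℤ_[2]).mulVec (c' τ)) := by
      rw [smul_add, ← Matrix.mulVec_smul, ← hc', ← hc', ← hc', hc.coc, map_mul, Units.val_mul,
        ← Matrix.mulVec_mulVec, Matrix.mulVec_sub, Matrix.mulVec_sub]
      abel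
    exact smul_right_injective _ h20 h5
  · intro P hP
    obtain ⟨v, hvP⟩ := hc.ine P hP
    refine ⟨(2 : ℚ_[2])⁻¹ • (v - vq m), fun σ hσ => ?_⟩
    rw [hv, hvP σ hσ, Matrix.mulVec_smul, ← smul_sub, Matrix.mulVec_sub]
    congr 1
    abel
  · obtain ⟨a, v, hav⟩ := hc.dec
    refine ⟨fun i => (2 : ℚ_[2])⁻¹ * a i, (2 : ℚ_[2])⁻¹ • (v - vq m), fun σ hσ => ?_⟩
    rw [hv, hav σ hσ, Matrix.mulVec_smul, ← smul_sub, Matrix.mulVec_sub]
    have h6 : ∑ i, ((2 : ℚ_[2])⁻¹ * a i) • u i σ = (2 : ℚ_[2])⁻¹ • ∑ i, a i • u i σ := by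
      rw [Finset.smul_sum]
      refine Finset.sum_congr rfl fun i _ => ?_
      rw [smul_smul]
    rw [h6, ← smul_add]
    congr 1
    abel
  · intro σ
    rw [← hc' σ]
    abel

theorem iter_H9 {n t : ℕ} (ρ : GQ →* GL (Fin n) ℤ_[2]) (hρ : Continuous ρ) (Is : Set (Ideal Zb))
    (P0 : Ideal Zb) (u : Fin t → GQ → Fin n → ℚ_[2]) (hM : ModTwo ρ Is P0 u) (c : GQ → Fin n → ℤ_[2])
    (hc : IntC ρ Is P0 u c) (k : ℕ) : ∃ (v : Fin n → ℤ_[2]) (c' : GQ → Fin n → ℤ_[2]), IntC ρ Is P0 u c' ∧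
      ∀ σ, c σ - ((ρ σ : Matrix (Fin n) (Fin n) ℤ_[2]).mulVec v - v) = (2 : ℤ_[2]) ^ k • c' σ := by
  induction k with
  | zero =>
    refine ⟨0, c, hc, fun σ => ?_⟩
    rw [Matrix.mulVec_zero, pow_zero, one_smul]
    abel
  | succ k ih =>
    obtain ⟨v, c', hc', h⟩ := ih
    obtain ⟨m, c'', hc'', h'⟩ := step_H9 ρ hρ Is P0 u hM c' hc'
    refine ⟨v + (2 : ℤ_[2]) ^ k • m, c'', hc'', fun σ => ?_⟩
    have h1 := h σ
    rw [h' σ] at h1
    rw [Matrix.mulVec_add, Matrix.mulVec_smul, pow_succ, mul_smul]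
    have h2 : c σ = ((ρ σ : Matrix (Fin n) (Fin n) ℤ_[2]).mulVec v - v) +
        (2 : ℤ_[2]) ^ k • (((ρ σ : Matrix (Fin n) (Fin n) ℤ_[2]).mulVec m - m) + (2 : ℤ_[2]) • c'' σ) := by
      rw [← h1]
      abel
    rw [h2, smul_add, smul_sub]
    abel

theorem int_H9 {n t : ℕ} (ρ : GQ →* GL (Fin n) ℤ_[2]) (hρ : Continuous ρ) (Is : Set (Ideal Zb))
    (P0 : Ideal Zb) (u : Fin t → GQ → Fin n → ℚ_[2]) (hM : ModTwo ρ Is P0 u) (c : GQ → Fin n → ℤ_[2])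
    (hc : IntC ρ Is P0 u c) : ∃ v : Fin n → ℤ_[2],
      ∀ σ, c σ = (ρ σ : Matrix (Fin n) (Fin n) ℤ_[2]).mulVec v - v := by
  let V : ℕ → Set (Fin n → ℤ_[2]) := fun k => {v | ∀ (σ : GQ) (i : Fin n),
    ‖(c σ - ((ρ σ : Matrix (Fin n) (Fin n) ℤ_[2]).mulVec v - v)) i‖ ≤ (2 : ℝ)⁻¹ ^ k}
  have hne : (⋂ k, V k).Nonempty := by
    refine IsCompact.nonempty_iInter_of_sequence_nonempty_isCompact_isClosed V ?_ ?_ ?_ ?_
    · intro k v hv σ i
      refine (hv σ i).trans ?_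
      exact pow_le_pow_of_le_one (by norm_num) (by norm_num) (Nat.le_succ k)
    · intro k
      obtain ⟨v, c', -, h⟩ := iter_H9 ρ hρ Is P0 u hM c hc k
      refine ⟨v, fun σ i => ?_⟩
      rw [h σ, Pi.smul_apply, smul_eq_mul, norm_mul, norm_pow]
      have h1 : ‖(2 : ℤ_[2])‖ = (2 : ℝ)⁻¹ := by
        have := PadicInt.norm_p (p := 2)
        exact_mod_cast this
      rw [h1]
      calc (2 : ℝ)⁻¹ ^ k * ‖c' σ i‖ ≤ (2 : ℝ)⁻¹ ^ k * 1 := by
            refine mul_le_mul_of_nonneg_left (PadicInt.norm_le_one _) (by positivity)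
        _ = (2 : ℝ)⁻¹ ^ k := mul_one _
    · have : IsClosed (V 0) := by
        have h0 : V 0 = Set.univ := by
          ext v
          simp only [V, Set.mem_ofPred_eq, Set.mem_univ, iff_true, pow_zero]
          intro σ i
          exact PadicInt.norm_le_one _
        rw [h0]
        exact isClosed_univ
      exact this.isCompact
    · intro k
      have h2 : V k = ⋂ (σ : GQ), ⋂ (i : Fin n), {v | ‖(c σ -
          ((ρ σ : Matrix (Fin n) (Fin n) ℤ_[2]).mulVec v - v)) i‖ ≤ (2 : ℝ)⁻¹ ^ k} := by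
        ext v
        simp only [V, Set.mem_ofPred_eq, Set.mem_iInter]
      rw [h2]
      refine isClosed_iInter fun σ => isClosed_iInter fun i => ?_
      refine isClosed_le ?_ continuous_const
      refine continuous_norm.comp ((continuous_apply i).comp ?_)
      exact continuous_const.sub ((Continuous.matrix_mulVec continuous_const continuous_id).sub
        continuous_id)
  obtain ⟨v, hv⟩ := hne
  refine ⟨v, fun σ => ?_⟩
  rw [Set.mem_iInter] at hv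
  rw [← sub_eq_zero]
  funext i
  have h3 : ∀ k : ℕ, ‖(c σ - ((ρ σ : Matrix (Fin n) (Fin n) ℤ_[2]).mulVec v - v)) i‖ ≤ (2 : ℝ)⁻¹ ^ k :=
    fun k => hv k σ i
  have h4 : ‖(c σ - ((ρ σ : Matrix (Fin n) (Fin n) ℤ_[2]).mulVec v - v)) i‖ ≤ 0 :=
    ge_of_tendsto' (tendsto_pow_atTop_nhds_zero_of_lt_one (by norm_num) (by norm_num)) h3
  exact norm_le_zero_iff.1 h4

theorem hH9 : StH9 := by
  intro n t ρ hρ Is P0 u hM c hcont hcoc hine hdec
  -- a bound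
  have hk : ∃ k : ℕ, ∀ σ i, ‖(2 : ℚ_[2]) ^ k * c σ i‖ ≤ 1 := by
    have h1 : ∃ C : ℝ, ∀ σ, ‖c σ‖ ≤ C := by
      have := (isCompact_range (hcont.norm)).bddAbove
      obtain ⟨C, hC⟩ := this
      exact ⟨C, fun σ => hC ⟨σ, rfl⟩⟩
    obtain ⟨C, hC⟩ := h1
    obtain ⟨k, hk⟩ := pow_unbounded_of_one_lt C (by norm_num : (1 : ℝ) < 2)
    refine ⟨k, fun σ i => ?_⟩
    have h2 : ‖(2 : ℚ_[2])‖ = (2 : ℝ)⁻¹ := by
      have := Padic.norm_p (p := 2)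
      exact_mod_cast this
    rw [norm_mul, norm_pow, h2, inv_pow]
    have h3 : ‖c σ i‖ ≤ 2 ^ k := (norm_le_pi_norm (c σ) i).trans ((hC σ).trans hk.le)
    calc (2 ^ k : ℝ)⁻¹ * ‖c σ i‖ ≤ (2 ^ k : ℝ)⁻¹ * 2 ^ k :=
          mul_le_mul_of_nonneg_left h3 (by positivity)
      _ = 1 := inv_mul_cancel₀ (by positivity)
  obtain ⟨k, hk⟩ := hk
  have h20 : (2 : ℚ_[2]) ^ k ≠ 0 := pow_ne_zero _ two_ne_zero
  let c' : GQ → Fin n → ℤ_[2] := fun σ i => ⟨(2 : ℚ_[2]) ^ k * c σ i, hk σ i⟩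
  have hv : ∀ σ, vq (c' σ) = (2 : ℚ_[2]) ^ k • c σ := fun σ => rfl
  have hc' : IntC ρ Is P0 u c' := by
    refine ⟨?_, ?_, ?_, ?_⟩
    · apply cont_vq_H9
      simp only [hv]
      exact hcont.const_smul ((2 : ℚ_[2]) ^ k)
    · intro σ τ
      apply vq_inj_H9
      rw [vq_add_H9, vq_mulVec_H9, hv, hv, hv, hcoc, Matrix.mulVec_smul, smul_add]
    · intro P hP
      obtain ⟨v, h⟩ := hine P hP
      refine ⟨(2 : ℚ_[2]) ^ k • v, fun σ hσ => ?_⟩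
      rw [hv, h σ hσ, Matrix.mulVec_smul, smul_sub]
    · obtain ⟨a, v, h⟩ := hdec
      refine ⟨fun i => (2 : ℚ_[2]) ^ k * a i, (2 : ℚ_[2]) ^ k • v, fun σ hσ => ?_⟩
      rw [hv, h σ hσ, Matrix.mulVec_smul, ← smul_sub, smul_add, Finset.smul_sum]
      simp only [smul_smul]
  obtain ⟨v, h⟩ := int_H9 ρ hρ Is P0 u hM c' hc'
  refine ⟨((2 : ℚ_[2]) ^ k)⁻¹ • vq v, fun σ => ?_⟩
  have h5 := congrArg vq (h σ)
  rw [hv, vq_sub_H9, vq_mulVec_H9] at h5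
  rw [Matrix.mulVec_smul, ← smul_sub, ← h5, smul_smul, inv_mul_cancel₀ h20, one_smul]

end Pool.TW
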