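import Pool.Agent.Helper34.TW.M_A1
import Pool.Agent.Helper34.TW.M_A2
import Pool.Agent.Helper34.TW.M_A3
import Pool.Agent.Helper34.TW.M_A4
import Pool.Agent.Helper34.TW.M_A5
import Pool.Agent.Helper34.TW.M_A6
import Pool.Agent.Helper34.TW.M_A7
import Pool.Agent.Helper34.TW.M_A8
import Pool.Agent.Helper34.TW.M_A9
import Pool.Agent.Helper34.TW.M_A10
import Pool.Agent.Helper34.TW.M_A11
import Pool.Agent.Helper34.TW.M_A12
import Pool.Agent.Helper34.TW.M_A13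
import Pool.Agent.Helper34.TW.M_A14
import Pool.Agent.Helper34.TW.M_B1
import Pool.Agent.Helper34.TW.M_B2
import Pool.Agent.Helper34.TW.M_B3
import Pool.Agent.Helper34.TW.M_B4
import Pool.Agent.Helper34.TW.M_B5
import Pool.Agent.Helper34.TW.M_B6
import Pool.Agent.Helper34.TW.M_B6a
import Pool.Agent.Helper34.TW.M_B7
import Pool.Agent.Helper34.TW.M_B8
import Pool.Agent.Helper34.TW.M_B9a
import Pool.Agent.Helper34.TW.M_B9b
import Pool.Agent.Helper34.TW.M_B9c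
import Pool.Agent.Helper34.TW.M_B9d
import Pool.Agent.Helper34.TW.M_B9
import Pool.Agent.Helper34.TW.M_B10
import Pool.Agent.Helper34.TW.M_C0
import Pool.Agent.Helper34.TW.M_C1
import Pool.Agent.Helper34.TW.M_C2
import Pool.Agent.Helper34.TW.M_C3
import Pool.Agent.Helper34.TW.M_C4
import Pool.Agent.Helper34.TW.M_C5
import Pool.Agent.Helper34.TW.M_C5a
import Pool.Agent.Helper34.TW.M_C5b
import Pool.Agent.Helper34.TW.M_C6
import Pool.Agent.Helper34.TW.M_C6b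
import Pool.Agent.Helper34.TW.M_C7
import Pool.Agent.Helper34.TW.M_C8
import Pool.Agent.Helper34.TW.M_C9
import Pool.Agent.Helper34.TW.M_C10
import Pool.Agent.Helper34.TW.M_C11a
import Pool.Agent.Helper34.TW.M_C11b
import Pool.Agent.Helper34.TW.M_C11
import Pool.Agent.Helper34.TW.M_C12
import Pool.Agent.Helper34.TW.M_D1
import Pool.Agent.Helper34.TW.M_D2
import Pool.Agent.Helper34.TW.M_D3
import Pool.Agent.Helper34.TW.M_D4
import Pool.Agent.Helper34.TW.M_D5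
import Pool.Agent.Helper34.TW.M_D6
import Pool.Agent.Helper34.TW.M_D7
import Pool.Agent.Helper34.TW.M_D8
import Pool.Agent.Helper34.TW.M_D9
import Pool.Agent.Helper34.TW.M_D10
import Pool.Agent.Helper34.TW.M_D11
import Pool.Agent.Helper34.TW.M_D12
import Pool.Agent.Helper34.TW.M_D13
import Pool.Agent.Helper34.TW.M_E1
import Pool.Agent.Helper34.TW.M_E2
import Pool.Agent.Helper34.TW.M_E3
import Pool.Agent.Helper34.TW.M_E4
import Pool.Agent.Helper34.TW.M_E5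
import Pool.Agent.Helper34.TW.M_E6
import Pool.Agent.Helper34.TW.M_E7
import Pool.Agent.Helper34.TW.M_E8
import Pool.Agent.Helper34.TW.M_E9
import Pool.Agent.Helper34.TW.M_F1
import Pool.Agent.Helper34.TW.M_F2
import Pool.Agent.Helper34.TW.M_F3
import Pool.Agent.Helper34.TW.M_F4
import Pool.Agent.Helper34.TW.M_G0
import Pool.Agent.Helper34.TW.M_G1
import Pool.Agent.Helper34.TW.M_G2
import Pool.Agent.Helper34.TW.M_G3
import Pool.Agent.Helper34.TW.M_G4
import Pool.Agent.Helper34.TW.M_G5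
import Pool.Agent.Helper34.TW.M_H1
import Pool.Agent.Helper34.TW.M_H2
import Pool.Agent.Helper34.TW.M_H3
import Pool.Agent.Helper34.TW.M_H4
import Pool.Agent.Helper34.TW.M_H5
import Pool.Agent.Helper34.TW.M_H6
import Pool.Agent.Helper34.TW.M_H7
import Pool.Agent.Helper34.TW.M_H8
import Pool.Agent.Helper34.TW.M_H9
import Pool.Agent.Helper34.TW.M_H10
import Pool.Agent.Helper34.TW.M_H11

/-!
# Project TW: the proof of the theorem
-/

set_option autoImplicit false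

open scoped Pointwise NumberField TensorProduct
open NumberField Polynomial IsDedekindDomain Pool.RG2

namespace Pool.TW

theorem hREC : StREC :=
  hC12 hC8 hC9 hC11a hC11b
    (hB10 hB2 hB8 (hB9c) hB9d hB1 hB3 hB4 hB5 hB6 hB6a hB7 (hB9 hB9a hB9b))
    hC0 hC1 hC2 hC3 hC4 hC5 hC5a hC5b hC6 hC6b hC7 hC10 hC11

theorem hFROB : StFROB := hD8 hD1 hD2 hD3 hD4 hD5 hD6 hD7

theorem hcard : ∀ (r : ℕ) (f : Fin r → ℤ[X]), Hyp f → ∀ s, Fintype.card (Rt (f s)) = (f s).natDegree :=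
  fun r f hf => (hD13 hD7 hD10 hD11 r f hf).1

theorem hUNI : StUNI :=
  hE7 hcard (fun r f hf dt Q hQ S hS =>
    hE5 hA1 hA2 hA3 hC0 hC6b hC7 hE1 hE2 hE3 hE4 r f hf (hcard r f hf) dt Q hQ S hS) hA1 hC2 hE6

theorem hFIN : StFIN := hE9 hcard hA1 hC0 hC1 hC2 hC4 hE8

theorem hMA : StMA :=
  hG5 hUNI hFIN (fun r f hf P0 hP0 h2 dt J tm L Lam hMA 𝒬 h𝒬 =>
    hG4 hUNI hG1 hG2 hG3 hREC hF1 hF2 hA1 hA4 (hA11 (hA6 hA5) hA7) hA12 hD7 hD10 hD11 hD12 hD13 hG0 hFROB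
      ⟨hA8, hA9, hA10⟩ r f hf P0 hP0 h2 dt J tm L Lam hMA 𝒬 h𝒬)

theorem hRED : StRED :=
  hH8 hMA ⟨hF1, hF2, hF3, hF4⟩ ⟨hD7, hD9, hD10, hD11, hD12, hD13⟩ ⟨hA4, hA13, hA14⟩
    ⟨hH1, hH2, hH3, hH4, hH5, hH6, hH7 hH10⟩

theorem hMain : Main := hH11 hRED hH9 hH10

end Pool.TW
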