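import Pool.Agent.Helper34.TW.DefsR

set_option autoImplicit false

open scoped Pointwise NumberField
open NumberField Polynomial Pool.RG2

namespace Pool.TW

theorem tw_eq {n : ℕ} (ρ : RepZ n) (ψ : Ch) (σ : GQ) (v : VQ n) :
    tw ρ ψ σ v = (matQ 2 (twist ψ ρ σ)).mulVec v := by
  have h : matQ 2 (twist ψ ρ σ) = ((ψ σ : ℤ_[2]) : ℚ_[2]) • matQ 2 (ρ σ) := by
    ext i j
    change (((scal n (ψ σ) * ρ σ : GL (Fin n) ℤ_[2]) : Matrix (Fin n) (Fin n) ℤ_[2]) i j : ℚ_[2]) = _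
    have h2 : ((scal n (ψ σ) * ρ σ : GL (Fin n) ℤ_[2]) : Matrix (Fin n) (Fin n) ℤ_[2])
        = (ψ σ : ℤ_[2]) • (ρ σ : Matrix (Fin n) (Fin n) ℤ_[2]) := by
      rw [Units.val_mul]
      change Matrix.scalar (Fin n) (ψ σ : ℤ_[2]) * _ = _
      rw [Matrix.scalar_apply, ← Matrix.smul_one_eq_diagonal, Matrix.smul_mul, Matrix.one_mul]
    rw [h2]
    simp [matQ]
  rw [h, Matrix.smul_mulVec]
  rfl

theorem repR_ok {r : ℕ} {f : Fin r → ℤ[X]} {S : Finset (Fin r)} {n : ℕ} {ρ : RepZ n} (h : RepR f S ρ) :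
    RepOK f S ρ where
  cont := h.1
  unr P hP h2 hg σ hσ := h.2.1 P ⟨hP, h2⟩ hg σ hσ
  div P hP h2 := h.2.2.1 P ⟨hP, h2⟩
  res := by
    obtain ⟨e, hadd, hinj, hran, heq⟩ := h.2.2.2
    let e1 : (Fin n → ZMod 2) →+ (PtR f S → ZMod 2) := AddMonoidHom.mk' e hadd
    let e2 : (Fin n → ZMod 2) →ₗ[ZMod 2] (PtR f S → ZMod 2) := e1.toZModLinearMap 2
    have he2 : ∀ v, e2 v = e v := fun v => rfl
    have hmem : ∀ v, e2 v ∈ Ev (fun s => Rt (f s)) S := by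
      intro v
      have := (hran (e v)).2 ⟨v, rfl⟩
      intro s x
      exact this s x
    let e3 : (Fin n → ZMod 2) →ₗ[ZMod 2] Ev (fun s => Rt (f s)) S := e2.codRestrict _ hmem
    have hbij : Function.Bijective e3 := by
      constructor
      · intro v w hvw
        apply hinj
        have := congrArg Subtype.val hvw
        exact this
      · rintro ⟨m, hm⟩
        obtain ⟨v, hv⟩ := (hran m).1 (fun s x => hm s x)
        exact ⟨v, Subtype.ext hv⟩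
    refine ⟨LinearEquiv.ofBijective e3 hbij, ?_⟩
    intro σ v
    exact heq σ v

theorem quadR_of {D : ℕ} {χ : Ch} (h : QuadR D χ) : IsQuad D χ := by
  intro y hy σ
  rcases h y hy σ with ⟨h1, h2⟩ | ⟨h1, h2⟩
  · exact Or.inl ⟨h1, Units.ext h2⟩
  · exact Or.inr ⟨h1, Units.ext h2⟩

theorem conclR_of {n t : ℕ} {ρ : RepZ n} {ψ : Ch} {Is : Set (Ideal Zb)} {P0 : Ideal Zb} {u : Fin t → GQ → VQ n}
    (h : Concl (twist ψ ρ) Is P0 u) : ConclR ρ ψ Is P0 u := by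
  intro c hc hI hD
  obtain ⟨v, hv⟩ := h c hc.1 (fun σ τ => by rw [hc.2 σ τ, tw_eq])
    (fun P hP => by
      obtain ⟨v, hv⟩ := hI P hP
      exact ⟨v, fun σ hσ => by rw [hv σ hσ, tw_eq]⟩)
    (by
      obtain ⟨a, v, hv⟩ := hD
      refine ⟨a, v, fun σ hσ => ?_⟩
      have := hv σ hσ
      rw [tw_eq] at this
      rw [← this]
      simp only [Pi.sub_apply, Finset.sum_apply, Pi.smul_apply]
      abel)
  exact ⟨v, fun σ _ => by rw [hv σ, tw_eq]⟩

end Pool.TW
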