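import Mathlib
import Pool.Agent.Helper2.RG.Defs2

/-!
# Project TW (MP_76188c_nt): products of hyperelliptic curves, generic image, all bidegrees with `2 j < i`

Vocabulary of the result: `Qb`, `GQ`, `Zb`, `Dec`, `Ine`, `GF`, `matQ`, `red` are those of `Pool.RG2`.
-/

set_option autoImplicit false

open scoped Pointwise NumberField
open NumberField Polynomial Pool.RG2

namespace Pool.TW

/-! ### Group theory -/

section grp

variable {Γ : Type} [Group Γ] {r : ℕ} (Y : Fin r → Type) [∀ s, Fintype (Y s)] [∀ s, MulAction Γ (Y s)]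

/-- The points: tuples in `∏_(s ∈ S) Y s`. -/
abbrev Pt (S : Finset (Fin r)) : Type := (s : S) → Y s

/-- The action of the group on functions with values in `F_2`. -/
def act {S : Finset (Fin r)} (g : Γ) (m : Pt Y S → ZMod 2) : Pt Y S → ZMod 2 := fun x => m (g⁻¹ • x)

/-- The functions all of whose partial sums (over one coordinate) vanish. -/
def Ev (S : Finset (Fin r)) : Submodule (ZMod 2) (Pt Y S → ZMod 2) where
  carrier := {m | ∀ (s : S) (x : Pt Y S), ∑ y : Y s, m (Function.update x s y) = 0}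
  add_mem' := by
    intro a b ha hb s x
    simp only [Pi.add_apply, Finset.sum_add_distrib]
    rw [ha s x, hb s x, add_zero]
  zero_mem' := by
    intro s x
    simp
  smul_mem' := by
    intro c m hm s x
    simp only [Pi.smul_apply, smul_eq_mul, ← Finset.mul_sum]
    rw [hm s x, mul_zero]

end grp

/-! ### Roots -/

/-- The set of roots of `f` in `Qb`. -/
abbrev Rt (f : ℤ[X]) : Type := f.rootSet Qb

/-- The Galois group acts on the roots. -/
noncomputable instance instRt (f : ℤ[X]) : MulAction GQ (Rt f) where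
  smul g x := ⟨g x.1, by
    have h := x.2
    rw [Polynomial.mem_rootSet'] at h ⊢
    refine ⟨h.1, ?_⟩
    have h2 : aeval (g x.1) f = g (aeval x.1 f) :=
      Polynomial.aeval_algHom_apply ((g : Qb →ₐ[ℚ] Qb).restrictScalars ℤ) x.1 f
    rw [h2, h.2, map_zero]⟩
  one_smul x := rfl
  mul_smul g h x := rfl

/-- `f` has distinct roots modulo `P`. -/
def GoodAt (f : ℤ[X]) (P : Ideal Zb) : Prop := ∀ x y : Rt f, x ≠ y → ∀ z ∈ P, (z : Qb) ≠ x.1 - y.1

/-- The polynomials: monic, of odd pairwise coprime degrees `≥ 3`, irreducible modulo 2, with exactly one real root; the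
ring of integers of `ℚ(x)`, `f_s(x) = 0`, is `ℤ[x]`; no prime divides two discriminants; the Galois group of `∏ f_s` is the
product of the symmetric groups. -/
structure Hyp {r : ℕ} (f : Fin r → ℤ[X]) : Prop where
  monic : ∀ s, (f s).Monic
  odd : ∀ s, Odd (f s).natDegree
  three : ∀ s, 3 ≤ (f s).natDegree
  coprime : ∀ s t, s ≠ t → Nat.Coprime (f s).natDegree (f t).natDegree
  irr2 : ∀ s, Irreducible ((f s).map (Int.castRingHom (ZMod 2)))
  real : ∀ s, ∃! x : ℝ, aeval x (f s) = 0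
  mono : ∀ s, ∀ x : Rt (f s), ∀ y : Qb, y ∈ IntermediateField.adjoin ℚ {x.1} → IsIntegral ℤ y →
    y ∈ Algebra.adjoin ℤ {x.1}
  disc : ∀ P : Ideal Zb, P.IsMaximal → ∀ s t, s ≠ t → GoodAt (f s) P ∨ GoodAt (f t) P
  gal : ∀ π : (s : Fin r) → Equiv.Perm (Rt (f s)), ∃ g : GQ, ∀ s x, g • x = π s x

/-! ### Representations over `ℤ_2` -/

/-- The vector over `ℚ_2` of a vector over `ℤ_2`. -/
noncomputable def vq {n : ℕ} (t : Fin n → ℤ_[2]) : Fin n → ℚ_[2] := fun i => (t i : ℚ_[2])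

/-- `(V/T)^(I_P)` is divisible: an element of `V` whose class modulo `T` is fixed by the inertia group is congruent modulo
`T` to an element of `V` fixed by the inertia group. -/
def DivAt {n : ℕ} (ρ : GQ →* GL (Fin n) ℤ_[2]) (P : Ideal Zb) : Prop :=
  ∀ v : Fin n → ℚ_[2],
    (∀ σ ∈ Ine P, ∃ t : Fin n → ℤ_[2], (matQ 2 (ρ σ)).mulVec v - v = vq t) →
    ∃ t : Fin n → ℤ_[2], ∀ σ ∈ Ine P, (matQ 2 (ρ σ)).mulVec v - v = (matQ 2 (ρ σ)).mulVec (vq t) - vq t

/-- The conditions on `ρ_S`: continuous; unramified at the odd primes where the `f_s`, `s ∈ S`, have distinct roots;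
`(V/T)^(I_P)` divisible at all odd primes; `T/2T` is isomorphic to the module `Ev` of the even functions on
`∏_(s ∈ S) {roots of f_s}`. -/
structure RepOK {r : ℕ} (f : Fin r → ℤ[X]) (S : Finset (Fin r)) {n : ℕ} (ρ : GQ →* GL (Fin n) ℤ_[2]) : Prop where
  cont : Continuous ρ
  unr : ∀ P : Ideal Zb, P.IsMaximal → (2 : Zb) ∉ P → (∀ s ∈ S, GoodAt (f s) P) → ∀ σ ∈ Ine P, ρ σ = 1
  div : ∀ P : Ideal Zb, P.IsMaximal → (2 : Zb) ∉ P → DivAt ρ P
  res : ∃ e : (Fin n → ZMod 2) ≃ₗ[ZMod 2] Ev (fun s => Rt (f s)) S, ∀ (σ : GQ) (v : Fin n → ZMod 2),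
    ((e ((red 2 (ρ σ) : Matrix (Fin n) (Fin n) (ZMod 2)).mulVec v) : Ev (fun s => Rt (f s)) S) :
      Pt (fun s => Rt (f s)) S → ZMod 2) = act (fun s => Rt (f s)) σ (e v : Pt (fun s => Rt (f s)) S → ZMod 2)

/-- The scalar `u` as an element of `GL_n(ℤ_2)`. -/
noncomputable def scal (n : ℕ) : ℤ_[2]ˣ →* GL (Fin n) ℤ_[2] :=
  Units.map (Matrix.scalar (Fin n)).toMonoidHom

/-- The twist of `ρ` by a character. -/
noncomputable def twist {n : ℕ} (ψ : GQ →* ℤ_[2]ˣ) (ρ : GQ →* GL (Fin n) ℤ_[2]) : GQ →* GL (Fin n) ℤ_[2] where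
  toFun σ := scal n (ψ σ) * ρ σ
  map_one' := by simp
  map_mul' σ τ := by
    have h : Commute (scal n (ψ τ)) (ρ σ) := by
      apply Units.ext
      simp only [scal, Units.val_mul, Units.coe_map]
      exact (Matrix.scalar_commute _ (fun _ => Commute.all _ _) _).eq
    rw [map_mul, map_mul, map_mul, mul_assoc, mul_assoc, ← mul_assoc (scal n (ψ τ)), h.eq, mul_assoc]

/-- The cyclotomic character. -/
noncomputable def cyc : GQ →* ℤ_[2]ˣ :=
  (cyclotomicCharacter Qb 2).comp (MulSemiringAction.toRingAut GQ Qb)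

/-- `χ` is the quadratic character of `ℚ(√D)`. -/
def IsQuad (D : ℕ) (χ : GQ →* ℤ_[2]ˣ) : Prop :=
  ∀ y : Qb, y ^ 2 = (D : Qb) → ∀ σ : GQ, (σ y = y ∧ χ σ = 1) ∨ (σ y = -y ∧ χ σ = -1)

/-- The number `∏_(s ∈ S) g_s * ∑_(p < j) C(|S|, p)`, `2 g_s + 1 = deg f_s`. -/
def tn {r : ℕ} (f : Fin r → ℤ[X]) (S : Finset (Fin r)) (j : ℤ) : ℕ :=
  (∏ s ∈ S, ((f s).natDegree / 2)) * ∑ p ∈ Finset.range j.toNat, S.card.choose p

/-- Every continuous cocycle `c` with values in `V` (the representation `ρ` over `ℚ_2`) whose restriction to the inertia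
group of every `P ∈ Is` is a coboundary, and whose restriction to the decomposition group of `P0` is a coboundary plus a
linear combination of the `u_i`, is a coboundary. -/
def Concl {n t : ℕ} (ρ : GQ →* GL (Fin n) ℤ_[2]) (Is : Set (Ideal Zb)) (P0 : Ideal Zb)
    (u : Fin t → GQ → Fin n → ℚ_[2]) : Prop :=
  ∀ c : GQ → Fin n → ℚ_[2], Continuous c → (∀ σ τ, c (σ * τ) = c σ + (matQ 2 (ρ σ)).mulVec (c τ)) →
    (∀ P ∈ Is, ∃ v : Fin n → ℚ_[2], ∀ σ ∈ Ine P, c σ = (matQ 2 (ρ σ)).mulVec v - v) →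
    (∃ (a : Fin t → ℚ_[2]) (v : Fin n → ℚ_[2]), ∀ σ ∈ Dec P0,
      c σ = ∑ i, a i • u i σ + ((matQ 2 (ρ σ)).mulVec v - v)) →
    ∃ v : Fin n → ℚ_[2], ∀ σ, c σ = (matQ 2 (ρ σ)).mulVec v - v

/-- The odd primes not dividing `∏_(s ∈ S) D_s`. -/
def OutD {r : ℕ} (S : Finset (Fin r)) (D : Fin r → ℕ) : Set (Ideal Zb) :=
  {P | P.IsMaximal ∧ (2 : Zb) ∉ P ∧ ∀ s ∈ S, (D s : Zb) ∉ P}

/-- The theorem. -/
def Main : Prop :=
  ∀ (r : ℕ) (f : Fin r → ℤ[X]), Hyp f → ∀ P0 : Ideal Zb, P0.IsMaximal → (2 : Zb) ∈ P0 →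
    ∀ (d : Finset (Fin r) → ℕ) (ρ : (S : Finset (Fin r)) → GQ →* GL (Fin (d S)) ℤ_[2]),
    (∀ S, S.Nonempty → RepOK f S (ρ S)) →
    ∀ (u : (S : Finset (Fin r)) → (j : ℤ) → Fin (tn f S j) → GQ → Fin (d S) → ℚ_[2]) (B : ℕ),
    ∃ D : Fin r → ℕ, (∀ s, B < D s ∧ Squarefree (D s) ∧ ∀ p : ℕ, p.Prime → p ∣ D s → p % 8 = 1) ∧
      ∀ S, S.Nonempty → ∀ j : ℤ, 2 * j ≤ S.card → ∀ χ : GQ →* ℤ_[2]ˣ, IsQuad (∏ s ∈ S, D s) χ →
        Concl (twist (χ * cyc ^ j) (ρ S)) (OutD S D) P0 (u S j)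

end Pool.TW
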