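import Pool.Agent.Helper34.TW.Defs

/-!
# Project TW: internal definitions
-/

set_option autoImplicit false

open scoped Pointwise NumberField
open NumberField Polynomial Pool.RG2

namespace Pool.TW

/-! ### Cocycles -/

section grp

variable {Γ : Type} [Group Γ] {r : ℕ} (Y : Fin r → Type) [∀ s, Fintype (Y s)] [∀ s, MulAction Γ (Y s)]

/-- The pairing. -/
def pr {S : Finset (Fin r)} (m m' : Pt Y S → ZMod 2) : ZMod 2 := ∑ x, m x * m' x

/-- `c` is a cocycle with values in `Ev Y S`. -/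
structure IsCoc0 {S : Finset (Fin r)} (c : Γ → Pt Y S → ZMod 2) : Prop where
  ev : ∀ g, c g ∈ Ev Y S
  mul : ∀ g h, c (g * h) = c g + act Y g (c h)

/-- `c` is a cocycle with values in `Ev Y S` which vanishes on an open subgroup. -/
structure IsCoc [TopologicalSpace Γ] {S : Finset (Fin r)} (c : Γ → Pt Y S → ZMod 2) : Prop extends
    IsCoc0 Y c where
  lc : ∃ U : Subgroup Γ, IsOpen (U : Set Γ) ∧ ∀ u ∈ U, c u = 0

/-- The restriction of `c` to the set `A` is a coboundary. -/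
def CobOn {S : Finset (Fin r)} (A : Set Γ) (c : Γ → Pt Y S → ZMod 2) : Prop :=
  ∃ m ∈ Ev Y S, ∀ g ∈ A, c g = act Y g m - m

/-- The elements of `Ev Y S` fixed by `g`. -/
def FixEv (S : Finset (Fin r)) (g : Γ) : Submodule (ZMod 2) (Pt Y S → ZMod 2) where
  carrier := {m | m ∈ Ev Y S ∧ act Y g m = m}
  add_mem' := by
    rintro a b ⟨ha, ha'⟩ ⟨hb, hb'⟩
    refine ⟨add_mem ha hb, ?_⟩
    funext x
    have h1 := congrFun ha' x
    have h2 := congrFun hb' x
    simp only [act, Pi.add_apply] at h1 h2 ⊢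
    rw [h1, h2]
  zero_mem' := ⟨zero_mem _, rfl⟩
  smul_mem' := by
    rintro c m ⟨hm, hm'⟩
    refine ⟨Submodule.smul_mem _ c hm, ?_⟩
    funext x
    have h1 := congrFun hm' x
    simp only [act, Pi.smul_apply] at h1 ⊢
    rw [h1]

/-- The dimension of the space of fixed vectors of `g` in `Ev Y S`. -/
noncomputable def fixD (S : Finset (Fin r)) (g : Γ) : ℕ := Module.finrank (ZMod 2) (FixEv Y S g)

end grp

/-! ### Primes -/

/-- `P` is a prime of `Zb` above `q`, `φ` a Frobenius element at `P` fixing `w = √q`, `σ` an inertia element moving it. -/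
structure LocData (q : ℕ) where
  P : Ideal Zb
  φ : GQ
  σ : GQ
  w : Qb
  hP : P.IsMaximal
  hq : (q : Zb) ∈ P
  hφ : ∀ x : Zb, φ • x - x ^ q ∈ P
  hσ : σ ∈ Ine P
  hw : w ^ 2 = (q : Qb)
  hφw : φ w = w
  hσw : σ w = -w

/-- The family of the sets of roots. -/
abbrev RY {r : ℕ} (f : Fin r → ℤ[X]) : Fin r → Type := fun s => Rt (f s)

/-- `q` is a prime `≡ 1 mod 8` modulo which all `f_s` have distinct roots. -/
def GP {r : ℕ} (f : Fin r → ℤ[X]) (q : ℕ) : Prop :=
  q.Prime ∧ q % 8 = 1 ∧ ∀ P : Ideal Zb, P.IsMaximal → (q : Zb) ∈ P → ∀ s, GoodAt (f s) P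

/-- `c` is unramified outside `2` and the set `Q`. -/
def Unr {r : ℕ} (f : Fin r → ℤ[X]) {S : Finset (Fin r)} (Q : Finset ℕ)
    (c : GQ → Pt (RY f) S → ZMod 2) : Prop :=
  ∀ P : Ideal Zb, P.IsMaximal → (2 : Zb) ∉ P → (∀ q ∈ Q, (q : Zb) ∉ P) → CobOn (RY f) (Ine P : Set GQ) c

/-- The local pairing at `q`. -/
noncomputable def lp {r : ℕ} (f : Fin r → ℤ[X]) {S : Finset (Fin r)} {q : ℕ} (dt : LocData q)
    (c c' : GQ → Pt (RY f) S → ZMod 2) : ZMod 2 :=
  pr (RY f) (c dt.σ) (c' dt.φ) + pr (RY f) (c dt.φ) (c' dt.σ)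

/-- A choice of local data for all odd primes. -/
abbrev Dat : Type := (q : ℕ) → q.Prime → q ≠ 2 → LocData q

/-- The local pairing at `q` for a choice of local data. -/
noncomputable def lpd {r : ℕ} (f : Fin r → ℤ[X]) {S : Finset (Fin r)} (dt : Dat) (q : ℕ)
    (c c' : GQ → Pt (RY f) S → ZMod 2) : ZMod 2 := by
  classical exact if h : q.Prime ∧ q ≠ 2 then lp f (dt q h.1 h.2) c c' else 0

/-- `dim Ev^φ` for the Frobenius element at `q`. -/
noncomputable def fixq {r : ℕ} (f : Fin r → ℤ[X]) (S : Finset (Fin r)) (dt : Dat) (q : ℕ) : ℕ := by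
  classical exact if h : q.Prime ∧ q ≠ 2 then fixD (RY f) S (dt q h.1 h.2).φ else 0

/-- `∏ (2 g_s) / 2`. -/
def aN {r : ℕ} (f : Fin r → ℤ[X]) (S : Finset (Fin r)) : ℕ := (∏ s ∈ S, ((f s).natDegree - 1)) / 2

/-- `0` if `g` fixes the square roots of `D`, `1` otherwise. -/
noncomputable def qs (D : ℕ) (g : GQ) : ZMod 2 := by
  classical exact if ∀ y : Qb, y ^ 2 = (D : Qb) → g y = y then 0 else 1

end Pool.TW
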