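import Pool.Agent.Helper54.HQ.StI

/-!
# Project TW, statements B: the reciprocity law over a number field `K` with principal different

Quadratic forms `Tr_(K/ℚ) (z x y / δ)`, their Hasse invariants and the product formula over `ℚ` (HQ: `hHf`, `hHa`, ..).
The statements `StHa`, `StHf`, `StHc`, `StHd`, `StHe`, `StHg0` of HQ are proved (`Pool/Agent/Helper54/HQ/M_*.lean`).
-/

set_option autoImplicit false

open scoped NumberField TensorProduct nonZeroDivisors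
open NumberField Matrix IsDedekindDomain
open Pool.Agent.Helper54.HQ (Prm hs hs2 hsR hasse IsSym lg)

namespace Pool.TW

section NF

variable {K : Type} [Field K] [NumberField K]

/-- The valuation modulo 2. -/
noncomputable def om (v : HeightOneSpectrum (𝓞 K)) (z : K) : ZMod 2 := by
  classical exact if IsSquare (v.valuation K z) then 0 else 1

/-- `0` if some `z q^n` (`n` an integer) is a square times an element `≡ 1 mod v`, otherwise `1`.  (For `q` unramified: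
the quadratic character of the unit part.) -/
noncomputable def ep (q : ℕ) (v : HeightOneSpectrum (𝓞 K)) (z : K) : ZMod 2 := by
  classical exact if ∃ (n : ℤ) (y : K), v.valuation K (z * (q : K) ^ n * y ^ 2 - 1) < 1 then 0 else 1

/-- The Gram matrix of the form `Tr (z x y / δ)` in the basis `ω`. -/
noncomputable def gram {n : ℕ} (ω : Module.Basis (Fin n) ℤ (𝓞 K)) (δ : 𝓞 K) (z : K) : Matrix (Fin n) (Fin n) ℚ :=
  fun i j => Algebra.trace ℚ K (z * (ω i : K) * (ω j : K) / (δ : K))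

end NF

/-- `h` is the Hasse invariant of the symmetric matrix `G` (computed from some diagonalisation of `G`). -/
def Hs {F : Type} [Field F] (s : F → F → ZMod 2) {n : ℕ} (G : Matrix (Fin n) (Fin n) F) (h : ZMod 2) : Prop :=
  ∃ (P : Matrix (Fin n) (Fin n) F) (a : Fin n → F), IsUnit P.det ∧ (∀ i, a i ≠ 0) ∧ Pᵀ * G * P = Matrix.diagonal a ∧
    hasse s a = h

/-- `q` is an odd prime, unramified in `K`, and `V` is the set of the primes above `q`. -/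
structure UnrAt (K : Type) [Field K] [NumberField K] (q : ℕ) (V : Finset (HeightOneSpectrum (𝓞 K))) : Prop where
  pr : q.Prime
  ne : q ≠ 2
  mem : ∀ v : HeightOneSpectrum (𝓞 K), v ∈ V ↔ (q : 𝓞 K) ∈ v.asIdeal
  unr : ∀ v ∈ V, (q : 𝓞 K) ∉ v.asIdeal ^ 2

/-- B1 (`om`, `ep` are homomorphisms).  `v(q) = 1` since `q ∈ v`, `q ∉ v²`.  `om`: parity of the valuation.  `ep`: for
`z ≠ 0` choose `n = - v(z)`: `z q^n = u` has valuation `0`, residue `ū ≠ 0` in the residue field `k_v` of the local ring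
(`= 𝓞 K / v`; every element of valuation `0` is `a / b` with `a, b ∈ 𝓞 K ∖ v`: hence `= a b / b²`).  If `z q^m y²` is
`≡ 1 mod v` then `m = - v(z) - 2 v(y)`, so `z q^m y² = u (q^(-v(y)) y)²`: so `ep z = 0` iff `ū` is a square in `k_v`.  (3): take `u = a`.
In a finite field of odd order (`2 ∉ v` as `q` is odd) the product of two nonsquares is a square and the product of a square
and a nonsquare is a nonsquare: (2).  (4): squares; `n = 0`, `y = z⁻¹`. -/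
def StB1 : Prop :=
  ∀ (K : Type) [Field K] [NumberField K] (q : ℕ) (V : Finset (HeightOneSpectrum (𝓞 K))), UnrAt K q V → ∀ v ∈ V,
    (∀ z w : K, z ≠ 0 → w ≠ 0 → om v (z * w) = om v z + om v w) ∧
    (∀ z w : K, z ≠ 0 → w ≠ 0 → ep q v (z * w) = ep q v z + ep q v w) ∧
    (∀ a : 𝓞 K, a ∉ v.asIdeal → ep q v (a : K) = lg (Ideal.Quotient.mk v.asIdeal a)) ∧
    (∀ z : K, z ≠ 0 → om v (z ^ 2) = 0 ∧ ep q v (z ^ 2) = 0)

/-- B2 (normalisation).  `p` any prime number (possibly ramified).  The primes `v_1, .., v_r` above `p` are finitely many.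
Put `n_i = - ⌊v_i(z) / 2⌋` and choose `y_0 ∈ K^*` with `v_i(y_0) = n_i` for all `i` (Chinese remainder theorem in the
Dedekind domain: choose `c ∈ 𝓞 K`, with `v_i(c)` prescribed `≥ 0`; divide by a power of `p`).  Then `z y_0²` has valuation
`0` (if `om = 0`) or `1` (if `om = 1`) at `v_i`.  The ideal `I = {x ∈ 𝓞 K : x z y_0² ∈ 𝓞 K}` is contained in no `v_i`, so
`I + (p) = (1)`, `p` is a unit modulo `I`, so the order `m` of the finite ring `𝓞 K / I` is prime to `p`, and `m ∈ I`.  Take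
`y = m y_0`, `a = z y² = m (m z y_0²)`; `m` is a unit at the `v_i`. -/
def StB2 : Prop :=
  ∀ (K : Type) [Field K] [NumberField K] (p : ℕ), p.Prime → ∀ z : K, z ≠ 0 →
    ∃ (y : K) (a : 𝓞 K), y ≠ 0 ∧ z * y ^ 2 = a ∧ ∀ v : HeightOneSpectrum (𝓞 K), (p : 𝓞 K) ∈ v.asIdeal →
      (om v z = 0 → a ∉ v.asIdeal) ∧ (om v z = 1 → a ∈ v.asIdeal ∧ a ∉ v.asIdeal ^ 2)

/-- B3 (Gram matrices).  `δ ≠ 0`.  The dual `{x : Tr (x 𝓞 K) ⊆ ℤ}` of `𝓞 K` is `δ⁻¹ 𝓞 K` (the different is the inverse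
of the dual, `coeIdeal_differentIdeal`).  So for `a ∈ 𝓞 K` the matrix `gram ω δ a` has integral entries.  Let
`D = gram ω δ 1`, `ω_j^*` the dual basis, `Tr (ω_i ω_j^*) = δ_ij`: `ω_j^*` is in the dual, so `ω_j^* = ∑_k c_kj ω_k / δ`
with `c_kj ∈ ℤ`, and `1 = D c`, so `det D = ±1`.  If `z ω_i = ∑_k m_ki ω_k` (`m` the matrix of multiplication by `z`,
rational, `det m = N(z)`): `gram ω δ z = mᵀ D`, of determinant `N(z) det D`. -/
def StB3 : Prop :=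
  ∀ (K : Type) [Field K] [NumberField K] (n : ℕ) (ω : Module.Basis (Fin n) ℤ (𝓞 K)) (δ : 𝓞 K),
    differentIdeal ℤ (𝓞 K) = Ideal.span {δ} →
    δ ≠ 0 ∧ (∀ z : K, (gram ω δ z)ᵀ = gram ω δ z) ∧
    (∃ ε : ℤ, (ε = 1 ∨ ε = -1) ∧ ∀ z : K, (gram ω δ z).det = ε * Algebra.norm ℚ z) ∧
    ∀ a : 𝓞 K, ∃ G : Matrix (Fin n) (Fin n) ℤ, Gᵀ = G ∧ gram ω δ (a : K) = G.map (Int.cast : ℤ → ℚ)

/-- B4 (change of `z` by a square).  `F` is a field over `ℚ`, `A = F ⊗ K` with the `F`-basis `1 ⊗ ω_i`, `1 ⊗ z = ζ²`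
with `ζ ∈ A`, a unit as `z ≠ 0`.  Let `M` be the matrix of multiplication by `ζ` in this basis: invertible.  As
`Tr_(A/F) (1 ⊗ x) = Tr_(K/ℚ) x` (`LinearMap.trace_baseChange`) one has
`gram (z w)_ij = Tr_(A/F) (ζ² (1 ⊗ (w/δ)) (1 ⊗ ω_i) (1 ⊗ ω_j)) = Tr ((1 ⊗ w/δ) (ζ (1 ⊗ ω_i)) (ζ (1 ⊗ ω_j))) = (Mᵀ gram(w) M)_ij`. -/
def StB4 : Prop :=
  ∀ (K : Type) [Field K] [NumberField K] (n : ℕ) (ω : Module.Basis (Fin n) ℤ (𝓞 K)) (δ : 𝓞 K) (F : Type) [Field F]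
    [Algebra ℚ F] (z w : K), z ≠ 0 → IsSquare ((1 : F) ⊗ₜ[ℚ] z) →
    ∃ M : Matrix (Fin n) (Fin n) F, IsUnit M.det ∧
      (gram ω δ (z * w)).map (algebraMap ℚ F) = Mᵀ * (gram ω δ w).map (algebraMap ℚ F) * M

/-- B5 (uniqueness of the Hasse invariant).  `G' = Qᵀ G Q`; two diagonalisations give two orthogonal bases of `F^n` with the
form of matrix `G`: the columns of `P` and of `Q P'`; apply HQ.StHa (proved: `HQ.hHa`, `HQ.hHa1`). -/
def StB5 : Prop :=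
  ∀ (F : Type) [Field F] (s : F → F → ZMod 2), IsSym F s → (2 : F) ≠ 0 → ∀ (n : ℕ) (G Q : Matrix (Fin n) (Fin n) F),
    Gᵀ = G → IsUnit Q.det → ∀ h h' : ZMod 2, Hs s G h → Hs s (Qᵀ * G * Q) h' → h = h'

/-- B6 (product formula).  Diagonalise `G` over `ℚ`: `Pᵀ G P = diag a`, `a_i ≠ 0` (nondegenerate symmetric form over a field
with `2 ≠ 0`: `LinearMap.BilinForm.exists_orthogonal_basis`).  `S₀` = the odd primes dividing the numerator or denominator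
of some `a_i`.  For `S ⊇ S₀` sum the product formula `HQ.StHf` over the pairs `i < j`: the sum over `P ∈ S` of
`hasse (hs P) a` plus `hasse hs2 a` plus `hasse hsR a` is `0`, and by B5 these are the given Hasse invariants
(`IsSym`: HQ.StHc, StHd, StHe). -/
def StB6 : Prop :=
  StB5 → ∀ (n : ℕ) (G : Matrix (Fin n) (Fin n) ℚ), Gᵀ = G → G.det ≠ 0 →
    ∃ S₀ : Finset Prm, (∀ P ∈ S₀, (P : ℕ) ≠ 2) ∧ ∀ S : Finset Prm, S₀ ⊆ S → (∀ P ∈ S, (P : ℕ) ≠ 2) → ∀ (h : Prm → ZMod 2) (h2 hR : ZMod 2),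
      (∀ P ∈ S, Hs (hs (P : ℕ)) (G.map (algebraMap ℚ ℚ_[(P : ℕ)])) (h P)) →
      Hs hs2 (G.map (algebraMap ℚ ℚ_[2])) h2 → Hs hsR (G.map (algebraMap ℚ ℝ)) hR →
      ∑ P ∈ S, h P + h2 + hR = 0

/-- B6a (existence).  A symmetric matrix with nonzero determinant over a field with `2 ≠ 0` can be diagonalised. -/
def StB6a : Prop :=
  ∀ (F : Type) [Field F] (s : F → F → ZMod 2), (2 : F) ≠ 0 → ∀ (n : ℕ) (G : Matrix (Fin n) (Fin n) F), Gᵀ = G →
    G.det ≠ 0 → ∃ h, Hs s G h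

/-- B7 (odd primes, even valuations).  By B2 `z y² = a ∈ 𝓞 K`, `a ∉ v` for all `v` above `p`, so `p ∤ N(a)` (a prime `v`
containing `a` divides `N(a)`; if `p` divides `N(a)` then multiplication by `a` on `𝓞 K / p` is not injective, so `a` is
in some prime above `p`: the ideal `(a) + (p)` is then proper).  By B3 `gram ω δ a` is integral of determinant `± N(a)`, a
unit of `ℤ_p`; `HQ.StHg0` over `ℤ_[p]` gives an integral diagonalisation with unit norms, and `hs p` vanishes on pairs of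
units (`v2 = 0`).  By B4 with `F = ℚ` (for the square `y²`: `1 ⊗ y² = (1 ⊗ y)²`) `gram ω δ a = Mᵀ (gram ω δ z) M`, so the
same Hasse invariant `0` is obtained for `gram ω δ z`. -/
def StB7 : Prop :=
  StB2 → StB3 → StB4 → ∀ (K : Type) [Field K] [NumberField K] (n : ℕ) (ω : Module.Basis (Fin n) ℤ (𝓞 K)) (δ : 𝓞 K),
    differentIdeal ℤ (𝓞 K) = Ideal.span {δ} → ∀ (p : ℕ) [Fact p.Prime], p ≠ 2 → ∀ z : K, z ≠ 0 →
    (∀ v : HeightOneSpectrum (𝓞 K), (p : 𝓞 K) ∈ v.asIdeal → om v z = 0) →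
    Hs (hs p) ((gram ω δ z).map (algebraMap ℚ ℚ_[p])) 0

/-- B8 (two blocks).  `κ = ℤ/q`, `Ḡ` = reduction of `G`.  Lift `P₀` to an invertible matrix over `ℤ_q`
(local ring), transform `G` by it: `G = [A, B; Bᵀ, C]` with `A ≡ A₀` (so `det A` is a unit), `B ≡ 0`, `C ≡ 0` modulo `q`.
Transform by `[1, -A⁻¹B; 0, 1]`: `[A, 0; 0, C - Bᵀ A⁻¹ B]` and `C - Bᵀ A⁻¹ B = q C'`.  The determinant:
`q^(n₁) det A det C'` is `u q^(n₁)` times a unit square, so `det C'` is a unit.  `HQ.StHg0` over `ℤ_[q]` for `A` and `C'`: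
norms `u_i` (`i < n₀`) and `q u'_j` (`j < n₁`), units `u_i, u'_j`, with `l = lg ∘ (mod q)`: `∑ l(u_i) = lg (det A₀) =: d₀`
(`lg` is additive on nonzero elements of `κ`), `∑ l(u'_j) =: d₁`, `d₀ + d₁ = lg (u mod q) = 0`.
`hs q (u_i) (u_k) = 0`, `hs q (u_i) (q u'_j) = l(u_i)`, `hs q (q u'_j) (q u'_k) = lg(-1) + l(u'_j) + l(u'_k)` and `lg (-1) = 0`
as `q ≡ 1 mod 4`.  So the Hasse invariant is `n₁ d₀ + (n₁ - 1) d₁ = d₁ = d₀` as `n₁` is even (if `n₁ = 0`: it is `0`, and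
`d₁ = 0 = d₀`). -/
def StB8 : Prop :=
  ∀ (q : ℕ) [Fact q.Prime], q % 4 = 1 → ∀ (n n₀ n₁ : ℕ) (G : Matrix (Fin n) (Fin n) ℤ_[q]), Gᵀ = G → Even n₁ →
    ∀ (P₀ : Matrix (Fin n) (Fin n₀ ⊕ Fin n₁) (ZMod q)) (P₀' : Matrix (Fin n₀ ⊕ Fin n₁) (Fin n) (ZMod q)),
    P₀ * P₀' = 1 → P₀' * P₀ = 1 → ∀ A₀ : Matrix (Fin n₀) (Fin n₀) (ZMod q), A₀.det ≠ 0 →
    P₀ᵀ * G.map (PadicInt.toZMod) * P₀ = Matrix.fromBlocks A₀ 0 0 0 →
    ∀ u : ℤ_[q], IsUnit u → G.det = (q : ℤ_[q]) ^ n₁ * u → lg (PadicInt.toZMod u) = 0 →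
    Hs (hs q) (G.map (algebraMap ℤ_[q] ℚ_[q])) (lg A₀.det)

/-- B9a (trace forms of finite fields).  `κ ⊆ k` finite fields, `b` a basis: `det (Tr (t b_i b_j)) = N(t) det (Tr (b_i b_j))`,
the last factor is `≠ 0` (separable), and `N(t)` is a square in `κ` iff `t` is a square in `k` (`t ↦ N(t)` is the
surjective homomorphism `t ↦ t^((|k|-1)/(|κ|-1))` of cyclic groups, `(|k|-1)/2 = (|κ|-1)/2 * (|k|-1)/(|κ|-1)`, Euler's criterion:
`N(t)^((|κ|-1)/2) = t^((|k|-1)/2)`). -/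
def StB9a : Prop :=
  ∀ (κ k : Type) [Field κ] [Field k] [Fintype κ] [Fintype k] [Algebra κ k], (2 : κ) ≠ 0 → ∀ (m : ℕ)
    (b : Module.Basis (Fin m) κ k), ∀ t : k, t ≠ 0 →
    Matrix.det (fun i j => Algebra.trace κ k (t * b i * b j)) ≠ 0 ∧
    lg (Matrix.det (fun i j => Algebra.trace κ k (t * b i * b j))) =
      lg t + lg (Matrix.det (fun i j => Algebra.trace κ k (b i * b j)))

/-- B9b (the trace modulo `q`).  `q𝓞 K = ∏_(v ∈ V) v` (unramified), so `𝓞 K / q = ∏_v k_v`, `k_v = 𝓞 K / v`, and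
`Tr_(K/ℚ) x mod q = Tr_((𝓞 K/q)/(ℤ/q)) x̄ = ∑_v Tr_(k_v/(ℤ/q)) (x mod v)` (`Algebra.trace_quotient_mk`, trace of a product:
the matrix of multiplication by `x̄` in a basis adapted to the product is block diagonal).  Here the `ℤ/q`-algebra structure
of `k_v` is the unique one; it is given as an instance. -/
def StB9b : Prop :=
  ∀ (K : Type) [Field K] [NumberField K] (q : ℕ) (V : Finset (HeightOneSpectrum (𝓞 K))), UnrAt K q V →
    ∀ [∀ v : V, Algebra (ZMod q) (𝓞 K ⧸ v.1.asIdeal)] (x : 𝓞 K),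
    ((Algebra.trace ℤ (𝓞 K) x : ℤ) : ZMod q) =
      ∑ v : V, Algebra.trace (ZMod q) (𝓞 K ⧸ v.1.asIdeal) (Ideal.Quotient.mk v.1.asIdeal x)

/-- B9c (the form modulo `q`).  `δ ∉ v` for `v ∈ V`, so there is `δ' ∈ 𝓞 K` with `δ δ' = 1 - q η`, `η ∈ 𝓞 K`, and for
`x ∈ 𝓞 K`: `Tr(x/δ) - Tr(x δ') = q Tr(x η/δ) ∈ q ℤ` (B3 or the definition of the different).  So the reduction of
`G` (`gram ω δ a = G`, integral) is `(Tr (a δ' ω_i ω_j) mod q)`, the Gram matrix of the form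
`∑_v Tr_(k_v) (t_v x_v y_v)`, `t_v = a δ' mod v`, on `𝓞 K / q = ∏_v k_v` (B9b) in the basis `ω̄`.  Choose bases `b_(v,i)` of the `k_v`
over `ℤ/q` (`i < f_v`); `P₀` = the matrix expressing the `b_(v,i)` (those with `a ∉ v` first: `n₀` vectors, then those
with `a ∈ v`, `n₁ = ∑ f_v` vectors) in the basis `ω̄`.  The blocks with `t_v = 0` vanish, the others give `A₀`, block
diagonal, `lg (det A₀) = ∑_(v : a ∉ v) (lg t_v + lg disc_v) = ∑_(v : a ∉ v) (lg (a mod v) + c_v)` with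
`c_v = lg (δ' mod v) + lg disc_v` (B9a; `lg` additive on nonzero elements).  The number `n₁`: if moreover `a ∉ v²` for
all `v ∈ V`, `a ≠ 0`, then `|N(a)| = q^(n₁) m`, `q ∤ m` (the norm of the ideal `(a)`, whose part above `q` is
`∏_(a ∈ v) v`). -/
def StB9c : Prop :=
  StB3 → StB9a → StB9b → ∀ (K : Type) [Field K] [NumberField K] (n : ℕ) (ω : Module.Basis (Fin n) ℤ (𝓞 K)) (δ : 𝓞 K),
    differentIdeal ℤ (𝓞 K) = Ideal.span {δ} → ∀ (q : ℕ) (V : Finset (HeightOneSpectrum (𝓞 K))), UnrAt K q V →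
    (∀ v ∈ V, δ ∉ v.asIdeal) → ∃ c : HeightOneSpectrum (𝓞 K) → ZMod 2, ∀ a : 𝓞 K, a ≠ 0 →
    (∀ v ∈ V, a ∉ v.asIdeal ^ 2) → ∀ x : HeightOneSpectrum (𝓞 K) → ZMod 2,
    (∀ v ∈ V, (a ∉ v.asIdeal → x v = 0) ∧ (a ∈ v.asIdeal → x v = 1)) →
    ∀ G : Matrix (Fin n) (Fin n) ℤ, gram ω δ (a : K) = G.map (Int.cast : ℤ → ℚ) →
    ∃ (n₀ n₁ : ℕ) (P₀ : Matrix (Fin n) (Fin n₀ ⊕ Fin n₁) (ZMod q)) (P₀' : Matrix (Fin n₀ ⊕ Fin n₁) (Fin n) (ZMod q))
      (A₀ : Matrix (Fin n₀) (Fin n₀) (ZMod q)) (m : ℤ), P₀ * P₀' = 1 ∧ P₀' * P₀ = 1 ∧ A₀.det ≠ 0 ∧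
      P₀ᵀ * G.map (Int.cast : ℤ → ZMod q) * P₀ = Matrix.fromBlocks A₀ 0 0 0 ∧
      lg A₀.det = ∑ v ∈ V, (1 + x v) * (lg (Ideal.Quotient.mk v.asIdeal a) + c v) ∧
      Algebra.norm ℚ (a : K) = (q : ℚ) ^ n₁ * m ∧ ¬ (q : ℤ) ∣ m

/-- B9d (the different at unramified primes).  If `v` divides the different then `v` is ramified over `ℤ`
(`dvd_differentIdeal_iff` and similar in `Mathlib/RingTheory/DedekindDomain/Different.lean`), i.e. `q ∈ v²`: its ramification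
index is `≥ 2` (the residue fields are finite, hence perfect). -/
def StB9d : Prop :=
  ∀ (K : Type) [Field K] [NumberField K] (δ : 𝓞 K), differentIdeal ℤ (𝓞 K) = Ideal.span {δ} →
    ∀ (q : ℕ) (V : Finset (HeightOneSpectrum (𝓞 K))), UnrAt K q V → ∀ v ∈ V, δ ∉ v.asIdeal

/-- B9 (the primes of `Q`).  B2: `z y² = a`; `gram ω δ a = Mᵀ gram ω δ z M` (B4 with `F = ℚ`), so it is enough to treat
`a`.  `N(a) = N(z) N(y)²` is a square in `ℚ`, and `= q^(n₁) m` with `q ∤ m` (B9c): so `n₁` is even and `m` is a square in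
`ℤ`.  `det G = ± N(a) = q^(n₁) (± m)` and `± m` is a square modulo `q ≡ 1 mod 4`.  B8 for `G` over `ℤ_[q]` (its
reduction is that of `G`) gives `Hs .. (lg det A₀)`.  Finally `om v z = [a ∈ v]` and
`ep q v z = ep q v a = lg (a mod v)` if `a ∉ v` (B1; `ep q v (y²) = 0`).  `c` is that of B9c. -/
def StB9 : Prop :=
  StB1 → StB2 → StB3 → StB4 → StB8 → StB9c → StB9d → ∀ (K : Type) [Field K] [NumberField K] (n : ℕ)
    (ω : Module.Basis (Fin n) ℤ (𝓞 K)) (δ : 𝓞 K), differentIdeal ℤ (𝓞 K) = Ideal.span {δ} →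
    ∀ (q : ℕ) [Fact q.Prime] (V : Finset (HeightOneSpectrum (𝓞 K))), q % 4 = 1 → UnrAt K q V →
    ∃ c : HeightOneSpectrum (𝓞 K) → ZMod 2, ∀ z : K, z ≠ 0 → IsSquare (Algebra.norm ℚ z) →
    Hs (hs q) ((gram ω δ z).map (algebraMap ℚ ℚ_[q])) (∑ v ∈ V, (1 + om v z) * (ep q v z + c v))

/-- B10 (reciprocity law).  Let `n = [K : ℚ]`, `ω` an integral basis.  For each `x` of the four elements `1, z, w, z w` the
matrix `gram ω δ x` is symmetric with determinant `± N(x) ≠ 0` (B3); choose a finite set `S` of odd primes containing `Q`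
and the four `S₀` of B6.  Its Hasse invariant at `P ∈ S ∖ Q` is `0` (B7: all valuations above `P` are even), at
`P ∈ Q` it is `H_P(x) = ∑_(v ∈ V P) (1 + om x) (ep x + c v)` (B9), at `2` and `∞` some `h2(x)`, `hR(x)` (B6a).  By B4 (for
`z`, `w`) and B4 (for `z`, `1`) and B5: `h2(z w) = h2(w)`, `h2(z) = h2(1)`, the same for `hR`.  Add the four product formulas:
`∑_(P ∈ Q) (H_P(1) + H_P(z) + H_P(w) + H_P(z w)) = 0`.  With `om`, `ep` additive (B1) and `om 1 = ep 1 = 0`, for each `v`, in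
`ZMod 2`: `c + (1 + o)(e + c) + (1 + o')(e' + c) + (1 + o + o')(e + e' + c) = o e' + o' e`. -/
def StB10 : Prop :=
  StB1 → StB3 → StB4 → StB5 → StB6 → StB6a → StB7 → StB9 → ∀ (K : Type) [Field K] [NumberField K] (δ : 𝓞 K),
    differentIdeal ℤ (𝓞 K) = Ideal.span {δ} → ∀ (Q : Finset ℕ) (V : ℕ → Finset (HeightOneSpectrum (𝓞 K))),
    (∀ q ∈ Q, q % 4 = 1 ∧ UnrAt K q (V q)) → ∀ z w : K, z ≠ 0 → w ≠ 0 → IsSquare (Algebra.norm ℚ z) →
    IsSquare (Algebra.norm ℚ w) → IsSquare ((1 : ℚ_[2]) ⊗ₜ[ℚ] z) → IsSquare ((1 : ℝ) ⊗ₜ[ℚ] z) →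
    (∀ v : HeightOneSpectrum (𝓞 K), (2 : 𝓞 K) ∉ v.asIdeal → (∀ q ∈ Q, (q : 𝓞 K) ∉ v.asIdeal) →
      om v z = 0 ∧ om v w = 0) →
    ∑ q ∈ Q, ∑ v ∈ V q, (om v z * ep q v w + om v w * ep q v z) = 0

end Pool.TW
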