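import Pool.Agent.Helper34.TW.StA
import Pool.Agent.Helper34.TW.StB
import Pool.Agent.Helper2.RG.Base

/-!
# Project TW: the fields and the Kummer functions
-/

set_option autoImplicit false

open scoped Pointwise NumberField
open NumberField Polynomial IsDedekindDomain Pool.RG2

namespace Pool.TW

/-- The sign. -/
noncomputable def sg (a : ZMod 2) : Qb := if a = 0 then 1 else -1

/-- A locally constant cocycle with values in the functions on a set `X` with an action of the Galois group. -/
structure XCoc {X : Type} [MulAction GQ X] (c : GQ → X → ZMod 2) : Prop where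
  mul : ∀ g h x, c (g * h) x = c g x + c h (g⁻¹ • x)
  lc : ∃ U : Subgroup GQ, IsOpen (U : Set GQ) ∧ ∀ u ∈ U, ∀ x, c u x = 0

/-- `b` is a Kummer function of `c`: `g (b x) = (-1)^(c g (g x)) b (g x)`. -/
structure IsKum {X : Type} [MulAction GQ X] (c : GQ → X → ZMod 2) (b : X → Qb) : Prop where
  ne : ∀ x, b x ≠ 0
  eq : ∀ g x, g (b x) = sg (c g (g • x)) * b (g • x)

/-- The field `ℚ(θ_s, s ∈ S)`. -/
noncomputable abbrev KS {r : ℕ} (f : Fin r → ℤ[X]) {S : Finset (Fin r)} (θ : Pt (RY f) S) : Sub :=
  IntermediateField.adjoin ℚ (Set.range fun s : S => ((θ s).1 : Qb))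

instance instKS {r : ℕ} (f : Fin r → ℤ[X]) {S : Finset (Fin r)} (θ : Pt (RY f) S) : NumberField (KS f θ) where
  to_charZero := inferInstance
  to_finiteDimensional := by
    apply IntermediateField.finiteDimensional_adjoin
    intro x _
    have := Pool.RG.instAlg
    exact Algebra.IsIntegral.isIntegral x

end Pool.TW
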