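import Pool.Agent.Helper34.TW.Defs

/-!
# Project TW (MP_76188c_nt): the vocabulary of the result

`Qb`, `GQ`, `Zb`, `Dec`, `Ine`, `matQ`, `red` are those of `Pool.RG2`; `Rt`, `GoodAt`, `Hyp`, `vq`, `cyc`, `IsQuad`, `tn`,
`OutD` are those of `Pool.Agent.Helper34.TW.Defs`.
-/

set_option autoImplicit false

open scoped Pointwise NumberField
open NumberField Polynomial Pool.RG2

namespace Pool.TW

/-- Representations of `GQ` on `T = ℤ_2^n`. -/
abbrev RepZ (n : ℕ) : Type := GQ →* GL (Fin n) ℤ_[2]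

/-- Characters of `GQ` with values in the units of `ℤ_2`. -/
abbrev Ch : Type := GQ →* ℤ_[2]ˣ

/-- The value of `χ` at `σ`. -/
noncomputable def val (χ : Ch) (σ : GQ) : ℤ_[2] := (χ σ : ℤ_[2])

/-- The space `V = ℚ_2^n`. -/
abbrev VQ (n : ℕ) : Type := Fin n → ℚ_[2]

/-- The action of `σ` on `V`. -/
noncomputable def ap {n : ℕ} (ρ : RepZ n) (σ : GQ) (v : VQ n) : VQ n := (matQ 2 (ρ σ)).mulVec v

/-- The action of `σ` on the twist of `V` by the character `ψ`: `v ↦ ψ(σ) ρ(σ) v`. -/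
noncomputable def tw {n : ℕ} (ρ : RepZ n) (ψ : Ch) (σ : GQ) (v : VQ n) : VQ n := (val ψ σ : ℚ_[2]) • ap ρ σ v

/-- The reduction of a matrix modulo `2`. -/
noncomputable def mod2 {n : ℕ} (g : GL (Fin n) ℤ_[2]) : Matrix (Fin n) (Fin n) (ZMod 2) :=
  (g : Matrix (Fin n) (Fin n) ℤ_[2]).map (PadicInt.toZMod (p := 2))

/-- The action of `σ` on `T/2T`. -/
noncomputable def ap2 {n : ℕ} (ρ : RepZ n) (σ : GQ) (v : Fin n → ZMod 2) : Fin n → ZMod 2 := (mod2 (ρ σ)).mulVec v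

/-- The class of `v` in `V/T` is fixed by the inertia group of `P`. -/
def FixMod {n : ℕ} (ρ : RepZ n) (P : Ideal Zb) (v : VQ n) : Prop :=
  ∀ σ ∈ Ine P, ∃ t : Fin n → ℤ_[2], ap ρ σ v - v = vq t

/-- `(V/T)^(I_P)` is divisible: every element of `V/T` fixed by the inertia group of `P` is the class of an element `v - t`
of `V`, `t ∈ T`, which is fixed by the inertia group. -/
def DivR {n : ℕ} (ρ : RepZ n) (P : Ideal Zb) : Prop :=
  ∀ v : VQ n, FixMod ρ P v → ∃ t : Fin n → ℤ_[2], ∀ σ ∈ Ine P, ap ρ σ v - v = ap ρ σ (vq t) - vq t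

/-- The tuples `(x_s)`, `s ∈ S`, where `x_s` is a root of `f_s`. -/
abbrev PtR {r : ℕ} (f : Fin r → ℤ[X]) (S : Finset (Fin r)) : Type := (s : S) → Rt (f s)

/-- The Galois action on the functions on the tuples with values in `F_2`. -/
noncomputable def actR {r : ℕ} {f : Fin r → ℤ[X]} {S : Finset (Fin r)} (σ : GQ) (m : PtR f S → ZMod 2) : PtR f S → ZMod 2 :=
  fun x => m fun s => σ⁻¹ • x s

/-- All the sums of `m` over one coordinate vanish. -/
def Even {r : ℕ} {f : Fin r → ℤ[X]} {S : Finset (Fin r)} (m : PtR f S → ZMod 2) : Prop :=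
  ∀ (s : S) (x : PtR f S), ∑ y : Rt (f s), m (Function.update x s y) = 0

/-- `T/2T` is isomorphic to the module of the functions `m` with `Even m`. -/
def ResR {r : ℕ} (f : Fin r → ℤ[X]) (S : Finset (Fin r)) {n : ℕ} (ρ : RepZ n) : Prop :=
  ∃ e : (Fin n → ZMod 2) → PtR f S → ZMod 2, (∀ v w, e (v + w) = e v + e w) ∧ Function.Injective e ∧
    (∀ m, Even m ↔ ∃ v, e v = m) ∧ ∀ σ v, e (ap2 ρ σ v) = actR σ (e v)

/-- `P` is an odd maximal ideal of `Zb`. -/
def OddP (P : Ideal Zb) : Prop := P.IsMaximal ∧ (2 : Zb) ∉ P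

/-- `ρ` is unramified at the odd primes where the `f_s`, `s ∈ S`, have distinct roots. -/
def UnrR {r : ℕ} (f : Fin r → ℤ[X]) (S : Finset (Fin r)) {n : ℕ} (ρ : RepZ n) : Prop :=
  ∀ P, OddP P → (∀ s ∈ S, GoodAt (f s) P) → ∀ σ ∈ Ine P, ρ σ = 1

/-- The conditions on `ρ_S`: continuous; unramified at the odd primes where the `f_s`, `s ∈ S`, have distinct roots;
`(V/T)^(I_P)` divisible at all odd primes; `T/2T` is the module of the functions `m` with `Even m`. -/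
def RepR {r : ℕ} (f : Fin r → ℤ[X]) (S : Finset (Fin r)) {n : ℕ} (ρ : RepZ n) : Prop :=
  Continuous ρ ∧ UnrR f S ρ ∧ (∀ P, OddP P → DivR ρ P) ∧ ResR f S ρ

/-- `c` is a continuous cocycle with values in the twist of `V` by `ψ`. -/
def Coc {n : ℕ} (ρ : RepZ n) (ψ : Ch) (c : GQ → VQ n) : Prop :=
  Continuous c ∧ ∀ σ τ, c (σ * τ) = c σ + tw ρ ψ σ (c τ)

/-- `c` is on the subgroup `G` a coboundary with values in the twist of `V` by `ψ`. -/
def Cob {n : ℕ} (ρ : RepZ n) (ψ : Ch) (G : Subgroup GQ) (c : GQ → VQ n) : Prop :=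
  ∃ v : VQ n, ∀ σ ∈ G, c σ = tw ρ ψ σ v - v

/-- Every cocycle `c` with values in the twist of `V` by `ψ` which is a coboundary on the inertia group of every `P ∈ Is`,
and a coboundary plus a linear combination of the `u_i` on the decomposition group of `P0`, is a coboundary. -/
def ConclR {n t : ℕ} (ρ : RepZ n) (ψ : Ch) (Is : Set (Ideal Zb)) (P0 : Ideal Zb) (u : Fin t → GQ → VQ n) : Prop :=
  ∀ c : GQ → VQ n, Coc ρ ψ c → (∀ P ∈ Is, Cob ρ ψ (Ine P) c) →
    (∃ a : Fin t → ℚ_[2], Cob ρ ψ (Dec P0) (c - ∑ i, a i • u i)) → Cob ρ ψ ⊤ c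

/-- The image of `y` under `σ`. -/
noncomputable def gal (σ : GQ) (y : Qb) : Qb := σ y

/-- `χ` is the quadratic character of `ℚ(√D)`. -/
def QuadR (D : ℕ) (χ : Ch) : Prop :=
  ∀ y : Qb, y ^ 2 = (D : Qb) → ∀ σ : GQ, (gal σ y = y ∧ val χ σ = 1) ∨ (gal σ y = -y ∧ val χ σ = -1)

/-- The product of `χ` and the `j`-th power of the cyclotomic character. -/
noncomputable def tate (χ : Ch) (j : ℤ) : Ch := χ * cyc ^ j

/-- The `D_s` are squarefree, larger than `B`, and all their prime factors are `1` modulo `8`. -/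
def Adm {r : ℕ} (B : ℕ) (D : Fin r → ℕ) : Prop :=
  ∀ s, B < D s ∧ Squarefree (D s) ∧ ∀ p : ℕ, p.Prime → p ∣ D s → p % 8 = 1

end Pool.TW
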