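import Pool.Agent.Helper34.TW.StA

set_option autoImplicit false
set_option linter.unusedSectionVars false

open scoped Pointwise NumberField
open NumberField Polynomial Pool.RG2

namespace Pool.TW

section

variable {Γ : Type} [Group Γ] {r : ℕ} (Y : Fin r → Type) [∀ s, Fintype (Y s)]
  [∀ s, DecidableEq (Y s)] [∀ s, MulAction Γ (Y s)] {S : Finset (Fin r)}

private theorem smul_update_A1 (g : Γ) (x : Pt Y S) (s : S) (y : Y s) :
    g • Function.update x s y = Function.update (g • x) s (g • y) := by
  funext t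
  by_cases h : t = s
  · subst h
    simp
  · simp [Function.update_of_ne h]

private theorem ps_act_A1 (g : Γ) (s : S) (m : Pt Y S → ZMod 2) :
    ps Y s (act Y g m) = act Y g (ps Y s m) := by
  funext x
  simp only [ps, act, smul_update_A1]
  exact (Equiv.sum_comp (MulAction.toPerm (g⁻¹ : Γ) : Equiv.Perm (Y s))
    (fun y => m (Function.update (g⁻¹ • x) s y)))

private theorem mem_Ev_A1 (m : Pt Y S → ZMod 2) : m ∈ Ev Y S ↔ ∀ s : S, ps Y s m = 0 := by
  constructor
  · intro h s
    funext x
    exact h s x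
  · intro h s x
    exact congrFun (h s) x

/-- `ps` as a linear map. -/
private def psL_A1 (s : S) : (Pt Y S → ZMod 2) →ₗ[ZMod 2] (Pt Y S → ZMod 2) where
  toFun := ps Y s
  map_add' m m' := by
    funext x
    simp [ps, Finset.sum_add_distrib]
  map_smul' c m := by
    funext x
    simp [ps, Finset.mul_sum]

private theorem psL_apply_A1 (s : S) (m : Pt Y S → ZMod 2) : psL_A1 Y s m = ps Y s m := rfl

private theorem ps_comm_A1 (s t : S) (m : Pt Y S → ZMod 2) :
    ps Y s (ps Y t m) = ps Y t (ps Y s m) := by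
  by_cases h : s = t
  · subst h; rfl
  · funext x
    simp only [ps]
    rw [Finset.sum_comm]
    refine Finset.sum_congr rfl fun y _ => Finset.sum_congr rfl fun z _ => ?_
    rw [Function.update_comm h]

private theorem ps_indep_A1 (s : S) (hodd : Odd (Fintype.card (Y s))) (w : Pt Y S → ZMod 2)
    (hw : ∀ x y, w (Function.update x s y) = w x) : ps Y s w = w := by
  funext x
  simp only [ps, hw]
  rw [Finset.sum_const, Finset.card_univ, nsmul_eq_mul]
  have : ((Fintype.card (Y s) : ℕ) : ZMod 2) = 1 := by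
    rw [← ZMod.natCast_mod, Nat.odd_iff.mp hodd]
    simp
  rw [this, one_mul]

private theorem ps_idem_A1 (s : S) (hodd : Odd (Fintype.card (Y s))) (m : Pt Y S → ZMod 2) :
    ps Y s (ps Y s m) = ps Y s m := by
  apply ps_indep_A1 Y s hodd
  intro x y
  simp [ps]

private theorem pr_ps_A1 (s : S) (m m' : Pt Y S → ZMod 2) :
    pr Y (ps Y s m) m' = pr Y m (ps Y s m') := by
  simp only [pr, ps, Finset.sum_mul, Finset.mul_sum]
  -- swap the value of the coordinate
  rw [← Finset.sum_product', ← Finset.sum_product']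
  refine Finset.sum_bij' (fun q _ => ((Function.update q.1 s q.2 : Pt Y S), (q.1 s : Y s)))
    (fun q _ => ((Function.update q.1 s q.2 : Pt Y S), (q.1 s : Y s))) ?_ ?_ ?_ ?_ ?_
  · intro a _; simp
  · intro a _; simp
  · intro a _; simp
  · intro a _; simp
  · intro a _; simp

private theorem pr_add_left_A1 (m m' n : Pt Y S → ZMod 2) : pr Y (m + m') n = pr Y m n + pr Y m' n := by
  simp [pr, add_mul, Finset.sum_add_distrib]

private theorem pr_sub_left_A1 (m m' n : Pt Y S → ZMod 2) : pr Y (m - m') n = pr Y m n - pr Y m' n := by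
  simp [pr, sub_mul, Finset.sum_sub_distrib]

private theorem pr_sub_right_A1 (m m' n : Pt Y S → ZMod 2) : pr Y n (m - m') = pr Y n m - pr Y n m' := by
  simp [pr, mul_sub, Finset.sum_sub_distrib]

private theorem act_sub_A1 (g : Γ) (m m' : Pt Y S → ZMod 2) :
    act Y g (m - m') = act Y g m - act Y g m' := rfl

private theorem act_add_A1 (g : Γ) (m m' : Pt Y S → ZMod 2) :
    act Y g (m + m') = act Y g m + act Y g m' := rfl

private theorem proj_A1 (hodd : ∀ s, Odd (Fintype.card (Y s))) (T : Finset S) :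
    ∃ p : (Pt Y S → ZMod 2) →ₗ[ZMod 2] (Pt Y S → ZMod 2),
      (∀ m, ∀ s ∈ T, ps Y s (p m) = 0) ∧ (∀ m, (∀ s ∈ T, ps Y s m = 0) → p m = m) ∧
      (∀ (g : Γ) (m : Pt Y S → ZMod 2), p (act Y g m) = act Y g (p m)) ∧
      (∀ m m' : Pt Y S → ZMod 2, pr Y (p m) m' = pr Y m (p m')) ∧
      (∀ (s : S) (m : Pt Y S → ZMod 2), p (ps Y s m) = ps Y s (p m)) ∧
      (∀ c : Γ → Pt Y S → ZMod 2, (∀ s ∈ T, ∃ n : Pt Y S → ZMod 2, ∀ g, ps Y s (c g) = act Y g n - n) →
        ∃ n : Pt Y S → ZMod 2, ∀ g, c g = p (c g) + (act Y g n - n)) := by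
  classical
  induction T using Finset.induction_on with
  | empty =>
    refine ⟨LinearMap.id, by simp, by simp, by simp, by simp, by simp, ?_⟩
    intro c _
    refine ⟨0, ?_⟩
    intro g
    have : act Y g (0 : Pt Y S → ZMod 2) = 0 := rfl
    simp [this]
  | insert t T ht ih =>
    obtain ⟨p, h1, h2, h3, h4, h5, h6⟩ := ih
    have hval : ∀ m, (p - (psL_A1 Y t).comp p) m = p m - ps Y t (p m) := fun m => rfl
    refine ⟨p - (psL_A1 Y t).comp p, ?_, ?_, ?_, ?_, ?_, ?_⟩
    · intro m s hs
      rw [hval, ← psL_apply_A1, map_sub, psL_apply_A1, psL_apply_A1]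
      rcases Finset.mem_insert.mp hs with rfl | hs
      · rw [ps_idem_A1 Y s (hodd _), sub_self]
      · rw [ps_comm_A1, h1 m s hs, ← psL_apply_A1, map_zero, sub_zero]
    · intro m hm
      rw [hval, h2 m (fun s hs => hm s (Finset.mem_insert_of_mem hs)),
        hm t (Finset.mem_insert_self _ _), sub_zero]
    · intro g m
      rw [hval, hval, h3, ps_act_A1, act_sub_A1]
    · intro m m'
      rw [hval, hval, pr_sub_left_A1, pr_sub_right_A1, h4, pr_ps_A1, h4, h5]
    · intro s m
      rw [hval, hval, h5, ps_comm_A1 Y t s, ← psL_apply_A1 Y s (p m - ps Y t (p m)), map_sub]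
      rfl
    · intro c hc
      obtain ⟨n, hn⟩ := h6 c (fun s hs => hc s (Finset.mem_insert_of_mem hs))
      obtain ⟨nt, hnt⟩ := hc t (Finset.mem_insert_self _ _)
      refine ⟨n + p nt, ?_⟩
      intro g
      have e1 : ps Y t (p (c g)) = act Y g (p nt) - p nt := by
        rw [← h5, hnt g, map_sub, h3]
      rw [hval, e1, act_add_A1]
      nth_rewrite 1 [hn g]
      abel

private theorem pr_single_A1 (m : Pt Y S → ZMod 2) (b : Pt Y S) :
    pr Y m (fun x => ∏ s : S, if x s = b s then (1 : ZMod 2) else 0) = m b := by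
  classical
  unfold pr
  rw [Finset.sum_eq_single b]
  · simp
  · intro x _ hx
    have : ∃ s : S, x s ≠ b s := by
      by_contra h
      push Not at h
      exact hx (funext h)
    obtain ⟨s, hs⟩ := this
    have h0 : (∏ s : S, if x s = b s then (1 : ZMod 2) else 0) = 0 :=
      Finset.prod_eq_zero (Finset.mem_univ s) (if_neg hs)
    show m x * (∏ s : S, if x s = b s then (1 : ZMod 2) else 0) = 0
    rw [h0, mul_zero]
  · simp

private theorem pr_prod_A1 (hodd : ∀ s, Odd (Fintype.card (Y s))) (m : Pt Y S → ZMod 2)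
    (hm : m ∈ Ev Y S) (b : Pt Y S) :
    pr Y m (fun x => ∏ s : S, (1 + if x s = b s then (1 : ZMod 2) else 0)) = m b := by
  classical
  rw [← pr_single_A1 Y m b]
  have h1 : (fun x : Pt Y S => ∏ s : S, (1 + if x s = b s then (1 : ZMod 2) else 0)) =
      fun x => ∑ T ∈ (Finset.univ : Finset S).powerset, ∏ s ∈ T, (if x s = b s then (1 : ZMod 2) else 0) := by
    funext x
    exact Finset.prod_one_add _
  rw [h1]
  have h2 : pr Y m (fun x => ∑ T ∈ (Finset.univ : Finset S).powerset,
      ∏ s ∈ T, (if x s = b s then (1 : ZMod 2) else 0)) =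
      ∑ T ∈ (Finset.univ : Finset S).powerset, pr Y m (fun x => ∏ s ∈ T, (if x s = b s then (1 : ZMod 2) else 0)) := by
    unfold pr
    rw [Finset.sum_comm]
    refine Finset.sum_congr rfl fun x _ => ?_
    rw [Finset.mul_sum]
  rw [h2, Finset.sum_eq_single Finset.univ]
  · intro T _ hT
    have : ∃ s : S, s ∉ T := by
      by_contra h
      push Not at h
      exact hT (Finset.eq_univ_iff_forall.mpr h)
    obtain ⟨s, hs⟩ := this
    have e : (fun x : Pt Y S => ∏ s ∈ T, (if x s = b s then (1 : ZMod 2) else 0)) =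
        ps Y s (fun x : Pt Y S => ∏ s ∈ T, (if x s = b s then (1 : ZMod 2) else 0)) := by
      symm
      apply ps_indep_A1 Y s (hodd _)
      intro x y
      refine Finset.prod_congr rfl fun t htT => ?_
      have : t ≠ s := fun h => hs (h ▸ htT)
      rw [Function.update_of_ne this]
    rw [e, ← pr_ps_A1, (mem_Ev_A1 Y m).mp hm s]
    simp [pr]
  · intro h
    exact absurd (Finset.mem_powerset_self _) h

private theorem sum_cube_A1 (hodd : ∀ s, Odd (Fintype.card (Y s))) (b x : Pt Y S) :
    ∑ a ∈ Fintype.piFinset (fun s : S => (Finset.univ : Finset (Y s)).erase (b s)), cube Y a b x =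
      ∏ s : S, (1 + if x s = b s then (1 : ZMod 2) else 0) := by
  classical
  unfold cube
  rw [← Finset.prod_univ_sum (fun s : S => (Finset.univ : Finset (Y s)).erase (b s))
    (fun s (a : Y s) => (if x s = a then (1 : ZMod 2) else 0) + if x s = b s then 1 else 0)]
  refine Finset.prod_congr rfl fun s _ => ?_
  rw [Finset.sum_add_distrib, Finset.sum_const, Finset.card_erase_of_mem (Finset.mem_univ _),
    Finset.card_univ]
  have h0 : ((Fintype.card (Y s) - 1 : ℕ) : ZMod 2) = 0 := by
    rw [ZMod.natCast_eq_zero_iff]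
    obtain ⟨k, hk⟩ := hodd s
    exact ⟨k, by omega⟩
  rw [nsmul_eq_mul, h0, zero_mul, add_zero]
  by_cases hx : x s = b s
  · rw [if_pos hx]
    rw [Finset.sum_eq_zero]
    · decide
    · intro a ha
      rw [if_neg]
      intro h
      exact (Finset.mem_erase.mp ha).1 (h.symm.trans hx)
  · rw [if_neg hx, add_zero, Finset.sum_eq_single (x s)]
    · simp
    · intro a _ ha
      rw [if_neg (Ne.symm ha)]
    · intro h
      exact absurd (Finset.mem_erase.mpr ⟨hx, Finset.mem_univ _⟩) h

private theorem cube_mem_A1 (a b : Pt Y S) : cube Y a b ∈ Ev Y S := by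
  classical
  intro s x
  have h : ∀ y : Y s, cube Y a b (Function.update x s y) =
      ((if y = a s then (1 : ZMod 2) else 0) + if y = b s then 1 else 0) *
        ∏ t ∈ (Finset.univ : Finset S).erase s,
          ((if x t = a t then (1 : ZMod 2) else 0) + if x t = b t then 1 else 0) := by
    intro y
    unfold cube
    rw [← Finset.mul_prod_erase _ _ (Finset.mem_univ s)]
    congr 1
    · simp
    · refine Finset.prod_congr rfl fun t ht => ?_
      rw [Function.update_of_ne (Finset.ne_of_mem_erase ht)]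
  simp only [h]
  rw [← Finset.sum_mul, Finset.sum_add_distrib]
  have e : ∀ c : Y s, ∑ y : Y s, (if y = c then (1 : ZMod 2) else 0) = 1 := by
    intro c
    simp
  rw [e, e]
  have : (1 + 1 : ZMod 2) = 0 := by decide
  rw [this, zero_mul]

end

theorem hA1 : StA1 := by
  classical
  intro Γ _ r Y _ _ _ S
  refine ⟨fun g m m' => rfl, ?_, ?_, ?_, ?_, ?_, fun a b => cube_mem_A1 Y a b⟩
  · intro m
    funext x
    simp [act]
  · intro g h m
    funext x
    simp [act, mul_smul]
  · intro g m hm
    rw [mem_Ev_A1] at hm ⊢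
    intro s
    rw [ps_act_A1, hm s]
    rfl
  · intro g m m'
    unfold pr act
    exact Equiv.sum_comp (MulAction.toPerm (g⁻¹ : Γ) : Equiv.Perm (Pt Y S)) (fun x => m x * m' x)
  · intro hodd
    obtain ⟨p, h1, h2, h3, h4, h5, h6⟩ := proj_A1 (Γ := Γ) Y (S := S) hodd Finset.univ
    refine ⟨⟨p, ?_, ?_, h3, h4, ?_⟩, ?_, ?_⟩
    · intro m
      rw [mem_Ev_A1]
      intro s
      exact h1 m s (Finset.mem_univ s)
    · intro m hm
      rw [mem_Ev_A1] at hm
      exact h2 m (fun s _ => hm s)
    · intro c hc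
      exact h6 c (fun s _ => hc s)
    · intro m hm h
      funext b
      have e1 : p m = m := h2 m (fun s _ => (mem_Ev_A1 Y m).mp hm s)
      rw [← pr_single_A1 Y m b, ← e1, h4]
      apply h
      rw [mem_Ev_A1]
      intro s
      exact h1 _ s (Finset.mem_univ s)
    · intro m hm h
      funext b
      rw [← pr_prod_A1 Y hodd m hm b]
      have e : (fun x => ∏ s : S, (1 + if x s = b s then (1 : ZMod 2) else 0)) =
          fun x => ∑ a ∈ Fintype.piFinset (fun s : S => (Finset.univ : Finset (Y s)).erase (b s)), cube Y a b x := by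
        funext x
        rw [sum_cube_A1 Y hodd]
      rw [e]
      have e2 : pr Y m (fun x => ∑ a ∈ Fintype.piFinset
          (fun s : S => (Finset.univ : Finset (Y s)).erase (b s)), cube Y a b x) =
          ∑ a ∈ Fintype.piFinset (fun s : S => (Finset.univ : Finset (Y s)).erase (b s)), pr Y m (cube Y a b) := by
        unfold pr
        rw [Finset.sum_comm]
        refine Finset.sum_congr rfl fun x _ => ?_
        rw [Finset.mul_sum]
      rw [e2]
      apply Finset.sum_eq_zero
      intro a ha
      apply h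
      intro s
      exact (Finset.mem_erase.mp (Fintype.mem_piFinset.mp ha s)).1

end Pool.TW
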