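import Pool.Agent.Helper34.TW.StA

/-! TW module A13 (helper58): numbers for one, two or three factors. -/

set_option autoImplicit false

namespace Pool.TW

private theorem sub_one_A13 (n : ℕ) (ho : Odd n) : n - 1 = 2 * (n / 2) := by
  obtain ⟨k, hk⟩ := ho
  omega

theorem hA13 : StA13 := by
  intro r N hodd h3 hcop S h hl
  have hN : ∀ s, N s - 1 = 2 * (N s / 2) := fun s => sub_one_A13 (N s) (hodd s)
  have hprod : ∏ s ∈ S, (N s - 1) = 2 ^ S.card * ∏ s ∈ S, (N s / 2) := by
    rw [Finset.prod_congr rfl (fun s _ => hN s), Finset.prod_mul_distrib, Finset.prod_const]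
  have hpos : 0 < ∏ s ∈ S, (N s - 1) :=
    Finset.prod_pos (fun s _ => by have := h3 s; omega)
  have hlpos : 0 < S.lcm (fun s => N s - 1) := by
    rcases Nat.eq_zero_or_pos (S.lcm (fun s => N s - 1)) with h0 | h0
    · rw [h0, mul_zero] at hl
      omega
    · exact h0
  have hh : 1 ≤ h := by
    rcases Nat.eq_zero_or_pos h with h0 | h0
    · rw [h0, zero_mul] at hl
      omega
    · exact h0
  refine ⟨?_, ?_⟩
  · intro hc
    refine ⟨hh, ?_⟩
    obtain ⟨s, hs⟩ := Finset.card_eq_one.mp hc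
    have hd : N s - 1 ≤ S.lcm (fun s => N s - 1) :=
      Nat.le_of_dvd hlpos (Finset.dvd_lcm (f := fun s => N s - 1) (by rw [hs]; exact Finset.mem_singleton_self s))
    have hp1 : ∏ s ∈ S, (N s - 1) = N s - 1 := by
      rw [hs, Finset.prod_singleton]
    rw [hp1] at hl ⊢
    have h3s := h3 s
    have h4 : h * (N s - 1) ≤ 1 * (N s - 1) := by
      calc h * (N s - 1) ≤ h * S.lcm (fun s => N s - 1) := Nat.mul_le_mul_left h hd
        _ = 1 * (N s - 1) := by rw [hl, one_mul]
    have h5 : h ≤ 1 := Nat.le_of_mul_le_mul_right h4 (by omega)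
    omega
  · intro hc
    refine ⟨hh, ?_⟩
    have hbig : ∃ s ∈ S, 5 ≤ N s := by
      have h2 : 1 < S.card := by omega
      obtain ⟨a, ha, b, hb, hab⟩ := Finset.one_lt_card.mp h2
      have hne : N a ≠ N b := by
        intro he
        have h1 := hcop a b hab
        rw [he] at h1
        have h4 := (Nat.coprime_self (N b)).mp h1
        have h5 := h3 b
        omega
      have h3a := h3 a
      have h3b := h3 b
      obtain ⟨k, hk⟩ := hodd a
      obtain ⟨l, hl'⟩ := hodd b
      rcases Nat.lt_or_ge (N a) 5 with h6 | h6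
      · exact ⟨b, hb, by omega⟩
      · exact ⟨a, ha, h6⟩
    obtain ⟨s, hs, hs5⟩ := hbig
    have hd : N s - 1 ≤ S.lcm (fun s => N s - 1) :=
      Nat.le_of_dvd hlpos (Finset.dvd_lcm (f := fun s => N s - 1) hs)
    have h4 : h * 4 ≤ ∏ s ∈ S, (N s - 1) := by
      calc h * 4 ≤ h * S.lcm (fun s => N s - 1) := Nat.mul_le_mul_left h (by omega)
        _ = ∏ s ∈ S, (N s - 1) := hl
    rw [hprod] at h4 ⊢
    rcases hc with hc | hc
    · rw [hc] at h4 ⊢
      omega
    · rw [hc] at h4 ⊢
      omega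

end Pool.TW
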