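import Pool.Agent.Helper34.TW.StB

/-!
# TW B9c: the trace form modulo an unramified prime
-/

set_option autoImplicit false

open scoped NumberField
open NumberField Matrix IsDedekindDomain
open Pool.Agent.Helper54.HQ (lg)

namespace Pool.TW

section lgl

private theorem lg_sq_B9c {κ : Type} [CommRing κ] {x : κ} (h : IsSquare x) : lg x = 0 := by
  unfold lg
  rw [if_pos h]

private theorem lg_not_B9c {κ : Type} [CommRing κ] {x : κ} (h : ¬ IsSquare x) : lg x = 1 := by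
  unfold lg
  rw [if_neg h]

private theorem lg_mul_B9c {k : Type} [Field k] [Finite k] {x y : k} (hx : x ≠ 0) (hy : y ≠ 0) :
    lg (x * y) = lg x + lg y := by
  classical
  haveI : Fintype k := Fintype.ofFinite k
  have hxy : x * y ≠ 0 := mul_ne_zero hx hy
  have hmul : quadraticChar k (x * y) = quadraticChar k x * quadraticChar k y := map_mul _ _ _
  by_cases h1 : IsSquare x
  · by_cases h2 : IsSquare y
    · rw [lg_sq_B9c h1, lg_sq_B9c h2, lg_sq_B9c (h1.mul h2), add_zero]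
    · rw [lg_sq_B9c h1, lg_not_B9c h2, zero_add]
      apply lg_not_B9c
      rw [← quadraticChar_neg_one_iff_not_isSquare, hmul, (quadraticChar_one_iff_isSquare hx).mpr h1,
        quadraticChar_neg_one_iff_not_isSquare.mpr h2, one_mul]
  · by_cases h2 : IsSquare y
    · rw [lg_not_B9c h1, lg_sq_B9c h2, add_zero]
      apply lg_not_B9c
      rw [← quadraticChar_neg_one_iff_not_isSquare, hmul, (quadraticChar_one_iff_isSquare hy).mpr h2,
        quadraticChar_neg_one_iff_not_isSquare.mpr h1, mul_one]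
    · rw [lg_not_B9c h1, lg_not_B9c h2]
      have h3 : IsSquare (x * y) := by
        rw [← quadraticChar_one_iff_isSquare hxy, hmul, quadraticChar_neg_one_iff_not_isSquare.mpr h1,
          quadraticChar_neg_one_iff_not_isSquare.mpr h2]
        norm_num
      rw [lg_sq_B9c h3]
      decide

private theorem lg_prod_B9c {k : Type} [Field k] [Finite k] {ι : Type} (s : Finset ι) (f : ι → k)
    (hf : ∀ i ∈ s, f i ≠ 0) : lg (∏ i ∈ s, f i) = ∑ i ∈ s, lg (f i) := by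
  classical
  induction s using Finset.induction_on with
  | empty => rw [Finset.prod_empty, Finset.sum_empty]; exact lg_sq_B9c IsSquare.one
  | insert a s ha ih =>
    rw [Finset.prod_insert ha, Finset.sum_insert ha,
      lg_mul_B9c (hf a (Finset.mem_insert_self _ _))
        (Finset.prod_ne_zero_iff.mpr fun i hi => hf i (Finset.mem_insert_of_mem hi)),
      ih fun i hi => hf i (Finset.mem_insert_of_mem hi)]

end lgl

section NF

variable {K : Type} [Field K] [NumberField K]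

private theorem dual_B9c {q : ℕ} {V : Finset (HeightOneSpectrum (𝓞 K))} (hU : UnrAt K q V) {δ : 𝓞 K}
    (hδ : ∀ v ∈ V, δ ∉ v.asIdeal) : ∃ δ' η : 𝓞 K, δ * δ' + (q : 𝓞 K) * η = 1 := by
  have h : Ideal.span {δ} ⊔ Ideal.span {(q : 𝓞 K)} = ⊤ := by
    by_contra hne
    obtain ⟨M, hM, hle⟩ := Ideal.exists_le_maximal _ hne
    have hδM : δ ∈ M := hle (Ideal.mem_sup_left (Ideal.mem_span_singleton_self _))
    have hqM : (q : 𝓞 K) ∈ M := hle (Ideal.mem_sup_right (Ideal.mem_span_singleton_self _))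
    have hne0 : M ≠ ⊥ := by
      rintro rfl
      have h0 : (q : 𝓞 K) = 0 := by simpa using hqM
      exact hU.pr.ne_zero (by exact_mod_cast h0)
    exact hδ ⟨M, hM.isPrime, hne0⟩ ((hU.mem _).mpr hqM) hδM
  have h1 : (1 : 𝓞 K) ∈ Ideal.span {δ} ⊔ Ideal.span {(q : 𝓞 K)} := by rw [h]; trivial
  obtain ⟨x, hx, y, hy, hxy⟩ := Submodule.mem_sup.mp h1
  obtain ⟨s, rfl⟩ := Ideal.mem_span_singleton'.mp hx
  obtain ⟨t, rfl⟩ := Ideal.mem_span_singleton'.mp hy
  exact ⟨s, t, by rw [← hxy]; ring⟩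

/-- Integrality of the trace form. -/
private theorem int_B9c {n : ℕ} (ω : Module.Basis (Fin n) ℤ (𝓞 K)) (δ : 𝓞 K)
    (h : ∀ a : 𝓞 K, ∃ G : Matrix (Fin n) (Fin n) ℤ, Gᵀ = G ∧ gram ω δ (a : K) = G.map (Int.cast : ℤ → ℚ))
    (y : 𝓞 K) : ∃ T : ℤ, Algebra.trace ℚ K ((y : K) / (δ : K)) = T := by
  obtain ⟨G, -, hG⟩ := h y
  let c : Fin n → ℤ := fun i => ω.repr 1 i
  have h1 : (∑ i, (c i : K) * (ω i : K)) = 1 := by
    have h2 := congrArg (algebraMap (𝓞 K) K) (ω.sum_repr (1 : 𝓞 K))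
    rw [map_sum, map_one (algebraMap (𝓞 K) K)] at h2
    rw [← h2]
    refine Finset.sum_congr rfl fun i _ => ?_
    rw [zsmul_eq_mul, map_mul, map_intCast]
  refine ⟨∑ i, ∑ j, c i * c j * G i j, ?_⟩
  have h3 : (y : K) / (δ : K) = ∑ i, ∑ j, (c i * c j : ℤ) • ((y : K) * (ω i : K) * (ω j : K) / (δ : K)) := by
    calc (y : K) / (δ : K) = (y : K) * (∑ i, (c i : K) * (ω i : K)) * (∑ j, (c j : K) * (ω j : K)) / (δ : K) := by
          rw [h1, mul_one, mul_one]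
      _ = _ := by
        rw [mul_assoc, Finset.sum_mul_sum, Finset.mul_sum, Finset.sum_div]
        refine Finset.sum_congr rfl fun i _ => ?_
        rw [Finset.mul_sum, Finset.sum_div]
        refine Finset.sum_congr rfl fun j _ => ?_
        rw [zsmul_eq_mul]
        push_cast
        ring
  rw [h3, map_sum]
  push_cast
  refine Finset.sum_congr rfl fun i _ => ?_
  rw [map_sum]
  refine Finset.sum_congr rfl fun j _ => ?_
  rw [map_zsmul, zsmul_eq_mul]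
  have h4 : Algebra.trace ℚ K ((y : K) * (ω i : K) * (ω j : K) / (δ : K)) = G i j := by
    have := congrFun (congrFun hG i) j
    simpa [gram] using this
  rw [h4]
  push_cast
  ring

/-- The congruence `Tr (y / δ) = Tr (y δ')` modulo `q`. -/
private theorem cong_B9c {q : ℕ} {δ δ' η : 𝓞 K} (hδ0 : δ ≠ 0) (h : δ * δ' + (q : 𝓞 K) * η = 1)
    (hint : ∀ y : 𝓞 K, ∃ T : ℤ, Algebra.trace ℚ K ((y : K) / (δ : K)) = T) (y : 𝓞 K) (T : ℤ)
    (hT : Algebra.trace ℚ K ((y : K) / (δ : K)) = T) :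
    (T : ZMod q) = ((Algebra.trace ℤ (𝓞 K) (y * δ') : ℤ) : ZMod q) := by
  obtain ⟨S, hS⟩ := hint (y * η)
  have hδK : (δ : K) ≠ 0 := by
    intro h0
    exact hδ0 (by exact_mod_cast h0)
  have hK : (δ : K) * (δ' : K) + (q : K) * (η : K) = 1 := by
    have := congrArg (algebraMap (𝓞 K) K) h
    simpa using this
  have h2 : (y : K) / (δ : K) = ((y * δ' : 𝓞 K) : K) + (q : ℤ) • (((y * η : 𝓞 K) : K) / (δ : K)) := by
    rw [zsmul_eq_mul]
    push_cast
    field_simp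
    linear_combination (- (y : K)) * hK
  have h3 : (T : ℚ) = ((Algebra.trace ℤ (𝓞 K) (y * δ') + q * S : ℤ) : ℚ) := by
    rw [← hT, h2, map_add, map_zsmul, hS, ← Algebra.coe_trace_int, zsmul_eq_mul]
    push_cast
    rfl
  have h4 : T = Algebra.trace ℤ (𝓞 K) (y * δ') + q * S := by exact_mod_cast h3
  rw [h4]
  push_cast
  rw [ZMod.natCast_self, zero_mul, add_zero]

end NF

section form

variable {K : Type} [Field K] [NumberField K] {q : ℕ} [Fact q.Prime] (V : Finset (HeightOneSpectrum (𝓞 K)))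
  [∀ v : V, Algebra (ZMod q) (𝓞 K ⧸ v.1.asIdeal)]

/-- The form on the product of the residue fields. -/
private noncomputable def bf_B9c (t : (v : V) → 𝓞 K ⧸ v.1.asIdeal) :
    LinearMap.BilinForm (ZMod q) ((v : V) → 𝓞 K ⧸ v.1.asIdeal) :=
  LinearMap.mk₂ (ZMod q)
    (fun X Y => ∑ v : V, Algebra.trace (ZMod q) (𝓞 K ⧸ v.1.asIdeal) (t v * X v * Y v))
    (by intro X X' Y; simp only [Pi.add_apply, mul_add, add_mul, map_add, Finset.sum_add_distrib])
    (by intro c X Y; simp only [Pi.smul_apply, mul_smul_comm, smul_mul_assoc, map_smul, Finset.smul_sum])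
    (by intro X Y Y'; simp only [Pi.add_apply, mul_add, map_add, Finset.sum_add_distrib])
    (by intro c X Y; simp only [Pi.smul_apply, mul_smul_comm, map_smul, Finset.smul_sum])

private theorem bf_apply_B9c (t : (v : V) → 𝓞 K ⧸ v.1.asIdeal) (X Y : (v : V) → 𝓞 K ⧸ v.1.asIdeal) :
    bf_B9c V t X Y = ∑ v : V, Algebra.trace (ZMod q) (𝓞 K ⧸ v.1.asIdeal) (t v * X v * Y v) := rfl

/-- The classes of the `ω i`. -/
private noncomputable def wb_B9c {n : ℕ} (ω : Module.Basis (Fin n) ℤ (𝓞 K)) (i : Fin n) :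
    (v : V) → 𝓞 K ⧸ v.1.asIdeal := fun v => Ideal.Quotient.mk v.1.asIdeal (ω i)

private theorem span_B9c {n : ℕ} (ω : Module.Basis (Fin n) ℤ (𝓞 K)) :
    ⊤ ≤ Submodule.span (ZMod q) (Set.range (wb_B9c V ω)) := by
  intro X _
  obtain ⟨r, hr⟩ : ∃ r : 𝓞 K, ∀ v : V, Ideal.Quotient.mk v.1.asIdeal r = X v := by
    have hc : Pairwise (Function.onFun IsCoprime (fun v : V => v.1.asIdeal)) := by
      intro v w hvw
      have hv := v.1.isMaximal
      have hw := w.1.isMaximal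
      refine Ideal.isCoprime_iff_sup_eq.mpr (Ideal.IsMaximal.coprime_of_ne hv hw ?_)
      intro h
      exact hvw (Subtype.ext (HeightOneSpectrum.ext h))
    obtain ⟨r, hr⟩ := Ideal.quotientInfToPiQuotient_surj hc X
    obtain ⟨r, rfl⟩ := Ideal.Quotient.mk_surjective r
    exact ⟨r, fun v => by rw [← hr]; rfl⟩
  have h1 : X = ∑ i, ((ω.repr r i : ℤ) : ZMod q) • wb_B9c V ω i := by
    funext v
    rw [← hr v]
    conv_lhs => rw [← ω.sum_repr r]
    rw [map_sum, Finset.sum_apply]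
    refine Finset.sum_congr rfl fun i _ => ?_
    rw [Pi.smul_apply, Int.cast_smul_eq_zsmul, map_zsmul]
    rfl
  rw [h1]
  exact Submodule.sum_mem _ fun i _ => Submodule.smul_mem _ _ (Submodule.subset_span ⟨i, rfl⟩)

private theorem indep_B9c {n : ℕ} (ω : Module.Basis (Fin n) ℤ (𝓞 K)) (t : (v : V) → 𝓞 K ⧸ v.1.asIdeal)
    (M : Matrix (Fin n) (Fin n) (ZMod q)) (hM : ∀ i j, M i j = bf_B9c V t (wb_B9c V ω i) (wb_B9c V ω j))
    (hdet : M.det ≠ 0) : LinearIndependent (ZMod q) (wb_B9c V ω) := by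
  rw [Fintype.linearIndependent_iff]
  intro g hg
  have h1 : g ᵥ* M = 0 := by
    funext j
    have h2 : bf_B9c (q := q) V t (∑ i, g i • wb_B9c V ω i) (wb_B9c V ω j) = 0 := by
      rw [hg, map_zero, LinearMap.zero_apply]
    rw [map_sum, LinearMap.sum_apply] at h2
    rw [Matrix.vecMul, dotProduct, Pi.zero_apply, ← h2]
    refine Finset.sum_congr rfl fun i _ => ?_
    rw [map_smul, LinearMap.smul_apply, hM, smul_eq_mul]
  have h3 := Matrix.eq_zero_of_vecMul_eq_zero hdet h1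
  intro i
  exact congrFun h3 i

private theorem bf_wb_B9c (h9b : StB9b) (hU : UnrAt K q V) {n : ℕ} (ω : Module.Basis (Fin n) ℤ (𝓞 K)) (c : 𝓞 K)
    (i j : Fin n) :
    bf_B9c V (fun v => Ideal.Quotient.mk v.1.asIdeal c) (wb_B9c V ω i) (wb_B9c V ω j) =
      ((Algebra.trace ℤ (𝓞 K) (c * ω i * ω j) : ℤ) : ZMod q) := by
  rw [h9b K q V hU (c * ω i * ω j), bf_apply_B9c]
  refine Finset.sum_congr rfl fun v _ => ?_
  rw [map_mul (Ideal.Quotient.mk v.1.asIdeal), map_mul (Ideal.Quotient.mk v.1.asIdeal)]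
  rfl

private theorem red_B9c (h9b : StB9b) (hU : UnrAt K q V) {n : ℕ} (ω : Module.Basis (Fin n) ℤ (𝓞 K))
    {δ δ' η : 𝓞 K} (hδ0 : δ ≠ 0) (h : δ * δ' + (q : 𝓞 K) * η = 1)
    (hint : ∀ y : 𝓞 K, ∃ T : ℤ, Algebra.trace ℚ K ((y : K) / (δ : K)) = T) (a : 𝓞 K)
    (G : Matrix (Fin n) (Fin n) ℤ) (hG : gram ω δ (a : K) = G.map (Int.cast : ℤ → ℚ)) (i j : Fin n) :
    ((G i j : ℤ) : ZMod q) =
      bf_B9c V (fun v => Ideal.Quotient.mk v.1.asIdeal (a * δ')) (wb_B9c V ω i) (wb_B9c V ω j) := by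
  rw [bf_wb_B9c V h9b hU]
  have h1 : Algebra.trace ℚ K (((a * ω i * ω j : 𝓞 K) : K) / (δ : K)) = ((G i j : ℤ) : ℚ) := by
    have h2 := congrFun (congrFun hG i) j
    simpa [gram] using h2
  rw [cong_B9c hδ0 h hint (a * ω i * ω j) (G i j) h1]
  congr 2
  ring

/-- The classes of the `ω i` form a basis. -/
private theorem exb_B9c (h3 : StB3) (h9b : StB9b) (hU : UnrAt K q V) {n : ℕ} (ω : Module.Basis (Fin n) ℤ (𝓞 K))
    {δ δ' η : 𝓞 K} (hdiff : differentIdeal ℤ (𝓞 K) = Ideal.span {δ}) (h : δ * δ' + (q : 𝓞 K) * η = 1) :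
    ∃ C : Module.Basis (Fin n) (ZMod q) ((v : V) → 𝓞 K ⧸ v.1.asIdeal), ∀ i, C i = wb_B9c V ω i := by
  obtain ⟨hδ0, -, ⟨ε, hε, hdet⟩, hG⟩ := h3 K n ω δ hdiff
  have hint := int_B9c ω δ hG
  obtain ⟨G, -, hG1⟩ := hG 1
  have hG1' : gram ω δ (1 : K) = G.map (Int.cast : ℤ → ℚ) := by
    rw [← hG1]
    congr 1
  have hd : G.det = ε := by
    have h1 := hdet 1
    rw [hG1', map_one, mul_one] at h1
    have h2 : (G.map (Int.cast : ℤ → ℚ)).det = ((G.det : ℤ) : ℚ) := by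
      have := (Int.castRingHom ℚ).map_det G
      simpa using this.symm
    rw [h2] at h1
    exact_mod_cast h1
  have hd2 : (G.map (Int.cast : ℤ → ZMod q)).det ≠ 0 := by
    have h2 : (G.map (Int.cast : ℤ → ZMod q)).det = ((G.det : ℤ) : ZMod q) := by
      have := (Int.castRingHom (ZMod q)).map_det G
      simpa using this.symm
    rw [h2, hd]
    rcases hε with rfl | rfl
    · simp
    · simp
  have hli := indep_B9c V ω (fun v => Ideal.Quotient.mk v.1.asIdeal ((1 : 𝓞 K) * δ')) (G.map (Int.cast : ℤ → ZMod q))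
    (fun i j => red_B9c V h9b hU ω hδ0 h hint 1 G hG1 i j) hd2
  exact ⟨Module.Basis.mk hli (span_B9c V ω), fun i => Module.Basis.mk_apply _ _ i⟩

end form

section norm

variable {K : Type} [Field K] [NumberField K]

private theorem cop_B9c {V : Finset (HeightOneSpectrum (𝓞 K))} (T : Finset V) :
    (T : Set V).Pairwise (Function.onFun IsCoprime fun v : V => v.1.asIdeal) := by
  intro v _ w _ hvw
  have hv := v.1.isMaximal
  have hw := w.1.isMaximal
  show IsCoprime v.1.asIdeal w.1.asIdeal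
  rw [Ideal.isCoprime_iff_sup_eq]
  refine (Ideal.IsMaximal.coprime_of_ne hv hw ?_)
  intro h
  exact hvw (Subtype.ext (HeightOneSpectrum.ext h))

private theorem dvd_B9c (a : 𝓞 K) {V : Finset (HeightOneSpectrum (𝓞 K))} (T : Finset V)
    (hT : ∀ v : V, v ∈ T ↔ a ∈ v.1.asIdeal) : (∏ v ∈ T, v.1.asIdeal) ∣ Ideal.span {a} := by
  refine Finset.prod_dvd_of_coprime (cop_B9c T) ?_
  intro v hv
  have h1 := (hT v).mp hv
  rw [Ideal.dvd_span_singleton]
  exact h1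

private theorem dvp_B9c {V : Finset (HeightOneSpectrum (𝓞 K))} (T : Finset V) (v : V) (hvT : v ∈ T) :
    v.1.asIdeal ∣ ∏ v ∈ T, v.1.asIdeal := by
  rw [Ideal.dvd_iff_le]
  exact Ideal.prod_le_inf.trans (Finset.inf_le hvT)

/-- The norm. -/
private theorem norm_B9c {q : ℕ} {V : Finset (HeightOneSpectrum (𝓞 K))} (hU : UnrAt K q V) (a : 𝓞 K) (ha : a ≠ 0)
    (ha2 : ∀ v ∈ V, a ∉ v.asIdeal ^ 2) (f : V → ℕ) (hf : ∀ v : V, Nat.card (𝓞 K ⧸ v.1.asIdeal) = q ^ f v)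
    (T : Finset V) (hT : ∀ v : V, v ∈ T ↔ a ∈ v.1.asIdeal) :
    ∃ m : ℤ, Algebra.norm ℚ (a : K) = (q : ℚ) ^ (∑ v ∈ T, f v) * m ∧ ¬ (q : ℤ) ∣ m := by
  haveI : Fact q.Prime := ⟨hU.pr⟩
  have hdvd := dvd_B9c a T hT
  obtain ⟨L, hL⟩ := hdvd
  have hI : Ideal.span {a} ≠ ⊥ := by
    rw [Ne, Ideal.span_singleton_eq_bot]
    exact ha
  have hLne : L ≠ ⊥ := by
    rintro rfl
    apply hI
    rw [hL, Ideal.mul_bot]
  have hnI : Ideal.absNorm (Ideal.span {a}) = q ^ (∑ v ∈ T, f v) * Ideal.absNorm L := by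
    have hp : Ideal.absNorm (∏ v ∈ T, v.1.asIdeal) = ∏ v ∈ T, q ^ f v := by
      rw [map_prod]
      apply Finset.prod_congr rfl
      intro v _
      rw [Ideal.absNorm_apply, Submodule.cardQuot_apply, hf v]
    rw [hL, map_mul, hp, Finset.prod_pow_eq_pow_sum]
  have hqL : ¬ q ∣ Ideal.absNorm L := by
    intro hq
    haveI : Finite (𝓞 K ⧸ L) := Ideal.finiteQuotientOfFreeOfNeBot L hLne
    rw [Ideal.absNorm_apply, Submodule.cardQuot_apply] at hq
    obtain ⟨x, hx⟩ := exists_prime_addOrderOf_dvd_card' q hq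
    have hsup : L ⊔ Ideal.span {(q : 𝓞 K)} ≠ ⊤ := by
      intro htop
      obtain ⟨y, rfl⟩ := Ideal.Quotient.mk_surjective x
      have h1 : (1 : 𝓞 K) ∈ L ⊔ Ideal.span {(q : 𝓞 K)} := by rw [htop]; trivial
      obtain ⟨l, hl, z, hz, hlz⟩ := Submodule.mem_sup.mp h1
      obtain ⟨s, rfl⟩ := Ideal.mem_span_singleton'.mp hz
      have h2 : (q : 𝓞 K) * y ∈ L := by
        have h3 : q • (Ideal.Quotient.mk L y) = 0 := by
          rw [← hx]
          exact addOrderOf_nsmul_eq_zero _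
        rw [← map_nsmul, nsmul_eq_mul, Ideal.Quotient.eq_zero_iff_mem] at h3
        exact h3
      have h4 : y ∈ L := by
        have h5 : y = l * y + s * ((q : 𝓞 K) * y) := by
          calc y = (l + s * (q : 𝓞 K)) * y := by rw [hlz, one_mul]
            _ = _ := by ring
        rw [h5]
        exact L.add_mem (L.mul_mem_right _ hl) (L.mul_mem_left _ h2)
      rw [Ideal.Quotient.eq_zero_iff_mem.mpr h4, addOrderOf_zero] at hx
      exact hU.pr.one_lt.ne hx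
    obtain ⟨M, hM, hle⟩ := Ideal.exists_le_maximal _ hsup
    have hqM : (q : 𝓞 K) ∈ M := hle (Ideal.mem_sup_right (Ideal.mem_span_singleton_self _))
    have hLM : L ≤ M := le_sup_left.trans hle
    have hne0 : M ≠ ⊥ := by
      rintro rfl
      exact hLne (le_bot_iff.mp hLM)
    obtain ⟨v, hv⟩ : ∃ v : HeightOneSpectrum (𝓞 K), v.asIdeal = M := ⟨⟨M, hM.isPrime, hne0⟩, rfl⟩
    rw [← hv] at hqM hLM
    have hvV : v ∈ V := (hU.mem v).mpr hqM
    have haL : a ∈ L := by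
      have h6 : Ideal.span {a} ≤ L := by
        rw [hL]
        exact Ideal.mul_le_right (I := ∏ v ∈ T, v.1.asIdeal) (J := L)
      exact h6 (Ideal.mem_span_singleton_self a)
    have hvT : (⟨v, hvV⟩ : V) ∈ T := (hT _).mpr (hLM haL)
    have h7 : v.asIdeal ∣ ∏ v ∈ T, v.1.asIdeal := dvp_B9c T ⟨v, hvV⟩ hvT
    have h8 : v.asIdeal ∣ L := Ideal.dvd_iff_le.mpr hLM
    have h9 : v.asIdeal * v.asIdeal ∣ (∏ v ∈ T, v.1.asIdeal) * L := mul_dvd_mul h7 h8
    rw [← hL, ← pow_two, Ideal.dvd_span_singleton] at h9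
    exact ha2 v hvV h9
  have hN : ((Algebra.norm ℤ a).natAbs) = q ^ (∑ v ∈ T, f v) * Ideal.absNorm L := by
    rw [← Ideal.absNorm_span_singleton, hnI]
  have hN0 : Algebra.norm ℤ a ≠ 0 := by
    intro h0
    rw [h0, Int.natAbs_zero] at hN
    rcases mul_eq_zero.mp hN.symm with h1 | h1
    · exact pow_ne_zero _ hU.pr.ne_zero h1
    · rw [h1] at hqL
      exact hqL (dvd_zero _)
  obtain ⟨w, hw⟩ : ∃ w : ℕ, w = Ideal.absNorm L := ⟨_, rfl⟩
  rw [← hw] at hN hqL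
  obtain ⟨N, hNN⟩ : ∃ N : ℤ, N = Algebra.norm ℤ a := ⟨_, rfl⟩
  rw [← hNN] at hN hN0
  have h1 := Int.sign_mul_natAbs N
  have h3 : Algebra.norm ℚ (a : K) = (q : ℚ) ^ (∑ v ∈ T, f v) * ((N.sign * (w : ℤ) : ℤ) : ℚ) := by
    rw [← Algebra.coe_norm_int, ← hNN]
    conv_lhs => rw [← h1, hN]
    push_cast
    ring
  have h4 : ¬ (q : ℤ) ∣ N.sign * (w : ℤ) := by
    rw [Int.natCast_dvd, Int.natAbs_mul, Int.natAbs_sign_of_ne_zero hN0, one_mul, Int.natAbs_natCast]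
    exact hqL
  exact ⟨_, h3, h4⟩

end norm

section core

private theorem det_bd_B9c {o : Type} [Fintype o] [DecidableEq o] {m : o → ℕ} {R : Type} [CommRing R]
    (M : (i : o) → Matrix (Fin (m i)) (Fin (m i)) R) (A : Matrix ((i : o) × Fin (m i)) ((i : o) × Fin (m i)) R)
    (h1 : ∀ i k l, A ⟨i, k⟩ ⟨i, l⟩ = M i k l) (h0 : ∀ i j k l, i ≠ j → A ⟨i, k⟩ ⟨j, l⟩ = 0) :
    A.det = ∏ i, (M i).det := by
  classical
  let e := Fintype.equivFin o
  let b : ((i : o) × Fin (m i)) → Fin (Fintype.card o) := fun s => e s.1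
  have hbt : Matrix.BlockTriangular A b := by
    rintro ⟨i, k⟩ ⟨j, l⟩ hlt
    exact h0 i j k l (by rintro rfl; exact lt_irrefl _ hlt)
  rw [hbt.det_fintype, ← e.prod_comp]
  refine Finset.prod_congr rfl fun i _ => ?_
  let ε : Fin (m i) ≃ {s : (i : o) × Fin (m i) // b s = e i} :=
    { toFun := fun k => ⟨⟨i, k⟩, rfl⟩
      invFun := fun s => cast (by rw [e.injective s.2]) s.1.2
      left_inv := fun k => rfl
      right_inv := by
        rintro ⟨⟨j, k⟩, hs⟩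
        have hj : j = i := e.injective hs
        subst hj
        rfl }
  rw [← Matrix.det_submatrix_equiv_self ε]
  congr 1
  ext k l
  exact h1 i k l

variable {K : Type} [Field K] [NumberField K] {q : ℕ} [Fact q.Prime] (V : Finset (HeightOneSpectrum (𝓞 K)))
  [∀ v : V, Algebra (ZMod q) (𝓞 K ⧸ v.1.asIdeal)]

private theorem bf_single_B9c [DecidableEq V] (t : (v : V) → 𝓞 K ⧸ v.1.asIdeal) (v w : V)
    (x : 𝓞 K ⧸ v.1.asIdeal) (y : 𝓞 K ⧸ w.1.asIdeal) (h : v ≠ w) :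
    bf_B9c (q := q) V t (Pi.single v x) (Pi.single w y) = 0 := by
  rw [bf_apply_B9c]
  refine Finset.sum_eq_zero fun u _ => ?_
  by_cases hu : u = v
  · have hw : u ≠ w := by rw [hu]; exact h
    rw [Pi.single_eq_of_ne hw, mul_zero, map_zero]
  · rw [Pi.single_eq_of_ne hu, mul_zero, zero_mul, map_zero]

private theorem bf_single'_B9c [DecidableEq V] (t : (v : V) → 𝓞 K ⧸ v.1.asIdeal) (v : V)
    (x y : 𝓞 K ⧸ v.1.asIdeal) :
    bf_B9c V t (Pi.single v x) (Pi.single v y) = Algebra.trace (ZMod q) (𝓞 K ⧸ v.1.asIdeal) (t v * x * y) := by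
  rw [bf_apply_B9c, Finset.sum_eq_single v]
  · rw [Pi.single_eq_same, Pi.single_eq_same]
  · intro u _ hu
    rw [Pi.single_eq_of_ne hu, mul_zero, zero_mul, map_zero]
  · intro h
    exact absurd (Finset.mem_univ _) h

private theorem core_B9c [DecidableEq V] (t : (v : V) → 𝓞 K ⧸ v.1.asIdeal) {n : ℕ}
    (C : Module.Basis (Fin n) (ZMod q) ((v : V) → 𝓞 K ⧸ v.1.asIdeal)) (f : V → ℕ)
    (b : (v : V) → Module.Basis (Fin (f v)) (ZMod q) (𝓞 K ⧸ v.1.asIdeal)) (H : Matrix (Fin n) (Fin n) (ZMod q))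
    (hH : ∀ i j, H i j = bf_B9c V t (C i) (C j)) (p : V → Prop) [DecidablePred p] (hp : ∀ v, ¬ p v → t v = 0) :
    ∃ (n₀ n₁ : ℕ) (P₀ : Matrix (Fin n) (Fin n₀ ⊕ Fin n₁) (ZMod q)) (P₀' : Matrix (Fin n₀ ⊕ Fin n₁) (Fin n) (ZMod q))
      (A₀ : Matrix (Fin n₀) (Fin n₀) (ZMod q)), P₀ * P₀' = 1 ∧ P₀' * P₀ = 1 ∧
      P₀ᵀ * H * P₀ = Matrix.fromBlocks A₀ 0 0 0 ∧
      A₀.det = ∏ v : {v : V // p v},
        Matrix.det (fun i j => Algebra.trace (ZMod q) (𝓞 K ⧸ v.1.1.asIdeal) (t v.1 * b v.1 i * b v.1 j)) ∧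
      n₁ = ∑ v : {v : V // ¬ p v}, f v.1 := by
  let S₀ : Type := (v : {v : V // p v}) × Fin (f v.1)
  let S₁ : Type := (v : {v : V // ¬ p v}) × Fin (f v.1)
  let ε₀ : Fin (Fintype.card S₀) ≃ S₀ := (Fintype.equivFin S₀).symm
  let ε₁ : Fin (Fintype.card S₁) ≃ S₁ := (Fintype.equivFin S₁).symm
  let e : S₀ ⊕ S₁ ≃ (v : V) × Fin (f v) :=
    { toFun := Sum.elim (fun s => ⟨s.1.1, s.2⟩) (fun s => ⟨s.1.1, s.2⟩)
      invFun := fun s => if h : p s.1 then Sum.inl ⟨⟨s.1, h⟩, s.2⟩ else Sum.inr ⟨⟨s.1, h⟩, s.2⟩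
      left_inv := by
        rintro (⟨⟨v, h⟩, i⟩ | ⟨⟨v, h⟩, i⟩)
        · simp [h]
        · simp [h]
      right_inv := by
        rintro ⟨v, i⟩
        by_cases h : p v
        · simp [h]
        · simp [h] }
  let D : Module.Basis (Fin (Fintype.card S₀) ⊕ Fin (Fintype.card S₁)) (ZMod q) ((v : V) → 𝓞 K ⧸ v.1.asIdeal) :=
    (Pi.basis b).reindex ((Equiv.sumCongr ε₀ ε₁).trans e).symm
  have hD0 : ∀ i, D (Sum.inl i) = Pi.single (ε₀ i).1.1 (b (ε₀ i).1.1 (ε₀ i).2) := by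
    intro i
    rw [Module.Basis.reindex_apply, Pi.basis_apply]
    rfl
  have hD1 : ∀ i, D (Sum.inr i) = Pi.single (ε₁ i).1.1 (b (ε₁ i).1.1 (ε₁ i).2) := by
    intro i
    rw [Module.Basis.reindex_apply, Pi.basis_apply]
    rfl
  have hz : ∀ (v w : V) (x : 𝓞 K ⧸ v.1.asIdeal) (y : 𝓞 K ⧸ w.1.asIdeal), (¬ p v ∨ ¬ p w) →
      bf_B9c (q := q) V t (Pi.single v x) (Pi.single w y) = 0 := by
    intro v w x y h
    by_cases hvw : v = w
    · subst hvw
      have htv : t v = 0 := hp v (by rcases h with h | h <;> exact h)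
      rw [bf_single'_B9c, htv, zero_mul, zero_mul, map_zero]
    · exact bf_single_B9c V t v w x y hvw
  have hHC : H = LinearMap.BilinForm.toMatrix C (bf_B9c V t) := by
    ext i j
    rw [LinearMap.BilinForm.toMatrix_apply, hH]
  refine ⟨Fintype.card S₀, Fintype.card S₁, C.toMatrix D, D.toMatrix C,
    fun i j => bf_B9c V t (D (Sum.inl i)) (D (Sum.inl j)), ?_, ?_, ?_, ?_, ?_⟩
  · exact Module.Basis.toMatrix_mul_toMatrix_flip C D
  · exact Module.Basis.toMatrix_mul_toMatrix_flip D C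
  · rw [hHC, LinearMap.BilinForm.toMatrix_mul_basis_toMatrix]
    ext i j
    rw [LinearMap.BilinForm.toMatrix_apply]
    rcases i with i | i <;> rcases j with j | j
    · rfl
    · rw [hD0, hD1, Matrix.fromBlocks_apply₁₂, Matrix.zero_apply]
      exact hz _ _ _ _ (Or.inr (ε₁ j).1.2)
    · rw [hD0, hD1, Matrix.fromBlocks_apply₂₁, Matrix.zero_apply]
      exact hz _ _ _ _ (Or.inl (ε₁ i).1.2)
    · rw [hD1, hD1, Matrix.fromBlocks_apply₂₂, Matrix.zero_apply]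
      exact hz _ _ _ _ (Or.inl (ε₁ i).1.2)
  · let A : Matrix S₀ S₀ (ZMod q) := fun s s' =>
      bf_B9c V t (Pi.single s.1.1 (b s.1.1 s.2)) (Pi.single s'.1.1 (b s'.1.1 s'.2))
    have h1 : (Matrix.of fun i j => bf_B9c V t (D (Sum.inl i)) (D (Sum.inl j))) = A.submatrix ε₀ ε₀ := by
      ext i j
      rw [Matrix.of_apply, hD0, hD0]
      rfl
    have h2 : A.det = ∏ v : {v : V // p v},
        Matrix.det (fun i j => Algebra.trace (ZMod q) (𝓞 K ⧸ v.1.1.asIdeal) (t v.1 * b v.1 i * b v.1 j)) := by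
      refine det_bd_B9c _ A ?_ ?_
      · intro v i j
        exact bf_single'_B9c V t v.1 _ _
      · intro v w i j hvw
        exact bf_single_B9c V t v.1 w.1 _ _ (fun h => hvw (Subtype.ext h))
    rw [← h2, ← Matrix.det_submatrix_equiv_self ε₀ A, ← h1]
    rfl
  · rw [Fintype.card_sigma]
    simp only [Fintype.card_fin]

end core

section final

private theorem ha_B9c (h9a : StB9a) {K : Type} [Field K] [NumberField K] {q : ℕ} [Fact q.Prime] (hq2 : q ≠ 2)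
    (v : HeightOneSpectrum (𝓞 K)) [Finite (𝓞 K ⧸ v.asIdeal)] [Algebra (ZMod q) (𝓞 K ⧸ v.asIdeal)] {m : ℕ}
    (b : Module.Basis (Fin m) (ZMod q) (𝓞 K ⧸ v.asIdeal)) (t : 𝓞 K ⧸ v.asIdeal) (ht : t ≠ 0) :
    Matrix.det (fun i j => Algebra.trace (ZMod q) (𝓞 K ⧸ v.asIdeal) (t * b i * b j)) ≠ 0 ∧
    lg (Matrix.det (fun i j => Algebra.trace (ZMod q) (𝓞 K ⧸ v.asIdeal) (t * b i * b j))) =
      lg t + lg (Matrix.det (fun i j => Algebra.trace (ZMod q) (𝓞 K ⧸ v.asIdeal) (b i * b j))) := by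
  haveI := v.isMaximal
  letI : Field (𝓞 K ⧸ v.asIdeal) := Ideal.Quotient.field v.asIdeal
  haveI : Fintype (𝓞 K ⧸ v.asIdeal) := Fintype.ofFinite _
  have h2 : (2 : ZMod q) ≠ 0 := by
    intro h
    have h' : ((2 : ℕ) : ZMod q) = 0 := by exact_mod_cast h
    rw [ZMod.natCast_eq_zero_iff] at h'
    exact hq2 ((Nat.prime_dvd_prime_iff_eq Fact.out Nat.prime_two).mp h')
  exact h9a (ZMod q) (𝓞 K ⧸ v.asIdeal) h2 m b t ht

private theorem lgv_B9c {K : Type} [Field K] [NumberField K] (v : HeightOneSpectrum (𝓞 K))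
    [Finite (𝓞 K ⧸ v.asIdeal)] {x y : 𝓞 K ⧸ v.asIdeal} (hx : x ≠ 0) (hy : y ≠ 0) : lg (x * y) = lg x + lg y := by
  haveI := v.isMaximal
  letI : Field (𝓞 K ⧸ v.asIdeal) := Ideal.Quotient.field v.asIdeal
  exact lg_mul_B9c hx hy

theorem hB9c : StB9c := by
  intro h3 h9a h9b K _ _ n ω δ hdiff q V hU hδV
  classical
  haveI : Fact q.Prime := ⟨hU.pr⟩
  haveI hmax : ∀ v : V, v.1.asIdeal.IsMaximal := fun v => v.1.isMaximal
  haveI hfin : ∀ v : V, Finite (𝓞 K ⧸ v.1.asIdeal) := fun v => Ideal.finiteQuotientOfFreeOfNeBot _ v.1.ne_bot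
  haveI hchar : ∀ v : V, CharP (𝓞 K ⧸ v.1.asIdeal) q := by
    intro v
    haveI : Nontrivial (𝓞 K ⧸ v.1.asIdeal) := Ideal.Quotient.nontrivial_iff.mpr (hmax v).ne_top
    rw [CharP.charP_iff_prime_eq_zero hU.pr]
    have h := (hU.mem v.1).mp v.2
    rw [← Ideal.Quotient.eq_zero_iff_mem] at h
    simpa using h
  letI halg : ∀ v : V, Algebra (ZMod q) (𝓞 K ⧸ v.1.asIdeal) := fun v => ZMod.algebra _ q
  obtain ⟨δ', η, hdd⟩ := dual_B9c hU hδV
  obtain ⟨C, hC⟩ := exb_B9c V h3 h9b hU ω hdiff hdd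
  let f : V → ℕ := fun v => Module.finrank (ZMod q) (𝓞 K ⧸ v.1.asIdeal)
  let b : (v : V) → Module.Basis (Fin (f v)) (ZMod q) (𝓞 K ⧸ v.1.asIdeal) :=
    fun v => Module.finBasis (ZMod q) (𝓞 K ⧸ v.1.asIdeal)
  have hcard : ∀ v : V, Nat.card (𝓞 K ⧸ v.1.asIdeal) = q ^ f v := by
    intro v
    rw [Module.natCard_eq_pow_finrank (K := ZMod q), Nat.card_zmod]
  have hδ' : ∀ v : V, Ideal.Quotient.mk v.1.asIdeal δ' ≠ 0 := by
    intro v h
    rw [Ideal.Quotient.eq_zero_iff_mem] at h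
    apply (hmax v).ne_top
    rw [Ideal.eq_top_iff_one, ← hdd]
    exact Ideal.add_mem _ (Ideal.mul_mem_left _ _ h) (Ideal.mul_mem_right _ _ ((hU.mem v.1).mp v.2))
  let c : HeightOneSpectrum (𝓞 K) → ZMod 2 := fun v =>
    if h : v ∈ V then lg (Ideal.Quotient.mk v.asIdeal δ') +
      lg (Matrix.det (fun i j => Algebra.trace (ZMod q) (𝓞 K ⧸ (⟨v, h⟩ : V).1.asIdeal) (b ⟨v, h⟩ i * b ⟨v, h⟩ j)))
    else 0
  have hc : ∀ v : V, c v.1 = lg (Ideal.Quotient.mk v.1.asIdeal δ') +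
      lg (Matrix.det (fun i j => Algebra.trace (ZMod q) (𝓞 K ⧸ v.1.asIdeal) (b v i * b v j))) := by
    intro v
    show (if h : v.1 ∈ V then _ else _) = _
    rw [dif_pos v.2]
  refine ⟨c, ?_⟩
  intro a ha ha2 x hx G hG
  obtain ⟨hδ0, -, -, hGr⟩ := h3 K n ω δ hdiff
  have hint := int_B9c ω δ hGr
  let t : (v : V) → 𝓞 K ⧸ v.1.asIdeal := fun v => Ideal.Quotient.mk v.1.asIdeal (a * δ')
  have hH : ∀ i j, (G.map (Int.cast : ℤ → ZMod q)) i j = bf_B9c V t (C i) (C j) := by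
    intro i j
    rw [hC, hC]
    exact red_B9c V h9b hU ω hδ0 hdd hint a G hG i j
  let p : V → Prop := fun v => a ∉ v.1.asIdeal
  have hp : ∀ v, ¬ p v → t v = 0 := by
    intro v hv
    have hv' : a ∈ v.1.asIdeal := not_not.mp hv
    exact Ideal.Quotient.eq_zero_iff_mem.mpr (Ideal.mul_mem_right _ _ hv')
  obtain ⟨n₀, n₁, P₀, P₀', A₀, e1, e2, e3, e4, e5⟩ := core_B9c V t C f b _ hH p hp
  obtain ⟨m, hm1, hm2⟩ := norm_B9c hU a ha ha2 f hcard (Finset.univ.filter fun v : V => ¬ p v)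
    (by intro v; simp [p])
  have hn₁ : n₁ = ∑ v ∈ Finset.univ.filter (fun v : V => ¬ p v), f v := by
    rw [e5]
    exact (Finset.sum_subtype _ (by intro v; simp) _).symm
  have hma : ∀ v : V, p v → Ideal.Quotient.mk v.1.asIdeal a ≠ 0 := by
    intro v hv h
    exact hv (Ideal.Quotient.eq_zero_iff_mem.mp h)
  have ht : ∀ v : V, p v → t v ≠ 0 := by
    intro v hv
    show Ideal.Quotient.mk v.1.asIdeal (a * δ') ≠ 0
    rw [map_mul]
    haveI := hmax v
    letI : Field (𝓞 K ⧸ v.1.asIdeal) := Ideal.Quotient.field v.1.asIdeal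
    exact mul_ne_zero (hma v hv) (hδ' v)
  have hdet : ∀ v : V, p v →
      Matrix.det (fun i j => Algebra.trace (ZMod q) (𝓞 K ⧸ v.1.asIdeal) (t v * b v i * b v j)) ≠ 0 ∧
      lg (Matrix.det (fun i j => Algebra.trace (ZMod q) (𝓞 K ⧸ v.1.asIdeal) (t v * b v i * b v j))) =
        lg (Ideal.Quotient.mk v.1.asIdeal a) + c v.1 := by
    intro v hv
    obtain ⟨h1, h2⟩ := ha_B9c h9a hU.ne v.1 (b v) (t v) (ht v hv)
    refine ⟨h1, ?_⟩
    rw [h2, hc v]
    have h4 : lg (t v) = lg (Ideal.Quotient.mk v.1.asIdeal a) + lg (Ideal.Quotient.mk v.1.asIdeal δ') := by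
      show lg (Ideal.Quotient.mk v.1.asIdeal (a * δ')) = _
      rw [map_mul]
      exact lgv_B9c v.1 (hma v hv) (hδ' v)
    rw [h4, add_assoc]
  refine ⟨n₀, n₁, P₀, P₀', A₀, m, e1, e2, ?_, e3, ?_, ?_, hm2⟩
  · rw [e4]
    exact Finset.prod_ne_zero_iff.mpr fun v _ => (hdet v.1 v.2).1
  · rw [e4, lg_prod_B9c _ _ fun v _ => (hdet v.1 v.2).1]
    have h5 : ∀ v : {v : V // p v},
        lg (Matrix.det (fun i j => Algebra.trace (ZMod q) (𝓞 K ⧸ v.1.1.asIdeal) (t v.1 * b v.1 i * b v.1 j))) =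
          (1 + x v.1.1) * (lg (Ideal.Quotient.mk v.1.1.asIdeal a) + c v.1.1) := by
      intro v
      rw [(hdet v.1 v.2).2, (hx v.1.1 v.1.2).1 v.2, add_zero, one_mul]
    rw [Finset.sum_congr rfl fun v _ => h5 v,
      ← Finset.sum_coe_sort V (fun v => (1 + x v) * (lg (Ideal.Quotient.mk v.asIdeal a) + c v)),
      ← Fintype.sum_subtype_add_sum_subtype p
        (fun v : V => (1 + x v.1) * (lg (Ideal.Quotient.mk v.1.asIdeal a) + c v.1))]
    have h6 : (∑ v : {v : V // ¬ p v}, (1 + x v.1.1) * (lg (Ideal.Quotient.mk v.1.1.asIdeal a) + c v.1.1)) = 0 := by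
      refine Finset.sum_eq_zero fun v _ => ?_
      rw [(hx v.1.1 v.1.2).2 (not_not.mp v.2)]
      have h7 : (1 + 1 : ZMod 2) = 0 := by decide
      rw [h7, zero_mul]
    rw [h6, add_zero]
  · rw [hn₁]
    exact hm1

end final

end Pool.TW
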