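import Pool.Agent.Helper34.TW.StC

/-!
# Project TW, module C6b: an embedding of `KS f θ` in `ℝ` is unique
-/

set_option autoImplicit false

open scoped Pointwise NumberField TensorProduct
open NumberField Polynomial IsDedekindDomain Pool.RG2

namespace Pool.TW

private theorem aeval_map_C6b {A B : Type} [CommRing A] [CommRing B] [Algebra ℤ A] [Algebra ℤ B]
    (ψ : A →+* B) (x : A) (p : ℤ[X]) : aeval (ψ x) p = ψ (aeval x p) := by
  rw [aeval_def, aeval_def, hom_eval₂]
  congr 1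
  exact RingHom.ext_int _ _

theorem hC6b : StC6b := by
  intro r f hf S θ φ φ'
  have hmem : ∀ s : S, ((θ s).1 : Qb) ∈ KS f θ := fun s =>
    IntermediateField.subset_adjoin ℚ _ ⟨s, rfl⟩
  -- the image of a root is a real root
  have hroot : ∀ (ψ : KS f θ →+* ℝ) (s : S),
      aeval (ψ ⟨(θ s).1, hmem s⟩) (f s) = 0 := by
    intro ψ s
    have h1 : aeval ((θ s).1 : Qb) (f s) = 0 := by
      have h := (θ s).2
      rw [Polynomial.mem_rootSet'] at h
      exact h.2
    have h2 : aeval (⟨(θ s).1, hmem s⟩ : KS f θ) (f s) = 0 := by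
      have h3 := aeval_map_C6b (algebraMap (KS f θ) Qb) (⟨(θ s).1, hmem s⟩ : KS f θ) (f s)
      have h4 : (algebraMap (KS f θ) Qb) (⟨(θ s).1, hmem s⟩ : KS f θ) = ((θ s).1 : Qb) := rfl
      rw [h4, h1] at h3
      exact ((algebraMap (KS f θ) Qb).injective (h3.symm.trans (map_zero _).symm))
    rw [aeval_map_C6b ψ, h2, map_zero]
  have heq : ∀ s : S, φ ⟨(θ s).1, hmem s⟩ = φ' ⟨(θ s).1, hmem s⟩ := fun s =>
    (hf.real s).unique (hroot φ s) (hroot φ' s)
  have halg : φ.toRatAlgHom = φ'.toRatAlgHom := by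
    refine IntermediateField.adjoin_algHom_ext ℚ ?_
    rintro x ⟨s, rfl⟩
    exact heq s
  ext x
  exact congrArg (fun ψ : KS f θ →ₐ[ℚ] ℝ => ψ x) halg

end Pool.TW
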