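import Pool.Agent.Helper34.TW.StD

set_option autoImplicit false

open scoped Pointwise NumberField
open NumberField Polynomial IsDedekindDomain Pool.RG2 Filter Topology

namespace Pool.TW

private theorem mem_H_D5 {Γ : Type} [Group Γ] (N : Subgroup Γ) [N.Normal] (g : Γ) (n : ℕ) (δ : Γ) :
    δ ∈ N ⊔ Subgroup.zpowers (g ^ n) ↔ (δ : Γ ⧸ N) ∈ Subgroup.zpowers ((g : Γ ⧸ N) ^ n) := by
  rw [Subgroup.mem_sup_of_normal_left]
  constructor
  · rintro ⟨a, ha, b, hb, rfl⟩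
    obtain ⟨k, rfl⟩ := Subgroup.mem_zpowers_iff.1 hb
    have h1 : ((a * (g ^ n) ^ k : Γ) : Γ ⧸ N) = ((g : Γ ⧸ N) ^ n) ^ k := by
      rw [QuotientGroup.mk_mul, (QuotientGroup.eq_one_iff a).2 ha, one_mul]
      rfl
    rw [h1]
    exact Subgroup.zpow_mem_zpowers _ _
  · intro h
    obtain ⟨k, hk⟩ := Subgroup.mem_zpowers_iff.1 h
    refine ⟨δ * ((g ^ n) ^ k)⁻¹, ?_, (g ^ n) ^ k, Subgroup.zpow_mem_zpowers _ _, by group⟩
    rw [← QuotientGroup.eq_one_iff]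
    have h1 : ((δ * ((g ^ n) ^ k)⁻¹ : Γ) : Γ ⧸ N) = (δ : Γ ⧸ N) * (((g : Γ ⧸ N) ^ n) ^ k)⁻¹ := rfl
    rw [h1, hk, mul_inv_cancel]

private theorem map_H_D5 {Γ : Type} [Group Γ] (N : Subgroup Γ) [N.Normal] (g : Γ) (n : ℕ) :
    (N ⊔ Subgroup.zpowers (g ^ n)).map (QuotientGroup.mk' N) =
      Subgroup.zpowers ((g : Γ ⧸ N) ^ n) := by
  ext y
  constructor
  · rintro ⟨δ, hδ, rfl⟩
    exact (mem_H_D5 N g n δ).1 hδ
  · intro hy
    obtain ⟨δ, rfl⟩ := QuotientGroup.mk'_surjective N y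
    exact ⟨δ, (mem_H_D5 N g n δ).2 hy, rfl⟩

private theorem count_D5 {Γ : Type} [Group Γ] (N : Subgroup Γ) [N.Normal] [N.FiniteIndex]
    (g φ : Γ) (n : ℕ) (hn : n ∣ orderOf (g : Γ ⧸ N)) (hn0 : n ≠ 0) :
    (Nat.card {x : Γ ⧸ (N ⊔ Subgroup.zpowers (g ^ n)) // φ • x = x} : ℚ) / n =
      (Nat.card {y : Γ ⧸ N // y⁻¹ * (φ : Γ ⧸ N) * y ∈ Subgroup.zpowers ((g : Γ ⧸ N) ^ n)} : ℚ) /
        orderOf (g : Γ ⧸ N) := by
  have hfin : Finite (Γ ⧸ N) := Subgroup.finite_quotient_of_finiteIndex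
  set H := N ⊔ Subgroup.zpowers (g ^ n) with hH
  have hle : N ≤ H := le_sup_left
  let e := Subgroup.quotientEquivProdOfLE hle
  have he : ∀ γ : Γ, (e (γ : Γ ⧸ N)).1 = (γ : Γ ⧸ H) := fun γ => rfl
  have h1 : Nat.card (H ⧸ N.subgroupOf H) = orderOf (g : Γ ⧸ N) / n := by
    have h2 : Nat.card (H ⧸ N.subgroupOf H) = N.relIndex H := rfl
    rw [h2]
    have h3 : N = (QuotientGroup.mk' N).ker := (QuotientGroup.ker_mk' N).symm
    conv_lhs => rw [h3]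
    rw [Subgroup.relIndex_ker, hH, map_H_D5, Nat.card_zpowers, orderOf_pow_of_dvd hn0 hn]
  have h4 : Nat.card {y : Γ ⧸ N // y⁻¹ * (φ : Γ ⧸ N) * y ∈ Subgroup.zpowers ((g : Γ ⧸ N) ^ n)} =
      Nat.card {x : Γ ⧸ H // φ • x = x} * Nat.card (H ⧸ N.subgroupOf H) := by
    rw [← Nat.card_prod]
    apply Nat.card_congr
    refine (Equiv.subtypeEquiv e (p := fun y => y⁻¹ * (φ : Γ ⧸ N) * y ∈
      Subgroup.zpowers ((g : Γ ⧸ N) ^ n)) (q := fun z => φ • z.1 = z.1) ?_).trans ?_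
    · intro y
      obtain ⟨γ, rfl⟩ := QuotientGroup.mk'_surjective N y
      have h5 : (e ((QuotientGroup.mk' N) γ)).1 = (γ : Γ ⧸ H) := he γ
      rw [h5]
      have h6 : φ • (γ : Γ ⧸ H) = ((φ * γ : Γ) : Γ ⧸ H) := rfl
      rw [h6, QuotientGroup.eq]
      have h7 : ((QuotientGroup.mk' N) γ)⁻¹ * (φ : Γ ⧸ N) * (QuotientGroup.mk' N) γ =
          ((γ⁻¹ * φ * γ : Γ) : Γ ⧸ N) := rfl
      rw [h7, ← mem_H_D5, ← hH, ← inv_mem_iff]
      have h8 : (γ⁻¹ * φ * γ)⁻¹ = (φ * γ)⁻¹ * γ := by group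
      rw [h8]
    · exact
        { toFun := fun z => ⟨⟨z.1.1, z.2⟩, z.1.2⟩
          invFun := fun z => ⟨⟨z.1.1, z.2⟩, z.1.2⟩
          left_inv := fun z => rfl
          right_inv := fun z => rfl }
  rw [h4, h1]
  obtain ⟨m, hm⟩ := hn
  have hd : 0 < orderOf (g : Γ ⧸ N) := orderOf_pos _
  rw [hm] at hd ⊢
  have hm0 : m ≠ 0 := by
    rintro rfl
    simp at hd
  rw [Nat.mul_div_cancel_left _ (Nat.pos_of_ne_zero hn0)]
  have hnq : (n : ℚ) ≠ 0 := Nat.cast_ne_zero.2 hn0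
  have hmq : (m : ℚ) ≠ 0 := Nat.cast_ne_zero.2 hm0
  push_cast
  field_simp

private theorem inner_D5 {G : Type} [Group G] (h z : G) (hd : 0 < orderOf h)
    (hne : ∑ n ∈ (orderOf h).divisors, (ArithmeticFunction.moebius n : ℚ) *
      (open Classical in if z ∈ Subgroup.zpowers (h ^ n) then 1 else 0) ≠ 0) :
    ∃ k : ℕ, Nat.Coprime k (orderOf h) ∧ z = h ^ k := by
  classical
  by_cases hz : z ∈ Subgroup.zpowers h
  · obtain ⟨a, ha⟩ := (isOfFinOrder_iff_pow_eq_one.2 ⟨_, hd, pow_orderOf_eq_one h⟩).mem_zpowers_iff_mem_range_orderOf.1 hz |> Finset.mem_image.1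
    refine ⟨a, ?_, ha.2.symm⟩
    have h1 : ∀ n ∈ (orderOf h).divisors, (z ∈ Subgroup.zpowers (h ^ n) ↔ n ∣ a) := by
      intro n hn
      have hnd := Nat.dvd_of_mem_divisors hn
      constructor
      · intro hzn
        obtain ⟨b, hb⟩ := Subgroup.mem_zpowers_iff.1 hzn
        rw [← ha.2] at hb
        have h2 : h ^ ((n : ℤ) * b - a) = 1 := by
          rw [zpow_sub, zpow_mul, zpow_natCast, zpow_natCast, hb, mul_inv_cancel]
        have h3 := orderOf_dvd_iff_zpow_eq_one.2 h2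
        have h4 : (n : ℤ) ∣ (n : ℤ) * b - a := (Int.natCast_dvd_natCast.2 hnd).trans h3
        have h5 : (n : ℤ) ∣ a := by
          have := dvd_sub (dvd_mul_right (n : ℤ) b) h4
          simpa using this
        exact Int.natCast_dvd_natCast.1 h5
      · rintro ⟨b, rfl⟩
        rw [← ha.2, pow_mul]
        exact Subgroup.npow_mem_zpowers _ _
    have h2 : ∑ n ∈ (orderOf h).divisors, (ArithmeticFunction.moebius n : ℚ) *
        (if z ∈ Subgroup.zpowers (h ^ n) then 1 else 0) =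
        ∑ n ∈ (Nat.gcd a (orderOf h)).divisors, (ArithmeticFunction.moebius n : ℚ) := by
      have h3 : (Nat.gcd a (orderOf h)).divisors = (orderOf h).divisors.filter (fun n => n ∣ a) := by
        ext n
        simp only [Nat.mem_divisors, Finset.mem_filter, Nat.dvd_gcd_iff]
        constructor
        · rintro ⟨⟨h4, h5⟩, h6⟩
          exact ⟨⟨h5, hd.ne'⟩, h4⟩
        · rintro ⟨⟨h5, h6⟩, h4⟩
          exact ⟨⟨h4, h5⟩, Nat.gcd_ne_zero_right hd.ne'⟩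
      rw [h3, Finset.sum_filter]
      apply Finset.sum_congr rfl
      intro n hn
      by_cases hna : n ∣ a
      · rw [if_pos ((h1 n hn).2 hna), if_pos hna, mul_one]
      · rw [if_neg (fun h' => hna ((h1 n hn).1 h')), if_neg hna, mul_zero]
    rw [h2] at hne
    have h3 : ∑ n ∈ (Nat.gcd a (orderOf h)).divisors, (ArithmeticFunction.moebius n : ℚ) =
        if Nat.gcd a (orderOf h) = 1 then 1 else 0 := by
      have h4 := congrArg (fun f : ArithmeticFunction ℤ => f (Nat.gcd a (orderOf h)))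
        ArithmeticFunction.moebius_mul_coe_zeta
      simp only [ArithmeticFunction.coe_mul_zeta_apply, ArithmeticFunction.one_apply] at h4
      have h5 := congrArg (fun x : ℤ => (x : ℚ)) h4
      push_cast at h5
      exact h5
    rw [h3] at hne
    by_contra hcop
    exact hne (if_neg hcop)
  · exfalso
    apply hne
    apply Finset.sum_eq_zero
    intro n _
    rw [if_neg, mul_zero]
    intro h1
    apply hz
    have h2 : Subgroup.zpowers (h ^ n) ≤ Subgroup.zpowers h := by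
      rw [Subgroup.zpowers_le]
      exact Subgroup.npow_mem_zpowers _ _
    exact h2 h1

theorem hD5 : StD5 := by
  classical
  intro Γ _ N _ _ g φ hne
  have hfin : Finite (Γ ⧸ N) := Subgroup.finite_quotient_of_finiteIndex
  have := Fintype.ofFinite (Γ ⧸ N)
  have hd : 0 < orderOf (g : Γ ⧸ N) := orderOf_pos _
  have h1 : (∑ n ∈ (orderOf (g : Γ ⧸ N)).divisors, (ArithmeticFunction.moebius n : ℚ) / n *
      Nat.card {x : Γ ⧸ (N ⊔ Subgroup.zpowers (g ^ n)) // φ • x = x}) =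
      (∑ y : Γ ⧸ N, ∑ n ∈ (orderOf (g : Γ ⧸ N)).divisors, (ArithmeticFunction.moebius n : ℚ) *
        (if y⁻¹ * (φ : Γ ⧸ N) * y ∈ Subgroup.zpowers ((g : Γ ⧸ N) ^ n) then 1 else 0)) /
        orderOf (g : Γ ⧸ N) := by
    rw [Finset.sum_comm, Finset.sum_div]
    apply Finset.sum_congr rfl
    intro n hn
    have hnd := Nat.dvd_of_mem_divisors hn
    have hn0 : n ≠ 0 := (Nat.pos_of_mem_divisors hn).ne'
    have h2 := count_D5 N g φ n hnd hn0
    rw [← Finset.mul_sum, Finset.sum_boole, div_mul_eq_mul_div, mul_div_assoc, h2, mul_div_assoc,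
      Nat.card_eq_fintype_card, Fintype.card_subtype]
  rw [h1] at hne
  have h3 : (∑ y : Γ ⧸ N, ∑ n ∈ (orderOf (g : Γ ⧸ N)).divisors,
      (ArithmeticFunction.moebius n : ℚ) *
        (if y⁻¹ * (φ : Γ ⧸ N) * y ∈ Subgroup.zpowers ((g : Γ ⧸ N) ^ n) then 1 else 0)) ≠ 0 := by
    intro h
    rw [h, zero_div] at hne
    exact hne rfl
  obtain ⟨y, _, hy⟩ := Finset.exists_ne_zero_of_sum_ne_zero h3
  obtain ⟨k, hk, hyk⟩ := inner_D5 (g : Γ ⧸ N) (y⁻¹ * (φ : Γ ⧸ N) * y) hd hy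
  obtain ⟨γ, rfl⟩ := QuotientGroup.mk'_surjective N y
  refine ⟨γ, k, hk, ?_⟩
  rw [← QuotientGroup.eq_one_iff]
  have h4 : ((φ⁻¹ * (γ * g ^ k * γ⁻¹) : Γ) : Γ ⧸ N) =
      (φ : Γ ⧸ N)⁻¹ * ((γ : Γ ⧸ N) * (g : Γ ⧸ N) ^ k * (γ : Γ ⧸ N)⁻¹) := rfl
  have h5 : (QuotientGroup.mk' N) γ = (γ : Γ ⧸ N) := rfl
  rw [h4, ← hyk, h5]
  group

end Pool.TW
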