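import Pool.Agent.Helper34.TW.StE

set_option autoImplicit false

open scoped Pointwise NumberField
open NumberField Polynomial IsDedekindDomain Pool.RG2

namespace Pool.TW

/-! ### Groups -/

private lemma idx_E5 {G : Type} [CommGroup G] (A : Subgroup G) :
    (A.map (powMonoidHom 2)).relIndex A = (powMonoidHom 2 : A →* A).range.index := by
  rw [Subgroup.relIndex]
  congr 1
  ext x
  simp only [Subgroup.mem_subgroupOf, Subgroup.mem_map, MonoidHom.mem_range, powMonoidHom_apply]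
  constructor
  · rintro ⟨y, hy, h⟩
    exact ⟨⟨y, hy⟩, Subtype.ext h⟩
  · rintro ⟨y, rfl⟩
    exact ⟨y, y.2, rfl⟩

private lemma index_eq_E5 {A B : Type} [CommGroup A] [CommGroup B] (ψ : A →* B)
    (hinj : Function.Injective ψ) (N : ℕ) (hN : Odd N) (h : ∀ b : B, ∃ a, ψ a = b ^ N) :
    (powMonoidHom 2 : B →* B).range.index = (powMonoidHom 2 : A →* A).range.index := by
  obtain ⟨m, hm⟩ := hN
  have h1 : (powMonoidHom 2 : A →* A).range = ((powMonoidHom 2 : B →* B).range).comap ψ := by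
    ext a
    simp only [MonoidHom.mem_range, powMonoidHom_apply, Subgroup.mem_comap]
    constructor
    · rintro ⟨c, rfl⟩
      exact ⟨ψ c, by rw [map_pow]⟩
    · rintro ⟨c, hc⟩
      obtain ⟨g, hg⟩ := h c
      have h2 : a ^ N = g ^ 2 := hinj (by
        rw [map_pow, map_pow, hg, ← hc, ← pow_mul, ← pow_mul, mul_comm])
      refine ⟨g * (a ^ m)⁻¹, ?_⟩
      rw [mul_pow, ← h2, hm, inv_pow, ← pow_mul, pow_succ, mul_comm m 2]
      group
  have h2 : ψ.range ⊔ (powMonoidHom 2 : B →* B).range = ⊤ := by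
    rw [eq_top_iff]
    intro b _
    obtain ⟨a, ha⟩ := h b
    have h3 : b = ψ a * ((b ^ m)⁻¹) ^ 2 := by
      rw [ha, hm, inv_pow, ← pow_mul, pow_succ, mul_comm m 2]
      group
    rw [h3]
    exact Subgroup.mul_mem_sup ⟨a, rfl⟩ ⟨(b ^ m)⁻¹, rfl⟩
  rw [h1, Subgroup.index_comap, ← Subgroup.relIndex_sup_right, h2, Subgroup.relIndex_top_right]

private lemma agree_E5 {ι : Type*} [DecidableEq ι] {Y : ι → Type*} {M : Type*}
    (b : (∀ i, Y i) → M) (T : Finset ι) :
    (∀ s ∈ T, ∀ x y, b (Function.update x s y) = b x) →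
    ∀ x x' : (∀ i, Y i), (∀ s, s ∉ T → x s = x' s) → b x = b x' := by
  induction T using Finset.induction_on with
  | empty =>
    intro _ x x' h
    rw [show x = x' from funext fun s => h s (Finset.notMem_empty _)]
  | insert s T hs ih =>
    intro hb x x' h
    rw [← hb s (Finset.mem_insert_self _ _) x (x' s)]
    refine ih (fun t ht => hb t (Finset.mem_insert_of_mem ht)) _ _ ?_
    intro t ht
    by_cases hts : t = s
    · subst hts
      simp
    · rw [Function.update_of_ne hts]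
      exact h t (by simp [hts, ht])

/-! ### Units -/

private lemma unit_one_E5 (P : Ideal Zb) (hP : P.IsMaximal) : UnitAt P (1 : Qb) :=
  ⟨1, 1, fun h => hP.ne_top ((Ideal.eq_top_iff_one _).2 h),
    fun h => hP.ne_top ((Ideal.eq_top_iff_one _).2 h), by simp⟩

private lemma unit_mul_E5 (P : Ideal Zb) (hP : P.IsMaximal) (u v : Qb) (hu : UnitAt P u)
    (hv : UnitAt P v) : UnitAt P (u * v) := by
  obtain ⟨a, b, ha, hb, h⟩ := hu
  obtain ⟨a', b', ha', hb', h'⟩ := hv
  have hp := hP.isPrime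
  refine ⟨a * a', b * b', fun h => ?_, fun h => ?_, ?_⟩
  · rcases hp.mem_or_mem h with h | h
    exacts [ha h, ha' h]
  · rcases hp.mem_or_mem h with h | h
    exacts [hb h, hb' h]
  · have h1 : ((b * b' : Zb) : Qb) = (b : Qb) * (b' : Qb) := map_mul _ _ _
    have h2 : ((a * a' : Zb) : Qb) = (a : Qb) * (a' : Qb) := map_mul _ _ _
    rw [h1, h2, ← h, ← h']
    ring

private lemma unit_prod_E5 (P : Ideal Zb) (hP : P.IsMaximal) {ι : Type*} (s : Finset ι)
    (u : ι → Qb) (h : ∀ i ∈ s, UnitAt P (u i)) : UnitAt P (∏ i ∈ s, u i) := by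
  classical
  induction s using Finset.induction_on with
  | empty => simpa using unit_one_E5 P hP
  | insert a s ha ih =>
    rw [Finset.prod_insert ha]
    exact unit_mul_E5 P hP _ _ (h a (Finset.mem_insert_self _ _))
      (ih fun i hi => h i (Finset.mem_insert_of_mem hi))

variable {r : ℕ} (f : Fin r → ℤ[X])

/-- `es f s` as a homomorphism. -/
private noncomputable def esH_E5 {S : Finset (Fin r)} (s : S) :
    (Pt (RY f) S → Qbˣ) →* (Pt (RY f) S → Qbˣ) where
  toFun := es f s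
  map_one' := by
    funext x
    simp [es]
  map_mul' F G := by
    funext x
    simp [es, Finset.prod_mul_distrib]

private lemma es_smul_E5 {S : Finset (Fin r)} (s : S) (g : GQ) (x : Pt (RY f) S) (y : Rt (f s)) :
    g • Function.update x s y = Function.update (g • x) s (g • y) := by
  funext t
  by_cases h : t = s
  · subst h
    simp [Pi.smul_apply]
  · rw [Pi.smul_apply, Function.update_of_ne h, Function.update_of_ne h, Pi.smul_apply]

private lemma isEqU_es_E5 {S : Finset (Fin r)} {Q : Finset ℕ} (s : S) (F : Pt (RY f) S → Qbˣ)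
    (hF : IsEqU f Q F) : IsEqU f Q (es f s F) := by
  constructor
  · intro g x
    simp only [es, Units.coe_prod, map_prod, hF.eqv]
    rw [← Equiv.prod_comp (MulAction.toPerm g : Equiv.Perm (Rt (f s)))
      (fun y => ((F (Function.update (g • x) s y) : Qbˣ) : Qb))]
    refine Finset.prod_congr rfl fun y _ => ?_
    rw [es_smul_E5]
    rfl
  · intro x P hP hQ
    simp only [es, Units.coe_prod]
    exact unit_prod_E5 P hP _ _ fun y _ => hF.unit _ P hP hQ

private lemma es_es_E5 {S : Finset (Fin r)} (s : S) (F : Pt (RY f) S → Qbˣ) :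
    es f s (es f s F) = es f s F ^ Fintype.card (Rt (f s)) := by
  funext x
  simp only [es, Function.update_idem, Finset.prod_const, Pi.pow_apply]
  rfl

private lemma es_comm_E5 {S : Finset (Fin r)} (s t : S) (F : Pt (RY f) S → Qbˣ) :
    es f s (es f t F) = es f t (es f s F) := by
  by_cases h : s = t
  · subst h
    rfl
  funext x
  simp only [es]
  rw [Finset.prod_comm]
  refine Finset.prod_congr rfl fun y _ => Finset.prod_congr rfl fun z _ => ?_
  rw [Function.update_comm h]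

/-- Restriction of points. -/
private def res_E5 {S U : Finset (Fin r)} (h : U ⊆ S) (x : Pt (RY f) S) : Pt (RY f) U :=
  fun u => x ⟨u.1, h u.2⟩

/-- Extension of points. -/
private def ext_E5 {S U : Finset (Fin r)} (x0 : Pt (RY f) S) (y : Pt (RY f) U) : Pt (RY f) S :=
  fun s => if h : s.1 ∈ U then y ⟨s.1, h⟩ else x0 s

private lemma res_ext_E5 {S U : Finset (Fin r)} (h : U ⊆ S) (x0 : Pt (RY f) S)
    (y : Pt (RY f) U) : res_E5 f h (ext_E5 f x0 y) = y := by
  funext u
  simp [res_E5, ext_E5]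

/-- The pull back of functions. -/
private def pull_E5 {S U : Finset (Fin r)} (h : U ⊆ S) :
    (Pt (RY f) U → Qbˣ) →* (Pt (RY f) S → Qbˣ) where
  toFun G x := G (res_E5 f h x)
  map_one' := rfl
  map_mul' _ _ := rfl

private lemma pull_inj_E5 {S U : Finset (Fin r)} (h : U ⊆ S) (x0 : Pt (RY f) S) :
    Function.Injective (pull_E5 f h) := by
  intro G G' hG
  funext y
  have := congrFun hG (ext_E5 f x0 y)
  simp only [pull_E5, MonoidHom.coe_mk, OneHom.coe_mk, res_ext_E5] at this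
  exact this

private lemma isEqU_pull_E5 {S U : Finset (Fin r)} (h : U ⊆ S) {Q : Finset ℕ}
    (G : Pt (RY f) U → Qbˣ) (hG : IsEqU f Q G) : IsEqU f Q (pull_E5 f h G) :=
  ⟨fun g x => hG.eqv g _, fun x => hG.unit _⟩

private lemma es_pull_E5 {S U : Finset (Fin r)} (h : U ⊆ S) (s : S) (hs : s.1 ∉ U)
    (G : Pt (RY f) U → Qbˣ) :
    es f s (pull_E5 f h G) = pull_E5 f h G ^ Fintype.card (Rt (f s)) := by
  funext x
  have h1 : ∀ y : Rt (f s), res_E5 f h (Function.update x s y) = res_E5 f h x := by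
    intro y
    funext u
    simp only [res_E5]
    rw [Function.update_of_ne]
    intro hu
    exact hs (hu ▸ u.2)
  simp only [es, pull_E5, MonoidHom.coe_mk, OneHom.coe_mk, h1, Finset.prod_const, Pi.pow_apply]
  rfl

/-- A function which does not depend on the coordinates outside `U` comes from `U`. -/
private lemma exists_pull_E5 {S U : Finset (Fin r)} (h : U ⊆ S) (x0 : Pt (RY f) S)
    {Q : Finset ℕ} (F : Pt (RY f) S → Qbˣ) (hF : IsEqU f Q F)
    (hd : ∀ s : S, s.1 ∉ U → ∀ x y, F (Function.update x s y) = F x) :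
    ∃ G : Pt (RY f) U → Qbˣ, IsEqU f Q G ∧ pull_E5 f h G = F := by
  have hag : ∀ x x' : Pt (RY f) S, res_E5 f h x = res_E5 f h x' → F x = F x' := by
    intro x x' hx
    refine agree_E5 F (Finset.univ.filter fun s : S => s.1 ∉ U)
      (fun s hs => hd s (Finset.mem_filter.1 hs).2) x x' ?_
    intro s hs
    have hs' : s.1 ∈ U := by
      by_contra hcon
      exact hs (by simp [hcon])
    exact congrFun hx ⟨s.1, hs'⟩
  refine ⟨fun y => F (ext_E5 f x0 y), ⟨?_, ?_⟩, ?_⟩
  · intro g y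
    rw [hF.eqv]
    congr 1
    refine hag _ _ ?_
    rw [res_ext_E5]
    have := res_ext_E5 f h x0 y
    funext u
    exact congrArg (fun z => g • z) (congrFun this u)
  · intro y
    exact hF.unit _
  · funext x
    exact hag _ _ (res_ext_E5 f h x0 _)

/-! ### The number of units -/

private lemma reindex_E5 (S : Finset (Fin r)) (w : Finset (Fin r) → ℤ) :
    ∑ T ∈ S.powerset, (-1) ^ T.card * w (S \ T) =
      ∑ T ∈ S.powerset, (-1) ^ (S.card - T.card) * w T := by
  refine Finset.sum_nbij' (fun T => S \ T) (fun T => S \ T) ?_ ?_ ?_ ?_ ?_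
  · intro T _
    exact Finset.mem_powerset.2 Finset.sdiff_subset
  · intro T _
    exact Finset.mem_powerset.2 Finset.sdiff_subset
  · intro T hT
    exact Finset.sdiff_sdiff_eq_self (Finset.mem_powerset.1 hT)
  · intro T hT
    exact Finset.sdiff_sdiff_eq_self (Finset.mem_powerset.1 hT)
  · intro T hT
    have hT' := Finset.mem_powerset.1 hT
    have h1 := Finset.card_le_card hT'
    rw [Finset.card_sdiff_of_subset hT', Nat.sub_sub_self h1]

private lemma arith_E5 (S : Finset (Fin r)) (hS : S.Nonempty) (n : Fin r → ℕ)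
    (hn : ∀ s, Odd (n s)) :
    ∑ T ∈ S.powerset, (-1) ^ T.card * ((((∏ s ∈ S \ T, n s) + 1) / 2 : ℕ) : ℤ) =
      (((∏ s ∈ S, (n s - 1)) / 2 : ℕ) : ℤ) := by
  rw [reindex_E5 S (fun T => ((((∏ s ∈ T, n s) + 1) / 2 : ℕ) : ℤ))]
  have h2 : ∀ T : Finset (Fin r), (2 : ℤ) * ((((∏ s ∈ T, n s) + 1) / 2 : ℕ) : ℤ) =
      (∏ s ∈ T, (n s : ℤ)) + 1 := by
    intro T
    have hodd : Odd (∏ s ∈ T, n s) := by
      induction T using Finset.induction_on with
      | empty => simp
      | insert a T ha ih => rw [Finset.prod_insert ha]; exact (hn a).mul ih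
    have h3 : 2 * (((∏ s ∈ T, n s) + 1) / 2) = (∏ s ∈ T, n s) + 1 :=
      Nat.mul_div_cancel' (by obtain ⟨m, hm⟩ := hodd; exact ⟨m + 1, by omega⟩)
    have := congrArg (fun k : ℕ => (k : ℤ)) h3
    push_cast at this ⊢
    exact this
  have h4 : (2 : ℤ) * (((∏ s ∈ S, (n s - 1)) / 2 : ℕ) : ℤ) = ∏ s ∈ S, ((n s : ℤ) - 1) := by
    obtain ⟨s0, hs0⟩ := hS
    have h5 : 2 ∣ ∏ s ∈ S, (n s - 1) := by
      refine dvd_trans ?_ (Finset.dvd_prod_of_mem _ hs0)
      obtain ⟨m, hm⟩ := hn s0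
      exact ⟨m, by omega⟩
    have h6 := congrArg (fun k : ℕ => (k : ℤ)) (Nat.mul_div_cancel' h5)
    simp only [Nat.cast_mul, Nat.cast_prod] at h6
    rw [show ((2 : ℕ) : ℤ) = 2 from rfl] at h6
    rw [h6]
    refine Finset.prod_congr rfl fun s _ => ?_
    have : 1 ≤ n s := (hn s).pos
    push_cast [this]
    ring
  have h7 : ∏ s ∈ S, ((n s : ℤ) - 1) =
      ∑ T ∈ S.powerset, (-1) ^ (S.card - T.card) * ∏ s ∈ T, (n s : ℤ) := by
    simp only [sub_eq_add_neg]
    rw [Finset.prod_add]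
    refine Finset.sum_congr rfl fun T hT => ?_
    rw [Finset.prod_const, Finset.card_sdiff_of_subset (Finset.mem_powerset.1 hT), mul_comm]
  have h8 : ∑ T ∈ S.powerset, (-1 : ℤ) ^ (S.card - T.card) = 0 := by
    have h9 := reindex_E5 S (fun _ => (1 : ℤ))
    simp only [mul_one] at h9
    rw [← h9]
    exact Finset.sum_powerset_neg_one_pow_card_of_nonempty hS
  have h10 : (2 : ℤ) * ∑ T ∈ S.powerset, (-1) ^ (S.card - T.card) *
      ((((∏ s ∈ T, n s) + 1) / 2 : ℕ) : ℤ) =
      (2 : ℤ) * (((∏ s ∈ S, (n s - 1)) / 2 : ℕ) : ℤ) := by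
    rw [h4, h7, Finset.mul_sum, ← add_zero (∑ T ∈ S.powerset, (-1 : ℤ) ^ (S.card - T.card) *
      ∏ s ∈ T, (n s : ℤ)), ← h8, ← Finset.sum_add_distrib]
    refine Finset.sum_congr rfl fun T _ => ?_
    rw [mul_left_comm, h2]
    ring
  exact mul_left_cancel₀ two_ne_zero h10

/-- The homomorphism `e_s` on the equivariant units. -/
private noncomputable def eA_E5 {S : Finset (Fin r)} {Q : Finset ℕ}
    (A : Subgroup (Pt (RY f) S → Qbˣ)) (hA : ∀ F, F ∈ A ↔ IsEqU f Q F) (s : Fin r) : A →* A :=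
  if h : s ∈ S then ((esH_E5 f (⟨s, h⟩ : S)).comp A.subtype).codRestrict A
    (fun a => (hA _).2 (isEqU_es_E5 f _ _ ((hA _).1 a.2))) else 1

private lemma eA_apply_E5 {S : Finset (Fin r)} {Q : Finset ℕ}
    (A : Subgroup (Pt (RY f) S → Qbˣ)) (hA : ∀ F, F ∈ A ↔ IsEqU f Q F) (s : Fin r)
    (h : s ∈ S) (a : A) : ((eA_E5 f A hA s a : A) : Pt (RY f) S → Qbˣ) = es f (⟨s, h⟩ : S) a := by
  rw [eA_E5, dif_pos h]
  rfl

private lemma index_E5 {S U : Finset (Fin r)} (hU : U ⊆ S) {Q : Finset ℕ}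
    (hn : ∀ s, Odd (Fintype.card (Rt (f s))))
    (A : Subgroup (Pt (RY f) S → Qbˣ)) (hA : ∀ F, F ∈ A ↔ IsEqU f Q F)
    (AU : Subgroup (Pt (RY f) U → Qbˣ)) (hAU : ∀ F, F ∈ AU ↔ IsEqU f Q F)
    (B : Subgroup A) (hB : ∀ x, x ∈ B ↔ ∀ s ∈ S \ U, eA_E5 f A hA s x =
      x ^ Fintype.card (Rt (f s))) :
    (B.map (powMonoidHom 2)).relIndex B = (AU.map (powMonoidHom 2)).relIndex AU := by
  classical
  rw [idx_E5, idx_E5]
  have hne : ∀ s, Nonempty (Rt (f s)) := fun s => Fintype.card_pos_iff.1 (hn s).pos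
  obtain ⟨x0⟩ : Nonempty (Pt (RY f) S) := ⟨fun s => (hne s).some⟩
  -- the homomorphism
  have hmem : ∀ G : AU, pull_E5 f hU (G : Pt (RY f) U → Qbˣ) ∈ A := fun G =>
    (hA _).2 (isEqU_pull_E5 f hU _ ((hAU _).1 G.2))
  let ψ1 : AU →* A := ((pull_E5 f hU).comp AU.subtype).codRestrict A hmem
  have hmem2 : ∀ G : AU, ψ1 G ∈ B := by
    intro G
    rw [hB]
    intro s hs
    obtain ⟨hs1, hs2⟩ := Finset.mem_sdiff.1 hs
    apply Subtype.ext
    rw [eA_apply_E5 f A hA s hs1]
    exact es_pull_E5 f hU ⟨s, hs1⟩ hs2 _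
  let ψ : AU →* B := ψ1.codRestrict B hmem2
  refine index_eq_E5 ψ ?_ (∏ s ∈ S \ U, Fintype.card (Rt (f s))) ?_ ?_
  · intro G G' h
    apply Subtype.ext
    apply pull_inj_E5 f hU x0
    exact congrArg (fun b : B => ((b : A) : Pt (RY f) S → Qbˣ)) h
  · generalize S \ U = T
    induction T using Finset.induction_on with
    | empty => simp
    | insert a T ha ih => rw [Finset.prod_insert ha]; exact (hn a).mul ih
  · intro b
    have hbB : ∀ s ∈ S \ U, eA_E5 f A hA s (b : A) = (b : A) ^ Fintype.card (Rt (f s)) :=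
      (hB _).1 b.2
    set N := ∏ s ∈ S \ U, Fintype.card (Rt (f s)) with hN
    have hF : IsEqU f Q (((b : A) ^ N : A) : Pt (RY f) S → Qbˣ) := (hA _).1 ((b : A) ^ N).2
    obtain ⟨G, hG, hG2⟩ := exists_pull_E5 f hU x0 _ hF (by
      intro s hs x y
      have hs' : s.1 ∈ S \ U := Finset.mem_sdiff.2 ⟨s.2, hs⟩
      obtain ⟨m, hm⟩ : Fintype.card (Rt (f s)) ∣ N := Finset.dvd_prod_of_mem _ hs'
      have h1 : ((b : A) ^ N : A) = (eA_E5 f A hA s (b : A)) ^ m := by
        rw [hbB _ hs', ← pow_mul, hm]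
      have h2 : (((b : A) ^ N : A) : Pt (RY f) S → Qbˣ) = (es f s (b : A)) ^ m := by
        rw [h1, Subgroup.coe_pow, eA_apply_E5 f A hA s s.2]
      rw [h2, Pi.pow_apply, Pi.pow_apply]
      simp only [es, Function.update_idem])
    refine ⟨⟨G, (hAU _).2 hG⟩, ?_⟩
    apply Subtype.ext
    apply Subtype.ext
    exact hG2

/-- Independent units. -/
theorem hE5 : StE5 := by
  classical
  intro a1 a2 a3 c0 c6 c7 e1 e2 e3 e4 r f hf hcard dt Q hQ S hS
  have hn : ∀ s, Odd (Fintype.card (Rt (f s))) := fun s => by rw [hcard]; exact hf.odd s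
  obtain ⟨A, hA, -⟩ := e3 c0 c6 c7 e1 e2 r f hf hcard dt Q hQ S
  obtain ⟨D, x, hD, hx, hI⟩ := e4 a2 A (Fin r) S (eA_E5 f A hA)
    (fun s => Fintype.card (Rt (f s)))
    (fun T => ((∏ s ∈ S \ T, (f s).natDegree + 1) / 2 + ∑ q ∈ Q, orbq f (S \ T) dt q))
    (fun s _ => hn s)
    (by
      intro s hs a
      apply Subtype.ext
      rw [eA_apply_E5 f A hA s hs, eA_apply_E5 f A hA s hs, es_es_E5, Subgroup.coe_pow,
        eA_apply_E5 f A hA s hs])
    (by
      intro s hs t ht a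
      apply Subtype.ext
      rw [eA_apply_E5 f A hA s hs, eA_apply_E5 f A hA t ht, eA_apply_E5 f A hA t ht,
        eA_apply_E5 f A hA s hs, es_comm_E5])
    (by
      intro T hT B hB
      obtain ⟨AU, hAU, hidx⟩ := e3 c0 c6 c7 e1 e2 r f hf hcard dt Q hQ (S \ T)
      rw [← hidx]
      refine index_E5 f Finset.sdiff_subset hn A hA AU hAU B ?_
      rw [Finset.sdiff_sdiff_eq_self hT]
      exact hB)
  -- the number
  have hDeq : D = aN f S + ∑ q ∈ Q, fixq f S dt q := by
    have h1 : (D : ℤ) = ((aN f S + ∑ q ∈ Q, fixq f S dt q : ℕ) : ℤ) := by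
      rw [hD]
      simp only [Nat.cast_add, mul_add, Finset.sum_add_distrib]
      congr 1
      · exact arith_E5 S hS (fun s => (f s).natDegree) hf.odd
      · have h2 : ∀ T ∈ S.powerset, (-1 : ℤ) ^ T.card * ((∑ q ∈ Q, orbq f (S \ T) dt q : ℕ) : ℤ) =
            ∑ q ∈ Q, (-1 : ℤ) ^ T.card * (orbq f (S \ T) dt q : ℤ) := by
          intro T _
          rw [Nat.cast_sum, Finset.mul_sum]
        rw [Finset.sum_congr rfl h2, Finset.sum_comm, Nat.cast_sum]
        refine Finset.sum_congr rfl fun q hq => ?_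
        rw [reindex_E5 S (fun T => (orbq f T dt q : ℤ))]
        have hq2 : q.Prime ∧ q ≠ 2 := ⟨(hQ q hq).1, fun h => by
          have := (hQ q hq).2.1
          omega⟩
        simp only [orbq, fixq, dif_pos hq2]
        exact (a3 a1 a2 GQ r (RY f) S _ hn).symm
    exact_mod_cast h1
  subst hDeq
  refine ⟨fun i => (x i : Pt (RY f) S → Qbˣ), fun i => (hA _).1 (x i).2, ?_, ?_⟩
  · intro i s
    obtain ⟨G, hG⟩ := hx i s s.2
    refine ⟨G, (hA _).1 G.2, ?_⟩
    have := congrArg (fun a : A => (a : Pt (RY f) S → Qbˣ)) hG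
    simp only [eA_apply_E5 f A hA s s.2] at this
    rw [this, Subgroup.coe_mul, sq]
  · rintro I ⟨G, hG, hG2⟩
    refine hI I ⟨⟨G, (hA _).2 hG⟩, ?_⟩
    apply Subtype.ext
    rw [Subgroup.coe_mul, ← sq, ← hG2, Subgroup.val_finsetProd]

end Pool.TW
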