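import Pool.Agent.Helper34.TW.StF

/-!
# Project TW, module G5 (iteration)
-/

set_option autoImplicit false

open scoped Pointwise NumberField
open NumberField Polynomial IsDedekindDomain Pool.RG2

namespace Pool.TW

private theorem cob_sub_G5 {r : ℕ} {f : Fin r → ℤ[X]} {S : Finset (Fin r)} {A : Set GQ}
    {a b : GQ → Pt (RY f) S → ZMod 2} (ha : CobOn (RY f) A a) (hb : CobOn (RY f) A b) :
    CobOn (RY f) A (a - b) := by
  obtain ⟨m, hm, h1⟩ := ha
  obtain ⟨m', hm', h2⟩ := hb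
  refine ⟨m - m', sub_mem hm hm', fun g hg => ?_⟩
  rw [Pi.sub_apply, h1 g hg, h2 g hg]
  have : act (RY f) g (m - m') = act (RY f) g m - act (RY f) g m' := rfl
  rw [this]
  abel

theorem hG5 : StG5 := by
  intro hUNI hFIN hKill r f hf P0 hP0 h2 dt J tm L Lam hMA B
  classical
  have hK := hKill r f hf P0 hP0 h2 dt J tm L Lam hMA
  -- all Selmer classes are trivial
  let Triv : (Fin r → Finset ℕ) → Prop := fun 𝒬 =>
    ∀ S : Finset (Fin r), S.Nonempty → ∀ k z, Sel f P0 dt 𝒬 (L S k) (Lam S) z → CobOn (RY f) Set.univ z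
  let Inv : (Fin r → Finset ℕ) → Prop := fun 𝒬 =>
    GoodQ f 𝒬 ∧ ∀ S : Finset (Fin r), S.Nonempty → ∀ k z, Sel f P0 dt 𝒬 (L S k) (Lam S) z →
      Sel f P0 dt (fun _ => ∅) (L S k) (Lam S) z
  choose E hEfin hE using fun (S : {S : Finset (Fin r) // S.Nonempty}) => hFIN r f hf S.1 S.2
  have hEset : ∀ S : {S : Finset (Fin r) // S.Nonempty}, ((E S : Submodule (ZMod 2) _) : Set (GQ → Pt (RY f) S.1 → ZMod 2)).Finite := by
    intro S
    haveI := hEfin S
    have h : Finite (E S) := Module.finite_of_finite (ZMod 2)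
    exact Set.toFinite _
  let R : (Fin r → Finset ℕ) → (i : Σ S : {S : Finset (Fin r) // S.Nonempty}, Fin (J S.1)) →
      Set (GQ → Pt (RY f) i.1.1 → ZMod 2) := fun 𝒬 i =>
    {e | e ∈ E i.1 ∧ ∃ z, Sel f P0 dt 𝒬 (L i.1.1 i.2) (Lam i.1.1) z ∧ CobOn (RY f) Set.univ (z - e)}
  have hRfin : ∀ 𝒬 i, (R 𝒬 i).Finite := fun 𝒬 i => (hEset i.1).subset fun e he => he.1
  let μ : (Fin r → Finset ℕ) → ℕ := fun 𝒬 => ∑ i, (R 𝒬 i).ncard
  -- step A
  have stepA : ∀ n : ℕ, ∀ 𝒬, Inv 𝒬 → μ 𝒬 = n → ∃ 𝒬', GoodQ f 𝒬' ∧ Triv 𝒬' := by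
    intro n
    induction n using Nat.strong_induction_on with
    | _ n ih =>
      intro 𝒬 hInv hμ
      by_cases hT : Triv 𝒬
      · exact ⟨𝒬, hInv.1, hT⟩
      · have hT' : ∃ S : Finset (Fin r), ∃ _ : S.Nonempty, ∃ k z, Sel f P0 dt 𝒬 (L S k) (Lam S) z ∧
            ¬ CobOn (RY f) Set.univ z := by
          by_contra hcon
          push Not at hcon
          exact hT fun S hS k z hz => hcon S hS k z hz
        obtain ⟨S0, hS0, k0, c0, hc0, hnc⟩ := hT'
        obtain ⟨s0, hs0⟩ := hS0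
        obtain ⟨p, hBp, hgood, hsub, hkill⟩ := hK 𝒬 hInv.1 S0 s0 hs0 c0 hc0.coc hc0.unr hnc B
        set 𝒬' := Function.update 𝒬 s0 (insert p (𝒬 s0)) with h𝒬'
        have hInv' : Inv 𝒬' := ⟨hgood, fun S hS k z hz => hInv.2 S hS k z (hsub S hS k z hz)⟩
        have hmono : ∀ i, R 𝒬' i ⊆ R 𝒬 i := by
          intro i e he
          obtain ⟨h1, z, hz, h3⟩ := he
          exact ⟨h1, z, hsub i.1.1 i.1.2 i.2 z hz, h3⟩
        let S0' : {S : Finset (Fin r) // S.Nonempty} := ⟨S0, ⟨s0, hs0⟩⟩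
        let i0 : Σ S : {S : Finset (Fin r) // S.Nonempty}, Fin (J S.1) := ⟨S0', k0⟩
        have hempty := hInv.2 S0 ⟨s0, hs0⟩ k0 c0 hc0
        have hunr : Unr f ∅ c0 := by
          have := hempty.unr
          have e : QS (fun _ : Fin r => (∅ : Finset ℕ)) S0 = ∅ := by
            unfold QS
            ext x
            simp
          rwa [e] at this
        obtain ⟨e, heE, hecob⟩ := hE S0' c0 hc0.coc hunr
        have he1 : e ∈ R 𝒬 i0 := ⟨heE, c0, hc0, hecob⟩
        have he2 : e ∉ R 𝒬' i0 := by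
          rintro ⟨_, z, hz, hzc⟩
          apply hkill k0 z hz
          have h5 := cob_sub_G5 hzc hecob
          have h6 : z - e - (c0 - e) = z - c0 := by abel
          rwa [h6] at h5
        have hlt : μ 𝒬' < μ 𝒬 := by
          apply Finset.sum_lt_sum
          · intro i _
            exact Set.ncard_le_ncard (hmono i) (hRfin 𝒬 i)
          · refine ⟨i0, Finset.mem_univ _, ?_⟩
            apply Set.ncard_lt_ncard _ (hRfin 𝒬 i0)
            exact ⟨hmono i0, fun h => he2 (h he1)⟩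
        exact ih (μ 𝒬') (hμ ▸ hlt) 𝒬' hInv' rfl
  have hInv0 : Inv (fun _ => ∅) := by
    refine ⟨⟨fun s q hq => absurd hq (Finset.notMem_empty _), fun s t _ => Finset.disjoint_empty_left _⟩,
      fun S hS k z hz => hz⟩
  obtain ⟨𝒬A, hgA, hTA⟩ := stepA _ _ hInv0 rfl
  -- step B
  have stepB : ∀ T : Finset (Fin r), ∃ 𝒬, GoodQ f 𝒬 ∧ Triv 𝒬 ∧ ∀ s ∈ T, ∃ q ∈ 𝒬 s, B < q := by
    intro T
    induction T using Finset.induction_on with
    | empty => exact ⟨𝒬A, hgA, hTA, fun s hs => absurd hs (Finset.notMem_empty _)⟩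
    | insert s T hsT ih =>
      obtain ⟨𝒬, hg, hT, hB⟩ := ih
      have hgp : ∀ q ∈ QS 𝒬 {s}, GP f q := by
        intro q hq
        unfold QS at hq
        rw [Finset.singleton_biUnion] at hq
        exact hg.gp s q hq
      obtain ⟨F, hFfin, hF1, hF2, hF3⟩ := hUNI r f hf dt (QS 𝒬 {s}) hgp {s} (Finset.singleton_nonempty s)
      have haN : 1 ≤ aN f {s} := by
        unfold aN
        rw [Finset.prod_singleton]
        have := hf.three s
        omega
      have hFne : F ≠ ⊥ := by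
        rintro rfl
        rw [finrank_bot] at hF3
        omega
      obtain ⟨c0, hc0F, hc0⟩ := (Submodule.ne_bot_iff F).1 hFne
      have hnc : ¬ CobOn (RY f) Set.univ c0 := fun h => hc0 (hF2 c0 hc0F h)
      obtain ⟨p, hBp, hgood, hsub, _⟩ := hK 𝒬 hg {s} s (Finset.mem_singleton_self s) c0 (hF1 c0 hc0F).1
        (hF1 c0 hc0F).2 hnc B
      refine ⟨Function.update 𝒬 s (insert p (𝒬 s)), hgood, fun S hS k z hz => hT S hS k z (hsub S hS k z hz), ?_⟩
      intro t ht
      by_cases hts : t = s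
      · subst hts
        refine ⟨p, ?_, hBp⟩
        rw [Function.update_self]
        exact Finset.mem_insert_self _ _
      · rw [Finset.mem_insert] at ht
        obtain ⟨q, hq, hBq⟩ := hB t (ht.resolve_left hts)
        refine ⟨q, ?_, hBq⟩
        rw [Function.update_of_ne hts]
        exact hq
  obtain ⟨𝒬, hg, hT, hB⟩ := stepB Finset.univ
  exact ⟨𝒬, hg, fun s => hB s (Finset.mem_univ s), hT⟩

end Pool.TW
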