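import Pool.Agent.Helper34.TW.DefsB

/-!
# Project TW, statements A: the group theory and the linear algebra

All proofs are complete in the comments.  Vocabulary: `Pool/Agent/Helper34/TW/Defs.lean`, `DefsB.lean`.
`Γ` is a group acting on finite sets `Y s`, `s : Fin r`; `Pt Y S = ∏_(s ∈ S) Y s`; `act g m x = m (g⁻¹ • x)`;
`Ev Y S` = functions `Pt Y S → F_2` all of whose partial sums over one coordinate vanish; `pr m m' = ∑ m m'`.
-/

set_option autoImplicit false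

open scoped Pointwise NumberField
open NumberField Polynomial Pool.RG2

namespace Pool.TW

/-- `δ_a ⊗ .. + δ_b ⊗ ..`: the function `⊗_s (δ_(a s) + δ_(b s))`, that is the indicator function of the points all of
whose coordinates `x s` are in `{a s, b s}` (when `a s ≠ b s` for all `s`). -/
def cube {r : ℕ} (Y : Fin r → Type) [∀ s, DecidableEq (Y s)] {S : Finset (Fin r)} (a b : Pt Y S) : Pt Y S → ZMod 2 :=
  fun x => ∏ s : S, ((if x s = a s then 1 else 0) + if x s = b s then 1 else 0)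

/-- The sum over the coordinate `s`. -/
def ps {r : ℕ} (Y : Fin r → Type) [∀ s, Fintype (Y s)] {S : Finset (Fin r)} (s : S) (m : Pt Y S → ZMod 2) :
    Pt Y S → ZMod 2 := fun x => ∑ y : Y s, m (Function.update x s y)

/-- A1 (basics).  (1)-(5): immediate (`g • update x s y = update (g • x) s (g • y)`, reindex the sums).
(6): the projection is `∏_s (1 - ps s)` (the operators `ps s` commute, and `ps s ∘ ps s = |Y s| ps s = ps s`, since
`(ps s m)` does not depend on the coordinate `s`; they commute with `act g`, and are self-adjoint for `pr`: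
`∑_x (∑_y m(update x s y)) m'(x) = ∑_x m(x) (∑_y m'(update x s y))`).  It is the identity on `Ev` (there `ps s m = 0`),
and its image is killed by all `ps s`.  The difference `m - p m` is a sum of functions in the images of the `ps s`; we
also record: if all `ps s m` are of the form `act g m_s - m_s` for all `g` .. this is (7): a function `c : Γ → (Pt → F_2)`
such that for every `s : S` there is `n_s` with `ps s (c g) = act g n_s - n_s` for all `g`, differs from `p ∘ c` by a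
coboundary `act g n - n` (expand `1 - ∏_s (1 - ps s)` as a sum of products of `ps`, each of which has some factor
`ps s` applied first to `c g` -- they commute -- and apply the other factors to `n_s`).
(8) nondegeneracy: if `m ∈ Ev` and `pr m m' = 0` for all `m' ∈ Ev` then `m b = pr m δ_b = pr (p m) δ_b = pr m (p δ_b) = 0`.
(9): `p δ_b = ⊗_s (δ_(b s) + ∑_y δ_y) = ⊗_s ∑_(y ≠ b s) δ_y = ⊗_s ∑_(y ≠ b s) (δ_y + δ_(b s))` (the number of `y ≠ b s` is
even) `= ∑_a cube a b`, the sum over the `a` with `a s ≠ b s` for all `s`; so as in (8) `m` is `0` if `pr m (cube a b) = 0`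
for all `a, b` with `a s ≠ b s`.  (10): the partial sum of `cube a b` over the coordinate `s` is `∏_(s' ≠ s) (..) * (1+1) = 0`. -/
def StA1 : Prop :=
  ∀ (Γ : Type) [Group Γ] (r : ℕ) (Y : Fin r → Type) [∀ s, Fintype (Y s)] [∀ s, DecidableEq (Y s)] [∀ s, MulAction Γ (Y s)]
    (S : Finset (Fin r)),
    -- (1)
    (∀ (g : Γ) (m m' : Pt Y S → ZMod 2), act Y g (m + m') = act Y g m + act Y g m') ∧
    -- (2)
    (∀ m : Pt Y S → ZMod 2, act Y (1 : Γ) m = m) ∧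
    -- (3)
    (∀ (g h : Γ) (m : Pt Y S → ZMod 2), act Y (g * h) m = act Y g (act Y h m)) ∧
    -- (4)
    (∀ (g : Γ) (m : Pt Y S → ZMod 2), m ∈ Ev Y S → act Y g m ∈ Ev Y S) ∧
    -- (5)
    (∀ (g : Γ) (m m' : Pt Y S → ZMod 2), pr Y (act Y g m) (act Y g m') = pr Y m m') ∧
    ((∀ s, Odd (Fintype.card (Y s))) →
      -- (6), (7)
      (∃ p : (Pt Y S → ZMod 2) →ₗ[ZMod 2] (Pt Y S → ZMod 2), (∀ m, p m ∈ Ev Y S) ∧ (∀ m ∈ Ev Y S, p m = m) ∧
        (∀ (g : Γ) (m : Pt Y S → ZMod 2), p (act Y g m) = act Y g (p m)) ∧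
        (∀ m m' : Pt Y S → ZMod 2, pr Y (p m) m' = pr Y m (p m')) ∧
        (∀ c : Γ → Pt Y S → ZMod 2, (∀ s : S, ∃ n : Pt Y S → ZMod 2, ∀ g, ps Y s (c g) = act Y g n - n) →
          ∃ n : Pt Y S → ZMod 2, ∀ g, c g = p (c g) + (act Y g n - n))) ∧
      -- (8)
      (∀ m ∈ Ev Y S, (∀ m' ∈ Ev Y S, pr Y m m' = 0) → m = 0) ∧
      -- (9)
      (∀ m ∈ Ev Y S, (∀ a b : Pt Y S, (∀ s, a s ≠ b s) → pr Y m (cube Y a b) = 0) → m = 0)) ∧
    -- (10)
    (∀ a b : Pt Y S, cube Y a b ∈ Ev Y S)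

/-- A2 (commuting idempotents).  For disjoint `S, T` let `d(S, T)` be the dimension of
`{v : e_s v = 0 (s ∈ S), e_s v = v (s ∈ T)}`.  For `t ∉ S ∪ T` this space is stable under `e_t` (commuting), and is the
direct sum of its subspaces `e_t = 0` and `e_t = 1`: `d(S, T) = d(S ∪ t, T) + d(S, T ∪ t)`.  Induction on `S`:
`d(S, T) = ∑_(U ⊆ S) (-1)^|U| d(∅, T ∪ U)`; take `T = ∅`. -/
def StA2 : Prop :=
  ∀ (V : Type) [AddCommGroup V] [Module (ZMod 2) V] [Module.Finite (ZMod 2) V] (ι : Type) [DecidableEq ι] (S : Finset ι)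
    (e : ι → V →ₗ[ZMod 2] V), (∀ s ∈ S, ∀ v, e s (e s v) = e s v) → (∀ s ∈ S, ∀ t ∈ S, ∀ v, e s (e t v) = e t (e s v)) →
    (Module.finrank (ZMod 2) (⨅ s ∈ S, LinearMap.ker (e s) : Submodule (ZMod 2) V) : ℤ) =
      ∑ T ∈ S.powerset, (-1) ^ T.card *
        (Module.finrank (ZMod 2) (⨅ s ∈ T, LinearMap.ker (e s - LinearMap.id) : Submodule (ZMod 2) V) : ℤ)

/-- The number of orbits of `g` on the points. -/
noncomputable def orb {Γ : Type} [Group Γ] {r : ℕ} (Y : Fin r → Type) [∀ s, MulAction Γ (Y s)] (T : Finset (Fin r))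
    (g : Γ) : ℕ := Nat.card (MulAction.orbitRel.Quotient (Subgroup.zpowers g) (Pt Y T))

/-- A3 (the dimension of the fixed vectors of `g` in `Ev`).  `V` = functions on `Pt Y S` fixed by `g`; on it the
commuting idempotents `e_s = ps s` (A1); `FixEv` is the intersection of the kernels of the `e_s`; for `T ⊆ S` the space
`{e_s v = v, s ∈ T}` is the space of functions not depending on the coordinates in `T` (if `e_s v = v` then `v` does not
depend on `s`; conversely then `e_s v = |Y s| v = v`) and fixed by `g`, that is the functions on `Pt Y (S \ T)` fixed by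
`g` = functions on the orbits, dimension `orb Y (S \ T) g`.  Apply A2 and reindex `T ↦ S \ T`. -/
def StA3 : Prop :=
  StA1 → StA2 → ∀ (Γ : Type) [Group Γ] (r : ℕ) (Y : Fin r → Type) [∀ s, Fintype (Y s)] [∀ s, DecidableEq (Y s)] [∀ s, MulAction Γ (Y s)]
    (S : Finset (Fin r)) (g : Γ), (∀ s, Odd (Fintype.card (Y s))) →
    (fixD Y S g : ℤ) = ∑ T ∈ S.powerset, (-1) ^ (S.card - T.card) * (orb Y T g : ℤ)

/-- `g` acts on every `Y s` as a cycle of length `|Y s| - 1` and a fixed point. -/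
def IsTau {Γ : Type} [Group Γ] {r : ℕ} (Y : Fin r → Type) [∀ s, Fintype (Y s)] [∀ s, MulAction Γ (Y s)] (g : Γ) : Prop :=
  ∀ s, ∃ y0 : Y s, g • y0 = y0 ∧ (∀ y y' : Y s, y ≠ y0 → y' ≠ y0 → ∃ k : ℕ, g ^ k • y = y') ∧
    ∀ y : Y s, y ≠ y0 → ∀ k : ℕ, g ^ k • y = y ↔ (Fintype.card (Y s) - 1) ∣ k

/-- A4 (fixed vectors of a killing element).  Let `C_s = Y s ∖ {y0}`.  A function `m ∈ Ev` is determined by its
restriction to `∏ C_s`, which is arbitrary (the value at a point with a coordinate `y0` is the sum of the values over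
`y ∈ C_s` at this coordinate; formally: `Ev ≅ Fun(∏ C_s)` by restriction, with inverse
`n ↦ (x ↦ ∑ n(y))`, the sum over the `y ∈ ∏ C_s` with `y s = x s` for all `s` with `x s ≠ y0`).  This is equivariant for `g`,
so `FixEv` is the space of functions on the set of orbits of `g` on `∏ C_s`; every orbit has exactly
`lcm_s (N_s - 1)` elements (`g^k` fixes a point iff all `N_s - 1` divide `k`), so there are `∏ (N_s - 1) / lcm` orbits. -/
def StA4 : Prop :=
  ∀ (Γ : Type) [Group Γ] (r : ℕ) (Y : Fin r → Type) [∀ s, Fintype (Y s)] [∀ s, DecidableEq (Y s)] [∀ s, MulAction Γ (Y s)]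
    (S : Finset (Fin r)) (g : Γ), (∀ s, 3 ≤ Fintype.card (Y s)) → IsTau Y g →
    fixD Y S g * S.lcm (fun s => Fintype.card (Y s) - 1) = ∏ s ∈ S, (Fintype.card (Y s) - 1)

/-- A5 (`H^1(S_N, Ev) = 0` for `N` odd).  Fix `y0`.  `λ(g) = w g y0` is a homomorphism on the stabiliser of `y0`
(`w (g h) y0 = w g y0 + w h (g⁻¹ y0) = w g y0 + w h y0`), which is isomorphic to the symmetric group on the `N - 1 ≥ 2` other
points: `λ = 0` or `λ = sign` (in `ZMod 2`): the transpositions in the stabiliser are conjugate in it, so `λ` has the same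
value `ε` on all of them, and they generate it.  Put `w' g y = w g y + ε sgn(g)` (`sgn` with values in `ZMod 2`); it
satisfies the same cocycle relation, and `λ' = 0`.  Define `m (g y0) = w' g (g y0)` (well defined since
`w' (g h) (g h y0) = w' g (g y0) + w' h (y0) = w' g (g y0)` for `h` in the stabiliser; every point is some `g y0`).  For
`y = k y0`: `w' (g (g⁻¹ k)) (k y0) = w' g (k y0) + w' (g⁻¹ k) (g⁻¹ k y0)`, i.e. `m y = w' g y + m (g⁻¹ y)`.  Sum over `y`: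
`∑_y w' g y = 0`, but `∑_y w' g y = 0 + N ε sgn(g) = ε sgn(g)`; take `g` a transposition: `ε = 0`.  Finally replace `m` by
`m + ∑ m` (constant; `N` is odd). -/
def StA5 : Prop :=
  ∀ (Y : Type) [Fintype Y] [DecidableEq Y], Odd (Fintype.card Y) → 3 ≤ Fintype.card Y →
    ∀ w : Equiv.Perm Y → Y → ZMod 2, (∀ g h y, w (g * h) y = w g y + w h (g⁻¹ y)) → (∀ g, ∑ y, w g y = 0) →
    ∃ m : Y → ZMod 2, ∑ y, m y = 0 ∧ ∀ g y, w g y = m (g⁻¹ y) - m y

/-- A6 (a cocycle vanishing on the kernel is a coboundary).  Let `H = {h ∈ Γ' acting trivially on all Y s}`; it is normal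
in `Γ`.  Choose `s0 ∈ S` and `z ∈ Γ'` acting on `Y s0` as a cycle of length `N = |Y s0|` and trivially on the other `Y s`.
The fixed vectors of `z` in `Ev` are `0` (for `s ∈ S`: such a function is constant in the coordinate `s0`, with partial sum
`N * value = value = 0`); so `m ↦ act z m - m` is bijective on `Ev`, and there is `m ∈ Ev` with `w z = act z m - m`.  Replace
`w` by `w - ∂m` (still `0` on `H`): `w z = 0`.  If `g ∈ Γ` acts trivially on `Y s0` then `h = g z g⁻¹ z⁻¹ ∈ Γ'` (commutator)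
acts trivially on everything, so it is in `H`, and `g z = h z g`: `w(g z) = w g + act g (w z) = w g`,
`w(h z g) = w h + w(z g) = w z + act z (w g) = act z (w g)`; so `w g = act z (w g)`, `w g = 0`.
Let `Γ_1` be the normal subgroup of the elements acting trivially on `Y s0`.  For `γ ∈ Γ_1` and `g ∈ Γ`:
`w g = w (g γ) = w ((g γ g⁻¹) g) = act (g γ g⁻¹) (w g)`: so `w g` is fixed by `Γ_1`.
If `S` has another element `s1`: `Γ_1` contains an element acting as a cycle of length `|Y s1|` on `Y s1` and trivially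
elsewhere, so `w g = 0` as before (fixed vectors are `0`).  If `S = {s0}`: `w g` depends only on the permutation
`π(g)` of `Y s0` (`w (g γ) = w g`), all permutations occur: we get `w' : Perm (Y s0) → Ev`, apply StA5. -/
def StA6 : Prop :=
  ∀ (Γ : Type) [Group Γ] (r : ℕ) (Y : Fin r → Type) [∀ s, Fintype (Y s)] [∀ s, DecidableEq (Y s)] [∀ s, MulAction Γ (Y s)],
    (∀ s, Odd (Fintype.card (Y s))) → (∀ s, 3 ≤ Fintype.card (Y s)) →
    ∀ (Γ' : Subgroup Γ), (∀ a b : Γ, a * b * a⁻¹ * b⁻¹ ∈ Γ') →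
    (∀ π : (s : Fin r) → Equiv.Perm (Y s), ∃ g ∈ Γ', ∀ s (y : Y s), g • y = π s y) →
    ∀ S : Finset (Fin r), S.Nonempty → ∀ w : Γ → Pt Y S → ZMod 2, IsCoc0 Y w →
    (∀ h ∈ Γ', (∀ s (y : Y s), h • y = y) → w h = 0) → CobOn Y Set.univ w

/-- A7 (independence of several cocycles on the kernel).  Let `H = {h ∈ Γ' acting trivially on all Y s}`.  For `h ∈ H`
and `c ∈ W S` the map `h ↦ c h` is a homomorphism, and `c (g h g⁻¹) = act g (c h)` for `g ∈ Γ`.  Choose bases `c_(S,i)` of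
the `W S`.  The set of all vectors `(c_(S,i) h)_(S,i)`, `h ∈ H`, is a subspace of `⊕_(S,i) Ev Y S`.  Suppose it is not
everything.  Then (A1 (8)) there are `m_(S,i) ∈ Ev Y S`, not all `0`, with `∑_(S,i) pr (c_(S,i) h) m_(S,i) = 0` for all
`h ∈ H`; the set `L` of such families is a subspace stable under `Γ'` (`pr (c (g⁻¹ h g)) m = pr (act g⁻¹ (c h)) m = pr (c h) (act g m)`).
Choose `S0` of maximal cardinality with some `m_(S0,i) ≠ 0`.  For `s ∈ S0` let `t_s ∈ Γ'` act as the transposition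
`(a_s b_s)` on `Y s` and trivially elsewhere.  `1 + act t_s` kills the functions on `Pt Y S` if `s ∉ S`, and maps `m` on
`Pt Y S`, `s ∈ S`, to the function `x ↦ [x_s ∈ {a_s, b_s}] (m(update x s a_s) + m(update x s b_s))`.  So
`∏_(s ∈ S0) (1 + act t_s)` kills all `m_(S,i)` with `S ≠ S0` (either `m_(S,i) = 0` or `S0 ⊄ S`) and maps `m_(S0,i)` to
`(pr m_(S0,i) (cube a b)) • cube a b`.  By A1 (9) one can choose `a, b` such that `λ_i = pr m_(S0,i) (cube a b)` is `≠ 0` for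
some `i`.  Then `w = ∑ λ_i c_(S0,i) ≠ 0` satisfies `pr (w h) (cube a b) = 0` for all `h ∈ H`; as `L` is stable under `Γ'`
(which permutes transitively the `cube a b`, all permutations occur) `pr (w h) (cube a' b') = 0` for all `a', b'` with
`a' s ≠ b' s`, so `w h = 0` for all `h ∈ H` (A1 (9)), and `w = 0` by hypothesis: contradiction. -/
def StA7 : Prop :=
  StA1 → ∀ (Γ : Type) [Group Γ] (r : ℕ) (Y : Fin r → Type) [∀ s, Fintype (Y s)] [∀ s, DecidableEq (Y s)]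
    [∀ s, MulAction Γ (Y s)], (∀ s, Odd (Fintype.card (Y s))) →
    ∀ (Γ' : Subgroup Γ), (∀ a b : Γ, a * b * a⁻¹ * b⁻¹ ∈ Γ') →
    (∀ π : (s : Fin r) → Equiv.Perm (Y s), ∃ g ∈ Γ', ∀ s (y : Y s), g • y = π s y) →
    ∀ W : (S : Finset (Fin r)) → Submodule (ZMod 2) (Γ → Pt Y S → ZMod 2), (∀ S, Module.Finite (ZMod 2) (W S)) →
    (∀ S, ∀ w ∈ W S, IsCoc0 Y w) →
    (∀ S, ∀ w ∈ W S, (∀ h ∈ Γ', (∀ s (y : Y s), h • y = y) → w h = 0) → w = 0) →
    ∀ ψ : (S : Finset (Fin r)) → W S →ₗ[ZMod 2] Ev Y S,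
    ∃ h ∈ Γ', (∀ s (y : Y s), h • y = y) ∧ ∀ S, ∀ w : W S, w.1 h = (ψ S w : Pt Y S → ZMod 2)

/-- A8 (prescribing the values of cocycles at an element of given action).  From StA6 and StA7: the hypothesis of StA7 on
`w ∈ W S` holds by StA6 for `S` nonempty (`w` is a coboundary, hence `0` by hypothesis), and `W ∅ = 0`.  Choose `g0 ∈ Γ'` acting
as `π`; apply StA7 to `w ↦ act g0⁻¹ (ψ S w - w g0)`: `w (g0 h) = w g0 + act g0 (w h) = ψ S w`. -/
def StA8 : Prop :=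
  StA1 → StA6 → StA7 → ∀ (Γ : Type) [Group Γ] (r : ℕ) (Y : Fin r → Type) [∀ s, Fintype (Y s)] [∀ s, DecidableEq (Y s)]
    [∀ s, MulAction Γ (Y s)], (∀ s, Odd (Fintype.card (Y s))) → (∀ s, 3 ≤ Fintype.card (Y s)) →
    ∀ (Γ' : Subgroup Γ), (∀ a b : Γ, a * b * a⁻¹ * b⁻¹ ∈ Γ') →
    (∀ π : (s : Fin r) → Equiv.Perm (Y s), ∃ g ∈ Γ', ∀ s (y : Y s), g • y = π s y) →
    ∀ W : (S : Finset (Fin r)) → Submodule (ZMod 2) (Γ → Pt Y S → ZMod 2), (∀ S, Module.Finite (ZMod 2) (W S)) →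
    W ∅ = ⊥ → (∀ S, ∀ w ∈ W S, IsCoc0 Y w) → (∀ S, ∀ w ∈ W S, CobOn Y Set.univ w → w = 0) →
    ∀ (ψ : (S : Finset (Fin r)) → W S →ₗ[ZMod 2] Ev Y S) (π : (s : Fin r) → Equiv.Perm (Y s)),
    ∃ g ∈ Γ', (∀ s (y : Y s), g • y = π s y) ∧ ∀ S, ∀ w : W S, w.1 g = (ψ S w : Pt Y S → ZMod 2)

/-- The numerical condition: `J ≤ 1` subspaces of dimension `≥ h`, or `J ≤ 2^(n-1)` subspaces of dimension `≥ h + n`. -/
def NumOK (J h d : ℕ) : Prop := (J ≤ 1 ∧ h ≤ d) ∨ ∃ n : ℕ, 1 ≤ n ∧ J ≤ 2 ^ (n - 1) ∧ h + n ≤ d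

/-- A9 (linear algebra over `F_2`).  If `J ≤ 1` and `dim W ≥ h` (no subspace: take `W = 0`-free case, any `ψ` with
`ψ c ≠ 0`): if `c ∈ W` choose a basis of `W` containing `c` and map `h` of its elements, `c` among them, onto the standard
basis; if `c ∉ W` choose `ψ` onto on `W` and extend by a nonzero value at `c`.  Second case: count.  There are `2^(h dim E)`
linear maps `ψ : E → F_2^h`.  `ψ` is not onto on `W_k` iff some nonzero linear form `l` on `F_2^h` (there are `2^h - 1`)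
satisfies `l ∘ ψ = 0` on `W_k`, which happens for a proportion `2^(- dim W_k) ≤ 2^(-h-n)` of the `ψ`; so the proportion of
the bad `ψ` for `W_k` is `< 2^(-n)` and for all `k < J` together `< 2^(n-1) 2^(-n) = 1/2` (or `= 0` if `J = 0`).  The proportion
of the `ψ` with `ψ c = 0` is `2^(-h) ≤ 1/2`.  So some `ψ` is good. -/
def StA9 : Prop :=
  ∀ (E : Type) [AddCommGroup E] [Module (ZMod 2) E] [Module.Finite (ZMod 2) E] (h J d : ℕ)
    (W : Fin J → Submodule (ZMod 2) E) (c : E), c ≠ 0 → 1 ≤ h → NumOK J h d →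
    (∀ k, d ≤ Module.finrank (ZMod 2) (W k)) →
    ∃ ψ : E →ₗ[ZMod 2] (Fin h → ZMod 2), (∀ k, (W k).map ψ = ⊤) ∧ ψ c ≠ 0

/-- A10 (duality for one element).  `X = FixEv Y S g`, of dimension `h`, with basis `x_i`.  `pr` is nondegenerate on `Ev`
(A1 (8)), so there are `m_i ∈ Ev` with `pr m_i x_j = δ_ij`. -/
def StA10 : Prop :=
  StA1 → ∀ (Γ : Type) [Group Γ] (r : ℕ) (Y : Fin r → Type) [∀ s, Fintype (Y s)] [∀ s, DecidableEq (Y s)]
    [∀ s, MulAction Γ (Y s)], (∀ s, Odd (Fintype.card (Y s))) → ∀ (S : Finset (Fin r)) (g : Γ),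
    ∃ (x : Module.Basis (Fin (fixD Y S g)) (ZMod 2) (FixEv Y S g)) (m : Fin (fixD Y S g) → Ev Y S),
      ∀ i j, pr Y (m i : Pt Y S → ZMod 2) (x j : Pt Y S → ZMod 2) = if i = j then 1 else 0

/-- A11 (killing element).  `E S` finite-dimensional spaces of cocycles meeting the coboundaries in `0`, `W S k ≤ E S`
(`k < J S`), `c0 ∈ E S0` nonzero; `𝒮` a set of nonempty subsets.  Choose `g0 ∈ Γ'` acting as the given `π` (with `IsTau`).
For `S ∈ 𝒮 ∪ {S0}` let `h = fixD Y S g0` (it only depends on `π`), `x_i`, `m_i` as in A10, and let `ψ_S : E S → F_2^h` be given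
by A9 for the subspaces `W S k` (if `S ∈ 𝒮`; no subspaces otherwise; for `S0` with `c = c0`, for the others with any nonzero
`c ∈ E S`; if `E S = 0` then, as `h ≥ 1`, there is no subspace of dimension `≥ h`, so `J S = 0` or `d < h`.. in this case
`NumOK (J S) h d` and `d ≤ finrank (W S k) = 0` show `J S = 0`: nothing to prove).  Put
`ψ S w = ∑_i (ψ_S w)_i m_i`.  By A8 there is `g ∈ Γ'` acting as `π` with `w g = ψ S w` for all `S` and `w ∈ E S`.  For
`z ∈ FixEv Y S g = FixEv Y S g0`, `z = ∑ z_i x_i`: `pr z (w g) = ∑_i z_i (ψ_S w)_i`.  If this is `0` for all `w ∈ W S k` then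
`z = 0` (as `ψ_S` is onto on `W S k`).  And `(ψ_(S0) c0)_i ≠ 0` for some `i`: take `x = x_i`. -/
def StA11 : Prop :=
  StA1 → StA8 → StA9 → StA10 → ∀ (Γ : Type) [Group Γ] (r : ℕ) (Y : Fin r → Type) [∀ s, Fintype (Y s)]
    [∀ s, DecidableEq (Y s)] [∀ s, MulAction Γ (Y s)], (∀ s, Odd (Fintype.card (Y s))) →
    (∀ s, 3 ≤ Fintype.card (Y s)) → ∀ (Γ' : Subgroup Γ), (∀ a b : Γ, a * b * a⁻¹ * b⁻¹ ∈ Γ') →
    (∀ π : (s : Fin r) → Equiv.Perm (Y s), ∃ g ∈ Γ', ∀ s (y : Y s), g • y = π s y) →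
    ∀ E : (S : Finset (Fin r)) → Submodule (ZMod 2) (Γ → Pt Y S → ZMod 2), (∀ S, Module.Finite (ZMod 2) (E S)) →
    E ∅ = ⊥ → (∀ S, ∀ w ∈ E S, IsCoc0 Y w) → (∀ S, ∀ w ∈ E S, CobOn Y Set.univ w → w = 0) →
    ∀ g0 : Γ, IsTau Y g0 → (∀ S, 1 ≤ fixD Y S g0) →
    ∀ (𝒮 : Finset (Finset (Fin r))) (J d : Finset (Fin r) → ℕ)
      (W : (S : Finset (Fin r)) → Fin (J S) → Submodule (ZMod 2) (Γ → Pt Y S → ZMod 2)),
    (∀ S ∈ 𝒮, ∀ k, W S k ≤ E S ∧ d S ≤ Module.finrank (ZMod 2) (W S k)) →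
    (∀ S ∈ 𝒮, NumOK (J S) (fixD Y S g0) (d S)) →
    ∀ S0 : Finset (Fin r), ∀ c0 ∈ E S0, c0 ≠ 0 →
    ∃ g ∈ Γ', (∀ s (y : Y s), g • y = g0 • y) ∧
      (∀ S ∈ 𝒮, ∀ k, ∀ z ∈ FixEv Y S g, (∀ w ∈ W S k, pr Y z (w g) = 0) → z = 0) ∧
      ∃ x ∈ FixEv Y S0 g, pr Y x (c0 g) ≠ 0

/-- A12 (transport of the values to a conjugate of a power).  `N` is normal, acts trivially, and the cocycle vanishes on
`N`.  Let `n` be the order of `g` modulo `N`, `k` prime to `n`, `n` even, so `k` is odd; `φ = γ g^k γ⁻¹ ν`, `ν ∈ N`.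
`g^n ∈ N` acts trivially, and `g` is a power of `g^k` modulo `N`: so an element is fixed by `g` iff by `g^k`, and
`act φ = act (γ g^k γ⁻¹)`: this gives the first assertion.  `c φ = c (γ g^k γ⁻¹) = c γ + act γ (c (g^k)) + act (γ g^k) (c (γ⁻¹))`
and `c (γ⁻¹) = - act γ⁻¹ (c γ)`, `c (g^k) = ∑_(i<k) act (g^i) (c g)`; for `x` fixed by `g`:
`pr (act γ x) (c γ) = pr (act γ x) (act (γ g^k γ⁻¹) (c γ))` and `pr (act γ x) (act γ (c (g^k))) = k pr x (c g) = pr x (c g)`. -/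
def StA12 : Prop :=
  StA1 → ∀ (Γ : Type) [Group Γ] (r : ℕ) (Y : Fin r → Type) [∀ s, Fintype (Y s)] [∀ s, DecidableEq (Y s)]
    [∀ s, MulAction Γ (Y s)] (N : Subgroup Γ) [N.Normal], (∀ n ∈ N, ∀ s (y : Y s), n • y = y) →
    ∀ (g γ φ : Γ) (k : ℕ), Nat.Coprime k (orderOf (g : Γ ⧸ N)) → Even (orderOf (g : Γ ⧸ N)) →
    φ⁻¹ * (γ * g ^ k * γ⁻¹) ∈ N → ∀ S : Finset (Fin r),
    (∀ x, x ∈ FixEv Y S φ ↔ ∃ x' ∈ FixEv Y S g, x = act Y γ x') ∧
    ∀ c : Γ → Pt Y S → ZMod 2, IsCoc0 Y c → (∀ n ∈ N, c n = 0) → ∀ x ∈ FixEv Y S g,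
      pr Y (act Y γ x) (c φ) = pr Y x (c g)

/-- A13 (numbers, one or two or three factors).  `N_s = 2 g_s + 1`, `g_s ≥ 1`, pairwise coprime, so the `g_s` are distinct
when `|S| ≥ 2`.  `a = 2^(n-1) ∏ g_s`, `n = |S|`; `h lcm (2 g_s) = 2^n ∏ g_s`.
`n = 1`: `h = 1 ≤ g = a`, and `t = g * (the number of p < 0) = 0` (here `j = 0`).
`n = 2`: `t = g1 g2` for `j = 1`; `h = 2 gcd(g1, g2)`; with `g1 = d a`, `g2 = d b`, `a ≠ b`: `g1 g2 = d² a b ≥ 2 d = h`.
`n = 3`: `a = 4 g`, `t = g` for `j = 1`, `g = g1 g2 g3`; `h = 4 g / lcm (g_s) ≤ 2 g` as the lcm is `≥ 2`; `h + t ≤ 3 g`. -/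
def StA13 : Prop :=
  ∀ (r : ℕ) (N : Fin r → ℕ), (∀ s, Odd (N s)) → (∀ s, 3 ≤ N s) → (∀ s t, s ≠ t → Nat.Coprime (N s) (N t)) →
    ∀ (S : Finset (Fin r)) (h : ℕ), h * S.lcm (fun s => N s - 1) = ∏ s ∈ S, (N s - 1) →
    (S.card = 1 → 1 ≤ h ∧ h ≤ (∏ s ∈ S, (N s - 1)) / 2) ∧
    (S.card = 2 ∨ S.card = 3 → 1 ≤ h ∧ h + ∏ s ∈ S, (N s / 2) ≤ (∏ s ∈ S, (N s - 1)) / 2)

/-- A14 (numbers, `n = |S| ≥ 4` factors).  As in A13, `g = ∏ g_s`; the `g_s` are distinct and `≥ 1`, so `g ≥ n!`, and the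
`N_s` are distinct odd numbers `≥ 3`, pairwise coprime; `3, 5, 7, 9` cannot all occur, so the largest of `n ≥ 4` of them is
`≥ 2 n + 3`, i.e. the largest `g_s` is `≥ n + 1`, so `L = lcm (g_s) ≥ n + 1`.  (Proof: if all `N_s ≤ 2n + 1` then the
`n` distinct odd numbers `N_s` are exactly `3, 5, .., 2n+1`, which contain `3` and `9` as `n ≥ 4`.)
`a = 2^(n-1) g`, `h = 2^(n-1) g / L`, and for `1 ≤ j ≤ n/2`: `∑_(p<j) C(n,p) ≤ (2^n - C(n, ⌊n/2⌋)) / 2` (the sum over `p < n/2`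
counts, by symmetry, at most half of the terms other than the middle one), and `C(n, ⌊n/2⌋) ≥ 2^n / n`
(`Nat.four_pow_le_two_mul_self_mul_centralBinom` and similar; for `n` odd even better).  So
`a - t ≥ g C(n, ⌊n/2⌋) / 2 ≥ g 2^(n-1) / n`, and it suffices that `g 2^(n-1) (1/n - 1/(n+1)) ≥ n`, i.e.
`g 2^(n-1) ≥ n² (n+1)`: true as `g ≥ n!` and `n! 2^(n-1) ≥ n² (n+1)` for `n ≥ 4` (`192 ≥ 80`, induction). -/
def StA14 : Prop :=
  ∀ (r : ℕ) (N : Fin r → ℕ), (∀ s, Odd (N s)) → (∀ s, 3 ≤ N s) → (∀ s t, s ≠ t → Nat.Coprime (N s) (N t)) →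
    ∀ (S : Finset (Fin r)) (h : ℕ), h * S.lcm (fun s => N s - 1) = ∏ s ∈ S, (N s - 1) → 4 ≤ S.card →
    1 ≤ h ∧ ∀ j : ℕ, 1 ≤ j → 2 * j ≤ S.card →
      h + S.card + (∏ s ∈ S, (N s / 2)) * (∑ p ∈ Finset.range j, S.card.choose p) ≤ (∏ s ∈ S, (N s - 1)) / 2

end Pool.TW
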