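import Pool.Agent.Helper34.TW.DefsC

/-!
# Project TW, statements C: from cocycles to number fields, and the reciprocity law for cocycles

Useful proved facts: `Pool/Agent/Helper54/DG/CaseC.lean` (Kummer theory in degree 2: `exists_kum`, `exists_z`, `dec_step`,
`ine_step`, `lift_int`, ..), `Pool/Agent/Helper2/RG/Base.lean`, `Pool.RG.StProf`, `StLift`, `StConj` (proved: Helper52/RG/M_PROF,
Helper2/RG/M_LIFT, Helper45/RG/M_CONJ; `Pool.RG.Dec` etc. are definitionally equal to `Pool.RG2.Dec` etc.).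
-/

set_option autoImplicit false

open scoped Pointwise NumberField TensorProduct
open NumberField Polynomial IsDedekindDomain Pool.RG2
open Pool.Agent.Helper54.HQ (Prm hs hs2 hsR hasse IsSym lg)

namespace Pool.TW

/-- C0 (the fields `KS f θ`).  (1) transitivity: for `x, y` in `∏ roots` choose permutations with `π_s (x_s) = y_s`
(identity for `s ∉ S`) and apply `Hyp.gal`.  (2) `g` fixes `θ` iff it fixes the generators `θ_s` of `KS f θ`.
(3) the stabiliser is the fixing subgroup of a finite extension: open.  (4) `[KS : ℚ]` = index of the stabiliser = size of the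
orbit.  (5) `F` equivariant: `F θ` is fixed by the stabiliser `GF (KS f θ)`, so lies in `KS f θ` (`Pool.RG.CC.mem_of_fixed`); the
embeddings of `KS f θ` in `Qb` correspond to the points `y = g θ` (`g` restricted to `KS`; every embedding is the restriction
of some `g`), with `g (F θ) = F y`; `Algebra.norm_eq_prod_embeddings`. -/
def StC0 : Prop :=
  ∀ (r : ℕ) (f : Fin r → ℤ[X]), Hyp f → ∀ S : Finset (Fin r), (∀ x y : Pt (RY f) S, ∃ g : GQ, g • x = y) ∧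
    ∀ θ : Pt (RY f) S, (∀ g : GQ, g • θ = θ ↔ g ∈ GF (KS f θ)) ∧ IsOpen {g : GQ | g • θ = θ} ∧
      Module.finrank ℚ (KS f θ) = Fintype.card (Pt (RY f) S) ∧
      ∀ F : Pt (RY f) S → Qb, (∀ (g : GQ) x, g (F x) = F (g • x)) →
        ∃ z : KS f θ, (z : Qb) = F θ ∧ ((Algebra.norm ℚ z : ℚ) : Qb) = ∏ y, F y

/-- C1 (Kummer functions exist).  Choose `θ`.  On the open subgroup `H` = stabiliser of `θ` the map `h ↦ c h θ` is a
homomorphism to `ZMod 2`, `0` on an open subgroup; so there is `β ≠ 0` in `Qb` with `h β = sg (c h θ) β` for `h ∈ H` (if the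
homomorphism is trivial `β = 1`; otherwise its kernel `N` has relative index 2 in `H`; `H = GF F` for the fixed field `F` of `H`
(`Pool.RG.CC.GF_fixed`), and `Pool.RG.CC.exists_kum`).  Put `b (g θ) = sg (c g (g θ)) g β`: well defined, since
`c (g h) (g θ) = c g (g θ) + c h θ` for `h ∈ H`.  For `x = k θ`:
`g (b x) = sg (c k (k θ)) g k β = sg (c k x) sg (c (g k) (g x)) b (g x)` and `c (g k) (g x) = c g (g x) + c k x`. -/
def StC1 : Prop :=
  ∀ (X : Type) [MulAction GQ X], (∀ x y : X, ∃ g : GQ, g • x = y) → (∀ x : X, IsOpen {g : GQ | g • x = x}) →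
    ∀ c : GQ → X → ZMod 2, XCoc c → ∃ b : X → Qb, IsKum c b

/-- C2 (formal properties of Kummer functions).  (1) `sg` is a homomorphism with values `±1`.  (2) squares are equivariant.
(3) products.  (4) `b² = h²` with `h` equivariant iff `c` is a coboundary: `b x = sg (m x) h x` with `m : X → ZMod 2`
(`b x = ± h x`), and `g (b x) = sg (m x) h (g x) = sg (m x + m (g x)) b (g x)`, so `c g (g x) = m x + m (g x)`; conversely put
`h x = sg (m x) b x`. -/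
def StC2 : Prop :=
  (∀ a b : ZMod 2, sg (a + b) = sg a * sg b) ∧ (∀ a : ZMod 2, sg a ^ 2 = 1) ∧ (∀ a b : ZMod 2, sg a = sg b → a = b) ∧
  ∀ (X : Type) [MulAction GQ X] (c : GQ → X → ZMod 2) (b : X → Qb), IsKum c b →
    (∀ (g : GQ) x, g (b x ^ 2) = b (g • x) ^ 2) ∧
    (∀ (c' : GQ → X → ZMod 2) (b' : X → Qb), IsKum c' b' → IsKum (fun g x => c g x + c' g x) (fun x => b x * b' x)) ∧
    ((∃ m : X → ZMod 2, ∀ g x, c g x = m (g⁻¹ • x) - m x) ↔
      ∃ h : X → Qb, (∀ (g : GQ) x, g (h x) = h (g • x)) ∧ ∀ x, b x ^ 2 = h x ^ 2)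

/-- C3 (the norm is a square).  `b²` is equivariant (C2); C0 (5): the norm of `z` is `∏_y b y ^ 2 = (∏_y b y)²`, and
`g (∏ b y) = sg (∑_y c g y) ∏ b y = ∏ b y` since the sum of all values of an element of `Ev`, `S` nonempty, is `0`; so `∏ b y` is
rational. -/
def StC3 : Prop :=
  StC0 → StC2 → ∀ (r : ℕ) (f : Fin r → ℤ[X]), Hyp f → ∀ S : Finset (Fin r), S.Nonempty → ∀ θ : Pt (RY f) S,
    ∀ c : GQ → Pt (RY f) S → ZMod 2, IsCoc (RY f) c → ∀ b : Pt (RY f) S → Qb, IsKum c b →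
    ∀ z : KS f θ, (z : Qb) = b θ ^ 2 → IsSquare (Algebra.norm ℚ z)

/-- C4 (even valuations).  If `z` is a square in `K`: clear.  Otherwise `N = {g ∈ GF K : g β = β}` is open, normal in `GF K`, of
relative index 2 (`g β = ± β`), `β` is Kummer data (`Pool.RG.CC.Kum`, `σ` any element of `GF K` with `σ β = -β`), and
`Pool.RG.CC.ine_step` applies (its `StLift` is proved: Helper2/RG/M_LIFT). -/
def StC4 : Prop :=
  ∀ (K : Sub) [NumberField K] (Q : Finset ℕ) (β : Qb) (z : K), z ≠ 0 → (z : Qb) = β ^ 2 →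
    (∀ P : Ideal Zb, Out 2 Q P → ∀ g ∈ GF K ⊓ Ine P, g β = β) →
    ∀ v : HeightOneSpectrum (𝓞 K), (2 : 𝓞 K) ∉ v.asIdeal → (∀ q ∈ Q, (q : 𝓞 K) ∉ v.asIdeal) → om v z = 0

/-- C5 (the prime below `P0`).  As C4, with `Pool.RG.CC.dec_step` (`StProf` is proved). -/
def StC5 : Prop :=
  ∀ (K : Sub) [NumberField K] (P0 : Ideal Zb), P0.IsMaximal → ∀ v0 : HeightOneSpectrum (𝓞 K),
    (∀ a : 𝓞 K, a ∈ v0.asIdeal ↔ algebraMap (𝓞 K) Zb a ∈ P0) → ∀ (β : Qb) (z : K), z ≠ 0 → (z : Qb) = β ^ 2 →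
    (∀ g ∈ GF K ⊓ Dec P0, g β = β) → ∃ y : K, v0.valuation K (z * y ^ 2 - 1) < v0.valuation K 4

/-- C5a (squares at 2).  `2` generates the prime `v0`.  `z y² = 1 + e`, `v0(e) > v0(4) = 2`; so `e = 8 η`,
`v0(η) ≥ 0`, `η = a / m`, `a ∈ 𝓞 K`, `m` an odd integer (as in B2: the ideal of denominators of `η` is prime to `2`).  In
`R = ℤ_2 ⊗ 𝓞 K` (free of finite rank over `ℤ_2`, so complete) the equation `t = η - 2 t²` has a solution (contraction;
or Hensel's lemma for `2 T² + T - η`, derivative `1 + 4 T` a unit), and `(1 + 4 t)² = 1 + 8 (t + 2 t²) = 1 + 8 η`.  So `1 ⊗ z y²` is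
a square in `ℚ_2 ⊗ K`, and `y ≠ 0` as `v0(e) > 0`. -/
def StC5a : Prop :=
  ∀ (K : Type) [Field K] [NumberField K], Prime (2 : 𝓞 K) → ∀ v0 : HeightOneSpectrum (𝓞 K), (2 : 𝓞 K) ∈ v0.asIdeal →
    ∀ z y : K, v0.valuation K (z * y ^ 2 - 1) < v0.valuation K 4 → IsSquare ((1 : ℚ_[2]) ⊗ₜ[ℚ] z)

/-- C5b (`2` is inert).  Let `v` be a prime of `K = KS f θ` above `2`, `k` its residue field, `d = [k : F_2]`.  The reduction
`θ̄_s` is a root of `f_s mod 2`, irreducible of degree `N_s`; so `N_s ∣ d` for all `s ∈ S`; as the `N_s` are pairwise coprime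
`∏ N_s ∣ d`.  But `d ≤ [K : ℚ] = ∏_(s ∈ S) N_s` (C0; `|roots of f_s| = N_s` since `f_s mod 2`, irreducible over `F_2`, hence `f_s`
itself, is separable), with `2^[K:ℚ] = |𝓞 K / 2| = |𝓞 K / v| * ..`: so `𝓞 K / 2 → 𝓞 K / v` is bijective, `(2) = v` is
prime. -/
def StC5b : Prop :=
  StC0 → ∀ (r : ℕ) (f : Fin r → ℤ[X]), Hyp f → ∀ (S : Finset (Fin r)) (θ : Pt (RY f) S), Prime (2 : 𝓞 (KS f θ))

/-- C6 (the real place).  `A = ℝ ⊗ K` is a finite-dimensional reduced `ℝ`-algebra (`K/ℚ` separable), so `A = ∏ A/𝔪` over its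
maximal ideals, each `A/𝔪` is `ℝ` or `ℂ`; `z` is a square in `A` iff it is a square in each `A/𝔪`, automatic if this is `ℂ`.
If `A/𝔪 = ℝ` we get an embedding `φ : K → ℝ`, the only one; the other embeddings `K → ℂ` come in pairs of conjugates, so
`N(z) = φ(z) ∏ |ψ(z)|²` and as `N(z)` is a nonzero square, `φ(z) > 0`.  (Alternatively `K = ℚ(α)`, `A = ℝ[x]/m` with `m` the
minimal polynomial, a product of distinct irreducible polynomials of degree 1, at most one of them, or 2.) -/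
def StC6 : Prop :=
  ∀ (K : Type) [Field K] [NumberField K], (∀ φ φ' : K →+* ℝ, φ = φ') → ∀ z : K, z ≠ 0 →
    IsSquare (Algebra.norm ℚ z) → IsSquare ((1 : ℝ) ⊗ₜ[ℚ] z)

/-- C6b.  An embedding of `KS f θ` in `ℝ` is determined by the images of the `θ_s`, which are real roots of `f_s`: unique. -/
def StC6b : Prop :=
  ∀ (r : ℕ) (f : Fin r → ℤ[X]), Hyp f → ∀ (S : Finset (Fin r)) (θ : Pt (RY f) S) (φ φ' : KS f θ →+* ℝ), φ = φ'

/-- C7 (the primes above a good prime `q` are the orbits of Frobenius).  `K = KS f θ`.  For `y = γ θ` let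
`V y = {a ∈ 𝓞 K : γ a ∈ P}`, a prime of `K` above `q`, independent of `γ` (if `γ' θ = γ θ` then `γ⁻¹ γ' ∈ GF K`, C0).  (3) if `v` is a
prime above `q`, there is a maximal ideal `P'` of `Zb` above `v`, and `P' = g P` for some `g` (`Pool.RG.StProf`, `K = ℚ`, as both
contain `q`): `v = V (g⁻¹ θ)`.  (2) if `y' = φ^k y` then `V y' = V y` as `φ P = P` (`φ x ∈ P ⟺ x^q ∈ P ⟺ x ∈ P`).  Conversely,
`V y = V y'`, `y = γ θ`, `y' = γ' θ`: `γ⁻¹ P` and `γ'⁻¹ P` have the same intersection with `K`, so `h γ⁻¹ P = γ'⁻¹ P` for some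
`h ∈ GF K` (StProf): `d = γ' h γ⁻¹ ∈ Dec P` and `d y = γ' h θ = y'`.  `d` induces an automorphism of the residue field `Zb/P`
(algebraic over `F_q`), and on the finite subfield generated by the residues of the roots of all `f_s` it is `x ↦ x^(q^k)`
for some `k`; so `d x - φ^k x ∈ P` for every root `x`, hence `d x = φ^k x` (`GoodAt`), `y' = φ^k y`.
(5) Let `m` be the size of the `φ`-orbit of `y` and `|𝓞 K / V y| = q^d`.  For the integers `y_s = γ θ_s`: `θ_s^(q^d) ≡ θ_s mod V y`, so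
`φ^d y_s ≡ y_s^(q^d) ≡ y_s mod P`, so `φ^d y_s = y_s` (GoodAt): `m ∣ d`, `m ≤ d`.  Now
`[K : ℚ] = ∑_(v | q) e_v d_v ≥ ∑_v d_v ≥ ∑_v m_v = |Pt| = [K : ℚ]` (by (2), (3) the primes are the orbits): all
`e_v = 1` -- this is (4) -- and `d_v = m_v`. -/
def StC7 : Prop :=
  StC0 → ∀ (r : ℕ) (f : Fin r → ℤ[X]), Hyp f → ∀ (S : Finset (Fin r)) (θ : Pt (RY f) S) (q : ℕ), q.Prime →
    ∀ (P : Ideal Zb) (φ : GQ), P.IsMaximal → (q : Zb) ∈ P → (∀ x : Zb, φ • x - x ^ q ∈ P) →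
    (∀ s ∈ S, GoodAt (f s) P) →
    ∃ V : Pt (RY f) S → HeightOneSpectrum (𝓞 (KS f θ)),
      (∀ (γ : GQ) (a : 𝓞 (KS f θ)), a ∈ (V (γ • θ)).asIdeal ↔ γ • (algebraMap (𝓞 (KS f θ)) Zb a) ∈ P) ∧
      (∀ y y', V y = V y' ↔ ∃ k : ℕ, y' = φ ^ k • y) ∧
      (∀ v : HeightOneSpectrum (𝓞 (KS f θ)), (q : 𝓞 (KS f θ)) ∈ v.asIdeal → ∃ y, V y = v) ∧
      (∀ y, (q : 𝓞 (KS f θ)) ∈ (V y).asIdeal ∧ (q : 𝓞 (KS f θ)) ∉ (V y).asIdeal ^ 2) ∧
      ∀ y, Nat.card (𝓞 (KS f θ) ⧸ (V y).asIdeal) = q ^ (Function.minimalPeriod (fun x => φ • x) y)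

/-- C8 (the value at the inertia element).  `n = v(z)`: `z q^(-n) = a / b` with `a, b ∈ 𝓞 K ∖ v` (`v(q) = 1`).
`u = β / w^n`, `t = γ(b) u`: `t² = γ(a b) ∈ Zb ∖ P`, so `t ∈ Zb`, `t ∉ P`.  `σ` fixes `γ(b)`, `γ(ab)`, so `σ t = ± t`, and
`σ t - t ∈ P` excludes the sign `-` (`2 t ∉ P`).  So `σ β = σ(w)^n σ(u) = (-1)^n w^n u`. -/
def StC8 : Prop :=
  ∀ (K : Sub) [NumberField K] (q : ℕ), q.Prime → q ≠ 2 → ∀ (dt : LocData q) (γ : GQ), (∀ x ∈ K, dt.σ (γ x) = γ x) →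
    ∀ v : HeightOneSpectrum (𝓞 K), (∀ a : 𝓞 K, a ∈ v.asIdeal ↔ γ • (algebraMap (𝓞 K) Zb a) ∈ dt.P) →
    (q : 𝓞 K) ∈ v.asIdeal → (q : 𝓞 K) ∉ v.asIdeal ^ 2 → ∀ (z : K) (β : Qb), z ≠ 0 → β ^ 2 = γ (z : Qb) →
    dt.σ β = sg (om v z) * β

/-- C9 (the value at the Frobenius element).  With `n, a, b, u, t` as in C8: `φ w = w`, so it is enough to show that
`φ^m t = t` iff `ep q v z = 0`.  `φ^m x ≡ x^(q^m) mod P` for all `x ∈ Zb` (induction; `φ` preserves `P`).  `φ^m t = ± t`, and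
`φ^m t ≡ t^(q^m) = t (t²)^((q^m - 1)/2) = t γ((a b)^((q^m-1)/2))`; the residue of `a b` in `𝓞 K / v`, a field with `q^m` elements,
is nonzero, and `(a b)^((q^m-1)/2) ≡ 1` or `-1 mod v` according to whether it is a square (Euler's criterion); by the
hypothesis on `v` the same congruence holds for `γ(..)` modulo `P`.  As `t, 2 ∉ P`, `φ^m t = t` iff `a b` is a square modulo `v`,
iff `z q^(-n) = a b / b²` is a square times an element `≡ 1 mod v`, iff `ep q v z = 0` (compare B1). -/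
def StC9 : Prop :=
  ∀ (K : Sub) [NumberField K] (q : ℕ), q.Prime → q ≠ 2 → ∀ (dt : LocData q) (γ : GQ) (m : ℕ), 1 ≤ m →
    (∀ x ∈ K, (dt.φ ^ m) (γ x) = γ x) →
    ∀ v : HeightOneSpectrum (𝓞 K), (∀ a : 𝓞 K, a ∈ v.asIdeal ↔ γ • (algebraMap (𝓞 K) Zb a) ∈ dt.P) →
    (q : 𝓞 K) ∈ v.asIdeal → (q : 𝓞 K) ∉ v.asIdeal ^ 2 → Nat.card (𝓞 K ⧸ v.asIdeal) = q ^ m →
    ∀ (z : K) (β : Qb), z ≠ 0 → β ^ 2 = γ (z : Qb) → (dt.φ ^ m) β = sg (ep q v z) * β

/-- C10 (the local pairing).  `V y` as in C7 (`P = dt.P`).  `σ ∈ Ine P` acts trivially on `Pt` (`σ x - x ∈ P` for the roots `x`,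
GoodAt).  For `y = γ θ`: `b y ^ 2 = γ(z)` (C2 (2)), and `σ (b y) = sg (c σ y) b y`, so by C8 `c σ y = om (V y) z`.  Let `m` be the
size of the `φ`-orbit of `y`: `φ^m (b y) = sg (c' (φ^m) y) b' y`, `c' (φ^m) y = ∑_(i<m) c' φ (φ^(-i) y)` is the sum of
`c' φ` over the orbit, and by C9 (`φ^m` fixes `y`, i.e. fixes `γ K`, C0) it is `ep q (V y) z'`.  So
`pr (c σ) (c' φ) = ∑_y om (V y) z * c' φ y = ∑_(v ∈ V) om v z * ep q v z'` (group by orbits = primes, C7).  Same with `c, c'`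
exchanged. -/
def StC10 : Prop :=
  StC0 → StC2 → StC7 → StC8 → StC9 → ∀ (r : ℕ) (f : Fin r → ℤ[X]), Hyp f → ∀ (S : Finset (Fin r)) (θ : Pt (RY f) S) (q : ℕ),
    q.Prime → q ≠ 2 → ∀ dt : LocData q, (∀ s ∈ S, GoodAt (f s) dt.P) → ∀ V : Finset (HeightOneSpectrum (𝓞 (KS f θ))),
    (∀ v, v ∈ V ↔ (q : 𝓞 (KS f θ)) ∈ v.asIdeal) → ∀ (c c' : GQ → Pt (RY f) S → ZMod 2) (b b' : Pt (RY f) S → Qb),
    XCoc c → XCoc c' → IsKum c b → IsKum c' b' → ∀ z z' : KS f θ, (z : Qb) = b θ ^ 2 → (z' : Qb) = b' θ ^ 2 →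
    lp f dt c c' = ∑ v ∈ V, (om v z * ep q v z' + om v z' * ep q v z)

/-- C11a (monogenic fields).  `F = ℚ(x)`, `f x = 0`, `𝓞 F = ℤ[x]` (`Hyp.mono`), `f` is the minimal polynomial of `x` (monic,
irreducible modulo 2).  The conductor of `ℤ[x]` is `1`, so the different is generated by `f'(x)`
(`conductor_mul_differentIdeal`). -/
def StC11a : Prop :=
  ∀ (r : ℕ) (f : Fin r → ℤ[X]), Hyp f → ∀ (s : Fin r) (x : Rt (f s)) (F : Sub) [NumberField F],
    F = IntermediateField.adjoin ℚ {x.1} →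
    ∃ δ : 𝓞 F, differentIdeal ℤ (𝓞 F) = Ideal.span {δ} ∧ ((δ : F) : Qb) = aeval x.1 (derivative (f s))

/-- C11b (composite of fields with coprime differents): `Mathlib/RingTheory/DedekindDomain/LinearDisjoint.lean`
(`differentIdeal_eq_map_differentIdeal` and transitivity of the different).  The images of `K₁`, `K₂` in `L` generate `L`, and are
linearly disjoint because of the degrees. -/
def StC11b : Prop :=
  ∀ (K₁ K₂ L : Type) [Field K₁] [NumberField K₁] [Field K₂] [NumberField K₂] [Field L] [NumberField L] [Algebra K₁ L]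
    [Algebra K₂ L], Module.finrank ℚ L = Module.finrank ℚ K₁ * Module.finrank ℚ K₂ →
    (∀ F : Subfield L, (∀ x : K₁, algebraMap K₁ L x ∈ F) → (∀ x : K₂, algebraMap K₂ L x ∈ F) → F = ⊤) →
    ∀ (δ₁ : 𝓞 K₁) (δ₂ : 𝓞 K₂), differentIdeal ℤ (𝓞 K₁) = Ideal.span {δ₁} → differentIdeal ℤ (𝓞 K₂) = Ideal.span {δ₂} →
    ∀ d₁ d₂ : 𝓞 L, (d₁ : L) = algebraMap K₁ L δ₁ → (d₂ : L) = algebraMap K₂ L δ₂ → IsCoprime d₁ d₂ →
    differentIdeal ℤ (𝓞 L) = Ideal.span {d₁ * d₂}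

/-- C11 (principal different).  Extend `θ` to a full tuple if necessary; induction on a subset `T ⊆ S`: for
`K_T = ℚ(θ_s, s ∈ T)` the different is generated by `∏_(s ∈ T) f_s'(θ_s)`.  `T = ∅`: `K = ℚ`, different `1`.  Step, `s ∉ T`:
C11b for `K_T`, `ℚ(θ_s)` (C11a) and `K_(T ∪ s)`; the degrees are `∏ N_t`, by C0 (4) (the degree of `K_T` is `|Pt (RY f) T|`).
Coprimality: otherwise some maximal ideal `P` of `Zb` contains `f_s'(θ_s) = ∏_(x ≠ θ_s) (θ_s - x)` (product over the other roots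
of `f_s`, monic, separable) and some `f_t'(θ_t)`, `t ≠ s`: then neither `GoodAt (f s) P` nor `GoodAt (f t) P`, contradicting
`Hyp.disc`.  (An ideal `≠ 1` of `𝓞 L`, `L ⊆ Qb`, is contained in a maximal ideal of `Zb`.) -/
def StC11 : Prop :=
  StC0 → StC11a → StC11b → ∀ (r : ℕ) (f : Fin r → ℤ[X]), Hyp f → ∀ (S : Finset (Fin r)) (θ : Pt (RY f) S),
    ∃ δ : 𝓞 (KS f θ), differentIdeal ℤ (𝓞 (KS f θ)) = Ideal.span {δ}

/-- REC (reciprocity law for cocycles): the statement used in the sequel. -/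
def StREC : Prop :=
  ∀ (r : ℕ) (f : Fin r → ℤ[X]), Hyp f → ∀ P0 : Ideal Zb, P0.IsMaximal → (2 : Zb) ∈ P0 → ∀ (dt : Dat) (S : Finset (Fin r)),
    S.Nonempty → ∀ Q : Finset ℕ, (∀ q ∈ Q, GP f q) → ∀ c c' : GQ → Pt (RY f) S → ZMod 2, IsCoc (RY f) c →
    IsCoc (RY f) c' → Unr f Q c → Unr f Q c' → CobOn (RY f) (Dec P0 : Set GQ) c → ∑ q ∈ Q, lpd f dt q c c' = 0

/-- C12: proof of REC.  Choose a point `θ`, `K = KS f θ`; Kummer functions `b, b'` of `c, c'` (C1, with C0 (1), (3)),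
`z = b θ ^ 2`, `z' = b' θ ^ 2` in `K^*` (equivariance, C0 (5)).  Norms are squares (C3); principal different (C11); `1 ⊗ z`
is a square in `ℝ ⊗ K` (C6, C6b) and in `ℚ_2 ⊗ K`: `c g = act g m - m` on `Dec P0`, so `c g θ = m (g⁻¹ θ) - m θ = 0` for
`g ∈ GF K ⊓ Dec P0`, `g β = β` for `β = b θ`: C5 for the prime `v0` of `K` below `P0`, C5a, C5b.  `om v z = om v z' = 0` for `v`
outside `2`, `Q`: C4, since for `Out 2 Q P` the restriction of `c` to `Ine P` is a coboundary (`Unr`), so `c g θ = 0` for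
`g ∈ GF K ⊓ Ine P`.  For `q ∈ Q`: `UnrAt K q (V q)` with `V q` the finite set of the primes above `q` (C7 (3), (4)), `q % 4 = 1`.
Now B10 gives `∑_q ∑_(v ∈ V q) (om v z * ep q v z' + om v z' * ep q v z) = 0` and by C10 the inner sums are `lpd f dt q c c'`. -/
def StC12 : Prop :=
  (∀ (K : Type) [Field K] [NumberField K] (δ : 𝓞 K),
    differentIdeal ℤ (𝓞 K) = Ideal.span {δ} → ∀ (Q : Finset ℕ) (V : ℕ → Finset (HeightOneSpectrum (𝓞 K))),
    (∀ q ∈ Q, q % 4 = 1 ∧ UnrAt K q (V q)) → ∀ z w : K, z ≠ 0 → w ≠ 0 → IsSquare (Algebra.norm ℚ z) →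
    IsSquare (Algebra.norm ℚ w) → IsSquare ((1 : ℚ_[2]) ⊗ₜ[ℚ] z) → IsSquare ((1 : ℝ) ⊗ₜ[ℚ] z) →
    (∀ v : HeightOneSpectrum (𝓞 K), (2 : 𝓞 K) ∉ v.asIdeal → (∀ q ∈ Q, (q : 𝓞 K) ∉ v.asIdeal) →
      om v z = 0 ∧ om v w = 0) →
    ∑ q ∈ Q, ∑ v ∈ V q, (om v z * ep q v w + om v w * ep q v z) = 0) →
  StC0 → StC1 → StC2 → StC3 → StC4 → StC5 → StC5a → StC5b → StC6 → StC6b → StC7 → StC10 → StC11 → StREC

end Pool.TW
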