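import Pool.Agent.Helper34.TW.DefsC

/-!
# Project TW, statements D: existence of primes with given Frobenius element (Frobenius' density theorem), local data

Proved facts on primes of `Zb = 𝓞 Qb`: `Pool.RG.StProf`, `StLift`, `StConj` (Helper52/RG/M_PROF, Helper2/RG/M_LIFT,
Helper45/RG/M_CONJ); `Pool.RG.Dec` etc. are definitionally equal to `Pool.RG2.Dec` etc.
-/

set_option autoImplicit false

open scoped Pointwise NumberField
open NumberField Polynomial IsDedekindDomain Pool.RG2 Filter Topology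

namespace Pool.TW

/-! ### The sum over the primes of degree one -/

/-- D1 (logarithm of the zeta function).  For real `s > 1`: `ζ_K(s) = ∑_(I ≠ 0) N(I)^(-s)` (`dedekindZeta` is the L-series of the
number of ideals of norm `n`; it converges for `s > 1`: the partial sums of the coefficients are `O(n)`,
`Ideal.tendsto_norm_le_div_atTop₀`, `LSeriesSummable_of_..`).  For a finite set `T` of primes,
`∏_(v ∈ T) (1 - N(v)^(-s))⁻¹ = ∑ N(I)^(-s)` over the products `I` of powers of elements of `T` (unique factorisation; finite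
product of geometric series), so it is `≤ ζ_K(s)`, and any finite partial sum of `ζ_K(s)` is `≤` such a product for `T` large.  With
`x ≤ -log (1 - x) ≤ x + x²` for `0 ≤ x ≤ 1/2`: `∑_v N(v)^(-s) ≤ log ζ_K(s) ≤ ∑_v N(v)^(-s) + ∑_v N(v)^(-2 s)`, and
`∑_v N(v)^(-2) ≤ ∑_p [K : ℚ] p^(-2) < ∞` (at most `[K : ℚ]` primes above `p`, each of norm `≥ p`).  So the sum over the primes
converges and `C = ∑_v N(v)^(-2)` works. -/
def StD1 : Prop :=
  ∀ (K : Type) [Field K] [NumberField K], ∃ C : ℝ, ∀ s : ℝ, 1 < s →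
    Summable (fun v : HeightOneSpectrum (𝓞 K) => (Ideal.absNorm v.asIdeal : ℝ) ^ (-s)) ∧
    1 ≤ (dedekindZeta K s).re ∧
    |(∑' v : HeightOneSpectrum (𝓞 K), (Ideal.absNorm v.asIdeal : ℝ) ^ (-s)) - Real.log (dedekindZeta K s).re| ≤ C

/-- D2.  `(s - 1) ζ_K(s)` tends to a positive limit at `1⁺` (`tendsto_sub_one_mul_dedekindZeta_nhdsGT`), so there is
`η > 0` such that `|log ζ_K(s) - log (1/(s-1))| ≤ C₁` for `1 < s ≤ 1 + η`; for `1 + η ≤ s ≤ 2` the function `ζ_K` is between `1`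
and `ζ_K(1 + η)` (decreasing: series with nonnegative coefficients), and `log (1/(s-1))` is bounded. -/
def StD2 : Prop :=
  StD1 → ∀ (K : Type) [Field K] [NumberField K], ∃ C : ℝ, ∀ s : ℝ, 1 < s → s ≤ 2 →
    Summable (fun v : HeightOneSpectrum (𝓞 K) => (Ideal.absNorm v.asIdeal : ℝ) ^ (-s)) ∧
    |(∑' v : HeightOneSpectrum (𝓞 K), (Ideal.absNorm v.asIdeal : ℝ) ^ (-s)) - Real.log (1 / (s - 1))| ≤ C

/-- The number of primes of norm `p`. -/
noncomputable def nd (K : Type) [Field K] [NumberField K] (p : ℕ) : ℕ :=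
  Nat.card {v : HeightOneSpectrum (𝓞 K) // Ideal.absNorm v.asIdeal = p}

/-- D3 (primes of degree one).  Every prime `v` contains a unique prime number `p`, `N(v) = p^f`, `f ≥ 1`; there are at most
`[K : ℚ]` primes containing `p`.  Those with `f ≥ 2` contribute at most `∑_p [K : ℚ] p^(-2)` to the sum of D2; the others are
those with `N(v) = p` prime: their contribution is `∑_p nd K p p^(-s)`, `nd K p ≤ [K : ℚ]`. -/
def StD3 : Prop :=
  StD1 → StD2 → ∀ (K : Type) [Field K] [NumberField K], ∃ C : ℝ, (∀ p : ℕ, p.Prime → nd K p ≤ Module.finrank ℚ K) ∧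
    ∀ s : ℝ, 1 < s → s ≤ 2 →
    Summable (fun p : Nat.Primes => (nd K p : ℝ) * (p : ℝ) ^ (-s)) ∧
    |(∑' p : Nat.Primes, (nd K p : ℝ) * (p : ℝ) ^ (-s)) - Real.log (1 / (s - 1))| ≤ C

/-! ### Primes of degree one of a field and fixed cosets -/

/-- D4 (primes of norm `p` of the fixed field of `H`).  `Ine P ≤ N`; all `γ⁻¹ P` have the same property (`N` normal).
To a coset `x = γ H` with `φ x = x`, i.e. `γ⁻¹ φ γ ∈ H`, attach the prime `v = {a ∈ 𝓞 F : γ a ∈ P}` (independent of `γ`).  The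
element `φ' = γ⁻¹ φ γ ∈ H` fixes `F` and satisfies `φ' a ≡ a^p mod γ⁻¹ P`: so `a^p ≡ a mod v` for `a ∈ 𝓞 F`, so `𝓞 F / v`
has `p` elements.  Surjective: `v` of norm `p`; `v` contains `p`; a maximal ideal of `Zb` above `v` contains `p`, so it is
`γ⁻¹ P` for some `γ` (StProf for `ℚ`).  With `φ' = γ⁻¹ φ γ ∈ Dec (γ⁻¹ P)`: `φ' a ≡ a^p ≡ a` for `a ∈ 𝓞 F`, so by StProf (ii)
there is `h ∈ GF F ⊓ Dec(γ⁻¹ P)`, `GF F = H`, with `h x ≡ φ' x mod γ⁻¹ P` for all `x`: `φ'⁻¹ h ∈ Ine (γ⁻¹ P) ≤ N ≤ H`, so `φ' ∈ H`.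
Injective: if `γ H`, `γ' H` give the same `v`, then `γ⁻¹ P` and `γ'⁻¹ P` have the same intersection with `F`, so
`h γ⁻¹ P = γ'⁻¹ P` with `h ∈ H`: `d = γ' h γ⁻¹ ∈ Dec P`.  Let `M` be the fixed field of `N` (Galois, finite over `ℚ`);
`d` acts on the finite residue field of `M` at `P` as some power of Frobenius, i.e. like `φ^k`, `k ∈ ℕ`: `φ^(-k) d` acts trivially
on it, so by StLift (`F = ℚ`, `L = M`) it is in `Ine P * N = N`.  So `d = φ^k ν`, `ν ∈ N`, and `γ' H = γ' h H = d γ H = φ^k ν γ H = φ^k γ H = γ H`. -/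
def StD4 : Prop :=
  ∀ (N H : Subgroup GQ), IsOpen (N : Set GQ) → N.Normal → N ≤ H → ∀ (F : Sub) [NumberField F],
    F = IntermediateField.fixedField H → ∀ (p : ℕ), p.Prime → ∀ (P : Ideal Zb) (φ : GQ), P.IsMaximal → (p : Zb) ∈ P →
    (∀ x : Zb, φ • x - x ^ p ∈ P) → Ine P ≤ N → nd F p = Nat.card {x : GQ ⧸ H // φ • x = x}

/-- D5 (fixed cosets of subgroups of a cyclic group).  Let `G = Γ / N`, `C = ⟨ḡ⟩` of order `d`, `C_n = ⟨ḡ^n⟩` of order
`d / n` for `n ∣ d`; `Γ / (N ⊔ ⟨g^n⟩) = G / C_n`.  The number of fixed points of `x ∈ G` on `G / C_n` is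
`#{γ ∈ G : γ⁻¹ x γ ∈ C_n} * n / d`.  So the sum is `(1/d) ∑_(γ ∈ G) ∑_(n | d, γ⁻¹xγ ∈ C_n) μ(n)`; the inner sum is `0` if
`γ⁻¹ x γ ∉ C`, and if `γ⁻¹ x γ = ḡ^a` it is `∑_(n | gcd(a, d)) μ(n) = [gcd(a, d) = 1]` (`ḡ^a ∈ C_n` iff `n ∣ a`, for
`n ∣ d`).  If the sum is not `0` there is `γ` with `γ⁻¹ φ γ ∈ g^a N`, `a` prime to `d`. -/
def StD5 : Prop :=
  ∀ (Γ : Type) [Group Γ] (N : Subgroup Γ) [N.Normal] [N.FiniteIndex] (g φ : Γ),
    (∑ n ∈ (orderOf (g : Γ ⧸ N)).divisors, (ArithmeticFunction.moebius n : ℚ) / n *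
      Nat.card {x : Γ ⧸ (N ⊔ Subgroup.zpowers (g ^ n)) // φ • x = x}) ≠ 0 →
    ∃ (γ : Γ) (k : ℕ), Nat.Coprime k (orderOf (g : Γ ⧸ N)) ∧ φ⁻¹ * (γ * g ^ k * γ⁻¹) ∈ N

/-- D6 (only finitely many ramified primes).  Let `M` be the fixed field of `N`, `α ∈ 𝓞 Qb` with `M = ℚ(α)`, `α_i` its
conjugates over `ℚ`, `D = ∏_(i ≠ j) (α_i - α_j)`, a nonzero integer.  If `P` is a maximal ideal above `p > |D|` then `D ∉ P`
(otherwise `P ∩ ℤ ∋ D, p`), and for `σ ∈ Ine P`: `σ α - α ∈ P`, so `σ α = α` (otherwise `D ∈ P`), so `σ ∈ GF M = N`. -/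
def StD6 : Prop :=
  ∀ N : Subgroup GQ, IsOpen (N : Set GQ) → ∃ B : ℕ, ∀ p : ℕ, p.Prime → B < p → ∀ P : Ideal Zb, P.IsMaximal →
    (p : Zb) ∈ P → Ine P ≤ N

/-- D7 (Frobenius elements exist): `Ideal.Quotient.stabilizerHom_surjective_of_profinite` (or `StProf`): the
automorphism `x ↦ x^p` of the residue field `Zb / P` (algebraic over `F_p`) is induced by an element of `Dec P`. -/
def StD7 : Prop :=
  ∀ (p : ℕ), p.Prime → (∃ P : Ideal Zb, P.IsMaximal ∧ (p : Zb) ∈ P) ∧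
    ∀ P : Ideal Zb, P.IsMaximal → (p : Zb) ∈ P → ∃ φ : GQ, ∀ x : Zb, φ • x - x ^ p ∈ P

/-- FROB (Frobenius density theorem, qualitative form): the statement used in the sequel. -/
def StFROB : Prop :=
  ∀ N : Subgroup GQ, IsOpen (N : Set GQ) → ∀ [N.Normal] (g : GQ) (B : ℕ), ∃ p : ℕ, p.Prime ∧ B < p ∧
    ∀ P : Ideal Zb, P.IsMaximal → (p : Zb) ∈ P → Ine P ≤ N ∧ ∀ φ : GQ, (∀ x : Zb, φ • x - x ^ p ∈ P) →
      ∃ (γ : GQ) (k : ℕ), Nat.Coprime k (orderOf (g : GQ ⧸ N)) ∧ φ⁻¹ * (γ * g ^ k * γ⁻¹) ∈ N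

/-- D8: proof of FROB.  `d = orderOf g` in `GQ/N` (finite index: open in a compact group).  For `n ∣ d` let `F_n` be the
fixed field of `H_n = N ⊔ ⟨g^n⟩` (finite over `ℚ`).  Let `B₀ ≥ B` be larger than the bound of D6.  Suppose no prime `p > B₀`
works.  For `p > B₀` and `P ∋ p`: `Ine P ≤ N`.  If for some `P, φ` there are `γ, k` as required, then the same is true for all
`P', φ'` above `p`: `P' = h P`, and `h φ h⁻¹`, `φ'` are both Frobenius elements at `P'`, so they differ by an element of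
`Ine P' ≤ N`.  So for all `P ∋ p` and `φ` there are no `γ, k`, hence by D5 and D4 `∑_(n | d) μ(n)/n nd F_n p = 0` for all
`p > B₀` (take one `P`, `φ` from D7).  Multiply by `p^(-s)` and sum over `p`: by D3,
`∑_(n | d) μ(n)/n (log (1/(s-1)) + O(1))` is bounded for `1 < s ≤ 2` (only the finitely many `p ≤ B₀` contribute).  But
`∑_(n | d) μ(n)/n = φ(d)/d > 0`, contradiction as `s → 1⁺`. -/
def StD8 : Prop := StD1 → StD2 → StD3 → StD4 → StD5 → StD6 → StD7 → StFROB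

/-! ### Local data, ramification -/

/-- D9 (local data exist).  `P` maximal above `q`, `φ₀` Frobenius (D7), `w² = q`.  Let `L = ℚ(w)`, `τ ∈ GQ` with `τ w = -w`
(`q` is not a square in `ℚ`).  For `x ∈ 𝓞 Qb ∩ L`, `x = (a + b w)` with `2a, 2b ∈ ℤ` (`2 a` = trace, `(2 b)² q = (2a)² - 4 N(x)`
is an integer, so `2 b ∈ ℤ` as `q` is squarefree): `τ x - x = -2 b w ∈ P` since `w ∈ P`.  `StLift` (`F = ℚ`, `L`): there is
`σ ∈ Ine P` with `σ⁻¹ τ ∈ GF L`, so `σ w = -w`.  If `φ₀ w = w` take `φ = φ₀`, otherwise `φ = φ₀ σ`: it is again a Frobenius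
element (`σ x - x ∈ P` and `φ₀ P ⊆ P`). -/
def StD9 : Prop := StD7 → ∀ q : ℕ, q.Prime → q ≠ 2 → Nonempty (LocData q)

/-- D10 (Minkowski).  Let `F` be the fixed field of `U`, a number field (`U` is open).  `F` is unramified over `ℚ` at all
primes: for a prime `v` of `F` take `P` above it; `Ine P ≤ U = GF F`; if `v` was ramified over `p`, then in the Galois closure
`M` of `F` the inertia group of `P ∩ M` in `Gal(M/ℚ)` would not be contained in `Gal(M/F)` (orders: `e(P/p) = e(P/v) e(v/p)`); it is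
the image of `Ine P` (StLift).  (Alternatively replace `U` by the normal subgroup `∩ g U g⁻¹`, which contains all inertia
groups as well: then `F` is Galois and the inertia groups of `Gal(F/ℚ)` are trivial.)  Then `F = ℚ`, as
`NumberField.exists_not_isUnramifiedIn` etc. (`Mathlib/NumberTheory/NumberField/ExistsRamified.lean`). -/
def StD10 : Prop :=
  ∀ U : Subgroup GQ, IsOpen (U : Set GQ) → (∀ P : Ideal Zb, P.IsMaximal → Ine P ≤ U) → U = ⊤

/-- The elements fixing `√-1`, `√2` and the `√q`, `q ∈ Q`. -/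
noncomputable def Gp (Q : Finset ℕ) : Subgroup GQ where
  carrier := {g | ∀ y : Qb, (y ^ 2 = -1 ∨ y ^ 2 = 2 ∨ ∃ q ∈ Q, y ^ 2 = (q : Qb)) → g y = y}
  mul_mem' := by
    intro a b ha hb y hy
    change a (b y) = y
    rw [hb y hy, ha y hy]
  one_mem' := fun y _ => rfl
  inv_mem' := by
    intro a ha y hy
    have h := ha y hy
    change a.symm y = y
    rw [AlgEquiv.symm_apply_eq, h]

/-- D11 (good primes and the group `Gp Q`).  (1) commutators: every `g` maps each such `y` to `± y`.  (2) open: it contains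
the fixing subgroup of a finite extension.  (3) `2 ∈ P`: let `x ≠ x'` be roots of `f_s` with `x - x' ∈ P`; then `f_s mod 2` has a
double root in the field `Zb/P` (`f_s = ∏ (X - x)` over all roots with multiplicity, monic), but it is irreducible over the
perfect field `F_2`, hence separable.  (4) if `GoodAt (f s) P` then `σ ∈ Ine P` fixes the roots: `σ x - x ∈ P`.  (5) if
`2 ∉ P` and `q ∉ P` for `q ∈ Q`, `Ine P ≤ Gp Q`: otherwise `σ y = -y` for some of the `y`, and `2 y ∈ P`, `4 y² ∈ P`,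
`y² ∈ {-1, 2} ∪ Q`: contradiction.  (6) `U = N₀ ⊔ Gp Q`, `N₀` = the elements acting trivially on all roots (normal,
open): `U` contains all `Ine P` by (3), (4), (5), so `U = ⊤` (D10).  For `π` choose `g ∈ GQ` acting as `π` (`Hyp.gal`), `g = n γ`
with `n ∈ N₀`, `γ ∈ Gp Q`: `γ` acts as `π`. -/
def StD11 : Prop :=
  StD10 → ∀ (r : ℕ) (f : Fin r → ℤ[X]), Hyp f →
    (∀ P : Ideal Zb, P.IsMaximal → (2 : Zb) ∈ P → ∀ s, GoodAt (f s) P) ∧
    (∀ (P : Ideal Zb) (s : Fin r), GoodAt (f s) P → ∀ σ ∈ Ine P, ∀ x : Rt (f s), σ • x = x) ∧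
    ∀ Q : Finset ℕ, (∀ a b : GQ, a * b * a⁻¹ * b⁻¹ ∈ Gp Q) ∧ IsOpen (Gp Q : Set GQ) ∧
      ((∀ q ∈ Q, GP f q) → ∀ π : (s : Fin r) → Equiv.Perm (Rt (f s)), ∃ g ∈ Gp Q, ∀ s x, g • x = π s x)

/-- D12 (quadratic reciprocity).  (1) `φ` Frobenius at `P ∋ p`, `p` odd, `φ ∈ Gp Q`.  For `y² = -1`: `y = φ y ≡ y^p mod P`, so
`(-1)^((p-1)/2) ≡ 1 mod P` (`y` is a unit), `p ≡ 1 mod 4`.  For `y² = 2`: `2^((p-1)/2) ≡ 1 mod p`: `p ≡ ±1 mod 8`.  So
`p ≡ 1 mod 8`.  For `y² = q`, `q ∈ Q` an odd prime `≠ p`: `q` is a square modulo `p`, so `p` is a square modulo `q` (quadratic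
reciprocity, `p ≡ 1 mod 4`), and for `φ'` Frobenius at `P' ∋ q` and `y² = p`: `φ' y ≡ y^q = y p^((q-1)/2) ≡ y mod P'`; as
`φ' y = ± y` and `2 y ∉ P'`, `φ' y = y`.  (2) `p ≡ 1 mod 8`, `y² = p`: `t = (1 + y)/2` is an algebraic integer,
`t² - t = (p - 1)/4` is even, so exactly one of `t, t - 1` is in `P0 ∋ 2`; if `g ∈ Dec P0` and `g y = -y` then `g t = 1 - t`, and
`g P0 = P0`: contradiction (`t ∈ P0` implies `1 - t ∈ P0`; `t - 1 ∈ P0` implies `g (t - 1) = - t ∈ P0`). -/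
def StD12 : Prop :=
  (∀ (p : ℕ), p.Prime → p ≠ 2 → ∀ (P : Ideal Zb) (φ : GQ), P.IsMaximal → (p : Zb) ∈ P → (∀ x : Zb, φ • x - x ^ p ∈ P) →
    ∀ Q : Finset ℕ, φ ∈ Gp Q → p % 8 = 1 ∧ ∀ q ∈ Q, q.Prime → q ≠ 2 → q ≠ p → ∀ (P' : Ideal Zb) (φ' : GQ), P'.IsMaximal →
      (q : Zb) ∈ P' → (∀ x : Zb, φ' • x - x ^ q ∈ P') → ∀ y : Qb, y ^ 2 = (p : Qb) → φ' y = y) ∧
  ∀ (p : ℕ), p % 8 = 1 → ∀ P0 : Ideal Zb, P0.IsMaximal → (2 : Zb) ∈ P0 → ∀ g ∈ Dec P0, ∀ y : Qb, y ^ 2 = (p : Qb) → g y = y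

/-- D13 (killing permutation).  (1) `f_s` is irreducible over `ℚ` (it is monic and irreducible modulo 2), so separable: it
has `natDegree` roots in the algebraically closed field `Qb`.  (2) `Fintype.card (Rt (f s)) = N` odd `≥ 3`; choose a root
`y_s`, and a permutation `π_s` fixing `y_s` which is a cycle of length `N - 1` on the others; `Hyp.gal`.  (3) by `Hyp.irr2` a
Frobenius element `φ₂` at `P0 ∋ 2` (in `Dec P0`) acts on the roots of `f_s` as a cycle of length `N_s` (the roots are distinct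
modulo `P0`, D11 (1), and the residues are the conjugates `x, x², x⁴, ..` over `F_2` of one of them); the `N_s` are pairwise
coprime, so `φ₂` is transitive on `∏_(s ∈ S) Y_s` (Chinese remainder theorem), so an element of `Ev` fixed by `Dec P0` is constant
and, for `S` nonempty, its partial sums `N_s * value = value` vanish. -/
def StD13 : Prop :=
  StD7 → StD10 → StD11 → ∀ (r : ℕ) (f : Fin r → ℤ[X]), Hyp f →
    (∀ s, Fintype.card (Rt (f s)) = (f s).natDegree) ∧ (∃ g : GQ, IsTau (RY f) g) ∧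
    ∀ P0 : Ideal Zb, P0.IsMaximal → (2 : Zb) ∈ P0 → ∀ S : Finset (Fin r), S.Nonempty → ∀ m ∈ Ev (RY f) S,
      (∀ g ∈ Dec P0, act (RY f) g m = m) → m = 0

end Pool.TW
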