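import Pool.Agent.Helper34.TW.StC

/-!
# Project TW, statements E: units, and the spaces of cocycles
-/

set_option autoImplicit false

open scoped Pointwise NumberField
open NumberField Polynomial IsDedekindDomain Pool.RG2

namespace Pool.TW

/-- `u` is a unit at `P`. -/
def UnitAt (P : Ideal Zb) (u : Qb) : Prop := ∃ a b : Zb, a ∉ P ∧ b ∉ P ∧ u * (b : Qb) = a

/-- Equivariant functions whose values are units outside `Q`. -/
structure IsEqU {r : ℕ} (f : Fin r → ℤ[X]) {S : Finset (Fin r)} (Q : Finset ℕ) (F : Pt (RY f) S → Qbˣ) : Prop where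
  eqv : ∀ (g : GQ) (x : Pt (RY f) S), g (F x : Qb) = F (g • x)
  unit : ∀ x, ∀ P : Ideal Zb, P.IsMaximal → (∀ q ∈ Q, (q : Zb) ∉ P) → UnitAt P (F x : Qb)

/-- The product over the coordinate `s`. -/
noncomputable def es {r : ℕ} (f : Fin r → ℤ[X]) {S : Finset (Fin r)} (s : S) (F : Pt (RY f) S → Qbˣ) : Pt (RY f) S → Qbˣ :=
  fun x => ∏ y : Rt (f s), F (Function.update x s y)

/-- The number of orbits of the Frobenius element at `q`. -/
noncomputable def orbq {r : ℕ} (f : Fin r → ℤ[X]) (T : Finset (Fin r)) (dt : Dat) (q : ℕ) : ℕ := by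
  classical exact if h : q.Prime ∧ q ≠ 2 then orb (RY f) T (dt q h.1 h.2).φ else 0

/-- E1 (`V`-units modulo squares).  `U` = `V`-units of `K`.  `u ↦ (v(u))_(v ∈ V)` maps `U` to `ℤ^V`, with kernel the units of
`𝓞 K`, and image of finite index (it contains `h` times every basis vector, `h` the class number: `v^h` is principal).  So `U` is a
finitely generated abelian group of rank `r₁ + r₂ - 1 + |V|` (Dirichlet, `NumberField.Units.rank`), with
exactly two elements `±1` of square `1`.  For a finitely generated abelian group `A = A_tors × ℤ^ρ`: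
`[A : A²] = |A_tors : A_tors²| 2^ρ = |A[2]| 2^ρ`. -/
def StE1 : Prop :=
  ∀ (K : Type) [Field K] [NumberField K] (V : Finset (HeightOneSpectrum (𝓞 K))) (U : Subgroup Kˣ),
    (∀ u : Kˣ, u ∈ U ↔ ∀ v : HeightOneSpectrum (𝓞 K), v ∉ V → v.valuation K (u : K) = 1) →
    (U.map (powMonoidHom 2)).relIndex U =
      2 ^ (InfinitePlace.nrRealPlaces K + InfinitePlace.nrComplexPlaces K + V.card)

/-- E2 (signature).  `[K : ℚ] = ∏ N_s = n` (C0 (4) and `|Rt (f s)| = deg f_s`: StD13-type fact, given as hypothesis) is odd and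
`r₁ + 2 r₂ = n`, so `r₁ ≥ 1`; `r₁ ≤ 1` by C6b; `r₂ = (n - 1)/2`. -/
def StE2 : Prop :=
  StC0 → StC6b → ∀ (r : ℕ) (f : Fin r → ℤ[X]), Hyp f → (∀ s, Fintype.card (Rt (f s)) = (f s).natDegree) →
    ∀ (T : Finset (Fin r)) (θ : Pt (RY f) T),
    InfinitePlace.nrRealPlaces (KS f θ) + InfinitePlace.nrComplexPlaces (KS f θ) = (∏ s ∈ T, (f s).natDegree + 1) / 2

/-- E3 (the group of equivariant units).  `F ↦ F θ` is an isomorphism of the group `A` of the `IsEqU` functions onto the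
group `U` of the `V`-units of `K = KS f θ`, `V` = the primes above `Q`: `F θ ∈ K` by C0 (5); `F (γ θ) = γ (F θ)` determines `F`,
and conversely defines an equivariant function for every element of `K^*`; for a prime `v` of `K` not above `Q` and `P` above
`v` (`P` contains no `q ∈ Q`): `F θ` is a unit at `P` iff `v(F θ) = 0` (`F θ = a/b` with `a, b ∈ 𝓞 K ∖ v` if the valuation is
`0`; if the valuation is not `0` then `(F θ)^{±1} c = d`, with `c, d ∈ 𝓞 K`, `c ∉ v`, `d ∈ v`, which contradicts being a unit at `P`);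
the values at the other points at `P` are conjugate to the value at `θ` at other primes `γ⁻¹ P`.  `A` is closed under products and
inverses.  `|V| = ∑_(q ∈ Q)` number of primes above `q` `= ∑_q orbq` (C7: the primes above `q` are the orbits of `φ_q`; the primes
above different `q` are different).  E1, E2. -/
def StE3 : Prop :=
  StC0 → StC6b → StC7 → StE1 → StE2 → ∀ (r : ℕ) (f : Fin r → ℤ[X]), Hyp f →
    (∀ s, Fintype.card (Rt (f s)) = (f s).natDegree) → ∀ (dt : Dat) (Q : Finset ℕ), (∀ q ∈ Q, GP f q) →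
    ∀ T : Finset (Fin r), ∃ A : Subgroup (Pt (RY f) T → Qbˣ), (∀ F, F ∈ A ↔ IsEqU f Q F) ∧
      (A.map (powMonoidHom 2)).relIndex A = 2 ^ ((∏ s ∈ T, (f s).natDegree + 1) / 2 + ∑ q ∈ Q, orbq f T dt q)

/-- E4 (commuting idempotents on `A / A²`).  `V = A / A²` is a finite vector space over `F_2` (`T = ∅`), the `e_s` induce
commuting idempotents (`e_s (e_s x) = (e_s x)^(n_s)`, `n_s` odd).  For `T ⊆ S`, the space `{v : e_s v = v, s ∈ T}` is the image of
`A_T`: if `e_s x ≡ x` for `s ∈ T` then `x ≡ E x`, `E` = the product (composition) of the `e_s`, `s ∈ T`, and `E x ∈ A_T`.  The kernel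
of `A_T → V` is `A_T²`: if `x = y² ∈ A_T` then `x^(∏ n_s) = E x = (E y)²`, `E y ∈ A_T`, `∏ n_s` odd, so `x ∈ A_T²`.  So its
dimension is `d T`; A2 gives the dimension `D` of the intersection of the kernels; lift a basis. -/
def StE4 : Prop :=
  StA2 → ∀ (A ι : Type) [CommGroup A] [DecidableEq ι] (S : Finset ι) (e : ι → A →* A) (n : ι → ℕ) (d : Finset ι → ℕ),
    (∀ s ∈ S, Odd (n s)) → (∀ s ∈ S, ∀ x, e s (e s x) = e s x ^ n s) → (∀ s ∈ S, ∀ t ∈ S, ∀ x, e s (e t x) = e t (e s x)) →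
    (∀ T ⊆ S, ∀ B : Subgroup A, (∀ x, x ∈ B ↔ ∀ s ∈ T, e s x = x ^ n s) →
      (B.map (powMonoidHom 2)).relIndex B = 2 ^ d T) →
    ∃ (D : ℕ) (x : Fin D → A), (D : ℤ) = ∑ T ∈ S.powerset, (-1) ^ T.card * (d T : ℤ) ∧
      (∀ i, ∀ s ∈ S, IsSquare (e s (x i))) ∧ ∀ I : Finset (Fin D), IsSquare (∏ i ∈ I, x i) → I = ∅

/-- E5 (independent units).  `A` = the group of the `IsEqU` functions on `Pt (RY f) S`, `e_s = es f s` (`s ∈ S`), `n_s = N_s`:
`e_s (e_s F) = (e_s F)^(N_s)` since `e_s F` does not depend on the coordinate `s`; they commute.  For `T ⊆ S` the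
subgroup `A_T = {F : e_s F = F^(N_s), s ∈ T}` is not quite the group we want:
`A_T ⊇ A'_T :=` the functions not depending on the coordinates in `T`, and for
`F ∈ A_T`: `F^(N) = (∏_(s ∈ T) e_s) F ∈ A'_T`, `N = ∏_(s ∈ T) N_s` odd.  So `A'_T → A_T` induces an isomorphism
`A'_T / A'_T² ≅ A_T / A_T²`: surjective as `F ≡ F^N`; injective: if `F ∈ A'_T`, `F = G²`, `G ∈ A_T`, then `F^N = (G^N)²` with
`G^N ∈ A'_T`.  And `A'_T` is isomorphic to the group of the `IsEqU` functions on `Pt (RY f) (S \ T)`.  So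
`d T = (∏_(S \ T) N_s + 1)/2 + ∑_q orbq f (S \ T) dt q` (E3), and
`∑_T (-1)^|T| d T = ∑_(T ⊆ S) (-1)^(|S| - |T|) (∏_T N_s + 1)/2 + ∑_q ∑_T (-1)^(|S|-|T|) orbq f T dt q`
`= ∏_(s ∈ S) (N_s - 1) / 2 + ∑_q fixq f S dt q` (`S` nonempty, so `∑_T (-1)^|T| = 0`; A3). -/
def StE5 : Prop :=
  StA1 → StA2 → StA3 → StC0 → StC6b → StC7 → StE1 → StE2 → StE3 → StE4 → ∀ (r : ℕ) (f : Fin r → ℤ[X]), Hyp f →
    (∀ s, Fintype.card (Rt (f s)) = (f s).natDegree) → ∀ (dt : Dat) (Q : Finset ℕ), (∀ q ∈ Q, GP f q) →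
    ∀ S : Finset (Fin r), S.Nonempty →
    ∃ F : Fin (aN f S + ∑ q ∈ Q, fixq f S dt q) → (Pt (RY f) S → Qbˣ), (∀ i, IsEqU f Q (F i)) ∧
      (∀ i (s : S), ∃ G, IsEqU f Q G ∧ es f s (F i) = G ^ 2) ∧
      ∀ I : Finset (Fin (aN f S + ∑ q ∈ Q, fixq f S dt q)), (∃ G, IsEqU f Q G ∧ ∏ i ∈ I, F i = G ^ 2) → I = ∅

/-- E6 (Kummer cocycles of units).  Choose `b_i x` with `(b_i x)² = F_i x`; `g (b_i (g⁻¹ x)) = ± b_i x`; let `κ_i g x` be
the sign: `IsKum κ_i b_i`, `XCoc κ_i` (locally constant: the `b_i x` lie in a finite extension).  Let `p` be the projection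
of A1 (6) and `c_i g = p (κ_i g)`: `IsCoc`.
Unramified: let `P` be maximal, `2 ∉ P`, `q ∉ P` for `q ∈ Q`.  The `b_i x` are units at `P` (their squares are: `b b' ..`:
if `(b)² β = α`, `α, β ∈ Zb ∖ P`, then `(b β)² = α β`, so `b β ∈ Zb ∖ P`).  For `g ∈ Ine P`: `g F(x) = F(g x)` and
`g F(x) ≡ F(x) mod P` (write `F x = a/c`; congruence of units at `P`: `u ≡ u'` if `(u - u') c ∈ P` for a common denominator
`c ∉ P`).  So in an orbit of `Ine P` all `F(x)` are congruent, and the `b x` are congruent up to signs; choose `m x` so that the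
`b' x = sg (m x) b x` in one orbit are all congruent.  For `g ∈ Ine P`: `g (b' x) ≡ b' x ≡ b' (g x)` and `g (b' x) = ± b' (g x)`, so
`g (b' x) = b' (g x)` (`2 b' ∉ P`), which means `κ g (g x) = m x + m (g x)`: `κ` is the coboundary of `m` on `Ine P`,
`c = p κ` that of `p m`.
Last assertion: let `κ = ∑_I κ_i`, `b = ∏_I b_i`, `F = ∏_I F_i = b²`, `IsKum κ b`.  For `s ∈ S`: `e_s F = H²` with
`H = ∏ G_(i,s)` equivariant, so `B x = ∏_y b (update x s y) = sg (n x) H x`; `g (B x) = sg (ps s (κ g) (g x)) B (g x)`, and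
`g (B x) = sg (n x) H (g x) = sg (n x + n (g x)) B (g x)`: `ps s (κ g) = act g n - n`.  By A1 (7) `κ g = p (κ g) + (act g n' - n')`,
and `p (κ g) = ∑_I c_i g` is a coboundary by hypothesis; so `κ` is, and C2 (4) gives `F = h²`, `h` equivariant. -/
def StE6 : Prop :=
  StA1 → StC2 → ∀ (r : ℕ) (f : Fin r → ℤ[X]), Hyp f → (∀ s, Fintype.card (Rt (f s)) = (f s).natDegree) →
    ∀ (Q : Finset ℕ) (S : Finset (Fin r)) (D : ℕ) (F : Fin D → (Pt (RY f) S → Qbˣ)), (∀ i, IsEqU f Q (F i)) →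
    (∀ i (s : S), ∃ G, IsEqU f Q G ∧ es f s (F i) = G ^ 2) →
    ∃ c : Fin D → GQ → Pt (RY f) S → ZMod 2, (∀ i, IsCoc (RY f) (c i) ∧ Unr f Q (c i)) ∧
      ∀ I : Finset (Fin D), CobOn (RY f) Set.univ (∑ i ∈ I, c i) →
        ∃ h : Pt (RY f) S → Qb, (∀ (g : GQ) x, g (h x) = h (g • x)) ∧
          ∀ x, ((∏ i ∈ I, F i) x : Qb) = h x ^ 2

/-- UNI: the statement used in the sequel. -/
def StUNI : Prop :=
  ∀ (r : ℕ) (f : Fin r → ℤ[X]), Hyp f → ∀ (dt : Dat) (Q : Finset ℕ), (∀ q ∈ Q, GP f q) → ∀ S : Finset (Fin r),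
    S.Nonempty → ∃ E : Submodule (ZMod 2) (GQ → Pt (RY f) S → ZMod 2), Module.Finite (ZMod 2) E ∧
      (∀ c ∈ E, IsCoc (RY f) c ∧ Unr f Q c) ∧ (∀ c ∈ E, CobOn (RY f) Set.univ c → c = 0) ∧
      aN f S + ∑ q ∈ Q, fixq f S dt q ≤ Module.finrank (ZMod 2) E

/-- E7: proof of UNI.  `E` = span of the `c_i` of E6 for the `F_i` of E5.  Every element of `E` is `∑_(i ∈ I) c_i` for some
`I`; if it is a coboundary (e.g. `0`) then `∏_I F_i = h²` with `h` equivariant, and `h` is a unit outside `Q` (`h² = u` is a unit at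
`P`: as in E6), so `I = ∅`.  So the `c_i` are independent and `E` meets the coboundaries in `0`. -/
def StE7 : Prop :=
  (∀ (r : ℕ) (f : Fin r → ℤ[X]), Hyp f → ∀ s, Fintype.card (Rt (f s)) = (f s).natDegree) →
  (∀ (r : ℕ) (f : Fin r → ℤ[X]), Hyp f → ∀ (dt : Dat) (Q : Finset ℕ), (∀ q ∈ Q, GP f q) →
    ∀ S : Finset (Fin r), S.Nonempty →
    ∃ F : Fin (aN f S + ∑ q ∈ Q, fixq f S dt q) → (Pt (RY f) S → Qbˣ), (∀ i, IsEqU f Q (F i)) ∧
      (∀ i (s : S), ∃ G, IsEqU f Q G ∧ es f s (F i) = G ^ 2) ∧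
      ∀ I : Finset (Fin (aN f S + ∑ q ∈ Q, fixq f S dt q)), (∃ G, IsEqU f Q G ∧ ∏ i ∈ I, F i = G ^ 2) → I = ∅) →
  StA1 → StC2 → StE6 → StUNI

/-- E8 (finiteness of the 2-Selmer group of a number field).  For `z` with `om v z = 0` for all `v ∤ 2` consider the parities
`ε(z) = (om v z)_(v | 2)` (finitely many values).  If `ε(z) = ε(z')` all valuations of `z / z'` are even, `(z / z') = 𝔟²` for a
fractional ideal `𝔟`.  Choose for every value of `ε` a reference element `z_ε` (if there is one), `(z / z_ε) = 𝔟(z)²`, and for every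
pair (`ε`, ideal class) a reference element with these data; if `z`, `z'` have the same `ε` and `𝔟(z)`, `𝔟(z')` are in the same
class, then `z / z' = u y²` with `u` a unit.  The units modulo squares are finite. -/
def StE8 : Prop :=
  ∀ (K : Type) [Field K] [NumberField K], ∃ Z : Finset K, ∀ z : K, z ≠ 0 →
    (∀ v : HeightOneSpectrum (𝓞 K), (2 : 𝓞 K) ∉ v.asIdeal → om v z = 0) → ∃ z₀ ∈ Z, ∃ y : K, y ≠ 0 ∧ z = z₀ * y ^ 2

/-- FIN: the statement used in the sequel. -/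
def StFIN : Prop :=
  ∀ (r : ℕ) (f : Fin r → ℤ[X]), Hyp f → ∀ S : Finset (Fin r), S.Nonempty →
    ∃ E : Submodule (ZMod 2) (GQ → Pt (RY f) S → ZMod 2), Module.Finite (ZMod 2) E ∧
      ∀ c, IsCoc (RY f) c → Unr f ∅ c → ∃ c' ∈ E, CobOn (RY f) Set.univ (c - c')

/-- E9: proof of FIN.  `θ` a point, `K = KS f θ`, `Z` from E8.  For every `c` (IsCoc, `Unr f ∅`) there is a Kummer function `b`
(C1), `z = b θ ^ 2 ∈ K^*` (C0), `om v z = 0` for `v ∤ 2` (C4: on `Ine P`, `2 ∉ P`, `c` is a coboundary, so `c g θ = 0` for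
`g ∈ GF K ⊓ Ine P`): so `z = z₀ y²`, `z₀ ∈ Z`.  For every `z₀ ∈ Z` choose one such `c` (if there is any); `E` = their span.  If
`c`, `c'` have the same `z₀`: `c + c'` has the Kummer function `b b'` (C2), `(b b')² θ = (z₀ y y')²` `= k²`, `k ∈ K^*`; the function
`h (γ θ) = γ k` is well defined (`k ∈ K`), equivariant, and `(b b')² = h²`.  By C2 (4) `c + c' = ∂m` for a function `m` on `Pt`;
apply the projection `p` of A1 (6) (`p (c g) = c g` as `c g ∈ Ev`): `c - c' = c + c' = ∂(p m)`, `p m ∈ Ev`.  (`|Rt (f s)|` is odd.) -/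
def StE9 : Prop :=
  (∀ (r : ℕ) (f : Fin r → ℤ[X]), Hyp f → ∀ s, Fintype.card (Rt (f s)) = (f s).natDegree) →
  StA1 → StC0 → StC1 → StC2 → StC4 → StE8 → StFIN

end Pool.TW
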