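import Pool.Agent.Helper34.TW.StD
import Pool.Agent.Helper34.TW.StE

/-!
# Project TW, statements F and G: inertia at good primes, and the killing process

`dt : LocData q`: `P` above `q`, `φ` Frobenius with `φ w = w`, `σ ∈ Ine P` with `σ w = -w`, `w² = q`.
-/

set_option autoImplicit false

open scoped Pointwise NumberField
open NumberField Polynomial IsDedekindDomain Pool.RG2

namespace Pool.TW

/-! ### Inertia groups at odd primes -/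

/-- F1 (no ramification if the inertia group acts trivially).  Let `M ≥ F` be finite and Galois over `ℚ` (in `Qb`),
`P_M = P ∩ M`.  The image of `Ine P` in `Gal(M/ℚ)` is the inertia group of `P_M` (`Pool.RG.StLift` with `F = ℚ`, `L = M`; proved in
Helper2/RG/M_LIFT).  By hypothesis it is contained in `Gal(M/F)`, so it equals the inertia group of `P_M` over `F`.  Its order is
`e(P_M / q)` and `e(P_M / v)` (`Ideal.card_inertia_eq_ramificationIdxIn`), and `e(P_M/q) = e(P_M/v) e(v/q)`: `e(v/q) = 1`. -/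
def StF1 : Prop :=
  ∀ (F : Sub) [NumberField F] (q : ℕ), q.Prime → ∀ P : Ideal Zb, P.IsMaximal → (q : Zb) ∈ P → Ine P ≤ GF F →
    ∀ v : HeightOneSpectrum (𝓞 F), (∀ a : 𝓞 F, a ∈ v.asIdeal ↔ algebraMap (𝓞 F) Zb a ∈ P) →
    (q : 𝓞 F) ∈ v.asIdeal ∧ (q : 𝓞 F) ∉ v.asIdeal ^ 2

/-- F2 (the homomorphisms of an inertia group to `ZMod 2`).  We may assume `U` normal (intersection of its finitely many
conjugates).  `H = Ine P ⊔ U = {i u}`, open; `h' (i u) = h i` is a well defined homomorphism `H → ZMod 2`, `0` on the open subgroup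
`U`.  `F` = fixed field of `H`, a number field, `GF F = H` (`Pool.RG.CC.GF_fixed`).  If `h' = 0` all is clear.  Otherwise by
Kummer theory (`Pool.RG.CC.exists_kum`, `exists_z`) there is `β ≠ 0` with `g β = (-1)^(h' g) β` for `g ∈ H` and `z = β² ∈ F`.  Let
`v = P ∩ F`; by F1 `v(q) = 1`.  Let `n = v(z)`, `z q^(-n) = a/b`, `a, b ∈ 𝓞 F ∖ v`; `u = β / w^n`, `t = b u`, `t² = a b`,
`t ∈ Zb ∖ P`.  For `i ∈ Ine P`: `i t = ± t` and `i t - t ∈ P`, `2 t ∉ P`: `i t = t`.  So `i β = (i w / w)^n β`: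
`(-1)^(h i) = (i w / w)^n` for all `i ∈ Ine P`: this is the assertion (`i w = ± w`). -/
def StF2 : Prop :=
  StF1 → ∀ (q : ℕ), q.Prime → q ≠ 2 → ∀ (dt : LocData q) (h : GQ → ZMod 2),
    (∀ a ∈ Ine dt.P, ∀ b ∈ Ine dt.P, h (a * b) = h a + h b) →
    (∃ U : Subgroup GQ, IsOpen (U : Set GQ) ∧ ∀ u ∈ U, u ∈ Ine dt.P → h u = 0) →
    ∀ a ∈ Ine dt.P, (dt.w ≠ 0 ∧ (a dt.w = dt.w ∨ a dt.w = -dt.w)) ∧ (a dt.w = dt.w → h a = 0) ∧
      (a dt.w = -dt.w → h a = h dt.σ)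

/-- F3 (a cyclic 2-group).  Replace `G` by the image of `f`: `f` is surjective, `G` is a finite 2-group (every element has order a
power of 2), `χ : I → ZMod 2` a homomorphism with `χ σ = 1`.  If `⟨f σ⟩ ≠ G` there is a (normal) subgroup `M ∋ f σ` of index 2
(a maximal subgroup of a 2-group containing it; compare `Pool.RG.StFrat`); the homomorphism `h : G → ZMod 2` with kernel `M`
satisfies `h (f a) = χ a * h (f σ) = 0` for all `a`: contradiction.  So `G = ⟨f σ⟩`, and `(f σ)² = 1`: `G = {1, f σ}`.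
If `f σ ≠ 1`, so `G` is cyclic of order 2, take for `h` the isomorphism `G → ZMod 2`, `h (f σ) = 1`: `h (f a) = χ a`, this is the
assertion; if `f σ = 1` then `G = 1`. -/
def StF3 : Prop :=
  ∀ (I G : Type) [Group I] [Group G] [Finite G] (f : I →* G) (χ : I → ZMod 2) (σ : I),
    (∀ a b, χ (a * b) = χ a + χ b) → χ σ = 1 → f σ ^ 2 = 1 → (∀ a : I, ∃ k : ℕ, f a ^ (2 ^ k) = 1) →
    (∀ h : f.range → ZMod 2, (∀ x y, h (x * y) = h x + h y) →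
      ∀ a : I, h ⟨f a, ⟨a, rfl⟩⟩ = χ a * h ⟨f σ, ⟨σ, rfl⟩⟩) →
    ∀ a, (χ a = 0 → f a = 1) ∧ (χ a = 1 → f a = f σ)

/-- F4 (tame cocycles).  Fix `k`; `G` = permutations of `(ℤ/2^k)^n`, `f a = (x ↦ ρ(a) x + c(a) mod 2^k)`, a homomorphism
`GQ → G` (cocycle relation), with open kernel.  On `I = Ine P`: `f a = (x ↦ ± x + c a)`, so `(f a)^(2^(k+1)) = 1`, and
`(f σ)² = (x ↦ -(-x + c σ) + c σ) = id`.  Let `χ a = 0, 1` according to `a w = w`, `a w = -w`.  Every homomorphism `h` from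
`f(I)` (or a subgroup containing it) to `ZMod 2` gives `h ∘ f` on `I`, locally constant; F2: `h (f a) = χ a * h (f σ)`.  F3: `f a = id` if
`a w = w` i.e. `c a ≡ 0`; `f a = f σ`, i.e. `c a ≡ c σ mod 2^k` if `a w = -w`.  For all `k`: the first two assertions.
Finally `φ σ φ⁻¹ ∈ Ine P` (`φ P = P`) maps `w` to `-w` (`φ w = w`), so `c (φ σ φ⁻¹) = c σ`; expand:
`c (φ σ φ⁻¹) = c φ + ρ(φ) c σ + ρ(φ) ρ(σ) c (φ⁻¹)`, `ρ(σ) = -1`, `c (φ⁻¹) = - ρ(φ⁻¹) c φ`: `= 2 c φ + ρ(φ) c σ`. -/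
def StF4 : Prop :=
  StF1 → StF2 → StF3 → ∀ (q : ℕ), q.Prime → q ≠ 2 → ∀ (dt : LocData q) (n : ℕ) (ρ : GQ →* GL (Fin n) ℤ_[2]),
    Continuous ρ → (∀ a ∈ Ine dt.P, (a dt.w = dt.w → ρ a = 1) ∧ (a dt.w = -dt.w → ρ a = -1)) →
    ∀ c : GQ → Fin n → ℤ_[2], Continuous c →
    (∀ a b, c (a * b) = c a + (ρ a : Matrix (Fin n) (Fin n) ℤ_[2]).mulVec (c b)) →
    (∀ a ∈ Ine dt.P, (a dt.w = dt.w → c a = 0) ∧ (a dt.w = -dt.w → c a = c dt.σ)) ∧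
    (2 : ℤ_[2]) • c dt.φ = c dt.σ - (ρ dt.φ : Matrix (Fin n) (Fin n) ℤ_[2]).mulVec (c dt.σ)

/-! ### Cocycles at good primes -/

/-- G0 (large primes are good).  For `x ≠ y` roots of `f_s`, `x - y` is a nonzero algebraic integer; if it is in `P ∋ p` then `p`
divides the nonzero integer `N = ∏ (x' - y')` over the pairs of distinct roots (an integer: fixed by `GQ`). -/
def StG0 : Prop :=
  ∀ (r : ℕ) (f : Fin r → ℤ[X]), Hyp f → ∃ B : ℕ, ∀ p : ℕ, p.Prime → B < p → ∀ P : Ideal Zb, P.IsMaximal →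
    (p : Zb) ∈ P → ∀ s, GoodAt (f s) P

/-- G1 (cocycles at a good prime).  `Ine P` acts trivially on all roots for `P ∋ q` (D11 (2)).
(1) so `a ↦ c a x` is a homomorphism on `Ine dt.P` for every `x`, and F2 applies.  `φ σ φ⁻¹ ∈ Ine P` moves `w`, so
`c (φ σ φ⁻¹) = c σ`; it acts trivially, so `c (φ σ φ⁻¹) = c φ + act φ (c σ) + act φ (c φ⁻¹) = act φ (c σ)`.
(2) if `c σ = 0` then `c = 0` on `Ine dt.P` (F2); every `P' ∋ q` is `g dt.P` (StProf for `ℚ`), `Ine P' = g (Ine dt.P) g⁻¹` and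
`c (g a g⁻¹) = c g + act g (c a) + act (g a) (c g⁻¹) = 0`.
(3) `c` is a coboundary on `Ine dt.P`, which acts trivially: `c σ = 0`. -/
def StG1 : Prop :=
  StF1 → StF2 → StD10 → StD11 → ∀ (r : ℕ) (f : Fin r → ℤ[X]), Hyp f → ∀ (q : ℕ), GP f q → ∀ dt : LocData q,
    (∀ a ∈ Ine dt.P, ∀ s (x : Rt (f s)), a • x = x) ∧
    ∀ (S : Finset (Fin r)) (c : GQ → Pt (RY f) S → ZMod 2), IsCoc (RY f) c →
      c dt.σ ∈ FixEv (RY f) S dt.φ ∧
      (c dt.σ = 0 → ∀ P : Ideal Zb, P.IsMaximal → (q : Zb) ∈ P → CobOn (RY f) (Ine P : Set GQ) c) ∧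
      (∀ Q : Finset ℕ, (∀ q' ∈ Q, q'.Prime ∧ q' ≠ q) → Unr f Q c → c dt.σ = 0)

/-- The local conditions: `L S k`: finite-dimensional spaces of functions (condition at `P0`), `Lam S q ε` (condition at
`q ∣ D_S`). -/
structure MA {r : ℕ} (f : Fin r → ℤ[X]) (dt : Dat) (J tm : Finset (Fin r) → ℕ)
    (L : (S : Finset (Fin r)) → Fin (J S) → Submodule (ZMod 2) (GQ → Pt (RY f) S → ZMod 2))
    (Lam : (S : Finset (Fin r)) → ℕ → ZMod 2 → Submodule (ZMod 2) ((Pt (RY f) S → ZMod 2) × (Pt (RY f) S → ZMod 2))) :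
    Prop where
  fin : ∀ S k, S.Nonempty → Module.Finite (ZMod 2) (L S k) ∧ Module.finrank (ZMod 2) (L S k) ≤ tm S
  l1 : ∀ S (q : ℕ) (h : q.Prime) (h2 : q ≠ 2) ε, S.Nonempty → GP f q → ∀ x ∈ Lam S q ε, x.1 ∈ FixEv (RY f) S (dt q h h2).φ ∧ x.2 ∈ Ev (RY f) S
  l2 : ∀ S (q : ℕ) (h : q.Prime) (h2 : q ≠ 2) ε, S.Nonempty → GP f q → ∀ x ∈ Lam S q ε, x.1 = 0 →
    ∃ m ∈ Ev (RY f) S, x.2 = act (RY f) (dt q h h2).φ m - m
  l3 : ∀ S (q : ℕ) (h : q.Prime) (h2 : q ≠ 2) ε, S.Nonempty → GP f q → ∀ m ∈ Ev (RY f) S,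
    ((0 : Pt (RY f) S → ZMod 2), act (RY f) (dt q h h2).φ m - m) ∈ Lam S q ε
  num : ∀ S : Finset (Fin r), S.Nonempty → ∀ g : GQ, IsTau (RY f) g →
    1 ≤ fixD (RY f) S g ∧ NumOK (J S) (fixD (RY f) S g) (aN f S - tm S)

/-- The primes attached to `S`. -/
def QS {r : ℕ} (𝒬 : Fin r → Finset ℕ) (S : Finset (Fin r)) : Finset ℕ := S.biUnion 𝒬

/-- Their product. -/
def DS {r : ℕ} (𝒬 : Fin r → Finset ℕ) (S : Finset (Fin r)) : ℕ := ∏ q ∈ QS 𝒬 S, q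

/-- The Selmer condition. -/
structure Sel {r : ℕ} (f : Fin r → ℤ[X]) (P0 : Ideal Zb) (dt : Dat) (𝒬 : Fin r → Finset ℕ) {S : Finset (Fin r)}
    (L : Submodule (ZMod 2) (GQ → Pt (RY f) S → ZMod 2))
    (Lam : ℕ → ZMod 2 → Submodule (ZMod 2) ((Pt (RY f) S → ZMod 2) × (Pt (RY f) S → ZMod 2)))
    (c : GQ → Pt (RY f) S → ZMod 2) : Prop where
  coc : IsCoc (RY f) c
  unr : Unr f (QS 𝒬 S) c
  at2 : ∃ l ∈ L, CobOn (RY f) (Dec P0 : Set GQ) (c - l)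
  atq : ∀ q ∈ QS 𝒬 S, ∀ (h : q.Prime) (h2 : q ≠ 2), (c (dt q h h2).σ, c (dt q h h2).φ) ∈ Lam q (qs (DS 𝒬 S) (dt q h h2).φ)

/-- The sets of primes are good: good primes, pairwise disjoint. -/
structure GoodQ {r : ℕ} (f : Fin r → ℤ[X]) (𝒬 : Fin r → Finset ℕ) : Prop where
  gp : ∀ s, ∀ q ∈ 𝒬 s, GP f q
  disj : ∀ s t, s ≠ t → Disjoint (𝒬 s) (𝒬 t)

/-- G2 (the spaces `W`).  `E` as in UNI for `Q`.  For `w ∈ E` and `z` in
`Z = {z : IsCoc, Unr f Q' z for some finite set Q' ⊇ Q of good primes, ∃ l ∈ L, CobOn (Dec P0) (z - l)}` put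
`β(z, w) = ∑_(q ∈ Q') lpd f dt q z w`: independent of `Q'` since for `q` outside a set for which `z`, `w` are unramified
`z σ_q = w σ_q = 0` (G1 (3)), so `lpd = 0`.  `Z` is a subspace (enlarge `Q'`), `β` is bilinear.  If `z` is a coboundary on
`Dec P0` then `β(z, w) = 0` for all `w ∈ E` (REC for `Q'`).  The space of the linear forms `β(z, ·)` on `E` has dimension
`≤ dim L ≤ t`: if `z_1, .., z_m ∈ Z` with `m > dim L` and `l_i ∈ L` are as in the definition, then `∑_(i ∈ I) l_i = 0` for some nonempty `I`,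
so `∑_I z_i` is a coboundary on `Dec P0` and `∑_I β(z_i, ·) = 0`.  For `q ∈ Q` the space of the linear forms
`w ↦ pr x (w φ_q) + pr y (w σ_q)`, `(x, y) ∈ Λ q`, has dimension `≤ fixq f S dt q`: it is a quotient of `Λ q`, the elements with
`x = 0` map to `0` (`y = act φ m - m`, `pr (act φ m - m) (w σ) = 0` since `w σ ∈ FixEv φ`, G1 (1)), and `x ∈ FixEv φ_q`.  `W` = the
intersection of the kernels of all these linear forms: `dim W ≥ dim E - t - ∑ fixq`. -/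
def StG2 : Prop :=
  StREC → StG1 → StF1 → StF2 → StD10 → StD11 → ∀ (r : ℕ) (f : Fin r → ℤ[X]), Hyp f → ∀ P0 : Ideal Zb, P0.IsMaximal →
    (2 : Zb) ∈ P0 → ∀ (dt : Dat) (S : Finset (Fin r)), S.Nonempty → ∀ Q : Finset ℕ, (∀ q ∈ Q, GP f q) →
    ∀ E : Submodule (ZMod 2) (GQ → Pt (RY f) S → ZMod 2), Module.Finite (ZMod 2) E →
    (∀ c ∈ E, IsCoc (RY f) c ∧ Unr f Q c) →
    ∀ L : Submodule (ZMod 2) (GQ → Pt (RY f) S → ZMod 2), Module.Finite (ZMod 2) L →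
    ∀ Λ : ℕ → Submodule (ZMod 2) ((Pt (RY f) S → ZMod 2) × (Pt (RY f) S → ZMod 2)),
    (∀ q ∈ Q, ∀ (h : q.Prime) (h2 : q ≠ 2), ∀ x ∈ Λ q, x.1 ∈ FixEv (RY f) S (dt q h h2).φ ∧
      (x.1 = 0 → ∃ m ∈ Ev (RY f) S, x.2 = act (RY f) (dt q h h2).φ m - m)) →
    ∃ W : Submodule (ZMod 2) (GQ → Pt (RY f) S → ZMod 2), W ≤ E ∧
      Module.finrank (ZMod 2) E ≤ Module.finrank (ZMod 2) W + Module.finrank (ZMod 2) L + ∑ q ∈ Q, fixq f S dt q ∧
      ∀ w ∈ W,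
        (∀ q ∈ Q, ∀ (h : q.Prime) (h2 : q ≠ 2), ∀ x ∈ Λ q,
          pr (RY f) x.1 (w (dt q h h2).φ) + pr (RY f) x.2 (w (dt q h h2).σ) = 0) ∧
        (∀ Q' : Finset ℕ, Q ⊆ Q' → (∀ q ∈ Q', GP f q) → ∀ z : GQ → Pt (RY f) S → ZMod 2, IsCoc (RY f) z → Unr f Q' z →
          (∃ l ∈ L, CobOn (RY f) (Dec P0 : Set GQ) (z - l)) → ∑ q ∈ Q', lpd f dt q z w = 0)

/-- G3 (the killing prime: its choice).  Data for one index `s0`: `𝒮` = the nonempty `S` containing `s0`; `E S`, `W S k` given.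
`c0 ∈ E S0` is nonzero.  `Qa` = a finite set of good primes.  Let `N` be an open normal subgroup of `GQ`, contained in `Gp Qa`,
acting trivially on all roots, on which all elements of all `E S` vanish (finitely many cocycles; each vanishes on an open
subgroup; intersect, and take the normal core).  By A11 with `Γ' = Gp Qa` (D11: commutators, all permutations) there is
`g ∈ Gp Qa`, acting like a given `g0` with `IsTau` (D13 (2)), with the properties of A11.  The order of `g` modulo `N` is even (it is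
divisible by `N_s - 1`).  FROB: `p > B'` (`B'` larger than `B`, than the elements of `Qa`, `2`, and than the bound of G0), with
Frobenius element `φ = (dt p).φ` such that `φ⁻¹ γ g^k γ⁻¹ ∈ N`, `k` prime to the order of `g` mod `N`.  `φ ∈ Gp Qa` (normal), so `p ≡ 1 mod 8`
and the Frobenius elements at the `q ∈ Qa` fix the square roots of `p` (D12); `GP f p` (G0).  By A12 (each `w ∈ E S` vanishes on
`N`) `FixEv φ = act γ (FixEv g)` and `pr (act γ x) (w φ) = pr x (w g)`: so for `z ∈ FixEv φ`, `z = act γ x`: if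
`pr z (w φ) = 0` for all `w ∈ W S k` then `x = 0`, `z = 0`.  For `c0` take `act γ x` with `x` from A11: `pr (act γ x) (c0 φ) ≠ 0`. -/
def StG3 : Prop :=
  StA1 → StA4 → StA11 → StA12 → StD7 → StD10 → StD11 → StD12 → StD13 → StG0 → StFROB →
    (StA8 ∧ StA9 ∧ StA10) → ∀ (r : ℕ) (f : Fin r → ℤ[X]), Hyp f →
    ∀ (dt : Dat) (Qa : Finset ℕ), (∀ q ∈ Qa, GP f q) →
    ∀ E : (S : Finset (Fin r)) → Submodule (ZMod 2) (GQ → Pt (RY f) S → ZMod 2), (∀ S, Module.Finite (ZMod 2) (E S)) →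
    E ∅ = ⊥ → (∀ S, ∀ w ∈ E S, IsCoc (RY f) w) → (∀ S, ∀ w ∈ E S, CobOn (RY f) Set.univ w → w = 0) →
    ∀ (𝒮 : Finset (Finset (Fin r))) (J d : Finset (Fin r) → ℕ)
      (W : (S : Finset (Fin r)) → Fin (J S) → Submodule (ZMod 2) (GQ → Pt (RY f) S → ZMod 2)),
    (∀ S ∈ 𝒮, ∀ k, W S k ≤ E S ∧ d S ≤ Module.finrank (ZMod 2) (W S k)) →
    (∀ S, ∀ g : GQ, IsTau (RY f) g → 1 ≤ fixD (RY f) S g) →
    (∀ S ∈ 𝒮, ∀ g : GQ, IsTau (RY f) g → NumOK (J S) (fixD (RY f) S g) (d S)) →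
    ∀ S0 : Finset (Fin r), ∀ c0 ∈ E S0, c0 ≠ 0 → ∀ B : ℕ,
    ∃ (p : ℕ) (h : p.Prime) (h2 : p ≠ 2), B < p ∧ p ∉ Qa ∧ GP f p ∧
      (∀ q ∈ Qa, ∀ (h' : q.Prime) (h2' : q ≠ 2) (y : Qb), y ^ 2 = (p : Qb) → (dt q h' h2').φ y = y) ∧
      (∀ S ∈ 𝒮, ∀ k, ∀ z ∈ FixEv (RY f) S (dt p h h2).φ, (∀ w ∈ W S k, pr (RY f) z (w (dt p h h2).φ) = 0) → z = 0) ∧
      ∃ x ∈ FixEv (RY f) S0 (dt p h h2).φ, pr (RY f) x (c0 (dt p h h2).φ) ≠ 0

/-- The conclusion of the killing step for `𝒬`. -/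
def Kill {r : ℕ} (f : Fin r → ℤ[X]) (P0 : Ideal Zb) (dt : Dat) (J : Finset (Fin r) → ℕ)
    (L : (S : Finset (Fin r)) → Fin (J S) → Submodule (ZMod 2) (GQ → Pt (RY f) S → ZMod 2))
    (Lam : (S : Finset (Fin r)) → ℕ → ZMod 2 → Submodule (ZMod 2) ((Pt (RY f) S → ZMod 2) × (Pt (RY f) S → ZMod 2)))
    (𝒬 : Fin r → Finset ℕ) : Prop :=
  ∀ (S0 : Finset (Fin r)) (s0 : Fin r), s0 ∈ S0 → ∀ c0 : GQ → Pt (RY f) S0 → ZMod 2, IsCoc (RY f) c0 →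
    Unr f (QS 𝒬 S0) c0 → ¬ CobOn (RY f) Set.univ c0 → ∀ B : ℕ,
    ∃ p : ℕ, B < p ∧ GoodQ f (Function.update 𝒬 s0 (insert p (𝒬 s0))) ∧
      (∀ S : Finset (Fin r), S.Nonempty → ∀ k z, Sel f P0 dt (Function.update 𝒬 s0 (insert p (𝒬 s0))) (L S k) (Lam S) z →
        Sel f P0 dt 𝒬 (L S k) (Lam S) z) ∧
      ∀ k z, Sel f P0 dt (Function.update 𝒬 s0 (insert p (𝒬 s0))) (L S0 k) (Lam S0) z →
        ¬ CobOn (RY f) Set.univ (z - c0)

/-- G4 (the killing step).  `𝒬' = update 𝒬 s0 (insert p (𝒬 s0))`; `Q_S = QS 𝒬 S`.  `𝒮` = the nonempty `S` containing `s0`.  For `S ∈ 𝒮` let `E S`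
be the space of UNI for `Q_S`, except that for `S = S0` we enlarge it: if `c0 = e + ∂m` with `e ∈ E S0` put `c0' = e`, otherwise
`E' = E ⊕ ⟨c0⟩`, `c0' = c0`; `E' ∩ coboundaries = 0` in both cases, `c0' ≠ 0`, `c0 - c0'` is a coboundary.  (`E S = 0` for the other `S`.)
`W S k` := G2 for the unenlarged `E S`, `L = L S k`, `Λ q = Lam S q (qs (DS 𝒬 S) φ_q)`: dimension `≥ aN f S - tm S =: d S`.
G3 with `Qa = ⋃_s 𝒬 s`: `p`.  `GoodQ f 𝒬'` clear.  Let `S` be nonempty, `z ∈ Sel 𝒬'`.  If `s0 ∉ S` nothing changes.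
If `s0 ∈ S`: `QS 𝒬' S = Q_S ∪ {p}`, `DS 𝒬' S = p DS 𝒬 S`, `qs (DS 𝒬' S) φ_q = qs (DS 𝒬 S) φ_q` for `q ∈ Q_S` (`φ_q` fixes the
square roots of `p`).  By G2 for `Q' = Q_S ∪ {p}`: `∑_(q ∈ Q') lpd q z w = 0` for `w ∈ W S k`; for `q ∈ Q_S`,
`lpd q z w = pr (z σ_q) (w φ_q) + pr (z φ_q) (w σ_q) = 0` since `(z σ_q, z φ_q) ∈ Λ q`.  So `lpd p z w = 0`, and `w σ_p = 0` (G1 (3)):
`pr (z σ_p) (w φ_p) = 0` for all `w ∈ W S k`, `z σ_p ∈ FixEv φ_p` (G1 (1)): `z σ_p = 0`.  So (G1 (2)) `z` is unramified outside `Q_S`,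
and `z ∈ Sel 𝒬`.
Finally suppose `z ∈ Sel 𝒬'` (for `S0`) and `z = c0 + ∂ = c0' + ∂m`.  Then `z σ_p = 0` (as above, or since `c0' σ_p = 0`, and `σ_p` acts
trivially), so `(0, z φ_p) ∈ Lam`, `z φ_p = act φ m' - m'` (l2), so `c0' φ_p = act φ m'' - m''`, and `pr x (c0' φ_p) = 0` for `x` fixed by
`φ_p`: contradiction. -/
def StG4 : Prop :=
  StUNI → StG1 → StG2 → StG3 → StREC → StF1 → StF2 → StA1 → StA4 → StA11 → StA12 → StD7 → StD10 → StD11 → StD12 → StD13 →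
    StG0 → StFROB → (StA8 ∧ StA9 ∧ StA10) → ∀ (r : ℕ) (f : Fin r → ℤ[X]), Hyp f → ∀ P0 : Ideal Zb, P0.IsMaximal → (2 : Zb) ∈ P0 →
    ∀ (dt : Dat) (J tm : Finset (Fin r) → ℕ)
      (L : (S : Finset (Fin r)) → Fin (J S) → Submodule (ZMod 2) (GQ → Pt (RY f) S → ZMod 2))
      (Lam : (S : Finset (Fin r)) → ℕ → ZMod 2 → Submodule (ZMod 2) ((Pt (RY f) S → ZMod 2) × (Pt (RY f) S → ZMod 2))),
    MA f dt J tm L Lam → ∀ 𝒬 : Fin r → Finset ℕ, GoodQ f 𝒬 → Kill f P0 dt J L Lam 𝒬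

/-- MA: the statement used in the sequel. -/
def StMA : Prop :=
  ∀ (r : ℕ) (f : Fin r → ℤ[X]), Hyp f → ∀ P0 : Ideal Zb, P0.IsMaximal → (2 : Zb) ∈ P0 →
    ∀ (dt : Dat) (J tm : Finset (Fin r) → ℕ)
      (L : (S : Finset (Fin r)) → Fin (J S) → Submodule (ZMod 2) (GQ → Pt (RY f) S → ZMod 2))
      (Lam : (S : Finset (Fin r)) → ℕ → ZMod 2 → Submodule (ZMod 2) ((Pt (RY f) S → ZMod 2) × (Pt (RY f) S → ZMod 2))),
    MA f dt J tm L Lam → ∀ B : ℕ, ∃ 𝒬 : Fin r → Finset ℕ, GoodQ f 𝒬 ∧ (∀ s, ∃ q ∈ 𝒬 s, B < q) ∧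
      ∀ S : Finset (Fin r), S.Nonempty → ∀ k z, Sel f P0 dt 𝒬 (L S k) (Lam S) z → CobOn (RY f) Set.univ z

/-- G5 (iteration): proof of MA.  Start with `𝒬 = ∅`.  For `S` nonempty let `E S` be the finite-dimensional (so finite) space
of FIN, and `R_(S,k)(𝒬) = {e ∈ E S : ∃ z ∈ Sel_(S,k)(𝒬), z - e is a coboundary}`, a finite set.  Consider all `𝒬` good with
`Sel_(S,k)(𝒬) ⊆ Sel_(S,k)(∅)` for all `S, k` (e.g. `∅`), and choose one with `∑_(S,k) |R_(S,k)(𝒬)|` minimal.  Then every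
`c0 ∈ Sel_(S0,k0)(𝒬)`, `S0` nonempty, is a coboundary: otherwise apply `Kill` (G4) with some `s0 ∈ S0`: all `Sel(𝒬') ⊆ Sel(𝒬)`, so the sets
`R` do not increase, and the element `e ∈ E S0` with `c0 - e` a coboundary (FIN: `c0` is unramified outside `2` since
`Sel(𝒬) ⊆ Sel(∅)`) is in `R_(S0,k0)(𝒬)` but not in `R_(S0,k0)(𝒬')`.  Finally, for every `s` (one after the other) apply `Kill` with `S0 = {s}`,
`s0 = s`, `B`, and `c0` any element of the space `E` of UNI for `{s}`, which is nonzero: its dimension is `≥ aN f {s} ≥ 1`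
(`MA.num`: `1 ≤ fixD`, and `aN f {s} = (N_s - 1)/2 ≥ 1`): the Selmer sets do not increase. -/
def StG5 : Prop :=
  StUNI → StFIN → (∀ (r : ℕ) (f : Fin r → ℤ[X]), Hyp f → ∀ P0 : Ideal Zb, P0.IsMaximal → (2 : Zb) ∈ P0 →
    ∀ (dt : Dat) (J tm : Finset (Fin r) → ℕ)
      (L : (S : Finset (Fin r)) → Fin (J S) → Submodule (ZMod 2) (GQ → Pt (RY f) S → ZMod 2))
      (Lam : (S : Finset (Fin r)) → ℕ → ZMod 2 → Submodule (ZMod 2) ((Pt (RY f) S → ZMod 2) × (Pt (RY f) S → ZMod 2))),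
    MA f dt J tm L Lam → ∀ 𝒬 : Fin r → Finset ℕ, GoodQ f 𝒬 → Kill f P0 dt J L Lam 𝒬) → StMA

end Pool.TW
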