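import Pool.Agent.Helper34.TW.StF

/-!
# Project TW, statements H: from `F_2` to `ℤ_2`, and the theorem
-/

set_option autoImplicit false

open scoped Pointwise NumberField
open NumberField Polynomial IsDedekindDomain Pool.RG2

namespace Pool.TW

/-- Reduction modulo 2. -/
noncomputable def rdv {n : ℕ} (x : Fin n → ℤ_[2]) : Fin n → ZMod 2 := fun i => PadicInt.toZMod (x i)

/-- The number of conditions at `P0` (the values `j = 1, .., |S|/2`, or `j = 0` if `|S| = 1`). -/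
def JJ {r : ℕ} (S : Finset (Fin r)) : ℕ := if S.card ≤ 1 then S.card else S.card / 2

/-- The bound for the dimensions of the conditions. -/
def tmm {r : ℕ} (f : Fin r → ℤ[X]) (S : Finset (Fin r)) : ℕ := if S.card ≤ 1 then 0 else tn f S ((S.card / 2 : ℕ) : ℤ)

/-- H1 (numbers).  `N_s = natDegree (f s) = |Rt (f s)|`, odd, `≥ 3`, pairwise coprime; by A4 `h = fixD` satisfies
`h lcm (N_s - 1) = ∏ (N_s - 1)`.  `|S| = 1`: A13, `J = 1`, `t = 0`.  `|S| = 2, 3`: `J = 1`, `t = tn f S 1 = ∏ (N_s / 2)` (`C(n, 0) = 1`), A13.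
`|S| = n ≥ 4`: `J = ⌊n/2⌋ ≤ 2^(n-1)`, A14 with `j = ⌊n/2⌋`. -/
def StH1 : Prop :=
  StA4 → StA13 → StA14 → ∀ (r : ℕ) (f : Fin r → ℤ[X]), Hyp f → (∀ s, Fintype.card (Rt (f s)) = (f s).natDegree) →
    ∀ S : Finset (Fin r), S.Nonempty → ∀ g : GQ, IsTau (RY f) g →
    1 ≤ fixD (RY f) S g ∧ NumOK (JJ S) (fixD (RY f) S g) (aN f S - tmm f S)

/-- H2 (the condition at `P0`).  `𝒳` = the set of the `c : GQ → ℤ_2^n` as in the last assertion, a `ℤ_2`-module.  Consider the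
`F_2`-space of the functions `A → F_2^n` modulo those of the form `ρ̄(g) m - m`, and the subspace of the classes of the `c̄ = rdv ∘ c`,
`c ∈ 𝒳`.  Claim: if `c_1, .., c_k ∈ 𝒳` have independent classes then `k ≤ t`.  Indeed let `a^(i) ∈ ℚ_2^t`, `v^(i)` belong to `c_i`.  If
`k > t` there are `λ_i ∈ ℤ_2`, not all even (scale), with `∑ λ_i a^(i) = 0`.  Then `C = ∑ λ_i c_i` satisfies `C g = ρ(g) v - v` on `A`,
`v = ∑ λ_i v^(i) ∈ ℚ_2^n`.  `v` is integral: otherwise let `2^k v = v'` be integral and not `0` modulo 2 (`k ≥ 1`); then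
`ρ(g) v' - v' = 2^k C g ≡ 0 mod 2` for `g ∈ A`, so the reduction of `v'` is fixed by all `ρ̄(g)`, `g ∈ A`: contradiction.  So reducing
modulo 2, `∑ λ̄_i c̄_i = ρ̄(g) v̄ - v̄` on `A`: the classes are dependent, contradiction.  So the space of classes has a basis of
`k ≤ t` classes of `c_i ∈ 𝒳`; `L` = span of the `c̄_i`. -/
def StH2 : Prop :=
  ∀ (n : ℕ) (A : Set GQ) (ρ : GQ →* GL (Fin n) ℤ_[2]),
    (∀ v : Fin n → ZMod 2, (∀ g ∈ A, (red 2 (ρ g) : Matrix (Fin n) (Fin n) (ZMod 2)).mulVec v = v) → v = 0) →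
    ∀ (t : ℕ) (u : Fin t → GQ → Fin n → ℚ_[2]),
    ∃ L : Submodule (ZMod 2) (GQ → Fin n → ZMod 2), Module.Finite (ZMod 2) L ∧ Module.finrank (ZMod 2) L ≤ t ∧
      ∀ c : GQ → Fin n → ℤ_[2],
        (∃ (a : Fin t → ℚ_[2]) (v : Fin n → ℚ_[2]), ∀ g ∈ A,
          vq (c g) = ∑ i, a i • u i g + ((matQ 2 (ρ g)).mulVec v - v)) →
        ∃ l ∈ L, ∃ m : Fin n → ZMod 2, ∀ g ∈ A,
          rdv (c g) = l g + ((red 2 (ρ g) : Matrix (Fin n) (Fin n) (ZMod 2)).mulVec m - m)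

/-- H3 (the conditions `Lam`).  `Lam q ε` = the set of the pairs `(e (rdv x), e (rdv y))` with `x, y ∈ ℤ_2^n`,
`2 y = x - (-1)^ε ρ(φ_q) x`: a subspace.  If `2 y = x - k ρ(φ_q) x` with `k ≡ (-1)^ε mod 4`, then `y' = y + ((k - (-1)^ε)/2) ρ(φ_q) x` satisfies
`2 y' = x - (-1)^ε ρ(φ_q) x` and `y' ≡ y mod 2`: so `(e x̄, e ȳ) ∈ Lam q ε`.  Reducing modulo 2: `x̄ = ρ̄(φ_q) x̄`, so
`act φ_q (e x̄) = e x̄` (l1).  If `x̄ = 0`, `x = 2 x'`: `y = x' - (-1)^ε ρ(φ_q) x'`, `e ȳ = m - act φ_q m` with `m = e x̄'` (l2; signs do not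
matter in characteristic 2), and all `m ∈ Ev` occur (l3). -/
def StH3 : Prop :=
  ∀ (r : ℕ) (f : Fin r → ℤ[X]) (dt : Dat) (S : Finset (Fin r)) (n : ℕ) (ρ : GQ →* GL (Fin n) ℤ_[2])
    (e : (Fin n → ZMod 2) ≃ₗ[ZMod 2] Ev (RY f) S),
    (∀ (σ : GQ) (v : Fin n → ZMod 2),
      ((e ((red 2 (ρ σ) : Matrix (Fin n) (Fin n) (ZMod 2)).mulVec v) : Ev (RY f) S) : Pt (RY f) S → ZMod 2) =
        act (RY f) σ (e v : Pt (RY f) S → ZMod 2)) →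
    ∃ Lam : ℕ → ZMod 2 → Submodule (ZMod 2) ((Pt (RY f) S → ZMod 2) × (Pt (RY f) S → ZMod 2)),
      ∀ (q : ℕ) (h : q.Prime) (h2 : q ≠ 2) (ε : ZMod 2),
        (∀ x ∈ Lam q ε, x.1 ∈ FixEv (RY f) S (dt q h h2).φ ∧ x.2 ∈ Ev (RY f) S) ∧
        (∀ x ∈ Lam q ε, x.1 = 0 → ∃ m ∈ Ev (RY f) S, x.2 = act (RY f) (dt q h h2).φ m - m) ∧
        (∀ m ∈ Ev (RY f) S, ((0 : Pt (RY f) S → ZMod 2), act (RY f) (dt q h h2).φ m - m) ∈ Lam q ε) ∧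
        ∀ (x y : Fin n → ℤ_[2]) (k k' : ℤ_[2]), k = (if ε = 0 then 1 else -1) + 4 * k' →
          (2 : ℤ_[2]) • y = x - k • (ρ (dt q h h2).φ : Matrix (Fin n) (Fin n) ℤ_[2]).mulVec x →
          ((e (rdv x) : Pt (RY f) S → ZMod 2), (e (rdv y) : Pt (RY f) S → ZMod 2)) ∈ Lam q ε

/-- H4 (characters).  `cyc g` is characterised by `g ζ = ζ^(cyc g mod 2^k)` for the `2^k`-th roots of unity `ζ`
(`cyclotomicCharacter.spec`).  (1) `a ∈ Ine P`, `2 ∉ P`: `a ζ - ζ ∈ P` and the `2^k`-th roots of unity are distinct modulo `P`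
(`∏_(ζ' ≠ 1) (1 - ζ') = 2^k ∉ P`), so `a ζ = ζ` and `cyc a = 1`.  (2) if `g` fixes the square roots of `-1` then
`cyc g ≡ 1 mod 4`.  (3) `D` and `q` with `q ∣ D`, `D = q D'`, `q ∤ D'`, all prime factors of `D` odd: `y² = D`, then `y = w y'` with
`y'^2 = D'` (`w² = q`), `D' ∉ P`, so `a ∈ Ine P` fixes `y'`, and `a y = y` iff `a w = w`.  (4) `a ∈ Ine P`, `2 ∉ P`, `D ∉ P`: `a y = y`.
(5) `D ≡ 1 mod 8`: D12 (2).  (6) `qs D g` is `0` or `1` according to `χ g = 1` or `-1` (there is `y ≠ 0` with `y² = D > 0`). -/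
def StH4 : Prop :=
  StD12 → (∀ P : Ideal Zb, P.IsMaximal → (2 : Zb) ∉ P → ∀ a ∈ Ine P, cyc a = 1) ∧
    (∀ g : GQ, (∀ y : Qb, y ^ 2 = -1 → g y = y) → ∃ k : ℤ_[2], (cyc g : ℤ_[2]) = 1 + 4 * k) ∧
    ∀ (D : ℕ) (χ : GQ →* ℤ_[2]ˣ), D ≠ 0 → IsQuad D χ →
      (∀ (q D' : ℕ), q.Prime → q ≠ 2 → D = q * D' → ¬ q ∣ D' → ∀ dt : LocData q, ∀ a ∈ Ine dt.P,
        (a dt.w = dt.w → χ a = 1) ∧ (a dt.w = -dt.w → χ a = -1)) ∧
      (∀ P : Ideal Zb, P.IsMaximal → (2 : Zb) ∉ P → (D : Zb) ∉ P → ∀ a ∈ Ine P, χ a = 1) ∧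
      (D % 8 = 1 → ∀ P0 : Ideal Zb, P0.IsMaximal → (2 : Zb) ∈ P0 → ∀ g ∈ Dec P0, χ g = 1) ∧
      ∀ g, (χ g : ℤ_[2]) = if qs D g = 0 then 1 else -1

/-- H5 (integrality on inertia groups).  `c g = ρ(g) v - v` with `v ∈ V` for `g ∈ Ine P`, `c g ∈ T`: the class of `v` in `V/T` is
fixed by `Ine P`; `DivAt` gives `t ∈ T` with `ρ(g) v - v = ρ(g) t - t`. -/
def StH5 : Prop :=
  ∀ (n : ℕ) (ρ : GQ →* GL (Fin n) ℤ_[2]) (P : Ideal Zb), DivAt ρ P → ∀ c : GQ → Fin n → ℤ_[2],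
    (∃ v : Fin n → ℚ_[2], ∀ σ ∈ Ine P, vq (c σ) = (matQ 2 (ρ σ)).mulVec v - v) →
    ∃ t : Fin n → ℤ_[2], ∀ σ ∈ Ine P, c σ = (ρ σ : Matrix (Fin n) (Fin n) ℤ_[2]).mulVec t - t

/-- H6 (reduction of a cocycle).  `ψ` any character, `ρ' = twist ψ ρ`.  `red 2 (ρ' g) = red 2 (ρ g)` (a unit of `ℤ_2` is
`≡ 1 mod 2`).  So `C g = e (rdv (c g))` satisfies `C (g h) = C g + act g (C h)`, and it vanishes on an open subgroup: `c` and `ρ'` are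
continuous, so `{g : c g ≡ 0 mod 2}` contains an open neighbourhood of `1`, which contains an open subgroup (`GQ` is profinite). -/
def StH6 : Prop :=
  ∀ (r : ℕ) (f : Fin r → ℤ[X]) (S : Finset (Fin r)) (n : ℕ) (ρ : GQ →* GL (Fin n) ℤ_[2]) (ψ : GQ →* ℤ_[2]ˣ)
    (e : (Fin n → ZMod 2) ≃ₗ[ZMod 2] Ev (RY f) S),
    (∀ (σ : GQ) (v : Fin n → ZMod 2),
      ((e ((red 2 (ρ σ) : Matrix (Fin n) (Fin n) (ZMod 2)).mulVec v) : Ev (RY f) S) : Pt (RY f) S → ZMod 2) =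
        act (RY f) σ (e v : Pt (RY f) S → ZMod 2)) →
    (∀ g, red 2 (twist ψ ρ g) = red 2 (ρ g)) ∧
    (∀ (g : GQ) (x : Fin n → ℤ_[2]), (e (rdv ((twist ψ ρ g : Matrix (Fin n) (Fin n) ℤ_[2]).mulVec x)) : Pt (RY f) S → ZMod 2) =
      act (RY f) g (e (rdv x) : Pt (RY f) S → ZMod 2)) ∧
    ∀ c : GQ → Fin n → ℤ_[2], Continuous c →
      (∀ a b, c (a * b) = c a + (twist ψ ρ a : Matrix (Fin n) (Fin n) ℤ_[2]).mulVec (c b)) →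
      IsCoc (RY f) (fun g => (e (rdv (c g)) : Pt (RY f) S → ZMod 2))

/-- `c` satisfies the conditions of the theorem, and has integral values. -/
structure IntC {n t : ℕ} (ρ : GQ →* GL (Fin n) ℤ_[2]) (Is : Set (Ideal Zb)) (P0 : Ideal Zb)
    (u : Fin t → GQ → Fin n → ℚ_[2]) (c : GQ → Fin n → ℤ_[2]) : Prop where
  cont : Continuous c
  coc : ∀ σ τ, c (σ * τ) = c σ + (ρ σ : Matrix (Fin n) (Fin n) ℤ_[2]).mulVec (c τ)
  ine : ∀ P ∈ Is, ∃ v : Fin n → ℚ_[2], ∀ σ ∈ Ine P, vq (c σ) = (matQ 2 (ρ σ)).mulVec v - v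
  dec : ∃ (a : Fin t → ℚ_[2]) (v : Fin n → ℚ_[2]), ∀ σ ∈ Dec P0,
    vq (c σ) = ∑ i, a i • u i σ + ((matQ 2 (ρ σ)).mulVec v - v)

/-- Every integral `c` satisfying the conditions is a coboundary modulo 2. -/
def ModTwo {n t : ℕ} (ρ : GQ →* GL (Fin n) ℤ_[2]) (Is : Set (Ideal Zb)) (P0 : Ideal Zb)
    (u : Fin t → GQ → Fin n → ℚ_[2]) : Prop :=
  ∀ c : GQ → Fin n → ℤ_[2], IntC ρ Is P0 u c →
    ∃ m : Fin n → ℤ_[2], ∀ σ, rdv (c σ) = rdv ((ρ σ : Matrix (Fin n) (Fin n) ℤ_[2]).mulVec m - m)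

/-- The theorem modulo 2. -/
def StRED : Prop :=
  ∀ (r : ℕ) (f : Fin r → ℤ[X]), Hyp f → ∀ P0 : Ideal Zb, P0.IsMaximal → (2 : Zb) ∈ P0 →
    ∀ (d : Finset (Fin r) → ℕ) (ρ : (S : Finset (Fin r)) → GQ →* GL (Fin (d S)) ℤ_[2]),
    (∀ S, S.Nonempty → RepOK f S (ρ S)) →
    ∀ (u : (S : Finset (Fin r)) → (j : ℤ) → Fin (tn f S j) → GQ → Fin (d S) → ℚ_[2]) (B : ℕ),
    ∃ D : Fin r → ℕ, (∀ s, B < D s ∧ Squarefree (D s) ∧ ∀ p : ℕ, p.Prime → p ∣ D s → p % 8 = 1) ∧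
      ∀ S, S.Nonempty → ∀ j : ℤ, 2 * j ≤ S.card → ∀ χ : GQ →* ℤ_[2]ˣ, IsQuad (∏ s ∈ S, D s) χ →
        ModTwo (twist (χ * cyc ^ j) (ρ S)) (OutD S D) P0 (u S j)

/-- H7 (one cocycle).  Notation: `D = DS 𝒬 S`, `ψ = χ cyc^j`, `ρ' = twist ψ ρ`, `C g = e (rdv (c g))` (`IsCoc`, H6).
Unramified outside `Q_S = QS 𝒬 S`: let `P` be maximal, `2 ∉ P`, `q ∉ P` for `q ∈ Q_S`; then `P ∈ Is` and `D ∉ P`; on `Ine P`, `ψ = 1`
(H4 (1), (4)), so `ρ' = ρ`, and H5 (with `RepOK.div`) gives `c = ρ(g) t - t` on `Ine P`: reduce.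
At `q ∈ Q_S`: on `Ine (dt q).P`, `ρ' a = ± 1` according to `a w = ± w` (`ρ a = 1`: `RepOK.unr`, good prime; `cyc a = 1`; `χ a` by H4 (3)); F4:
`2 c(φ) = c(σ) - ρ'(φ) c(σ) = c(σ) - k ρ(φ) c(σ)`, `k = χ(φ) cyc(φ)^j`, and `k ≡ (-1)^(qs D φ) mod 4`, since `q ≡ 1 mod 4`, so `φ`
fixes the square roots of `-1` (`φ y ≡ y^q = y mod P`), so `cyc φ ≡ 1 mod 4` (H4 (2), (6)).  So
`(C σ, C φ) ∈ Lam q (qs D φ)` by the last property of H3 with `x = c σ`, `y = c φ`.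
At `P0`: `D ≡ 1 mod 8` so `χ = 1` on `Dec P0` (H4 (5)) and `ρ' = twist (cyc^j) ρ` there; the hypothesis `hL` gives `l ∈ L` (transported by
`e`).  So `C` satisfies `Sel`, and by hypothesis it is a coboundary: `C g = act g M - M`, `M = e (rdv m)` for some `m`, i.e.
`rdv (c g) = rdv (ρ'(g) m - m)` (H6). -/
def StH7 : Prop :=
  StF1 → StF2 → StF3 → StF4 → StD10 → StD11 → StD12 → StH4 → StH5 → StH6 → ∀ (r : ℕ) (f : Fin r → ℤ[X]), Hyp f →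
    ∀ P0 : Ideal Zb, P0.IsMaximal → (2 : Zb) ∈ P0 → ∀ (dt : Dat) (𝒬 : Fin r → Finset ℕ), GoodQ f 𝒬 →
    ∀ (S : Finset (Fin r)), S.Nonempty → ∀ (n : ℕ) (ρ : GQ →* GL (Fin n) ℤ_[2]), RepOK f S ρ →
    ∀ (e : (Fin n → ZMod 2) ≃ₗ[ZMod 2] Ev (RY f) S),
    (∀ (σ : GQ) (v : Fin n → ZMod 2),
      ((e ((red 2 (ρ σ) : Matrix (Fin n) (Fin n) (ZMod 2)).mulVec v) : Ev (RY f) S) : Pt (RY f) S → ZMod 2) =
        act (RY f) σ (e v : Pt (RY f) S → ZMod 2)) →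
    ∀ (Lam : ℕ → ZMod 2 → Submodule (ZMod 2) ((Pt (RY f) S → ZMod 2) × (Pt (RY f) S → ZMod 2))),
    (∀ (q : ℕ) (h : q.Prime) (h2 : q ≠ 2) (ε : ZMod 2) (x y : Fin n → ℤ_[2]) (k k' : ℤ_[2]),
      k = (if ε = 0 then 1 else -1) + 4 * k' →
      (2 : ℤ_[2]) • y = x - k • (ρ (dt q h h2).φ : Matrix (Fin n) (Fin n) ℤ_[2]).mulVec x →
      ((e (rdv x) : Pt (RY f) S → ZMod 2), (e (rdv y) : Pt (RY f) S → ZMod 2)) ∈ Lam q ε) →
    ∀ (j : ℤ) (t : ℕ) (u : Fin t → GQ → Fin n → ℚ_[2]) (L : Submodule (ZMod 2) (GQ → Pt (RY f) S → ZMod 2)),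
    -- `hL`
    (∀ c : GQ → Fin n → ℤ_[2],
      (∃ (a : Fin t → ℚ_[2]) (v : Fin n → ℚ_[2]), ∀ g ∈ Dec P0,
        vq (c g) = ∑ i, a i • u i g + ((matQ 2 (twist (cyc ^ j) ρ g)).mulVec v - v)) →
      ∃ l ∈ L, CobOn (RY f) (Dec P0 : Set GQ) ((fun g => (e (rdv (c g)) : Pt (RY f) S → ZMod 2)) - l)) →
    (∀ z, Sel f P0 dt 𝒬 L Lam z → CobOn (RY f) Set.univ z) →
    ∀ χ : GQ →* ℤ_[2]ˣ, IsQuad (DS 𝒬 S) χ →
    ∀ Is : Set (Ideal Zb), (∀ P : Ideal Zb, P.IsMaximal → (2 : Zb) ∉ P → (∀ q ∈ QS 𝒬 S, (q : Zb) ∉ P) → P ∈ Is) →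
    ModTwo (twist (χ * cyc ^ j) ρ) Is P0 u

/-- H8: proof of RED.  For `S` nonempty let `e_S` be as in `RepOK.res`, `Lam S` from H3 (anything for `S = ∅`), and for `k < JJ S` let
`j = k + 1` if `|S| ≥ 2`, `j = 0` if `|S| = 1`; `L S k` := the image under `e_S` of the space of H2 for `A = Dec P0`, `ρ = twist (cyc^j) (ρ S)`,
`u S j`, `t = tn f S j ≤ tmm f S` (`tn` is monotone in `j`, `tn f S 0 = 0`); the hypothesis on invariants of H2 is D13 (3) (H6: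
`red 2 (twist ..) = red 2 ρ`).  So `hL` of H7 holds for `L S k` and this `j`.  `MA f dt JJ tmm L Lam`: H1, H3.  StMA gives `𝒬`; put
`D s = ∏_(q ∈ 𝒬 s) q`: `> B`, squarefree, prime factors in `𝒬 s` (`≡ 1 mod 8`); `∏_(s ∈ S) D s = DS 𝒬 S` (disjointness); `OutD S D` = the
maximal ideals containing neither `2` nor a `q ∈ QS 𝒬 S`.  Given `S` and `j` with `2 j ≤ |S|`: if `j ≥ 1` then `|S| ≥ 2` and `k = j - 1 < JJ S`:
H7 with `L S k`.  If `j ≤ 0`: `tn f S j = 0`, the condition at `P0` says that `c g = ρ''(g) v - v` on `Dec P0`, `ρ'' = twist (cyc^j) ρ`; then `v` is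
integral (no invariants modulo 2: as in H2), so `rdv (c g)` is a coboundary on `Dec P0`: `hL` holds for any `L` with `l = 0`; take `L S k`
for `k = 0 < JJ S`.  Apply H7. -/
def StH8 : Prop :=
  StMA → (StF1 ∧ StF2 ∧ StF3 ∧ StF4) → (StD7 ∧ StD9 ∧ StD10 ∧ StD11 ∧ StD12 ∧ StD13) → (StA4 ∧ StA13 ∧ StA14) →
    (StH1 ∧ StH2 ∧ StH3 ∧ StH4 ∧ StH5 ∧ StH6 ∧ StH7) → StRED

/-- H9 (devissage).  (1) integral `c`.  Let `𝒞` be the set of the `c` with `IntC`.  For `c ∈ 𝒞` there is `m` with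
`c σ ≡ ρ(σ) m - m mod 2`; then `c' = (c - ∂m)/2` is again in `𝒞` (`V`-valued conditions: subtract a coboundary and divide by 2;
continuity).  Iterate: `c = ∂(m_0 + 2 m_1 + .. + 2^(k-1) m_(k-1)) + 2^k c_k`; `v = ∑ 2^k m_k` converges in `ℤ_2^n` and
`c = ∂v`.  (2) `c` with values in `V`: `GQ` is compact and `c` continuous, so `c` is bounded and `2^k c` is integral for some `k`; it satisfies
`IntC`; `2^k c = ∂v`, `c = ∂(2^(-k) v)`. -/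
def StH9 : Prop :=
  ∀ (n t : ℕ) (ρ : GQ →* GL (Fin n) ℤ_[2]), Continuous ρ → ∀ (Is : Set (Ideal Zb)) (P0 : Ideal Zb)
    (u : Fin t → GQ → Fin n → ℚ_[2]), ModTwo ρ Is P0 u → Concl ρ Is P0 u

/-- H10 (continuity).  `cyc` is continuous (`cyclotomicCharacter.continuous` and similar), an `IsQuad D` character is
continuous (it is trivial on the open subgroup fixing a `y ≠ 0`, `y² = D`), so `twist (χ cyc^j) ρ` is continuous. -/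
def StH10 : Prop :=
  ∀ (n : ℕ) (ρ : GQ →* GL (Fin n) ℤ_[2]), Continuous ρ → ∀ (D : ℕ) (χ : GQ →* ℤ_[2]ˣ), D ≠ 0 → IsQuad D χ → ∀ j : ℤ,
    Continuous (twist (χ * cyc ^ j) ρ)

/-- H11: the theorem, from RED, H9, H10. -/
def StH11 : Prop := StRED → StH9 → StH10 → Main

end Pool.TW
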